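import Pool.Agent.R898.AJDefs
import Pool.Agent.R903.BB

/-!
# Bloch–Beilinson filtrations with `F^2` the kernel of the Abel–Jacobi map
-/

open CategoryTheory CategoryTheory.Limits AlgebraicGeometry Polynomial
open Pool.Agent.H914 Pool.Agent.H914.VarClass Pool.Agent.H914.VarClass.Obj
open Pool.Agent.R903 Pool.Agent.R903.WeilTheory

universe u v w

namespace Pool.Agent.R898

variable {k : Type u} [Field k] {𝒱 : VarClass k} {C : ChowTheory.{u, v} 𝒱}
  {W : WeilTheory.{u, v, w} C} {A : AJMap W} {F : C.Family} {X Y : 𝒱.Obj}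

lemma IsBBAJ.anti (h : IsBBAJ A F) (X : 𝒱.Obj) (j : ℕ) {a b : ℕ} (hab : a ≤ b) :
    F X j b ≤ F X j a := by
  induction b, hab using Nat.le_induction with
  | base => exact le_rfl
  | succ b _ ih => exact ((h.isFiltration X j).antitone b).trans ih

lemma IsBBAJ.isWeightFiltration (h : IsBBAJ A F) : W.IsWeightFiltration F := by
  refine ⟨h.isFiltration, fun X i => ?_, fun X i j k d hjk hd x hx => ?_⟩
  · rw [eq_bot_iff, ← h.bot X i]
    exact h.anti X i (by omega)
  · have h1 := h.weight X X i i X.dim k j (d - (j : ℚ) • C.diagC X) rfl hjk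
      (Submodule.sub_mem _ hd.1 (Submodule.smul_mem _ _ (C.diagC_mem X))) (fun a ha => by
        rw [W.act_sub, W.act_smul, LinearMap.sub_apply, LinearMap.smul_apply, W.act_diagC,
          hd.2 j a ha, Rat.cast_natCast, sub_self]) x hx
    rwa [C.act_sub, C.act_smul, LinearMap.sub_apply, LinearMap.smul_apply, C.act_diagC] at h1

lemma IsBBAJ.isBlochBeilinson (hK : W.Kunneth) (hP : C.Polarized) (h : IsBBAJ A F) :
    W.IsBlochBeilinson F :=
  ⟨h.isWeightFiltration.isPreBlochBeilinson hK hP, h.bot⟩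

lemma bb_corr (hF : W.IsBlochBeilinson F) {i j l k : ℕ} {Γ : C.CH (X.prod Y)} {m : ℕ}
    (hΓ : Γ ∈ F (X.prod Y) l m) (h : j + l = i + X.dim) {x : C.CH X} (hx : x ∈ F X j k) :
    C.act Γ x ∈ F Y i (m + k) := by
  rw [C.act_apply]
  refine hF.1.push _ _ (snd X Y) (l + j) i (m + k) (by rw [dim_prod]; omega) _ ?_
  exact hF.1.mul _ l j m k _ hΓ _ (hF.1.pull _ _ (fst X Y) j k x hx)

lemma bb_weight (hK : W.Kunneth) (hF : W.IsBlochBeilinson F) {i j l k m : ℕ}
    {Γ : C.CH (X.prod Y)} (hΓ : Γ ∈ C.gr (X.prod Y) l) (h : j + l = i + X.dim)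
    (hm : m + k = 2 * j) (h0 : ZeroOnSub (W.act Γ) (W.gr X m)) {x : C.CH X} (hx : x ∈ F X j k) :
    C.act Γ x ∈ F Y i (k + 1) := by
  obtain ⟨π, hπ, hπ'⟩ := hK X m
  have hcl : W.cl _ (C.comp π Γ) = 0 := by
    have h1 : ∀ a, W.act (C.comp π Γ) a = 0 := by
      intro a
      rw [W.act_comp _ hΓ]
      refine gr_induction (W.isInternal X) (p := fun a => W.act Γ (W.act π a) = 0) ?_ ?_ a
      · intro l a ha
        rw [hπ' l a ha]
        split_ifs with hl
        · subst hl; exact h0 a ha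
        · rw [map_zero]
      · intro a b ha hb; rw [map_add, map_add, ha, hb, add_zero]
    apply W.nondeg
    intro c
    refine W.kunneth_induction (p := fun c => W.tr (X.prod Y) (W.cl _ (C.comp π Γ) * c) = 0) ?_ ?_ c
    · intro a b ha hb
      rw [mul_add, map_add, ha, hb, add_zero]
    · intro i j a _ b _
      have h2 : W.tr Y (W.act (C.comp π Γ) a * b) =
          W.tr (X.prod Y) (W.cl _ (C.comp π Γ) * (W.map (fst X Y) a * W.map (snd X Y) b)) := by
        rw [W.act_apply, W.tr_push, mul_assoc]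
      rw [← h2, h1, zero_mul, map_zero]
  have h1 : C.comp π Γ ∈ F (X.prod Y) l 1 :=
    (hF.1.kernel _ _ _).2 ⟨C.comp_mem hπ hΓ (by omega), hcl⟩
  have h2 : C.act (C.comp π Γ) x ∈ F Y i (k + 1) := by
    have := bb_corr hF h1 h hx
    rwa [add_comm 1 k] at this
  have h3 : C.act (C.diagC X - π) x ∈ F X j (k + 1) := by
    refine hF.1.weight X j m k _ hm (Submodule.sub_mem _ (C.diagC_mem X) hπ) (fun a ha => ?_) x hx
    rw [W.act_sub, LinearMap.sub_apply, W.act_diagC, hπ' m a ha, if_pos rfl, sub_self]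
  have h4 : C.act Γ (C.act (C.diagC X - π) x) ∈ F Y i (k + 1) := by
    have hΓ0 : Γ ∈ F (X.prod Y) l 0 := by rw [(hF.1.isFiltration _ _).zero]; exact hΓ
    have := bb_corr hF hΓ0 h h3
    rwa [zero_add] at this
  have h5 : C.act Γ x = C.act Γ (C.act (C.diagC X - π) x) + C.act (C.comp π Γ) x := by
    rw [C.act_comp, ← map_add, C.act_sub, LinearMap.sub_apply, C.act_diagC, sub_add_cancel]
  rw [h5]
  exact Submodule.add_mem _ h4 h2

lemma aj_degree {d : C.CH (X.prod X)} (hd : W.IsDegree X d) {j : ℕ} (hj : 1 ≤ j) {x : C.CH X}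
    (hx : x ∈ C.gr X j) (hcl : W.cl X x = 0) :
    A.aj X j (C.act d x) = ((2 * j - 1 : ℕ) : ℚ) • A.aj X j x := by
  obtain ⟨S, hS, hS0⟩ := A.functorial X X j j X.dim
    (d - (((2 * j - 1 : ℕ) : ℚ)) • C.diagC X) rfl
    (Submodule.sub_mem _ hd.1 (Submodule.smul_mem _ _ (C.diagC_mem X)))
  have h0 := hS0 (2 * j - 1) (by omega) (fun a ha => by
    rw [W.act_sub, W.act_smul, LinearMap.sub_apply, LinearMap.smul_apply, W.act_diagC,
      hd.2 _ a ha, Rat.cast_natCast, sub_self])
  have h1 := hS x hx hcl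
  rw [h0, LinearMap.zero_apply, C.act_sub, C.act_smul, LinearMap.sub_apply, LinearMap.smul_apply,
    C.act_diagC, map_sub, map_smul, sub_eq_zero] at h1
  exact h1

lemma cl_degree {d : C.CH (X.prod X)} {x : C.CH X} (hcl : W.cl X x = 0) :
    W.cl X (C.act d x) = 0 := by
  rw [W.cl_act, hcl, map_zero]

/-- The Abel–Jacobi map of a polynomial in a degree operator. -/
lemma aj_aeval {d : C.CH (X.prod X)} (hd : W.IsDegree X d) {j : ℕ} (hj : 1 ≤ j) {x : C.CH X}
    (hx : x ∈ C.gr X j) (hcl : W.cl X x = 0) (p : ℚ[X]) :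
    A.aj X j (aeval (R := ℚ) (A := Module.End ℚ (C.CH X)) (C.act d) p x) =
      p.eval ((2 * j - 1 : ℕ) : ℚ) • A.aj X j x := by
  induction p using Polynomial.induction_on' with
  | add p q hp hq => rw [map_add, LinearMap.add_apply, map_add, hp, hq, eval_add, add_smul]
  | monomial n c =>
    have hn : ∀ n : ℕ, ((C.act d : Module.End ℚ (C.CH X)) ^ n) x ∈ C.gr X j ∧
        W.cl X (((C.act d : Module.End ℚ (C.CH X)) ^ n) x) = 0 ∧
        A.aj X j (((C.act d : Module.End ℚ (C.CH X)) ^ n) x) =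
          ((2 * j - 1 : ℕ) : ℚ) ^ n • A.aj X j x := by
      intro n
      induction n with
      | zero => exact ⟨by simpa using hx, by simpa using hcl, by simp⟩
      | succ n ih =>
        obtain ⟨h1, h2, h3⟩ := ih
        rw [pow_succ', Module.End.mul_apply]
        refine ⟨C.act_mem hd.1 h1 rfl, cl_degree h2, ?_⟩
        rw [aj_degree hd hj h1 h2, h3, smul_smul, pow_succ']
    rw [aeval_monomial, Module.End.mul_apply, eval_monomial, Module.algebraMap_end_apply,
      map_smul, (hn n).2.2, smul_smul]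

lemma nodes_two (j : ℕ) : (Finset.Icc j (2 * j)).filter (fun m => m + 2 ≤ 2 * j) =
    if j = 0 then ∅ else Finset.Icc j (2 * j - 2) := by
  ext m
  split_ifs with h
  · subst h; simp
  · simp only [Finset.mem_filter, Finset.mem_Icc]
    omega

lemma cl_eq_zero_zero (hF : W.IsBlochBeilinson F) {x : C.CH X} (hx : x ∈ C.gr X 0)
    (hcl : W.cl X x = 0) : x = 0 := by
  have h1 : x ∈ F X 0 1 := (hF.1.kernel X 0 x).2 ⟨hx, hcl⟩
  have := hF.2 X 0
  rwa [this, Submodule.mem_bot] at h1

/-- **The annihilation criterion**, with `F^2` the kernel of the Abel–Jacobi map. -/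
theorem exists_isBBAJ_iff (A : AJMap W) (hK : W.Kunneth) (hP : C.Polarized) :
    (∃ F, IsBBAJ A F) ↔ W.Annihilation ∧ AJAnnihilation A := by
  constructor
  · rintro ⟨F, hF⟩
    have hBB := hF.isBlochBeilinson hK hP
    refine ⟨(exists_isBlochBeilinson_iff hK hP).1 ⟨F, hBB⟩, ?_⟩
    intro X j d hd x hx hcl haj
    by_cases hj : j = 0
    · subst hj
      rw [cl_eq_zero_zero hBB hx hcl, map_zero]
    have h1 : x ∈ F X j 2 := (hF.ker_two X j x).2 ⟨(hF.ker_one X j x).2 ⟨hx, hcl⟩, haj⟩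
    have h2 := (mem_fil (lo := id)).1 (by rw [← hBB.eq_fil hd]; exact h1)
    have h3 := nodes_two j
    rw [if_neg hj] at h3
    have h4 : nodes (id j) j 2 = Finset.Icc j (2 * j - 2) := h3
    rw [h4] at h2
    exact h2.2
  · rintro ⟨hA, hAJ⟩
    obtain ⟨F, hF⟩ := (exists_isBlochBeilinson_iff hK hP).2 hA
    refine ⟨F, hF.1.isFiltration, hF.1.kernel, ?_, hF.2, ?_, ?_⟩
    · intro X j x
      obtain ⟨d, hd⟩ := hK.exists_degree X
      by_cases hj : j = 0
      · subst hj
        have h1 := hF.2 X 0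
        constructor
        · intro hx
          have h2 := (hF.1.isFiltration X 0).antitone 1 hx
          refine ⟨h2, ?_⟩
          rw [h1, Submodule.mem_bot] at h2
          rw [h2, map_zero]
        · rintro ⟨hx, _⟩
          rw [h1, Submodule.mem_bot] at hx
          rw [hx]; exact Submodule.zero_mem _
      have h3 := nodes_two j
      rw [if_neg hj] at h3
      have h4 : nodes (id j) j 2 = Finset.Icc j (2 * j - 2) := h3
      have hmem : x ∈ F X j 2 ↔ x ∈ C.gr X j ∧
          prodSub (C.act d) (Finset.Icc j (2 * j - 2)) x = 0 := by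
        rw [hF.eq_fil hd, mem_fil, h4]
        exact Iff.rfl
      constructor
      · intro hx
        have h1 := (hF.1.isFiltration X j).antitone 1 hx
        refine ⟨h1, ?_⟩
        obtain ⟨h5, h6⟩ := (hF.1.kernel X j x).1 h1
        have h7 := (hmem.1 hx).2
        have h8 := aj_aeval (A := A) hd (by omega) h5 h6 (pol (Finset.Icc j (2 * j - 2)))
        have h9 : aeval (R := ℚ) (A := Module.End ℚ (C.CH X)) (C.act d)
            (pol (Finset.Icc j (2 * j - 2))) x = 0 := h7
        rw [h9, map_zero] at h8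
        refine (smul_eq_zero.1 h8.symm).resolve_left (pol_eval_ne fun i hi => ?_)
        rw [Finset.mem_Icc] at hi
        intro h
        have : (2 * j - 1 : ℕ) = i := by exact_mod_cast h
        omega
      · rintro ⟨h1, h2⟩
        obtain ⟨h5, h6⟩ := (hF.1.kernel X j x).1 h1
        exact hmem.2 ⟨h5, hAJ X j d hd x h5 h6 h2⟩
    · intro X Y i j l k Γ h hΓ x hx
      have hΓ0 : Γ ∈ F (X.prod Y) l 0 := by rw [(hF.1.isFiltration _ _).zero]; exact hΓ
      have := bb_corr hF hΓ0 h hx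
      rwa [zero_add] at this
    · intro X Y i j l k m Γ h hm hΓ h0 x hx
      exact bb_weight hK hF hΓ h hm h0 hx

theorem isBBAJ_given (A : AJMap W) (hK : W.Kunneth) (hP : C.Polarized) {F : C.Family}
    (hF : IsBBAJ A F) : W.GivenByDegreeOperators F := by
  intro X i k d hd x
  rw [(hF.isBlochBeilinson hK hP).eq_fil hd]
  exact mem_fil

end Pool.Agent.R898
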