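import Pool.Agent.R898.AJDecDefs
import Pool.Agent.R898.AJ
import Pool.Agent.R903.BBMurre

/-!
# Bloch–Beilinson filtrations, the Abel–Jacobi map and one decomposition for each variety
-/

open CategoryTheory CategoryTheory.Limits AlgebraicGeometry Polynomial
open Pool.Agent.H914 Pool.Agent.H914.VarClass Pool.Agent.H914.VarClass.Obj
open Pool.Agent.R903 Pool.Agent.R903.WeilTheory

universe u v w

namespace Pool.Agent.R898

variable {k : Type u} [Field k] {𝒱 : VarClass k} {C : ChowTheory.{u, v} 𝒱}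
  {W : WeilTheory.{u, v, w} C} {F : C.Family} {X Y : 𝒱.Obj}

theorem bbaj_iff_decompositions (A : AJMap W) (hP : C.Polarized) :
    (W.Kunneth ∧ HasBBAJ A) ↔ ∀ X : 𝒱.Obj, HasAJDecomposition A X := by
  constructor
  · rintro ⟨hK, F, hF⟩ X
    have hBB := hF.isBlochBeilinson hK hP
    obtain ⟨h1, π, h2, h3, h4⟩ := hBB.hasBBDecomposition hP hK X
    refine ⟨h1, π, h2, h3, fun j => ⟨(h4 j).1, ?_, (h4 j).2⟩⟩
    rw [← hBB.eq_ckFil h2, ← hBB.eq_ckFil h2]
    exact hF.ker_two X j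
  · intro h
    have hG : ∀ X : 𝒱.Obj, W.HasBBDecomposition X := by
      intro X
      obtain ⟨h1, π, h2, h3, h4⟩ := h X
      exact ⟨h1, π, h2, h3, fun j => ⟨(h4 j).ker_one, (h4 j).bot⟩⟩
    obtain ⟨hK, F, hF⟩ := (bb_iff_decompositions hP).2 hG
    refine ⟨hK, F, hF.1.isFiltration, hF.1.kernel, ?_, hF.2, ?_, ?_⟩
    · intro X j
      obtain ⟨h1, π, h2, h3, h4⟩ := h X
      have := (h4 j).ker_two
      rwa [← hF.eq_ckFil h2, ← hF.eq_ckFil h2] at this
    · intro X Y i j l k Γ h hΓ x hx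
      have hΓ0 : Γ ∈ F (X.prod Y) l 0 := by rw [(hF.1.isFiltration _ _).zero]; exact hΓ
      have := bb_corr hF hΓ0 h hx
      rwa [zero_add] at this
    · intro X Y i j l k m Γ h hm hΓ h0 x hx
      exact bb_weight hK hF hΓ h hm h0 hx

end Pool.Agent.R898
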