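import Pool.Agent.R898.AJDefs
import Pool.Agent.R903.MurreDefs

/-!
# Bloch–Beilinson filtrations, the Abel–Jacobi map and one decomposition for each variety:
# definitions
-/

open CategoryTheory CategoryTheory.Limits AlgebraicGeometry
open Pool.Agent.H914 Pool.Agent.H914.VarClass Pool.Agent.H914.VarClass.Obj
open Pool.Agent.R903

universe u v w

namespace Pool.Agent.R898

variable {k : Type u} [Field k] {𝒱 : VarClass k} {C : ChowTheory.{u, v} 𝒱}
  {W : WeilTheory.{u, v, w} C}

/-- The filtration `F^k CH^j(X)` of the decomposition `π` has `F^1 CH^j(X)` the kernel of the cycle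
class map, `F^2 CH^j(X)` the kernel of the Abel–Jacobi map on `F^1 CH^j(X)` and
`F^(j+1) CH^j(X) = 0`. -/
structure GoodFiltration (A : AJMap W) (X : 𝒱.Obj) (π : ℕ → C.CH (X.prod X)) (j : ℕ) : Prop where
  ker_one : IsKernelOn (W.cl X) (C.gr X j) (C.ckFil π j 1)
  ker_two : IsLinKernelOn (A.aj X j) (C.ckFil π j 1) (C.ckFil π j 2)
  bot : C.ckFil π j (j + 1) = ⊥

/-- `X` has no phantoms (nonzero idempotent correspondences which act as zero on cohomology), and it
has one Chow–Künneth decomposition with `Hom(h^a(X), h^b(X)) = 0` for `a < b` whose filtration is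
good for each `j`. -/
def HasAJDecomposition (A : AJMap W) (X : 𝒱.Obj) : Prop :=
  W.NoPhantoms X ∧ ∃ π : ℕ → C.CH (X.prod X), W.IsCK X π ∧ C.IsTriangular π ∧
    ∀ j, GoodFiltration A X π j

/-- There is a Bloch–Beilinson filtration on the varieties of the class. -/
def HasBBAJ (A : AJMap W) : Prop := ∃ F : C.Family, IsBBAJ A F

end Pool.Agent.R898
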