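import Pool.Agent.R903.BBDegDefs

/-!
# Bloch–Beilinson filtrations with `F^2` the kernel of the Abel–Jacobi map: definitions
-/

open CategoryTheory CategoryTheory.Limits AlgebraicGeometry
open Pool.Agent.H914 Pool.Agent.H914.VarClass Pool.Agent.H914.VarClass.Obj
open Pool.Agent.R903

universe u v w

namespace Pool.Agent.R898

section Alg

variable {A : Type v} [CommRing A] [Algebra ℚ A] {B : Type v} [CommRing B] [Algebra ℚ B]
  {H : Type w} [Ring H] {J : Type v} [AddCommGroup J] [Module ℚ J] {J' : Type v} [AddCommGroup J']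
  [Module ℚ J']

/-- `S (a x) = a' (T x)` for all `x` in `U` with `c x = 0`. -/
def Induces (U : Submodule ℚ A) (c : A →+* H) (a : A →ₗ[ℚ] J) (a' : B →ₗ[ℚ] J') (T : A →ₗ[ℚ] B)
    (S : J →ₗ[ℚ] J') : Prop :=
  ∀ x ∈ U, c x = 0 → a' (T x) = S (a x)

/-- `U'` is the kernel of `a` on `U`. -/
def IsLinKernelOn (a : A →ₗ[ℚ] J) (U U' : Submodule ℚ A) : Prop :=
  ∀ x, x ∈ U' ↔ x ∈ U ∧ a x = 0

/-- `T` vanishes on `U`. -/
def ZeroOnSub {K : Type w} [Field K] {V : Type w} [AddCommGroup V] [Module K V] {V' : Type w}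
    [AddCommGroup V'] [Module K V'] (T : V →ₗ[K] V') (U : Submodule K V) : Prop :=
  ∀ a ∈ U, T a = 0

/-- `T` vanishes at all `x` in `U` with `c x = 0` and `a x = 0`. -/
def ZeroOnKernel (U : Submodule ℚ A) (c : A →+* H) (a : A →ₗ[ℚ] J) (T : A →ₗ[ℚ] A) : Prop :=
  ∀ x ∈ U, c x = 0 → a x = 0 → T x = 0

end Alg

variable {k : Type u} [Field k] {𝒱 : VarClass k} {C : ChowTheory.{u, v} 𝒱}

/-- An **Abel–Jacobi map**: for each variety `X` and each `j` a homomorphism `aj X j` from the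
homologically trivial classes in `CH^j(X)` to a rational vector space `J X j` (it is extended
linearly to all of `CH(X)` in some way, but only its values on the homologically trivial classes of
codimension `j` are used), such that each correspondence `Γ` in `CH^l(X × Y)` induces a map
`S : J X j → J Y i`, for `i = j + l - dim X`, which is zero if `Γ` acts as zero on
`H^(2j - 1)(X)`. -/
structure AJMap (W : WeilTheory.{u, v, w} C) where
  /-- the intermediate Jacobian, with rational coefficients -/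
  J : 𝒱.Obj → ℕ → Type v
  [grp : ∀ X j, AddCommGroup (J X j)]
  [mod : ∀ X j, Module ℚ (J X j)]
  /-- the Abel–Jacobi map -/
  aj : ∀ (X : 𝒱.Obj) (j : ℕ), C.CH X →ₗ[ℚ] J X j
  functorial : ∀ (X Y : 𝒱.Obj) (i j l : ℕ) (Γ : C.CH (X.prod Y)), j + l = i + X.dim →
    Γ ∈ C.gr (X.prod Y) l → ∃ S : J X j →ₗ[ℚ] J Y i,
      Induces (C.gr X j) (W.cl X) (aj X j) (aj Y i) (C.act Γ) S ∧
        ∀ m, m + 1 = 2 * j → ZeroOnSub (W.act Γ) (W.gr X m) → S = 0

attribute [instance] AJMap.grp AJMap.mod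

variable {W : WeilTheory.{u, v, w} C}

/-- Conditions 1 to 4 for a **Bloch–Beilinson filtration** `F X j k = F^k CH^j(X)`, on the varieties
of the class `𝒱`. -/
structure IsBBAJ (A : AJMap W) (F : C.Family) : Prop where
  isFiltration : C.IsFiltration F
  ker_one : W.KernelAxiom F
  ker_two : ∀ X j, IsLinKernelOn (A.aj X j) (F X j 1) (F X j 2)
  bot : ∀ X j, F X j (j + 1) = ⊥
  corr : ∀ (X Y : 𝒱.Obj) (i j l k : ℕ) (Γ : C.CH (X.prod Y)), j + l = i + X.dim →
    Γ ∈ C.gr (X.prod Y) l → Sends (C.act Γ) (F X j k) (F Y i k)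
  weight : ∀ (X Y : 𝒱.Obj) (i j l k m : ℕ) (Γ : C.CH (X.prod Y)), j + l = i + X.dim →
    m + k = 2 * j → Γ ∈ C.gr (X.prod Y) l → ZeroOnSub (W.act Γ) (W.gr X m) →
      Sends (C.act Γ) (F X j k) (F Y i (k + 1))

/-- For each `X`, `j` and each degree operator `d` of `X` the operator `∏_{m=j}^{2j-2} (d - m)`
annihilates the kernel of the Abel–Jacobi map on the homologically trivial classes in
`CH^j(X)`. -/
def AJAnnihilation (A : AJMap W) : Prop :=
  ∀ (X : 𝒱.Obj) (j : ℕ) (d : C.CH (X.prod X)), W.IsDegree X d →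
    ZeroOnKernel (C.gr X j) (W.cl X) (A.aj X j) (prodSub (C.act d) (Finset.Icc j (2 * j - 2)))

end Pool.Agent.R898
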