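import Pool.Agent.R898.HLA

/-!
# `sl₂`-modules: the halves of the second symmetry
-/

open Finset Pool.Agent.R903

namespace Pool.Agent.R898.HL

variable {V : Type*} [AddCommGroup V] [Module ℚ V]
  {N : ℕ} {G : ℕ → Submodule ℚ V} {x z h : Module.End ℚ V} {p : ℕ → Module.End ℚ V}

/-- projectors onto the weight spaces -/
structure Proj (N : ℕ) (G : ℕ → Submodule ℚ V) (h : Module.End ℚ V) (p : ℕ → Module.End ℚ V) :
    Prop where
  hp : ∀ i v, h (p i v) = ((i : ℚ) - N) • p i v
  ph : ∀ i v, p i (h v) = ((i : ℚ) - N) • p i v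
  sum : ∀ v, ∑ i ∈ range (2 * N + 1), p i v = v
  big : ∀ i, 2 * N < i → ∀ v, p i v = 0
  gp : ∀ i m v, v ∈ G m → p i v ∈ G m

/-- a weight vector is not seen by the other projectors -/
lemma Proj.eq_zero (P : Proj N G h p) {l : ℚ} {v : V} (hv : h v = l • v) {i : ℕ}
    (hi : l ≠ (i : ℚ) - N) : p i v = 0 := by
  have h1 := P.ph i v
  rw [hv, map_smul, ← sub_eq_zero, ← sub_smul] at h1
  exact (smul_eq_zero.1 h1).resolve_left (sub_ne_zero.2 hi)

lemma Proj.eq_self (P : Proj N G h p) {v : V} {i : ℕ} (hv : h v = ((i : ℚ) - N) • v) :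
    p i v = v := by
  by_cases hi : 2 * N < i
  · rw [P.big i hi]
    rw [← P.sum v]
    symm
    refine sum_eq_zero fun j hj => P.eq_zero hv ?_
    rw [mem_range] at hj
    intro h1
    have h2 : (i : ℚ) = j := by linarith
    have h3 : i = j := by exact_mod_cast h2
    omega
  · have h1 := P.sum v
    rw [sum_eq_single i] at h1
    · exact h1
    · intro j _ hj
      refine P.eq_zero hv ?_
      intro h2
      have h3 : (i : ℚ) = j := by linarith
      exact hj (by exact_mod_cast h3.symm)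
    · intro h2; exact absurd (mem_range.2 (by omega)) h2

lemma Proj.comm (P : Proj N G h p) (s : Sl2 N G x z h) (i k : ℕ) (v : V) :
    p (i + 2 * k) ((x ^ k) v) = (x ^ k) (p i v) := by
  have hw : ∀ a, h ((x ^ k) (p a v)) = ((a : ℚ) - N + 2 * k) • (x ^ k) (p a v) := fun a =>
    s.wx (P.hp a v) k
  conv_lhs => rw [← P.sum v]
  rw [map_sum, map_sum]
  by_cases hi : i ∈ range (2 * N + 1)
  · rw [sum_eq_single i]
    · refine P.eq_self ?_
      rw [hw i]
      congr 1
      push_cast
      ring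
    · intro a _ ha
      refine P.eq_zero (hw a) ?_
      intro h1
      push_cast at h1
      have h2 : (a : ℚ) = i := by linarith
      exact ha (by exact_mod_cast h2)
    · intro h1; exact absurd hi h1
  · rw [P.big i (by rw [mem_range] at hi; omega) v, map_zero]
    refine sum_eq_zero fun a ha => P.eq_zero (hw a) ?_
    intro h1
    push_cast at h1
    have h2 : (a : ℚ) = i := by linarith
    have h3 : a = i := by exact_mod_cast h2
    exact hi (h3 ▸ ha)

lemma Proj.comm_zero (P : Proj N G h p) (s : Sl2 N G x z h) {i k : ℕ} (hi : i < 2 * k) (v : V) :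
    p i ((x ^ k) v) = 0 := by
  conv_lhs => rw [← P.sum v]
  rw [map_sum, map_sum]
  refine sum_eq_zero fun a ha => P.eq_zero (s.wx (P.hp a v) k) ?_
  intro h1
  have h2 : ((a + 2 * k : ℕ) : ℚ) = i := by push_cast; linarith
  have h3 : a + 2 * k = i := by exact_mod_cast h2
  omega

/-- no weights above the line -/
def AboveW (N : ℕ) (G : ℕ → Submodule ℚ V) (h : Module.End ℚ V) : Prop :=
  ∀ (m : ℕ) (l : ℤ) (v : V), v ∈ G m → h v = (l : ℚ) • v → 2 * (m : ℤ) ≤ l + N → v = 0

/-- no weights below the line -/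
def BelowW (N : ℕ) (G : ℕ → Submodule ℚ V) (h : Module.End ℚ V) : Prop :=
  ∀ (m : ℕ) (l : ℤ) (v : V), v ∈ G m → h v = (l : ℚ) • v → l + N + 2 ≤ 2 * (m : ℤ) → v = 0

def InjN (N : ℕ) (G : ℕ → Submodule ℚ V) (x : Module.End ℚ V) : Prop :=
  ∀ i j : ℕ, i ≤ j → i + j = N + 1 → ∀ v ∈ G i, (x ^ (j - i)) v = 0 → v = 0

def SurjN (N : ℕ) (G : ℕ → Submodule ℚ V) (x : Module.End ℚ V) : Prop :=
  ∀ i j : ℕ, i ≤ j → i + j = N + 1 → ∀ y ∈ G j, ∃ v ∈ G i, (x ^ (j - i)) v = y

lemma Sl2.lowest (s : Sl2 N G x z h) {v : V} (hz : z v = 0) {l : ℤ} (hv : h v = (l : ℚ) • v)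
    (h0 : v ≠ 0) : ∃ k : ℕ, l = -k ∧ (x ^ (k + 1)) v = 0 := by
  have hl : l ≤ 0 := by
    by_contra hl
    obtain ⟨k, rfl⟩ : ∃ k : ℕ, l = k := ⟨l.natAbs, by omega⟩
    exact h0 (s.injz (m := k) (k := 1) (by rw [hv]; push_cast; rfl) (by omega) (by simpa using hz))
  obtain ⟨k, rfl⟩ : ∃ k : ℕ, l = -k := ⟨l.natAbs, by omega⟩
  refine ⟨k, rfl, ?_⟩
  have hv' : h v = (-(k : ℚ)) • v := by rw [hv]; push_cast; rfl
  have h1 : ∀ v, z (x v) = x (z v) + (-h) v := fun v => by
    rw [LinearMap.neg_apply, s.h1]; abel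
  have h3 : ∀ v, (-h) (x v) = x ((-h) v) - (2 : ℚ) • x v := fun v => by
    rw [LinearMap.neg_apply, LinearMap.neg_apply, s.h2, map_neg]; abel
  have h4 := (jm_lower (x := z) (z := x) (h := -h) h1 h3 (u := v) (l := (k : ℚ))
    (by rw [LinearMap.neg_apply, hv', neg_smul, neg_neg]) hz k).2
  rw [sub_self, mul_zero, zero_smul] at h4
  refine s.injz (m := k + 2) (k := 1) ?_ (by omega) (by simpa using h4)
  rw [s.wx hv']
  congr 1
  push_cast
  ring

theorem Sl2.above_of_inj (s : Sl2 N G x z h) (hI : InjN N G x) : AboveW N G h := by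
  intro m
  induction m with
  | zero =>
    intro l v hv hh hl
    by_contra h0
    obtain ⟨k, rfl, hk⟩ := s.lowest (s.gz0 v hv) hh h0
    refine h0 (hI 0 (N + 1) (by omega) (by omega) v hv ?_)
    have e : N + 1 - 0 = (N - k) + (k + 1) := by omega
    rw [e, pow_add, Module.End.mul_apply, hk, map_zero]
  | succ m ih =>
    intro l v hv hh hl
    by_contra h0
    have hz : z v = 0 := by
      refine ih (l - 2) _ (s.gz m v hv) ?_ (by push_cast at hl ⊢; omega)
      rw [s.h3, hh, map_smul]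
      push_cast
      module
    obtain ⟨k, rfl, hk⟩ := s.lowest hz hh h0
    push_cast at hl
    refine h0 (hI (m + 1) (N + 1 - (m + 1)) (by omega) (by omega) v hv ?_)
    have e : N + 1 - (m + 1) - (m + 1) = (N + 1 - (m + 1) - (m + 1) - (k + 1)) + (k + 1) := by
      omega
    rw [e, pow_add, Module.End.mul_apply, hk, map_zero]

theorem Sl2.inj_of_above (s : Sl2 N G x z h) (P : Proj N G h p) (hA : AboveW N G h) :
    InjN N G x := by
  intro i j hij hj v hv h0
  rw [← P.sum v]
  refine sum_eq_zero fun a _ => ?_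
  by_cases ha : 2 * i ≤ a
  · exact hA i ((a : ℤ) - N) _ (P.gp a i v hv) (by rw [P.hp]; push_cast; rfl) (by omega)
  · have h1 : (x ^ (j - i)) (p a v) = 0 := by rw [← P.comm s, h0, map_zero]
    refine s.injx (m := N - a) (k := j - i) ?_ (by omega) h1
    rw [P.hp, Nat.cast_sub (by omega)]
    congr 1
    ring

theorem Sl2.surj_of_below (s : Sl2 N G x z h) (P : Proj N G h p) (hB : BelowW N G h) :
    SurjN N G x := by
  intro i j hij hj y hy
  have key : ∀ a, ∃ w ∈ G i, (x ^ (j - i)) w = p a y := by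
    intro a
    by_cases ha : a + 2 ≤ 2 * j
    · refine ⟨0, Submodule.zero_mem _, ?_⟩
      rw [map_zero]
      exact (hB j ((a : ℤ) - N) _ (P.gp a j y hy) (by rw [P.hp]; push_cast; rfl) (by omega)).symm
    · have hwt : h (p a y) = ((a - N : ℕ) : ℚ) • p a y := by
        rw [P.hp, Nat.cast_sub (by omega)]
      by_cases hlj : a - N ≤ j
      · obtain ⟨M, hM⟩ := s.nx
        obtain ⟨w, hw1, hw2⟩ := s.surj M (a - N) j (p a y) (P.gp a j y hy) hwt (by
          rw [hM, LinearMap.zero_apply])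
        refine ⟨(x ^ (a - N - (j - i))) w, ?_, ?_⟩
        · have h1 := s.powx (hw1 (j - (a - N)) (by omega)) (a - N - (j - i))
          rwa [show j - (a - N) + (a - N - (j - i)) = i by omega] at h1
        · rw [← Module.End.mul_apply, ← pow_add, show j - i + (a - N - (j - i)) = a - N by omega,
            hw2]
      · refine ⟨0, Submodule.zero_mem _, ?_⟩
        rw [map_zero]
        exact (s.injz hwt (k := j + 1) (by omega) (s.powz0 (P.gp a j y hy))).symm
  choose w hw1 hw2 using key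
  refine ⟨∑ a ∈ range (2 * N + 1), w a, Submodule.sum_mem _ fun a _ => hw1 a, ?_⟩
  rw [map_sum]
  conv_rhs => rw [← P.sum y]
  exact sum_congr rfl fun a _ => hw2 a

theorem Sl2.below_of_surj (s : Sl2 N G x z h) (P : Proj N G h p) (hS : SurjN N G x) :
    BelowW N G h := by
  have key : ∀ (d m : ℕ) (l : ℤ) (y : V), N + 1 ≤ m + d → 0 ≤ l → y ∈ G m →
      h y = (l : ℚ) • y → l + N + 2 ≤ 2 * (m : ℤ) → y = 0 := by
    intro d
    induction d with
    | zero =>
      intro m l y hm _ hy _ _
      rw [s.top m (by omega)] at hy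
      exact (Submodule.mem_bot _).1 hy
    | succ d ih =>
      intro m l y hm hl0 hy hh hl
      by_cases hmN : N < m
      · rw [s.top m hmN] at hy
        exact (Submodule.mem_bot _).1 hy
      obtain ⟨a, ha⟩ : ∃ a : ℕ, (a : ℤ) = l + N := ⟨(l + N).natAbs, by omega⟩
      have haq : (l : ℚ) = (a : ℚ) - N := by
        have : ((a : ℤ) : ℚ) = ((l + N : ℤ) : ℚ) := by rw [ha]
        push_cast at this
        linarith
      have hya : p a y = y := P.eq_self (by rw [hh, haq])
      obtain ⟨v, hv, hv'⟩ := hS (N + 1 - m) m (by omega) (by omega) y hy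
      set k := m - (N + 1 - m) with hk
      by_cases hak : a < 2 * k
      · rw [← hya, ← hv', P.comm_zero s hak]
      · obtain ⟨b, rfl⟩ : ∃ b, a = b + 2 * k := ⟨a - 2 * k, by omega⟩
        rw [← hya, ← hv', P.comm s]
        suffices h0 : p b v = 0 by rw [h0, map_zero]
        have hU : U G h ((N + 1 - m : ℕ) : ℤ) ((b : ℤ) - N) := by
          rw [s.symm]
          intro n hn w hw hhw
          exact ih n _ w (by omega) (by omega) hw hhw (by omega)
        exact hU _ rfl _ (P.gp b _ v hv) (by rw [P.hp]; push_cast; rfl)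
  intro m l v hv hh hl
  rcases le_total 0 l with h0 | h0
  · exact key (N + 1) m l v (by omega) h0 hv hh hl
  · have hU : U G h m l := by
      rw [s.symm]
      intro n hn w hw hhw
      exact key (N + 1) n _ w (by omega) (by omega) hw hhw (by omega)
    exact hU m rfl v hv hh

lemma bij_iff (hx : ∀ m, ∀ v ∈ G m, x v ∈ G (m + 1)) :
    Bij N G x ↔ InjN N G x ∧ SurjN N G x := by
  constructor
  · intro hb
    refine ⟨fun i j hij hj v hv h0 => ?_, fun i j hij hj y hy => ?_⟩
    · exact (hb i j hij hj).injOn hv (Submodule.zero_mem _) (by simpa using h0)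
    · obtain ⟨v, hv, hv'⟩ := (hb i j hij hj).surjOn hy
      exact ⟨v, hv, hv'⟩
  · rintro ⟨hI, hS⟩ i j hij hj
    refine ⟨fun v hv => ?_, fun v hv v' hv' he => ?_, fun y hy => ?_⟩
    · have : ∀ k, (x ^ k) v ∈ G (i + k) := by
        intro k
        induction k with
        | zero => simpa using hv
        | succ k ih => rw [pow_succ', Module.End.mul_apply]; exact hx _ _ ih
      have h1 := this (j - i)
      rwa [show i + (j - i) = j by omega] at h1
    · simp only at he
      rw [← sub_eq_zero, ← map_sub] at he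
      exact sub_eq_zero.1 (hI i j hij hj _ (Submodule.sub_mem _ hv hv') he)
    · obtain ⟨v, hv, hv'⟩ := hS i j hij hj y hy
      exact ⟨v, hv, hv'⟩

end Pool.Agent.R898.HL
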