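import Pool.Agent.R898.HLM

/-!
# Beilinson's arithmetic hard Lefschetz conjecture: dominated varieties and all polarizations
-/

open CategoryTheory CategoryTheory.Limits AlgebraicGeometry
open Pool.Agent.H914 Pool.Agent.H914.VarClass Pool.Agent.H914.VarClass.Obj
open Pool.Agent.R903

universe u v w

namespace Pool.Agent.R898.HL

variable {k : Type u} [Field k] {𝒱 : VarClass k} {C : ChowTheory.{u, v} 𝒱}
  {W : WeilTheory.{u, v, w} C} {X Y Z Z' X' Y' : 𝒱.Obj}

lemma summand_of_dominates (h : Dominates C Z X) : ∃ (α : C.CH (X.prod Z)) (β : C.CH (Z.prod X)),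
    α ∈ C.gr _ X.dim ∧ β ∈ C.gr _ Z.dim ∧ C.comp α β = C.diagC X := by
  obtain ⟨f, c, ζ, hdim, hζ, h1⟩ := h
  change C.push f ζ = 1 at h1
  refine ⟨C.cograph f, C.span (𝟙 Z) f ζ, C.cograph_mem f,
    C.span_mem _ _ hζ (by omega), ?_⟩
  rw [ChowTheory.cograph_comp, ChowTheory.span, ← C.push_comp, ChowTheory.diagC, ← h1,
    ← C.push_comp]
  congr 1
  have : lift (𝟙 Z) f ≫ prodMap f (𝟙 X) = f ≫ Obj.diag X := by
    apply hom_ext_prod <;> simp
  rw [this]

/-- dominated varieties -/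
theorem onlyOdd_of_dominates (hZX : Dominates C Z X) (hZY : Dominates C Z' Y)
    (h : OnlyOdd W Z Z') : OnlyOdd W X Y := by
  intro c m γ hγ h0 x hx
  obtain ⟨α, β, hα, hβ, h1⟩ := summand_of_dominates hZX
  obtain ⟨α', β', hα', hβ', h1'⟩ := summand_of_dominates hZY
  have hx1 : C.act β (C.act α x) = x := by rw [← C.act_comp, h1, C.act_diagC]
  have hfin : ∀ y : C.CH Y, C.act α' y = 0 → y = 0 := by
    intro y hy
    rw [← C.act_diagC y, ← h1', C.act_comp, hy, map_zero]
  have hx' : C.act α x ∈ homTriv W Z (m + 1) := act_homTriv hα hx (by omega)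
  have hle : X.dim ≤ Z.dim := by
    obtain ⟨f, c', ζ, hdim, _⟩ := hZX
    omega
  have hβγ : C.comp β γ ∈ C.gr (Z.prod Y) (Z.dim - X.dim + c) := C.comp_mem hβ hγ (by omega)
  apply hfin
  have hδ : C.comp (C.comp β γ) α' ∈ C.gr (Z.prod Z') (Z.dim - X.dim + c) :=
    C.comp_mem hβγ hα' rfl
  have h2 : C.act (C.comp (C.comp β γ) α') (C.act α x) = 0 := by
    refine h _ m _ hδ (fun z hz => ?_) _ hx'
    rw [W.act_comp _ hα', W.act_comp _ hγ, h0 _ (W.act_mem hβ hz rfl), map_zero]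
  rwa [C.act_comp, C.act_comp, hx1] at h2

lemma pow_mem {D : C.CH X} (hD : D ∈ C.gr X 1) (k : ℕ) : D ^ k ∈ C.gr X k := by
  induction k with
  | zero => simpa using C.one_mem X
  | succ k ih => rw [pow_succ]; exact C.mul_mem ih hD

/-- **All polarizations.** -/
theorem arithLef_of_onlyOdd (hP : C.Polarized) {D : C.CH X} (h : OnlyOdd W X X)
    (hL : LefStd W X D) : ArithLef W X D := by
  obtain ⟨hD, hL⟩ := hL
  intro i j hij hsum
  have hcl : ∀ k, W.cl X (D ^ k) = W.cl X D ^ k := fun k => map_pow _ _ _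
  have hmaps : ∀ {i j : ℕ}, i ≤ j → ∀ x ∈ homTriv W X i, D ^ (j - i) * x ∈ homTriv W X j := by
    intro i j hij x hx
    refine ⟨?_, by rw [map_mul, hx.2, mul_zero]⟩
    have := C.mul_mem (pow_mem hD (j - i)) hx.1
    rwa [show j - i + i = j by omega] at this
  -- the correspondence of `D ^ k`
  have hlef : ∀ (k : ℕ) (x : C.CH X), C.act (C.lef (D ^ k)) x = D ^ k * x := fun k x =>
    act_lef _ _
  have hwlef : ∀ (k : ℕ) (a : W.H X), W.act (C.lef (D ^ k)) a = W.cl X D ^ k * a := fun k a => by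
    rw [wact_lef, hcl]
  have hlm : ∀ k, C.lef (D ^ k) ∈ C.gr (X.prod X) (k + X.dim) := fun k =>
    C.span_mem _ _ (pow_mem hD k) (by omega)
  rcases i with _ | m
  · -- codimension zero
    have hj : j = X.dim + 1 := by omega
    subst hj
    have htop : ∀ y ∈ homTriv W X (X.dim + 1), y = 0 := by
      intro y hy
      have h1 : y ∈ C.gr X (X.dim + 1) := hy.1
      rw [C.gr_eq_bot X _ (by omega)] at h1
      exact (Submodule.mem_bot _).1 h1
    refine ⟨fun x hx => hmaps (by omega) x hx, fun x hx y hy _ => ?_, fun y hy => ?_⟩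
    · rw [homTriv_zero hP hx, homTriv_zero hP hy]
    · exact ⟨0, Submodule.zero_mem _, by rw [htop y hy]; exact mul_zero _⟩
  · obtain ⟨m', rfl⟩ : ∃ m', j = m' + 1 := ⟨j - 1, by omega⟩
    obtain ⟨Λ, hΛ, h1, h2⟩ := hL (2 * m + 1) (by omega)
    have e1 : X.dim - (2 * m + 1) = m' + 1 - (m + 1) := by omega
    have e2 : 2 * X.dim - (2 * m + 1) = 2 * m' + 1 := by omega
    rw [e1] at h1 h2
    rw [e2] at h2
    set k := m' + 1 - (m + 1) with hk
    -- `Λ` after `D ^ k`
    have g1 : ∀ x ∈ homTriv W X (m + 1), C.act Λ (D ^ k * x) = x := by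
      intro x hx
      have hm : C.comp (C.lef (D ^ k)) Λ ∈ C.gr (X.prod X) X.dim :=
        C.comp_mem (hlm k) hΛ (by omega)
      have h3 := h X.dim m (C.comp (C.lef (D ^ k)) Λ - C.diagC X)
        (Submodule.sub_mem _ hm (C.diagC_mem X)) (fun a ha => by
          rw [W.act_sub, LinearMap.sub_apply, W.act_comp _ hΛ, hwlef, h1 a ha, W.act_diagC,
            sub_self]) x hx
      rw [C.act_sub, LinearMap.sub_apply, C.act_comp, C.act_diagC, hlef] at h3
      exact sub_eq_zero.1 h3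
    have g2 : ∀ y ∈ homTriv W X (m' + 1), D ^ k * C.act Λ y = y := by
      intro y hy
      have hm : C.comp Λ (C.lef (D ^ k)) ∈ C.gr (X.prod X) X.dim :=
        C.comp_mem hΛ (hlm k) (by omega)
      have h3 := h X.dim m' (C.comp Λ (C.lef (D ^ k)) - C.diagC X)
        (Submodule.sub_mem _ hm (C.diagC_mem X)) (fun a ha => by
          rw [W.act_sub, LinearMap.sub_apply, W.act_comp _ (hlm k), hwlef, h2 a ha, W.act_diagC,
            sub_self]) y hy
      rw [C.act_sub, LinearMap.sub_apply, C.act_comp, C.act_diagC, hlef] at h3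
      exact sub_eq_zero.1 h3
    refine ⟨fun x hx => hmaps (by omega) x hx, fun x hx y hy hxy => ?_, fun y hy => ?_⟩
    · simp only at hxy
      rw [← g1 x hx, hxy, g1 y hy]
    · exact ⟨C.act Λ y, act_homTriv hΛ hy (by omega), g2 y hy⟩

/-- **The equivalence.** -/
theorem equivalence (hP : C.Polarized) {S : ∀ X : 𝒱.Obj, C.CH X → Prop} (hS : IsClass W S) :
    [∀ X D, S X D → ArithLef W X D, ∀ X Y : 𝒱.Obj, OnlyOdd W X Y,
      ∀ (X : 𝒱.Obj) (D : C.CH X), LefStd W X D → ArithLef W X D].TFAE := by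
  tfae_have 1 → 2 := by
    intro h X Y
    obtain ⟨Z, D, hZ, hZX⟩ := hS.dom X
    obtain ⟨Z', E, hZ', hZY⟩ := hS.dom Y
    exact onlyOdd_of_dominates hZX hZY (onlyOdd_of_arithLef hP (hS.good _ _ hZ)
      (hS.good _ _ hZ') (h _ _ hZ) (h _ _ hZ') (h _ _ (hS.prod _ _ _ _ hZ hZ')))
  tfae_have 2 → 3 := fun h X D hD => arithLef_of_onlyOdd hP (h X X) hD
  tfae_have 3 → 1 := fun h X D hD => h X D (hS.good X D hD).1
  tfae_finish

end Pool.Agent.R898.HL
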