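import Pool.Agent.R898.HIA

/-!
# `sl₂`-modules: injectivity of the powers, with a shift
-/

open Finset Pool.Agent.R903

namespace Pool.Agent.R898.HL

variable {V : Type*} [AddCommGroup V] [Module ℚ V]
  {N : ℕ} {G : ℕ → Submodule ℚ V} {x z h : Module.End ℚ V} {p : ℕ → Module.End ℚ V}

/-- no weights above the line with parameter `r` -/
def AboveR (r N : ℕ) (G : ℕ → Submodule ℚ V) (h : Module.End ℚ V) : Prop :=
  ∀ (m : ℕ) (l : ℤ) (v : V), v ∈ G m → h v = (l : ℚ) • v → 2 * (m : ℤ) + 1 ≤ l + N + r → v = 0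

def InjR (r N : ℕ) (G : ℕ → Submodule ℚ V) (x : Module.End ℚ V) : Prop :=
  ∀ i j : ℕ, i ≤ j → i + j = N + r → ∀ v ∈ G i, (x ^ (j - i)) v = 0 → v = 0

theorem Sl2.aboveR_of_injR (s : Sl2 N G x z h) {r : ℕ} (hI : InjR r N G x) : AboveR r N G h := by
  intro m
  induction m with
  | zero =>
    intro l v hv hh hl
    by_contra h0
    obtain ⟨k, rfl, hk⟩ := s.lowest (s.gz0 v hv) hh h0
    refine h0 (hI 0 (N + r) (by omega) (by omega) v hv ?_)
    have e : N + r - 0 = (N + r - (k + 1)) + (k + 1) := by omega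
    rw [e, pow_add, Module.End.mul_apply, hk, map_zero]
  | succ m ih =>
    intro l v hv hh hl
    by_contra h0
    have hz : z v = 0 := by
      refine ih (l - 2) _ (s.gz m v hv) ?_ (by push_cast at hl ⊢; omega)
      rw [s.h3, hh, map_smul]
      push_cast
      module
    obtain ⟨k, rfl, hk⟩ := s.lowest hz hh h0
    push_cast at hl
    refine h0 (hI (m + 1) (N + r - (m + 1)) (by omega) (by omega) v hv ?_)
    have e : N + r - (m + 1) - (m + 1) = (N + r - (m + 1) - (m + 1) - (k + 1)) + (k + 1) := by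
      omega
    rw [e, pow_add, Module.End.mul_apply, hk, map_zero]

theorem Sl2.injR_of_aboveR (s : Sl2 N G x z h) (P : Proj N G h p) {r : ℕ}
    (hA : AboveR r N G h) : InjR r N G x := by
  intro i j hij hj v hv h0
  rw [← P.sum v]
  refine sum_eq_zero fun a _ => ?_
  by_cases ha : 2 * i + 1 ≤ a + r
  · exact hA i ((a : ℤ) - N) _ (P.gp a i v hv) (by rw [P.hp]; push_cast; rfl) (by omega)
  · have h1 : (x ^ (j - i)) (p a v) = 0 := by rw [← P.comm s, h0, map_zero]
    refine s.injx (m := N - a) (k := j - i) ?_ (by omega) h1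
    rw [P.hp, Nat.cast_sub (by omega)]
    congr 1
    ring

end Pool.Agent.R898.HL
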