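import Pool.Agent.R898.HLM
import Pool.Agent.R903.Lef

/-!
# Self-dual Lefschetz systems
-/

open CategoryTheory CategoryTheory.Limits AlgebraicGeometry Polynomial
open Pool.Agent.H914 Pool.Agent.H914.VarClass Pool.Agent.H914.VarClass.Obj
open Pool.Agent.R903

universe u v w

namespace Pool.Agent.R898.HL

variable {k : Type u} [Field k] {𝒱 : VarClass k} {C : ChowTheory.{u, v} 𝒱}
  {W : WeilTheory.{u, v, w} C} {X Y : 𝒱.Obj}

/-- Existence of a Lefschetz system. -/
theorem exists_system' {L : C.CH (X.prod X)} (hL : L ∈ C.gr (X.prod X) (X.dim + 1))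
    {Λ : C.CH (X.prod X)} (hΛ : Λ ∈ C.gr (X.prod X) (X.dim - 1))
    (h : C.bracket L (C.bracket L Λ) = -((2 : ℚ) • L)) :
    ∃ Λ' π, C.IsLefschetzSystem L Λ' π ∧ C.wt π = C.bracket L Λ := by
  classical
  by_cases hn : X.dim = 0
  · -- dimension zero
    have hL0 : L = 0 := by
      rw [C.gr_eq_bot _ _ (by rw [dim_prod]; omega), Submodule.mem_bot] at hL
      exact hL
    subst hL0
    refine ⟨0, fun j => if j = 0 then C.diagC X else 0,
      ⟨⟨?_, ?_, ?_, ?_⟩, ?_, ⟨?_, ?_, ?_⟩⟩, ?_⟩
    · intro j; split_ifs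
      · exact C.diagC_mem X
      · exact Submodule.zero_mem _
    · intro j; split_ifs
      · exact C.comp_diagC _
      · exact C.comp_zero _
    · intro i j hij
      by_cases hi : i = 0
      · rw [if_neg (show ¬ j = 0 by omega)]; exact C.comp_zero _
      · rw [if_neg hi]; exact C.zero_comp _
    · rw [hn]; simp
    · exact Submodule.zero_mem _
    · simp [ChowTheory.bracket, ChowTheory.wt, hn, C.comp_zero]
    · simp [ChowTheory.bracket, ChowTheory.wt, hn, C.comp_zero]
    · simp [ChowTheory.bracket, ChowTheory.wt, hn, C.comp_zero]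
    · simp [ChowTheory.bracket, ChowTheory.wt, hn, C.comp_zero, C.zero_comp]
  set x := CorrRing.of C X L with hx
  set z := CorrRing.of C X Λ with hz
  set hh := CorrRing.of C X (C.bracket L Λ) with hhh
  have hxz : x * z - z * x = hh := rfl
  have hbr : C.bracket L Λ ∈ C.gr (X.prod X) X.dim :=
    Submodule.sub_mem _ (C.comp_mem hΛ hL (by omega)) (C.comp_mem hL hΛ (by omega))
  have hhx : hh * x - x * hh = (2 : ℚ) • x := by
    have h1 : x * hh - hh * x = -((2 : ℚ) • x) := h
    rw [← neg_sub, h1, neg_neg]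
  set S : Submodule ℚ (CorrRing C X) :=
    (C.gr (X.prod X) (X.dim - 1)).map (CorrRing.of C X).toLinearMap
  have hS : ∀ a, a ∈ S ↔ (CorrRing.of C X).symm a ∈ C.gr (X.prod X) (X.dim - 1) := by
    intro a
    constructor
    · rintro ⟨b, hb, rfl⟩; exact hb
    · intro h; exact ⟨_, h, rfl⟩
  have hnil := C.pow_eq_zero_of_codim hL
  obtain ⟨y, hyS, hxy, hhy⟩ := jacobson_morozov ⟨_, hnil⟩ hxz hhx (S := S) ((hS _).2 hΛ)
    (fun a ha => by
      rw [hS] at ha ⊢
      exact Submodule.sub_mem _ (C.comp_mem ha hbr (by omega)) (C.comp_mem hbr ha (by omega)))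
  have hss := sl2_semisimple hnil hxy hhx hhy
  set d : C.CH (X.prod X) := C.bracket L Λ + (X.dim : ℚ) • C.diagC X with hd
  have hdgr : d ∈ C.gr (X.prod X) X.dim :=
    Submodule.add_mem _ hbr (Submodule.smul_mem _ _ (C.diagC_mem X))
  have hdof : CorrRing.of C X d = hh + algebraMap ℚ _ (X.dim : ℚ) := by
    rw [hd, map_add, map_smul, CorrRing.of_one, Algebra.algebraMap_eq_smul_one]
  rw [← hdof] at hss
  set N := 2 * X.dim + 1 with hN
  set π : ℕ → CorrRing C X := fun j =>
    if j < N then aeval (CorrRing.of C X d) (lag (Finset.range N) j) else 0 with hπ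
  have hmod : ∀ p : ℚ[X], pol (Finset.range N) ∣ p → aeval (CorrRing.of C X d) p = 0 := by
    rintro p ⟨q, rfl⟩
    rw [map_mul, hss, zero_mul]
  have hdπ : ∀ j, CorrRing.of C X d * π j = (j : ℚ) • π j := by
    intro j
    simp only [hπ]
    split_ifs with hj
    · obtain ⟨c, hc⟩ := lag_mul (Finset.mem_range.2 hj)
      have h1 := hmod _ (Dvd.intro_left _ hc.symm)
      rw [map_mul, map_sub, aeval_X, aeval_C, sub_mul, sub_eq_zero] at h1
      rw [h1, Algebra.smul_def]
    · rw [mul_zero, smul_zero]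
  have hpπ : ∀ (p : ℚ[X]) (j : ℕ), aeval (CorrRing.of C X d) p * π j = p.eval (j : ℚ) • π j := by
    intro p j
    have h1 : (Algebra.lmul ℚ (CorrRing C X) (CorrRing.of C X d)) (π j) = (j : ℚ) • π j := by
      simpa using hdπ j
    have h2 := aeval_eigen h1 p
    rw [aeval_algHom_apply] at h2
    simpa using h2
  have hmul : ∀ i j, π i * π j = if i = j then π j else 0 := by
    intro i j
    by_cases hi : i < N
    · have h1 : π i = aeval (CorrRing.of C X d) (lag (Finset.range N) i) := by
        simp only [hπ]; rw [if_pos hi]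
      rw [h1, hpπ]
      by_cases hj : j < N
      · split_ifs with hij
        · subst hij
          have h2 : (lag (Finset.range N) i).eval (i : ℚ) = 1 :=
            Lagrange.eval_basis_self (v := fun j : ℕ => (j : ℚ))
              (fun a _ b _ hab => by have h : (a : ℚ) = b := hab; exact_mod_cast h)
              (Finset.mem_range.2 hi)
          rw [h2, one_smul]
        · have h2 : (lag (Finset.range N) i).eval (j : ℚ) = 0 :=
            Lagrange.eval_basis_of_ne (v := fun j : ℕ => (j : ℚ)) hij (Finset.mem_range.2 hj)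
          rw [h2, zero_smul]
      · have h3 : π j = 0 := by simp only [hπ]; rw [if_neg hj]
        rw [h3, smul_zero, ite_self]
    · have h3 : π i = 0 := by simp only [hπ]; rw [if_neg hi]
      rw [h3, zero_mul]
      split_ifs with hij
      · rw [← hij, h3]
      · rfl
  have hsum : ∑ j ∈ Finset.range N, π j = 1 := by
    have h1 : ∀ j ∈ Finset.range N, π j =
        aeval (CorrRing.of C X d) (lag (Finset.range N) j) := by
      intro j hj
      simp only [hπ]; rw [if_pos (Finset.mem_range.1 hj)]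
    rw [Finset.sum_congr rfl h1, ← map_sum]
    have h2 := Lagrange.sum_basis (s := Finset.range N) (v := fun j : ℕ => (j : ℚ))
      (fun a _ b _ hab => by have h : (a : ℚ) = b := hab; exact_mod_cast h)
      ⟨0, Finset.mem_range.2 (by omega)⟩
    have h3 : ∑ j ∈ Finset.range N, lag (Finset.range N) j = 1 := h2
    rw [h3, map_one]
  have hwt : ∑ j ∈ Finset.range N, ((j : ℚ) - X.dim) • π j = hh := by
    have h1 : ∀ j ∈ Finset.range N, ((j : ℚ) - X.dim) • π j =
        (CorrRing.of C X d - algebraMap ℚ _ (X.dim : ℚ)) * π j := by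
      intro j _
      rw [sub_smul, sub_mul, hdπ, Algebra.smul_def (X.dim : ℚ)]
    rw [Finset.sum_congr rfl h1, ← Finset.mul_sum, hsum, mul_one, hdof]
    abel
  refine ⟨(CorrRing.of C X).symm y, fun j => (CorrRing.of C X).symm (π j),
    ⟨⟨?_, ?_, ?_, ?_⟩, ?_, ⟨?_, ?_, ?_⟩⟩, hwt⟩
  · intro j
    simp only [hπ]
    split_ifs
    · exact C.aeval_mem_gr hdgr _
    · exact Submodule.zero_mem _
  · intro j
    have := hmul j j
    rw [if_pos rfl] at this
    exact this
  · intro i j hij
    have := hmul j i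
    rw [if_neg (Ne.symm hij)] at this
    exact this
  · exact hsum
  · exact (hS y).1 hyS
  · exact hxy.trans hwt.symm
  · have h1 : C.wt (fun j => (CorrRing.of C X).symm (π j)) = C.bracket L Λ := hwt
    rw [h1]
    exact hhx
  · have h1 : C.wt (fun j => (CorrRing.of C X).symm (π j)) = C.bracket L Λ := hwt
    rw [h1]
    exact hhy


lemma transp_add (a b : C.CH (X.prod Y)) : C.transp (a + b) = C.transp a + C.transp b := by
  simp [ChowTheory.transp]

lemma comp_neg (a : C.CH (X.prod X)) (b : C.CH (X.prod X)) : C.comp a (-b) = -C.comp a b := by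
  have := C.comp_smul (-1) a b
  simpa using this

lemma neg_comp (a : C.CH (X.prod X)) (b : C.CH (X.prod X)) : C.comp (-a) b = -C.comp a b := by
  have := C.smul_comp (-1) a b
  simpa using this

lemma bracket_neg' (a b : C.CH (X.prod X)) : C.bracket a (-b) = -C.bracket a b := by
  rw [ChowTheory.bracket, ChowTheory.bracket, comp_neg, neg_comp]
  abel

lemma bracket_add (a b b' : C.CH (X.prod X)) :
    C.bracket a (b + b') = C.bracket a b + C.bracket a b' := by
  rw [ChowTheory.bracket, ChowTheory.bracket, ChowTheory.bracket, C.add_comp, C.comp_add]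
  abel

lemma bracket_smul (q : ℚ) (a b : C.CH (X.prod X)) :
    C.bracket a (q • b) = q • C.bracket a b := by
  rw [ChowTheory.bracket, ChowTheory.bracket, C.smul_comp, C.comp_smul, smul_sub]

/-- **Each `(X, D)` with a Lefschetz system has a self-dual one.** -/
theorem exists_dual {D : C.CH X} (hD : D ∈ C.gr X 1) {Λ : C.CH (X.prod X)}
    {π : ℕ → C.CH (X.prod X)} (h : C.IsLefschetzSystem (C.lef D) Λ π) :
    ∃ Λ' π', C.IsLefschetzSystem (C.lef D) Λ' π' ∧ C.transp (C.wt π') = -C.wt π' := by
  have hb := ChowTheory.IsLefschetzSystem.bracket_bracket h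
  have ht1 : C.bracket (C.lef D) (C.transp Λ) = -C.transp (C.bracket (C.lef D) Λ) := by
    have h1 := bracket_transp (C.lef D) Λ
    rwa [transp_lef] at h1
  have ht2 : C.bracket (C.lef D) (C.bracket (C.lef D) (C.transp Λ)) = -((2 : ℚ) • C.lef D) := by
    rw [ht1, bracket_neg']
    have h1 := bracket_transp (C.lef D) (C.bracket (C.lef D) Λ)
    rw [transp_lef] at h1
    rw [h1, neg_neg, hb, transp_neg, transp_smul, transp_lef]
  have hm : (1 / 2 : ℚ) • (Λ + C.transp Λ) ∈ C.gr (X.prod X) (X.dim - 1) :=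
    Submodule.smul_mem _ _ (Submodule.add_mem _ h.mem_Λ (C.transp_mem h.mem_Λ))
  obtain ⟨Λ', π', hs, hw⟩ := exists_system' (lef_mem hD) hm (by
    rw [bracket_smul, bracket_smul, bracket_add, bracket_add, hb, ht2]
    module)
  refine ⟨Λ', π', hs, ?_⟩
  rw [hw, bracket_smul, bracket_add, ht1, transp_smul, transp_add, transp_neg, transp_transp]
  module

end Pool.Agent.R898.HL
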