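import Pool.Agent.R898.HIS
import Pool.Agent.R898.HIA
import Pool.Agent.R898.HIE
import Pool.Agent.R898.HLN

/-!
# The Hodge index conjecture for height pairings
-/

open CategoryTheory CategoryTheory.Limits AlgebraicGeometry
open Pool.Agent.H914 Pool.Agent.H914.VarClass Pool.Agent.H914.VarClass.Obj
open Pool.Agent.R903

universe u v w

namespace Pool.Agent.R898.HL

variable {k : Type u} [Field k] {𝒱 : VarClass k} {C : ChowTheory.{u, v} 𝒱}
  {W : WeilTheory.{u, v, w} C} {X Y Z : 𝒱.Obj}

/-! ### the halves of Question 1 -/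

lemma proj_of_system (W : WeilTheory.{u, v, w} C) {L Λ : C.CH (X.prod X)}
    {π : ℕ → C.CH (X.prod X)} (h : C.IsLefschetzSystem L Λ π) :
    Proj X.dim (homTriv W X) (C.act (C.wt π)) (fun i => C.act (π i)) where
  hp i v := by rw [← C.act_comp, comp_wt h, C.act_smul, LinearMap.smul_apply]
  ph i v := by rw [← C.act_comp, wt_comp h, C.act_smul, LinearMap.smul_apply]
  sum v := by
    conv_rhs => rw [← C.act_diagC v, ← h.decomp.sum, C.act_sum, LinearMap.sum_apply]
  big i hi v := by rw [pi_zero h hi, C.act_zero]; rfl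
  gp i m v hv := act_homTriv (h.decomp.mem i) hv rfl

lemma lefInj_iff (D : C.CH X) :
    LefInj W X D ↔ InjN X.dim (homTriv W X) (C.act (C.lef D)) := by
  refine forall_congr' fun i => forall_congr' fun j => imp_congr_right fun _ =>
    imp_congr_right fun _ => ?_
  rw [MulInj]
  simp only [act_lef_pow]

lemma lefSurj_iff (D : C.CH X) :
    LefSurj W X D ↔ SurjN X.dim (homTriv W X) (C.act (C.lef D)) := by
  refine forall_congr' fun i => forall_congr' fun j => imp_congr_right fun _ =>
    imp_congr_right fun _ => ?_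
  rw [MulSurj]
  simp only [act_lef_pow]

lemma arithLef_iff_halves {D : C.CH X} (hD : D ∈ C.gr X 1) :
    ArithLef W X D ↔ LefInj W X D ∧ LefSurj W X D := by
  rw [arithLef_iff, lefInj_iff, lefSurj_iff]
  exact bij_iff fun m v hv => act_homTriv (lef_mem hD) hv (by omega)

lemma aboveW_iff {L Λ : C.CH (X.prod X)} {π : ℕ → C.CH (X.prod X)}
    (h : C.IsLefschetzSystem L Λ π) :
    AboveW X.dim (homTriv W X) (C.act (C.wt π)) ↔ NoneAbove W X π := by
  have P := proj_of_system W h
  constructor
  · intro hA i m him x hx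
    exact hA m ((i : ℤ) - X.dim) _ (P.gp i m x hx) (by
      have := P.hp i x
      rw [this]; push_cast; rfl) (by omega)
  · intro hN m l v hv hh hl
    rw [← P.sum v]
    refine Finset.sum_eq_zero fun i _ => ?_
    by_cases hi : 2 * m ≤ i
    · exact hN i m hi v hv
    · refine P.eq_zero hh fun h1 => ?_
      have h2 : (l : ℚ) = (((i : ℤ) - X.dim : ℤ) : ℚ) := by rw [h1]; push_cast; rfl
      have h3 : l = (i : ℤ) - X.dim := by exact_mod_cast h2
      omega

lemma belowW_iff {L Λ : C.CH (X.prod X)} {π : ℕ → C.CH (X.prod X)}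
    (h : C.IsLefschetzSystem L Λ π) :
    BelowW X.dim (homTriv W X) (C.act (C.wt π)) ↔ NoneBelow W X π := by
  have P := proj_of_system W h
  constructor
  · intro hA i m him x hx
    exact hA m ((i : ℤ) - X.dim) _ (P.gp i m x hx) (by
      have := P.hp i x
      rw [this]; push_cast; rfl) (by omega)
  · intro hN m l v hv hh hl
    rw [← P.sum v]
    refine Finset.sum_eq_zero fun i _ => ?_
    by_cases hi : i + 2 ≤ 2 * m
    · exact hN i m hi v hv
    · refine P.eq_zero hh fun h1 => ?_
      have h2 : (l : ℚ) = (((i : ℤ) - X.dim : ℤ) : ℚ) := by rw [h1]; push_cast; rfl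
      have h3 : l = (i : ℤ) - X.dim := by exact_mod_cast h2
      omega

/-- **Injectivity in Question 1.** -/
theorem lefInj_iff_noneAbove (hP : C.Polarized) {D : C.CH X} (hD : D ∈ C.gr X 1)
    {Λ : C.CH (X.prod X)} {π : ℕ → C.CH (X.prod X)} (h : C.IsLefschetzSystem (C.lef D) Λ π) :
    LefInj W X D ↔ NoneAbove W X π := by
  have s := sl2_of_system W hP hD h
  have P := proj_of_system W h
  rw [lefInj_iff, ← aboveW_iff h]
  exact ⟨s.above_of_inj, s.inj_of_above P⟩

/-- **Surjectivity in Question 1.** -/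
theorem lefSurj_iff_noneBelow (hP : C.Polarized) {D : C.CH X} (hD : D ∈ C.gr X 1)
    {Λ : C.CH (X.prod X)} {π : ℕ → C.CH (X.prod X)} (h : C.IsLefschetzSystem (C.lef D) Λ π) :
    LefSurj W X D ↔ NoneBelow W X π := by
  have s := sl2_of_system W hP hD h
  have P := proj_of_system W h
  rw [lefSurj_iff, ← belowW_iff h]
  exact ⟨s.below_of_surj P, s.surj_of_below P⟩

/-! ### height pairings -/

lemma tr_eq (γ : C.CH (X.prod Y)) : tr C γ = C.transp γ := rfl

variable {ht : ∀ X : 𝒱.Obj, C.CH X → C.CH X → ℝ}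

lemma BiAdd.zero_right {A : Type v} [CommRing A] [Algebra ℚ A] {h : A → A → ℝ}
    {U V : Submodule ℚ A} (hb : BiAdd h U V) {x : A} (hx : x ∈ U) : h x 0 = 0 := by
  have h1 := hb.right x hx 0 V.zero_mem 0 V.zero_mem
  rw [add_zero] at h1
  linarith

lemma BiAdd.zero_left {A : Type v} [CommRing A] [Algebra ℚ A] {h : A → A → ℝ}
    {U V : Submodule ℚ A} (hb : BiAdd h U V) {y : A} (hy : y ∈ V) : h 0 y = 0 := by
  have h1 := hb.left 0 U.zero_mem 0 U.zero_mem y hy
  rw [add_zero] at h1
  linarith

lemma BiAdd.smul_left {A : Type v} [CommRing A] [Algebra ℚ A] {h : A → A → ℝ}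
    {U V : Submodule ℚ A} (hb : BiAdd h U V) {x y : A} (hx : x ∈ U) (hy : y ∈ V) (q : ℚ) :
    h (q • x) y = q * h x y := by
  let f : U →+ ℝ := AddMonoidHom.mk' (fun x => h x y) fun a b => hb.left a a.2 b b.2 y hy
  have h1 := map_rat_smul f q (⟨x, hx⟩ : U)
  have h2 : q • f ⟨x, hx⟩ = (q : ℝ) * f ⟨x, hx⟩ := Rat.smul_def _ _
  rw [h2] at h1
  exact h1

lemma BiAdd.smul_right {A : Type v} [CommRing A] [Algebra ℚ A] {h : A → A → ℝ}
    {U V : Submodule ℚ A} (hb : BiAdd h U V) {x y : A} (hx : x ∈ U) (hy : y ∈ V) (q : ℚ) :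
    h x (q • y) = q * h x y := by
  let f : V →+ ℝ := AddMonoidHom.mk' (fun y => h x y) fun a b => hb.right x hx a a.2 b b.2
  have h1 := map_rat_smul f q (⟨y, hy⟩ : V)
  have h2 : q • f ⟨y, hy⟩ = (q : ℝ) * f ⟨y, hy⟩ := Rat.smul_def _ _
  rw [h2] at h1
  exact h1

lemma BiAdd.sum_right {A : Type v} [CommRing A] [Algebra ℚ A] {h : A → A → ℝ}
    {U V : Submodule ℚ A} (hb : BiAdd h U V) {x : A} (hx : x ∈ U) {ι : Type*} (s : Finset ι)
    (y : ι → A) (hy : ∀ i, y i ∈ V) : h x (∑ i ∈ s, y i) = ∑ i ∈ s, h x (y i) := by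
  classical
  induction s using Finset.induction_on with
  | empty => rw [Finset.sum_empty, Finset.sum_empty, hb.zero_right hx]
  | insert a s ha ih =>
    rw [Finset.sum_insert ha, Finset.sum_insert ha, hb.right x hx _ (hy a) _
      (Submodule.sum_mem _ fun i _ => hy i), ih]

/-- the multiplication by a power of `D` is self-adjoint -/
lemma IsHeight.mul_adj (hh : IsHeight W ht) {D : C.CH X} (hD : D ∈ C.gr X 1) {i r j : ℕ}
    (hij : i + r + j = X.dim + 1) {x y : C.CH X} (hx : x ∈ homTriv W X i)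
    (hy : y ∈ homTriv W X j) : ht X (D ^ r * x) y = ht X x (D ^ r * y) := by
  have hm : C.lef (D ^ r) ∈ C.gr (X.prod X) (r + X.dim) := by
    rw [lef_eq]
    exact C.span_mem _ _ (pow_mem hD r) (by omega)
  have h := hh.adj X X (r + X.dim) i j (C.lef (D ^ r)) hm (by omega) x hx y hy
  rwa [tr_eq, transp_lef, act_lef, act_lef] at h

/-- eigenvectors whose weights are not opposite are orthogonal -/
lemma IsHeight.orth (hh : IsHeight W ht) {H : C.CH (X.prod X)} (hH : H ∈ C.gr _ X.dim)
    (hdual : C.transp H = -H) {i j : ℕ} (hij : i + j = X.dim + 1) {x y : C.CH X}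
    (hx : x ∈ homTriv W X i) (hy : y ∈ homTriv W X j) {l m : ℚ} (hl : C.act H x = l • x)
    (hm : C.act H y = m • y) (hlm : l + m ≠ 0) : ht X x y = 0 := by
  have hb := hh.bi X i j hij
  have h := hh.adj X X X.dim i j H hH (by omega) x hx y hy
  have hn : C.act (-H) y = -(C.act H y) := by
    have h1 : C.act (-H) y + C.act H y = 0 := by
      rw [← LinearMap.add_apply, ← C.act_add, neg_add_cancel, C.act_zero]; rfl
    exact eq_neg_of_add_eq_zero_left h1
  rw [tr_eq, hdual, hn, hl, hm, hb.smul_left hx hy, ← neg_smul, hb.smul_right hx hy] at h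
  push_cast at h
  have h2 : ((l + m : ℚ) : ℝ) * ht X x y = 0 := by push_cast; linarith
  rcases mul_eq_zero.1 h2 with h3 | h3
  · exact absurd (by exact_mod_cast h3) hlm
  · exact h3

/-- Question 2 implies injectivity in Question 1 -/
theorem lefInj_of_hodgeIndex (hh : IsHeight W ht) {D : C.CH X}
    (hQ : HodgeIndex W ht X D) : LefInj W X D := by
  intro i j hij hj x hx h0
  by_contra hx0
  have h1 := hQ i j hij hj x hx hx0 (by rw [pow_succ', mul_assoc, h0, mul_zero])
  rw [h0, (hh.bi X i j hj).zero_right hx, mul_zero] at h1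
  exact lt_irrefl _ h1

/-- nondegeneracy and nothing above the line imply nothing below the line -/
theorem belowW_of_nonDeg (hh : IsHeight W ht) {L Λ : C.CH (X.prod X)}
    {π : ℕ → C.CH (X.prod X)} (h : C.IsLefschetzSystem L Λ π)
    (hdual : C.transp (C.wt π) = -C.wt π) (hA : AboveW X.dim (homTriv W X) (C.act (C.wt π)))
    (hN : HeightNonDeg W ht X) : BelowW X.dim (homTriv W X) (C.act (C.wt π)) := by
  have P := proj_of_system W h
  intro m l v hv hhv hl
  by_cases hm : X.dim < m
  · have h1 : v ∈ C.gr X m := hv.1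
    rw [C.gr_eq_bot X m hm] at h1
    exact (Submodule.mem_bot _).1 h1
  obtain ⟨j, hj⟩ : ∃ j, m + j = X.dim + 1 := ⟨X.dim + 1 - m, by omega⟩
  have hb := hh.bi X m j hj
  refine hN m j hj v hv fun y hy => ?_
  rw [← P.sum y, hb.sum_right hv _ _ fun i => P.gp i j y hy]
  refine Finset.sum_eq_zero fun i _ => ?_
  by_cases hli : l + ((i : ℤ) - X.dim) = 0
  · have h0 : C.act (π i) y = 0 := by
      refine hA j ((i : ℤ) - X.dim) _ (P.gp i j y hy) (by
        have := P.hp i y
        rw [this]; push_cast; rfl) (by omega)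
    rw [h0, hb.zero_right hv]
  · refine hh.orth (wt_mem h) hdual hj hv (P.gp i j y hy) hhv (P.hp i y) ?_
    intro h1
    apply hli
    have h2 : ((l + ((i : ℤ) - X.dim) : ℤ) : ℚ) = 0 := by push_cast; exact h1
    exact_mod_cast h2

/-- Questions 1 and 2 imply nondegeneracy -/
theorem nonDeg_of_arithLef (hP : C.Polarized) (hh : IsHeight W ht) {D : C.CH X}
    (hD : D ∈ C.gr X 1) (hL : ArithLef W X D) (hQ : HodgeIndex W ht X D) :
    HeightNonDeg W ht X := by
  have hmul : ∀ {i k : ℕ} {x : C.CH X}, x ∈ homTriv W X i → D ^ k * x ∈ homTriv W X (k + i) := by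
    intro i k x hx
    exact ⟨C.mul_mem (pow_mem hD k) hx.1, by rw [map_mul, hx.2, mul_zero]⟩
  have key : ∀ i j : ℕ, i ≤ j → i + j = X.dim + 1 → ∀ x ∈ homTriv W X i,
      (∀ y ∈ homTriv W X j, ht X x y = 0) → x = 0 := by
    intro i
    induction i with
    | zero => intro j _ _ x hx _; exact homTriv_zero hP hx
    | succ i ih =>
      intro j hij hj x hx hx0
      have hb := hh.bi X (i + 1) j hj
      have h1 := hL i (j + 1) (by omega) (by omega)
      have hxj : D ^ (j - i) * x ∈ homTriv W X (j + 1) := by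
        have := hmul (k := j - i) hx
        rwa [show j - i + (i + 1) = j + 1 by omega] at this
      obtain ⟨w, hw, hw'⟩ := h1.surjOn hxj
      simp only at hw'
      have hDw : D * w ∈ homTriv W X (i + 1) := by
        have := hmul (k := 1) hw
        rwa [pow_one, add_comm] at this
      set p := x - D * w with hp
      have hpm : p ∈ homTriv W X (i + 1) := Submodule.sub_mem _ hx hDw
      have hprim : D ^ (j - (i + 1) + 1) * p = 0 := by
        rw [show j - (i + 1) + 1 = j - i by omega, hp, mul_sub, ← mul_assoc, ← pow_succ,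
          show j - i + 1 = j + 1 - i by omega, hw', sub_self]
      have hyj : D ^ (j - (i + 1)) * p ∈ homTriv W X j := by
        have := hmul (k := j - (i + 1)) hpm
        rwa [show j - (i + 1) + (i + 1) = j by omega] at this
      have hp0 : p = 0 := by
        by_contra hne
        have h2 := hQ (i + 1) j hij hj p hpm hne hprim
        have h3 := hb.left p hpm (D * w) hDw _ hyj
        have e1 : p + D * w = x := by rw [hp]; ring
        rw [e1, hx0 _ hyj] at h3
        have h4 := hh.mul_adj hD (i := i) (r := 1) (j := j) (by omega) hw hyj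
        rw [pow_one, ← mul_assoc, ← pow_succ', hprim,
          (hh.bi X i (j + 1) (by omega)).zero_right hw] at h4
        rw [h4, add_zero] at h3
        rw [← h3, mul_zero] at h2
        exact lt_irrefl _ h2
      have hxw : x = D * w := sub_eq_zero.1 hp0
      have hw0 : w = 0 := by
        refine ih (j + 1) (by omega) (by omega) w hw fun y' hy' => ?_
        obtain ⟨u, hu, hu'⟩ := h1.surjOn hy'
        simp only at hu'
        have hy : D ^ (j - i) * u ∈ homTriv W X j := by
          have := hmul (k := j - i) hu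
          rwa [show j - i + i = j by omega] at this
        have h4 := hh.mul_adj hD (i := i) (r := 1) (j := j) (by omega) hw hy
        rw [pow_one, ← mul_assoc, ← pow_succ', show j - i + 1 = j + 1 - i by omega, hu', ← hxw,
          hx0 _ hy] at h4
        exact h4.symm
      rw [hxw, hw0, mul_zero]
  intro i j hij x hx hx0
  rcases le_total i j with h | h
  · exact key i j h hij x hx hx0
  · have h1 := hL j i h (by omega)
    obtain ⟨x', hx', hxx⟩ := h1.surjOn hx
    simp only at hxx
    have h0 : x' = 0 := by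
      refine key j i h (by omega) x' hx' fun y hy => ?_
      obtain ⟨y', hy', hyy⟩ := h1.surjOn hy
      simp only at hyy
      have h4 := hh.mul_adj hD (i := j) (r := i - j) (j := j) (by omega) hx' hy'
      rw [hxx, hyy, hx0 _ hy'] at h4
      exact h4.symm
    rw [← hxx, h0, mul_zero]

/-- **Given Question 2, Question 1 is the nondegeneracy of the height pairing.** -/
theorem arithLef_iff_nonDeg (hP : C.Polarized) (hh : IsHeight W ht) {D : C.CH X}
    (hD : D ∈ C.gr X 1) {Λ : C.CH (X.prod X)} {π : ℕ → C.CH (X.prod X)}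
    (h : C.IsLefschetzSystem (C.lef D) Λ π) (hQ : HodgeIndex W ht X D) :
    ArithLef W X D ↔ HeightNonDeg W ht X := by
  constructor
  · intro hL
    exact nonDeg_of_arithLef hP hh hD hL hQ
  · intro hN
    obtain ⟨Λ', π', hs, hdual⟩ := exists_dual hD h
    have hI := lefInj_of_hodgeIndex hh hQ
    have hA := (aboveW_iff hs).2 ((lefInj_iff_noneAbove hP hD hs).1 hI)
    have hB := (belowW_iff hs).1 (belowW_of_nonDeg hh hs hdual hA hN)
    exact (arithLef_iff_halves hD).2 ⟨hI, (lefSurj_iff_noneBelow hP hD hs).2 hB⟩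

/-- nondegeneracy for dominated varieties -/
theorem nonDeg_of_dominates (hh : IsHeight W ht) (hZX : Dominates C Z X)
    (hN : HeightNonDeg W ht Z) : HeightNonDeg W ht X := by
  obtain ⟨α, β, hα, hβ, h1⟩ := summand_of_dominates hZX
  intro i j hij x hx hx0
  have hle : X.dim ≤ Z.dim := by
    obtain ⟨f, c', ζ, hdim, _⟩ := hZX
    omega
  have hαx : C.act α x ∈ homTriv W Z i := act_homTriv hα hx (by omega)
  suffices h0 : C.act α x = 0 by
    rw [← C.act_diagC x, ← h1, C.act_comp, h0, map_zero]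
  refine hN i (j + (Z.dim - X.dim)) (by omega) _ hαx fun z hz => ?_
  have h2 := hh.adj X Z X.dim i (j + (Z.dim - X.dim)) α hα (by omega) x hx z hz
  rw [h2]
  exact hx0 _ (act_homTriv (C.transp_mem hα) hz (by omega))

/-- **The equivalences, for a class of pairs.** -/
theorem equivalence_height (hP : C.Polarized) (hh : IsHeight W ht)
    {S : ∀ X : 𝒱.Obj, C.CH X → Prop} (hS : IsClass W S)
    (hQ : ∀ X D, S X D → HodgeIndex W ht X D) :
    [∀ X D, S X D → ArithLef W X D, ∀ X : 𝒱.Obj, HeightNonDeg W ht X,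
      ∀ X Y : 𝒱.Obj, OnlyOdd W X Y,
      ∀ (X : 𝒱.Obj) (D : C.CH X), LefStd W X D → ArithLef W X D].TFAE := by
  have h := equivalence hP hS
  tfae_have 1 ↔ 3 := h.out 0 1
  tfae_have 3 ↔ 4 := h.out 1 2
  tfae_have 1 → 2 := by
    intro hL X
    obtain ⟨Z, D, hZ, hZX⟩ := hS.dom X
    exact nonDeg_of_dominates hh hZX (nonDeg_of_arithLef hP hh (hS.good _ _ hZ).1.1
      (hL _ _ hZ) (hQ _ _ hZ))
  tfae_have 2 → 1 := by
    intro hN X D hX
    obtain ⟨hstd, Λ, π, hs⟩ := hS.good X D hX
    exact (arithLef_iff_nonDeg hP hh hstd.1 hs.toR (hQ X D hX)).2 (hN X)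
  tfae_finish

end Pool.Agent.R898.HL
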