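import Pool.Agent.R898.MLS
import Pool.Agent.R898.HIM
import Pool.Agent.R903.BBD
import Pool.Agent.R903.Summand

/-!
# Murre's conjectures and the injectivity of the Lefschetz maps
-/

open CategoryTheory CategoryTheory.Limits AlgebraicGeometry
open Pool.Agent.H914 Pool.Agent.H914.VarClass Pool.Agent.H914.VarClass.Obj
open Pool.Agent.R903 Pool.Agent.R898.HL

universe u v w

namespace Pool.Agent.R898.ML

variable {k : Type u} [Field k] {𝒱 : VarClass k} {C : ChowTheory.{u, v} 𝒱}
  {W : WeilTheory.{u, v, w} C} {X Y Z : 𝒱.Obj}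

/-! ### translations -/

lemma isCKDec_iff {π : ℕ → C.CH (X.prod X)} : IsCKDec W X π ↔ W.IsCK X π := by
  constructor
  · intro h
    refine ⟨h.mem, fun j => ?_, fun i j hij => ?_, h.orth.sum, h.proj⟩
    · have h1 := h.orth.mul j j
      rw [if_pos rfl] at h1
      exact h1
    · have h1 := h.orth.mul i j
      rw [if_neg hij] at h1
      exact h1
  · intro h
    refine ⟨h.mem, ⟨fun i j => ?_, h.sum⟩, h.proj⟩
    change C.comp (π i) (π j) = _
    exact h.comp_eq i j

lemma ckf_eq (π : ℕ → C.CH (X.prod X)) (i k : ℕ) : ckf C π i k = C.ckFil π i k := rfl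

lemma firstIsKernel_iff' {π : ℕ → C.CH (X.prod X)} {i : ℕ} :
    W.FirstIsKernel π i ↔ ckf C π i 1 = homTriv W X i := by
  constructor
  · intro h
    ext x
    exact h x
  · intro h x
    have h1 : x ∈ ckf C π i 1 ↔ x ∈ homTriv W X i := by rw [h]
    exact h1

lemma murreD_iff : MurreD W X ↔ W.MurreD X :=
  ⟨fun h π hπ i => firstIsKernel_iff'.2 (h π (isCKDec_iff.2 hπ) i),
    fun h π hπ i => firstIsKernel_iff'.1 (h π (isCKDec_iff.1 hπ) i)⟩

/-- `π l` kills `CH^i(X)` for `l < i` -/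
def Low (C : ChowTheory.{u, v} 𝒱) {X : 𝒱.Obj} (π : ℕ → C.CH (X.prod X)) : Prop :=
  ∀ i l, l < i → ∀ y ∈ C.gr X i, C.act (π l) y = 0

lemma low_iff {π : ℕ → C.CH (X.prod X)} (hπ : W.IsCK X π) :
    Low C π ↔ ∀ i, C.ckFil π i (i + 1) = ⊥ := by
  constructor
  · intro h i
    rw [eq_bot_iff]
    intro x hx
    rw [WeilTheory.mem_ckFil hπ] at hx
    rw [Submodule.mem_bot, ← hπ.sum_act x]
    refine Finset.sum_eq_zero fun l _ => ?_
    by_cases hl : l < i
    · exact h i l hl x hx.1
    · exact hx.2 l (by omega)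
  · intro h i l hl y hy
    have h1 : C.act (π l) y ∈ C.ckFil π i (i + 1) := by
      rw [WeilTheory.mem_ckFil hπ]
      refine ⟨C.act_mem (hπ.mem l) hy rfl, fun b hb => ?_⟩
      rw [hπ.act_act, if_neg (by omega)]
    rw [h i] at h1
    exact (Submodule.mem_bot _).1 h1

lemma low_of_system {D : C.CH X} (hD : D ∈ C.gr X 1) {Λ : C.CH (X.prod X)}
    {π : ℕ → C.CH (X.prod X)} (h : C.IsLefschetzSystem (C.lef D) Λ π) : Low C π :=
  fun _ _ hl _ hy => ChowTheory.IsLefschetzSystem.act_eq_zero h (lef_mem hD) (Or.inl hl) hy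

/-- (A)–(D) from one decomposition -/
lemma murre_of_lowers (hP : C.Polarized) {π : ℕ → C.CH (X.prod X)} (hπ : W.IsCK X π)
    (hL : W.LowersIndex π π) (h0 : Low C π) : Murre W X := by
  have hC := WeilTheory.LowersIndex.murreC hπ hL
  have hD := WeilTheory.LowersIndex.murreD hπ hL hP
  refine ⟨⟨π, isCKDec_iff.2 hπ⟩, fun σ hσ i => ⟨?_, ?_⟩, fun σ σ' hσ hσ' i k => ?_,
    murreD_iff.2 hD⟩
  · exact WeilTheory.murreB0_of_firstIsKernel (fun τ hτ => hD τ hτ i) σ (isCKDec_iff.1 hσ)
  · rw [ckf_eq, hC i (i + 1) σ π (isCKDec_iff.1 hσ) hπ]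
    exact (low_iff hπ).1 h0 i
  · exact hC i k σ σ' (isCKDec_iff.1 hσ) (isCKDec_iff.1 hσ')

/-! ### strict triangularity from injectivity on the square -/

lemma _root_.Pool.Agent.R898.HL.neg_comp2 (a : C.CH (X.prod X)) (b : C.CH (X.prod X)) :
    C.comp (-a) b = -C.comp a b := by
  have := C.smul_comp (-1) a b
  simpa using this

theorem lowers_of_lefInj (hP : C.Polarized) {D : C.CH X} (hs : LefStd W X D)
    {Λ : C.CH (X.prod X)} {π : ℕ → C.CH (X.prod X)} (hπs : C.IsLefschetzSystem (C.lef D) Λ π)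
    (hQ : LefInj W (X.prod X) (sumClass C D D)) : W.LowersIndex π π := by
  have hπ := isCK_of_system hs hπs
  intro γ hγ h0 a b hab
  set δ := C.comp (C.comp (π a) γ) (π b) with hδ
  have hδm : δ ∈ C.gr (X.prod X) X.dim :=
    C.comp_mem (C.comp_mem (hπ.mem _) hγ rfl) (hπ.mem _) rfl
  have hδ0 : W.act δ = 0 := by
    ext c
    rw [LinearMap.zero_apply, hδ, W.act_comp _ (hπ.mem _), W.act_comp _ hγ, h0, map_zero]
  have hδt : δ ∈ homTriv W (X.prod X) X.dim := ⟨hδm, cl_eq_zero_of_act W hδ0⟩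
  have hT : C.IsTriple (C.lef (sumClass C D D)) (ts (-C.transp (C.wt π)) (C.wt π))
      (ts (C.transp Λ) Λ) := by
    have h1 := triple_ts (triple_transp hπs.triple) hπs.triple
    rw [transp_lef, ts, ← lef_fst, ← lef_snd, ← lef_add] at h1
    exact h1
  have hDm : sumClass C D D ∈ C.gr (X.prod X) 1 :=
    Submodule.add_mem _ (C.pull_mem _ hs.1) (C.pull_mem _ hs.1)
  have hHm : ts (-C.transp (C.wt π)) (C.wt π) ∈ C.gr _ (X.prod X).dim := by
    rw [dim_prod]
    exact Submodule.add_mem _ (C.tensor_mem (Submodule.neg_mem _ (C.transp_mem (wt_mem hπs)))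
      (C.diagC_mem X)) (C.tensor_mem (C.diagC_mem X) (wt_mem hπs))
  have hΛm : ts (C.transp Λ) Λ ∈ C.gr _ ((X.prod X).dim - 1) := by
    rw [dim_prod]
    by_cases hd : X.dim = 0
    · rw [ts, system_zero hπs hd, C.transp_zero, C.zero_tensor, C.tensor_zero, add_zero]
      exact Submodule.zero_mem _
    · refine Submodule.add_mem _ ?_ ?_
      · have := C.tensor_mem (C.transp_mem hπs.mem_Λ) (C.diagC_mem X)
        rwa [show X.dim - 1 + X.dim = X.dim + X.dim - 1 by omega] at this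
      · have := C.tensor_mem (C.diagC_mem X) hπs.mem_Λ
        rwa [show X.dim + (X.dim - 1) = X.dim + X.dim - 1 by omega] at this
  have s := sl2_of_triple W hP hDm hT hHm hΛm (fun hd => by
    rw [dim_prod] at hd
    rw [ts, system_zero hπs (by omega), C.transp_zero, C.zero_tensor, C.tensor_zero, add_zero])
  have hI : InjN (X.prod X).dim (homTriv W (X.prod X)) (C.act (C.lef (sumClass C D D))) :=
    (HL.lefInj_iff _).1 hQ
  refine s.above_of_inj hI X.dim ((b : ℤ) - a) δ hδt ?_ (by rw [dim_prod]; push_cast; omega)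
  have e5 : C.act (C.tensor (-C.transp (C.wt π)) (C.diagC X)) δ = C.comp (-C.wt π) δ := by
    rw [← transp_neg, C.act_tensor, C.comp_diagC]
  have e6 : C.act (C.tensor (C.diagC X) (C.wt π)) δ = C.comp δ (C.wt π) := by
    have h1 := C.act_tensor (C.diagC X) (C.wt π) δ
    rwa [C.transp_diagC, C.diagC_comp] at h1
  rw [ts, C.act_add, LinearMap.add_apply, e5, e6]
  have e1 : C.comp (-C.wt π) δ = (-((a : ℚ) - X.dim)) • δ := by
    rw [HL.neg_comp2, hδ, ← C.comp_assoc, ← C.comp_assoc, wt_comp hπs, C.smul_comp, C.smul_comp,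
      neg_smul]
  have e3 : C.comp δ (C.wt π) = ((b : ℚ) - X.dim) • δ := by
    rw [hδ, C.comp_assoc, comp_wt hπs, C.comp_smul]
  rw [e1, e3, ← add_smul]
  congr 1
  push_cast
  ring

/-! ### dominated varieties -/

/-- Strict triangularity passes to direct summands. -/
theorem lowers_of_isSummand (hs : C.IsSummand X Y) {ρ : ℕ → C.CH (Y.prod Y)}
    (h : W.IsCK Y ρ) (hL : W.LowersIndex ρ ρ) {π : ℕ → C.CH (X.prod X)} (hπ : W.IsCK X π) :
    W.LowersIndex π π := by
  have hT : C.IsTriangular ρ := WeilTheory.LowersIndex.isTriangular h hL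
  have hN : W.NoPhantoms Y := WeilTheory.LowersIndex.noPhantoms h hL
  obtain ⟨c, c', α, β, hα, hβ, hcc, hαβ⟩ := hs
  set hat : C.CH (X.prod X) → C.CH (Y.prod Y) := fun e => C.comp (C.comp β e) α with hhat
  have hgr : ∀ e ∈ C.gr (X.prod X) X.dim, hat e ∈ C.gr (Y.prod Y) Y.dim := fun e he =>
    C.comp_mem (C.comp_mem hβ he rfl) hα (by omega)
  have hmul : ∀ e f, C.comp (hat e) (hat f) = hat (C.comp e f) := by
    intro e f
    simp only [hhat]
    rw [C.comp_assoc (C.comp β e) α, ← C.comp_assoc α (C.comp β f) α, ← C.comp_assoc α β f, hαβ,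
      C.diagC_comp]
    simp only [C.comp_assoc]
  have hinj : ∀ e, C.comp (C.comp α (hat e)) β = e := by
    intro e
    simp only [hhat]
    rw [← C.comp_assoc α (C.comp β e) α, ← C.comp_assoc α β e, hαβ, C.diagC_comp, C.comp_assoc,
      hαβ, C.comp_diagC]
  have hact : ∀ e ∈ C.gr (X.prod X) X.dim, ∀ v, W.act (hat e) v =
      W.act α (W.act e (W.act β v)) := by
    intro e he v
    simp only [hhat]
    rw [W.act_comp _ hα, W.act_comp _ he]
  intro γ hγ hγ0 a b hab
  have hγz : IsZeroMap (W.act (hat γ)) := fun v => by rw [hact γ hγ, hγ0, map_zero]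
  -- the degrees of the idempotents
  have hdeg : ∀ a l, l + 2 * c' ≠ a + 2 * Y.dim → ∀ v ∈ W.gr Y l, W.act (hat (π a)) v = 0 := by
    intro a l hl v hv
    rw [hact _ (hπ.mem a)]
    by_cases h1 : l + 2 * c' < 2 * Y.dim
    · rw [W.act_eq_zero hβ hv h1, map_zero, map_zero]
    · have h2 : W.act β v ∈ W.gr X (l + 2 * c' - 2 * Y.dim) := W.act_mem hβ hv (by omega)
      rw [hπ.proj a _ _ h2, if_neg (by omega), map_zero]
  have hzero : C.comp (C.comp (hat (π a)) (hat γ)) (hat (π b)) = 0 := by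
    by_cases ha : a + 2 * Y.dim < 2 * c'
    · have h1 : hat (π a) = 0 := by
        apply hN _ (hgr _ (hπ.mem a)) (by rw [hmul, hπ.idem])
        intro v
        refine gr_induction (W.isInternal Y) (p := fun v => W.act (hat (π a)) v = 0) ?_ ?_ v
        · intro l v hv
          exact hdeg a l (by omega) v hv
        · intro v v' hv hv'
          rw [map_add, hv, hv', add_zero]
      rw [h1, C.zero_comp, C.zero_comp]
    · obtain ⟨ma, hma⟩ : ∃ ma, ma + 2 * c' = a + 2 * Y.dim := ⟨a + 2 * Y.dim - 2 * c', by omega⟩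
      obtain ⟨mb, hmb⟩ : ∃ mb, mb + 2 * c' = b + 2 * Y.dim := ⟨b + 2 * Y.dim - 2 * c', by omega⟩
      have ca := h.comparison' hT hN (hgr _ (hπ.mem a)) (by rw [hmul, hπ.idem]) (m := ma)
        (fun l hl => hdeg a l (by omega))
      have cb := h.comparison' hT hN (hgr _ (hπ.mem b)) (by rw [hmul, hπ.idem]) (m := mb)
        (fun l hl => hdeg b l (by omega))
      rw [h.comp_sum_comp (hat (π a)) (hat γ), C.sum_comp]
      refine Finset.sum_eq_zero fun l _ => ?_
      by_cases hl : ma < l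
      · rw [ca.2 l hl, C.zero_comp, C.zero_comp]
      · rw [h.comp_sum_comp (C.comp (C.comp (hat (π a)) (ρ l)) (hat γ)) (hat (π b))]
        refine Finset.sum_eq_zero fun l' _ => ?_
        by_cases hl' : l' < mb
        · rw [C.comp_assoc _ (ρ l'), cb.1 l' hl', C.comp_zero]
        · have h2 := hL (hat γ) (hgr γ hγ) hγz l l' (by omega)
          have h3 : C.comp (C.comp (C.comp (hat (π a)) (ρ l)) (hat γ)) (ρ l') =
              C.comp (hat (π a)) (C.comp (C.comp (ρ l) (hat γ)) (ρ l')) := by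
            simp only [C.comp_assoc]
          rw [h3, h2, C.comp_zero, C.zero_comp]
  rw [hmul, hmul] at hzero
  rw [← hinj (C.comp (C.comp (π a) γ) (π b)), hzero, C.comp_zero, C.zero_comp]

/-- the lower half of (B) passes to dominated varieties -/
theorem low_of_summand {α : C.CH (X.prod Z)} {β : C.CH (Z.prod X)} (hα : α ∈ C.gr _ X.dim)
    (hβ : β ∈ C.gr _ Z.dim) (hαβ : C.comp α β = C.diagC X) {ρ : ℕ → C.CH (Z.prod Z)}
    (h : W.IsCK Z ρ) (hL : W.LowersIndex ρ ρ) (h0 : Low C ρ) {π : ℕ → C.CH (X.prod X)}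
    (hπ : W.IsCK X π) : Low C π := by
  have hT : C.IsTriangular ρ := WeilTheory.LowersIndex.isTriangular h hL
  have hN : W.NoPhantoms Z := WeilTheory.LowersIndex.noPhantoms h hL
  intro i j hji x hx
  set e := C.comp (C.comp β (π j)) α with he
  have hegr : e ∈ C.gr (Z.prod Z) Z.dim := C.comp_mem (C.comp_mem hβ (hπ.mem j) rfl) hα (by omega)
  have hee : C.comp e e = e := by
    rw [he, C.comp_assoc (C.comp β (π j)) α, ← C.comp_assoc α (C.comp β (π j)) α,
      ← C.comp_assoc α β (π j), hαβ, C.diagC_comp, ← C.comp_assoc, C.comp_assoc β, hπ.idem]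
  have hdeg : ∀ l, l ≠ j → ∀ v ∈ W.gr Z l, W.act e v = 0 := by
    intro l hl v hv
    rw [he, W.act_comp _ hα, W.act_comp _ (hπ.mem j)]
    have h2 : W.act β v ∈ W.gr X l := W.act_mem hβ hv (by omega)
    rw [hπ.proj j _ _ h2, if_neg hl, map_zero]
  have cmp := h.comparison' hT hN hegr hee (m := j) hdeg
  have hy : C.act α x ∈ C.gr Z i := C.act_mem hα hx (by omega)
  have hey : C.act e (C.act α x) = 0 := by
    rw [← h.sum_act (C.act e (C.act α x))]
    refine Finset.sum_eq_zero fun l _ => ?_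
    by_cases hl : l < i
    · exact h0 i l hl _ (C.act_mem hegr hy rfl)
    · rw [← C.act_comp, cmp.2 l (by omega), C.act_zero, LinearMap.zero_apply]
  have hx1 : C.act (π j) x = C.act β (C.act e (C.act α x)) := by
    rw [he, C.act_comp, C.act_comp, ← C.act_comp α β, hαβ, C.act_diagC, ← C.act_comp α β, hαβ,
      C.act_diagC]
  rw [hx1, hey, map_zero]

/-- everything for dominated varieties -/
theorem exists_dec (hP : C.Polarized) {S : ∀ X : 𝒱.Obj, C.CH X → Prop} (hS : IsClass W S)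
    (hI : ∀ X D, S X D → LefInj W X D) (X : 𝒱.Obj) :
    ∃ π, W.IsCK X π ∧ W.LowersIndex π π ∧ Low C π := by
  obtain ⟨Z, D, hZ, hZX⟩ := hS.dom X
  obtain ⟨hstd, Λ, ρ, hs⟩ := hS.good Z D hZ
  have hρ := isCK_of_system hstd hs.toR
  have hL := lowers_of_lefInj hP hstd hs.toR (hI _ _ (hS.prod _ _ _ _ hZ hZ))
  have h0 := low_of_system hstd.1 hs.toR
  obtain ⟨α, β, hα, hβ, hαβ⟩ := summand_of_dominates hZX
  have hsum : C.IsSummand X Z := ⟨X.dim, Z.dim, α, β, hα, hβ, rfl, hαβ⟩
  obtain ⟨π, hπ⟩ := WeilTheory.hasCK_of_isSummand hsum hρ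
    (WeilTheory.LowersIndex.isTriangular hρ hL)
  exact ⟨π, hπ, lowers_of_isSummand hsum hρ hL hπ, low_of_summand hα hβ hαβ hρ hL h0 hπ⟩

/-! ### Bloch–Beilinson filtrations -/

lemma isBB_of {F : ∀ X : 𝒱.Obj, ℕ → ℕ → Submodule ℚ (C.CH X)}
    (hF : W.IsBlochBeilinson F) : IsBB W F where
  descends X j :=
    { antitone := (hF.1.isFiltration X j).antitone
      zero := (hF.1.isFiltration X j).zero
      one := by
        ext x
        exact hF.1.kernel X j x
      bot := hF.2 X j }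
  sends X Y i j l Γ hl hΓ := by
    intro k x hx
    have h1 := hF.1.pull (X.prod Y) X (fst X Y) j k x hx
    have h2 : Γ ∈ F (X.prod Y) l 0 := by
      rw [(hF.1.isFiltration (X.prod Y) l).zero]; exact hΓ
    have h3 := hF.1.mul (X.prod Y) l j 0 k Γ h2 _ h1
    rw [zero_add] at h3
    have h4 := hF.1.push (X.prod Y) Y (snd X Y) (l + j) i k (by rw [dim_prod]; omega) _ h3
    rwa [C.act_apply]
  raises X j γ hγ := by
    intro k m hm h0 x hx
    exact hF.1.weight X j m k γ hm hγ h0 x hx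

theorem lefInj_of_isBB {F : ∀ X : 𝒱.Obj, ℕ → ℕ → Submodule ℚ (C.CH X)}
    (hF : IsBB W F) {D : C.CH X} (hL : LefStd W X D) : LefInj W X D := by
  obtain ⟨hD, hL⟩ := hL
  intro i j hij hj x hx h0
  have hcl : ∀ k, W.cl X (D ^ k) = W.cl X D ^ k := fun k => map_pow _ _ _
  have key : ∀ s, 1 ≤ s → x ∈ F X i s := by
    intro s hs
    induction s, hs using Nat.le_induction with
    | base => rw [(hF.descends X i).one]; exact hx
    | succ s hs ih =>
      by_cases hsi : i < s
      · -- the filtration is zero here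
        have hz : ∀ t, i + 1 ≤ t → F X i t = ⊥ := by
          intro t ht
          induction t, ht using Nat.le_induction with
          | base => exact (hF.descends X i).bot
          | succ t _ iht =>
            rw [eq_bot_iff, ← iht]
            exact (hF.descends X i).antitone t
        rw [hz s hsi] at ih
        rw [(Submodule.mem_bot _).1 ih]
        exact Submodule.zero_mem _
      · obtain ⟨Λ, hΛ, h1, _⟩ := hL (2 * i - s) (by omega)
        set r := X.dim - (2 * i - s) with hr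
        have hlm : C.lef (D ^ r) ∈ C.gr (X.prod X) (r + X.dim) :=
          C.span_mem _ _ (pow_mem hD r) (by omega)
        have hm : C.comp (C.lef (D ^ r)) Λ ∈ C.gr (X.prod X) X.dim :=
          C.comp_mem hlm hΛ (by omega)
        have h3 := hF.raises X i (C.comp (C.lef (D ^ r)) Λ - C.diagC X)
          (Submodule.sub_mem _ hm (C.diagC_mem X)) s (2 * i - s) (by omega) (fun a ha => by
            rw [W.act_sub, LinearMap.sub_apply, W.act_comp _ hΛ, wact_lef, hcl, h1 a ha,
              W.act_diagC, sub_self]) x ih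
        have h4 : D ^ r * x = 0 := by
          have e : r = (r - (j - i)) + (j - i) := by omega
          rw [e, pow_add, mul_assoc, h0, mul_zero]
        rw [C.act_sub, LinearMap.sub_apply, C.act_comp, C.act_diagC, act_lef, h4, map_zero,
          zero_sub] at h3
        exact (Submodule.neg_mem_iff _).1 h3
  have h1 := key (i + 1) (by omega)
  rw [(hF.descends X i).bot] at h1
  exact (Submodule.mem_bot _).1 h1

/-- (D) gives injectivity -/
theorem lefInj_of_murreD (hP : C.Polarized) {D : C.CH X} (hg : Good W X D) (hD : MurreD W X) :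
    LefInj W X D := by
  obtain ⟨hstd, Λ, π, hs⟩ := hg
  have hπ := isCK_of_system hstd hs.toR
  have hD' := murreD_iff.1 hD π hπ
  have hN : NoneAbove W X π := by
    intro i m him x hx
    exact ((WeilTheory.IsCK.firstIsKernel_iff hπ).1 (hD' m)) x hx.1 hx.2 i him
  exact (lefInj_iff_noneAbove hP hstd.1 hs.toR).2 hN

/-- **One variety.** -/
theorem murre_of_square (hP : C.Polarized) {D : C.CH X} (hg : Good W X D)
    (hQ : LefInj W (X.prod X) (sumClass C D D)) : Murre W X := by
  obtain ⟨hstd, Λ, π, hs⟩ := hg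
  exact murre_of_lowers hP (isCK_of_system hstd hs.toR) (lowers_of_lefInj hP hstd hs.toR hQ)
    (low_of_system hstd.1 hs.toR)

/-- **The equivalence.** -/
theorem tfae (hP : C.Polarized) {S : ∀ X : 𝒱.Obj, C.CH X → Prop} (hS : IsClass W S) :
    [∀ X D, S X D → LefInj W X D, ∀ X : 𝒱.Obj, MurreD W X, ∀ X : 𝒱.Obj, Murre W X,
      ∃ F : ∀ X : 𝒱.Obj, ℕ → ℕ → Submodule ℚ (C.CH X), IsBB W F,
      ∀ (X : 𝒱.Obj) (D : C.CH X), LefStd W X D → LefInj W X D].TFAE := by
  tfae_have 1 → 3 := by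
    intro h X
    obtain ⟨π, hπ, hL, h0⟩ := exists_dec hP hS h X
    exact murre_of_lowers hP hπ hL h0
  tfae_have 3 → 2 := fun h X => (h X).conjD
  tfae_have 2 → 1 := fun h X D hX => lefInj_of_murreD hP (hS.good X D hX) (h X)
  tfae_have 1 → 4 := by
    intro h
    have h3 : ∀ X : 𝒱.Obj, ∃ π, W.IsCK X π ∧ W.LowersIndex π π ∧
        ∀ i, C.ckFil π i (i + 1) = ⊥ := by
      intro X
      obtain ⟨π, hπ, hL, h0⟩ := exists_dec hP hS h X
      exact ⟨π, hπ, hL, (low_iff hπ).1 h0⟩
    obtain ⟨_, F, hF⟩ := ((WeilTheory.bb_tfae (W := W) hP).out 2 0).1 h3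
    exact ⟨F, isBB_of hF⟩
  tfae_have 4 → 5 := fun ⟨F, hF⟩ X D hD => lefInj_of_isBB hF hD
  tfae_have 5 → 1 := fun h X D hX => h X D (hS.good X D hX).1
  tfae_finish

end Pool.Agent.R898.ML
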