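import Pool.Agent.R898.MBS
import Pool.Agent.R898.MBA
import Pool.Agent.R898.MLM

/-!
# Murre's conjecture (B) and the injectivity of the Lefschetz maps
-/

open CategoryTheory CategoryTheory.Limits AlgebraicGeometry
open Pool.Agent.H914 Pool.Agent.H914.VarClass Pool.Agent.H914.VarClass.Obj
open Pool.Agent.R903 Pool.Agent.R898.HL

universe u v w

namespace Pool.Agent.R898.MB

open Pool.Agent.R898.ML (Low low_iff low_of_system)

variable {k : Type u} [Field k] {𝒱 : VarClass k} {C : ChowTheory.{u, v} 𝒱}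
  {W : WeilTheory.{u, v, w} C} {X Y Z : 𝒱.Obj}

lemma isCKDec_iff {π : ℕ → C.CH (X.prod X)} : IsCKDec W X π ↔ W.IsCK X π := by
  rw [← ML.isCKDec_iff]
  exact ⟨fun h => ⟨h.mem, h.orth, h.proj⟩, fun h => ⟨h.mem, h.orth, h.proj⟩⟩

lemma ckf_eq (π : ℕ → C.CH (X.prod X)) (i k : ℕ) : ckf C π i k = C.ckFil π i k := rfl

/-! ### the `sl₂`-triple on all cycles -/

lemma sl2_all {D : C.CH X} {H Λ : C.CH (X.prod X)} (hD : D ∈ C.gr X 1)
    (hT : C.IsTriple (C.lef D) H Λ) (hH : H ∈ C.gr _ X.dim) (hΛ : Λ ∈ C.gr _ (X.dim - 1))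
    (h0 : X.dim = 0 → Λ = 0) :
    Sl2 X.dim (C.gr X) (C.act (C.lef D)) (C.act Λ) (C.act H) where
  h1 v := by
    rw [← hT.bracket_LΛ, act_bracket]; abel
  h2 v := by
    have h := congrArg (fun γ => C.act γ v) hT.bracket_HL
    simp only [act_bracket, C.act_smul, LinearMap.smul_apply] at h
    rw [← h]; abel
  h3 v := by
    have h := congrArg (fun γ => C.act γ v) hT.bracket_HΛ
    simp only [act_bracket] at h
    rw [sub_eq_iff_eq_add] at h
    rw [h, ← neg_smul, C.act_smul, LinearMap.smul_apply, neg_smul]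
    abel
  nx := ⟨X.dim + 1, by
    rw [← CorrRing.actH_of, ← map_pow, C.pow_eq_zero_of_codim (lef_mem hD), map_zero]⟩
  nz := ⟨X.dim + 1, by
    rw [← CorrRing.actH_of, ← map_pow, lam_pow hΛ h0, map_zero]⟩
  gx m v hv := C.act_mem (lef_mem hD) hv (by omega)
  gz m v hv := by
    by_cases hd : X.dim = 0
    · rw [h0 hd, C.act_zero, LinearMap.zero_apply]; exact Submodule.zero_mem _
    · exact C.act_mem hΛ hv (by omega)
  gz0 v hv := by
    by_cases hd : X.dim = 0
    · rw [h0 hd, C.act_zero, LinearMap.zero_apply]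
    · exact C.act_eq_zero hΛ hv (by omega)
  gh m v hv := C.act_mem hH hv rfl
  top m hm := C.gr_eq_bot X m hm

lemma proj_all {L Λ : C.CH (X.prod X)}
    {π : ℕ → C.CH (X.prod X)} (h : C.IsLefschetzSystem L Λ π) :
    Proj X.dim (C.gr X) (C.act (C.wt π)) (fun i => C.act (π i)) where
  hp i v := by rw [← C.act_comp, comp_wt h, C.act_smul, LinearMap.smul_apply]
  ph i v := by rw [← C.act_comp, wt_comp h, C.act_smul, LinearMap.smul_apply]
  sum v := by
    conv_rhs => rw [← C.act_diagC v, ← h.decomp.sum, C.act_sum, LinearMap.sum_apply]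
  big i hi v := by rw [pi_zero h hi, C.act_zero]; rfl
  gp i m v hv := C.act_mem (h.decomp.mem i) hv rfl

lemma chowLefInj_iff (D : C.CH X) :
    ChowLefInj C X D ↔ InjR 0 X.dim (C.gr X) (C.act (C.lef D)) := by
  refine forall_congr' fun i => forall_congr' fun j => imp_congr_right fun _ =>
    imp_congr_right fun _ => ?_
  rw [MulInj]
  simp only [act_lef_pow]

/-- `π l` kills `CH^i(X)` for `l > 2i` -/
def High (C : ChowTheory.{u, v} 𝒱) {X : 𝒱.Obj} (π : ℕ → C.CH (X.prod X)) : Prop :=
  ∀ i l, 2 * i < l → ∀ y ∈ C.gr X i, C.act (π l) y = 0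

lemma high_iff {π : ℕ → C.CH (X.prod X)} (hπ : W.IsCK X π) :
    High C π ↔ ∀ i, C.ckFil π i 0 = C.gr X i := by
  constructor
  · intro h i
    rw [WeilTheory.ckFil_zero_eq_iff hπ]
    intro b hb x hx
    exact h i b hb x hx
  · intro h i l hl y hy
    exact (WeilTheory.ckFil_zero_eq_iff hπ).1 (h i) l hl y hy

/-- **One variety: the first half of (B) is the injectivity of the Lefschetz maps.** -/
theorem chowLefInj_iff_high {D : C.CH X} (hD : D ∈ C.gr X 1)
    {Λ : C.CH (X.prod X)} {π : ℕ → C.CH (X.prod X)} (h : C.IsLefschetzSystem (C.lef D) Λ π) :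
    ChowLefInj C X D ↔ High C π := by
  have s := sl2_all hD h.triple (wt_mem h) h.mem_Λ (system_zero h)
  have P := proj_all h
  rw [chowLefInj_iff]
  constructor
  · intro hI i l hl y hy
    refine s.aboveR_of_injR hI i ((l : ℤ) - X.dim) _ (P.gp l i y hy) ?_ (by push_cast; omega)
    have := P.hp l y
    rw [this]; push_cast; rfl
  · intro hN
    refine s.injR_of_aboveR P fun m l v hv hh hl => ?_
    rw [← P.sum v]
    refine Finset.sum_eq_zero fun i _ => ?_
    by_cases hi : 2 * m < i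
    · exact hN m i hi v hv
    · refine P.eq_zero hh fun h1 => ?_
      have h2 : (l : ℚ) = (((i : ℤ) - X.dim : ℤ) : ℚ) := by rw [h1]; push_cast; rfl
      have h3 : l = (i : ℤ) - X.dim := by exact_mod_cast h2
      push_cast at hl
      omega

/-! ### triangularity from injectivity on the square -/

theorem triangular_of_lefInj {D : C.CH X} (hD : D ∈ C.gr X 1)
    {Λ : C.CH (X.prod X)} {π : ℕ → C.CH (X.prod X)} (hπs : C.IsLefschetzSystem (C.lef D) Λ π)
    (hQ : ChowLefInj C (X.prod X) (sumClass C D D)) : C.IsTriangular π := by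
  intro a b hab γ hγ
  set δ := C.comp (C.comp (π a) γ) (π b) with hδ
  have hδm : δ ∈ C.gr (X.prod X) X.dim :=
    C.comp_mem (C.comp_mem (hπs.decomp.mem _) hγ rfl) (hπs.decomp.mem _) rfl
  have hT : C.IsTriple (C.lef (sumClass C D D)) (ts (-C.transp (C.wt π)) (C.wt π))
      (ts (C.transp Λ) Λ) := by
    have h1 := triple_ts (triple_transp hπs.triple) hπs.triple
    rw [transp_lef, ts, ← lef_fst, ← lef_snd, ← lef_add] at h1
    exact h1
  have hDm : sumClass C D D ∈ C.gr (X.prod X) 1 :=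
    Submodule.add_mem _ (C.pull_mem _ hD) (C.pull_mem _ hD)
  have hHm : ts (-C.transp (C.wt π)) (C.wt π) ∈ C.gr _ (X.prod X).dim := by
    rw [dim_prod]
    exact Submodule.add_mem _ (C.tensor_mem (Submodule.neg_mem _ (C.transp_mem (wt_mem hπs)))
      (C.diagC_mem X)) (C.tensor_mem (C.diagC_mem X) (wt_mem hπs))
  have hΛm : ts (C.transp Λ) Λ ∈ C.gr _ ((X.prod X).dim - 1) := by
    rw [dim_prod]
    by_cases hd : X.dim = 0
    · rw [ts, system_zero hπs hd, C.transp_zero, C.zero_tensor, C.tensor_zero, add_zero]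
      exact Submodule.zero_mem _
    · refine Submodule.add_mem _ ?_ ?_
      · have := C.tensor_mem (C.transp_mem hπs.mem_Λ) (C.diagC_mem X)
        rwa [show X.dim - 1 + X.dim = X.dim + X.dim - 1 by omega] at this
      · have := C.tensor_mem (C.diagC_mem X) hπs.mem_Λ
        rwa [show X.dim + (X.dim - 1) = X.dim + X.dim - 1 by omega] at this
  have s := sl2_all hDm hT hHm hΛm (fun hd => by
    rw [dim_prod] at hd
    rw [ts, system_zero hπs (by omega), C.transp_zero, C.zero_tensor, C.tensor_zero, add_zero])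
  refine s.aboveR_of_injR ((chowLefInj_iff _).1 hQ) X.dim ((b : ℤ) - a) δ hδm ?_
    (by rw [dim_prod]; push_cast; omega)
  have e5 : C.act (C.tensor (-C.transp (C.wt π)) (C.diagC X)) δ = C.comp (-C.wt π) δ := by
    rw [← transp_neg, C.act_tensor, C.comp_diagC]
  have e6 : C.act (C.tensor (C.diagC X) (C.wt π)) δ = C.comp δ (C.wt π) := by
    have h1 := C.act_tensor (C.diagC X) (C.wt π) δ
    rwa [C.transp_diagC, C.diagC_comp] at h1
  rw [ts, C.act_add, LinearMap.add_apply, e5, e6]
  have e1 : C.comp (-C.wt π) δ = (-((a : ℚ) - X.dim)) • δ := by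
    rw [HL.neg_comp2, hδ, ← C.comp_assoc, ← C.comp_assoc, wt_comp hπs, C.smul_comp, C.smul_comp,
      neg_smul]
  have e3 : C.comp δ (C.wt π) = ((b : ℚ) - X.dim) • δ := by
    rw [hδ, C.comp_assoc, comp_wt hπs, C.comp_smul]
  rw [e1, e3, ← add_smul]
  congr 1
  push_cast
  ring

/-! ### nilpotence -/

lemma of_pw (γ : C.CH (X.prod X)) (i : ℕ) : CorrRing.of C X (pw (cp C) γ i) =
    (CorrRing.of C X γ) ^ (i + 1) := by
  induction i with
  | zero => rw [pow_one]; rfl
  | succ i ih =>
    rw [pow_succ', ← ih]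
    rfl

lemma nilp_iff {γ : C.CH (X.prod X)} : IsNilp (cp C) γ ↔ IsNilpotent (CorrRing.of C X γ) := by
  constructor
  · rintro ⟨i, hi⟩
    exact ⟨i + 1, by rw [← of_pw, hi, map_zero]⟩
  · rintro ⟨i, hi⟩
    refine ⟨i, (CorrRing.of C X).injective ?_⟩
    rw [of_pw, pow_succ, hi, zero_mul, map_zero]

lemma noPhantoms_of_nilp (h : NilpCorr W X) : W.NoPhantoms X := by
  intro e he hee h0
  have h1 := nilp_iff.1 (h e ⟨he, cl_eq_zero_of_act W (LinearMap.ext h0)⟩)
  have h2 : IsIdempotentElem (CorrRing.of C X e) := hee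
  obtain ⟨n, hn⟩ := h1
  rcases Nat.eq_zero_or_pos n with hz | hz
  · subst hz
    rw [pow_zero] at hn
    have h3 : CorrRing.of C X e = 0 := by
      rw [← mul_one (CorrRing.of C X e), hn, mul_zero]
    exact (CorrRing.of C X).injective (by rw [h3, map_zero])
  · have h3 := h2.pow_succ_eq (n - 1)
    rw [Nat.sub_add_cancel hz, hn] at h3
    exact (CorrRing.of C X).injective (by rw [← h3, map_zero])

/-- nilpotence passes to direct summands -/
lemma nilp_of_summand {α : C.CH (X.prod Z)} {β : C.CH (Z.prod X)} (hα : α ∈ C.gr _ X.dim)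
    (hβ : β ∈ C.gr _ Z.dim) (hαβ : C.comp α β = C.diagC X) (h : NilpCorr W Z) :
    NilpCorr W X := by
  intro γ hγ
  set g := C.comp (C.comp β γ) α with hg
  have hgm : g ∈ C.gr (Z.prod Z) Z.dim := C.comp_mem (C.comp_mem hβ hγ.1 rfl) hα (by omega)
  have hγ0 : W.act γ = 0 := act_eq_zero_of_cl W hγ.2
  have hg0 : W.act g = 0 := by
    ext v
    rw [LinearMap.zero_apply, hg, W.act_comp _ hα, W.act_comp _ hγ.1, hγ0, LinearMap.zero_apply,
      map_zero]
  obtain ⟨i, hi⟩ := h g ⟨hgm, cl_eq_zero_of_act W hg0⟩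
  refine ⟨i, ?_⟩
  have key : ∀ j, pw (cp C) g j = C.comp (C.comp β (pw (cp C) γ j)) α := by
    intro j
    induction j with
    | zero => rfl
    | succ j ih =>
      change C.comp (pw (cp C) g j) g = C.comp (C.comp β (C.comp (pw (cp C) γ j) γ)) α
      rw [ih, hg, C.comp_assoc (C.comp β (pw (cp C) γ j)) α, ← C.comp_assoc α (C.comp β γ) α,
        ← C.comp_assoc α β γ, hαβ, C.diagC_comp]
      simp only [C.comp_assoc]
  have h1 : C.comp (C.comp α (pw (cp C) g i)) β = pw (cp C) γ i := by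
    rw [key, ← C.comp_assoc α (C.comp β _) α, ← C.comp_assoc α β, hαβ, C.diagC_comp, C.comp_assoc,
      hαβ, C.comp_diagC]
  rw [← h1, hi, C.comp_zero, C.zero_comp]

/-! ### dominated varieties -/

theorem high_of_summand {α : C.CH (X.prod Z)} {β : C.CH (Z.prod X)} (hα : α ∈ C.gr _ X.dim)
    (hβ : β ∈ C.gr _ Z.dim) (hαβ : C.comp α β = C.diagC X) {ρ : ℕ → C.CH (Z.prod Z)}
    (h : W.IsCK Z ρ) (hT : C.IsTriangular ρ) (hN : W.NoPhantoms Z) (h0 : High C ρ)
    {π : ℕ → C.CH (X.prod X)} (hπ : W.IsCK X π) : High C π := by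
  intro i j hij x hx
  set e := C.comp (C.comp β (π j)) α with he
  have hegr : e ∈ C.gr (Z.prod Z) Z.dim := C.comp_mem (C.comp_mem hβ (hπ.mem j) rfl) hα (by omega)
  have hee : C.comp e e = e := by
    rw [he, C.comp_assoc (C.comp β (π j)) α, ← C.comp_assoc α (C.comp β (π j)) α,
      ← C.comp_assoc α β (π j), hαβ, C.diagC_comp, ← C.comp_assoc, C.comp_assoc β, hπ.idem]
  have hdeg : ∀ l, l ≠ j → ∀ v ∈ W.gr Z l, W.act e v = 0 := by
    intro l hl v hv
    rw [he, W.act_comp _ hα, W.act_comp _ (hπ.mem j)]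
    have h2 : W.act β v ∈ W.gr X l := W.act_mem hβ hv (by omega)
    rw [hπ.proj j _ _ h2, if_neg hl, map_zero]
  have cmp := h.comparison' hT hN hegr hee (m := j) hdeg
  have hy : C.act α x ∈ C.gr Z i := C.act_mem hα hx (by omega)
  have hey : C.act e (C.act α x) = 0 := by
    rw [← h.sum_act (C.act α x), map_sum]
    refine Finset.sum_eq_zero fun l _ => ?_
    by_cases hl : l < j
    · rw [← C.act_comp, cmp.1 l hl, C.act_zero, LinearMap.zero_apply]
    · rw [h0 i l (by omega) _ hy, map_zero]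
  have hx1 : C.act (π j) x = C.act β (C.act e (C.act α x)) := by
    rw [he, C.act_comp, C.act_comp, ← C.act_comp α β, hαβ, C.act_diagC, ← C.act_comp α β, hαβ,
      C.act_diagC]
  rw [hx1, hey, map_zero]

theorem low_of_summand' {α : C.CH (X.prod Z)} {β : C.CH (Z.prod X)} (hα : α ∈ C.gr _ X.dim)
    (hβ : β ∈ C.gr _ Z.dim) (hαβ : C.comp α β = C.diagC X) {ρ : ℕ → C.CH (Z.prod Z)}
    (h : W.IsCK Z ρ) (hT : C.IsTriangular ρ) (hN : W.NoPhantoms Z) (h0 : Low C ρ)
    {π : ℕ → C.CH (X.prod X)} (hπ : W.IsCK X π) : Low C π := by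
  intro i j hji x hx
  set e := C.comp (C.comp β (π j)) α with he
  have hegr : e ∈ C.gr (Z.prod Z) Z.dim := C.comp_mem (C.comp_mem hβ (hπ.mem j) rfl) hα (by omega)
  have hee : C.comp e e = e := by
    rw [he, C.comp_assoc (C.comp β (π j)) α, ← C.comp_assoc α (C.comp β (π j)) α,
      ← C.comp_assoc α β (π j), hαβ, C.diagC_comp, ← C.comp_assoc, C.comp_assoc β, hπ.idem]
  have hdeg : ∀ l, l ≠ j → ∀ v ∈ W.gr Z l, W.act e v = 0 := by
    intro l hl v hv
    rw [he, W.act_comp _ hα, W.act_comp _ (hπ.mem j)]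
    have h2 : W.act β v ∈ W.gr X l := W.act_mem hβ hv (by omega)
    rw [hπ.proj j _ _ h2, if_neg hl, map_zero]
  have cmp := h.comparison' hT hN hegr hee (m := j) hdeg
  have hy : C.act α x ∈ C.gr Z i := C.act_mem hα hx (by omega)
  have hey : C.act e (C.act α x) = 0 := by
    rw [← h.sum_act (C.act e (C.act α x))]
    refine Finset.sum_eq_zero fun l _ => ?_
    by_cases hl : l < i
    · exact h0 i l hl _ (C.act_mem hegr hy rfl)
    · rw [← C.act_comp, cmp.2 l (by omega), C.act_zero, LinearMap.zero_apply]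
  have hx1 : C.act (π j) x = C.act β (C.act e (C.act α x)) := by
    rw [he, C.act_comp, C.act_comp, ← C.act_comp α β, hαβ, C.act_diagC, ← C.act_comp α β, hαβ,
      C.act_diagC]
  rw [hx1, hey, map_zero]

theorem exists_dec {S : ∀ X : 𝒱.Obj, C.CH X → Prop} (hS : IsClass W S)
    (hNil : ∀ X D, S X D → NilpCorr W X) (hI : ∀ X D, S X D → ChowLefInj C X D) (X : 𝒱.Obj) :
    (∃ π, W.IsCK X π) ∧ NilpCorr W X ∧ ∀ π, W.IsCK X π →
      C.IsTriangular π ∧ High C π ∧ Low C π := by
  obtain ⟨Z, D, hZ, hZX⟩ := hS.dom X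
  obtain ⟨hstd, Λ, ρ, hs⟩ := hS.good Z D hZ
  have hρ := isCK_of_system hstd hs.toR
  have hT := triangular_of_lefInj hstd.1 hs.toR (hI _ _ (hS.prod _ _ _ _ hZ hZ))
  have hN := noPhantoms_of_nilp (hNil Z D hZ)
  have h0 := low_of_system hstd.1 hs.toR
  have h1 := (chowLefInj_iff_high hstd.1 hs.toR).1 (hI Z D hZ)
  obtain ⟨α, β, hα, hβ, hαβ⟩ := summand_of_dominates hZX
  have hsum : C.IsSummand X Z := ⟨X.dim, Z.dim, α, β, hα, hβ, rfl, hαβ⟩
  refine ⟨WeilTheory.hasCK_of_isSummand hsum hρ hT, nilp_of_summand hα hβ hαβ (hNil Z D hZ),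
    fun π hπ => ⟨(WeilTheory.triangular_of_isSummand hsum hρ hT hN).2 π hπ,
      high_of_summand hα hβ hαβ hρ hT hN h1 hπ, low_of_summand' hα hβ hαβ hρ hT hN h0 hπ⟩⟩

/-- injectivity for all polarizations -/
theorem lefInj_all (hNil : NilpCorr W X) {π : ℕ → C.CH (X.prod X)} (hπ : W.IsCK X π)
    (hT : C.IsTriangular π) (hH : High C π) {D : C.CH X} (hL : LefStd W X D) :
    ChowLefInj C X D := by
  obtain ⟨hD, hL⟩ := hL
  intro m j hmj hj x hx h0
  have hcl : ∀ k, W.cl X (D ^ k) = W.cl X D ^ k := fun k => map_pow _ _ _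
  -- `π a x = 0` for all `a`
  have key : ∀ d a, 2 * m < a + d → C.act (π a) x = 0 := by
    intro d
    induction d with
    | zero => intro a ha; exact hH m a (by omega) x hx
    | succ d ih =>
      intro a ha
      by_cases ha' : 2 * m < a
      · exact hH m a ha' x hx
      by_cases had : 2 * m < a + d
      · exact ih a had
      obtain ⟨Λ, hΛ, h1, _⟩ := hL a (by omega)
      set r := X.dim - a with hr
      have hlm : C.lef (D ^ r) ∈ C.gr (X.prod X) (r + X.dim) :=
        C.span_mem _ _ (pow_mem hD r) (by omega)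
      set t := C.comp (C.lef (D ^ r)) Λ with ht
      have htm : t ∈ C.gr (X.prod X) X.dim := C.comp_mem hlm hΛ (by omega)
      have htx : C.act t x = 0 := by
        have h4 : D ^ r * x = 0 := by
          have e : r = (r - (j - m)) + (j - m) := by omega
          rw [e, pow_add, mul_assoc, h0, mul_zero]
        rw [ht, C.act_comp, act_lef, h4, map_zero]
      have hta : ∀ v ∈ W.gr X a, W.act t v = v := fun v hv => by
        rw [ht, W.act_comp _ hΛ, wact_lef, hcl, h1 v hv]
      -- `π a t π a x = 0`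
      have e1 : C.act (C.comp (C.comp (π a) t) (π a)) x = 0 := by
        have e2 : C.act (π a) (C.act t x) = 0 := by rw [htx, map_zero]
        rw [← hπ.sum_act x, map_sum, map_sum] at e2
        by_cases hax : a ∈ Finset.range (2 * X.dim + 1)
        · rw [Finset.sum_eq_single a] at e2
          · rw [C.act_comp, C.act_comp]; exact e2
          · intro b _ hb
            rcases lt_or_gt_of_ne hb with hb | hb
            · rw [← C.act_comp, ← C.act_comp, ← C.comp_assoc, hT b a hb t htm, C.act_zero,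
                LinearMap.zero_apply]
            · rw [ih b (by omega), map_zero, map_zero]
          · intro h; exact absurd hax h
        · rw [Finset.mem_range] at hax
          rw [hπ.eq_zero (j := a) (by omega), C.comp_zero, C.act_zero, LinearMap.zero_apply]
      -- the nilpotent part
      set ν := C.comp (C.comp (π a) t) (π a) - π a with hν
      have hνm : ν ∈ C.gr (X.prod X) X.dim :=
        Submodule.sub_mem _ (C.comp_mem (C.comp_mem (hπ.mem a) htm rfl) (hπ.mem a) rfl)
          (hπ.mem a)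
      have hν0 : W.act ν = 0 := by
        ext v
        rw [LinearMap.zero_apply]
        refine gr_induction (W.isInternal X) (p := fun v => W.act ν v = 0) ?_ ?_ v
        · intro l v hv
          rw [hν, W.act_sub, LinearMap.sub_apply, W.act_comp _ (hπ.mem a), W.act_comp _ htm,
            hπ.proj a l v hv]
          split_ifs with hl
          · subst hl
            rw [hta v hv, hπ.proj l l v hv, if_pos rfl, sub_self]
          · rw [map_zero, map_zero, sub_zero]
        · intro v v' hv hv'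
          rw [map_add, hv, hv', add_zero]
      have hνx : C.act (π a) x = -C.act ν x := by
        rw [hν, C.act_sub, LinearMap.sub_apply, e1, zero_sub, neg_neg]
      have hνπ : C.comp (π a) ν = ν := by
        have e : C.comp (π a) (C.comp (C.comp (π a) t) (π a) - π a) =
            C.comp (π a) (C.comp (C.comp (π a) t) (π a)) - C.comp (π a) (π a) := by
          have h5 := C.comp_add (π a) (C.comp (C.comp (π a) t) (π a) - π a) (π a)
          rw [sub_add_cancel] at h5
          rw [h5, add_sub_cancel_right]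
        rw [hν, e, hπ.idem, ← C.comp_assoc, ← C.comp_assoc, hπ.idem]
      obtain ⟨N, hN⟩ := hNil ν ⟨hνm, cl_eq_zero_of_act W hν0⟩
      have hiter : ∀ i, ∃ q : ℚ, C.act (π a) x = q • C.act (pw (cp C) ν i) x := by
        intro i
        induction i with
        | zero => exact ⟨-1, by rw [neg_one_smul]; exact hνx⟩
        | succ i ihi =>
          obtain ⟨q, hq⟩ := ihi
          refine ⟨-q, ?_⟩
          have hcp : pw (cp C) ν (i + 1) = C.comp ν (pw (cp C) ν i) := by
            apply (CorrRing.of C X).injective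
            rw [of_pw, CorrRing.of_comp, of_pw, ← pow_succ]
          have hpi : C.comp (π a) (pw (cp C) ν i) = pw (cp C) ν i := by
            clear hcp hq
            induction i with
            | zero => exact hνπ
            | succ i ih2 =>
              change C.comp (π a) (C.comp (pw (cp C) ν i) ν) = C.comp (pw (cp C) ν i) ν
              rw [← C.comp_assoc, ih2]
          rw [hq, hcp, C.act_comp]
          have e6 : C.act (pw (cp C) ν i) x = C.act (pw (cp C) ν i) (C.act (π a) x) := by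
            rw [← C.act_comp, hpi]
          rw [e6, hνx, map_neg, smul_neg, neg_smul]
      obtain ⟨q, hq⟩ := hiter N
      rw [hq, hN, C.act_zero, LinearMap.zero_apply, smul_zero]
  rw [← hπ.sum_act x]
  exact Finset.sum_eq_zero fun a _ => key (2 * m + 1) a (by omega)

/-- (A), (B), (C) -/
lemma murreABC_of {X : 𝒱.Obj} (hN : W.NoPhantoms X) (hex : ∃ π, W.IsCK X π)
    (h : ∀ π, W.IsCK X π → C.IsTriangular π ∧ High C π ∧ Low C π) : MurreABC W X := by
  obtain ⟨π, hπ⟩ := hex
  have hC : W.MurreC X := hπ.murreC (h π hπ).1 hN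
  refine ⟨⟨π, isCKDec_iff.2 hπ⟩, fun σ hσ i => ?_, fun σ σ' hσ hσ' i k =>
    hC i k σ σ' (isCKDec_iff.1 hσ) (isCKDec_iff.1 hσ')⟩
  have hσ' := isCKDec_iff.1 hσ
  exact ⟨(high_iff hσ').1 (h σ hσ').2.1 i, (low_iff hσ').1 (h σ hσ').2.2 i⟩

/-- (B) gives injectivity -/
theorem chowLefInj_of_murreB {D : C.CH X} (hg : Good W X D) (hB : MurreB W X) :
    ChowLefInj C X D := by
  obtain ⟨hstd, Λ, π, hs⟩ := hg
  have hπ := isCK_of_system hstd hs.toR
  exact (chowLefInj_iff_high hstd.1 hs.toR).2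
    ((high_iff hπ).2 fun i => (hB π (isCKDec_iff.2 hπ) i).1)

/-- **The equivalence.** -/
theorem tfae {S : ∀ X : 𝒱.Obj, C.CH X → Prop} (hS : IsClass W S)
    (hNil : ∀ X D, S X D → NilpCorr W X) :
    [∀ X D, S X D → ChowLefInj C X D, ∀ X : 𝒱.Obj, MurreB W X, ∀ X : 𝒱.Obj, MurreABC W X,
      ∀ (X : 𝒱.Obj) (D : C.CH X), LefStd W X D → ChowLefInj C X D].TFAE := by
  tfae_have 1 → 3 := by
    intro h X
    obtain ⟨hex, hn, hall⟩ := exists_dec hS hNil h X
    exact murreABC_of (noPhantoms_of_nilp hn) hex hall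
  tfae_have 3 → 2 := fun h X => (h X).conjB
  tfae_have 2 → 1 := fun h X D hX => chowLefInj_of_murreB (hS.good X D hX) (h X)
  tfae_have 1 → 4 := by
    intro h X D hD
    obtain ⟨⟨π, hπ⟩, hn, hall⟩ := exists_dec hS hNil h X
    exact lefInj_all hn hπ (hall π hπ).1 (hall π hπ).2.1 hD
  tfae_have 4 → 1 := fun h X D hX => h X D (hS.good X D hX).1
  tfae_finish

/-- one variety -/
theorem murreABC_of_square {D : C.CH X} (hg : Good W X D) (hNil : NilpCorr W X)
    (h1 : ChowLefInj C X D) (hQ : ChowLefInj C (X.prod X) (sumClass C D D)) : MurreABC W X := by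
  obtain ⟨hstd, Λ, ρ, hs⟩ := hg
  have hρ := isCK_of_system hstd hs.toR
  have hT := triangular_of_lefInj hstd.1 hs.toR hQ
  have hN := noPhantoms_of_nilp hNil
  have h0 := low_of_system hstd.1 hs.toR
  have h2 := (chowLefInj_iff_high hstd.1 hs.toR).1 h1
  have hd : C.comp (C.diagC X) (C.diagC X) = C.diagC X := C.comp_diagC _
  have hsum : C.IsSummand X X := ⟨X.dim, X.dim, _, _, C.diagC_mem X, C.diagC_mem X, rfl, hd⟩
  exact murreABC_of hN ⟨ρ, hρ⟩ fun π hπ =>
    ⟨(WeilTheory.triangular_of_isSummand hsum hρ hT hN).2 π hπ,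
      high_of_summand (C.diagC_mem X) (C.diagC_mem X) hd hρ hT hN h2 hπ,
      low_of_summand' (C.diagC_mem X) (C.diagC_mem X) hd hρ hT hN h0 hπ⟩

/-- the decomposition of a Lefschetz system -/
theorem system_facts {D : C.CH X} {Λ : C.CH (X.prod X)} {π : ℕ → C.CH (X.prod X)}
    (hstd : LefStd W X D) (hs : IsSystem C D Λ π) :
    IsCKDec W X π ∧ (∀ i, ckf C π i (i + 1) = ⊥) ∧
      (ChowLefInj C X D ↔ ∀ i, ckf C π i 0 = C.gr X i) := by
  have hπ := isCK_of_system hstd hs.toR
  exact ⟨isCKDec_iff.2 hπ, (low_iff hπ).1 (low_of_system hstd.1 hs.toR),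
    (chowLefInj_iff_high hstd.1 hs.toR).trans (high_iff hπ)⟩

end Pool.Agent.R898.MB
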