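import Pool.Agent.R898.EVS
import Pool.Agent.R898.MBM

/-!
# Varieties without odd cohomology and symmetric cycles
-/

open CategoryTheory CategoryTheory.Limits AlgebraicGeometry
open Pool.Agent.H914 Pool.Agent.H914.VarClass Pool.Agent.H914.VarClass.Obj
open Pool.Agent.R903 Pool.Agent.R898.HL Pool.Agent.R898.MB

universe u v w

namespace Pool.Agent.R898.EV

variable {k : Type u} [Field k] {𝒱 : VarClass k} {C : ChowTheory.{u, v} 𝒱}
  {W : WeilTheory.{u, v, w} C} {X Y Z A B E : 𝒱.Obj}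

/-! ### homogeneous correspondences -/

lemma comp_mem' {α : C.CH (X.prod Y)} {β : C.CH (Y.prod Z)} {p q : ℕ}
    (hα : α ∈ C.gr _ p) (hβ : β ∈ C.gr _ q) : C.comp α β ∈ C.gr _ (p + q - Y.dim) := by
  by_cases h : Y.dim ≤ p + q
  · exact C.comp_mem hα hβ (by omega)
  · have : C.comp α β = 0 := by
      rw [ChowTheory.comp]
      refine C.push_eq_zero _ (C.mul_mem (C.pull_mem _ hα) (C.pull_mem _ hβ)) ?_
      simp only [dim_prod]
      omega
    rw [this]
    exact Submodule.zero_mem _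

lemma cl_comp_left {α : C.CH (X.prod Y)} (h : W.cl _ α = 0) (β : C.CH (Y.prod Z)) :
    W.cl _ (C.comp α β) = 0 := by
  rw [ChowTheory.comp, W.cl_push, W.cl_mul, W.cl_pull, h, map_zero, zero_mul, map_zero]

lemma cl_comp_right (α : C.CH (X.prod Y)) {β : C.CH (Y.prod Z)} (h : W.cl _ β = 0) :
    W.cl _ (C.comp α β) = 0 := by
  rw [ChowTheory.comp, W.cl_push, W.cl_mul, W.cl_pull, W.cl_pull, h, map_zero, mul_zero, map_zero]

lemma homTriv_comp_left {α : C.CH (X.prod Y)} {β : C.CH (Y.prod Z)} {p q : ℕ}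
    (hα : α ∈ homTriv W _ p) (hβ : β ∈ C.gr _ q) :
    C.comp α β ∈ homTriv W _ (p + q - Y.dim) :=
  ⟨comp_mem' hα.1 hβ, cl_comp_left hα.2 β⟩

lemma homTriv_comp_right {α : C.CH (X.prod Y)} {β : C.CH (Y.prod Z)} {p q : ℕ}
    (hα : α ∈ C.gr _ p) (hβ : β ∈ homTriv W _ q) :
    C.comp α β ∈ homTriv W _ (p + q - Y.dim) :=
  ⟨comp_mem' hα hβ.1, cl_comp_right α hβ.2⟩

lemma cl_act {γ : C.CH (X.prod Y)} {x : C.CH X} (hx : W.cl X x = 0) :
    W.cl Y (C.act γ x) = 0 := by
  rw [W.cl_act, hx, map_zero]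

lemma transp_eq {ι : C.CH (A.prod A)} (h : IsParity W A ι) : C.transp ι = ι := h.symm

lemma comp_self {ι : C.CH (A.prod A)} (h : IsParity W A ι) : C.comp ι ι = C.diagC A := h.inv

lemma act_act {ι : C.CH (A.prod A)} (h : IsParity W A ι) (x : C.CH A) :
    C.act ι (C.act ι x) = x := by
  rw [← C.act_comp, comp_self h, C.act_diagC]

/-- the action of `ι ⊗ κ` -/
lemma act_tens {ι : C.CH (A.prod A)} {κ : C.CH (B.prod B)} (h : IsParity W A ι)
    (γ : C.CH (A.prod B)) : C.act (tens C ι κ) γ = C.comp (C.comp ι γ) κ := by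
  have := C.act_tensor ι κ γ
  rwa [transp_eq h] at this

/-- the relevant statement for the pairs of the class -/
def Fix (W : WeilTheory.{u, v, w} C) (A : 𝒱.Obj) (ι : C.CH (A.prod A)) (m : ℕ) : Prop :=
  NoFixed (C.act ι) (homTriv W A m)

lemma fix_of_kummer {ι : C.CH (A.prod A)} {m : ℕ} (hK : HasKummer W A ι)
    (h : ∀ K : 𝒱.Obj, NoOdd W K → K.dim = A.dim → NoHom W K m) : Fix W A ι m := by
  obtain ⟨K, α, β, hodd, hdim, hα, hβ, hαβ⟩ := hK
  intro x hx hfix
  have h1 : C.act α x = 0 := by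
    have h2 : C.act α x ∈ homTriv W K m :=
      ⟨C.act_mem hα hx.1 (by omega), cl_act hx.2⟩
    rwa [h K hodd hdim, Submodule.mem_bot] at h2
  have h3 : C.act (C.comp α β) x = 0 := by rw [C.act_comp, h1, map_zero]
  change C.comp α β = _ at hαβ
  rw [hαβ, C.act_add, LinearMap.add_apply, C.act_diagC, hfix, ← two_smul ℚ x] at h3
  exact (smul_eq_zero.1 h3).resolve_left two_ne_zero

variable {S : ∀ A : 𝒱.Obj, C.CH (A.prod A) → Prop}

lemma noHomCommuting_of (hS : IsKummerClass W S) {ι : C.CH (A.prod A)} (hA : S A ι)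
    (h : ∀ (X : 𝒱.Obj) (m : ℕ), X.dim = 2 * m → NoOdd W X → NoHom W X m) :
    NoHomCommuting W A ι := by
  intro γ hγ hcomm
  have hp := hS.parity A ι hA
  have hfix := fix_of_kummer (m := A.dim) (hS.kummer _ _ (hS.prod A A ι ι hA hA))
    (fun K hK hd => h K _ (by rw [hd, dim_prod]; ring) hK)
  refine hfix γ hγ ?_
  change C.comp γ ι = C.comp ι γ at hcomm
  rw [act_tens hp, ← hcomm, C.comp_assoc, comp_self hp, C.comp_diagC]

lemma fix_of_noHomCommuting (hP : C.Polarized) {ι : C.CH (A.prod A)} (hp : IsParity W A ι)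
    (h : NoHomCommuting W A ι) (m : ℕ) : Fix W A ι m := by
  intro y hy hfix
  by_cases hm : A.dim < m
  · have := hy.1
    rwa [C.gr_eq_bot A m hm, Submodule.mem_bot] at this
  obtain ⟨D, hD, hdeg⟩ := hP A
  set d := D ^ (A.dim - m) with hd
  have hdm : d ∈ C.gr A (A.dim - m) := pow_mem hD _
  set z := d + C.act ι d with hz
  have hzm : z ∈ C.gr A (A.dim - m) :=
    Submodule.add_mem _ hdm (C.act_mem hp.mem hdm (by omega))
  have hzf : C.act ι z = z := by
    rw [hz, map_add, act_act hp, add_comm]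
  have hγ : C.ext z y ∈ homTriv W (A.prod A) A.dim := by
    refine ⟨?_, ?_⟩
    · have := C.ext_mem hzm hy.1
      rwa [Nat.sub_add_cancel (by omega)] at this
    · rw [ChowTheory.ext, W.cl_mul, W.cl_pull, W.cl_pull]
      have : W.cl A y = 0 := hy.2
      rw [this, map_zero, mul_zero]
  have h0 : C.ext z y = 0 := by
    refine h _ hγ ?_
    change C.comp _ _ = C.comp _ _
    rw [comp_ext, hfix, ext_comp, transp_eq hp, hzf]
  have h1 : C.deg A (D ^ m * z) • y = 0 := by
    rw [← C.act_ext, h0, C.act_zero, LinearMap.zero_apply]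
  refine (smul_eq_zero.1 h1).resolve_left fun h2 => hdeg ?_
  have h3 : W.cl A (C.act ι d) = W.cl A d := by
    rw [W.cl_act, hp.sign _ _ (W.cl_mem hdm), pow_mul, neg_one_sq, one_pow, one_smul]
  have h4 : W.tr A (W.cl A (D ^ m * z)) = 2 * W.tr A (W.cl A (D ^ A.dim)) := by
    rw [W.cl_mul, hz, map_add, h3, mul_add, ← W.cl_mul, hd, ← pow_add,
      show m + (A.dim - m) = A.dim by omega, map_add, ← two_mul]
  rw [W.tr_cl, W.tr_cl, h2] at h4
  push_cast at h4
  have h5 : ((C.deg A (D ^ A.dim) : ℚ) : W.K) = 0 := by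
    have : (2 : W.K) ≠ 0 := two_ne_zero
    have h6 := h4.symm
    rw [mul_eq_zero] at h6
    exact h6.resolve_left this
  exact_mod_cast h5

/-! ### nilpotence for summands -/

lemma act_pw {θ : C.CH (X.prod X)} {x : C.CH X} {q : ℚ} (h : C.act θ x = q • x) (i : ℕ) :
    C.act (pw (cp C) θ i) x = q ^ (i + 1) • x := by
  induction i with
  | zero => rw [pow_one]; exact h
  | succ i ih =>
    change C.act (C.comp (pw (cp C) θ i) θ) x = _
    rw [C.act_comp, ih, map_smul, h, smul_smul, ← pow_succ]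

lemma nilp_of_summand' {α : C.CH (X.prod A)} {β : C.CH (A.prod X)} {a b : ℕ}
    (hab : a + b = X.dim + A.dim) (hα : α ∈ C.gr _ a)
    (hβ : β ∈ C.gr _ b) (hαβ : C.comp α β = C.diagC X) (h : NilpCorr W A) :
    NilpCorr W X := by
  intro γ hγ
  set g := C.comp (C.comp β γ) α with hg
  have hgm : g ∈ C.gr (A.prod A) A.dim :=
    C.comp_mem (C.comp_mem hβ hγ.1 rfl) hα (by omega)
  have hg0 : W.cl _ g = 0 := by
    rw [hg]
    exact cl_comp_left (cl_comp_right _ hγ.2) _
  obtain ⟨i, hi⟩ := h g ⟨hgm, hg0⟩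
  refine ⟨i, ?_⟩
  have key : ∀ j, pw (cp C) g j = C.comp (C.comp β (pw (cp C) γ j)) α := by
    intro j
    induction j with
    | zero => rfl
    | succ j ih =>
      change C.comp (pw (cp C) g j) g = C.comp (C.comp β (C.comp (pw (cp C) γ j) γ)) α
      rw [ih, hg, C.comp_assoc (C.comp β (pw (cp C) γ j)) α, ← C.comp_assoc α (C.comp β γ) α,
        ← C.comp_assoc α β γ, hαβ, C.diagC_comp]
      simp only [C.comp_assoc]
  have h1 : C.comp (C.comp α (pw (cp C) g i)) β = pw (cp C) γ i := by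
    rw [key, ← C.comp_assoc α (C.comp β _) α, ← C.comp_assoc α β, hαβ, C.diagC_comp, C.comp_assoc,
      hαβ, C.comp_diagC]
  rw [← h1, hi, C.comp_zero, C.zero_comp]

/-- varieties without odd cohomology -/
lemma noHom_of_fix (hS : IsKummerClass W S) (h : ∀ A ι, S A ι → ∀ m, Fix W A ι m)
    {X : 𝒱.Obj} (hX : NoOdd W X) (m : ℕ) : NoHom W X m := by
  obtain ⟨A, ι, hA, a, b, α, β, hab, hα, hβ, hαβ⟩ := hS.summand X
  change α ∈ C.gr _ a at hα
  change β ∈ C.gr _ b at hβ
  change C.comp α β = _ at hαβ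
  have hp := hS.parity A ι hA
  have hN := nilp_of_summand' hab hα hβ hαβ (hS.nilp A ι hA)
  rw [NoHom, eq_bot_iff]
  intro x hx
  rw [Submodule.mem_bot]
  have hx1 : C.act β (C.act α x) = x := by rw [← C.act_comp, hαβ, C.act_diagC]
  by_cases hle : X.dim ≤ m + a
  · set y := C.act α x with hy
    have hym : y ∈ C.gr A (m + a - X.dim) := C.act_mem hα hx.1 (by omega)
    have hy0 : W.cl A y = 0 := cl_act hx.2
    have hιy : C.act ι y ∈ C.gr A (m + a - X.dim) := C.act_mem hp.mem hym (by omega)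
    have h1 : y + C.act ι y = 0 := by
      refine h A ι hA (m + a - X.dim) _ ⟨Submodule.add_mem _ hym hιy, ?_⟩ ?_
      · change W.cl A _ = 0
        rw [map_add, hy0, cl_act hy0, add_zero]
      · rw [map_add, act_act hp, add_comm]
    have hneg : C.act ι y = -y := by
      rw [add_comm] at h1
      exact eq_neg_of_add_eq_zero_left h1
    -- the nilpotent correspondence
    set θ := C.comp (C.comp α (C.diagC A - ι)) β with hθ
    have hdm : C.diagC A - ι ∈ C.gr _ A.dim := Submodule.sub_mem _ (C.diagC_mem A) hp.mem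
    have hαd : C.comp α (C.diagC A - ι) ∈ C.gr _ a := C.comp_mem hα hdm rfl
    have hθm : θ ∈ C.gr (X.prod X) X.dim := C.comp_mem hαd hβ (by omega)
    have hθ0 : W.act θ = 0 := by
      ext v
      rw [LinearMap.zero_apply]
      refine gr_induction (W.isInternal X) (p := fun v => W.act θ v = 0) ?_ ?_ v
      · intro l v hv
        rcases Nat.even_or_odd' l with ⟨l', rfl | rfl⟩
        · rw [hθ, W.act_comp _ hβ, W.act_comp _ hdm, W.act_sub, LinearMap.sub_apply, W.act_diagC]
          by_cases hl : X.dim ≤ l' + a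
          · have h2 : W.act α v ∈ W.gr A (2 * (l' + a - X.dim)) :=
              act_memH W hα hv (by omega)
            rw [hp.sign _ _ h2, pow_mul, neg_one_sq, one_pow, one_smul, sub_self, map_zero]
          · have h3 : W.act α v = 0 := by
              apply W.tr_ext
              intro c
              rw [zero_mul, map_zero]
              refine gr_induction (W.isInternal A) (p := fun c => W.tr A (W.act α v * c) = 0)
                ?_ ?_ c
              · intro r c hc
                by_cases hr : r ≤ 2 * A.dim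
                · rw [W.act_apply, W.tr_push]
                  refine W.tr_eq_zero (W.mul_mem (W.mul_mem (W.cl_mem hα) (W.map_mem _ hv))
                    (W.map_mem _ hc)) ?_
                  rw [dim_prod]
                  omega
                · rw [W.gr_eq_bot A r (by omega), Submodule.mem_bot] at hc
                  rw [hc, mul_zero, map_zero]
              · intro c c' hc hc'
                rw [mul_add, map_add, hc, hc', add_zero]
            rw [h3, map_zero, sub_self, map_zero]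
        · rw [hX l', Submodule.mem_bot] at hv
          rw [hv, map_zero]
      · intro v v' hv hv'
        rw [map_add, hv, hv', add_zero]
    obtain ⟨i, hi⟩ := hN θ ⟨hθm, cl_eq_zero_of_act W hθ0⟩
    have hθx : C.act θ x = (2 : ℚ) • x := by
      rw [hθ, C.act_comp, C.act_comp, ← hy, C.act_sub, LinearMap.sub_apply, C.act_diagC, hneg,
        sub_neg_eq_add, ← two_smul ℚ y, map_smul, hx1]
    have h4 := act_pw hθx i
    rw [hi, C.act_zero, LinearMap.zero_apply] at h4
    exact (smul_eq_zero.1 h4.symm).resolve_left (pow_ne_zero _ two_ne_zero)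
  · rw [← hx1, C.act_eq_zero hα hx.1 (by omega), map_zero]

/-! ### compositions of homologically trivial correspondences -/

lemma comp_neg (α : C.CH (X.prod Y)) (β : C.CH (Y.prod Z)) : C.comp α (-β) = -C.comp α β := by
  have := C.comp_smul (-1) α β
  rwa [neg_one_smul, neg_one_smul] at this

lemma neg_comp (α : C.CH (X.prod Y)) (β : C.CH (Y.prod Z)) : C.comp (-α) β = -C.comp α β := by
  have := C.smul_comp (-1) α β
  rwa [neg_one_smul, neg_one_smul] at this

lemma anti_of_fix (hS : IsKummerClass W S) (h : ∀ A ι, S A ι → ∀ m, Fix W A ι m)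
    {ι : C.CH (A.prod A)} {κ : C.CH (B.prod B)} (hA : S A ι) (hB : S B κ)
    {p : ℕ} {γ : C.CH (A.prod B)} (hγ : γ ∈ homTriv W (A.prod B) p) :
    C.comp ι γ = -C.comp γ κ := by
  have hp := hS.parity A ι hA
  have hq := hS.parity B κ hB
  set g := C.comp (C.comp ι γ) κ with hg
  have hgm : g ∈ homTriv W (A.prod B) p := by
    refine ⟨C.comp_mem (C.comp_mem hp.mem hγ.1 (by omega)) hq.mem rfl, ?_⟩
    exact cl_comp_left (cl_comp_right _ hγ.2) _
  have h1 : γ + g = 0 := by
    refine h _ _ (hS.prod A B ι κ hA hB) p _ (Submodule.add_mem _ hγ hgm) ?_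
    have e1 : C.act (tens C ι κ) γ = g := act_tens hp γ
    have e2 : C.act (tens C ι κ) g = γ := by
      rw [act_tens hp, hg, ← C.comp_assoc ι, ← C.comp_assoc ι, comp_self hp, C.diagC_comp,
        C.comp_assoc, comp_self hq, C.comp_diagC]
    rw [map_add, e1, e2, add_comm]
  have h2 : g = -γ := by
    rw [add_comm] at h1
    exact eq_neg_of_add_eq_zero_left h1
  have h3 : C.comp g κ = C.comp ι γ := by
    rw [hg, C.comp_assoc, comp_self hq, C.comp_diagC]
  rw [← h3, h2, neg_comp]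

lemma comp_zero_of_fix (hS : IsKummerClass W S) (h : ∀ A ι, S A ι → ∀ m, Fix W A ι m)
    {ι : C.CH (A.prod A)} {κ : C.CH (B.prod B)} {μ : C.CH (E.prod E)} (hA : S A ι) (hB : S B κ)
    (hE : S E μ) {p q : ℕ} {α : C.CH (A.prod B)} {β : C.CH (B.prod E)}
    (hα : α ∈ homTriv W (A.prod B) p) (hβ : β ∈ homTriv W (B.prod E) q) :
    C.comp α β = 0 := by
  have hp := hS.parity A ι hA
  have hr := hS.parity E μ hE
  have h1 := anti_of_fix hS h hA hB hα
  have h2 := anti_of_fix hS h hB hE hβ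
  refine h _ _ (hS.prod A E ι μ hA hE) _ _ (homTriv_comp_left hα hβ.1) ?_
  rw [act_tens hp, ← C.comp_assoc, h1, neg_comp, C.comp_assoc α κ β, h2, comp_neg, neg_neg,
    C.comp_assoc α, C.comp_assoc β, comp_self hr, C.comp_diagC]

theorem compZero_of_fix (hS : IsKummerClass W S) (h : ∀ A ι, S A ι → ∀ m, Fix W A ι m)
    (X Y Z : 𝒱.Obj) : CompZero W X Y Z := by
  intro a b α hα β hβ
  obtain ⟨A, ι, hA, _, _, s, r, -, hs, hr, hsr⟩ := hS.summand X
  obtain ⟨B, κ, hB, _, _, s', r', -, hs', hr', hsr'⟩ := hS.summand Y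
  obtain ⟨E, μ, hE, _, _, s'', r'', -, hs'', hr'', hsr''⟩ := hS.summand Z
  change C.comp s r = _ at hsr
  change C.comp s' r' = _ at hsr'
  change C.comp s'' r'' = _ at hsr''
  change C.comp α β = 0
  have h1 : C.comp (C.comp (C.comp r α) s') (C.comp (C.comp r' β) s'') = 0 :=
    comp_zero_of_fix hS h hA hB hE (homTriv_comp_left (homTriv_comp_right hr hα) hs')
      (homTriv_comp_left (homTriv_comp_right hr' hβ) hs'')
  have h2 : C.comp (C.comp s (C.comp (C.comp (C.comp r α) s') (C.comp (C.comp r' β) s''))) r'' =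
      C.comp α β := by
    rw [C.comp_assoc (C.comp r α) s', ← C.comp_assoc s' (C.comp r' β), ← C.comp_assoc s' r' β,
      hsr', C.diagC_comp, ← C.comp_assoc s, ← C.comp_assoc s r, hsr, C.diagC_comp, C.comp_assoc,
      C.comp_assoc β, hsr'', C.comp_diagC]
  rw [← h2, h1, C.comp_zero, C.zero_comp]

/-- homologically trivial correspondences kill homologically trivial cycles -/
lemma act_zero_of (hP : C.Polarized) (h : ∀ X Y Z : 𝒱.Obj, CompZero W X Y Z) {b m : ℕ}
    {β : C.CH (Y.prod Z)} (hβ : β ∈ homTriv W (Y.prod Z) b) {x : C.CH Y}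
    (hx : x ∈ homTriv W Y m) : C.act β x = 0 := by
  obtain ⟨D, _, hdeg⟩ := hP Y
  have h1 : C.ext (1 : C.CH Y) x ∈ homTriv W (Y.prod Y) m := by
    refine ⟨?_, ?_⟩
    · have := C.ext_mem (C.one_mem Y) hx.1
      rwa [zero_add] at this
    · change W.cl _ (C.pull (fst Y Y) 1 * C.pull (snd Y Y) x) = 0
      have : W.cl Y x = 0 := hx.2
      rw [W.cl_mul, W.cl_pull, W.cl_pull, this, map_zero, mul_zero]
  have h2 : C.comp (C.ext (1 : C.CH Y) x) β = 0 := h Y Y Z m b _ h1 _ hβ
  rw [comp_ext] at h2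
  have h3 : C.act (C.ext (1 : C.CH Y) (C.act β x)) (D ^ Y.dim) = 0 := by
    rw [h2, C.act_zero, LinearMap.zero_apply]
  rw [C.act_ext, mul_one] at h3
  exact (smul_eq_zero.1 h3).resolve_left hdeg

/-- products of homologically trivial cycles -/
lemma mul_zero_of (hP : C.Polarized) (h : ∀ X Y Z : 𝒱.Obj, CompZero W X Y Z) (i j : ℕ) :
    MulZero (homTriv W X i) (homTriv W X j) := by
  intro x hx y hy
  have h1 : C.lef x ∈ homTriv W (X.prod X) (i + X.dim) := by
    refine ⟨C.span_mem _ _ hx.1 (by omega), ?_⟩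
    have : W.cl X x = 0 := hx.2
    change W.cl _ (C.push _ x) = 0
    rw [W.cl_push, this, map_zero]
  have h2 := act_zero_of hP h h1 hy
  rwa [act_lef] at h2

/-! ### the theorem -/

theorem tfae (hP : C.Polarized) (hS : IsKummerClass W S) :
    [∀ X : 𝒱.Obj, NoOdd W X → ∀ m, NoHom W X m,
      ∀ (X : 𝒱.Obj) (m : ℕ), X.dim = 2 * m → NoOdd W X → NoHom W X m,
      ∀ A ι, S A ι → ∀ m, NoFixed (C.act ι) (homTriv W A m),
      ∀ A ι, S A ι → NoHomCommuting W A ι].TFAE := by
  tfae_have 1 → 2 := fun h X m _ hX => h X hX m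
  tfae_have 2 → 4 := fun h A ι hA => noHomCommuting_of hS hA h
  tfae_have 4 → 3 := fun h A ι hA => fix_of_noHomCommuting hP (hS.parity A ι hA) (h A ι hA)
  tfae_have 3 → 1 := fun h X hX m => noHom_of_fix hS h hX m
  tfae_finish

theorem consequences (hP : C.Polarized) (hS : IsKummerClass W S)
    (h : ∀ X : 𝒱.Obj, NoOdd W X → ∀ m, NoHom W X m) :
    (∀ X Y Z : 𝒱.Obj, CompZero W X Y Z) ∧
      (∀ (X Y : 𝒱.Obj) (b m : ℕ) (β : C.CH (X.prod Y)), β ∈ homTriv W (X.prod Y) b →
        KillsAll (C.act β) (homTriv W X m)) ∧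
      ∀ (X : 𝒱.Obj) (i j : ℕ), MulZero (homTriv W X i) (homTriv W X j) := by
  have hF : ∀ A ι, S A ι → ∀ m, Fix W A ι m := ((tfae hP hS).out 0 2).1 h
  have h1 := compZero_of_fix hS hF
  exact ⟨h1, fun X Y b m β hβ x hx => act_zero_of hP h1 hβ hx, fun X i j => mul_zero_of hP h1 i j⟩

end Pool.Agent.R898.EV
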