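import Pool.Agent.R898.ZCS
import Pool.Agent.R898.EVM

/-!
# The Albanese map for regular varieties and for varieties dominated by products of curves
-/

open CategoryTheory CategoryTheory.Limits AlgebraicGeometry
open Pool.Agent.H914 Pool.Agent.H914.VarClass Pool.Agent.H914.VarClass.Obj
open Pool.Agent.R903 Pool.Agent.R898.HL Pool.Agent.R898.MB Pool.Agent.R898.EV

universe u v w

namespace Pool.Agent.R898.ZC

variable {k : Type u} [Field k] {𝒱 : VarClass k} {C : ChowTheory.{u, v} 𝒱}
  {W : WeilTheory.{u, v, w} C} {X Y Z A B E X' Y' : 𝒱.Obj}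

lemma exterior_eq (x : C.CH X) (y : C.CH Y) : exterior C X Y x y = C.ext x y := rfl

lemma act_tens_ext (α : C.CH (X.prod X')) (β : C.CH (Y.prod Y')) (x : C.CH X) (y : C.CH Y) :
    C.act (tens C α β) (C.ext x y) = C.ext (C.act α x) (C.act β y) := by
  have h := C.act_tensor (C.transp α) β (C.ext x y)
  rwa [Pool.Agent.R898.transp_transp, ext_comp, comp_ext, Pool.Agent.R898.transp_transp] at h

lemma gr_eq_bot_of_regular (h : Regular W X) {j : ℕ} (hj : j + 1 = 2 * X.dim) :
    W.gr X j = ⊥ := by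
  rw [eq_bot_iff]
  intro a ha
  rw [Submodule.mem_bot]
  apply W.nondeg
  intro b
  refine gr_induction (W.isInternal X) (p := fun b => W.tr X (a * b) = 0) ?_ ?_ b
  · intro m b hb
    by_cases hm : m = 1
    · subst hm
      rw [h, Submodule.mem_bot] at hb
      rw [hb, mul_zero, map_zero]
    · exact W.tr_eq_zero (W.mul_mem ha hb) (by omega)
  · intro b b' hb hb'
    rw [mul_add, map_add, hb, hb', add_zero]

/-- for zero-cycles, homologically trivial means of degree zero -/
lemma homTriv_of_deg {x : C.CH X} (hx : x ∈ C.gr X X.dim) (h : C.deg X x = 0) :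
    x ∈ homTriv W X X.dim := by
  refine ⟨hx, ?_⟩
  apply W.nondeg
  intro b
  refine gr_induction (W.isInternal X) (p := fun b => W.tr X (W.cl X x * b) = 0) ?_ ?_ b
  · intro m b hb
    by_cases hm : m = 0
    · subst hm
      rw [(W.isPoincareAlgebra X).gr_zero, Submodule.mem_span_singleton] at hb
      obtain ⟨c, rfl⟩ := hb
      rw [mul_smul_comm, mul_one, map_smul, W.tr_cl, h, Rat.cast_zero, smul_zero]
    · exact W.tr_eq_zero (W.mul_mem (W.cl_mem hx) hb) (by omega)
  · intro b b' hb hb'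
    rw [mul_add, map_add, hb, hb', add_zero]

lemma deg_of_homTriv {x : C.CH X} {m : ℕ} (hx : x ∈ homTriv W X m) : C.deg X x = 0 := by
  have h := W.tr_cl x
  have h1 : W.cl X x = 0 := hx.2
  rw [h1, map_zero] at h
  exact_mod_cast h.symm

lemma push_fst_pull_snd' (X Y : 𝒱.Obj) (y : C.CH Y) :
    C.push (fst X Y) (C.pull (snd X Y) y) = algebraMap ℚ (C.CH X) (C.deg Y y) := by
  have h := C.push_snd_pull_fst Y X y
  have h1 : swap X Y ≫ snd Y X = fst X Y := swap_snd
  have h2 : swap X Y ≫ fst Y X = snd X Y := swap_fst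
  rw [← h1, ← h2, C.pull_comp, C.push_comp, C.push_pull_iso, h]

lemma deg_push' (f : X ⟶ Y) (x : C.CH X) : C.deg Y (C.push f x) = C.deg X x := by
  by_cases h : (1 : C.CH X) = 0
  · have h1 : x = 0 := by rw [← mul_one x, h, mul_zero]
    rw [h1, map_zero, map_zero, map_zero]
  · have : Nontrivial (C.CH X) := ⟨⟨1, 0, h⟩⟩
    apply FaithfulSMul.algebraMap_injective ℚ (C.CH X)
    rw [← C.push_snd_pull_fst, ← C.push_snd_pull_fst, C.pull_fst_push, ← C.push_comp,
      prodMap_snd, Category.comp_id]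

lemma push_fst_ext (a : C.CH X) (b : C.CH Y) :
    C.push (fst X Y) (C.ext a b) = C.deg Y b • a := by
  rw [ChowTheory.ext, C.mul_push, push_fst_pull_snd', mul_comm, ← Algebra.smul_def]

lemma deg_ext' (a : C.CH X) (b : C.CH Y) :
    C.deg (X.prod Y) (C.ext a b) = C.deg X a * C.deg Y b := by
  rw [← deg_push' (fst X Y), push_fst_ext, map_smul, smul_eq_mul, mul_comm]

lemma push_snd_ext (a : C.CH X) (b : C.CH Y) :
    C.push (snd X Y) (C.ext a b) = C.deg X a • b := by
  rw [ChowTheory.ext, C.push_mul, C.push_snd_pull_fst, ← Algebra.smul_def]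

/-- the Albanese kernel is functorial -/
lemma divisorsKill_act {x : C.CH X} (h : DivisorsKill C x) {γ : C.CH (X.prod Y)}
    (hγ : γ ∈ C.gr (X.prod Y) Y.dim) : DivisorsKill C (C.act γ x) := by
  intro T D hD
  change C.act D (C.act γ x) = 0
  rw [← C.act_comp]
  exact h T _ (C.comp_mem hγ hD (by omega))

lemma act_homTriv_dim {x : C.CH X} (h : x ∈ homTriv W X X.dim) {γ : C.CH (X.prod Y)}
    (hγ : γ ∈ C.gr (X.prod Y) Y.dim) : C.act γ x ∈ homTriv W Y Y.dim :=
  act_homTriv hγ h (by omega)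

/-- curves -/
lemma albInj_curve (hX : X.dim = 1) : AlbInj W X := by
  intro x _ h
  have h1 : C.act (C.diagC X) x = 0 := h X _ (by
    have := C.diagC_mem X
    rwa [hX] at this)
  rwa [C.act_diagC] at h1

/-- retracts -/
lemma albInj_retract (hr : Retract C X Z) (h : AlbInj W Z) : AlbInj W X := by
  obtain ⟨α, β, hα, hβ, hαβ⟩ := hr
  intro x hx hk
  change C.comp α β = _ at hαβ
  have h1 : C.act α x = 0 := h _ (act_homTriv_dim hx hα) (divisorsKill_act hk hα)
  rw [← C.act_diagC x, ← hαβ, C.act_comp, h1, map_zero]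

lemma ext_smul_left (q : ℚ) (x : C.CH X) (y : C.CH Y) : C.ext (q • x) y = q • C.ext x y := by
  simp [ChowTheory.ext]

lemma ext_smul_right (q : ℚ) (x : C.CH X) (y : C.CH Y) : C.ext x (q • y) = q • C.ext x y := by
  simp [ChowTheory.ext]

lemma ext_sub_left (x x' : C.CH X) (y : C.CH Y) : C.ext (x - x') y = C.ext x y - C.ext x' y := by
  simp [ChowTheory.ext, sub_mul]

lemma ext_sub_right (x : C.CH X) (y y' : C.CH Y) : C.ext x (y - y') = C.ext x y - C.ext x y' := by
  simp [ChowTheory.ext, mul_sub]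

lemma exists_point (hP : C.Polarized) (X : 𝒱.Obj) : ∃ o ∈ C.gr X X.dim, C.deg X o = 1 := by
  obtain ⟨D, hD, hdeg⟩ := hP X
  refine ⟨(C.deg X (D ^ X.dim))⁻¹ • D ^ X.dim, Submodule.smul_mem _ _ (pow_mem hD _), ?_⟩
  rw [map_smul, smul_eq_mul, inv_mul_cancel₀ hdeg]

/-- products -/
lemma albInj_prod (hP : C.Polarized) (hpt : PointsOfProduct C X Y) (h0 : ProductsZero W X Y)
    (hX : AlbInj W X) (hY : AlbInj W Y) : AlbInj W (X.prod Y) := by
  intro z hz hk
  obtain ⟨o, ho, ho1⟩ := exists_point hP X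
  obtain ⟨o', ho', ho1'⟩ := exists_point hP Y
  let F : C.CH (X.prod Y) → C.CH (X.prod Y) := fun z =>
    C.ext (C.push (fst X Y) z) o' + C.ext o (C.push (snd X Y) z) - C.deg _ z • C.ext o o'
  have hadd : ∀ z z', F (z + z') = F z + F z' := by
    intro z z'
    simp only [F, ChowTheory.ext, map_add, add_mul, mul_add, add_smul]
    abel
  have hsmul : ∀ (q : ℚ) z, F (q • z) = q • F z := by
    intro q z
    simp only [F, ChowTheory.ext, map_smul, smul_mul_assoc, mul_smul_comm, smul_add, smul_sub,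
      smul_eq_mul, mul_smul]
  have key : ∀ z ∈ C.gr (X.prod Y) (X.prod Y).dim, z = F z := by
    intro z hz
    have hs := hpt z hz
    clear hz
    induction hs using Submodule.span_induction with
    | mem z h =>
      obtain ⟨a, ha, b, hb, rfl⟩ := h
      simp only [F]
      rw [exterior_eq, push_fst_ext, push_snd_ext, deg_ext']
      have h1 : a - C.deg X a • o ∈ homTriv W X X.dim :=
        homTriv_of_deg (Submodule.sub_mem _ ha (Submodule.smul_mem _ _ ho)) (by
          rw [map_sub, map_smul, ho1, smul_eq_mul, mul_one, sub_self])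
      have h2 : b - C.deg Y b • o' ∈ homTriv W Y Y.dim :=
        homTriv_of_deg (Submodule.sub_mem _ hb (Submodule.smul_mem _ _ ho')) (by
          rw [map_sub, map_smul, ho1', smul_eq_mul, mul_one, sub_self])
      have h3 : C.ext (a - C.deg X a • o) (b - C.deg Y b • o') = 0 := h0 _ h1 _ h2
      rw [ext_sub_left, ext_sub_right, ext_sub_right, ext_smul_left, ext_smul_right,
        ext_smul_right, ext_smul_left, smul_smul, mul_comm (C.deg Y b)] at h3
      rw [ext_smul_left, ext_smul_right, ← sub_eq_zero, ← h3]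
      abel
    | zero =>
      have := hsmul 0 0
      rw [zero_smul, zero_smul] at this
      exact this.symm
    | add x y _ _ hx hy => rw [hadd, ← hx, ← hy]
    | smul q x _ hx => rw [hsmul, ← hx]
  have h1 : C.push (fst X Y) z = 0 := by
    rw [← C.act_graph]
    exact hX _ (act_homTriv_dim hz (C.graph_mem _)) (divisorsKill_act hk (C.graph_mem _))
  have h2 : C.push (snd X Y) z = 0 := by
    rw [← C.act_graph]
    exact hY _ (act_homTriv_dim hz (C.graph_mem _)) (divisorsKill_act hk (C.graph_mem _))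
  rw [key z hz.1]
  simp only [F]
  rw [h1, h2, deg_of_homTriv hz]
  simp [ChowTheory.ext]

/-- the products of zero-cycles of degree zero -/
lemma productsZero_of_fix {S : ∀ A : 𝒱.Obj, C.CH (A.prod A) → Prop} (hS : IsAbelianType W S)
    (h : ∀ A ι, S A ι → NoFixed (C.act ι) (homTriv W A A.dim)) (X Y : 𝒱.Obj) :
    ProductsZero W X Y := by
  obtain ⟨A, ι, hA, α, β, hα, hβ, hαβ⟩ := hS.retract X
  obtain ⟨B, κ, hB, α', β', hα', hβ', hαβ'⟩ := hS.retract Y
  change C.comp α β = _ at hαβ
  change C.comp α' β' = _ at hαβ'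
  have hp := hS.parity A ι hA
  have hq := hS.parity B κ hB
  have anti : ∀ {E : 𝒱.Obj} {μ : C.CH (E.prod E)}, S E μ → ∀ z ∈ homTriv W E E.dim,
      C.act μ z = -z := by
    intro E μ hE z hz
    have hr := hS.parity E μ hE
    have h1 : z + C.act μ z = 0 := by
      refine h E μ hE _ (Submodule.add_mem _ hz (act_homTriv_dim hz hr.mem)) ?_
      rw [map_add, act_act hr, add_comm]
    rw [add_comm] at h1
    exact eq_neg_of_add_eq_zero_left h1
  intro z hz w hw
  change C.ext z w = 0
  have hz' := act_homTriv_dim hz hα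
  have hw' := act_homTriv_dim hw hα'
  have h1 : C.ext (C.act α z) (C.act α' w) = 0 := by
    refine h _ _ (hS.prod A B ι κ hA hB) _ (homTriv_of_deg (C.ext_mem hz'.1 hw'.1) ?_) ?_
    · rw [deg_ext', deg_of_homTriv hz', zero_mul]
    · rw [act_tens_ext, anti hA _ hz', anti hB _ hw']
      simp [ChowTheory.ext]
  have h2 := act_tens_ext β β' (C.act α z) (C.act α' w)
  rw [h1, map_zero, ← C.act_comp, ← C.act_comp, hαβ, hαβ', C.act_diagC, C.act_diagC] at h2
  exact h2.symm

/-- **The theorem.** -/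
theorem tfae (hP : C.Polarized) {S : ∀ A : 𝒱.Obj, C.CH (A.prod A) → Prop}
    (hS : IsAbelianType W S) :
    [∀ X : 𝒱.Obj, AlbInj W X,
      ∀ X : 𝒱.Obj, Regular W X → NoHom W X X.dim,
      ∀ X : 𝒱.Obj, NoOdd W X → NoHom W X X.dim,
      ∀ A ι, S A ι → NoFixed (C.act ι) (homTriv W A A.dim),
      ∀ X Y : 𝒱.Obj, ProductsZero W X Y].TFAE := by
  tfae_have 1 → 2 := by
    intro h X hX
    rw [NoHom, eq_bot_iff]
    intro x hx
    rw [Submodule.mem_bot]
    refine h X x hx fun Y D hD => hS.divisors X Y D hD (fun j hj => ?_) x hx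
    intro v hv
    rw [gr_eq_bot_of_regular hX hj, Submodule.mem_bot] at hv
    rw [hv, map_zero]
  tfae_have 2 → 3 := fun h X hX => h X (hX 0)
  tfae_have 3 → 4 := fun h A ι hA =>
    fix_of_kummer (hS.kummer A ι hA) fun K hK hd => by
      rw [← hd]
      exact h K hK
  tfae_have 4 → 5 := fun h X Y => productsZero_of_fix hS h X Y
  tfae_have 5 → 1 := by
    intro h
    refine hS.curves (AlbInj W) (fun X hX => albInj_curve hX) (fun X Y hX hY => ?_)
      (fun X Z hr hZ => albInj_retract hr hZ)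
    exact albInj_prod hP (hS.points X Y) (h X Y) hX hY
  tfae_finish

end Pool.Agent.R898.ZC
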