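import Pool.Agent.R898.AKS
import Pool.Agent.R898.HLN
import Pool.Agent.R898.HIA
import Pool.Agent.R898.ZCM

/-!
# Injectivity of the Abel–Jacobi map and Lefschetz operators
-/

open CategoryTheory CategoryTheory.Limits AlgebraicGeometry
open Pool.Agent.H914 Pool.Agent.H914.VarClass Pool.Agent.H914.VarClass.Obj
open Pool.Agent.R903 Pool.Agent.R898.HL

universe u v w

namespace Pool.Agent.R898.AK

variable {k : Type u} [Field k] {𝒱 : VarClass k} {C : ChowTheory.{u, v} 𝒱}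
  {W : WeilTheory.{u, v, w} C} {A : AJMap W} {X Y Z : 𝒱.Obj}

/-- the kernel of the Abel–Jacobi map -/
def ajKer (A : AJMap W) (X : 𝒱.Obj) (m : ℕ) : Submodule ℚ (C.CH X) :=
  homTriv W X m ⊓ LinearMap.ker (A.aj X m)

lemma act_ajKer {γ : C.CH (X.prod Y)} {c m n : ℕ} (hγ : γ ∈ C.gr _ c) {x : C.CH X}
    (hx : x ∈ ajKer A X m) (h : m + c = n + X.dim) : C.act γ x ∈ ajKer A Y n := by
  obtain ⟨S, hS, -⟩ := A.functorial X Y n m c γ h hγ
  refine ⟨act_homTriv hγ hx.1 h, ?_⟩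
  have h1 : A.aj X m x = 0 := hx.2
  change A.aj Y n (C.act γ x) = 0
  rw [hS x hx.1, h1, map_zero]

lemma ajInj_iff {m : ℕ} : AJInj A X m ↔ ajKer A X m = ⊥ := by
  rw [eq_bot_iff]
  exact ⟨fun h x hx => (Submodule.mem_bot _).2 (h x hx.1 hx.2),
    fun h x hx h0 => (Submodule.mem_bot _).1 (h ⟨hx, h0⟩)⟩

/-- injectivity gives concentration -/
lemma concentrated_of_ajInj (hP : C.Polarized) (h : ∀ m, AJInj A X m)
    {π : ℕ → C.CH (X.prod X)} (hπ : W.IsCK X π) : Concentrated W X π := by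
  intro i m him x hx
  obtain ⟨S, hS, h0⟩ := A.functorial X X m m X.dim (π i) rfl (hπ.mem i)
  by_cases hm : m = 0
  · subst hm
    rw [homTriv_zero hP hx, map_zero]
  have h1 : S = 0 := by
    refine h0 (2 * m - 1) (by omega) fun v hv => ?_
    rw [hπ.proj i _ v hv, if_neg (by omega)]
  refine h m _ (act_homTriv (hπ.mem i) hx rfl) ?_
  rw [hS x hx, h1, LinearMap.zero_apply]

/-- the `sl₂`-triple on the kernel of the Abel–Jacobi map -/
lemma sl2_ajKer (hP : C.Polarized) {D : C.CH X} (hD : D ∈ C.gr X 1) {Λ : C.CH (X.prod X)}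
    {π : ℕ → C.CH (X.prod X)} (h : C.IsLefschetzSystem (C.lef D) Λ π) :
    Sl2 X.dim (ajKer A X) (C.act (C.lef D)) (C.act Λ) (C.act (C.wt π)) :=
  have s := sl2_of_system W hP hD h
  { h1 := s.h1
    h2 := s.h2
    h3 := s.h3
    nx := s.nx
    nz := s.nz
    gx := fun m v hv => act_ajKer (lef_mem hD) hv (by omega)
    gz := fun m v hv => by
      by_cases hd : X.dim = 0
      · rw [system_zero h hd, C.act_zero, LinearMap.zero_apply]; exact Submodule.zero_mem _
      · exact act_ajKer h.mem_Λ hv (by omega)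
    gz0 := fun v hv => s.gz0 v hv.1
    gh := fun m v hv => act_ajKer (wt_mem h) hv rfl
    top := fun m hm => by
      rw [eq_bot_iff, ← s.top m hm]
      exact fun x hx => hx.1 }

lemma proj_homTriv {L Λ : C.CH (X.prod X)}
    {π : ℕ → C.CH (X.prod X)} (h : C.IsLefschetzSystem L Λ π) :
    Proj X.dim (homTriv W X) (C.act (C.wt π)) (fun i => C.act (π i)) where
  hp i v := by rw [← C.act_comp, comp_wt h, C.act_smul, LinearMap.smul_apply]
  ph i v := by rw [← C.act_comp, wt_comp h, C.act_smul, LinearMap.smul_apply]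
  sum v := by
    conv_rhs => rw [← C.act_diagC v, ← h.decomp.sum, C.act_sum, LinearMap.sum_apply]
  big i hi v := by rw [pi_zero h hi, C.act_zero]; rfl
  gp i m v hv := act_homTriv (h.decomp.mem i) hv rfl

lemma lefOnto_iff (D : C.CH X) :
    LefOnto W X D ↔ SurjN X.dim (homTriv W X) (C.act (C.lef D)) := by
  refine forall_congr' fun i => forall_congr' fun j => imp_congr_right fun _ =>
    imp_congr_right fun _ => forall_congr' fun y => imp_congr_right fun _ => ?_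
  simp only [act_lef_pow]

/-! ### from primitive middle-dimensional cycles to all codimensions -/

lemma deg_pow_ne (hP : C.Polarized) {E : C.CH Z} (h : LefStd W Z E) :
    C.deg Z (E ^ Z.dim) ≠ 0 := by
  obtain ⟨hE, h⟩ := h
  obtain ⟨Λ, -, h1, -⟩ := h 0 (Nat.zero_le _)
  intro h0
  have h2 : W.cl Z (E ^ Z.dim) = 0 :=
    (ZC.homTriv_of_deg (W := W) (pow_mem hE Z.dim) h0).2
  have h3 := h1 1 (W.one_mem Z)
  rw [mul_one, Nat.sub_zero, ← map_pow, h2, map_zero] at h3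
  obtain ⟨D, _, hdeg⟩ := hP Z
  apply hdeg
  have h4 := W.tr_cl (D ^ Z.dim)
  rw [← mul_one (W.cl Z (D ^ Z.dim)), ← h3, mul_zero, map_zero] at h4
  exact_mod_cast h4.symm

/-- the class `∑ (-d)^i e^(a-i)` -/
noncomputable def om (C : ChowTheory.{u, v} 𝒱) {X Z : 𝒱.Obj} (D : C.CH X) (E : C.CH Z) (a : ℕ) :
    C.CH (X.prod Z) :=
  ∑ i ∈ Finset.range (a + 1), (-C.pull (fst X Z) D) ^ i * C.pull (snd X Z) E ^ (a + 1 - 1 - i)

lemma om_mul (D : C.CH X) (E : C.CH Z) (a : ℕ) :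
    sumClass C D E * om C D E a =
      C.pull (snd X Z) (E ^ (a + 1)) - (-C.pull (fst X Z) D) ^ (a + 1) := by
  have h := (Commute.all (-C.pull (fst X Z) D) (C.pull (snd X Z) E)).mul_geom_sum₂ (a + 1)
  change (C.pull (fst X Z) D + C.pull (snd X Z) E) * om C D E a = _
  rw [map_pow, ← neg_sub, ← h, om]
  ring

lemma om_mem {D : C.CH X} {E : C.CH Z} (hD : D ∈ C.gr X 1) (hE : E ∈ C.gr Z 1) (a : ℕ) :
    om C D E a ∈ C.gr (X.prod Z) a := by
  refine Submodule.sum_mem _ fun i hi => ?_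
  rw [Finset.mem_range] at hi
  have h1 : -C.pull (fst X Z) D ∈ C.gr (X.prod Z) 1 := Submodule.neg_mem _ (C.pull_mem _ hD)
  have h2 := C.mul_mem (pow_mem h1 i) (pow_mem (C.pull_mem (snd X Z) hE) (a + 1 - 1 - i))
  rwa [show i + (a + 1 - 1 - i) = a by omega] at h2

lemma push_om (W : WeilTheory.{u, v, w} C) {D : C.CH X} {E : C.CH Z} (hE : E ∈ C.gr Z 1) :
    C.push (fst X Z) (om C D E Z.dim) = algebraMap ℚ (C.CH X) (C.deg Z (E ^ Z.dim)) := by
  rw [om, map_sum, Finset.sum_eq_single 0]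
  · rw [pow_zero, one_mul, Nat.add_sub_cancel, Nat.sub_zero, ← map_pow, ZC.push_fst_pull_snd']
  · intro i hi h0
    rw [Finset.mem_range] at hi
    rw [← map_neg, ← map_pow, ← map_pow, C.mul_push, ZC.push_fst_pull_snd']
    have : C.deg Z (E ^ (Z.dim + 1 - 1 - i)) = 0 := by
      have h2 := W.tr_cl (E ^ (Z.dim + 1 - 1 - i))
      rw [W.tr_eq_zero (W.cl_mem (pow_mem hE _)) (by omega)] at h2
      exact_mod_cast h2.symm
    rw [this, map_zero, mul_zero]
  · intro h; exact absurd (Finset.mem_range.2 (by omega)) h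

/-- `x ↦ ω · p_1^* x` is given by a correspondence -/
lemma act_om (ω : C.CH (X.prod Z)) (x : C.CH X) :
    C.act (C.span (fst X Z) (𝟙 _) ω) x = ω * C.pull (fst X Z) x := by
  rw [C.act_span, C.push_id]

lemma pow_inj (hP : C.Polarized) {S : ∀ X : 𝒱.Obj, C.CH X → Prop} (hS : IsFullClass W S)
    (h : ∀ X D, S X D → AJInjPrim A X D) {D : C.CH X} (hX : S X D) {m : ℕ}
    (hm : 2 * m ≤ X.dim + 1) {x : C.CH X} (hx : x ∈ ajKer A X m)
    (h0 : D ^ (X.dim + 2 - 2 * m) * x = 0) : x = 0 := by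
  have hD : D ∈ C.gr X 1 := (hS.isClass.good X D hX).1.1
  rcases Nat.eq_zero_or_pos (X.dim + 1 - 2 * m) with ha | ha
  · refine h X D hX m (by omega) x hx.1 ?_ hx.2
    rwa [show X.dim + 2 - 2 * m = 1 by omega, pow_one] at h0
  obtain ⟨Z, E, hZ, hdim⟩ := hS.dims _ ha
  have hEs := (hS.isClass.good Z E hZ).1
  have hE : E ∈ C.gr Z 1 := hEs.1
  set ω := om C D E Z.dim with hω
  have hωm : ω ∈ C.gr (X.prod Z) Z.dim := om_mem hD hE _
  set w := ω * C.pull (fst X Z) x with hw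
  have hwK : w ∈ ajKer A (X.prod Z) (m + Z.dim) := by
    rw [hw, ← act_om]
    refine act_ajKer (C.span_mem (q := Z.dim + X.dim) _ _ hωm ?_) hx (by omega)
    rw [dim_prod]; omega
  have hw0 : sumClass C D E * w = 0 := by
    rw [hw, ← mul_assoc, om_mul, sub_mul]
    have e1 : E ^ (Z.dim + 1) = 0 := by
      have := pow_mem hE (Z.dim + 1)
      rwa [C.gr_eq_bot Z _ (by omega), Submodule.mem_bot] at this
    have e2 : (-C.pull (fst X Z) D) ^ (Z.dim + 1) * C.pull (fst X Z) x = 0 := by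
      rw [← map_neg, ← map_pow, ← C.pull_mul, neg_pow, mul_assoc,
        show Z.dim + 1 = X.dim + 2 - 2 * m by omega, h0, mul_zero, map_zero]
    rw [e1, map_zero, zero_mul, e2, sub_zero]
  have hwz : w = 0 := by
    refine h _ _ (hS.isClass.prod X Z D E hX hZ) (m + Z.dim) ?_ w hwK.1 hw0 hwK.2
    rw [dim_prod]; omega
  have h1 : C.push (fst X Z) w = 0 := by rw [hwz, map_zero]
  rw [hw, C.push_mul, push_om W hE, ← Algebra.smul_def] at h1
  exact (smul_eq_zero.1 h1).resolve_left (deg_pow_ne hP hEs)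

/-! ### the main theorem -/

lemma ajKer_zero_of (hP : C.Polarized) {S : ∀ X : 𝒱.Obj, C.CH X → Prop}
    (hS : IsFullClass W S) (h : ∀ X D, S X D → LefOnto W X D ∧ AJInjPrim A X D) {D : C.CH X}
    (hX : S X D) (m : ℕ) : ajKer A X m = ⊥ := by
  obtain ⟨hstd, Λ, π, hs⟩ := hS.isClass.good X D hX
  have hD : D ∈ C.gr X 1 := hstd.1
  have s := sl2_of_system W hP hD hs.toR
  have P := proj_homTriv (W := W) hs.toR
  have hB := s.below_of_surj P ((lefOnto_iff D).1 (h X D hX).1)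
  have s' := sl2_ajKer (A := A) hP hD hs.toR
  have key : ∀ (m : ℕ) (l : ℤ) (v : C.CH X), v ∈ ajKer A X m →
      C.act (C.wt π) v = (l : ℚ) • v → v = 0 := by
    intro m
    induction m with
    | zero => intro l v hv _; exact homTriv_zero hP hv.1
    | succ m ih =>
      intro l v hv hh
      by_contra h0
      have hz : C.act Λ v = 0 := by
        refine ih (l - 2) _ (s'.gz m v hv) ?_
        rw [s'.h3, hh, map_smul]
        push_cast
        module
      obtain ⟨k, rfl, hk⟩ := s'.lowest hz hh h0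
      have hlt : ¬(-(k : ℤ) + X.dim + 2 ≤ 2 * ((m + 1 : ℕ) : ℤ)) := fun hlt =>
        h0 (hB (m + 1) _ v hv.1 hh hlt)
      push_cast at hlt
      refine h0 (pow_inj hP hS (fun X D hX => (h X D hX).2) hX (m := m + 1) (by omega) hv ?_)
      rw [act_lef_pow] at hk
      rw [show X.dim + 2 - 2 * (m + 1) = (X.dim + 2 - 2 * (m + 1) - (k + 1)) + (k + 1) by omega,
        pow_add, mul_assoc, hk, mul_zero]
  rw [eq_bot_iff]
  intro x hx
  rw [Submodule.mem_bot, ← P.sum x]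
  refine Finset.sum_eq_zero fun i _ => key m ((i : ℤ) - X.dim) _
    (act_ajKer (hs.memπ i) hx rfl) ?_
  rw [P.hp]
  push_cast
  rfl

lemma onlyOdd_of_ajInj (hP : C.Polarized) (A : AJMap W)
    (h : ∀ (X : 𝒱.Obj) (m : ℕ), AJInj A X m) (X Y : 𝒱.Obj) : OnlyOdd W X Y := by
  intro c m γ hγ h0 x hx
  change γ ∈ C.gr _ c at hγ
  by_cases hle : X.dim ≤ m + 1 + c
  · obtain ⟨S, hS, hS0⟩ := A.functorial X Y (m + 1 + c - X.dim) (m + 1) c γ (by omega) hγ
    have h1 : S = 0 := by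
      refine hS0 (2 * m + 1) (by ring) fun v hv => h0 v hv
    refine h Y (m + 1 + c - X.dim) _ (act_homTriv hγ hx (by omega)) ?_
    rw [hS x hx, h1, LinearMap.zero_apply]
  · exact C.act_eq_zero hγ hx.1 (by omega)

theorem tfae (hP : C.Polarized) (A : AJMap W) {S : ∀ X : 𝒱.Obj, C.CH X → Prop}
    (hS : IsFullClass W S) :
    [∀ (X : 𝒱.Obj) (m : ℕ), AJInj A X m,
      ∀ X D, S X D → LefOnto W X D ∧ AJInjPrim A X D,
      ∀ X D, S X D → ArithLef W X D ∧ AJInjPrim A X D,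
      ∀ (X : 𝒱.Obj) (D : C.CH X), LefStd W X D → LefOnto W X D ∧ AJInjPrim A X D].TFAE := by
  tfae_have 1 → 4 := by
    intro h X D hD
    have h1 := arithLef_of_onlyOdd hP (onlyOdd_of_ajInj hP A h X X) hD
    refine ⟨fun i j hij hj y hy => ?_, fun m _ x hx _ h0 => h X m x hx h0⟩
    obtain ⟨z, hz, hz'⟩ := (h1 i j hij hj).surjOn hy
    exact ⟨z, hz, hz'⟩
  tfae_have 4 → 2 := fun h X D hX => h X D (hS.isClass.good X D hX).1
  tfae_have 1 → 3 := by
    intro h X D hX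
    obtain ⟨hstd, Λ, π, hs⟩ := hS.isClass.good X D hX
    have hπ := isCK_of_system hstd hs.toR
    exact ⟨(arithLef_iff_concentrated hP hstd.1 hs.toR).2
      (concentrated_of_ajInj hP (fun m => h X m) hπ), fun m _ x hx _ h0 => h X m x hx h0⟩
  tfae_have 3 → 2 := by
    intro h X D hX
    refine ⟨fun i j hij hj y hy => ?_, (h X D hX).2⟩
    obtain ⟨z, hz, hz'⟩ := ((h X D hX).1 i j hij hj).surjOn hy
    exact ⟨z, hz, hz'⟩
  tfae_have 2 → 1 := by
    intro h X m
    obtain ⟨Z, D, hZ, hZX⟩ := hS.isClass.dom X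
    obtain ⟨α, β, hα, hβ, hαβ⟩ := summand_of_dominates hZX
    rw [ajInj_iff, eq_bot_iff]
    intro x hx
    have h1 : C.act α x ∈ ajKer A Z m := act_ajKer hα hx (by omega)
    rw [ajKer_zero_of hP hS h hZ, Submodule.mem_bot] at h1
    rw [Submodule.mem_bot, ← C.act_diagC x, ← hαβ, C.act_comp, h1, map_zero]
  tfae_finish

end Pool.Agent.R898.AK
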