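import Pool.Agent.R898.HLS

/-!
# Injectivity of the Abel–Jacobi map and Lefschetz operators: the definitions used in the statement
-/

open CategoryTheory CategoryTheory.Limits AlgebraicGeometry
open Pool.Agent.H914 Pool.Agent.H914.VarClass Pool.Agent.H914.VarClass.Obj
open Pool.Agent.R903 Pool.Agent.R898.HL

universe u v w

namespace Pool.Agent.R898.AK

section Alg

variable {A : Type v} [CommRing A] [Algebra ℚ A] {B : Type v} [CommRing B] [Algebra ℚ B]
  {J : Type v} [AddCommGroup J] [Module ℚ J] {J' : Type v} [AddCommGroup J'] [Module ℚ J']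

/-- `S (a x) = a' (T x)` for all `x` in `U`. -/
def Induces (U : Submodule ℚ A) (a : A →ₗ[ℚ] J) (a' : B →ₗ[ℚ] J') (T : A →ₗ[ℚ] B)
    (S : J →ₗ[ℚ] J') : Prop := ∀ x ∈ U, a' (T x) = S (a x)

/-- `a` is injective on `U`. -/
def InjOn (a : A →ₗ[ℚ] J) (U : Submodule ℚ A) : Prop := ∀ x ∈ U, a x = 0 → x = 0

/-- An `x` in `U` with `d x = 0` and `a x = 0` is zero. -/
def InjOnPrim (d : A) (a : A →ₗ[ℚ] J) (U : Submodule ℚ A) : Prop :=
  ∀ x ∈ U, d * x = 0 → a x = 0 → x = 0

/-- The multiplication by `x ^ r` maps `U` onto a space containing `V`. -/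
def Onto (x : A) (r : ℕ) (U V : Submodule ℚ A) : Prop := ∀ y ∈ V, ∃ z ∈ U, x ^ r * z = y

end Alg

variable {k : Type u} [Field k] {𝒱 : VarClass k} {C : ChowTheory.{u, v} 𝒱}

/-- An **Abel–Jacobi map**: for each variety `X` and each `j` a homomorphism `aj X j` from the
homologically trivial classes in `CH^j(X)` to a rational vector space `J X j` (it is extended
linearly to all of `CH(X)` in some way, but only its values on the homologically trivial classes of
codimension `j` are used), such that each correspondence `Γ` in `CH^l(X × Y)` induces a map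
`S : J X j → J Y i`, for `i = j + l - dim X`, which is zero if `Γ` acts as zero on
`H^(2j - 1)(X)`. -/
structure AJMap (W : WeilTheory.{u, v, w} C) where
  /-- the intermediate Jacobian, with rational coefficients -/
  J : 𝒱.Obj → ℕ → Type v
  [grp : ∀ X j, AddCommGroup (J X j)]
  [mod : ∀ X j, Module ℚ (J X j)]
  /-- the Abel–Jacobi map -/
  aj : ∀ (X : 𝒱.Obj) (j : ℕ), C.CH X →ₗ[ℚ] J X j
  functorial : ∀ (X Y : 𝒱.Obj) (i j l : ℕ) (Γ : C.CH (X.prod Y)), j + l = i + X.dim →
    Codim C l Γ → ∃ S : J X j →ₗ[ℚ] J Y i,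
      Induces (homTriv W X j) (aj X j) (aj Y i) (C.act Γ) S ∧
        ∀ m, m + 1 = 2 * j → ZeroOn (W.act Γ) (W.gr X m) → S = 0

attribute [instance] AJMap.grp AJMap.mod

variable {W : WeilTheory.{u, v, w} C} (A : AJMap W)

/-- The Abel–Jacobi map is injective on `CH^m(X)_hom`. -/
def AJInj (X : 𝒱.Obj) (m : ℕ) : Prop := InjOn (A.aj X m) (homTriv W X m)

/-- If `dim X = 2m - 1` then the Abel–Jacobi map is injective on the `x` in `CH^m(X)_hom` with
`D x = 0`. -/
def AJInjPrim (X : 𝒱.Obj) (D : C.CH X) : Prop :=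
  ∀ m, X.dim + 1 = 2 * m → InjOnPrim D (A.aj X m) (homTriv W X m)

/-- For `i ≤ j`, `i + j = dim X + 1`, the map `D^(j-i) : CH^i(X)_hom → CH^j(X)_hom` is surjective. -/
def LefOnto (W : WeilTheory.{u, v, w} C) (X : 𝒱.Obj) (D : C.CH X) : Prop :=
  ∀ i j : ℕ, i ≤ j → i + j = X.dim + 1 → Onto D (j - i) (homTriv W X i) (homTriv W X j)

/-- `S` is a class as in `IsClass` and contains pairs `(Z, E)` of all positive dimensions. -/
structure IsFullClass (W : WeilTheory.{u, v, w} C) (S : ∀ X : 𝒱.Obj, C.CH X → Prop) : Prop where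
  isClass : IsClass W S
  dims : ∀ a : ℕ, 0 < a → ∃ (Z : 𝒱.Obj) (E : C.CH Z), S Z E ∧ Z.dim = a

end Pool.Agent.R898.AK
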