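import Pool.Agent.R898.QS
import Pool.Agent.R898.HLN

/-!
# Varieties without `H^(2m-1)` and Beilinson's arithmetic hard Lefschetz conjecture
-/

open CategoryTheory CategoryTheory.Limits AlgebraicGeometry
open Pool.Agent.H914 Pool.Agent.H914.VarClass Pool.Agent.H914.VarClass.Obj
open Pool.Agent.R903 Pool.Agent.R898.HL

universe u v w

namespace Pool.Agent.R898.QO

/-! ### iterated differences -/

lemma alt_eq (F : ℚ → ℚ) (r : ℕ) : ∀ n : ℤ,
    alt (fun k : ℤ => F ((k : ℚ) / 2)) r n = (fwdDiff (1 : ℚ))^[r] F (((n : ℚ) - r) / 2) := by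
  induction r with
  | zero => intro n; simp [alt]
  | succ r ih =>
    intro n
    rw [alt, ih, ih, Function.iterate_succ', Function.comp_apply, fwdDiff]
    push_cast
    congr 2 <;> ring_nf

lemma alt_pow (r : ℕ) : alt (fun k : ℤ => (k : ℚ) ^ r) r 0 ≠ 0 := by
  have h := alt_eq ((2 : ℚ) ^ r • fun t : ℚ => t ^ r) r 0
  have e : (fun k : ℤ => ((2 : ℚ) ^ r • fun t : ℚ => t ^ r) ((k : ℚ) / 2)) =
      fun k : ℤ => (k : ℚ) ^ r := by
    funext k
    simp only [Pi.smul_apply, smul_eq_mul, ← mul_pow]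
    congr 1
    ring
  rw [e, fwdDiff_iter_const_smul, fwdDiff_iter_eq_factorial] at h
  rw [h]
  simp only [Pi.smul_apply, smul_eq_mul, Pi.natCast_apply]
  positivity

lemma alt_powSum {A : Type v} [CommRing A] [Algebra ℚ A] (π : ℕ → A) (N : ℕ) (r : ℕ) : ∀ n : ℤ,
    alt (powSum π N) r n =
      ∑ j ∈ Finset.range (2 * N + 1), alt (fun k : ℤ => (k : ℚ) ^ j) r n • π j := by
  induction r with
  | zero => intro n; rfl
  | succ r ih =>
    intro n
    rw [alt, ih, ih, ← Finset.sum_sub_distrib]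
    refine Finset.sum_congr rfl fun j _ => ?_
    rw [alt, sub_smul]

variable {k : Type u} [Field k] {𝒱 : VarClass k} {C : ChowTheory.{u, v} 𝒱}
  {W : WeilTheory.{u, v, w} C} {X Y Z A : 𝒱.Obj}

lemma duality {a b : ℕ} (h : W.gr X a = ⊥) (hab : a + b = 2 * X.dim) : W.gr X b = ⊥ := by
  rw [eq_bot_iff]
  intro x hx
  rw [Submodule.mem_bot]
  apply W.nondeg
  intro y
  refine gr_induction (W.isInternal X) (p := fun y => W.tr X (x * y) = 0) ?_ ?_ y
  · intro m y hy
    by_cases hm : m = a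
    · subst hm
      rw [h, Submodule.mem_bot] at hy
      rw [hy, mul_zero, map_zero]
    · exact W.tr_eq_zero (W.mul_mem hx hy) (by omega)
  · intro y y' hy hy'
    rw [mul_add, map_add, hy, hy', add_zero]

section Key

variable {D : C.CH A} {Λ : C.CH (A.prod A)} {π : ℕ → C.CH (A.prod A)} {mul : ℤ → (A ⟶ A)}

lemma act_pi (hs : IsSystem C D Λ π) {i j : ℕ} {x : C.CH A} (hx : C.act (π j) x = x) :
    C.act (π i) x = if i = j then x else 0 := by
  conv_lhs => rw [← hx, ← C.act_comp]
  have h := hs.orth.mul j i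
  change C.comp (π j) (π i) = _ at h
  rw [h]
  by_cases hij : i = j
  · rw [if_pos hij.symm, if_pos hij, hx]
  · rw [if_neg (Ne.symm hij), if_neg hij, C.act_zero, LinearMap.zero_apply]

/-- the direct argument -/
lemma key_direct (hA : IsAbelianLike W A D Λ π mul)
    (h : ∀ (X : 𝒱.Obj) (m : ℕ), QuestionOne W X m) {j m : ℕ} (hj0 : 0 < j)
    (hj : j ≤ 2 * A.dim) (hjm : 2 * m + 1 < j ∨ Even j) {x : C.CH A}
    (hx : x ∈ homTriv W A (m + 1)) (hpi : C.act (π j) x = x) : x = 0 := by
  obtain ⟨X, α, β, hodd, hα, hβ, hαβ⟩ := hA.quot j hj0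
  have h1 : C.act α x = 0 := by
    have h2 : C.act α x ∈ homTriv W X (m + 1) := act_homTriv hα hx (by omega)
    rwa [h X m (hodd m hjm), Submodule.mem_bot] at h2
  have h3 : C.act (C.comp α β) x = 0 := by rw [C.act_comp, h1, map_zero]
  change C.comp α β = _ at hαβ
  have e : (fun n => cog C (mul n)) = powSum π A.dim := funext hA.mul_eq
  rw [hαβ, e, alt_powSum, C.act_sum, LinearMap.sum_apply, Finset.sum_eq_single j] at h3
  · rw [C.act_smul, LinearMap.smul_apply, hpi] at h3
    exact (smul_eq_zero.1 h3).resolve_left (alt_pow j)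
  · intro i _ hij
    rw [C.act_smul, LinearMap.smul_apply, act_pi hA.system hpi, if_neg hij, smul_zero]
  · intro h4; exact absurd (Finset.mem_range.2 (by omega)) h4

/-- the dual argument -/
lemma key_dual (hP : C.Polarized) (hA : IsAbelianLike W A D Λ π mul)
    (h : ∀ (X : 𝒱.Obj) (m : ℕ), QuestionOne W X m) {j m : ℕ} (hj : j < 2 * A.dim)
    (hm : m ≤ A.dim) (hjm : 2 * (A.dim - m) + 1 < 2 * A.dim - j ∨ Even j) {x : C.CH A}
    (hx : x ∈ homTriv W A m) (hpi : C.act (π j) x = x) : x = 0 := by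
  set r := 2 * A.dim - j with hr
  obtain ⟨X, α, β, hodd, hα, hβ, hαβ⟩ := hA.quot r (by omega)
  have hα' : C.transp α ∈ C.gr (X.prod A) A.dim := C.transp_mem hα
  have hβ' : C.transp β ∈ C.gr (A.prod X) X.dim := C.transp_mem hβ
  have h1 : C.act (C.transp β) x = 0 := by
    rcases lt_or_ge (m + X.dim) A.dim with hlt | hge
    · exact C.act_eq_zero hβ' hx.1 (by omega)
    obtain ⟨M, hM⟩ : ∃ M, m + X.dim = M + A.dim := ⟨m + X.dim - A.dim, by omega⟩
    have h2 : C.act (C.transp β) x ∈ homTriv W X M := act_homTriv hβ' hx (by omega)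
    rcases Nat.eq_zero_or_pos M with h0 | h0
    · subst h0
      exact homTriv_zero hP h2
    obtain ⟨M', rfl⟩ : ∃ M', M = M' + 1 := ⟨M - 1, by omega⟩
    have h3 : W.gr X (2 * (A.dim - m) + 1) = ⊥ := by
      refine hodd (A.dim - m) (hjm.imp_right fun he => ?_)
      rw [hr]
      exact (Nat.even_sub (by omega)).2 ⟨fun _ => he, fun _ => even_two_mul _⟩
    have h4 : W.gr X (2 * M' + 1) = ⊥ := duality h3 (by omega)
    rwa [h X M' h4, Submodule.mem_bot] at h2
  have h3 : C.act (C.comp (C.transp β) (C.transp α)) x = 0 := by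
    rw [C.act_comp, h1, map_zero]
  change C.comp α β = _ at hαβ
  have e : (fun n => cog C (mul n)) = powSum π A.dim := funext hA.mul_eq
  rw [C.comp_transp, hαβ, e, alt_powSum, C.transp_sum, C.act_sum, LinearMap.sum_apply,
    Finset.sum_eq_single r] at h3
  · have h5 : C.transp (π r) = π j := by
      have := hA.flips r (by omega)
      rwa [show 2 * A.dim - r = j by omega] at this
    rw [transp_smul, h5, C.act_smul, LinearMap.smul_apply, hpi] at h3
    exact (smul_eq_zero.1 h3).resolve_left (alt_pow r)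
  · intro i hi hir
    rw [Finset.mem_range] at hi
    have h5 : C.transp (π i) = π (2 * A.dim - i) := hA.flips i (by omega)
    rw [transp_smul, h5, C.act_smul, LinearMap.smul_apply, act_pi hA.system hpi,
      if_neg (by omega), smul_zero]
  · intro h4; exact absurd (Finset.mem_range.2 (by omega)) h4

/-- Question 1 gives concentration -/
theorem concentrated_of (hP : C.Polarized) (hA : IsAbelianLike W A D Λ π mul)
    (h : ∀ (X : 𝒱.Obj) (m : ℕ), QuestionOne W X m) : Concentrated W A π := by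
  intro i m him y hy
  set x := C.act (π i) y with hx
  have hxm : x ∈ homTriv W A m := act_homTriv (hA.system.memπ i) hy (by omega)
  have hpi : C.act (π i) x = x := by
    have h1 := hA.system.orth.mul i i
    rw [if_pos rfl] at h1
    change C.comp (π i) (π i) = π i at h1
    rw [hx, ← C.act_comp, h1]
  rcases Nat.eq_zero_or_pos m with h0 | h0
  · subst h0; exact homTriv_zero hP hxm
  obtain ⟨m, rfl⟩ : ∃ m', m = m' + 1 := ⟨m - 1, by omega⟩
  by_cases hm : A.dim < m + 1
  · have := hxm.1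
    rwa [C.gr_eq_bot A _ hm, Submodule.mem_bot] at this
  by_cases hi : 2 * A.dim < i
  · rw [hx, pi_zero hA.system.toR hi, C.act_zero, LinearMap.zero_apply]
  rcases Nat.even_or_odd' i with ⟨i', rfl | rfl⟩
  · rcases Nat.eq_zero_or_pos i' with h2 | h2
    · subst h2
      exact key_dual hP hA h (by omega) (by omega) (Or.inr (by simp)) hxm hpi
    · exact key_direct hA h (by omega) (by omega) (Or.inr (even_two_mul _)) hxm hpi
  · rcases lt_trichotomy i' m with h2 | h2 | h2
    · exact key_dual hP hA h (by omega) (by omega) (Or.inl (by omega)) hxm hpi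
    · omega
    · exact key_direct hA h (by omega) (by omega) (Or.inl (by omega)) hxm hpi

end Key

/-! ### summands -/

lemma comp_mem' {α : C.CH (X.prod Y)} {β : C.CH (Y.prod Z)} {p q : ℕ}
    (hα : α ∈ C.gr _ p) (hβ : β ∈ C.gr _ q) : C.comp α β ∈ C.gr _ (p + q - Y.dim) := by
  by_cases h : Y.dim ≤ p + q
  · exact C.comp_mem hα hβ (by omega)
  · have : C.comp α β = 0 := by
      rw [ChowTheory.comp]
      refine C.push_eq_zero _ (C.mul_mem (C.pull_mem _ hα) (C.pull_mem _ hβ)) ?_
      simp only [dim_prod]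
      omega
    rw [this]
    exact Submodule.zero_mem _

lemma onlyOdd_of_summand (hP : C.Polarized) {Z' : 𝒱.Obj} (hX : IsSummandOf C X Z)
    (hY : IsSummandOf C Y Z') (h : OnlyOdd W Z Z') : OnlyOdd W X Y := by
  obtain ⟨a, b, α, β, hab, hα, hβ, hαβ⟩ := hX
  obtain ⟨a', b', α', β', hab', hα', hβ', hαβ'⟩ := hY
  change α ∈ C.gr _ a at hα
  change β ∈ C.gr _ b at hβ
  change α' ∈ C.gr _ a' at hα'
  change β' ∈ C.gr _ b' at hβ'
  change C.comp α β = _ at hαβ
  change C.comp α' β' = _ at hαβ'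
  intro c m γ hγ h0 x hx
  change γ ∈ C.gr _ c at hγ
  have hx1 : C.act β (C.act α x) = x := by rw [← C.act_comp, hαβ, C.act_diagC]
  have hfin : ∀ y : C.CH Y, C.act α' y = 0 → y = 0 := by
    intro y hy
    rw [← C.act_diagC y, ← hαβ', C.act_comp, hy, map_zero]
  rcases lt_trichotomy (m + 1 + a) X.dim with hlt | heq | hgt
  · rw [← hx1, C.act_eq_zero hα hx.1 hlt, map_zero, map_zero]
  · have h1 : C.act α x = 0 := homTriv_zero (W := W) hP (act_homTriv hα hx (by omega))
    rw [← hx1, h1, map_zero, map_zero]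
  obtain ⟨M, hM⟩ : ∃ M, m + a = M + X.dim := ⟨m + a - X.dim, by omega⟩
  have hx' : C.act α x ∈ homTriv W Z (M + 1) := act_homTriv hα hx (by omega)
  have h2 : C.act (C.comp (C.comp β γ) α') (C.act α x) = 0 := by
    refine h _ M _ (comp_mem' (comp_mem' hβ hγ) hα') (fun v hv => ?_) _ hx'
    rw [W.act_comp _ hα', W.act_comp _ hγ, h0 _ (act_memH W hβ hv (by omega)), map_zero]
  rw [C.act_comp, C.act_comp, hx1] at h2
  exact hfin _ h2

/-! ### the theorem -/

theorem tfae (hP : C.Polarized) {S : ∀ A : 𝒱.Obj, C.CH A → Prop} (hS : IsAbelianClass W S) :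
    [∀ (X : 𝒱.Obj) (m : ℕ), QuestionOne W X m,
      ∀ A D, S A D → ArithLef W A D,
      ∀ (X : 𝒱.Obj) (D : C.CH X), LefStd W X D → ArithLef W X D,
      ∀ X Y : 𝒱.Obj, OnlyOdd W X Y].TFAE := by
  tfae_have 1 → 2 := by
    intro h A D hA
    obtain ⟨Λ, π, mul, hab⟩ := hS.abel A D hA
    exact (arithLef_iff_concentrated hP hab.lef.1 hab.system.toR).2 (concentrated_of hP hab h)
  tfae_have 2 → 4 := by
    intro h X Y
    obtain ⟨A, D, hA, hXA⟩ := hS.summand X
    obtain ⟨B, E, hB, hYB⟩ := hS.summand Y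
    obtain ⟨Λ, π, mul, hab⟩ := hS.abel A D hA
    obtain ⟨Λ', π', mul', hab'⟩ := hS.abel B E hB
    exact onlyOdd_of_summand hP hXA hYB (onlyOdd_of_arithLef hP ⟨hab.lef, Λ, π, hab.system⟩
      ⟨hab'.lef, Λ', π', hab'.system⟩ (h A D hA) (h B E hB) (h _ _ (hS.prod A B D E hA hB)))
  tfae_have 4 → 3 := fun h X D hD => arithLef_of_onlyOdd hP (h X X) hD
  tfae_have 3 → 2 := by
    intro h A D hA
    obtain ⟨Λ, π, mul, hab⟩ := hS.abel A D hA
    exact h A D hab.lef
  tfae_have 4 → 1 := by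
    intro h X m hX
    rw [eq_bot_iff]
    intro x hx
    have h1 := h X X X.dim m (C.diagC X) (C.diagC_mem X) (fun v hv => by
      rw [hX, Submodule.mem_bot] at hv
      rw [hv, map_zero]) x hx
    rw [C.act_diagC] at h1
    rw [h1]
    exact Submodule.zero_mem _
  tfae_finish

end Pool.Agent.R898.QO
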