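import Pool.Agent.R898.AQS
import Pool.Agent.R898.QM
import Pool.Agent.R898.AKM

/-!
# Injectivity of the Abel–Jacobi map and varieties with little odd cohomology
-/

open CategoryTheory CategoryTheory.Limits AlgebraicGeometry
open Pool.Agent.H914 Pool.Agent.H914.VarClass Pool.Agent.H914.VarClass.Obj
open Pool.Agent.R903 Pool.Agent.R898.HL Pool.Agent.R898.QO Pool.Agent.R898.AK

universe u v w

namespace Pool.Agent.R898.AQ

variable {k : Type u} [Field k] {𝒱 : VarClass k} {C : ChowTheory.{u, v} 𝒱}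
  {W : WeilTheory.{u, v, w} C} {T : AJMap W} {X Y Z A : 𝒱.Obj}

section Key

variable {D : C.CH A} {Λ : C.CH (A.prod A)} {π : ℕ → C.CH (A.prod A)} {mul : ℤ → (A ⟶ A)}

/-- the direct argument -/
lemma key_direct (hA : IsAbelianLike W A D Λ π mul) {j m : ℕ} (hj0 : 0 < j)
    (hj : j ≤ 2 * A.dim) (h : ∀ X : 𝒱.Obj, SmallOdd W X j → AJInj T X m) {x : C.CH A}
    (hx : x ∈ ajKer T A m) (hpi : C.act (π j) x = x) : x = 0 := by
  obtain ⟨X, α, β, hodd, hα, hβ, hαβ⟩ := hA.quot j hj0
  have h1 : C.act α x = 0 := by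
    have h2 : C.act α x ∈ ajKer T X m := act_ajKer hα hx (by omega)
    rwa [ajInj_iff.1 (h X hodd), Submodule.mem_bot] at h2
  have h3 : C.act (C.comp α β) x = 0 := by rw [C.act_comp, h1, map_zero]
  change C.comp α β = _ at hαβ
  have e : (fun n => cog C (mul n)) = powSum π A.dim := funext hA.mul_eq
  rw [hαβ, e, alt_powSum, C.act_sum, LinearMap.sum_apply, Finset.sum_eq_single j] at h3
  · rw [C.act_smul, LinearMap.smul_apply, hpi] at h3
    exact (smul_eq_zero.1 h3).resolve_left (alt_pow j)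
  · intro i _ hij
    rw [C.act_smul, LinearMap.smul_apply, act_pi hA.system hpi, if_neg hij, smul_zero]
  · intro h4; exact absurd (Finset.mem_range.2 (by omega)) h4

/-- the dual argument -/
lemma key_dual (hA : IsAbelianLike W A D Λ π mul) {j m : ℕ} (hj : j < 2 * A.dim)
    (h : ∀ (X : 𝒱.Obj) (M : ℕ), SmallOdd W X (2 * A.dim - j) → m + X.dim = M + A.dim →
      AJInj T X M) {x : C.CH A} (hx : x ∈ ajKer T A m) (hpi : C.act (π j) x = x) : x = 0 := by
  set r := 2 * A.dim - j with hr
  obtain ⟨X, α, β, hodd, hα, hβ, hαβ⟩ := hA.quot r (by omega)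
  have hα' : C.transp α ∈ C.gr (X.prod A) A.dim := C.transp_mem hα
  have hβ' : C.transp β ∈ C.gr (A.prod X) X.dim := C.transp_mem hβ
  have h1 : C.act (C.transp β) x = 0 := by
    rcases lt_or_ge (m + X.dim) A.dim with hlt | hge
    · exact C.act_eq_zero hβ' hx.1.1 (by omega)
    obtain ⟨M, hM⟩ : ∃ M, m + X.dim = M + A.dim := ⟨m + X.dim - A.dim, by omega⟩
    have h2 : C.act (C.transp β) x ∈ ajKer T X M := act_ajKer hβ' hx (by omega)
    rwa [ajInj_iff.1 (h X M hodd hM), Submodule.mem_bot] at h2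
  have h3 : C.act (C.comp (C.transp β) (C.transp α)) x = 0 := by
    rw [C.act_comp, h1, map_zero]
  change C.comp α β = _ at hαβ
  have e : (fun n => cog C (mul n)) = powSum π A.dim := funext hA.mul_eq
  rw [C.comp_transp, hαβ, e, alt_powSum, C.transp_sum, C.act_sum, LinearMap.sum_apply,
    Finset.sum_eq_single r] at h3
  · have h5 : C.transp (π r) = π j := by
      have := hA.flips r (by omega)
      rwa [show 2 * A.dim - r = j by omega] at this
    rw [transp_smul, h5, C.act_smul, LinearMap.smul_apply, hpi] at h3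
    exact (smul_eq_zero.1 h3).resolve_left (alt_pow r)
  · intro i hi hir
    rw [Finset.mem_range] at hi
    have h5 : C.transp (π i) = π (2 * A.dim - i) := hA.flips i (by omega)
    rw [transp_smul, h5, C.act_smul, LinearMap.smul_apply, act_pi hA.system hpi,
      if_neg (by omega), smul_zero]
  · intro h4; exact absurd (Finset.mem_range.2 (by omega)) h4

/-- the members of the class -/
theorem ajKer_of_oneSided (hP : C.Polarized) (hA : IsAbelianLike W A D Λ π mul)
    (h : ∀ (X : 𝒱.Obj) (m : ℕ), OneSided W X m → AJInj T X m) (m : ℕ) : ajKer T A m = ⊥ := by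
  rw [eq_bot_iff]
  intro y hy
  rw [Submodule.mem_bot, ← C.act_diagC y, ← hA.system.toR.decomp.sum, C.act_sum,
    LinearMap.sum_apply]
  refine Finset.sum_eq_zero fun i hi => ?_
  rw [Finset.mem_range] at hi
  set x := C.act (π i) y with hx
  have hxm : x ∈ ajKer T A m := act_ajKer (hA.system.memπ i) hy (by omega)
  have hpi : C.act (π i) x = x := by
    have h1 := hA.system.orth.mul i i
    rw [if_pos rfl] at h1
    change C.comp (π i) (π i) = π i at h1
    rw [hx, ← C.act_comp, h1]
  rcases Nat.eq_zero_or_pos m with h0 | h0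
  · subst h0; exact homTriv_zero hP hxm.1
  by_cases hm : A.dim < m
  · have := hxm.1.1
    rwa [C.gr_eq_bot A _ hm, Submodule.mem_bot] at this
  rcases Nat.even_or_odd' i with ⟨i', rfl | rfl⟩
  · rcases Nat.eq_zero_or_pos i' with h2 | h2
    · subst h2
      refine key_dual hA (by omega) (fun X M hodd _ => h X M (Or.inl fun j _ => hodd j (Or.inr ?_)))
        hxm hpi
      simp
    · exact key_direct hA (by omega) (by omega)
        (fun X hodd => h X m (Or.inl fun j _ => hodd j (Or.inr (even_two_mul _)))) hxm hpi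
  · rcases lt_or_ge (i' + 1) m with h2 | h2
    · refine key_dual hA (by omega) (fun X M hodd hM => h X M (Or.inr fun j hj => ?_)) hxm hpi
      by_cases hjX : 2 * X.dim < 2 * j + 1
      · exact W.gr_eq_bot X _ hjX
      · exact duality (hodd (X.dim - j - 1) (Or.inl (by omega))) (by omega)
    · exact key_direct hA (by omega) (by omega)
        (fun X hodd => h X m (Or.inl fun j hj => hodd j (Or.inl (by omega)))) hxm hpi

end Key

/-- summands -/
lemma ajInj_of_summand (hX : IsSummandOf C X A) (h : ∀ m, ajKer T A m = ⊥) (m : ℕ) :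
    AJInj T X m := by
  obtain ⟨a, b, α, β, hab, hα, hβ, hαβ⟩ := hX
  change α ∈ C.gr _ a at hα
  change C.comp α β = _ at hαβ
  rw [ajInj_iff, eq_bot_iff]
  intro x hx
  have h1 : C.act α x = 0 := by
    rcases lt_or_ge (m + a) X.dim with hlt | hge
    · exact C.act_eq_zero hα hx.1.1 hlt
    · have h2 : C.act α x ∈ ajKer T A (m + a - X.dim) := act_ajKer hα hx (by omega)
      rwa [h, Submodule.mem_bot] at h2
  rw [Submodule.mem_bot, ← C.act_diagC x, ← hαβ, C.act_comp, h1, map_zero]

/-- the equivalence -/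
theorem iff_oneSided (hP : C.Polarized) (T : AJMap W) {S : ∀ A : 𝒱.Obj, C.CH A → Prop}
    (hS : IsAbelianClass W S) :
    (∀ (X : 𝒱.Obj) (m : ℕ), AJInj T X m) ↔
      ∀ (X : 𝒱.Obj) (m : ℕ), OneSided W X m → AJInj T X m := by
  refine ⟨fun h X m _ => h X m, fun h X m => ?_⟩
  obtain ⟨A, D, hA, hXA⟩ := hS.summand X
  obtain ⟨Λ, π, mul, hab⟩ := hS.abel A D hA
  exact ajInj_of_summand hXA (ajKer_of_oneSided hP hab h) m

end Pool.Agent.R898.AQ
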