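import Pool.Agent.R898.HLS

/-!
# Varieties without `H^(2m-1)` and Beilinson's arithmetic hard Lefschetz conjecture: the definitions
# used in the statement
-/

open CategoryTheory CategoryTheory.Limits AlgebraicGeometry
open Pool.Agent.H914 Pool.Agent.H914.VarClass Pool.Agent.H914.VarClass.Obj
open Pool.Agent.R903 Pool.Agent.R898.HL

universe u v w

namespace Pool.Agent.R898.QO

section Alg

variable {A : Type v} [CommRing A] [Algebra ℚ A]

/-- The iterated differences: `alt c 0 n = c n`, `alt c (r+1) n = alt c r (n+1) - alt c r (n-1)`.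
Thus `alt c r 0 = ∑ ε_1 ⋯ ε_r c(ε_1 + ⋯ + ε_r)`, the sum over all signs `ε_1, …, ε_r`. -/
def alt (c : ℤ → A) : ℕ → ℤ → A
  | 0, n => c n
  | r + 1, n => alt c r (n + 1) - alt c r (n - 1)

/-- `∑ n^j π j`, `0 ≤ j ≤ 2N`. -/
noncomputable def powSum (π : ℕ → A) (N : ℕ) (n : ℤ) : A :=
  ∑ j ∈ Finset.range (2 * N + 1), ((n : ℚ) ^ j) • π j

/-- `T (π j) = π (2N - j)` for `j ≤ 2N`. -/
def Flips (T : A →ₐ[ℚ] A) (π : ℕ → A) (N : ℕ) : Prop := ∀ j ≤ 2 * N, T (π j) = π (2 * N - j)

end Alg

variable {k : Type u} [Field k] {𝒱 : VarClass k} {C : ChowTheory.{u, v} 𝒱}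
  (W : WeilTheory.{u, v, w} C)

/-- The transposed graph `{(f(a), a)}` of an endomorphism of `A`; it acts as `f^*`. -/
noncomputable def cog (C : ChowTheory.{u, v} 𝒱) {A : 𝒱.Obj} (f : A ⟶ A) : C.CH (A.prod A) :=
  C.push (lift f (𝟙 A)) 1

/-- `H^i(X) = 0` for the odd `i < r`, and for all odd `i` if `r` is even. -/
def SmallOdd (X : 𝒱.Obj) (r : ℕ) : Prop :=
  ∀ j, (2 * j + 1 < r ∨ Even r) → W.gr X (2 * j + 1) = ⊥

/-- For each `r ≥ 1` the correspondence `∑ ε_1 ⋯ ε_r [ε_1 + ⋯ + ε_r]^*` from `A` to `A` is the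
composition of two correspondences of degree zero `A ⊢ X ⊢ A`, where `X` is a variety with `SmallOdd`.
For abelian varieties this holds for a resolution of the quotient of `A^r` by the group of the sign
changes with an even number of signs: the sum is `d^* ∘ (∑ ε_1 ⋯ ε_r (ε_1, …, ε_r)^*) ∘ s^*` with the
diagonal `d : A → A^r` and the sum `s : A^r → A`. -/
def HasQuotients (A : 𝒱.Obj) (mul : ℤ → (A ⟶ A)) : Prop :=
  ∀ r, 0 < r → ∃ (X : 𝒱.Obj) (α : C.CH (A.prod X)) (β : C.CH (X.prod A)), SmallOdd W X r ∧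
    Codim C A.dim α ∧ Codim C X.dim β ∧ cp C α β = alt (fun n => cog C (mul n)) r 0

/-- The properties of an abelian variety `A` with a symmetric ample divisor class `D`, the
multiplications `mul n` by the integers `n`, the Chow–Künneth projectors `π j` (Deninger–Murre) and
the Lefschetz operator `Λ` (Künnemann). -/
structure IsAbelianLike (A : 𝒱.Obj) (D : C.CH A) (Λ : C.CH (A.prod A)) (π : ℕ → C.CH (A.prod A))
    (mul : ℤ → (A ⟶ A)) : Prop where
  lef : LefStd W A D
  system : IsSystem C D Λ π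
  flips : Flips (C.pull (lift (snd A A) (fst A A))) π A.dim
  mul_eq : ∀ n, cog C (mul n) = powSum π A.dim n
  quot : HasQuotients W A mul

/-- The motive of `X` is a direct summand of a Tate twist of the motive of `A`. -/
def IsSummandOf (C : ChowTheory.{u, v} 𝒱) (X A : 𝒱.Obj) : Prop :=
  ∃ (a b : ℕ) (α : C.CH (X.prod A)) (β : C.CH (A.prod X)),
    a + b = X.dim + A.dim ∧ Codim C a α ∧ Codim C b β ∧ cp C α β = C.diagC X

/-- A class of abelian-like pairs, closed under products, such that the motives of the varieties in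
`𝒱` are summands of twists of motives of the members. -/
structure IsAbelianClass (S : ∀ A : 𝒱.Obj, C.CH A → Prop) : Prop where
  abel : ∀ A D, S A D → ∃ Λ π mul, IsAbelianLike W A D Λ π mul
  prod : ∀ A B D E, S A D → S B E → S (A.prod B) (sumClass C D E)
  summand : ∀ X : 𝒱.Obj, ∃ (A : 𝒱.Obj) (D : C.CH A), S A D ∧ IsSummandOf C X A

/-- **Question 1** for the variety `X` and the codimension `m + 1`: if `H^(2m+1)(X) = 0` then
`CH^(m+1)(X)_hom = 0`. -/
def QuestionOne (X : 𝒱.Obj) (m : ℕ) : Prop :=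
  W.gr X (2 * m + 1) = ⊥ → homTriv W X (m + 1) = ⊥

end Pool.Agent.R898.QO
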