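import Pool.Agent.R898.AKS
import Pool.Agent.R898.QS

/-!
# Injectivity of the Abel–Jacobi map and varieties with little odd cohomology: the definitions used in
# the statement
-/

open CategoryTheory CategoryTheory.Limits AlgebraicGeometry
open Pool.Agent.H914 Pool.Agent.H914.VarClass Pool.Agent.H914.VarClass.Obj
open Pool.Agent.R903 Pool.Agent.R898.HL Pool.Agent.R898.QO

universe u v w

namespace Pool.Agent.R898.AQ

/-- `gr i = 0` for all odd `i < 2m - 1`, or `gr i = 0` for all odd `i > 2m - 1`. -/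
def OneSidedGr {K : Type w} [Field K] {V : Type w} [AddCommGroup V] [Module K V]
    (gr : ℕ → Submodule K V) (m : ℕ) : Prop :=
  (∀ j, j + 1 < m → gr (2 * j + 1) = ⊥) ∨ ∀ j, m < j + 1 → gr (2 * j + 1) = ⊥

variable {k : Type u} [Field k] {𝒱 : VarClass k} {C : ChowTheory.{u, v} 𝒱}
  (W : WeilTheory.{u, v, w} C)

/-- `H^i(X) = 0` for all odd `i < 2m - 1`, or `H^i(X) = 0` for all odd `i > 2m - 1`. -/
def OneSided (X : 𝒱.Obj) (m : ℕ) : Prop := OneSidedGr (W.gr X) m

end Pool.Agent.R898.AQ
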