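import Pool.Agent.R898.BStmt
import Pool.Agent.R898.AJ

/-!
# Translation of the definitions used in the statements
-/

open CategoryTheory CategoryTheory.Limits AlgebraicGeometry
open Pool.Agent.H914 Pool.Agent.H914.VarClass Pool.Agent.H914.VarClass.Obj
open Pool.Agent.R903

universe u v w

namespace Pool.Agent.R898

variable {k : Type u} [Field k] {𝒱 : VarClass k} {C : ChowTheory.{u, v} 𝒱}
  {W : WeilTheory.{u, v, w} C} {X Y : 𝒱.Obj}

/-- the Abel–Jacobi map in the other form -/
def old (A : B.AJMap W) : AJMap W where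
  J := A.J
  aj := A.aj
  functorial X Y i j l Γ h hΓ := by
    obtain ⟨S, h1, h2⟩ := A.functorial X Y i j l Γ h hΓ
    exact ⟨S, h1, h2⟩

lemma isBB_iff (A : B.AJMap W) (F : C.Family) : B.IsBB A F ↔ IsBBAJ (old A) F := by
  constructor
  · rintro ⟨h1, h2, h3⟩
    refine ⟨fun X i => ⟨(h1 X i).antitone, (h1 X i).zero⟩, fun X i x => ?_,
      fun X j x => (h2 X j).two x, fun X j => (h1 X j).bot, ?_, ?_⟩
    · rw [(h2 X i).one x, (h1 X i).zero]
    · intro X Y i j l k Γ h hΓ x hx
      exact (h3 X Y i j l Γ h hΓ).sends k x hx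
    · intro X Y i j l k m Γ h hm hΓ h0 x hx
      exact (h3 X Y i j l Γ h hΓ).raises k m hm h0 x hx
  · intro h
    refine ⟨fun X j => ⟨(h.isFiltration X j).antitone, (h.isFiltration X j).zero, h.bot X j⟩,
      fun X j => ⟨fun x => ?_, h.ker_two X j⟩, fun X Y i j l Γ hl hΓ => ⟨fun k x hx => ?_,
        fun k m hm h0 x hx => ?_⟩⟩
    · rw [(h.isFiltration X j).zero]
      exact h.ker_one X j x
    · exact h.corr X Y i j l k Γ hl hΓ x hx
    · exact h.weight X Y i j l k m Γ hl hm hΓ h0 x hx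

lemma annihilates_iff (A : B.AJMap W) :
    B.Annihilates A ↔ W.Annihilation ∧ AJAnnihilation (old A) :=
  ⟨fun h => ⟨fun X i d hd x hx => (h X i d hd).1 x hx, fun X j d hd x hx h1 h2 =>
    (h X j d hd).2 x hx h1 h2⟩, fun h X j d hd => ⟨fun x hx => h.1 X j d hd x hx,
      fun x hx h1 h2 => h.2 X j d hd x hx h1 h2⟩⟩

theorem exists_isBB_iff (A : B.AJMap W) (hK : W.Kunneth) (hP : C.Polarized) :
    ((∃ F, B.IsBB A F) ↔ B.Annihilates A) ∧ ∀ F, B.IsBB A F → B.IsGiven W F := by
  constructor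
  · rw [annihilates_iff, ← exists_isBBAJ_iff (old A) hK hP]
    exact exists_congr fun F => isBB_iff A F
  · intro F hF X j d hd k x
    exact isBBAJ_given (old A) hK hP ((isBB_iff A F).1 hF) X j k d hd x

end Pool.Agent.R898
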