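import Pool.Agent.R898.BDecStmt
import Pool.Agent.R898.BEq
import Pool.Agent.R898.AJDec

/-!
# Translation of the definitions used in the statement
-/

open CategoryTheory CategoryTheory.Limits AlgebraicGeometry
open Pool.Agent.H914 Pool.Agent.H914.VarClass Pool.Agent.H914.VarClass.Obj
open Pool.Agent.R903 Pool.Agent.R903.WeilTheory

universe u v w

namespace Pool.Agent.R898

variable {k : Type u} [Field k] {𝒱 : VarClass k} {C : ChowTheory.{u, v} 𝒱}
  {W : WeilTheory.{u, v, w} C} {X Y : 𝒱.Obj}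

lemma isDec_iff {π : ℕ → C.CH (X.prod X)} : B.IsDec W X π ↔ W.IsCK X π :=
  ⟨fun ⟨h1, h2, h3, h4, h5⟩ => ⟨h1, h2, h3, h4, h5⟩,
    fun ⟨h1, h2, h3, h4, h5⟩ => ⟨h1, h2, h3, h4, h5⟩⟩

lemma isTri_iff {π : ℕ → C.CH (X.prod X)} : B.IsTri C X π ↔ C.IsTriangular π :=
  ⟨fun h a b hab γ hγ => h a b γ hab hγ, fun h a b γ hab hγ => h a b hab γ hγ⟩

lemma noPhantom_iff : B.NoPhantom W X ↔ W.NoPhantoms X :=
  ⟨fun h e he h1 h2 => h e he h1 h2, fun h e he h1 h2 => h e he h1 h2⟩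

lemma inFil_iff {π : ℕ → C.CH (X.prod X)} (h : W.IsCK X π) {j k : ℕ} {x : C.CH X} :
    B.InFil (C.gr X j) (fun b => C.act (π b)) j k x ↔ x ∈ C.ckFil π j k := by
  rw [mem_ckFil h]
  exact Iff.rfl

lemma goodFil_iff (A : B.AJMap W) {π : ℕ → C.CH (X.prod X)} (h : W.IsCK X π) {j : ℕ} :
    B.GoodFil (C.gr X j) (fun b => C.act (π b)) j (W.cl X) (A.aj X j) ↔
      GoodFiltration (old A) X π j := by
  constructor
  · rintro ⟨h1, h2, h3⟩
    refine ⟨fun x => ?_, fun x => ?_, ?_⟩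
    · rw [← inFil_iff h]; exact h1 x
    · rw [← inFil_iff h, ← inFil_iff h]; exact h2 x
    · rw [Submodule.eq_bot_iff]
      intro x hx
      exact h3 x ((inFil_iff h).2 hx)
  · rintro ⟨h1, h2, h3⟩
    refine ⟨fun x => ?_, fun x => ?_, fun x hx => ?_⟩
    · rw [inFil_iff h]; exact h1 x
    · rw [inFil_iff h, inFil_iff h]; exact h2 x
    · rw [inFil_iff h, h3, Submodule.mem_bot] at hx
      exact hx

lemma hasDec_iff (A : B.AJMap W) : B.HasDec A X ↔ HasAJDecomposition (old A) X := by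
  constructor
  · rintro ⟨h1, π, h2, h3, h4⟩
    have h2' := isDec_iff.1 h2
    exact ⟨noPhantom_iff.1 h1, π, h2', isTri_iff.1 h3, fun j => (goodFil_iff A h2').1 (h4 j)⟩
  · rintro ⟨h1, π, h2, h3, h4⟩
    exact ⟨noPhantom_iff.2 h1, π, isDec_iff.2 h2, isTri_iff.2 h3,
      fun j => (goodFil_iff A h2).2 (h4 j)⟩

theorem isBB_iff_dec (A : B.AJMap W) (hP : C.Polarized) :
    (W.Kunneth ∧ ∃ F, B.IsBB A F) ↔ ∀ X : 𝒱.Obj, B.HasDec A X := by
  have h1 : (∃ F, B.IsBB A F) ↔ HasBBAJ (old A) := exists_congr fun F => isBB_iff A F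
  rw [h1, bbaj_iff_decompositions (old A) hP]
  exact forall_congr' fun X => (hasDec_iff A).symm

end Pool.Agent.R898
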