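import Pool.Agent.R898.BStmt

/-!
# One decomposition for each variety: the definitions used in the statement
-/

open CategoryTheory CategoryTheory.Limits AlgebraicGeometry
open Pool.Agent.H914 Pool.Agent.H914.VarClass Pool.Agent.H914.VarClass.Obj
open Pool.Agent.R903

universe u v w

namespace Pool.Agent.R898.B

section Alg

variable {A B D E : Type v} [CommRing A] [Algebra ℚ A] [CommRing B] [Algebra ℚ B]
  [CommRing D] [Algebra ℚ D] [CommRing E] [Algebra ℚ E]

/-- The element `s(p(a) q(b))`. -/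
def mulPush (p : A →ₐ[ℚ] D) (q : B →ₐ[ℚ] D) (s : D →ₗ[ℚ] E) (a : A) (b : B) : E :=
  s (p a * q b)

/-- `a` is zero. -/
def IsNil (a : A) : Prop := a = 0

/-- The sum of `f 0, …, f n` is `a`. -/
def SumIs (f : ℕ → A) (n : ℕ) (a : A) : Prop := ∑ j ∈ Finset.range (n + 1), f j = a

/-- `x` is in `U`, and all the operators `T b` with `b > 2j - k` vanish at `x`. -/
def InFil (U : Submodule ℚ A) (T : ℕ → (A →ₗ[ℚ] A)) (j k : ℕ) (x : A) : Prop :=
  x ∈ U ∧ ∀ b, 2 * j < b + k → T b x = 0

variable {J : Type v} [AddCommGroup J] [Module ℚ J] {K : Type w} [Field K] {H : Type w} [Ring H]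
  [Algebra K H]

/-- `InFil` for `k = 1` is the kernel of `c` on `U`, for `k = 2` it is the intersection of the
kernels of `c` and `a` on `U`, and for `k = j + 1` it is zero. -/
structure GoodFil (U : Submodule ℚ A) (T : ℕ → (A →ₗ[ℚ] A)) (j : ℕ) (c : A →+* H)
    (a : A →ₗ[ℚ] J) : Prop where
  one : ∀ x, InFil U T j 1 x ↔ x ∈ U ∧ c x = 0
  two : ∀ x, InFil U T j 2 x ↔ InFil U T j 1 x ∧ a x = 0
  bot : ∀ x, InFil U T j (j + 1) x → x = 0

/-- The operator `T` is zero. -/
def IsZeroOp (T : H →ₗ[K] H) : Prop := ∀ a, T a = 0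

end Alg

variable {k : Type u} [Field k] {𝒱 : VarClass k} (C : ChowTheory.{u, v} 𝒱) {X Y Z : 𝒱.Obj}

/-- `γ` is a correspondence of degree zero, that is in `CH^(dim X)(X × Y)`. -/
def DegZero (γ : C.CH (X.prod Y)) : Prop := γ ∈ C.gr (X.prod Y) X.dim

/-- The composition of correspondences, first `α`, then `β`: `p13_*(p12^* α · p23^* β)`. -/
noncomputable def cp (α : C.CH (X.prod Y)) (β : C.CH (Y.prod Z)) : C.CH (X.prod Z) :=
  mulPush (C.pull (p12 X Y Z)) (C.pull (snd X (Y.prod Z))) (C.push (p13 X Y Z)) α β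

variable {C} (W : WeilTheory.{u, v, w} C)

/-- `π 0, …, π (2 dim X)` is a **Chow–Künneth decomposition** of `X`: mutually orthogonal
idempotent correspondences of degree zero whose sum is the diagonal, such that `π j` acts on
`H^j(X)` as the identity and on `H^l(X)` as zero for `l ≠ j`. -/
structure IsDec (X : 𝒱.Obj) (π : ℕ → C.CH (X.prod X)) : Prop where
  mem : ∀ j, DegZero C (π j)
  idem : ∀ j, cp C (π j) (π j) = π j
  orth : ∀ i j, i ≠ j → IsNil (cp C (π i) (π j))
  sum : SumIs π (2 * X.dim) (C.diagC X)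
  proj : ∀ j, IsProjector (W.gr X) j (W.act (π j))

/-- `Hom(h^a(X), h^b(X)) = 0` for `a < b`: `π b ∘ γ ∘ π a = 0` for all correspondences `γ` of degree
zero. -/
def IsTri (C : ChowTheory.{u, v} 𝒱) (X : 𝒱.Obj) (π : ℕ → C.CH (X.prod X)) : Prop :=
  ∀ (a b : ℕ) (γ : C.CH (X.prod X)), a < b → DegZero C γ → IsNil (cp C (cp C (π a) γ) (π b))

/-- `X` has **no phantoms**: the only idempotent correspondence of degree zero which acts as zero on
the cohomology of `X` is zero. -/
def NoPhantom (X : 𝒱.Obj) : Prop :=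
  ∀ e : C.CH (X.prod X), DegZero C e → cp C e e = e → IsZeroOp (W.act e) → IsNil e

variable {W}

/-- `X` has no phantoms, and it has a Chow–Künneth decomposition with `Hom(h^a(X), h^b(X)) = 0` for
`a < b` whose filtration `F^k CH^j(X) = {x : π_b x = 0 for b > 2j - k}`, that is
`F^k CH^j(X) = (π_0 + ⋯ + π_(2j - k))_* CH^j(X)`, has `F^1` the kernel of the class map, `F^2` the
kernel of the Abel–Jacobi map on `F^1` and `F^(j+1) = 0`. -/
def HasDec (A : AJMap W) (X : 𝒱.Obj) : Prop :=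
  NoPhantom W X ∧ ∃ π : ℕ → C.CH (X.prod X), IsDec W X π ∧ IsTri C X π ∧
    ∀ j, GoodFil (C.gr X j) (fun b => C.act (π b)) j (W.cl X) (A.aj X j)

end Pool.Agent.R898.B
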