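import Pool.Agent.R898.PDS
import Pool.Agent.R898.HIM
import Pool.Agent.R898.AKM

/-!
# Beilinson's conjectures on height pairings in the middle dimension
-/

open CategoryTheory CategoryTheory.Limits AlgebraicGeometry
open Pool.Agent.H914 Pool.Agent.H914.VarClass Pool.Agent.H914.VarClass.Obj
open Pool.Agent.R903 Pool.Agent.R898.HL Pool.Agent.R898.AK

universe u v w

namespace Pool.Agent.R898.PD

variable {k : Type u} [Field k] {𝒱 : VarClass k} {C : ChowTheory.{u, v} 𝒱}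
  {W : WeilTheory.{u, v, w} C} {X Y Z : 𝒱.Obj}

/-- the transpose of a span -/
lemma transp_span {A B P : 𝒱.Obj} (a : P ⟶ A) (b : P ⟶ B) (ω : C.CH P) :
    C.transp (C.span a b ω) = C.span b a ω := by
  apply C.push_injective (swap B A)
  rw [ChowTheory.transp, C.push_pull_iso, ChowTheory.span, ChowTheory.span, ← C.push_comp]
  congr 1
  have : lift b a ≫ swap B A = lift a b := by apply hom_ext_prod <;> simp
  rw [this]

section Products

variable {D : C.CH X} {E : C.CH Z}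

lemma deg_pow (W : WeilTheory.{u, v, w} C) (hE : E ∈ C.gr Z 1) {s : ℕ} (hs : s ≠ Z.dim) :
    C.deg Z (E ^ s) = 0 := by
  have h2 := W.tr_cl (E ^ s)
  rw [W.tr_eq_zero (W.cl_mem (pow_mem hE _)) (by omega)] at h2
  exact_mod_cast h2.symm

lemma push_mono (W : WeilTheory.{u, v, w} C) (hE : E ∈ C.gr Z 1) (a : C.CH X) (s : ℕ) :
    C.push (fst X Z) (C.pull (fst X Z) a * C.pull (snd X Z) E ^ s) =
      if s = Z.dim then C.deg Z (E ^ Z.dim) • a else 0 := by
  rw [C.mul_push, ← map_pow, ZC.push_fst_pull_snd', mul_comm, ← Algebra.smul_def]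
  split_ifs with h
  · rw [h]
  · rw [deg_pow W hE h, zero_smul]

lemma pow_big (hE : E ∈ C.gr Z 1) {s : ℕ} (hs : Z.dim < s) : C.pull (snd X Z) E ^ s = 0 := by
  have := pow_mem hE s
  rw [C.gr_eq_bot Z _ hs, Submodule.mem_bot] at this
  rw [← map_pow, this, map_zero]

/-- the powers of `D + E` -/
lemma pow_split (W : WeilTheory.{u, v, w} C) (hD : D ∈ C.gr X 1) (hE : E ∈ C.gr Z 1) (a : ℕ) :
    ∃ R ∈ C.gr (X.prod Z) Z.dim, sumClass C D E ^ (a + Z.dim) = C.pull (fst X Z) (D ^ a) * R ∧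
      C.push (fst X Z) R =
        algebraMap ℚ (C.CH X) (((a + Z.dim).choose a : ℚ) * C.deg Z (E ^ Z.dim)) := by
  set x := C.pull (fst X Z) D with hx
  set y := C.pull (snd X Z) E with hy
  have hx1 : x ∈ C.gr (X.prod Z) 1 := C.pull_mem _ hD
  have hy1 : y ∈ C.gr (X.prod Z) 1 := C.pull_mem _ hE
  refine ⟨∑ m ∈ Finset.range (Z.dim + 1), ((a + Z.dim).choose (a + m) : ℚ) •
    (x ^ m * y ^ (Z.dim - m)), ?_, ?_, ?_⟩
  · refine Submodule.sum_mem _ fun m hm => Submodule.smul_mem _ _ ?_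
    rw [Finset.mem_range] at hm
    have h := C.mul_mem (pow_mem hx1 m) (pow_mem hy1 (Z.dim - m))
    rwa [show m + (Z.dim - m) = Z.dim by omega] at h
  · change (x + y) ^ (a + Z.dim) = _
    rw [add_pow, show a + Z.dim + 1 = a + (Z.dim + 1) by omega, Finset.sum_range_add,
      Finset.sum_eq_zero, zero_add, Finset.mul_sum]
    · refine Finset.sum_congr rfl fun m hm => ?_
      rw [Finset.mem_range] at hm
      rw [show a + Z.dim - (a + m) = Z.dim - m by omega, map_pow, ← hx, pow_add,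
        Algebra.smul_def, map_natCast]
      ring
    · intro m hm
      rw [Finset.mem_range] at hm
      rw [hy, pow_big hE (by omega), mul_zero, zero_mul]
  · rw [map_sum, Finset.sum_eq_single 0]
    · rw [map_smul, hx, hy, ← map_pow, push_mono W hE, if_pos (by omega), pow_zero, smul_smul,
        add_zero, Algebra.algebraMap_eq_smul_one]
    · intro m hm h0
      rw [Finset.mem_range] at hm
      rw [map_smul, hx, hy, ← map_pow, push_mono W hE, if_neg (by omega), smul_zero]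
    · intro h; exact absurd (Finset.mem_range.2 (by omega)) h

lemma push_om_sq (W : WeilTheory.{u, v, w} C) (hE : E ∈ C.gr Z 1) :
    C.push (fst X Z) (om C D E Z.dim * om C D E Z.dim) =
      (((Z.dim : ℚ) + 1) * C.deg Z (E ^ Z.dim)) • (-D) ^ Z.dim := by
  have key : ∀ i ∈ Finset.range (Z.dim + 1), C.push (fst X Z)
      ((-C.pull (fst X Z) D) ^ i * C.pull (snd X Z) E ^ (Z.dim + 1 - 1 - i) * om C D E Z.dim) =
      C.deg Z (E ^ Z.dim) • (-D) ^ Z.dim := by
    intro i hi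
    rw [Finset.mem_range] at hi
    rw [mul_assoc, ← map_neg, ← map_pow, C.mul_push, om, Finset.mul_sum, map_sum,
      Finset.sum_eq_single (Z.dim - i)]
    · have e : C.pull (snd X Z) E ^ (Z.dim + 1 - 1 - i) *
          ((-C.pull (fst X Z) D) ^ (Z.dim - i) *
            C.pull (snd X Z) E ^ (Z.dim + 1 - 1 - (Z.dim - i))) =
          C.pull (fst X Z) ((-D) ^ (Z.dim - i)) * C.pull (snd X Z) E ^ Z.dim := by
        rw [map_pow, map_neg, mul_left_comm, ← pow_add]
        congr 2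
        omega
      rw [e, push_mono W hE, if_pos rfl, mul_smul_comm, ← pow_add,
        show i + (Z.dim - i) = Z.dim by omega]
    · intro j hj hji
      rw [Finset.mem_range] at hj
      have e : C.pull (snd X Z) E ^ (Z.dim + 1 - 1 - i) *
          ((-C.pull (fst X Z) D) ^ j * C.pull (snd X Z) E ^ (Z.dim + 1 - 1 - j)) =
          C.pull (fst X Z) ((-D) ^ j) *
            C.pull (snd X Z) E ^ ((Z.dim + 1 - 1 - i) + (Z.dim + 1 - 1 - j)) := by
        rw [map_pow, map_neg, mul_left_comm, ← pow_add]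
      rw [e, push_mono W hE, if_neg (by omega)]
    · intro h; exact absurd (Finset.mem_range.2 (by omega)) h
  conv_lhs => rw [om, Finset.sum_mul, map_sum]
  rw [← om, Finset.sum_congr rfl key, Finset.sum_const, Finset.card_range, ← Nat.cast_smul_eq_nsmul ℚ,
    smul_smul]
  push_cast
  rfl

/-! ### homologically trivial classes -/

lemma mul_homTriv {Y : 𝒱.Obj} {ω : C.CH Y} {e i : ℕ} (hω : ω ∈ C.gr Y e) {x : C.CH Y}
    (hx : x ∈ homTriv W Y i) : ω * x ∈ homTriv W Y (e + i) :=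
  ⟨C.mul_mem hω hx.1, by rw [map_mul, hx.2, mul_zero]⟩

lemma pull_homTriv {i : ℕ} {x : C.CH X} (hx : x ∈ homTriv W X i) :
    C.pull (fst X Z) x ∈ homTriv W (X.prod Z) i :=
  ⟨C.pull_mem _ hx.1, by rw [W.cl_pull, hx.2, map_zero]⟩

lemma push_homTriv {i j : ℕ} {x : C.CH (X.prod Z)} (hx : x ∈ homTriv W (X.prod Z) j)
    (h : j = i + Z.dim) : C.push (fst X Z) x ∈ homTriv W X i := by
  refine ⟨C.push_mem _ hx.1 ?_, ?_⟩
  · rw [dim_prod]; omega
  · rw [W.cl_push, hx.2, map_zero]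

lemma sumClass_mem (hD : D ∈ C.gr X 1) (hE : E ∈ C.gr Z 1) :
    sumClass C D E ∈ C.gr (X.prod Z) 1 :=
  Submodule.add_mem _ (C.pull_mem _ hD) (C.pull_mem _ hE)

/-- `om * p^* x` is killed by `D + E` -/
lemma om_prim (hE : E ∈ C.gr Z 1) (x : C.CH X) :
    sumClass C D E * (om C D E Z.dim * C.pull (fst X Z) x) =
      -C.pull (fst X Z) ((-D) ^ (Z.dim + 1) * x) := by
  rw [← mul_assoc, om_mul, sub_mul]
  have e1 : C.pull (snd X Z) (E ^ (Z.dim + 1)) = 0 := by rw [map_pow, pow_big hE (by omega)]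
  rw [e1, zero_mul, zero_sub, ← map_neg, ← map_pow, ← C.pull_mul]

lemma push_om_mul (W : WeilTheory.{u, v, w} C) (hE : E ∈ C.gr Z 1) (x : C.CH X) :
    C.push (fst X Z) (om C D E Z.dim * C.pull (fst X Z) x) = C.deg Z (E ^ Z.dim) • x := by
  rw [C.push_mul, push_om W hE, ← Algebra.smul_def]

/-! ### injectivity -/

lemma injA (W : WeilTheory.{u, v, w} C) (hD : D ∈ C.gr X 1) (hE : E ∈ C.gr Z 1)
    (hδ : C.deg Z (E ^ Z.dim) ≠ 0) {i a : ℕ}
    (h : MulInj (sumClass C D E) (a + Z.dim) (homTriv W (X.prod Z) i)) :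
    MulInj D a (homTriv W X i) := by
  intro x hx h0
  obtain ⟨R, hR, hR1, -⟩ := pow_split W hD hE a
  have h1 : C.pull (fst X Z) x = 0 := by
    refine h _ (pull_homTriv hx) ?_
    rw [hR1, mul_assoc, mul_left_comm, ← C.pull_mul, h0, map_zero, mul_zero]
  have h2 := push_mono W hE x Z.dim
  rw [if_pos rfl, h1, zero_mul, map_zero] at h2
  exact (smul_eq_zero.1 h2.symm).resolve_left hδ

lemma injB (W : WeilTheory.{u, v, w} C) (hD : D ∈ C.gr X 1) (hE : E ∈ C.gr Z 1)
    (hδ : C.deg Z (E ^ Z.dim) ≠ 0) {i : ℕ}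
    (h : MulInj (sumClass C D E) 1 (homTriv W (X.prod Z) (i + Z.dim))) :
    MulInj D (Z.dim + 1) (homTriv W X i) := by
  intro x hx h0
  have h1 : om C D E Z.dim * C.pull (fst X Z) x = 0 := by
    refine h _ ?_ ?_
    · rw [add_comm]; exact mul_homTriv (om_mem hD hE _) (pull_homTriv hx)
    · rw [pow_one, om_prim hE, neg_pow, mul_assoc, h0, mul_zero, map_zero, neg_zero]
  have h2 := push_om_mul (D := D) W hE x
  rw [h1, map_zero] at h2
  exact (smul_eq_zero.1 h2.symm).resolve_left hδ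

/-! ### surjectivity -/

lemma surjA (W : WeilTheory.{u, v, w} C) (hD : D ∈ C.gr X 1) (hE : E ∈ C.gr Z 1)
    (hδ : C.deg Z (E ^ Z.dim) ≠ 0) {i a : ℕ}
    (h : MulSurj (sumClass C D E) (a + Z.dim) (homTriv W (X.prod Z) i)
      (homTriv W (X.prod Z) (i + a + Z.dim))) :
    MulSurj D a (homTriv W X i) (homTriv W X (i + a)) := by
  intro y hy
  obtain ⟨R, hR, hR1, -⟩ := pow_split W hD hE a
  have h1 : C.pull (fst X Z) y * C.pull (snd X Z) E ^ Z.dim ∈
      homTriv W (X.prod Z) (i + a + Z.dim) := by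
    rw [mul_comm, add_comm]
    exact mul_homTriv (pow_mem (C.pull_mem _ hE) _) (pull_homTriv hy)
  obtain ⟨u, hu, hu1⟩ := h _ h1
  have h2 := push_mono W hE y Z.dim
  rw [if_pos rfl, ← hu1, hR1, mul_assoc, C.mul_push] at h2
  refine ⟨(C.deg Z (E ^ Z.dim))⁻¹ • C.push (fst X Z) (R * u), ?_, ?_⟩
  · exact Submodule.smul_mem _ _ (push_homTriv (mul_homTriv hR hu) (by omega))
  · rw [mul_smul_comm, h2, smul_smul, inv_mul_cancel₀ hδ, one_smul]

lemma surjB (W : WeilTheory.{u, v, w} C) (hE : E ∈ C.gr Z 1)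
    (hδ : C.deg Z (E ^ Z.dim) ≠ 0) {i : ℕ}
    (h : MulSurj (sumClass C D E) 1 (homTriv W (X.prod Z) (i + Z.dim))
      (homTriv W (X.prod Z) (i + Z.dim + 1))) :
    MulSurj D (Z.dim + 1) (homTriv W X i) (homTriv W X (i + Z.dim + 1)) := by
  intro y hy
  obtain ⟨u, hu, hu1⟩ := h _ (pull_homTriv hy)
  rw [pow_one] at hu1
  have h2 := push_om_mul (D := D) W hE y
  have h3 : om C D E Z.dim * (sumClass C D E * u) =
      -(C.pull (fst X Z) ((-D) ^ (Z.dim + 1)) * u) := by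
    have e1 : C.pull (snd X Z) (E ^ (Z.dim + 1)) = 0 := by rw [map_pow, pow_big hE (by omega)]
    rw [← mul_assoc, mul_comm (om C D E Z.dim), om_mul, sub_mul, e1, zero_mul, zero_sub, ← map_neg,
      ← map_pow]
  rw [← hu1, h3, map_neg, C.mul_push] at h2
  refine ⟨-((C.deg Z (E ^ Z.dim))⁻¹ • ((-1) ^ (Z.dim + 1) * C.push (fst X Z) u)), ?_, ?_⟩
  · refine Submodule.neg_mem _ (Submodule.smul_mem _ _ ?_)
    have h4 : C.push (fst X Z) u ∈ homTriv W X i := push_homTriv hu rfl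
    rcases neg_one_pow_eq_or (C.CH X) (Z.dim + 1) with h5 | h5
    · rw [h5, one_mul]; exact h4
    · rw [h5, neg_one_mul]; exact Submodule.neg_mem _ h4
  · rw [mul_neg, mul_smul_comm, ← mul_assoc, mul_comm (D ^ (Z.dim + 1)), ← neg_pow, ← smul_neg, h2,
      smul_smul, inv_mul_cancel₀ hδ, one_smul]

/-! ### positivity -/

variable {ht : ∀ X : 𝒱.Obj, C.CH X → C.CH X → ℝ}

/-- `(ω · p^* x, z) = (x, p_*(ω · z))` -/
lemma ht_mul_pull (hh : IsHeight W ht) {ω : C.CH (X.prod Z)} {e i j : ℕ}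
    (hω : ω ∈ C.gr (X.prod Z) e) (hij : i + e + j = X.dim + Z.dim + 1) {x : C.CH X}
    (hx : x ∈ homTriv W X i) {z : C.CH (X.prod Z)} (hz : z ∈ homTriv W (X.prod Z) j) :
    ht (X.prod Z) (ω * C.pull (fst X Z) x) z = ht X x (C.push (fst X Z) (ω * z)) := by
  have h1 : C.span (fst X Z) (𝟙 _) ω ∈ C.gr (X.prod (X.prod Z)) (e + X.dim) :=
    C.span_mem _ _ hω (by rw [dim_prod]; omega)
  have h := hh.adj X (X.prod Z) (e + X.dim) i j _ h1 (by rw [dim_prod]; omega) x hx z hz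
  rwa [tr_eq, transp_span, C.act_span, C.push_id, C.act_span, C.pull_id] at h

lemma posA (hh : IsHeight W ht) (hD : D ∈ C.gr X 1) (hE : E ∈ C.gr Z 1)
    (hδ : 0 < C.deg Z (E ^ Z.dim)) {i a : ℕ} (hia : 2 * i + a = X.dim + 1)
    (h : Positive (ht (X.prod Z)) (sumClass C D E) (a + Z.dim) i (homTriv W (X.prod Z) i)) :
    Positive (ht X) D a i (homTriv W X i) := by
  intro x hx hx0 h0
  have hpx : C.pull (fst X Z) x ∈ homTriv W (X.prod Z) i := pull_homTriv hx
  have hp0 : C.pull (fst X Z) x ≠ 0 := by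
    intro h1
    have h2 := push_mono W hE x Z.dim
    rw [if_pos rfl, h1, zero_mul, map_zero] at h2
    exact hx0 ((smul_eq_zero.1 h2.symm).resolve_left hδ.ne')
  have h1 := h _ hpx hp0 (by
    obtain ⟨R, hR, hR1, -⟩ := pow_split W hD hE (a + 1)
    rw [show a + Z.dim + 1 = a + 1 + Z.dim by omega, hR1, mul_assoc, mul_left_comm, ← C.pull_mul,
      h0, map_zero, mul_zero])
  obtain ⟨R, hR, hR1, hR2⟩ := pow_split W hD hE a
  have h2 : sumClass C D E ^ (a + Z.dim) * C.pull (fst X Z) x ∈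
      homTriv W (X.prod Z) (a + Z.dim + i) := mul_homTriv (pow_mem (sumClass_mem hD hE) _) hpx
  have h3 := ht_mul_pull hh (C.one_mem (X.prod Z)) (by omega) hx h2
  have h4 : C.push (fst X Z) (sumClass C D E ^ (a + Z.dim) * C.pull (fst X Z) x) =
      (((a + Z.dim).choose a : ℚ) * C.deg Z (E ^ Z.dim)) • (D ^ a * x) := by
    rw [hR1, mul_assoc, C.mul_push, C.push_mul, hR2, ← Algebra.smul_def, mul_smul_comm]
  have h5 : D ^ a * x ∈ homTriv W X (a + i) := mul_homTriv (pow_mem hD a) hx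
  rw [one_mul, one_mul, h4, (hh.bi X i (a + i) (by omega)).smul_right hx h5] at h3
  rw [h3] at h1
  have h6 : (0 : ℝ) < ((((a + Z.dim).choose a : ℚ) * C.deg Z (E ^ Z.dim) : ℚ) : ℝ) := by
    have : 0 < (a + Z.dim).choose a := Nat.choose_pos (by omega)
    exact_mod_cast mul_pos (by exact_mod_cast this) hδ
  rw [mul_left_comm] at h1
  exact (mul_pos_iff_of_pos_left h6).1 h1

lemma posB (hh : IsHeight W ht) (hD : D ∈ C.gr X 1) (hE : E ∈ C.gr Z 1)
    (hδ : 0 < C.deg Z (E ^ Z.dim)) {i : ℕ} (hia : 2 * i + Z.dim = X.dim + 1)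
    (h : Positive (ht (X.prod Z)) (sumClass C D E) 0 (i + Z.dim)
      (homTriv W (X.prod Z) (i + Z.dim))) :
    Positive (ht X) D Z.dim i (homTriv W X i) := by
  intro x hx hx0 h0
  set w := om C D E Z.dim * C.pull (fst X Z) x with hw
  have hwm : w ∈ homTriv W (X.prod Z) (i + Z.dim) := by
    rw [add_comm]; exact mul_homTriv (om_mem hD hE _) (pull_homTriv hx)
  have hw0 : w ≠ 0 := by
    intro h1
    have h2 := push_om_mul (D := D) W hE x
    rw [← hw, h1, map_zero] at h2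
    exact hx0 ((smul_eq_zero.1 h2.symm).resolve_left hδ.ne')
  have h1 := h w hwm hw0 (by
    rw [zero_add, pow_one, hw, om_prim hE, neg_pow, mul_assoc, h0, mul_zero, map_zero, neg_zero])
  rw [pow_zero, one_mul] at h1
  have h3 : ht (X.prod Z) w w = ht X x (C.push (fst X Z) (om C D E Z.dim * w)) :=
    ht_mul_pull hh (om_mem hD hE _) (by omega) hx hwm
  have h4 : C.push (fst X Z) (om C D E Z.dim * w) =
      ((-1) ^ Z.dim * (((Z.dim : ℚ) + 1) * C.deg Z (E ^ Z.dim))) • (D ^ Z.dim * x) := by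
    have e : (-1 : C.CH X) ^ Z.dim = algebraMap ℚ (C.CH X) ((-1) ^ Z.dim) := by
      rw [map_pow, map_neg, map_one]
    rw [hw, ← mul_assoc, C.push_mul, push_om_sq W hE, neg_pow, e, ← Algebra.smul_def,
      smul_smul, smul_mul_assoc, mul_comm ((-1 : ℚ) ^ Z.dim)]
  have h5 : D ^ Z.dim * x ∈ homTriv W X (Z.dim + i) := mul_homTriv (pow_mem hD _) hx
  rw [h3, h4, (hh.bi X i (Z.dim + i) (by omega)).smul_right hx h5] at h1
  have h6 : (0 : ℝ) < ((((Z.dim : ℚ) + 1) * C.deg Z (E ^ Z.dim) : ℚ) : ℝ) := by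
    have : (0 : ℚ) < (Z.dim : ℚ) + 1 := by positivity
    exact_mod_cast mul_pos this hδ
  have h7 : (-1 : ℝ) ^ (i + Z.dim) * (((((-1) ^ Z.dim * (((Z.dim : ℚ) + 1) *
      C.deg Z (E ^ Z.dim))) : ℚ) : ℝ) * ht X x (D ^ Z.dim * x)) =
      ((((Z.dim : ℚ) + 1) * C.deg Z (E ^ Z.dim) : ℚ) : ℝ) * ((-1) ^ i * ht X x (D ^ Z.dim * x)) := by
    have e : (-1 : ℝ) ^ Z.dim * (-1) ^ Z.dim = 1 := by
      rw [← mul_pow]; simp
    push_cast
    rw [pow_add]
    linear_combination ((-1 : ℝ) ^ i * ((Z.dim : ℝ) + 1) * (C.deg Z (E ^ Z.dim) : ℝ) *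
      ht X x (D ^ Z.dim * x)) * e
  rw [h7] at h1
  exact (mul_pos_iff_of_pos_left h6).1 h1

end Products

/-! ### the class `S` -/

section Classes

variable {S : ∀ X : 𝒱.Obj, C.CH X → Prop} {P : ℕ → 𝒱.Obj} {h : ∀ a, C.CH (P a)} {I J : Set ℕ}

lemma IsStable.deg_pos (hS : IsStable C S P h) (a : ℕ) :
    0 < C.deg (P a) (h a ^ (P a).dim) := by
  rw [hS.dim_eq a]; exact hS.pos a

theorem lefInj_of_injAt (hS : IsStable C S P h) (hI : Unbounded I) (hi : InjAt W S I)
    {X : 𝒱.Obj} {D : C.CH X} (hX : S X D) : LefInj W X D := by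
  intro i j hij hj
  rcases Nat.eq_zero_or_pos (j - i) with h0 | h0
  · rw [h0]
    intro y _ hy
    rwa [pow_zero, one_mul] at hy
  obtain ⟨a, ha⟩ : ∃ a, j - i = a + 1 := ⟨j - i - 1, by omega⟩
  obtain ⟨i', hi', hle⟩ := hI (i + a)
  obtain ⟨c, rfl⟩ : ∃ c, i' = i + a + c := ⟨i' - (i + a), by omega⟩
  have hc := hS.dim_eq c
  have hac := hS.dim_eq (a + c)
  have h1 := hS.prod X D c hX
  have h2 := hS.prod _ _ (a + c) h1
  have h3 := hi _ _ (i + a + c) hi' h2 (by simp only [dim_prod]; omega)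
  rw [ha]
  refine injA (E := h c) W (hS.memS X D hX) (hS.memh c) (hS.deg_pos c).ne' ?_
  have h4 := injB (i := i) W (hS.memS _ _ h1) (hS.memh (a + c)) (hS.deg_pos (a + c)).ne' (by
    rw [hac]
    rwa [show i + a + c = i + (a + c) by omega] at h3)
  rw [hc]
  rwa [hac, show a + c + 1 = a + 1 + c by omega] at h4

theorem lefSurj_of_surjAt (hS : IsStable C S P h) (hI : Unbounded I) (hi : SurjAt W S I)
    {X : 𝒱.Obj} {D : C.CH X} (hX : S X D) : LefSurj W X D := by
  intro i j hij hj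
  rcases Nat.eq_zero_or_pos (j - i) with h0 | h0
  · rw [h0]
    intro y hy
    refine ⟨y, ?_, by rw [pow_zero, one_mul]⟩
    rwa [show i = j by omega]
  obtain ⟨a, ha⟩ : ∃ a, j - i = a + 1 := ⟨j - i - 1, by omega⟩
  obtain ⟨i', hi', hle⟩ := hI (i + a)
  obtain ⟨c, rfl⟩ : ∃ c, i' = i + a + c := ⟨i' - (i + a), by omega⟩
  have hc := hS.dim_eq c
  have hac := hS.dim_eq (a + c)
  have h1 := hS.prod X D c hX
  have h2 := hS.prod _ _ (a + c) h1
  have h3 := hi _ _ (i + a + c) hi' h2 (by simp only [dim_prod]; omega)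
  rw [ha, show j = i + (a + 1) by omega]
  refine surjA (E := h c) W (hS.memS X D hX) (hS.memh c) (hS.deg_pos c).ne' ?_
  have h4 := surjB (i := i) W (hS.memh (a + c)) (hS.deg_pos (a + c)).ne' (by
    rw [hac]
    rwa [show i + a + c = i + (a + c) by omega] at h3)
  rw [hc]
  rwa [hac, show a + c + 1 = a + 1 + c by omega,
    show i + (a + c) + 1 = i + (a + 1) + c by omega] at h4

variable {ht : ∀ X : 𝒱.Obj, C.CH X → C.CH X → ℝ}

theorem hodgeIndex_of_posAt (hh : IsHeight W ht) (hS : IsStable C S P h) (hI : Unbounded I)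
    (hi : PosAt W ht S I) {X : 𝒱.Obj} {D : C.CH X} (hX : S X D) : HodgeIndex W ht X D := by
  intro i j hij hj
  obtain ⟨a, rfl⟩ : ∃ a, j = i + a := ⟨j - i, by omega⟩
  rw [show i + a - i = a by omega]
  obtain ⟨i', hi', hle⟩ := hI (i + a)
  obtain ⟨c, rfl⟩ : ∃ c, i' = i + a + c := ⟨i' - (i + a), by omega⟩
  have hc := hS.dim_eq c
  have hac := hS.dim_eq (a + c)
  have h1 := hS.prod X D c hX
  have h2 := hS.prod _ _ (a + c) h1
  have h3 := hi _ _ (i + a + c) hi' h2 (by simp only [dim_prod]; omega)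
  refine posA (E := h c) hh (hS.memS X D hX) (hS.memh c) (hS.deg_pos c) (by omega) ?_
  have h4 := posB (i := i) hh (hS.memS _ _ h1) (hS.memh (a + c)) (hS.deg_pos (a + c))
    (by rw [dim_prod]; omega) (by
      rw [hac]
      rwa [show i + a + c = i + (a + c) by omega] at h3)
  rw [hc]
  rwa [hac] at h4

theorem main (hh : IsHeight W ht) (hS : IsStable C S P h) (hI : Unbounded I)
    (hJ : Unbounded J) :
    ((∀ X D, S X D → LefInj W X D) ↔ InjAt W S I) ∧
      ((∀ X D, S X D → LefSurj W X D) ↔ SurjAt W S I) ∧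
      ((∀ X D, S X D → HodgeIndex W ht X D) ↔ PosAt W ht S J) ∧
      ((∀ X D, S X D → ArithLef W X D ∧ HodgeIndex W ht X D) ↔
        SurjAt W S I ∧ PosAt W ht S J) := by
  have e1 : (∀ X D, S X D → LefInj W X D) ↔ InjAt W S I := by
    refine ⟨fun H X D i _ hX hd => ?_, fun H X D hX => lefInj_of_injAt hS hI H hX⟩
    have := H X D hX i (i + 1) (by omega) (by omega)
    rwa [show i + 1 - i = 1 by omega] at this
  have e2 : (∀ X D, S X D → LefSurj W X D) ↔ SurjAt W S I := by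
    refine ⟨fun H X D i _ hX hd => ?_, fun H X D hX => lefSurj_of_surjAt hS hI H hX⟩
    have := H X D hX i (i + 1) (by omega) (by omega)
    rwa [show i + 1 - i = 1 by omega] at this
  have e3 : (∀ X D, S X D → HodgeIndex W ht X D) ↔ PosAt W ht S J := by
    refine ⟨fun H X D i _ hX hd => ?_, fun H X D hX => hodgeIndex_of_posAt hh hS hJ H hX⟩
    have := H X D hX i i le_rfl (by omega)
    rwa [show i - i = 0 by omega] at this
  refine ⟨e1, e2, e3, ?_⟩
  rw [← e2, ← e3]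
  constructor
  · intro H
    exact ⟨fun X D hX => ((arithLef_iff_halves (hS.memS X D hX)).1 (H X D hX).1).2,
      fun X D hX => (H X D hX).2⟩
  · intro H X D hX
    exact ⟨(arithLef_iff_halves (hS.memS X D hX)).2
      ⟨lefInj_of_hodgeIndex hh (H.2 X D hX), H.1 X D hX⟩, H.2 X D hX⟩

end Classes

end Pool.Agent.R898.PD
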