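import Pool.Agent.R898.RGS
import Pool.Agent.R898.PDM

/-!
# Regulators onto semistable Galois cohomology and primitive classes
-/

open CategoryTheory CategoryTheory.Limits AlgebraicGeometry
open Pool.Agent.H914 Pool.Agent.H914.VarClass Pool.Agent.H914.VarClass.Obj
open Pool.Agent.R903 Pool.Agent.R898.HL Pool.Agent.R898.AK

universe u v w

namespace Pool.Agent.R898.RG

variable {k : Type u} [Field k] {𝒱 : VarClass k} {C : ChowTheory.{u, v} 𝒱}
  {W : WeilTheory.{u, v, w} C} {X Y Z : 𝒱.Obj} {L : Type v} [Field L] {r : ℕ}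
  {T : RegTheory W L r}

lemma comp_push_diag' {A B : 𝒱.Obj} (γ : C.CH (A.prod B)) (D : C.CH B) :
    C.comp γ (C.push (Obj.diag B) D) = γ * C.pull (snd A B) D := by
  have h1 : C.pull (snd A (B.prod B)) (C.push (Obj.diag B) D) =
      C.push (lift (fst A B) (snd A B ≫ Obj.diag B)) (C.pull (snd A B) D) := by
    refine C.base_change (T := A) (Obj.diag B) (lift (fst A B) (snd A B ≫ Obj.diag B)) (snd A B)
      (snd A (B.prod B)) (fst A _) ?_ isIso_swap ?_ D
    · simp
    · rw [lift_fst]; exact isIso_swap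
  rw [ChowTheory.comp, h1, ← C.mul_push, ← C.push_comp, ← C.pull_comp]
  have e1 : lift (fst A B) (snd A B ≫ Obj.diag B) ≫ p13 A B B = 𝟙 _ := by
    apply hom_ext_prod <;> simp
  have e2 : lift (fst A B) (snd A B ≫ Obj.diag B) ≫ p12 A B B = 𝟙 _ := by
    apply hom_ext_prod <;> simp
  rw [e1, C.push_id, e2, C.pull_id]

lemma push_diag_comp' {A B : 𝒱.Obj} (γ : C.CH (A.prod B)) (D : C.CH A) :
    C.comp (C.push (Obj.diag A) D) γ = C.pull (fst A B) D * γ := by
  have h1 : C.pull (p12 A A B) (C.push (Obj.diag A) D) =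
      C.push (lift (fst A B) (𝟙 _)) (C.pull (fst A B) D) := by
    refine C.base_change (T := B) (Obj.diag A) (lift (fst A B) (𝟙 _)) (fst A B) (p12 A A B)
      (snd A _ ≫ snd A B) ?_ isIso_assoc ?_ D
    · apply hom_ext_prod <;> simp
    · have : lift (fst A B) (𝟙 (A.prod B)) ≫ snd A (A.prod B) ≫ snd A B = snd A B := by simp
      rw [this]; exact isIso_lift_fst_snd
  rw [ChowTheory.comp, h1, ← C.push_mul, ← C.push_comp, ← C.pull_comp]
  have e1 : lift (fst A B) (𝟙 (A.prod B)) ≫ p13 A A B = 𝟙 _ := by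
    apply hom_ext_prod <;> simp
  rw [e1, C.push_id, lift_snd, C.pull_id]

lemma comp_span_lef {A B P : 𝒱.Obj} (a : P ⟶ A) (b : P ⟶ B) (ω : C.CH P) (y : C.CH B) :
    C.comp (C.span a b ω) (C.lef y) = C.span a b (ω * C.pull b y) := by
  have h := comp_push_diag' (C.span a b ω) y
  change C.comp (C.span a b ω) (C.lef y) = _ at h
  rw [h, ChowTheory.span, ChowTheory.span, ← C.push_mul, ← C.pull_comp, lift_snd]

lemma lef_comp_span {A B P : 𝒱.Obj} (a : P ⟶ A) (b : P ⟶ B) (ω : C.CH P) (x : C.CH A) :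
    C.comp (C.lef x) (C.span a b ω) = C.span a b (C.pull a x * ω) := by
  have h := push_diag_comp' (C.span a b ω) x
  change C.comp (C.lef x) (C.span a b ω) = _ at h
  rw [h, ChowTheory.span, ChowTheory.span, ← C.mul_push, ← C.pull_comp, lift_fst]

lemma lef_comp_lef (x y : C.CH X) : C.comp (C.lef x) (C.lef y) = C.lef (x * y) := by
  rw [lef_eq x, comp_span_lef, C.pull_id, ← lef_eq]

lemma lef_pow_mem {D : C.CH X} (hD : D ∈ C.gr X 1) (a : ℕ) :
    C.lef (D ^ a) ∈ C.gr (X.prod X) (a + X.dim) := by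
  rw [lef_eq]
  exact C.span_mem _ _ (pow_mem hD _) (by omega)

lemma act_act {j i l p q : ℕ} {γ : C.CH (X.prod Y)} {δ : C.CH (Y.prod Z)} (hγ : γ ∈ C.gr _ p)
    (hδ : δ ∈ C.gr _ q) (h1 : j + p = i + X.dim) (h2 : i + q = l + Y.dim) (c : T.J X j) :
    T.act Y Z i l δ (T.act X Y j i γ c) = T.act X Z j l (C.comp γ δ) c :=
  (T.comp X Y Z j i l p q γ δ hγ hδ h1 h2 c).symm

lemma act_ext {j i p : ℕ} {γ δ : C.CH (X.prod Y)} (hγ : γ ∈ C.gr _ p) (hδ : δ ∈ C.gr _ p)
    (hd : j + p = i + X.dim) (h : ∀ v : W.H X, W.act γ v = W.act δ v) (c : T.J X j) :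
    T.act X Y j i γ c = T.act X Y j i δ c := by
  have h0 := T.vanish X Y j i p (γ - δ) (Submodule.sub_mem _ hγ hδ) hd (fun m _ v _ => by
    rw [W.act_sub, LinearMap.sub_apply, h v, sub_self]) c
  have h1 := T.add X Y j i (γ - δ) δ c
  rw [sub_add_cancel, h0, zero_add] at h1
  exact h1

lemma eq_zero_of {j : ℕ} (h : ∀ m, m + r + 1 = 2 * j → W.gr X m = ⊥) (c : T.J X j) : c = 0 := by
  rw [← T.id X j c]
  refine T.vanish X X j j X.dim _ (C.diagC_mem X) rfl (fun m hm v hv => ?_) c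
  rw [h m hm, Submodule.mem_bot] at hv
  rw [hv, map_zero]

/-- push-forward of `γ c` gives a multiple of `c` -/
lemma mem_of_back [CharZero L] {j i p q : ℕ} {γ : C.CH (X.prod Y)} {δ : C.CH (Y.prod X)}
    (hγ : γ ∈ C.gr _ p) (hδ : δ ∈ C.gr _ q) (h1 : j + p = i + X.dim) (h2 : i + q = j + Y.dim)
    {t : ℚ} (ht : t ≠ 0) (h : ∀ v : W.H X, W.act δ (W.act γ v) = (t : W.K) • v) {c : T.J X j}
    (hc : T.act X Y j i γ c ∈ T.im Y i) : c ∈ T.im X j := by
  have h3 := T.stable Y X i j q δ hδ h2 _ hc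
  rw [act_act hγ hδ h1 h2] at h3
  have hm : C.comp γ δ ∈ C.gr (X.prod X) X.dim := C.comp_mem hγ hδ (by omega)
  have h4 := act_ext (T := T) (j := j) (i := j) hm
    (Submodule.smul_mem _ t (C.diagC_mem X)) rfl (fun v => by
      rw [W.act_comp _ hδ, h v, W.act_smul, LinearMap.smul_apply, W.act_diagC]) c
  rw [h4, T.smul X X j j t (C.diagC X) c, T.id X j c] at h3
  have ht' : (t : L) ≠ 0 := by exact_mod_cast ht
  have h5 := (T.im X j).smul_mem (t : L)⁻¹ h3
  rwa [smul_smul, inv_mul_cancel₀ ht', one_smul] at h5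

section Products

variable {D : C.CH X} {E : C.CH Z}

lemma span_pull_mem {ω : C.CH (X.prod Z)} {e : ℕ} (hω : ω ∈ C.gr _ e) :
    C.span (fst X Z) (𝟙 _) ω ∈ C.gr (X.prod (X.prod Z)) (e + X.dim) :=
  C.span_mem _ _ hω (by rw [dim_prod]; omega)

/-- to the middle -/
lemma stepB [CharZero L] (hD : D ∈ C.gr X 1) (hE : E ∈ C.gr Z 1)
    (hδ : C.deg Z (E ^ Z.dim) ≠ 0) {j i l : ℕ} (hi : i = j + Z.dim) (hl : l = j + (Z.dim + 1))
    (hyp : ∀ c' : T.J (X.prod Z) i,
      T.act _ _ i l (C.lef (sumClass C D E ^ 1)) c' = 0 → c' ∈ T.im _ i) (c : T.J X j)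
    (hc : T.act X X j l (C.lef (D ^ (Z.dim + 1))) c = 0) : c ∈ T.im X j := by
  have hom := om_mem hD hE Z.dim
  have hγ := span_pull_mem hom
  have hM : sumClass C D E ∈ C.gr (X.prod Z) 1 := PD.sumClass_mem hD hE
  have e1 : C.pull (snd X Z) (E ^ (Z.dim + 1)) = 0 := by rw [map_pow, PD.pow_big hE (by omega)]
  have hs : (-(-1) ^ (Z.dim + 1) : C.CH (X.prod Z)) ∈ C.gr (X.prod Z) 0 := by
    refine Submodule.neg_mem _ ?_
    rcases neg_one_pow_eq_or (C.CH (X.prod Z)) (Z.dim + 1) with h | h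
    · rw [h]; exact C.one_mem _
    · rw [h]; exact Submodule.neg_mem _ (C.one_mem _)
  have hδ' := span_pull_mem hs
  refine mem_of_back (Y := X.prod Z) (i := i) hγ (C.graph_mem (fst X Z))
    (by omega) (by rw [dim_prod]; omega) hδ (fun v => ?_) (hyp _ ?_)
  · rw [W.act_span, W.push_id, ChowTheory.graph, W.act_span, map_one, one_mul, W.map_id,
      W.push_mul, ← W.cl_push, push_om W hE, Algebra.algebraMap_eq_smul_one, W.cl_smul, map_one,
      smul_mul_assoc, one_mul]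
  · rw [act_act hγ (lef_pow_mem hM 1) (by omega) (by rw [dim_prod]; omega), comp_span_lef, C.pull_id,
      pow_one, mul_comm, om_mul, e1, zero_sub]
    have e2 : -(-C.pull (fst X Z) D) ^ (Z.dim + 1) =
        C.pull (fst X Z) (D ^ (Z.dim + 1)) * (-(-1) ^ (Z.dim + 1)) := by
      rw [map_pow, neg_pow (C.pull (fst X Z) D)]; ring
    rw [e2, ← lef_comp_span, ← act_act (i := l) (lef_pow_mem hD (Z.dim + 1)) hδ'
      (by omega) (by omega), hc, map_zero]

/-- raising the power -/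
lemma stepA [CharZero L] (hD : D ∈ C.gr X 1) (hE : E ∈ C.gr Z 1)
    (hδ : C.deg Z (E ^ Z.dim) ≠ 0) {j a l m : ℕ} (hl : l = j + a) (hm : m = j + (a + Z.dim))
    (hyp : ∀ c' : T.J (X.prod Z) j,
      T.act _ _ j m (C.lef (sumClass C D E ^ (a + Z.dim))) c' = 0 → c' ∈ T.im _ j) (c : T.J X j)
    (hc : T.act X X j l (C.lef (D ^ a)) c = 0) : c ∈ T.im X j := by
  have hγ := span_pull_mem (C.one_mem (X.prod Z))
  have hM : sumClass C D E ∈ C.gr (X.prod Z) 1 := PD.sumClass_mem hD hE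
  obtain ⟨R, hR, hR1, -⟩ := PD.pow_split W hD hE a
  have hback : C.span (𝟙 _) (fst X Z) (C.pull (snd X Z) E ^ Z.dim) ∈
      C.gr ((X.prod Z).prod X) (Z.dim + X.dim) :=
    C.span_mem _ _ (pow_mem (C.pull_mem _ hE) _) (by omega)
  refine mem_of_back (Y := X.prod Z) (i := j) hγ hback
    (by omega) (by rw [dim_prod]; omega) hδ (fun v => ?_) (hyp _ ?_)
  · have h1 := PD.push_mono W hE (1 : C.CH X) Z.dim
    rw [if_pos rfl, map_one, one_mul] at h1
    rw [W.act_span, W.map_id, W.act_span, W.push_id, map_one, one_mul, W.push_mul, ← W.cl_push, h1,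
      W.cl_smul, map_one, smul_mul_assoc, one_mul]
  · rw [act_act hγ (lef_pow_mem hM _) (by omega) (by rw [dim_prod]; omega), comp_span_lef, C.pull_id,
      one_mul, hR1, ← lef_comp_span, ← act_act (i := l) (lef_pow_mem hD a) (span_pull_mem hR)
      (by omega) (by omega), hc, map_zero]

end Products

section Classes

variable {S : ∀ X : 𝒱.Obj, C.CH X → Prop} {P : ℕ → 𝒱.Obj} {h : ∀ a, C.CH (P a)} {I : Set ℕ}
  {D : C.CH X}

lemma IsStable.deg_pos (hS : IsStable C S P h) (a : ℕ) :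
    0 < C.deg (P a) (h a ^ (P a).dim) := by
  rw [hS.dim_eq a]; exact hS.pos a

/-- the kernels of the powers -/
theorem ker_mem [CharZero L] (hS : IsStable C S P h) (hI : Unbounded I) (hP : PrimOnto T S I)
    (hX : S X D) {j a l : ℕ} (hja : 2 * j + a = X.dim + r + 1) (hl : l = j + (a + 1))
    (c : T.J X j) (hc : T.act X X j l (C.lef (D ^ (a + 1))) c = 0) : c ∈ T.im X j := by
  obtain ⟨i', hi', hle⟩ := hI (j + a)
  obtain ⟨b, rfl⟩ : ∃ b, i' = j + a + b := ⟨i' - (j + a), by omega⟩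
  have hb := hS.dim_eq b
  have hab := hS.dim_eq (a + b)
  have h1 := hS.prod X D b hX
  have h2 := hS.prod _ _ (a + b) h1
  have h3 := hP _ _ (j + a + b) hi' h2 (by simp only [dim_prod]; omega)
  refine stepA (E := h b) (hS.memS X D hX) (hS.memh b) (hS.deg_pos b).ne' hl
    (m := j + (a + 1 + b)) (by omega) (fun c' hc' => ?_) c hc
  rw [hb, show a + 1 + b = (P (a + b)).dim + 1 by omega] at hc'
  refine stepB (E := h (a + b)) (hS.memS _ _ h1) (hS.memh (a + b)) (hS.deg_pos (a + b)).ne'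
    (i := j + a + b) (l := j + (a + 1 + b)) (by omega) (by omega) (fun c'' hc'' => ?_) c' ?_
  · have e : j + (a + 1 + b) = j + a + b + 1 := by omega
    rw [e] at hc''
    exact h3 c'' hc''
  · have e : j + (a + 1 + b) = j + ((P (a + b)).dim + 1) := by omega
    rw [e]
    exact hc'

theorem all_onto [CharZero L] (hS : IsStable C S P h) (hI : Unbounded I) (hH : HardLef T S)
    (hP : PrimOnto T S I) (hX : S X D) (j : ℕ) : IsAll (T.im X j) := by
  have hD : D ∈ C.gr X 1 := hS.memS X D hX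
  have HL : ∀ j a l : ℕ, 2 * j + a = X.dim + r + 1 → l = j + a → ∀ y : T.J X l, ∃ x : T.J X j,
      T.act X X j l (C.lef (D ^ a)) x = y := by
    intro j a l hja hl
    subst hl
    exact hH X D j a hX hja
  have low : ∀ j : ℕ, 2 * j ≤ X.dim + r + 1 → IsAll (T.im X j) := by
    intro j
    induction j with
    | zero =>
      intro _ c
      rw [eq_zero_of (fun m hm => absurd hm (by omega)) c]
      exact Submodule.zero_mem _
    | succ j ih =>
      intro hj c
      obtain ⟨a, ha⟩ : ∃ a, 2 * (j + 1) + a = X.dim + r + 1 :=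
        ⟨X.dim + r + 1 - 2 * (j + 1), by omega⟩
      set b := T.act X X (j + 1) (j + 1 + (a + 1)) (C.lef (D ^ (a + 1))) c with hb
      obtain ⟨x, hx⟩ := HL j (a + 2) (j + 1 + (a + 1)) (by omega) (by omega) b
      set d := T.act X X j (j + 1) (C.lef (D ^ 1)) x with hd
      have hdm : d ∈ T.im X (j + 1) :=
        T.stable X X j (j + 1) (1 + X.dim) _ (lef_pow_mem hD 1) (by omega) _ (ih (by omega) x)
      have h1 : T.act X X (j + 1) (j + 1 + (a + 1)) (C.lef (D ^ (a + 1))) d = b := by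
        rw [hd, act_act (lef_pow_mem hD 1) (lef_pow_mem hD (a + 1)) (by omega) (by omega),
          lef_comp_lef, ← pow_add, show 1 + (a + 1) = a + 2 by omega, hx]
      have h2 : c - d ∈ T.im X (j + 1) := by
        refine ker_mem hS hI hP hX (j := j + 1) (a := a) ha rfl (c - d) ?_
        rw [map_sub, h1, ← hb, sub_self]
      have h3 := Submodule.add_mem _ h2 hdm
      rwa [sub_add_cancel] at h3
  by_cases hj : 2 * j ≤ X.dim + r + 1
  · exact low j hj
  intro c
  by_cases hj' : X.dim + r + 1 < j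
  · rw [eq_zero_of (fun m hm => W.gr_eq_bot X m (by omega)) c]
    exact Submodule.zero_mem _
  obtain ⟨x, hx⟩ := HL (X.dim + r + 1 - j) (2 * j - (X.dim + r + 1)) j (by omega) (by omega) c
  rw [← hx]
  exact T.stable X X _ j _ _ (lef_pow_mem hD _) (by omega) _ (low _ (by omega) x)

theorem main [CharZero L] (hS : IsStable C S P h) (hI : Unbounded I) (hH : HardLef T S) :
    AllOnto T S ↔ PrimOnto T S I :=
  ⟨fun H X D j _ hX _ c _ => H X D j hX c, fun H X D j hX => all_onto hS hI hH H hX j⟩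

end Classes

end Pool.Agent.R898.RG
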