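import Pool.Agent.R898.BJS
import Pool.Agent.R898.RGM

/-!
# Abel–Jacobi maps onto Selmer groups, one Lefschetz step and primitive classes
-/

open CategoryTheory CategoryTheory.Limits AlgebraicGeometry
open Pool.Agent.H914 Pool.Agent.H914.VarClass Pool.Agent.H914.VarClass.Obj
open Pool.Agent.R903 Pool.Agent.R898.HL Pool.Agent.R898.AK
open Pool.Agent.R898.RG (comp_span_lef lef_comp_span lef_comp_lef lef_pow_mem)

universe u v w

namespace Pool.Agent.R898.BJ

variable {k : Type u} [Field k] {𝒱 : VarClass k} {C : ChowTheory.{u, v} 𝒱} {X Y Z : 𝒱.Obj}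
  {L : Type v} [Field L] {N E J : CorrMod C L}

/-! ### classes on products -/

section Classes

variable {D : C.CH X} {F : C.CH Z}

lemma push_mono (hF : F ∈ C.gr Z 1) (a : C.CH X) (s : ℕ) :
    C.push (fst X Z) (C.pull (fst X Z) a * C.pull (snd X Z) F ^ s) =
      if s = Z.dim then C.deg Z (F ^ Z.dim) • a else 0 := by
  split_ifs with h
  · rw [C.mul_push, ← map_pow, ZC.push_fst_pull_snd', mul_comm, ← Algebra.smul_def, h]
  · rcases lt_or_gt_of_ne h with h1 | h1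
    · rw [C.mul_push, C.push_eq_zero (fst X Z) (pow_mem (C.pull_mem (snd X Z) hF) s)
        (by rw [dim_prod]; omega), mul_zero]
    · rw [PD.pow_big hF h1, mul_zero, map_zero]

lemma pow_split (hD : D ∈ C.gr X 1) (hF : F ∈ C.gr Z 1) (a : ℕ) :
    ∃ R ∈ C.gr (X.prod Z) Z.dim, sumClass C D F ^ (a + Z.dim) = C.pull (fst X Z) (D ^ a) * R := by
  set x := C.pull (fst X Z) D with hx
  set y := C.pull (snd X Z) F with hy
  have hx1 : x ∈ C.gr (X.prod Z) 1 := C.pull_mem _ hD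
  have hy1 : y ∈ C.gr (X.prod Z) 1 := C.pull_mem _ hF
  refine ⟨∑ m ∈ Finset.range (Z.dim + 1), ((a + Z.dim).choose (a + m) : ℚ) •
    (x ^ m * y ^ (Z.dim - m)), ?_, ?_⟩
  · refine Submodule.sum_mem _ fun m hm => Submodule.smul_mem _ _ ?_
    rw [Finset.mem_range] at hm
    have h := C.mul_mem (pow_mem hx1 m) (pow_mem hy1 (Z.dim - m))
    rwa [show m + (Z.dim - m) = Z.dim by omega] at h
  · change (x + y) ^ (a + Z.dim) = _
    rw [add_pow, show a + Z.dim + 1 = a + (Z.dim + 1) by omega, Finset.sum_range_add,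
      Finset.sum_eq_zero, zero_add, Finset.mul_sum]
    · refine Finset.sum_congr rfl fun m hm => ?_
      rw [Finset.mem_range] at hm
      rw [show a + Z.dim - (a + m) = Z.dim - m by omega, map_pow, ← hx, pow_add,
        Algebra.smul_def, map_natCast]
      ring
    · intro m hm
      rw [Finset.mem_range] at hm
      rw [hy, PD.pow_big hF (by omega), mul_zero, zero_mul]

lemma push_om (hF : F ∈ C.gr Z 1) :
    C.push (fst X Z) (om C D F Z.dim) = C.deg Z (F ^ Z.dim) • (1 : C.CH X) := by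
  rw [om, map_sum, Finset.sum_eq_single 0]
  · have h := push_mono hF (1 : C.CH X) Z.dim
    rw [if_pos rfl, map_one, one_mul] at h
    rw [pow_zero, one_mul, Nat.add_sub_cancel, Nat.sub_zero, h]
  · intro i hi h0
    rw [Finset.mem_range] at hi
    rw [← map_neg, ← map_pow, push_mono hF, if_neg (by omega)]
  · intro h; exact absurd (Finset.mem_range.2 (by omega)) h

lemma push_pow (hF : F ∈ C.gr Z 1) :
    C.push (fst X Z) (C.pull (snd X Z) F ^ Z.dim) = C.deg Z (F ^ Z.dim) • (1 : C.CH X) := by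
  have h := push_mono hF (1 : C.CH X) Z.dim
  rwa [if_pos rfl, map_one, one_mul] at h

lemma exists_const (hF : F ∈ C.gr Z 1) : ∃ c ∈ C.gr (X.prod Z) 0,
    sumClass C D F * om C D F Z.dim = C.pull (fst X Z) (D ^ (Z.dim + 1)) * c := by
  refine ⟨-(-1) ^ (Z.dim + 1), ?_, ?_⟩
  · refine Submodule.neg_mem _ ?_
    rcases neg_one_pow_eq_or (C.CH (X.prod Z)) (Z.dim + 1) with h | h
    · rw [h]; exact C.one_mem _
    · rw [h]; exact Submodule.neg_mem _ (C.one_mem _)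
  · have e1 : C.pull (snd X Z) (F ^ (Z.dim + 1)) = 0 := by
      rw [map_pow, PD.pow_big hF (by omega)]
    rw [om_mul, e1, zero_sub, map_pow, neg_pow (C.pull (fst X Z) D)]
    ring

end Classes

/-! ### the operators -/

lemma lef_mem' {x : C.CH X} {e : ℕ} (hx : x ∈ C.gr X e) : C.lef x ∈ C.gr (X.prod X) (e + X.dim) := by
  rw [lef_eq]
  exact C.span_mem _ _ hx (by omega)

lemma act_act {j i l p q : ℕ} {γ : C.CH (X.prod Y)} {δ : C.CH (Y.prod Z)} (hγ : γ ∈ C.gr _ p)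
    (hδ : δ ∈ C.gr _ q) (h1 : j + p = i + X.dim) (h2 : i + q = l + Y.dim) (c : N.M X j) :
    N.act Y Z i l δ (N.act X Y j i γ c) = N.act X Z j l (C.comp γ δ) c :=
  (N.comp X Y Z j i l p q γ δ hγ hδ h1 h2 c).symm

lemma R1 {x y : C.CH X} {e f j i l : ℕ} (hx : x ∈ C.gr X e) (hy : y ∈ C.gr X f) (hi : i = j + e)
    (hl : l = i + f) (c : N.M X j) :
    N.act X X i l (C.lef y) (N.act X X j i (C.lef x) c) = N.act X X j l (C.lef (x * y)) c := by
  rw [act_act (lef_mem' hx) (lef_mem' hy) (by omega) (by omega), lef_comp_lef]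

lemma graph_mem' (X Z : 𝒱.Obj) :
    C.span (𝟙 _) (fst X Z) 1 ∈ C.gr ((X.prod Z).prod X) X.dim :=
  C.span_mem _ _ (C.one_mem _) (by omega)

lemma cograph_mem' (X Z : 𝒱.Obj) :
    C.span (fst X Z) (𝟙 _) 1 ∈ C.gr (X.prod (X.prod Z)) X.dim :=
  C.span_mem _ _ (C.one_mem _) (by omega)

lemma R2 {x : C.CH X} {e j l : ℕ} (hx : x ∈ C.gr X e) (hl : l = j + e) (c : N.M X j) :
    N.act (X.prod Z) (X.prod Z) j l (C.lef (C.pull (fst X Z) x))
        (N.act X (X.prod Z) j j (C.span (fst X Z) (𝟙 _) 1) c) =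
      N.act X (X.prod Z) l l (C.span (fst X Z) (𝟙 _) 1) (N.act X X j l (C.lef x) c) := by
  rw [act_act (cograph_mem' X Z) (lef_mem' (C.pull_mem _ hx)) rfl (by omega), comp_span_lef,
    act_act (lef_mem' hx) (cograph_mem' X Z) (by omega) rfl, lef_comp_span, C.pull_id, one_mul,
    mul_one]

lemma R3 {x : C.CH X} {e j i l m : ℕ} (hx : x ∈ C.gr X e) (hi : i = j + Z.dim) (hl : l = i + e)
    (hm : m = j + e) (c : N.M (X.prod Z) i) :
    N.act (X.prod Z) X l m (C.span (𝟙 _) (fst X Z) 1)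
        (N.act (X.prod Z) (X.prod Z) i l (C.lef (C.pull (fst X Z) x)) c) =
      N.act X X j m (C.lef x) (N.act (X.prod Z) X i j (C.span (𝟙 _) (fst X Z) 1) c) := by
  rw [act_act (lef_mem' (C.pull_mem _ hx)) (graph_mem' X Z) (by omega) (by rw [dim_prod]; omega),
    lef_comp_span, act_act (graph_mem' X Z) (lef_mem' hx) (by rw [dim_prod]; omega) (by omega),
    comp_span_lef, C.pull_id, one_mul, mul_one]

lemma R4 {y : C.CH (X.prod Z)} {t : ℚ} {j l : ℕ} (hy : y ∈ C.gr _ Z.dim)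
    (ht : C.push (fst X Z) y = t • (1 : C.CH X)) (hl : l = j + Z.dim) (c : N.M X j) :
    N.act (X.prod Z) X l j (C.span (𝟙 _) (fst X Z) 1)
        (N.act (X.prod Z) (X.prod Z) j l (C.lef y)
          (N.act X (X.prod Z) j j (C.span (fst X Z) (𝟙 _) 1) c)) = (t : L) • c := by
  have hs : C.span (𝟙 _) (fst X Z) y ∈ C.gr ((X.prod Z).prod X) (Z.dim + X.dim) :=
    C.span_mem _ _ hy (by omega)
  rw [act_act (lef_mem' hy) (graph_mem' X Z) (by omega) (by rw [dim_prod]; omega), lef_comp_span,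
    C.pull_id, mul_one, act_act (cograph_mem' X Z) hs rfl (by rw [dim_prod]; omega)]
  have e : C.comp (C.span (fst X Z) (𝟙 _) 1) (C.span (𝟙 _) (fst X Z) y) = t • C.diagC X := by
    have h1 := ChowTheory.cograph_comp (C := C) (fst X Z) (C.span (𝟙 _) (fst X Z) y)
    change C.comp (C.span (fst X Z) (𝟙 _) 1) _ = _ at h1
    rw [h1, ChowTheory.span, ← C.push_comp]
    have : lift (𝟙 (X.prod Z)) (fst X Z) ≫ prodMap (fst X Z) (𝟙 X) = fst X Z ≫ Obj.diag X := by
      apply hom_ext_prod <;> simp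
    rw [this, C.push_comp, ht, map_smul, ChowTheory.diagC]
  rw [e, N.smul X X j j t (C.diagC X) c, N.id X j c]

section Steps

variable {D : C.CH X} {F : C.CH Z} {φ : ∀ X j, E.M X j →ₗ[L] J.M X j}

lemma nat_zero (hφ : Natural E J φ) {j i p : ℕ} {γ : C.CH (X.prod Y)} (hγ : γ ∈ C.gr _ p)
    (h : j + p = i + X.dim) {c : E.M X j} (hc : φ X j c = 0) : φ Y i (E.act X Y j i γ c) = 0 := by
  rw [hφ X Y j i p γ hγ h c, hc, map_zero]

lemma smul_zero' [CharZero L] {t : ℚ} (ht : t ≠ 0) {M : Type v} [AddCommGroup M] [Module L M]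
    {c : M} (h : (t : L) • c = 0) : c = 0 :=
  (smul_eq_zero.1 h).resolve_left (by exact_mod_cast ht)

lemma exists_of_smul [CharZero L] {t : ℚ} (ht : t ≠ 0) {M : Type v} [AddCommGroup M] [Module L M]
    {N : Type v} [AddCommGroup N] [Module L N] (f : M →ₗ[L] N) {c : M} {y : N}
    (h : f c = (t : L) • y) : ∃ c, f c = y :=
  ⟨(t : L)⁻¹ • c, by
    have ht' : (t : L) ≠ 0 := by exact_mod_cast ht
    rw [map_smul, h, smul_smul, inv_mul_cancel₀ ht', one_smul]⟩

lemma kerB [CharZero L] (hφ : Natural E J φ) (hD : D ∈ C.gr X 1) (hF : F ∈ C.gr Z 1)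
    (hδ : C.deg Z (F ^ Z.dim) ≠ 0) {j i l : ℕ} (hi : i = j + Z.dim) (hl : l = j + (Z.dim + 1))
    (hyp : ∀ t : E.M (X.prod Z) i, E.act _ _ i l (C.lef (sumClass C D F)) t = 0 →
      φ _ i t = 0 → t = 0) (c : E.M X j)
    (hc : E.act X X j l (C.lef (D ^ (Z.dim + 1))) c = 0) (h0 : φ X j c = 0) : c = 0 := by
  have hM : sumClass C D F ∈ C.gr (X.prod Z) 1 := PD.sumClass_mem hD hF
  have hom := om_mem hD hF Z.dim
  obtain ⟨s, hs, hs'⟩ := exists_const (D := D) (X := X) hF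
  have h1 : E.act _ _ j i (C.lef (om C D F Z.dim))
      (E.act X (X.prod Z) j j (C.span (fst X Z) (𝟙 _) 1) c) = 0 := by
    refine hyp _ ?_ (nat_zero hφ (lef_mem' hom) (by omega)
      (nat_zero hφ (cograph_mem' X Z) rfl h0))
    rw [R1 hom hM (by omega) (by omega), mul_comm, hs', ← R1 (i := l)
      (C.pull_mem _ (pow_mem hD (Z.dim + 1))) hs (by omega) (by omega),
      R2 (pow_mem hD (Z.dim + 1)) (by omega), hc, map_zero, map_zero]
  have h2 := R4 (N := E) hom (push_om (D := D) hF) hi c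
  rw [h1, map_zero] at h2
  exact smul_zero' hδ h2.symm

lemma kerA [CharZero L] (hφ : Natural E J φ) (hD : D ∈ C.gr X 1) (hF : F ∈ C.gr Z 1)
    (hδ : C.deg Z (F ^ Z.dim) ≠ 0) {j a l m : ℕ} (hl : l = j + a) (hm : m = j + (a + Z.dim))
    (hyp : ∀ t : E.M (X.prod Z) j, E.act _ _ j m (C.lef (sumClass C D F ^ (a + Z.dim))) t = 0 →
      φ _ j t = 0 → t = 0) (c : E.M X j)
    (hc : E.act X X j l (C.lef (D ^ a)) c = 0) (h0 : φ X j c = 0) : c = 0 := by
  obtain ⟨R, hR, hR1⟩ := pow_split hD hF a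
  have h1 : E.act X (X.prod Z) j j (C.span (fst X Z) (𝟙 _) 1) c = 0 := by
    refine hyp _ ?_ (nat_zero hφ (cograph_mem' X Z) rfl h0)
    rw [hR1, ← R1 (i := l) (C.pull_mem _ (pow_mem hD a)) hR (by omega) (by omega),
      R2 (pow_mem hD a) (by omega), hc, map_zero, map_zero]
  have h2 := R4 (N := E) (pow_mem (C.pull_mem _ hF) Z.dim) (push_pow (X := X) hF)
    (l := j + Z.dim) rfl c
  rw [h1, map_zero, map_zero] at h2
  exact smul_zero' hδ h2.symm

lemma surjA [CharZero L] (hD : D ∈ C.gr X 1) (hF : F ∈ C.gr Z 1)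
    (hδ : C.deg Z (F ^ Z.dim) ≠ 0) {j a l m : ℕ} (hl : l = j + a) (hm : m = j + (a + Z.dim))
    (hyp : ∀ s : E.M (X.prod Z) m, ∃ t : E.M (X.prod Z) j,
      E.act _ _ j m (C.lef (sumClass C D F ^ (a + Z.dim))) t = s) (y : E.M X l) :
    ∃ c : E.M X j, E.act X X j l (C.lef (D ^ a)) c = y := by
  obtain ⟨R, hR, hR1⟩ := pow_split hD hF a
  obtain ⟨t, ht⟩ := hyp (E.act _ _ l m (C.lef (C.pull (snd X Z) F ^ Z.dim))
    (E.act X (X.prod Z) l l (C.span (fst X Z) (𝟙 _) 1) y))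
  have h2 := R4 (N := E) (pow_mem (C.pull_mem _ hF) Z.dim) (push_pow (X := X) hF)
    (j := l) (l := m) (by omega) y
  rw [← ht, hR1, mul_comm, ← R1 (i := j + Z.dim) hR (C.pull_mem _ (pow_mem hD a)) rfl (by omega),
    R3 (pow_mem hD a) rfl (by omega) hl] at h2
  exact exists_of_smul hδ _ h2

lemma surjB [CharZero L] (hD : D ∈ C.gr X 1) (hF : F ∈ C.gr Z 1)
    (hδ : C.deg Z (F ^ Z.dim) ≠ 0) {j i l : ℕ} (hi : i = j + Z.dim) (hl : l = j + (Z.dim + 1))
    (hyp : ∀ s : E.M (X.prod Z) l, ∃ t : E.M (X.prod Z) i,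
      E.act _ _ i l (C.lef (sumClass C D F)) t = s) (y : E.M X l) :
    ∃ c : E.M X j, E.act X X j l (C.lef (D ^ (Z.dim + 1))) c = y := by
  have hM : sumClass C D F ∈ C.gr (X.prod Z) 1 := PD.sumClass_mem hD hF
  have hom := om_mem hD hF Z.dim
  obtain ⟨s, hs, hs'⟩ := exists_const (D := D) (X := X) hF
  obtain ⟨t, ht⟩ := hyp (E.act X (X.prod Z) l l (C.span (fst X Z) (𝟙 _) 1) y)
  have h2 := R4 (N := E) hom (push_om (D := D) hF) (j := l) (l := l + Z.dim) rfl y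
  rw [← ht, R1 hM hom (by omega) rfl, hs', mul_comm, ← R1 (i := i) hs
    (C.pull_mem _ (pow_mem hD (Z.dim + 1))) (by omega) (by omega),
    R3 (pow_mem hD (Z.dim + 1)) hi (by omega) hl] at h2
  exact exists_of_smul hδ _ h2

/-- the image of `φ`, to the middle -/
lemma imB [CharZero L] (hφ : Natural E J φ) (hD : D ∈ C.gr X 1) (hF : F ∈ C.gr Z 1)
    (hδ : C.deg Z (F ^ Z.dim) ≠ 0) {j i l : ℕ} (hi : i = j + Z.dim) (hl : l = j + (Z.dim + 1))
    (hyp : ∀ t : J.M (X.prod Z) i, J.act _ _ i l (C.lef (sumClass C D F)) t = 0 →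
      ∃ x, φ _ i x = t) (c : J.M X j)
    (hc : J.act X X j l (C.lef (D ^ (Z.dim + 1))) c = 0) : ∃ x, φ X j x = c := by
  have hM : sumClass C D F ∈ C.gr (X.prod Z) 1 := PD.sumClass_mem hD hF
  have hom := om_mem hD hF Z.dim
  obtain ⟨s, hs, hs'⟩ := exists_const (D := D) (X := X) hF
  obtain ⟨x, hx⟩ := hyp (J.act _ _ j i (C.lef (om C D F Z.dim))
      (J.act X (X.prod Z) j j (C.span (fst X Z) (𝟙 _) 1) c)) (by
    rw [R1 hom hM (by omega) (by omega), mul_comm, hs', ← R1 (i := l)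
      (C.pull_mem _ (pow_mem hD (Z.dim + 1))) hs (by omega) (by omega),
      R2 (pow_mem hD (Z.dim + 1)) (by omega), hc, map_zero, map_zero])
  have h2 := R4 (N := J) hom (push_om (D := D) hF) hi c
  have hδ' : ((C.deg Z (F ^ Z.dim) : ℚ) : L) ≠ 0 := by exact_mod_cast hδ
  refine ⟨((C.deg Z (F ^ Z.dim) : ℚ) : L)⁻¹ •
    E.act (X.prod Z) X i j (C.span (𝟙 _) (fst X Z) 1) x, ?_⟩
  rw [map_smul, hφ _ _ i j X.dim _ (graph_mem' X Z) (by rw [dim_prod]; omega) x, hx, h2, smul_smul,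
    inv_mul_cancel₀ hδ', one_smul]

/-- the image of `φ`, raising the power -/
lemma imA [CharZero L] (hφ : Natural E J φ) (hD : D ∈ C.gr X 1) (hF : F ∈ C.gr Z 1)
    (hδ : C.deg Z (F ^ Z.dim) ≠ 0) {j a l m : ℕ} (hl : l = j + a) (hm : m = j + (a + Z.dim))
    (hyp : ∀ t : J.M (X.prod Z) j, J.act _ _ j m (C.lef (sumClass C D F ^ (a + Z.dim))) t = 0 →
      ∃ x, φ _ j x = t) (c : J.M X j)
    (hc : J.act X X j l (C.lef (D ^ a)) c = 0) : ∃ x, φ X j x = c := by
  obtain ⟨R, hR, hR1⟩ := pow_split hD hF a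
  obtain ⟨x, hx⟩ := hyp (J.act X (X.prod Z) j j (C.span (fst X Z) (𝟙 _) 1) c) (by
    rw [hR1, ← R1 (i := l) (C.pull_mem _ (pow_mem hD a)) hR (by omega) (by omega),
      R2 (pow_mem hD a) (by omega), hc, map_zero, map_zero])
  have hy := pow_mem (C.pull_mem (snd X Z) hF) Z.dim
  have h2 := R4 (N := J) hy (push_pow (X := X) hF) (l := j + Z.dim) rfl c
  have hδ' : ((C.deg Z (F ^ Z.dim) : ℚ) : L) ≠ 0 := by exact_mod_cast hδ
  refine ⟨((C.deg Z (F ^ Z.dim) : ℚ) : L)⁻¹ •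
    E.act (X.prod Z) X (j + Z.dim) j (C.span (𝟙 _) (fst X Z) 1)
      (E.act _ _ j (j + Z.dim) (C.lef (C.pull (snd X Z) F ^ Z.dim)) x), ?_⟩
  rw [map_smul, hφ _ _ _ j X.dim _ (graph_mem' X Z) (by rw [dim_prod]; omega),
    hφ _ _ j _ _ _ (lef_mem' hy) (by omega) x, hx, h2, smul_smul, inv_mul_cancel₀ hδ', one_smul]

end Steps

section Main

variable {S : ∀ X : 𝒱.Obj, C.CH X → Prop} {P : ℕ → 𝒱.Obj} {h : ∀ a, C.CH (P a)} {I I' : Set ℕ}
  {D : C.CH X} {φ : ∀ X j, E.M X j →ₗ[L] J.M X j}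

lemma IsStable.deg_ne (hS : IsStable C S P h) (a : ℕ) :
    C.deg (P a) (h a ^ (P a).dim) ≠ 0 := by
  rw [hS.dim_eq a]; exact (hS.pos a).ne'

theorem ker_pow [CharZero L] (hS : IsStable C S P h) (hI : Unbounded I) (hφ : Natural E J φ)
    (hP : PrimBij E J φ S I) (hX : S X D) {j a l : ℕ} (hja : 2 * j + a = X.dim + 1)
    (hl : l = j + (a + 1)) (c : E.M X j) (hc : E.act X X j l (C.lef (D ^ (a + 1))) c = 0)
    (h0 : φ X j c = 0) : c = 0 := by
  obtain ⟨i', hi', hle⟩ := hI (j + a)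
  obtain ⟨b, rfl⟩ : ∃ b, i' = j + a + b := ⟨i' - (j + a), by omega⟩
  have hb := hS.dim_eq b
  have hab := hS.dim_eq (a + b)
  have h1 := hS.prod X D b hX
  have h2 := hS.prod _ _ (a + b) h1
  have h3 := hP _ _ (j + a + b) hi' h2 (by simp only [dim_prod]; omega)
  refine kerA (F := h b) hφ (hS.memS X D hX) (hS.memh b) (hS.deg_ne b) hl
    (m := j + (a + 1 + b)) (by omega) (fun t ht ht0 => ?_) c hc h0
  rw [hb, show a + 1 + b = (P (a + b)).dim + 1 by omega] at ht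
  refine kerB (F := h (a + b)) hφ (hS.memS _ _ h1) (hS.memh (a + b)) (hS.deg_ne (a + b))
    (i := j + a + b) (l := j + (a + 1 + b)) (by omega) (by omega) (fun t' ht' ht0' => ?_) t ?_ ht0
  · have e : j + (a + 1 + b) = j + a + b + 1 := by omega
    rw [e] at ht'
    refine h3.1 t' ?_ ht0'
    change E.act _ _ _ _ (C.lef (_ ^ 1)) t' = 0
    rw [pow_one]
    exact ht'
  · have e : j + (a + 1 + b) = j + ((P (a + b)).dim + 1) := by omega
    rw [e]
    exact ht

theorem im_pow [CharZero L] (hS : IsStable C S P h) (hI : Unbounded I) (hφ : Natural E J φ)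
    (hP : PrimBij E J φ S I) (hX : S X D) {j a l : ℕ} (hja : 2 * j + a = X.dim + 1)
    (hl : l = j + (a + 1)) (c : J.M X j) (hc : J.act X X j l (C.lef (D ^ (a + 1))) c = 0) :
    ∃ x, φ X j x = c := by
  obtain ⟨i', hi', hle⟩ := hI (j + a)
  obtain ⟨b, rfl⟩ : ∃ b, i' = j + a + b := ⟨i' - (j + a), by omega⟩
  have hb := hS.dim_eq b
  have hab := hS.dim_eq (a + b)
  have h1 := hS.prod X D b hX
  have h2 := hS.prod _ _ (a + b) h1
  have h3 := hP _ _ (j + a + b) hi' h2 (by simp only [dim_prod]; omega)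
  refine imA (F := h b) hφ (hS.memS X D hX) (hS.memh b) (hS.deg_ne b) hl
    (m := j + (a + 1 + b)) (by omega) (fun t ht => ?_) c hc
  rw [hb, show a + 1 + b = (P (a + b)).dim + 1 by omega] at ht
  refine imB (F := h (a + b)) hφ (hS.memS _ _ h1) (hS.memh (a + b)) (hS.deg_ne (a + b))
    (i := j + a + b) (l := j + (a + 1 + b)) (by omega) (by omega) (fun t' ht' => ?_) t ?_
  · have e : j + (a + 1 + b) = j + a + b + 1 := by omega
    rw [e] at ht'
    refine h3.2 t' ?_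
    change J.act _ _ _ _ (C.lef (_ ^ 1)) t' = 0
    rw [pow_one]
    exact ht'
  · have e : j + (a + 1 + b) = j + ((P (a + b)).dim + 1) := by omega
    rw [e]
    exact ht

theorem lef_onto [CharZero L] (hS : IsStable C S P h) (hI : Unbounded I)
    (hE : StepOnto E S I) (hX : S X D) {j a l : ℕ} (hja : 2 * j + a = X.dim + 1)
    (hl : l = j + a) (y : E.M X l) : ∃ c : E.M X j, E.act X X j l (C.lef (D ^ a)) c = y := by
  rcases Nat.eq_zero_or_pos a with h0 | h0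
  · subst h0
    rw [add_zero] at hl
    subst hl
    refine ⟨y, ?_⟩
    rw [pow_zero]
    exact E.id X l y
  obtain ⟨a, rfl⟩ : ∃ a', a = a' + 1 := ⟨a - 1, by omega⟩
  obtain ⟨i', hi', hle⟩ := hI (j + a)
  obtain ⟨b, rfl⟩ : ∃ b, i' = j + a + b := ⟨i' - (j + a), by omega⟩
  have hb := hS.dim_eq b
  have hab := hS.dim_eq (a + b)
  have h1 := hS.prod X D b hX
  have h2 := hS.prod _ _ (a + b) h1
  have h3 := hE _ _ (j + a + b) hi' h2 (by simp only [dim_prod]; omega)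
  obtain ⟨m, hm⟩ : ∃ m, m = j + (a + 1 + b) := ⟨_, rfl⟩
  refine surjA (F := h b) (hS.memS X D hX) (hS.memh b) (hS.deg_ne b) hl
    (m := m) (by omega) (fun s => ?_) y
  have h4 := surjB (F := h (a + b)) (hS.memS _ _ h1) (hS.memh (a + b)) (hS.deg_ne (a + b))
    (i := j + a + b) (l := m) (j := j) (by omega) (by omega) (fun s' => by
      have e : m = j + a + b + 1 := by omega
      subst e
      obtain ⟨t, ht⟩ := h3 s'
      refine ⟨t, ?_⟩
      change E.act _ _ _ _ (C.lef (_ ^ 1)) t = s' at ht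
      rwa [pow_one] at ht) s
  rwa [hb, show a + 1 + b = (P (a + b)).dim + 1 by omega]

theorem bij_of [CharZero L] (hS : IsStable C S P h) (hI : Unbounded I) (hI' : Unbounded I')
    (hφ : Natural E J φ) (hH : HardLef J S) (hE : StepOnto E S I) (hP : PrimBij E J φ S I')
    (hX : S X D) (j : ℕ) : Bij (φ X j) := by
  have hD : D ∈ C.gr X 1 := hS.memS X D hX
  have HLs : ∀ j a l : ℕ, 2 * j + a = X.dim + 1 → l = j + a → ∀ y : J.M X l, ∃ x : J.M X j,
      J.act X X j l (C.lef (D ^ a)) x = y := fun j a l hja hl => (hH X D a j l hX hl hja).2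
  have HLi : ∀ j a l : ℕ, 2 * j + a = X.dim + 1 → l = j + a → ∀ x : J.M X j,
      J.act X X j l (C.lef (D ^ a)) x = 0 → x = 0 := fun j a l hja hl => (hH X D a j l hX hl hja).1
  have nat : ∀ (j a l : ℕ), l = j + a → ∀ x : E.M X j,
      φ X l (E.act X X j l (C.lef (D ^ a)) x) = J.act X X j l (C.lef (D ^ a)) (φ X j x) :=
    fun j a l hl x => hφ X X j l _ _ (lef_mem' (pow_mem hD a)) (by omega) x
  have lowS : ∀ j : ℕ, 2 * j ≤ X.dim + 1 → Onto (φ X j) := by
    intro j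
    induction j with
    | zero =>
      intro _ c
      exact ⟨0, by rw [map_zero, J.zero X 0 (Or.inl rfl) c]⟩
    | succ j ih =>
      intro hj c
      obtain ⟨a, ha⟩ : ∃ a, 2 * (j + 1) + a = X.dim + 1 := ⟨X.dim + 1 - 2 * (j + 1), by omega⟩
      set b := J.act X X (j + 1) (j + 1 + (a + 1)) (C.lef (D ^ (a + 1))) c with hb
      obtain ⟨x, hx⟩ := HLs j (a + 2) (j + 1 + (a + 1)) (by omega) (by omega) b
      obtain ⟨x', hx'⟩ := ih (by omega) x
      have h1 : J.act X X (j + 1) (j + 1 + (a + 1)) (C.lef (D ^ (a + 1)))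
          (J.act X X j (j + 1) (C.lef (D ^ 1)) x) = b := by
        rw [R1 (pow_mem hD 1) (pow_mem hD (a + 1)) rfl rfl, ← pow_add,
          show 1 + (a + 1) = a + 2 by omega, hx]
      obtain ⟨z, hz⟩ := im_pow hS hI' hφ hP hX (j := j + 1) (a := a) ha rfl
        (c - J.act X X j (j + 1) (C.lef (D ^ 1)) x) (by rw [map_sub, h1, ← hb, sub_self])
      refine ⟨z + E.act X X j (j + 1) (C.lef (D ^ 1)) x', ?_⟩
      rw [map_add, hz, nat j 1 (j + 1) rfl, hx', sub_add_cancel]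
  have lowI : ∀ j : ℕ, 2 * j ≤ X.dim + 1 → ∀ c, φ X j c = 0 → c = 0 := by
    intro j
    induction j with
    | zero => intro _ c _; exact E.zero X 0 (Or.inl rfl) c
    | succ j ih =>
      intro hj c hc
      obtain ⟨a, ha⟩ : ∃ a, 2 * (j + 1) + a = X.dim + 1 := ⟨X.dim + 1 - 2 * (j + 1), by omega⟩
      refine ker_pow hS hI' hφ hP hX (j := j + 1) (a := a) ha rfl c ?_ hc
      obtain ⟨y, hy⟩ := lef_onto hS hI hE hX (j := j) (a := a + 2) (l := j + 1 + (a + 1))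
        (by omega) (by omega) (E.act X X (j + 1) (j + 1 + (a + 1)) (C.lef (D ^ (a + 1))) c)
      have h2 : φ X j y = 0 := by
        refine HLi j (a + 2) (j + 1 + (a + 1)) (by omega) (by omega) _ ?_
        rw [← nat j (a + 2) _ (by omega), hy, nat (j + 1) (a + 1) _ rfl, hc, map_zero]
      rw [← hy, ih (by omega) y h2, map_zero]
  by_cases hj : 2 * j ≤ X.dim + 1
  · exact ⟨lowI j hj, lowS j hj⟩
  by_cases hj' : X.dim < j
  · exact ⟨fun c _ => E.zero X j (Or.inr hj') c, fun c =>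
      ⟨0, by rw [map_zero, J.zero X j (Or.inr hj') c]⟩⟩
  have e1 : 2 * (X.dim + 1 - j) + (2 * j - (X.dim + 1)) = X.dim + 1 := by omega
  have e2 : j = (X.dim + 1 - j) + (2 * j - (X.dim + 1)) := by omega
  constructor
  · intro c hc
    obtain ⟨y, hy⟩ := lef_onto hS hI hE hX e1 e2 c
    have h2 : φ X (X.dim + 1 - j) y = 0 := by
      refine HLi _ _ j e1 e2 _ ?_
      rw [← nat _ _ j e2, hy, hc]
    rw [← hy, lowI _ (by omega) y h2, map_zero]
  · intro c
    obtain ⟨x, hx⟩ := HLs _ _ j e1 e2 c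
    obtain ⟨x', hx'⟩ := lowS _ (by omega) x
    exact ⟨E.act X X _ j (C.lef (D ^ (2 * j - (X.dim + 1)))) x', by
      rw [nat _ _ j e2, hx', hx]⟩

theorem main [CharZero L] (hS : IsStable C S P h) (hI : Unbounded I) (hI' : Unbounded I')
    (hφ : Natural E J φ) (hH : HardLef J S) :
    (∀ X D, S X D → ∀ j, Bij (φ X j)) ↔ StepOnto E S I ∧ PrimBij E J φ S I' := by
  constructor
  · intro H
    refine ⟨fun X D j _ hX hd y => ?_, fun X D j _ hX _ =>
      ⟨fun x _ hx => (H X D hX j).1 x hx, fun y _ => (H X D hX j).2 y⟩⟩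
    obtain ⟨c, hc⟩ := (hH X D 1 j (j + 1) hX rfl (by omega)).2 (φ X (j + 1) y)
    obtain ⟨x, hx⟩ := (H X D hX j).2 c
    refine ⟨x, ?_⟩
    have h1 : φ X (j + 1) (opD E X D 1 j (j + 1) x) = opD J X D 1 j (j + 1) (φ X j x) :=
      hφ X X j (j + 1) _ _ (lef_mem' (pow_mem (hS.memS X D hX) 1)) (by omega) x
    have h2 : φ X (j + 1) (opD E X D 1 j (j + 1) x - y) = 0 := by
      rw [map_sub, h1, hx, hc, sub_self]
    exact sub_eq_zero.1 ((H X D hX (j + 1)).1 _ h2)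
  · rintro ⟨h1, h2⟩ X D hX j
    exact bij_of hS hI hI' hφ hH h1 h2 hX j

end Main

end Pool.Agent.R898.BJ
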