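import Pool.Agent.R898.HLS

/-!
# Abel–Jacobi maps onto Selmer groups, one Lefschetz step and primitive classes: the definitions used
# in the statement
-/

open CategoryTheory CategoryTheory.Limits AlgebraicGeometry
open Pool.Agent.H914 Pool.Agent.H914.VarClass Pool.Agent.H914.VarClass.Obj
open Pool.Agent.R903 Pool.Agent.R898.HL

universe u v w

namespace Pool.Agent.R898.BJ

section Alg

variable {L : Type v} [Field L] {M : Type v} [AddCommGroup M] [Module L M] {N : Type v}
  [AddCommGroup N] [Module L N] {Q : Type v} [AddCommGroup Q] [Module L Q] {R : Type v}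
  [AddCommGroup R] [Module L R]

/-- `f = q g`. -/
def IsMult (q : ℚ) (f g : M →ₗ[L] N) : Prop := ∀ x, f x = (q : L) • g x

/-- `f` is the composition, first `g`, then `h`. -/
def IsComp (f : M →ₗ[L] Q) (g : M →ₗ[L] N) (h : N →ₗ[L] Q) : Prop := ∀ x, f x = h (g x)

/-- `f` is the identity. -/
def IsId (f : M →ₗ[L] M) : Prop := ∀ x, f x = x

/-- `ψ (f x) = g (φ x)`. -/
def Commutes (φ : M →ₗ[L] N) (ψ : Q →ₗ[L] R) (f : M →ₗ[L] Q) (g : N →ₗ[L] R) : Prop :=
  ∀ x, ψ (f x) = g (φ x)

/-- `f` is surjective. -/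
def Onto (f : M →ₗ[L] N) : Prop := ∀ y, ∃ x, f x = y

/-- `f` is bijective. -/
def Bij (f : M →ₗ[L] N) : Prop := (∀ x, f x = 0 → x = 0) ∧ Onto f

/-- `φ` is injective on the kernel of `f`, and its image contains the kernel of `g`. -/
def BijOnKer (φ : M →ₗ[L] N) (f : M →ₗ[L] Q) (g : N →ₗ[L] R) : Prop :=
  (∀ x, f x = 0 → φ x = 0 → x = 0) ∧ ∀ y, g y = 0 → ∃ x, φ x = y

end Alg

variable {k : Type u} [Field k] {𝒱 : VarClass k}

/-- `L`-vector spaces `M X j`, which are zero for `j = 0` and for `j > dim X`, on which the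
correspondences act functorially: a correspondence of codimension `p` from `X` to `Y` induces a map
`M X j → M Y (j + p - dim X)`. Examples: `M X j = CH^j(X)_hom ⊗ L`; for a number field `k` and the field
`L` of `p`-adic numbers, `M X j = H^1_f(k, H^(2j-1)(X̄, Q_p(j)))`. -/
structure CorrMod (C : ChowTheory.{u, v} 𝒱) (L : Type v) [Field L] where
  M : 𝒱.Obj → ℕ → Type v
  [grp : ∀ X j, AddCommGroup (M X j)]
  [mod : ∀ X j, Module L (M X j)]
  /-- the action of the correspondences -/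
  act : ∀ (X Y : 𝒱.Obj) (j i : ℕ), C.CH (X.prod Y) → (M X j →ₗ[L] M Y i)
  smul : ∀ X Y j i (q : ℚ) γ, IsMult q (act X Y j i (q • γ)) (act X Y j i γ)
  id : ∀ X j, IsId (act X X j j (C.diagC X))
  comp : ∀ X Y Z j i l p q γ δ, Codim C p γ → Codim C q δ → j + p = i + X.dim →
    i + q = l + Y.dim → IsComp (act X Z j l (cp C γ δ)) (act X Y j i γ) (act Y Z i l δ)
  zero : ∀ X j, j = 0 ∨ X.dim < j → ∀ x : M X j, x = 0

attribute [instance] CorrMod.grp CorrMod.mod

variable {C : ChowTheory.{u, v} 𝒱}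

/-- The set `I` has arbitrarily large elements. -/
def Unbounded (I : Set ℕ) : Prop := ∀ n, ∃ i ∈ I, n ≤ i

/-- `0 < d(x ^ r)`. -/
def PosDeg {A : Type v} [CommRing A] [Algebra ℚ A] (d : A →ₗ[ℚ] ℚ) (x : A) (r : ℕ) : Prop :=
  0 < d (x ^ r)

/-- `P a` is a variety of dimension `a` with a divisor class `h a` with `deg (h a)^a > 0` (for
example the projective space and the class of a hyperplane), and the class `S` of pairs `(X, D)` of a
variety and a divisor class is closed under the products with the `(P a, h a)`. -/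
structure IsStable (C : ChowTheory.{u, v} 𝒱) (S : ∀ X : 𝒱.Obj, C.CH X → Prop) (P : ℕ → 𝒱.Obj)
    (h : ∀ a, C.CH (P a)) : Prop where
  memS : ∀ X D, S X D → Codim C 1 D
  dim_eq : ∀ a, (P a).dim = a
  memh : ∀ a, Codim C 1 (h a)
  pos : ∀ a, PosDeg (C.deg (P a)) (h a) a
  prod : ∀ X D a, S X D → S (X.prod (P a)) (sumClass C D (h a))

variable {L : Type v} [Field L]

/-- The operator `D^a : M X j → M X i`, where `i = j + a`. -/
noncomputable def opD (T : CorrMod C L) (X : 𝒱.Obj) (D : C.CH X) (a j i : ℕ) :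
    T.M X j →ₗ[L] T.M X i :=
  T.act X X j i (C.push (diag X) (D ^ a))

/-- The maps `φ` commute with the actions of the correspondences. -/
def Natural (E J : CorrMod C L) (φ : ∀ X j, E.M X j →ₗ[L] J.M X j) : Prop :=
  ∀ X Y j i p γ, Codim C p γ → j + p = i + X.dim →
    Commutes (φ X j) (φ Y i) (E.act X Y j i γ) (J.act X Y j i γ)

/-- The hard Lefschetz theorem for `J`: the map `D^a : J X j → J X (j + a)` is bijective if
`(2j - 1) + a = dim X`, for the pairs `(X, D)` in `S`. -/
def HardLef (J : CorrMod C L) (S : ∀ X : 𝒱.Obj, C.CH X → Prop) : Prop :=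
  ∀ X D a j i, S X D → i = j + a → 2 * j + a = X.dim + 1 → Bij (opD J X D a j i)

/-- For the pairs `(X, D)` in `S` with `dim X = 2j`, `j ∈ I`, the map `D : E X j → E X (j + 1)` is
surjective. -/
def StepOnto (E : CorrMod C L) (S : ∀ X : 𝒱.Obj, C.CH X → Prop) (I : Set ℕ) : Prop :=
  ∀ X D, ∀ j ∈ I, S X D → X.dim = 2 * j → Onto (opD E X D 1 j (j + 1))

/-- For the pairs `(X, D)` in `S` with `dim X = 2j - 1`, `j ∈ I`, the map `φ X j` is injective on the
kernel of `D : E X j → E X (j + 1)`, and its image contains the kernel of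
`D : J X j → J X (j + 1)`. -/
def PrimBij (E J : CorrMod C L) (φ : ∀ X j, E.M X j →ₗ[L] J.M X j)
    (S : ∀ X : 𝒱.Obj, C.CH X → Prop) (I : Set ℕ) : Prop :=
  ∀ X D, ∀ j ∈ I, S X D → X.dim + 1 = 2 * j →
    BijOnKer (φ X j) (opD E X D 1 j (j + 1)) (opD J X D 1 j (j + 1))

end Pool.Agent.R898.BJ
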