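import Pool.Agent.R903.Corr

/-!
# Bloch–Beilinson filtrations with `F^2` the kernel of the Abel–Jacobi map: the definitions used in
# the statements
-/

open CategoryTheory CategoryTheory.Limits AlgebraicGeometry
open Pool.Agent.H914 Pool.Agent.H914.VarClass Pool.Agent.H914.VarClass.Obj
open Pool.Agent.R903

universe u v w

namespace Pool.Agent.R898.B

section Alg

variable {A : Type v} [CommRing A] [Algebra ℚ A] {B : Type v} [CommRing B] [Algebra ℚ B]
  {J : Type v} [AddCommGroup J] [Module ℚ J] {J' : Type v} [AddCommGroup J'] [Module ℚ J']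
  {K : Type w} [Field K] {H : Type w} [Ring H] [Algebra K H] {H' : Type w} [Ring H']
  [Algebra K H']

/-- The subspaces `F k` form a descending filtration with `F 0 = U` and `F (j + 1) = 0`. -/
structure Descends (U : Submodule ℚ A) (j : ℕ) (F : ℕ → Submodule ℚ A) : Prop where
  antitone : ∀ k, F (k + 1) ≤ F k
  zero : F 0 = U
  bot : F (j + 1) = ⊥

/-- `F 1` is the kernel of `c` on `F 0`, and `F 2` is the kernel of `a` on `F 1`. -/
structure Kernels (F : ℕ → Submodule ℚ A) (c : A →+* H) (a : A →ₗ[ℚ] J) : Prop where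
  one : ∀ x, x ∈ F 1 ↔ x ∈ F 0 ∧ c x = 0
  two : ∀ x, x ∈ F 2 ↔ x ∈ F 1 ∧ a x = 0

/-- `T` maps `F k` to `G k`, and even to `G (k + 1)` if `T'` vanishes on `gr (2j - k)`. -/
structure Compat (T : A →ₗ[ℚ] B) (T' : H →ₗ[K] H') (gr : ℕ → Submodule K H) (j : ℕ)
    (F : ℕ → Submodule ℚ A) (G : ℕ → Submodule ℚ B) : Prop where
  sends : ∀ k, ∀ x ∈ F k, T x ∈ G k
  raises : ∀ k m, m + k = 2 * j → (∀ b ∈ gr m, T' b = 0) → ∀ x ∈ F k, T x ∈ G (k + 1)

/-- `T` induces a map `S : J → J'` with `S (a x) = a' (T x)` for all `x` in `U` with `c x = 0`, which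
is zero if `T'` vanishes on `gr (2j - 1)`. -/
def InducesJ (U : Submodule ℚ A) (c : A →+* H) (a : A →ₗ[ℚ] J) (a' : B →ₗ[ℚ] J') (T : A →ₗ[ℚ] B)
    (T' : H →ₗ[K] H') (gr : ℕ → Submodule K H) (j : ℕ) : Prop :=
  ∃ S : J →ₗ[ℚ] J', (∀ x ∈ U, c x = 0 → a' (T x) = S (a x)) ∧
    ∀ m, m + 1 = 2 * j → (∀ b ∈ gr m, T' b = 0) → S = 0

/-- The operator `∏_{m ∈ S} (T - m)`. -/
noncomputable def prodOp (T : A →ₗ[ℚ] A) (S : Finset ℕ) : A →ₗ[ℚ] A :=
  Polynomial.aeval (R := ℚ) (A := Module.End ℚ A) T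
    (∏ j ∈ S, (Polynomial.X - Polynomial.C (j : ℚ)))

/-- The operator `(T - j) ⋯ (T - 2j)` vanishes on `U`, and the operator `(T - j) ⋯ (T - (2j - 2))`
vanishes at the `x` in `U` with `c x = 0` and `a x = 0`. -/
def ProdsVanish (T : A →ₗ[ℚ] A) (U : Submodule ℚ A) (c : A →+* H) (a : A →ₗ[ℚ] J) (j : ℕ) : Prop :=
  (∀ x ∈ U, prodOp T (Finset.Icc j (2 * j)) x = 0) ∧
    ∀ x ∈ U, c x = 0 → a x = 0 → prodOp T (Finset.Icc j (2 * j - 2)) x = 0

/-- `F k` is the kernel of `∏ (T - m)`, for `j ≤ m` and `m + k ≤ 2j`, on `U`. -/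
def GivenBy (T : A →ₗ[ℚ] A) (U : Submodule ℚ A) (j : ℕ) (F : ℕ → Submodule ℚ A) : Prop :=
  ∀ k x, x ∈ F k ↔ x ∈ U ∧
    prodOp T ((Finset.Icc j (2 * j)).filter (fun m => m + k ≤ 2 * j)) x = 0

end Alg

variable {k : Type u} [Field k] {𝒱 : VarClass k} {C : ChowTheory.{u, v} 𝒱}

/-- An **Abel–Jacobi map**: for each variety `X` and each `j` a homomorphism `aj X j` from the
homologically trivial classes in `CH^j(X)` to a rational vector space `J X j` (it is extended
linearly to all of `CH(X)` in some way, but only its values on the homologically trivial classes of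
codimension `j` are used), such that each correspondence `Γ` in `CH^l(X × Y)` induces a map
`J X j → J Y i`, for `i = j + l - dim X`, which is zero if `Γ` acts as zero on `H^(2j - 1)(X)`. -/
structure AJMap (W : WeilTheory.{u, v, w} C) where
  /-- the intermediate Jacobian, with rational coefficients -/
  J : 𝒱.Obj → ℕ → Type v
  [grp : ∀ X j, AddCommGroup (J X j)]
  [mod : ∀ X j, Module ℚ (J X j)]
  /-- the Abel–Jacobi map -/
  aj : ∀ (X : 𝒱.Obj) (j : ℕ), C.CH X →ₗ[ℚ] J X j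
  functorial : ∀ (X Y : 𝒱.Obj) (i j l : ℕ) (Γ : C.CH (X.prod Y)), j + l = i + X.dim →
    Γ ∈ C.gr (X.prod Y) l →
      InducesJ (C.gr X j) (W.cl X) (aj X j) (aj Y i) (C.act Γ) (W.act Γ) (W.gr X) j

attribute [instance] AJMap.grp AJMap.mod

variable {W : WeilTheory.{u, v, w} C}

/-- `F X j k = F^k CH^j(X)`, for the varieties of the class `𝒱`, is a **Bloch–Beilinson
filtration**: conditions 1 to 4 of the problem. -/
structure IsBB (A : AJMap W) (F : ∀ X : 𝒱.Obj, ℕ → ℕ → Submodule ℚ (C.CH X)) : Prop where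
  descends : ∀ X j, Descends (C.gr X j) j (F X j)
  kernels : ∀ X j, Kernels (F X j) (W.cl X) (A.aj X j)
  compat : ∀ (X Y : 𝒱.Obj) (i j l : ℕ) (Γ : C.CH (X.prod Y)), j + l = i + X.dim →
    Γ ∈ C.gr (X.prod Y) l → Compat (C.act Γ) (W.act Γ) (W.gr X) j (F X j) (F Y i)

/-- For each `X`, `j` and each degree operator `d` of `X` the operator `∏_{m=j}^{2j} (d - m)`
annihilates `CH^j(X)` and the operator `∏_{m=j}^{2j-2} (d - m)` annihilates the kernel of the
Abel–Jacobi map on the homologically trivial classes in `CH^j(X)`. -/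
def Annihilates (A : AJMap W) : Prop :=
  ∀ (X : 𝒱.Obj) (j : ℕ) (d : C.CH (X.prod X)), W.IsDegree X d →
    ProdsVanish (C.act d) (C.gr X j) (W.cl X) (A.aj X j) j

/-- The filtration is given by each degree operator. -/
def IsGiven (W : WeilTheory.{u, v, w} C) (F : ∀ X : 𝒱.Obj, ℕ → ℕ → Submodule ℚ (C.CH X)) : Prop :=
  ∀ (X : 𝒱.Obj) (j : ℕ) (d : C.CH (X.prod X)), W.IsDegree X d →
    GivenBy (C.act d) (C.gr X j) j (F X j)

end Pool.Agent.R898.B
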