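import Pool.Agent.R898.Defs
import Pool.Agent.R903.CK

/-!
# Basic lemmas on Albanese kernels and on the action of correspondences
-/

open CategoryTheory CategoryTheory.Limits AlgebraicGeometry
open Pool.Agent.H914 Pool.Agent.H914.VarClass Pool.Agent.H914.VarClass.Obj
open Pool.Agent.R903

universe u v w

namespace Pool.Agent.R898

variable {k : Type u} [Field k] {𝒱 : VarClass k}

section Chow

variable (C : ChowTheory.{u, v} 𝒱) {X Y Z S T : 𝒱.Obj}

lemma mem_albKer {x : C.CH X} : x ∈ albKer C X ↔ x ∈ C.gr X X.dim ∧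
    ∀ (Y : 𝒱.Obj) (D : C.CH (X.prod Y)), D ∈ C.gr (X.prod Y) 1 → C.act D x = 0 := by
  simp only [albKer, Submodule.mem_inf, Submodule.mem_iInf, LinearMap.mem_ker]

lemma albKer_gr {x : C.CH X} (hx : x ∈ albKer C X) : x ∈ C.gr X X.dim :=
  ((mem_albKer C).1 hx).1

lemma albKer_act {x : C.CH X} (hx : x ∈ albKer C X) {D : C.CH (X.prod Y)}
    (hD : D ∈ C.gr (X.prod Y) 1) : C.act D x = 0 :=
  ((mem_albKer C).1 hx).2 Y D hD

/-- Correspondences of degree zero preserve the Albanese kernels. -/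
lemma act_mem_albKer {x : C.CH X} (hx : x ∈ albKer C X) {γ : C.CH (X.prod Y)}
    (hγ : γ ∈ C.gr (X.prod Y) Y.dim) : C.act γ x ∈ albKer C Y := by
  refine (mem_albKer C).2 ⟨C.act_mem hγ (albKer_gr C hx) (by omega), fun T D hD => ?_⟩
  rw [← C.act_comp]
  exact albKer_act C hx (C.comp_mem hγ hD (by omega))

lemma push_mem_albKer {x : C.CH X} (hx : x ∈ albKer C X) (f : X ⟶ Y) :
    C.push f x ∈ albKer C Y := by
  rw [← C.act_graph]
  exact act_mem_albKer C hx (C.graph_mem f)

lemma pull_mem_albKer {y : C.CH Y} (hy : y ∈ albKer C Y) (f : X ⟶ Y) (hd : X.dim = Y.dim) :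
    C.pull f y ∈ albKer C X := by
  rw [← C.act_cograph]
  exact act_mem_albKer C hy (by rw [hd]; exact C.cograph_mem f)

/-- The degree of a product with an element of the Albanese kernel is zero. -/
lemma deg_mul_albKer (hP : C.Polarized) (hX : 0 < X.dim) {x : C.CH X} (hx : x ∈ albKer C X)
    {i : ℕ} {y : C.CH X} (hy : y ∈ C.gr X i) : C.deg X (x * y) = 0 := by
  rcases Nat.eq_zero_or_pos i with hi | hi
  · subst hi
    obtain ⟨E, hE, hE'⟩ := hP X
    have hE0 : E ≠ 0 := by
      rintro rfl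
      rw [zero_pow (by omega), map_zero] at hE'
      exact hE' rfl
    have h1 : C.ext y E ∈ C.gr (X.prod X) 1 := by
      have := C.ext_mem hy hE
      rwa [zero_add] at this
    have h2 := albKer_act C hx h1
    rw [C.act_ext] at h2
    exact (smul_eq_zero.1 h2).resolve_right hE0
  · have h1 : x * y ∈ C.gr X (X.dim + i) := C.mul_mem (albKer_gr C hx) hy
    rw [C.gr_eq_bot X _ (by omega), Submodule.mem_bot] at h1
    rw [h1, map_zero]

/-- Decomposable correspondences kill the Albanese kernel. -/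
lemma act_ext_albKer (hP : C.Polarized) (hX : 0 < X.dim) {x : C.CH X} (hx : x ∈ albKer C X)
    {i : ℕ} {y : C.CH X} (hy : y ∈ C.gr X i) (z : C.CH Y) : C.act (C.ext y z) x = 0 := by
  rw [C.act_ext, deg_mul_albKer C hP hX hx hy, zero_smul]

end Chow

section Coh

variable {C : ChowTheory.{u, v} 𝒱} (W : WeilTheory.{u, v, w} C) {X Y Z S T : 𝒱.Obj}

lemma tr_proj_mul {l m : ℕ} (hlm : l + m = 2 * Y.dim) (a b : W.H Y) (hb : b ∈ W.gr Y m) :
    W.tr Y (proj (W.isInternal Y) l a * b) = W.tr Y (a * b) := by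
  refine gr_induction (W.isInternal Y) (p := fun a =>
    W.tr Y (proj (W.isInternal Y) l a * b) = W.tr Y (a * b)) ?_ ?_ a
  · intro i a ha
    by_cases hi : i = l
    · subst hi; rw [proj_same _ ha]
    · rw [proj_ne _ ha hi, zero_mul, map_zero, W.tr_eq_zero (W.mul_mem ha hb) (by omega)]
  · intro a a' h h'
    rw [map_add, add_mul, map_add, h, h', add_mul, map_add]

/-- An element all of whose products of the wrong degree have trace zero is homogeneous. -/
lemma mem_of_tr {j : ℕ} {a : W.H Y}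
    (h : ∀ m, j + m ≠ 2 * Y.dim → ∀ b ∈ W.gr Y m, W.tr Y (a * b) = 0) : a ∈ W.gr Y j := by
  have key : proj (W.isInternal Y) j a = a := by
    apply W.tr_ext
    intro c
    refine gr_induction (W.isInternal Y) (p := fun c =>
      W.tr Y (proj (W.isInternal Y) j a * c) = W.tr Y (a * c)) ?_ ?_ c
    · intro m b hb
      by_cases hm : j + m = 2 * Y.dim
      · exact tr_proj_mul W hm a b hb
      · rw [h m hm b hb, W.tr_eq_zero (W.mul_mem (proj_mem _ _ _) hb) hm]
    · intro b b' h h'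
      rw [mul_add, mul_add, map_add, map_add, h, h']
  rw [← key]
  exact proj_mem _ _ _

lemma push_memH (f : X ⟶ Y) {i j : ℕ} {a : W.H X} (ha : a ∈ W.gr X i)
    (h : i + 2 * Y.dim = j + 2 * X.dim) : W.push f a ∈ W.gr Y j := by
  apply mem_of_tr W
  intro m hm b hb
  rw [W.tr_push]
  exact W.tr_eq_zero (W.mul_mem ha (W.map_mem f hb)) (by omega)

lemma act_memH {c : ℕ} {γ : C.CH (X.prod Y)} (hγ : γ ∈ C.gr (X.prod Y) c) {i j : ℕ} {a : W.H X}
    (ha : a ∈ W.gr X i) (h : i + 2 * c = j + 2 * X.dim) : W.act γ a ∈ W.gr Y j := by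
  rw [W.act_apply]
  exact push_memH W _ (W.mul_mem (W.cl_mem hγ) (W.map_mem _ ha)) (by rw [dim_prod]; omega)

lemma coact_memH {c : ℕ} {γ : C.CH (X.prod Y)} (hγ : γ ∈ C.gr (X.prod Y) c) {i j : ℕ} {b : W.H Y}
    (hb : b ∈ W.gr Y i) (h : i + 2 * c = j + 2 * Y.dim) : W.coact γ b ∈ W.gr X j := by
  rw [WeilTheory.coact]
  exact push_memH W _ (W.mul_mem (W.cl_mem hγ) (W.map_mem _ hb)) (by rw [dim_prod]; omega)

lemma coact_comp {α : C.CH (X.prod Y)} {p : ℕ} (hα : α ∈ C.gr (X.prod Y) p) (β : C.CH (Y.prod Z))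
    (b : W.H Z) : W.coact (C.comp α β) b = W.coact α (W.coact β b) := by
  rw [← W.act_transp, ← C.comp_transp, W.act_comp _ (C.transp_mem hα), W.act_transp, W.act_transp]

lemma coact_smul (γ : C.CH (X.prod Y)) (b : W.H Y) (c : W.K) :
    W.coact γ (c • b) = c • W.coact γ b := by
  rw [← W.act_transp, map_smul, W.act_transp]

lemma coact_add_right (γ : C.CH (X.prod Y)) (b b' : W.H Y) :
    W.coact γ (b + b') = W.coact γ b + W.coact γ b' := by
  rw [← W.act_transp, map_add, W.act_transp, W.act_transp]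

lemma tr_act (γ : C.CH (X.prod Y)) (a : W.H X) (b : W.H Y) :
    W.tr Y (W.act γ a * b) =
      W.tr (X.prod Y) (W.cl _ γ * (W.map (fst X Y) a * W.map (snd X Y) b)) := by
  rw [W.act_apply, W.tr_push, mul_assoc]

/-- The class of a homogeneous correspondence is zero if its action is. -/
lemma cl_eq_zero_of_act {γ : C.CH (X.prod Y)} (h : W.act γ = 0) : W.cl _ γ = 0 := by
  apply W.nondeg
  intro c
  refine W.kunneth_induction (p := fun c => W.tr (X.prod Y) (W.cl _ γ * c) = 0) ?_ ?_ c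
  · intro a b ha hb
    rw [mul_add, map_add, ha, hb, add_zero]
  · intro i j a _ b _
    rw [← tr_act, h, LinearMap.zero_apply, zero_mul, map_zero]

lemma act_eq_zero_of_cl {γ : C.CH (X.prod Y)} (h : W.cl _ γ = 0) : W.act γ = 0 := by
  ext a
  rw [W.act_apply, h, zero_mul, map_zero, LinearMap.zero_apply]

/-- The duality between `act` and `coact`, in even degrees. -/
lemma tr_act_coact {γ : C.CH (X.prod Y)} (a : W.H X) {p : ℕ} {b : W.H Y}
    (hb : b ∈ W.gr Y (2 * p)) :
    W.tr Y (W.act γ a * b) = W.tr X (W.coact γ b * a) := by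
  rw [tr_act, WeilTheory.coact, W.tr_push, mul_assoc, W.even_comm (W.map_mem (snd X Y) hb)]

/-- `[Z]^*` preserves classes of divisors. -/
lemma coact_cl (γ : C.CH (X.prod Y)) (y : C.CH Y) :
    W.coact γ (W.cl Y y) = W.cl X (C.act (C.transp γ) y) := by
  rw [← W.act_transp, W.cl_act]

end Coh

end Pool.Agent.R898
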