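import Mathlib

/-!
# Symmetric bilinear forms of bounded rank
-/

open Finset

namespace Pool.Agent.R898

variable {V : Type*} [AddCommGroup V] [Module ℚ V] (B : V →ₗ[ℚ] V →ₗ[ℚ] ℚ)

/-- The family `v` is orthogonal with nonzero squares. -/
def Orth {n : ℕ} (v : Fin n → V) : Prop :=
  (∀ i j, i ≠ j → B (v i) (v j) = 0) ∧ ∀ i, B (v i) (v i) ≠ 0

/-- A symmetric bilinear form such that the orthogonal families with nonzero squares have at most
`N` members has an orthogonal basis modulo its radical. -/
theorem exists_orth (hB : ∀ x y, B x y = B y x) (N : ℕ)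
    (hN : ∀ (n : ℕ) (v : Fin n → V), Orth B v → n ≤ N) :
    ∃ (n : ℕ) (v : Fin n → V), Orth B v ∧
      ∀ x y, B (x - ∑ i, (B x (v i) / B (v i) (v i)) • v i) y = 0 := by
  classical
  let P : ℕ → Prop := fun n => ∃ v : Fin n → V, Orth B v
  have hP0 : P 0 := ⟨Fin.elim0, fun i => i.elim0, fun i => i.elim0⟩
  let n := Nat.findGreatest P N
  have hn : P n := Nat.findGreatest_spec (m := 0) (Nat.zero_le _) hP0
  have hmax : ∀ m, P m → m ≤ n := by
    rintro m ⟨v, hv⟩
    exact Nat.le_findGreatest (hN m v hv) ⟨v, hv⟩
  obtain ⟨v, hv⟩ := hn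
  refine ⟨n, v, hv, ?_⟩
  set r : V → V := fun x => x - ∑ i, (B x (v i) / B (v i) (v i)) • v i with hr
  have hrv : ∀ x j, B (r x) (v j) = 0 := by
    intro x j
    rw [hr]
    simp only [map_sub, LinearMap.sub_apply, map_sum, LinearMap.sum_apply, map_smul,
      LinearMap.smul_apply, smul_eq_mul]
    rw [Finset.sum_eq_single j]
    · rw [div_mul_cancel₀ _ (hv.2 j), sub_self]
    · intro i _ hij
      rw [hv.1 i j hij, mul_zero]
    · intro h; exact absurd (Finset.mem_univ j) h
  have hvr : ∀ x j, B (v j) (r x) = 0 := fun x j => by rw [hB, hrv]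
  have hsq : ∀ x, B (r x) (r x) = 0 := by
    intro x
    by_contra h
    have : P (n + 1) := by
      refine ⟨Fin.snoc v (r x), ?_, ?_⟩
      · intro i j
        refine Fin.lastCases ?_ (fun i => ?_) i
        · refine Fin.lastCases ?_ (fun j => ?_) j
          · intro h; exact absurd rfl h
          · intro _; simp [hrv]
        · refine Fin.lastCases ?_ (fun j => ?_) j
          · intro _; simp [hvr]
          · intro hij
            simp only [Fin.snoc_castSucc]
            exact hv.1 i j (fun h' => hij (by rw [h']))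
      · intro i
        refine Fin.lastCases ?_ (fun i => ?_) i
        · simpa using h
        · simpa using hv.2 i
    have := hmax _ this
    omega
  have hadd : ∀ x y, r (x + y) = r x + r y := by
    intro x y
    rw [hr]
    simp only [map_add, LinearMap.add_apply, add_div, add_smul, Finset.sum_add_distrib]
    abel
  have hxy : ∀ x y, B (r x) (r y) = 0 := by
    intro x y
    have h1 := hsq (x + y)
    rw [hadd] at h1
    simp only [map_add, LinearMap.add_apply, hsq, hB (r y) (r x)] at h1
    linarith
  intro x y
  have h1 : y = r y + ∑ i, (B y (v i) / B (v i) (v i)) • v i := by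
    rw [hr]; simp
  have h2 : B (r x) y = 0 := by
    rw [h1, map_add, hxy, map_sum, zero_add]
    exact Finset.sum_eq_zero fun i _ => by rw [map_smul, hrv, smul_zero]
  exact h2

end Pool.Agent.R898
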