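import Pool.Agent.R898.Defs

/-!
# Common covers, the transcendental projector and special cases of Bloch's conjecture: definitions
-/

open CategoryTheory CategoryTheory.Limits AlgebraicGeometry
open Pool.Agent.H914 Pool.Agent.H914.VarClass Pool.Agent.H914.VarClass.Obj
open Pool.Agent.R903

universe u v w

namespace Pool.Agent.R898

variable {k : Type u} [Field k] {𝒱 : VarClass k} {C : ChowTheory.{u, v} 𝒱}

/-- Divisors on `S` which are numerically trivial have cohomology class zero. -/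
def NumHom (W : WeilTheory.{u, v, w} C) (S : 𝒱.Obj) : Prop :=
  ∀ D ∈ C.gr S 1, (∀ E ∈ C.gr S 1, C.deg S (D * E) = 0) → W.cl S D = 0

/-- `π` is the projector onto the transcendental part of the motive of the surface `S`: a symmetric
idempotent correspondence which acts as zero on `CH^0(S)`, on `CH^1(S)` and on `H^j(S)` for
`j ≠ 2`, and as the identity on the Albanese kernel. -/
structure IsTransProj (W : WeilTheory.{u, v, w} C) (S : 𝒱.Obj) (π : C.CH (S.prod S)) : Prop where
  mem : π ∈ C.gr (S.prod S) 2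
  symm : C.transp π = π
  idem : C.comp π π = π
  act_gr : ∀ j, j ≤ 1 → ∀ x ∈ C.gr S j, C.act π x = 0
  act_albKer : ∀ x ∈ albKer C S, C.act π x = x
  coh : ∀ j, j ≠ 2 → VanishesOn (W.act π) (W.gr S j)

/-- The decomposable classes of codimension two on `S × T`: the sums of external products
`x × y` with `x ∈ CH^i(S)`, `y ∈ CH^j(T)` and `i + j = 2`. -/
noncomputable def decomp (C : ChowTheory.{u, v} 𝒱) (S T : 𝒱.Obj) : Submodule ℚ (C.CH (S.prod T)) :=
  Submodule.span ℚ {z | ∃ i j, i + j = 2 ∧ ∃ x ∈ C.gr S i, ∃ y ∈ C.gr T j, z = C.ext x y}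

/-- The surface `X` with the morphisms `p` to `S` and `q` to `T` is a common cover of the surfaces
`S` and `T`: `p` and `q` have nonzero degree and the class of (the image of) `X` in
`CH^2(S × T)` is decomposable. -/
structure IsCommonCover (C : ChowTheory.{u, v} 𝒱) {X S T : 𝒱.Obj} (p : X ⟶ S) (q : X ⟶ T) :
    Prop where
  dim : X.dim = 2
  fst : ∃ a : ℚ, a ≠ 0 ∧ C.push p 1 = algebraMap ℚ (C.CH S) a
  snd : ∃ b : ℚ, b ≠ 0 ∧ C.push q 1 = algebraMap ℚ (C.CH T) b
  decomposable : C.push (lift p q) 1 ∈ decomp C S T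

/-- The class `𝒟` of varieties is cofinal: any two surfaces have a common cover in `𝒟`. -/
def Cofinal (C : ChowTheory.{u, v} 𝒱) (𝒟 : 𝒱.Obj → Prop) : Prop :=
  ∀ S T : 𝒱.Obj, S.dim = 2 → T.dim = 2 →
    ∃ (X : 𝒱.Obj) (p : X ⟶ S) (q : X ⟶ T), 𝒟 X ∧ IsCommonCover C p q

/-- The special case of Bloch's conjecture for the correspondences from a surface `X` in `𝒟` to
itself whose square `Z ∘ Z` is decomposable. -/
def BlochSquare (W : WeilTheory.{u, v, w} C) (𝒟 : 𝒱.Obj → Prop) : Prop :=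
  ∀ X : 𝒱.Obj, X.dim = 2 → 𝒟 X → ∀ Z ∈ C.gr (X.prod X) 2, TwoZero W Z →
    C.comp Z Z ∈ decomp C X X → KillsAlb C Z

/-- The special case of Bloch's conjecture for the homologically trivial correspondences from a
surface `X` in `𝒟` to itself which have the property `R`. -/
def BlochSelf (W : WeilTheory.{u, v, w} C) (𝒟 : 𝒱.Obj → Prop)
    (R : ∀ X : 𝒱.Obj, C.CH (X.prod X) → Prop) : Prop :=
  ∀ X : 𝒱.Obj, X.dim = 2 → 𝒟 X → ∀ Z ∈ C.gr (X.prod X) 2, W.cl _ Z = 0 → R X Z → KillsAlb C Z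

/-- Two correspondences in `CH^2(X × X)` act in the same way on the Albanese kernel. -/
def SameOnAlb (C : ChowTheory.{u, v} 𝒱) {S T : 𝒱.Obj} (φ ψ : C.CH (S.prod T)) : Prop :=
  ∀ x ∈ albKer C S, C.act φ x = C.act ψ x

/-- Each automorphism `φ` of the motive of a surface in `𝒟` which acts as the identity on
cohomology acts as the identity on the Albanese kernel. -/
def BlochAut (W : WeilTheory.{u, v, w} C) (𝒟 : 𝒱.Obj → Prop) : Prop :=
  ∀ X : 𝒱.Obj, X.dim = 2 → 𝒟 X → ∀ φ ∈ C.gr (X.prod X) 2, ∀ ψ ∈ C.gr (X.prod X) 2,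
    C.comp φ ψ = C.diagC X → C.comp ψ φ = C.diagC X → W.cl _ φ = W.cl _ (C.diagC X) →
      SameOnAlb C φ (C.diagC X)

/-- Any two idempotent correspondences with the same cohomology class, from a surface in `𝒟` to
itself, act in the same way on the Albanese kernel. -/
def BlochIdem (W : WeilTheory.{u, v, w} C) (𝒟 : 𝒱.Obj → Prop) : Prop :=
  ∀ X : 𝒱.Obj, X.dim = 2 → 𝒟 X → ∀ e ∈ C.gr (X.prod X) 2, ∀ f ∈ C.gr (X.prod X) 2,
    C.comp e e = e → C.comp f f = f → W.cl _ e = W.cl _ f → SameOnAlb C e f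

end Pool.Agent.R898
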