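import Pool.Agent.R903.Coh
import Pool.Agent.R903.Tensor
import Pool.Agent.R903.BBDefs

/-!
# Bloch's conjecture for zero-cycles on surfaces: definitions
-/

open CategoryTheory CategoryTheory.Limits AlgebraicGeometry
open Pool.Agent.H914 Pool.Agent.H914.VarClass Pool.Agent.H914.VarClass.Obj
open Pool.Agent.R903

universe u v w

namespace Pool.Agent.R898

variable {k : Type u} [Field k] {𝒱 : VarClass k}

/-- The **Albanese kernel** `F^2 CH_0(X)` (with rational coefficients): the zero-cycles which are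
mapped to zero by all divisorial correspondences `D ∈ CH^1(X × Y)`, for all varieties `Y` of the
class. -/
noncomputable def albKer (C : ChowTheory.{u, v} 𝒱) (X : 𝒱.Obj) : Submodule ℚ (C.CH X) :=
  C.gr X X.dim ⊓ ⨅ (Y : 𝒱.Obj) (D : C.CH (X.prod Y)) (_ : D ∈ C.gr (X.prod Y) 1),
    LinearMap.ker (C.act D)

/-- `Z_*` vanishes on the Albanese kernel `F^2 CH_0(S)`. -/
def KillsAlb (C : ChowTheory.{u, v} 𝒱) {S T : 𝒱.Obj} (Z : C.CH (S.prod T)) : Prop :=
  ∀ x ∈ albKer C S, C.act Z x = 0

variable {C : ChowTheory.{u, v} 𝒱}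

/-- The span of the classes of divisors in `H(X)`. -/
def divSpan (W : WeilTheory.{u, v, w} C) (X : 𝒱.Obj) : Submodule W.K (W.H X) :=
  Submodule.span W.K (W.cl X '' (C.gr X 1 : Set (C.CH X)))

/-- The operator `[Z]^* : b ↦ p_{S*}([Z] · p_T^* b)` maps `H^2(T)` into the span of the classes of
divisors. Over the complex numbers and with `W` singular cohomology with rational coefficients this
means that `[Z]^* : H^{2,0}(T) → H^{2,0}(S)` is zero, by the Lefschetz theorem on `(1,1)`-classes. -/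
def TwoZero (W : WeilTheory.{u, v, w} C) {S T : 𝒱.Obj} (Z : C.CH (S.prod T)) : Prop :=
  ∀ b ∈ W.gr T 2, W.coact Z b ∈ divSpan W S

/-- **Bloch's conjecture** for all surfaces of the class. -/
def BlochConj (W : WeilTheory.{u, v, w} C) : Prop :=
  ∀ S T : 𝒱.Obj, S.dim = 2 → T.dim = 2 → ∀ Z ∈ C.gr (S.prod T) 2, TwoZero W Z → KillsAlb C Z

end Pool.Agent.R898
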