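import Pool.Agent.R898.Ext

/-!
# Bloch's conjecture and its special cases
-/

open CategoryTheory CategoryTheory.Limits AlgebraicGeometry
open Pool.Agent.H914 Pool.Agent.H914.VarClass Pool.Agent.H914.VarClass.Obj
open Pool.Agent.R903

universe u v w

namespace Pool.Agent.R898

variable {k : Type u} [Field k] {𝒱 : VarClass k} {C : ChowTheory.{u, v} 𝒱}
  {W : WeilTheory.{u, v, w} C} {X Y Z S T P : 𝒱.Obj}

lemma decomp_induction {p : C.CH (S.prod T) → Prop}
    (hext : ∀ i j, i + j = 2 → ∀ x ∈ C.gr S i, ∀ y ∈ C.gr T j, p (C.ext x y))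
    (hadd : ∀ a b, p a → p b → p (a + b)) (hsmul : ∀ (c : ℚ) a, p a → p (c • a))
    {z : C.CH (S.prod T)} (hz : z ∈ decomp C S T) : p z := by
  refine Submodule.span_induction (p := fun a _ => p a) ?_ ?_ ?_ ?_ hz
  · rintro _ ⟨i, j, hij, x, hx, y, hy, rfl⟩; exact hext i j hij x hx y hy
  · have h := hext 0 2 rfl 0 (Submodule.zero_mem _) 0 (Submodule.zero_mem _)
    have := hsmul 0 _ h
    rwa [zero_smul] at this
  · intro a b _ _ h h'; exact hadd a b h h'
  · intro c a _ h; exact hsmul c a h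

lemma decomp_transp {z : C.CH (S.prod T)} (hz : z ∈ decomp C S T) :
    C.transp z ∈ decomp C T S := by
  refine decomp_induction (p := fun z => C.transp z ∈ decomp C T S) ?_ ?_ ?_ hz
  · intro i j hij x hx y hy
    rw [transp_ext]
    exact Submodule.subset_span ⟨j, i, by omega, y, hy, x, hx, rfl⟩
  · intro a b h h'; rw [transp_add]; exact Submodule.add_mem _ h h'
  · intro c a h; rw [transp_smul]; exact Submodule.smul_mem _ _ h

lemma decomp_act (hP : C.Polarized) (hS : S.dim = 2) {z : C.CH (S.prod T)}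
    (hz : z ∈ decomp C S T) {x : C.CH S} (hx : x ∈ albKer C S) : C.act z x = 0 := by
  refine decomp_induction (p := fun z => C.act z x = 0) ?_ ?_ ?_ hz
  · intro i j _ a ha b _
    exact act_ext_albKer C hP (by omega) hx ha b
  · intro a b h h'; rw [C.act_add, LinearMap.add_apply, h, h', add_zero]
  · intro c a h; rw [C.act_smul, LinearMap.smul_apply, h, smul_zero]

/-- Known facts on surfaces, for a class `𝒟` of varieties: ample classes exist, numerical and
homological equivalence agree for divisors on surfaces, the transcendental projectors exist, and any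
two surfaces have a common cover in `𝒟`. -/
structure SurfaceFacts (W : WeilTheory.{u, v, w} C) (𝒟 : 𝒱.Obj → Prop) : Prop where
  polarized : C.Polarized
  numHom : ∀ S : 𝒱.Obj, S.dim = 2 → NumHom W S
  transProj : ∀ S : 𝒱.Obj, S.dim = 2 → ∃ π, IsTransProj W S π
  cover : Cofinal C 𝒟

lemma comp_mem_decomp (hS : S.dim = 2) {α : C.CH (X.prod S)} (hα : α ∈ C.gr (X.prod S) 2)
    {z : C.CH (S.prod T)} (hz : z ∈ decomp C S T) : C.comp α z ∈ decomp C X T := by
  refine decomp_induction (p := fun z => C.comp α z ∈ decomp C X T) ?_ ?_ ?_ hz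
  · intro i j hij a ha b hb
    rw [ext_comp]
    exact Submodule.subset_span ⟨i, j, hij, _, C.act_mem (C.transp_mem hα) ha (by omega), b, hb,
      rfl⟩
  · intro a b h h'; rw [C.comp_add]; exact Submodule.add_mem _ h h'
  · intro c a h; rw [C.comp_smul]; exact Submodule.smul_mem _ _ h

lemma decomp_comp_mem (hT : T.dim = 2) {β : C.CH (T.prod Y)} (hβ : β ∈ C.gr (T.prod Y) 2)
    {z : C.CH (S.prod T)} (hz : z ∈ decomp C S T) : C.comp z β ∈ decomp C S Y := by
  refine decomp_induction (p := fun z => C.comp z β ∈ decomp C S Y) ?_ ?_ ?_ hz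
  · intro i j hij a ha b hb
    rw [comp_ext]
    exact Submodule.subset_span ⟨i, j, hij, a, ha, _, C.act_mem hβ hb (by omega), rfl⟩
  · intro a b h h'; rw [C.add_comp]; exact Submodule.add_mem _ h h'
  · intro c a h; rw [C.smul_comp]; exact Submodule.smul_mem _ _ h

/-- the correspondence kills `CH^0` and `CH^1` -/
def KillsLow (C : ChowTheory.{u, v} 𝒱) {S T : 𝒱.Obj} (γ : C.CH (S.prod T)) : Prop :=
  ∀ j, j ≤ 1 → ∀ x ∈ C.gr S j, C.act γ x = 0

lemma comp_decomp_comp {α : C.CH (X.prod T)} {z : C.CH (T.prod S)} {β : C.CH (S.prod Y)}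
    (hα : KillsLow C (C.transp α)) (hβ : KillsLow C β) (hz : z ∈ decomp C T S) :
    C.comp (C.comp α z) β = 0 := by
  refine decomp_induction (p := fun z => C.comp (C.comp α z) β = 0) ?_ ?_ ?_ hz
  · intro i j hij a ha b hb
    rw [ext_comp, comp_ext]
    rcases Nat.lt_or_ge i 2 with hi | hi
    · rw [hα i (by omega) a ha, ChowTheory.ext, map_zero, zero_mul]
    · rw [hβ j (by omega) b hb, ChowTheory.ext, map_zero, mul_zero]
  · intro a b h h'; rw [C.comp_add, C.add_comp, h, h', add_zero]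
  · intro c a h; rw [C.comp_smul, C.smul_comp, h, smul_zero]

lemma IsTransProj.isMurre {π : C.CH (S.prod S)} (hS : S.dim = 2) (h : IsTransProj W S π) :
    IsMurre W S π := ⟨by rw [hS]; exact h.mem, h.act_albKer, h.coh⟩

section Cover

variable {p : X ⟶ S} {q : X ⟶ T}

lemma push_pull_of {a : ℚ} (ha : C.push p 1 = algebraMap ℚ (C.CH S) a) (x : C.CH S) :
    C.push p (C.pull p x) = a • x := by
  have := C.push_mul p 1 x
  rwa [one_mul, ha, ← Algebra.smul_def] at this

lemma cograph_comp_graph_self {a : ℚ} (ha : C.push p 1 = algebraMap ℚ (C.CH S) a) :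
    C.comp (C.cograph p) (C.graph p) = a • C.diagC S := by
  have e : lift p p = p ≫ Obj.diag S := by apply hom_ext_prod <;> simp
  rw [cograph_comp_graph, ChowTheory.span, e, C.push_comp, ha, ChowTheory.diagC,
    Algebra.algebraMap_eq_smul_one, map_smul]

/-- the correspondence `q^* ∘ Z ∘ p_*` -/
noncomputable def spread (C : ChowTheory.{u, v} 𝒱) {X S T : 𝒱.Obj} (p : X ⟶ S) (q : X ⟶ T)
    (Z : C.CH (S.prod T)) : C.CH (X.prod X) :=
  C.comp (C.comp (C.graph p) Z) (C.cograph q)

lemma act_spread (Z : C.CH (S.prod T)) (x : C.CH X) :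
    C.act (spread C p q Z) x = C.pull q (C.act Z (C.push p x)) := by
  rw [spread, C.act_comp, C.act_comp, C.act_graph, C.act_cograph]

lemma spread_mem {Z : C.CH (S.prod T)}
    (hZ : Z ∈ C.gr _ 2) : spread C p q Z ∈ C.gr (X.prod X) 2 := by
  have h1 := C.graph_mem p
  have h2 := C.cograph_mem q
  have h3 : C.comp (C.graph p) Z ∈ C.gr (X.prod T) 2 := C.comp_mem h1 hZ (by omega)
  exact C.comp_mem h3 h2 (by omega)

lemma transp_spread (Z : C.CH (S.prod T)) :
    C.transp (spread C p q Z) = spread C q p (C.transp Z) := by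
  rw [spread, spread, ← C.comp_transp, ← C.comp_transp, transp_cograph, transp_graph,
    C.comp_assoc]

lemma cl_spread {Z : C.CH (S.prod T)} {r : ℕ} (hZm : Z ∈ C.gr _ r) (hZ : W.cl _ Z = 0) :
    W.cl _ (spread C p q Z) = 0 :=
  cl_comp_left W (C.cograph_mem q) (cl_comp_right W hZm hZ)

lemma spread_comp_spread {T' S' : 𝒱.Obj} {q' : X ⟶ T'} {p' : X ⟶ S'} (Z : C.CH (S.prod T))
    (Z' : C.CH (S'.prod T')) :
    C.comp (spread C p q Z) (spread C p' q' Z') =
      C.comp (C.comp (C.graph p) (C.comp (C.comp Z (C.span q p' 1)) Z')) (C.cograph q') := by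
  rw [spread, spread, ← cograph_comp_graph]
  simp only [C.comp_assoc]

/-- the composition `q_* p^*` vanishes on the Albanese kernel -/
lemma push_pull_cover (hP : C.Polarized) (hS : S.dim = 2) (h : IsCommonCover C p q) {x : C.CH S}
    (hx : x ∈ albKer C S) : C.push q (C.pull p x) = 0 := by
  have h1 := decomp_act hP hS h.decomposable hx
  have h2 := C.act_span p q 1 x
  rw [one_mul] at h2
  rw [← h2]
  exact h1

lemma span_cover (h : IsCommonCover C p q) : C.span q p 1 ∈ decomp C T S := by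
  rw [← transp_span]
  exact decomp_transp h.decomposable

end Cover

/-- The data obtained from a correspondence as in Bloch's conjecture. -/
structure Core (W : WeilTheory.{u, v, w} C) (𝒟 : 𝒱.Obj → Prop) {S T : 𝒱.Obj}
    (Z : C.CH (S.prod T)) {X : 𝒱.Obj} (p : X ⟶ S) (q : X ⟶ T) (π : C.CH (S.prod S))
    (Z₂ : C.CH (S.prod T)) (a b : ℚ) : Prop where
  mem : 𝒟 X
  cover : IsCommonCover C p q
  ha : a ≠ 0
  hb : b ≠ 0
  pa : C.push p 1 = algebraMap ℚ (C.CH S) a
  pb : C.push q 1 = algebraMap ℚ (C.CH T) b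
  proj : IsTransProj W S π
  gr : Z₂ ∈ C.gr (S.prod T) 2
  cl : W.cl _ Z₂ = 0
  same : ∀ x ∈ albKer C S, C.act Z₂ x = C.act Z x
  comp : C.comp π Z₂ = Z₂
  low : KillsLow C Z₂
  low' : KillsLow C (C.transp Z₂)

theorem exists_core {𝒟 : 𝒱.Obj → Prop} (hF : SurfaceFacts W 𝒟) (hS : S.dim = 2) (hT : T.dim = 2)
    {Z : C.CH (S.prod T)} (hZ : Z ∈ C.gr (S.prod T) 2) (h0 : TwoZero W Z) :
    ∃ (X : 𝒱.Obj) (p : X ⟶ S) (q : X ⟶ T) (π : C.CH (S.prod S)) (Z₂ : C.CH (S.prod T))
      (a b : ℚ), Core W 𝒟 Z p q π Z₂ a b := by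
  obtain ⟨X, p, q, hX, hc⟩ := hF.cover S T hS hT
  obtain ⟨a, ha, pa⟩ := hc.fst
  obtain ⟨b, hb, pb⟩ := hc.snd
  obtain ⟨π, hπ⟩ := hF.transProj S hS
  obtain ⟨ρ, hρ⟩ := hF.transProj T hT
  obtain ⟨Z₁, hZ₁, hcl, hact⟩ := exists_homTrivial W hF.polarized hS (hF.numHom S hS)
    (hπ.isMurre hS) (by rw [hT]; exact hZ) h0
  rw [hT] at hZ₁
  refine ⟨X, p, q, π, C.comp (C.comp π Z₁) ρ, a, b, ⟨hX, hc, ha, hb, pa, pb, hπ, ?_, ?_, ?_, ?_, ?_,
    ?_⟩⟩
  · exact C.comp_mem (C.comp_mem hπ.mem hZ₁ (by omega) : _ ∈ C.gr _ 2) hρ.mem (by omega)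
  · exact cl_comp_left W hρ.mem (cl_comp_right W hZ₁ hcl)
  · intro x hx
    have h1 : C.act Z₁ x ∈ albKer C T := act_mem_albKer C hx (by rw [hT]; exact hZ₁)
    rw [C.act_comp, C.act_comp, hπ.act_albKer x hx, hρ.act_albKer _ h1, hact x hx]
  · rw [← C.comp_assoc, ← C.comp_assoc, hπ.idem]
  · intro j hj x hx
    rw [C.act_comp, C.act_comp, hπ.act_gr j hj x hx, map_zero, map_zero]
  · intro j hj y hy
    rw [← C.comp_transp, C.act_comp, hρ.symm, hρ.act_gr j hj y hy, map_zero]

lemma Core.kills {𝒟 : 𝒱.Obj → Prop} {Z : C.CH (S.prod T)} {p : X ⟶ S} {q : X ⟶ T}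
    {π : C.CH (S.prod S)} {Z₂ : C.CH (S.prod T)} {a b : ℚ} (h : Core W 𝒟 Z p q π Z₂ a b)
    (h1 : ∀ x ∈ albKer C S, C.act (spread C p q Z₂) (C.pull p x) = 0) : KillsAlb C Z := by
  intro x hx
  have h2 := h1 x hx
  rw [act_spread, push_pull_of h.pa, map_smul, map_smul] at h2
  have h3 := (smul_eq_zero.1 h2).resolve_left h.ha
  have h4 := push_pull_of h.pb (C.act Z₂ x)
  rw [h3, map_zero] at h4
  rw [← h.same x hx]
  exact (smul_eq_zero.1 h4.symm).resolve_left h.hb

lemma Core.transp_act (hP : C.Polarized) {𝒟 : 𝒱.Obj → Prop} (hS : S.dim = 2)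
    {Z : C.CH (S.prod T)} {p : X ⟶ S} {q : X ⟶ T}
    {π : C.CH (S.prod S)} {Z₂ : C.CH (S.prod T)} {a b : ℚ} (h : Core W 𝒟 Z p q π Z₂ a b)
    {x : C.CH S} (hx : x ∈ albKer C S) :
    C.act (C.transp (spread C p q Z₂)) (C.pull p x) = 0 := by
  rw [transp_spread, act_spread, push_pull_cover hP hS h.cover hx, map_zero, map_zero]

lemma Core.sq {𝒟 : 𝒱.Obj → Prop} {Z : C.CH (S.prod T)} {p : X ⟶ S} {q : X ⟶ T}
    {π : C.CH (S.prod S)} {Z₂ : C.CH (S.prod T)} {a b : ℚ} (h : Core W 𝒟 Z p q π Z₂ a b) :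
    C.comp (spread C p q Z₂) (spread C p q Z₂) = 0 := by
  rw [spread_comp_spread, comp_decomp_comp h.low' h.low (span_cover h.cover), C.comp_zero,
    C.zero_comp]

lemma blochConj_self (h : BlochConj W) (hX : X.dim = 2) {Z : C.CH (X.prod X)}
    (hZ : Z ∈ C.gr (X.prod X) 2) (hcl : W.cl _ Z = 0) : KillsAlb C Z :=
  h X X hX hX Z hZ (TwoZero.of_cl W hcl)

/-- the special case of symmetric correspondences implies the conjecture -/
theorem blochConj_of_symm {𝒟 : 𝒱.Obj → Prop} (hF : SurfaceFacts W 𝒟)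
    (h : BlochSelf W 𝒟 (fun _ Z => C.transp Z = Z)) : BlochConj W := by
  intro S T hS hT Z hZ h0
  obtain ⟨X, p, q, π, Z₂, a, b, hc⟩ := exists_core hF hS hT hZ h0
  have hX := hc.cover.dim
  have hm := spread_mem (p := p) (q := q) (Z := Z₂) (C := C) hc.gr
  apply hc.kills
  intro x hx
  have hpx : C.pull p x ∈ albKer C X := pull_mem_albKer C hx p (by omega)
  have h1 := h X hX hc.mem (spread C p q Z₂ + C.transp (spread C p q Z₂))
    (Submodule.add_mem _ hm (C.transp_mem hm))
    (by rw [map_add, cl_spread hc.gr hc.cl, cl_transp W (cl_spread hc.gr hc.cl), add_zero])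
    (by change C.transp _ = _; rw [transp_add, transp_transp, add_comm]) _ hpx
  rw [C.act_add, LinearMap.add_apply, hc.transp_act hF.polarized hS hx, add_zero] at h1
  exact h1

/-- the special case of antisymmetric correspondences implies the conjecture -/
theorem blochConj_of_anti {𝒟 : 𝒱.Obj → Prop} (hF : SurfaceFacts W 𝒟)
    (h : BlochSelf W 𝒟 (fun _ Z => C.transp Z = -Z)) : BlochConj W := by
  intro S T hS hT Z hZ h0
  obtain ⟨X, p, q, π, Z₂, a, b, hc⟩ := exists_core hF hS hT hZ h0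
  have hX := hc.cover.dim
  have hm := spread_mem (p := p) (q := q) (Z := Z₂) (C := C) hc.gr
  apply hc.kills
  intro x hx
  have hpx : C.pull p x ∈ albKer C X := pull_mem_albKer C hx p (by omega)
  have h1 := h X hX hc.mem (spread C p q Z₂ - C.transp (spread C p q Z₂))
    (Submodule.sub_mem _ hm (C.transp_mem hm))
    (by rw [map_sub, cl_spread hc.gr hc.cl, cl_transp W (cl_spread hc.gr hc.cl), sub_zero])
    (by change C.transp _ = _; rw [transp_sub, transp_transp, neg_sub]) _ hpx
  rw [C.act_sub, LinearMap.sub_apply, hc.transp_act hF.polarized hS hx, sub_zero] at h1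
  exact h1

/-- the special case of correspondences of square zero implies the conjecture -/
theorem blochConj_of_sq {𝒟 : 𝒱.Obj → Prop} (hF : SurfaceFacts W 𝒟)
    (h : BlochSelf W 𝒟 (fun _ Z => C.comp Z Z = 0)) : BlochConj W := by
  intro S T hS hT Z hZ h0
  obtain ⟨X, p, q, π, Z₂, a, b, hc⟩ := exists_core hF hS hT hZ h0
  have hX := hc.cover.dim
  have hm := spread_mem (p := p) (q := q) (Z := Z₂) (C := C) hc.gr
  apply hc.kills
  intro x hx
  have hpx : C.pull p x ∈ albKer C X := pull_mem_albKer C hx p (by omega)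
  exact h X hX hc.mem _ hm (cl_spread hc.gr hc.cl) hc.sq _ hpx

lemma diagC_mem' (hX : X.dim = 2) : C.diagC X ∈ C.gr (X.prod X) 2 := by
  have := C.diagC_mem X
  rwa [hX] at this

lemma comp_neg (α : C.CH (X.prod Y)) (β : C.CH (Y.prod Z)) :
    C.comp α (-β) = -C.comp α β := by
  have := C.comp_smul (-1) α β
  simpa using this

lemma neg_comp (α : C.CH (X.prod Y)) (β : C.CH (Y.prod Z)) :
    C.comp (-α) β = -C.comp α β := by
  have := C.smul_comp (-1) α β
  simpa using this

/-- the special case of automorphisms implies the conjecture -/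
theorem blochConj_of_aut {𝒟 : 𝒱.Obj → Prop} (hF : SurfaceFacts W 𝒟)
    (h : BlochAut W 𝒟) : BlochConj W := by
  intro S T hS hT Z hZ h0
  obtain ⟨X, p, q, π, Z₂, a, b, hc⟩ := exists_core hF hS hT hZ h0
  have hX := hc.cover.dim
  have hm := spread_mem (p := p) (q := q) (Z := Z₂) (C := C) hc.gr
  apply hc.kills
  intro x hx
  have hpx : C.pull p x ∈ albKer C X := pull_mem_albKer C hx p (by omega)
  have hD := diagC_mem' (C := C) hX
  have h1 := h X hX hc.mem (C.diagC X + spread C p q Z₂) (Submodule.add_mem _ hD hm)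
    (C.diagC X + -spread C p q Z₂) (Submodule.add_mem _ hD (Submodule.neg_mem _ hm))
    (by rw [C.add_comp, C.comp_add, C.comp_add, C.diagC_comp, C.diagC_comp, C.comp_diagC, comp_neg,
      hc.sq]; abel)
    (by rw [C.add_comp, C.comp_add, C.comp_add, C.diagC_comp, C.diagC_comp, C.comp_diagC, neg_comp,
      hc.sq]; abel)
    (by rw [map_add, cl_spread hc.gr hc.cl, add_zero]) _ hpx
  rw [C.act_add, LinearMap.add_apply] at h1
  simpa using h1

/-- the special case of idempotents implies the conjecture -/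
theorem blochConj_of_idem {𝒟 : 𝒱.Obj → Prop} (hF : SurfaceFacts W 𝒟)
    (h : BlochIdem W 𝒟) : BlochConj W := by
  intro S T hS hT Z hZ h0
  obtain ⟨X, p, q, π, Z₂, a, b, hc⟩ := exists_core hF hS hT hZ h0
  have hX := hc.cover.dim
  have hm := spread_mem (p := p) (q := q) (Z := Z₂) (C := C) hc.gr
  have hpp : C.span p p 1 = a • C.diagC S := by
    rw [← cograph_comp_graph, cograph_comp_graph_self hc.pa]
  set e : C.CH (X.prod X) := a⁻¹ • spread C p p π with he
  have hem : e ∈ C.gr (X.prod X) 2 := Submodule.smul_mem _ _ (spread_mem hc.proj.mem)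
  have hee : C.comp e e = e := by
    rw [he, C.smul_comp, C.comp_smul, spread_comp_spread, hpp, C.comp_smul, C.comp_diagC,
      C.smul_comp, hc.proj.idem, C.comp_smul, C.smul_comp, ← spread, smul_smul a⁻¹ a,
      inv_mul_cancel₀ hc.ha, one_smul]
  have heW : C.comp e (spread C p q Z₂) = spread C p q Z₂ := by
    rw [he, C.smul_comp, spread_comp_spread, hpp, C.comp_smul, C.comp_diagC,
      C.smul_comp, hc.comp, C.comp_smul, C.smul_comp, ← spread, smul_smul a⁻¹ a,
      inv_mul_cancel₀ hc.ha, one_smul]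
  have hWe : C.comp (spread C p q Z₂) e = 0 := by
    rw [he, C.comp_smul, spread_comp_spread,
      comp_decomp_comp hc.low' hc.proj.act_gr (span_cover hc.cover), C.comp_zero, C.zero_comp,
      smul_zero]
  apply hc.kills
  intro x hx
  have hpx : C.pull p x ∈ albKer C X := pull_mem_albKer C hx p (by omega)
  have h1 := h X hX hc.mem (e + spread C p q Z₂) (Submodule.add_mem _ hem hm) e hem
    (by rw [C.add_comp, C.comp_add, C.comp_add, hee, heW, hWe, hc.sq]; abel) hee
    (by rw [map_add, cl_spread hc.gr hc.cl, add_zero]) _ hpx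
  rw [C.act_add, LinearMap.add_apply] at h1
  simpa using h1

/-- Bloch's conjecture is equivalent to its special case for correspondences of square zero modulo
decomposable ones. -/
theorem bloch_iff_square (W : WeilTheory.{u, v, w} C) (𝒟 : 𝒱.Obj → Prop)
    (hD : Cofinal C 𝒟) : BlochConj W ↔ BlochSquare W 𝒟 := by
  constructor
  · intro h X hX _ Z hZ h0 _
    exact h X X hX hX Z hZ h0
  · intro h S T hS hT Z hZ h0 x hx
    obtain ⟨X, p, q, hX, hc⟩ := hD S T hS hT
    obtain ⟨a, ha, pa⟩ := hc.fst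
    obtain ⟨b, hb, pb⟩ := hc.snd
    have hXd := hc.dim
    have hm := spread_mem (p := p) (q := q) (Z := Z) (C := C) hZ
    have hgr : C.comp (C.graph p) Z ∈ C.gr (X.prod T) 2 :=
      C.comp_mem (C.graph_mem p) hZ (by omega)
    have h1 : TwoZero W (spread C p q Z) := by
      have hg := (h0.comp_left W (C.graph_mem p))
      exact hg.comp_right W hgr (by rw [hXd, ← hT]; exact C.cograph_mem q)
    have h2 : C.comp (spread C p q Z) (spread C p q Z) ∈ decomp C X X := by
      rw [spread_comp_spread]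
      refine decomp_comp_mem hT (by have := C.cograph_mem q; rwa [hT] at this) ?_
      refine comp_mem_decomp hS (by have := C.graph_mem p; rwa [hS] at this) ?_
      exact decomp_comp_mem hS hZ (comp_mem_decomp hT hZ (span_cover hc))
    have h3 := h X hXd hX _ hm h1 h2 _ (pull_mem_albKer C hx p (by omega))
    rw [act_spread, push_pull_of pa, map_smul, map_smul] at h3
    have h4 := (smul_eq_zero.1 h3).resolve_left ha
    have h5 := push_pull_of pb (C.act Z x)
    rw [h4, map_zero] at h5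
    exact (smul_eq_zero.1 h5.symm).resolve_left hb

/-- **Bloch's conjecture is equivalent to each of its special cases.** -/
theorem bloch_tfae (W : WeilTheory.{u, v, w} C) (𝒟 : 𝒱.Obj → Prop) (hF : SurfaceFacts W 𝒟) :
    List.TFAE [BlochConj W,
      BlochSelf W 𝒟 (fun _ Z => C.transp Z = Z),
      BlochSelf W 𝒟 (fun _ Z => C.transp Z = -Z),
      BlochSelf W 𝒟 (fun _ Z => C.comp Z Z = 0),
      BlochAut W 𝒟,
      BlochIdem W 𝒟] := by
  have key : ∀ R, BlochConj W → BlochSelf W 𝒟 R :=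
    fun R h X hX _ Z hZ hcl _ => blochConj_self h hX hZ hcl
  tfae_have 1 → 2 := key _
  tfae_have 1 → 3 := key _
  tfae_have 1 → 4 := key _
  tfae_have 1 → 5 := by
    intro h X hX _ φ hφ ψ _ _ _ hcl x hx
    have h1 := blochConj_self h hX (Z := φ - C.diagC X)
      (Submodule.sub_mem _ hφ (diagC_mem' hX)) (by rw [map_sub, hcl, sub_self]) x hx
    rw [C.act_sub, LinearMap.sub_apply, sub_eq_zero] at h1
    exact h1
  tfae_have 1 → 6 := by
    intro h X hX _ e he f hf _ _ hcl x hx
    have h1 := blochConj_self h hX (Z := e - f)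
      (Submodule.sub_mem _ he hf) (by rw [map_sub, hcl, sub_self]) x hx
    rw [C.act_sub, LinearMap.sub_apply, sub_eq_zero] at h1
    exact h1
  tfae_have 2 → 1 := blochConj_of_symm hF
  tfae_have 3 → 1 := blochConj_of_anti hF
  tfae_have 4 → 1 := blochConj_of_sq hF
  tfae_have 5 → 1 := blochConj_of_aut hF
  tfae_have 6 → 1 := blochConj_of_idem hF
  tfae_finish

end Pool.Agent.R898
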