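import Pool.Agent.R898.MBS

/-!
# Varieties without odd cohomology and symmetric cycles: the definitions used in the statement
-/

open CategoryTheory CategoryTheory.Limits AlgebraicGeometry
open Pool.Agent.H914 Pool.Agent.H914.VarClass Pool.Agent.H914.VarClass.Obj
open Pool.Agent.R903 Pool.Agent.R898.HL Pool.Agent.R898.MB

universe u v w

namespace Pool.Agent.R898.EV

section Alg

variable {A : Type v} [CommRing A] [Algebra ℚ A] {B : Type v} [CommRing B] [Algebra ℚ B]
  {D : Type v} [CommRing D] [Algebra ℚ D]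
  {K : Type w} [Field K] {V : Type w} [AddCommGroup V] [Module K V]

/-- The element `p(a) · q(b)`. -/
def mul2 (p : A →ₐ[ℚ] D) (q : B →ₐ[ℚ] D) (a : A) (b : B) : D := p a * q b

/-- `T` acts on `gr j` as multiplication by `(-1)^j`, for all `j`. -/
def ActsBySign (gr : ℕ → Submodule K V) (T : V →ₗ[K] V) : Prop :=
  ∀ j, ∀ a ∈ gr j, T a = (-1 : K) ^ j • a

/-- The elements `x` of `U` with `T x = x` are zero. -/
def NoFixed (T : A →ₗ[ℚ] A) (U : Submodule ℚ A) : Prop := ∀ x ∈ U, T x = x → x = 0

/-- `c(x, y) = 0` for all `x` in `U` and `y` in `V`. -/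
def BiZero (c : A → B → D) (U : Submodule ℚ A) (V : Submodule ℚ B) : Prop :=
  ∀ x ∈ U, ∀ y ∈ V, c x y = 0

/-- `x y = 0` for all `x` in `U` and `y` in `V`. -/
def MulZero (U V : Submodule ℚ A) : Prop := BiZero (fun x y => x * y) U V

end Alg

variable {k : Type u} [Field k] {𝒱 : VarClass k} {C : ChowTheory.{u, v} 𝒱}
  (W : WeilTheory.{u, v, w} C)

/-- The product `f × g` of two morphisms. -/
noncomputable def pmap {X X' Y Y' : 𝒱.Obj} (f : X ⟶ X') (g : Y ⟶ Y') : X.prod Y ⟶ X'.prod Y' :=
  lift (fst X Y ≫ f) (snd X Y ≫ g)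

/-- The external product `α ⊗ β`, a correspondence from `X × Y` to `X' × Y'`. -/
noncomputable def tens (C : ChowTheory.{u, v} 𝒱) {X X' Y Y' : 𝒱.Obj} (α : C.CH (X.prod X'))
    (β : C.CH (Y.prod Y')) : C.CH ((X.prod Y).prod (X'.prod Y')) :=
  mul2 (C.pull (pmap (fst X Y) (fst X' Y'))) (C.pull (pmap (snd X Y) (snd X' Y'))) α β

/-- `H^j(X) = 0` for all odd `j`. -/
def NoOdd (X : 𝒱.Obj) : Prop := ∀ j, W.gr X (2 * j + 1) = ⊥

/-- `ι` is a *parity involution* of `A`, for example the graph of the multiplication by `-1` of an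
abelian variety: a symmetric correspondence in `CH^(dim A)(A × A)` with square the diagonal, acting
on `H^j(A)` as `(-1)^j`. -/
structure IsParity (A : 𝒱.Obj) (ι : C.CH (A.prod A)) : Prop where
  mem : Codim C A.dim ι
  inv : cp C ι ι = C.diagC A
  symm : C.pull (lift (snd A A) (fst A A)) ι = ι
  sign : ActsBySign (W.gr A) (W.act ι)

/-- There is a variety `K` without odd cohomology, of the dimension of `A`, such that the
correspondence `Δ + ι` is the composition of two correspondences of degree zero `A ⊢ K ⊢ A`. For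
abelian varieties this holds for the Kummer variety `K`: the quotient of the blow-up of `A` in the
points of order two by the involution `-1`. -/
def HasKummer (A : 𝒱.Obj) (ι : C.CH (A.prod A)) : Prop :=
  ∃ (K : 𝒱.Obj) (α : C.CH (A.prod K)) (β : C.CH (K.prod A)),
    NoOdd W K ∧ K.dim = A.dim ∧ Codim C A.dim α ∧ Codim C A.dim β ∧ cp C α β = C.diagC A + ι

/-- The motive of `X` is a direct summand of a Tate twist of the motive of `A`. -/
def IsSummandOf (C : ChowTheory.{u, v} 𝒱) (X A : 𝒱.Obj) : Prop :=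
  ∃ (a b : ℕ) (α : C.CH (X.prod A)) (β : C.CH (A.prod X)),
    a + b = X.dim + A.dim ∧ Codim C a α ∧ Codim C b β ∧ cp C α β = C.diagC X

/-- A class of varieties with parity involutions, closed under products, such that all varieties are
summands of varieties of the class: for example the abelian varieties, for the class `𝒱` of the
varieties whose motive is a summand of a twist of the motive of an abelian variety. -/
structure IsKummerClass (S : ∀ A : 𝒱.Obj, C.CH (A.prod A) → Prop) : Prop where
  parity : ∀ A ι, S A ι → IsParity W A ι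
  kummer : ∀ A ι, S A ι → HasKummer W A ι
  nilp : ∀ A ι, S A ι → NilpCorr W A
  prod : ∀ A B ι κ, S A ι → S B κ → S (A.prod B) (tens C ι κ)
  summand : ∀ X : 𝒱.Obj, ∃ (A : 𝒱.Obj) (ι : C.CH (A.prod A)), S A ι ∧ IsSummandOf C X A

/-- Question 1 for the variety `X` and the codimension `m`, if `X` has no odd cohomology. -/
def NoHom (X : 𝒱.Obj) (m : ℕ) : Prop := homTriv W X m = ⊥

/-- The homologically trivial correspondences in `CH^(dim A)(A × A)` which commute with `ι` are
zero. -/
def NoHomCommuting (A : 𝒱.Obj) (ι : C.CH (A.prod A)) : Prop :=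
  ∀ γ : C.CH (A.prod A), γ ∈ homTriv W (A.prod A) A.dim → cp C γ ι = cp C ι γ → γ = 0

/-- The composition of homologically trivial correspondences `X ⊢ Y` and `Y ⊢ Z` is zero. -/
def CompZero (X Y Z : 𝒱.Obj) : Prop :=
  ∀ a b : ℕ, BiZero (cp C) (homTriv W (X.prod Y) a) (homTriv W (Y.prod Z) b)

end Pool.Agent.R898.EV
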