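import Pool.Agent.R898.NS

/-!
# Composition with decomposable correspondences, transposes
-/

open CategoryTheory CategoryTheory.Limits AlgebraicGeometry
open Pool.Agent.H914 Pool.Agent.H914.VarClass Pool.Agent.H914.VarClass.Obj
open Pool.Agent.R903

universe u v w

namespace Pool.Agent.R898

variable {k : Type u} [Field k] {𝒱 : VarClass k} (C : ChowTheory.{u, v} 𝒱)
  {X Y Z S T P : 𝒱.Obj}

lemma comp_ext (x : C.CH X) (y : C.CH Y) (β : C.CH (Y.prod Z)) :
    C.comp (C.ext x y) β = C.ext x (C.act β y) := by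
  rw [ChowTheory.comp, ChowTheory.ext, ChowTheory.ext, C.act_apply, C.bc2, ← C.mul_push,
    C.pull_mul, C.pull_mul, ← C.pull_comp, ← C.pull_comp, ← C.pull_comp, ← C.pull_comp, p12_fst,
    p12_snd, p13_fst]
  congr 1
  ring

lemma transp_transp (γ : C.CH (X.prod Y)) : C.transp (C.transp γ) = γ := by
  rw [ChowTheory.transp, ChowTheory.transp, ← C.pull_comp]
  have : swap X Y ≫ swap Y X = 𝟙 _ := by apply hom_ext_prod <;> simp
  rw [this, C.pull_id]

lemma transp_ext (x : C.CH X) (y : C.CH Y) : C.transp (C.ext x y) = C.ext y x := by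
  rw [ChowTheory.transp, ChowTheory.ext, ChowTheory.ext, C.pull_mul, ← C.pull_comp, ← C.pull_comp,
    swap_fst, swap_snd, mul_comm]

lemma ext_comp (α : C.CH (X.prod Y)) (y : C.CH Y) (z : C.CH Z) :
    C.comp α (C.ext y z) = C.ext (C.act (C.transp α) y) z := by
  have h : C.comp (C.transp (C.ext y z)) (C.transp α) = C.transp (C.comp α (C.ext y z)) :=
    C.comp_transp α (C.ext y z)
  rw [transp_ext, comp_ext] at h
  have h2 := congrArg C.transp h
  rw [transp_transp, transp_ext] at h2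
  exact h2.symm

lemma transp_span (a : P ⟶ X) (b : P ⟶ Y) (ω : C.CH P) :
    C.transp (C.span a b ω) = C.span b a ω := by
  apply C.push_injective (swap Y X)
  rw [ChowTheory.transp, C.push_pull_iso, ChowTheory.span, ChowTheory.span, ← C.push_comp]
  congr 1
  have : lift b a ≫ swap Y X = lift a b := by apply hom_ext_prod <;> simp
  rw [this]

lemma transp_add (γ δ : C.CH (X.prod Y)) : C.transp (γ + δ) = C.transp γ + C.transp δ := by
  simp [ChowTheory.transp]

lemma transp_sub (γ δ : C.CH (X.prod Y)) : C.transp (γ - δ) = C.transp γ - C.transp δ := by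
  simp [ChowTheory.transp]

lemma transp_neg (γ : C.CH (X.prod Y)) : C.transp (-γ) = -C.transp γ := by
  simp [ChowTheory.transp]

lemma transp_smul (q : ℚ) (γ : C.CH (X.prod Y)) : C.transp (q • γ) = q • C.transp γ := by
  simp [ChowTheory.transp]

lemma transp_graph (f : X ⟶ Y) : C.transp (C.graph f) = C.cograph f :=
  transp_span C _ _ _

lemma transp_cograph (f : X ⟶ Y) : C.transp (C.cograph f) = C.graph f :=
  transp_span C _ _ _

lemma comp_graph (γ : C.CH (Y.prod P)) (p : P ⟶ X) :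
    C.comp γ (C.graph p) = C.push (prodMap (𝟙 Y) p) γ := by
  have h1 : C.pull (snd Y (P.prod X)) (C.push (lift (𝟙 P) p) 1) =
      C.push (lift (fst Y P) (snd Y P ≫ lift (𝟙 P) p)) (C.pull (snd Y P) 1) := by
    refine C.base_change (T := Y) (lift (𝟙 P) p) (lift (fst Y P) (snd Y P ≫ lift (𝟙 P) p))
      (snd Y P) (snd Y (P.prod X)) (fst Y _) ?_ isIso_swap ?_ 1
    · simp
    · rw [lift_fst]; exact isIso_swap
  rw [ChowTheory.comp, ChowTheory.graph, ChowTheory.span, h1, ← C.mul_push, ← C.push_comp,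
    ← C.pull_comp, map_one, mul_one]
  have e1 : lift (fst Y P) (snd Y P ≫ lift (𝟙 P) p) ≫ p13 Y P X = prodMap (𝟙 Y) p := by
    apply hom_ext_prod <;> simp
  have e2 : lift (fst Y P) (snd Y P ≫ lift (𝟙 P) p) ≫ p12 Y P X = 𝟙 _ := by
    apply hom_ext_prod <;> simp
  rw [e1, e2, C.pull_id]

/-- The composition of the transposed graph of `q` and of the graph of `p`. -/
lemma cograph_comp_graph (p : P ⟶ X) (q : P ⟶ Y) :
    C.comp (C.cograph q) (C.graph p) = C.span q p 1 := by
  rw [comp_graph, ChowTheory.cograph, ChowTheory.span, ChowTheory.span, ← C.push_comp]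
  congr 1
  have : lift q (𝟙 P) ≫ prodMap (𝟙 Y) p = lift q p := by apply hom_ext_prod <;> simp
  rw [this]

variable {C} (W : WeilTheory.{u, v, w} C)

lemma cl_comp_left {α : C.CH (X.prod Y)} {β : C.CH (Y.prod Z)} {q : ℕ}
    (hβ : β ∈ C.gr (Y.prod Z) q) (h : W.cl _ α = 0) : W.cl _ (C.comp α β) = 0 := by
  apply cl_eq_zero_of_act
  ext a
  rw [W.act_comp _ hβ, act_eq_zero_of_cl W h, LinearMap.zero_apply, map_zero, LinearMap.zero_apply]

lemma cl_comp_right {α : C.CH (X.prod Y)} {β : C.CH (Y.prod Z)} {q : ℕ}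
    (hβ : β ∈ C.gr (Y.prod Z) q) (h : W.cl _ β = 0) : W.cl _ (C.comp α β) = 0 := by
  apply cl_eq_zero_of_act
  ext a
  rw [W.act_comp _ hβ, act_eq_zero_of_cl W h, LinearMap.zero_apply, LinearMap.zero_apply]

lemma cl_transp {γ : C.CH (X.prod Y)} (h : W.cl _ γ = 0) : W.cl _ (C.transp γ) = 0 := by
  rw [ChowTheory.transp, W.cl_pull, h, map_zero]

end Pool.Agent.R898
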