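import Pool.Agent.R898.FStmt
import Pool.Agent.R898.Ext
import Pool.Agent.R903.AlgCK

/-!
# The vanishing of `CH^m(M)_hom` for motives with `H^(2m-1)(M) = 0` and the two-step filtration
-/

open CategoryTheory CategoryTheory.Limits AlgebraicGeometry Polynomial
open Pool.Agent.H914 Pool.Agent.H914.VarClass Pool.Agent.H914.VarClass.Obj
open Pool.Agent.R903

universe u v w

namespace Pool.Agent.R898

open F

variable {k : Type u} [Field k] {𝒱 : VarClass k} {C : ChowTheory.{u, v} 𝒱}
  {W : WeilTheory.{u, v, w} C} {X Y Z : 𝒱.Obj}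

/-- correspondences which vanish on `H^(2m-1)` kill the homologically trivial classes -/
def TwoStep (W : WeilTheory.{u, v, w} C) : Prop :=
  ∀ (X Y : 𝒱.Obj) (c : ℕ) (γ : C.CH (X.prod Y)) (m : ℕ), γ ∈ C.gr (X.prod Y) c →
    (∀ a ∈ W.gr X (2 * m + 1), W.act γ a = 0) → ∀ x ∈ homTriv W X (m + 1), C.act γ x = 0

lemma mem_homTriv {m : ℕ} {x : C.CH X} : x ∈ homTriv W X m ↔ x ∈ C.gr X m ∧ W.cl X x = 0 := Iff.rfl

lemma one_ne_zero_of_polarized (W : WeilTheory.{u, v, w} C) (hP : C.Polarized) (X : 𝒱.Obj) :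
    (1 : W.H X) ≠ 0 := by
  intro h
  obtain ⟨D, _, hD⟩ := hP X
  have h1 : W.tr X (W.cl X (D ^ X.dim)) = (C.deg X (D ^ X.dim) : W.K) := W.tr_cl _
  have h2 : W.cl X (D ^ X.dim) = 0 := by
    rw [← mul_one (W.cl X (D ^ X.dim)), h, mul_zero]
  rw [h2, map_zero] at h1
  exact hD (by exact_mod_cast h1.symm)

lemma homTriv_zero (hP : C.Polarized) {x : C.CH X} (hx : x ∈ homTriv W X 0) : x = 0 := by
  obtain ⟨hx, hcl⟩ := hx
  obtain ⟨q, rfl⟩ := ChowTheory.gr_zero hx
  rw [W.cl_smul, map_one] at hcl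
  rcases smul_eq_zero.1 hcl with h | h
  · have : q = 0 := by exact_mod_cast h
    rw [this, zero_smul]
  · exact absurd h (one_ne_zero_of_polarized W hP X)

lemma exists_degree (hK : W.Kunneth) (X : 𝒱.Obj) : ∃ d, W.IsDegree X d := by
  choose π hπ1 hπ2 using hK X
  refine ⟨∑ l ∈ Finset.range (2 * X.dim + 1), (l : ℚ) • π l,
    Submodule.sum_mem _ (fun l _ => Submodule.smul_mem _ _ (hπ1 l)), fun j a ha => ?_⟩
  rw [W.act_sum, LinearMap.sum_apply]
  by_cases hj : 2 * X.dim < j
  · rw [W.gr_eq_bot X j hj] at ha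
    rw [(Submodule.mem_bot _).1 ha]
    simp
  · have : ∀ l ∈ Finset.range (2 * X.dim + 1), W.act ((l : ℚ) • π l) a =
        if j = l then (l : W.K) • a else 0 := by
      intro l _
      rw [W.act_smul, LinearMap.smul_apply, hπ2 l j a ha, Rat.cast_natCast]
      split_ifs <;> simp
    rw [Finset.sum_congr rfl this, Finset.sum_ite_eq, if_pos (Finset.mem_range.2 (by omega))]

lemma of_pw (γ : C.CH (X.prod X)) (i : ℕ) : CorrRing.of C X (pw C γ i) =
    (CorrRing.of C X γ) ^ (i + 1) := by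
  induction i with
  | zero => rw [pow_one]; rfl
  | succ i ih =>
    rw [pow_succ', ← ih]
    rfl

/-- an element whose powers span a finite-dimensional space is algebraic -/
lemma exists_poly {γ : C.CH (X.prod X)} (h : FinDim (spanA (pw C γ))) :
    ∃ Q : ℚ[X], Q ≠ 0 ∧ aeval (CorrRing.of C X γ) Q = 0 := by
  classical
  set V : Submodule ℚ (C.CH (X.prod X)) := spanA (pw C γ) with hV
  have : Module.Finite ℚ V := h
  set f : ℕ → V := fun i => ⟨pw C γ i, Submodule.subset_span ⟨i, rfl⟩⟩ with hf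
  have hnl : ¬ LinearIndependent ℚ f := by
    intro hl
    have := hl.finite
    exact not_finite ℕ
  rw [linearIndependent_iff'] at hnl
  push Not at hnl
  obtain ⟨s, g, hg, i, hi, hgi⟩ := hnl
  refine ⟨∑ j ∈ s, Polynomial.C (g j) * Polynomial.X ^ (j + 1), ?_, ?_⟩
  · intro h0
    have h1 := congrArg (fun p : ℚ[X] => p.coeff (i + 1)) h0
    simp only [finsetSum_coeff, coeff_C_mul, coeff_X_pow, coeff_zero] at h1
    rw [Finset.sum_eq_single i] at h1
    · simp at h1; exact hgi h1
    · intro j _ hj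
      rw [if_neg (by omega), mul_zero]
    · intro h2; exact absurd hi h2
  · have h1 : ∑ j ∈ s, g j • pw C γ j = 0 := by
      have := congrArg (Subtype.val : V → _) hg
      simpa [hf] using this
    have h2 := congrArg (CorrRing.of C X) h1
    rw [map_sum, map_zero] at h2
    rw [map_sum, ← h2]
    refine Finset.sum_congr rfl fun j _ => ?_
    rw [map_mul, aeval_C, map_pow, aeval_X, map_smul, of_pw, Algebra.smul_def]

/-- finiteness gives Chow–Künneth decompositions -/
lemma hasCK_of_algebraic (hK : W.Kunneth) (hA : Algebraic W) (X : 𝒱.Obj) : W.HasCK X := by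
  classical
  obtain ⟨d, hd⟩ := exists_degree hK X
  set P : ℚ[X] := ∏ j ∈ Finset.range (2 * X.dim + 1), (Polynomial.X - Polynomial.C (j : ℚ)) with hPd
  set γ : C.CH (X.prod X) := (CorrRing.of C X).symm (aeval (CorrRing.of C X d) P) with hγ
  have hγm : γ ∈ C.gr (X.prod X) X.dim := C.aeval_mem_gr hd.1 P
  have hγ0 : W.act γ = 0 := by
    ext a
    rw [LinearMap.zero_apply]
    refine gr_induction (W.isInternal X) (p := fun a => W.act γ a = 0) ?_ ?_ a
    · intro j a ha
      by_cases hj : 2 * X.dim < j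
      · rw [W.gr_eq_bot X j hj] at ha
        rw [(Submodule.mem_bot _).1 ha, map_zero]
      · have h1 : W.act d a = (((j : ℕ) : ℚ) : W.K) • a := by
          rw [hd.2 j a ha, Rat.cast_natCast]
        have h2 := WeilTheory.act_aeval hd.1 h1 P
        rw [← hγ] at h2
        rw [h2]
        have h3 : P.eval ((j : ℕ) : ℚ) = 0 := by
          rw [hPd, eval_prod]
          exact Finset.prod_eq_zero (Finset.mem_range.2 (by omega : j < 2 * X.dim + 1)) (by simp)
        rw [h3, Rat.cast_zero, zero_smul]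
    · intro a b ha hb
      rw [map_add, ha, hb, add_zero]
  obtain ⟨Q, hQ, hQ0⟩ := exists_poly (hA X γ ⟨hγm, cl_eq_zero_of_act W hγ0⟩)
  refine WeilTheory.exists_CK_of_algebraic hd (Q := Q.comp P) ?_ ?_
  · intro h0
    rw [comp_eq_zero_iff] at h0
    rcases h0 with h0 | ⟨_, h0⟩
    · exact hQ h0
    · have h1 : P.natDegree = 2 * X.dim + 1 := by
        rw [hPd, natDegree_prod _ _ (fun j _ => X_sub_C_ne_zero _),
          Finset.sum_congr rfl (fun j _ => natDegree_X_sub_C _)]
        simp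
      rw [h0, natDegree_C] at h1
      omega
  · rw [aeval_comp]
    exact hQ0

lemma gr_inter {i j : ℕ} (hij : i ≠ j) {a : W.H X} (h1 : a ∈ W.gr X i) (h2 : a ∈ W.gr X j) :
    a = 0 := by
  have h := (W.isInternal X).submodule_iSupIndep.pairwiseDisjoint hij
  exact Submodule.disjoint_def.1 h a h1 h2

/-- the product of a transposed projector and a projector moves everything to one degree -/
lemma act_tensor_memH {π : ℕ → C.CH (X.prod X)} {ρ : ℕ → C.CH (Y.prod Y)} (hπ : W.IsCK X π)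
    (hρ : W.IsCK Y ρ) {j j' : ℕ} (hj : j ≤ 2 * X.dim) (z : W.H (X.prod Y)) :
    W.act (C.tensor (C.transp (π j)) (ρ j')) z ∈ W.gr (X.prod Y) (2 * X.dim - j + j') := by
  refine W.kunneth_induction (p := fun z => W.act (C.tensor (C.transp (π j)) (ρ j')) z ∈
    W.gr (X.prod Y) (2 * X.dim - j + j')) ?_ ?_ z
  · intro a b ha hb
    rw [map_add]; exact Submodule.add_mem _ ha hb
  · intro l l' a ha b hb
    have h1 : W.act (C.transp (π j)) a = if l = 2 * X.dim - j then a else 0 := by
      have h2 := hπ.transp.proj (2 * X.dim - j) l a ha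
      rw [WeilTheory.transCK, if_pos (by omega)] at h2
      have h3 : 2 * X.dim - (2 * X.dim - j) = j := by omega
      rwa [h3] at h2
    have h4 : W.act (ρ j') b = if l' = j' then b else 0 := hρ.proj j' l' b hb
    rw [WeilTheory.act_tensor_prod (hρ.mem j') (p := l) (by
      rw [h1]; split_ifs
      · exact ha
      · exact Submodule.zero_mem _), h1, h4]
    by_cases h5 : l = 2 * X.dim - j
    · by_cases h6 : l' = j'
      · rw [if_pos h5, if_pos h6, ← h5, ← h6]
        exact W.mul_mem (W.map_mem _ ha) (W.map_mem _ hb)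
      · rw [if_neg h6, map_zero, mul_zero]; exact Submodule.zero_mem _
    · rw [if_neg h5, map_zero, zero_mul]; exact Submodule.zero_mem _

/-- only one component of a decomposition acts on the homologically trivial classes -/
lemma act_of_vanishing (hV : Vanishing W) {π : ℕ → C.CH (X.prod X)} (hπ : W.IsCK X π) {m : ℕ}
    {x : C.CH X} (hx : x ∈ homTriv W X (m + 1)) : C.act (π (2 * m + 1)) x = x := by
  have h0 : ∀ a, a ≠ 2 * m + 1 → C.act (π a) x = 0 := by
    intro a ha
    refine hV X (π a) m ⟨hπ.mem a, hπ.idem a⟩ ?_ x hx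
    intro b hb
    rw [hπ.proj a _ b hb, if_neg (Ne.symm ha)]
  have h1 := hπ.sum_act x
  rw [Finset.sum_eq_single (2 * m + 1)] at h1
  · exact h1
  · intro b _ hb; exact h0 b hb
  · intro hb
    rw [Finset.mem_range] at hb
    rw [hπ.eq_zero (by omega), C.act_zero, LinearMap.zero_apply]

theorem twoStep_of_vanishing (hP : C.Polarized) (hCK : ∀ X : 𝒱.Obj, W.HasCK X)
    (hV : Vanishing W) : TwoStep W := by
  intro X Y c γ m hγ h0 x hx
  obtain ⟨π, hπ⟩ := hCK X
  obtain ⟨ρ, hρ⟩ := hCK Y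
  have hcl : W.cl Y (C.act γ x) = 0 := by rw [W.cl_act, hx.2, map_zero]
  rcases lt_trichotomy (m + 1 + c) X.dim with h | h | h
  · exact C.act_eq_zero hγ hx.1 h
  · exact homTriv_zero (W := W) hP ⟨C.act_mem hγ hx.1 (j := 0) (by omega), hcl⟩
  obtain ⟨n, hn⟩ : ∃ n, m + 1 + c = n + 1 + X.dim := ⟨m + c - X.dim, by omega⟩
  have hy : C.act γ x ∈ homTriv W Y (n + 1) := ⟨C.act_mem hγ hx.1 hn, hcl⟩
  by_cases hj : 2 * X.dim < 2 * m + 1
  · have h1 := act_of_vanishing hV hπ hx
    rw [hπ.eq_zero hj, C.act_zero, LinearMap.zero_apply] at h1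
    rw [← h1, map_zero]
  push Not at hj
  set δ := C.comp (C.comp (π (2 * m + 1)) γ) (ρ (2 * n + 1)) with hδ
  have hδm : δ ∈ C.gr (X.prod Y) c :=
    C.comp_mem (C.comp_mem (hπ.mem _) hγ (r := c) (by omega)) (hρ.mem _) rfl
  have hδx : C.act δ x = C.act γ x := by
    rw [hδ, C.act_comp, C.act_comp, act_of_vanishing hV hπ hx, act_of_vanishing hV hρ hy]
  have hδ0 : W.act δ = 0 := by
    ext a
    rw [LinearMap.zero_apply]
    refine gr_induction (W.isInternal X) (p := fun a => W.act δ a = 0) ?_ ?_ a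
    · intro l a ha
      rw [hδ, W.act_comp _ (hρ.mem _), W.act_comp _ hγ, hπ.proj _ l a ha]
      split_ifs with hl
      · rw [h0 a (hl ▸ ha), map_zero]
      · rw [map_zero, map_zero]
    · intro a b ha hb
      rw [map_add, ha, hb, add_zero]
  have hδt : δ ∈ homTriv W (X.prod Y) c := ⟨hδm, cl_eq_zero_of_act W hδ0⟩
  have hδz : δ = 0 := by
    rcases Nat.eq_zero_or_pos c with hc | hc
    · rw [hc] at hδt
      exact homTriv_zero hP hδt
    obtain ⟨c', rfl⟩ : ∃ c', c = c' + 1 := ⟨c - 1, by omega⟩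
    set p := C.tensor (C.transp (π (2 * m + 1))) (ρ (2 * n + 1)) with hp
    have hpm : p ∈ C.gr _ (X.prod Y).dim := C.tensor_mem (C.transp_mem (hπ.mem _)) (hρ.mem _)
    have hpp : C.comp p p = p := by
      rw [hp, C.comp_tensor, C.comp_transp, hπ.idem, hρ.idem]
    have h1 := hV (X.prod Y) p c' ⟨hpm, hpp⟩ ?_ δ hδt
    · rw [hp, C.act_tensor, hδ] at h1
      rw [hδ]
      have h2 : C.comp (C.comp (π (2 * m + 1)) (C.comp (C.comp (π (2 * m + 1)) γ)
          (ρ (2 * n + 1)))) (ρ (2 * n + 1)) =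
          C.comp (C.comp (π (2 * m + 1)) γ) (ρ (2 * n + 1)) := by
        rw [← C.comp_assoc (π (2 * m + 1)), ← C.comp_assoc (π (2 * m + 1)), hπ.idem,
          C.comp_assoc, hρ.idem]
      rw [h2] at h1
      exact h1
    · intro z hz
      have h2 := act_tensor_memH hπ hρ (j' := 2 * n + 1) hj z
      have h3 := act_memH W hpm hz (j := 2 * c' + 1) rfl
      exact gr_inter (by omega) h2 h3
  rw [← hδx, hδz, C.act_zero, LinearMap.zero_apply]

/-- the filtration -/
def fil2 (W : WeilTheory.{u, v, w} C) (X : 𝒱.Obj) (j : ℕ) : ℕ → Submodule ℚ (C.CH X)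
  | 0 => C.gr X j
  | 1 => homTriv W X j
  | _ + 2 => ⊥

theorem isBB_of_twoStep (hP : C.Polarized) (h : TwoStep W) : IsBB W (fil2 W) where
  descends X j :=
    { antitone := by
        rintro (_ | _ | k)
        · exact fun x hx => hx.1
        · exact bot_le
        · exact bot_le
      zero := rfl
      one := rfl
      two := rfl
      bot := by
        rcases j with _ | j
        · rw [eq_bot_iff]
          intro x hx
          rw [Submodule.mem_bot]
          exact homTriv_zero hP hx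
        · rfl }
  compat X Y i j l Γ hl hΓ :=
    { sends := by
        rintro (_ | _ | k) x hx
        · exact C.act_mem hΓ hx hl
        · exact ⟨C.act_mem hΓ hx.1 hl, by rw [W.cl_act, hx.2, map_zero]⟩
        · rw [(Submodule.mem_bot _).1 hx, map_zero]; exact Submodule.zero_mem _
      raises := by
        rintro (_ | _ | k) m hm h0 x hx
        · refine ⟨C.act_mem hΓ hx hl, ?_⟩
          rw [W.cl_act]
          apply h0
          rw [add_zero] at hm
          rw [hm]
          exact W.cl_mem hx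
        · obtain ⟨j', rfl⟩ : ∃ j', j = j' + 1 := ⟨j - 1, by omega⟩
          have hm' : m = 2 * j' + 1 := by omega
          subst hm'
          have h1 : C.act Γ x = 0 := h X Y l Γ j' hΓ h0 x hx
          rw [h1]; exact Submodule.zero_mem _
        · rw [(Submodule.mem_bot _).1 hx, map_zero]; exact Submodule.zero_mem _ }

theorem twoStep_of_isBB {F : ∀ X : 𝒱.Obj, ℕ → ℕ → Submodule ℚ (C.CH X)} (hF : IsBB W F) :
    TwoStep W := by
  intro X Y c γ m hγ h0 x hx
  by_cases h : m + 1 + c < X.dim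
  · exact C.act_eq_zero hγ hx.1 h
  obtain ⟨i, hi⟩ : ∃ i, m + 1 + c = i + X.dim := ⟨m + 1 + c - X.dim, by omega⟩
  have h1 := (hF.compat X Y i (m + 1) c γ hi hγ).raises 1 (2 * m + 1) (by omega) h0 x
    (by rw [(hF.descends X (m + 1)).one]; exact hx)
  rw [(hF.descends Y i).two, Submodule.mem_bot] at h1
  exact h1

lemma act_opL_null {γ : C.CH (X.prod X)} (h : W.cl _ γ = 0) : W.act (C.opL X γ) = 0 := by
  apply act_eq_zero_of_cl W
  rw [ChowTheory.opL, ChowTheory.span, W.cl_push, W.cl_pull, h, map_zero, map_zero]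

theorem TwoStep.sq (hP : C.Polarized) (h : TwoStep W) {γ : C.CH (X.prod X)}
    (hγ : γ ∈ homTriv W (X.prod X) X.dim) : C.comp γ γ = 0 := by
  rcases Nat.eq_zero_or_pos X.dim with hd | hd
  · rw [hd] at hγ
    rw [homTriv_zero hP hγ, C.comp_zero]
  obtain ⟨m, hm⟩ : ∃ m, X.dim = m + 1 := ⟨X.dim - 1, by omega⟩
  rw [← C.act_opL]
  rw [hm] at hγ
  refine h _ _ _ (C.opL X γ) m (C.opL_mem (by rw [hm]; exact hγ.1)) ?_ γ hγ
  intro a _
  rw [act_opL_null hγ.2, LinearMap.zero_apply]

theorem TwoStep.algebraic (hP : C.Polarized) (h : TwoStep W) : Algebraic W := by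
  intro X γ hγ
  have h1 : Set.range (pw C γ) ⊆ {γ, 0} := by
    rintro _ ⟨i, rfl⟩
    induction i with
    | zero => exact Or.inl rfl
    | succ i ih =>
      right
      change C.comp (pw C γ i) γ = 0
      rcases ih with ih | ih
      · rw [ih, h.sq hP hγ]
      · rw [Set.mem_singleton_iff.1 ih, C.zero_comp]
  have h2 : (Set.range (pw C γ)).Finite := (Set.toFinite {γ, 0}).subset h1
  exact Module.Finite.span_of_finite ℚ h2

theorem TwoStep.vanishing (h : TwoStep W) : Vanishing W :=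
  fun X p n hp h0 x hx => h X X X.dim p n hp.1 h0 x hx

lemma pw_mem {γ : C.CH (X.prod X)} (hγ : γ ∈ homTriv W (X.prod X) X.dim) (i : ℕ) :
    pw C γ i ∈ homTriv W (X.prod X) X.dim := by
  induction i with
  | zero => exact hγ
  | succ i ih => exact ⟨C.comp_mem ih.1 hγ.1 rfl, cl_comp_left W hγ.1 ih.2⟩

theorem rank_imp {ord : ∀ X : 𝒱.Obj, Submodule W.K (W.H X) → ℕ → Option ℤ} (h0 : OrdZero W ord)
    (h : RankFormula W ord) : Algebraic W ∧ Vanishing W := by
  constructor
  · intro X γ hγ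
    have : Module.Finite ℚ (homTriv W (X.prod X) X.dim) := h.fin _ _
    refine Submodule.finiteDimensional_of_le (S₂ := homTriv W (X.prod X) X.dim) ?_
    rw [spanA, Submodule.span_le]
    rintro _ ⟨i, rfl⟩
    exact pw_mem hγ i
  · intro X p n hp hz x hx
    have : Module.Finite ℚ (homTriv W X (n + 1)) := h.fin _ _
    have h1 : cohOf W X p (2 * n + 1) = ⊥ := by
      rw [eq_bot_iff]
      rintro _ ⟨a, ha, rfl⟩
      exact (Submodule.mem_bot _).2 (hz a ha)
    have h2 := h.rank X p n 0 hp (by rw [h1]; exact h0 X (n + 1))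
    rw [DimIs] at h2
    have h3 : Module.finrank ℚ (homTrivOf W X p (n + 1)) = 0 := by exact_mod_cast h2
    have : Module.Finite ℚ (homTrivOf W X p (n + 1)) := by
      rw [homTrivOf, imageA]
      infer_instance
    rw [Submodule.finrank_eq_zero] at h3
    have h4 : C.act p x ∈ homTrivOf W X p (n + 1) := ⟨x, hx, rfl⟩
    rw [h3] at h4
    exact (Submodule.mem_bot _).1 h4

theorem TwoStep.noProducts (hP : C.Polarized) (h : TwoStep W) : NoProducts W := by
  intro X i j x hx y hy
  rcases i with _ | m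
  · rw [homTriv_zero hP hx, zero_mul]
  have h1 : C.act (C.span (𝟙 X) (𝟙 X) y) x = x * y := by
    rw [C.act_span, C.push_id, C.pull_id, mul_comm]
  rw [← h1]
  refine h X X (j + X.dim) _ m (C.span_mem _ _ hy.1 (by omega)) ?_ x hx
  intro a _
  have h2 : W.act (C.span (𝟙 X) (𝟙 X) y) = 0 := by
    apply act_eq_zero_of_cl W
    rw [ChowTheory.span, W.cl_push, hy.2, map_zero]
  rw [h2, LinearMap.zero_apply]

theorem TwoStep.determined (h : TwoStep W) : Determined W := by
  intro X Y p q f g m n hfg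
  obtain ⟨⟨hp, hpp⟩, ⟨hq, hqq⟩, ⟨l, hl, hf⟩, ⟨l', hl', hg⟩, hL, hR⟩ := hfg
  change C.comp p p = p at hpp
  change C.comp q q = q at hqq
  change p ∈ C.gr _ _ at hp
  change q ∈ C.gr _ _ at hq
  change f ∈ C.gr _ _ at hf
  change g ∈ C.gr _ _ at hg
  -- the general step
  have key : ∀ (X Y : 𝒱.Obj) (p : C.CH (X.prod X)) (q : C.CH (Y.prod Y)) (f : C.CH (X.prod Y))
      (g : C.CH (Y.prod X)) (l l' m n : ℕ), m + l = n + X.dim → n + l' = m + Y.dim →
      p ∈ C.gr _ X.dim → q ∈ C.gr _ Y.dim → f ∈ C.gr _ l → g ∈ C.gr _ l' → C.comp p p = p →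
      IdOn (W.act (C.comp (C.comp f q) g)) (W.act p) (W.gr X (2 * m + 1)) →
      ∀ x ∈ homTriv W X (m + 1), C.act g (C.act q (C.act f (C.act p x))) = C.act p x := by
    intro X Y p q f g l l' m n hl hl' hp hq hf hg hpp hI x hx
    have h1 : C.comp (C.comp f q) g ∈ C.gr (X.prod X) X.dim :=
      C.comp_mem (C.comp_mem hf hq (r := l) rfl) hg (by omega)
    have h2 := h X X X.dim (C.comp p (C.comp (C.comp f q) g) - p) m
      (Submodule.sub_mem _ (C.comp_mem hp h1 rfl) hp) (fun a ha => by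
        rw [W.act_sub, LinearMap.sub_apply, W.act_comp _ h1, hI a ha, sub_self]) x hx
    rw [C.act_sub, LinearMap.sub_apply, sub_eq_zero, C.act_comp, C.act_comp, C.act_comp] at h2
    exact h2
  have k1 := key X Y p q f g l l' m n hl hl' hp hq hf hg hpp hL
  have k2 := key Y X q p g f l' l n m hl' hl hq hp hg hf hqq hR
  have m1 : ∀ x ∈ homTriv W X (m + 1), C.act f x ∈ homTriv W Y (n + 1) := fun x hx =>
    ⟨C.act_mem hf hx.1 (by omega), by rw [W.cl_act, hx.2, map_zero]⟩
  have m2 : ∀ x ∈ homTriv W Y (n + 1), C.act g x ∈ homTriv W X (m + 1) := fun x hx =>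
    ⟨C.act_mem hg hx.1 (by omega), by rw [W.cl_act, hx.2, map_zero]⟩
  have mp : ∀ x ∈ homTriv W X (m + 1), C.act p x ∈ homTriv W X (m + 1) := fun x hx =>
    ⟨C.act_mem hp hx.1 (by omega), by rw [W.cl_act, hx.2, map_zero]⟩
  have mq : ∀ x ∈ homTriv W Y (n + 1), C.act q x ∈ homTriv W Y (n + 1) := fun x hx =>
    ⟨C.act_mem hq hx.1 (by omega), by rw [W.cl_act, hx.2, map_zero]⟩
  have ap : ∀ x, C.act p (C.act p x) = C.act p x := fun x => by rw [← C.act_comp, hpp]
  have aq : ∀ x, C.act q (C.act q x) = C.act q x := fun x => by rw [← C.act_comp, hqq]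
  refine ⟨LinearEquiv.ofLinearMap
    (((C.act q ∘ₗ C.act f).comp (Submodule.subtype _)).codRestrict _ ?_)
    (((C.act p ∘ₗ C.act g).comp (Submodule.subtype _)).codRestrict _ ?_) ?_ ?_⟩
  · rintro ⟨_, x, hx, rfl⟩
    exact ⟨C.act f (C.act p x), m1 _ (mp x hx), rfl⟩
  · rintro ⟨_, x, hx, rfl⟩
    exact ⟨C.act g (C.act q x), m2 _ (mq x hx), rfl⟩
  · ext ⟨_, x, hx, rfl⟩
    change C.act q (C.act f (C.act p (C.act g (C.act q x)))) = C.act q x
    rw [k2 x hx, aq]
  · ext ⟨_, x, hx, rfl⟩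
    change C.act p (C.act g (C.act q (C.act f (C.act p x)))) = C.act p x
    rw [k1 x hx, ap]

end Pool.Agent.R898
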