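import Pool.Agent.R903.Corr

/-!
# The rank formula for motives and correspondences which vanish on `H^(2m-1)`: the definitions used
# in the statement
-/

open CategoryTheory CategoryTheory.Limits AlgebraicGeometry
open Pool.Agent.H914 Pool.Agent.H914.VarClass Pool.Agent.H914.VarClass.Obj
open Pool.Agent.R903

universe u v w

namespace Pool.Agent.R898.F

section Alg

variable {A : Type v} [CommRing A] [Algebra ℚ A] {B : Type v} [CommRing B] [Algebra ℚ B]
  {D : Type v} [CommRing D] [Algebra ℚ D] {E : Type v} [CommRing E] [Algebra ℚ E]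
  {K : Type w} [Field K] {H : Type w} [Ring H] [Algebra K H] {H' : Type w} [Ring H']
  [Algebra K H']

/-- The element `s(p(a) q(b))`. -/
def mulPush (p : A →ₐ[ℚ] D) (q : B →ₐ[ℚ] D) (s : D →ₗ[ℚ] E) (a : A) (b : B) : E :=
  s (p a * q b)

/-- `T` vanishes on `U`. -/
def ZeroOn (T : H →ₗ[K] H') (U : Submodule K H) : Prop := ∀ b ∈ U, T b = 0

/-- The subspace of the elements `x` of `U` with `c x = 0`. -/
def nullPart (U : Submodule ℚ A) (c : A →+* H) : Submodule ℚ A where
  carrier := {x | x ∈ U ∧ c x = 0}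
  add_mem' := fun {a b} ha hb => ⟨U.add_mem ha.1 hb.1, by rw [map_add, ha.2, hb.2, add_zero]⟩
  zero_mem' := ⟨U.zero_mem, map_zero c⟩
  smul_mem' := fun q x hx => ⟨U.smul_mem q hx.1, by rw [Algebra.smul_def, map_mul, hx.2, mul_zero]⟩

/-- `T` maps all elements of `U` to zero. -/
def KillsAll (T : A →ₗ[ℚ] B) (U : Submodule ℚ A) : Prop := ∀ x ∈ U, T x = 0

/-- The image of `U` under `T`. -/
def imageA (T : A →ₗ[ℚ] B) (U : Submodule ℚ A) : Submodule ℚ B := U.map T

/-- The image of `U` under `T`. -/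
def imageH (T : H →ₗ[K] H') (U : Submodule K H) : Submodule K H' := U.map T

/-- The subspace spanned by the elements `f i`. -/
def spanA (f : ℕ → A) : Submodule ℚ A := Submodule.span ℚ (Set.range f)

/-- `x y = 0` for all `x` in `U` and `y` in `V`. -/
def ProdZero (U V : Submodule ℚ A) : Prop := ∀ x ∈ U, ∀ y ∈ V, x * y = 0

/-- `U` is finite-dimensional. -/
def FinDim (U : Submodule ℚ A) : Prop := Module.Finite ℚ U

/-- The dimension of `U` is `r`. -/
def DimIs (U : Submodule ℚ A) (r : ℤ) : Prop := (Module.finrank ℚ U : ℤ) = r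

/-- `U` and `V` have the same dimension: they are isomorphic. -/
def SameDim (U : Submodule ℚ A) (V : Submodule ℚ B) : Prop := Nonempty (U ≃ₗ[ℚ] V)

/-- `S` is the identity on the image of `U` under `T`. -/
def IdOn (S : H →ₗ[K] H) (T : H →ₗ[K] H) (U : Submodule K H) : Prop := ∀ a ∈ U, S (T a) = T a

/-- The subspaces `F k` form a descending filtration such that `F 0 = U`, such that `F 1` is the
kernel of `c` on `U`, such that `F 2 = 0` and `F (j + 1) = 0`. -/
structure Descends (U : Submodule ℚ A) (c : A →+* H) (j : ℕ) (F : ℕ → Submodule ℚ A) :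
    Prop where
  antitone : ∀ k, F (k + 1) ≤ F k
  zero : F 0 = U
  one : F 1 = nullPart U c
  two : F 2 = ⊥
  bot : F (j + 1) = ⊥

/-- `T` maps `F k` to `G k`, and even to `G (k + 1)` if `T'` vanishes on `gr (2j - k)`. -/
structure Compat (T : A →ₗ[ℚ] B) (T' : H →ₗ[K] H') (gr : ℕ → Submodule K H) (j : ℕ)
    (F : ℕ → Submodule ℚ A) (G : ℕ → Submodule ℚ B) : Prop where
  sends : ∀ k, ∀ x ∈ F k, T x ∈ G k
  raises : ∀ k m, m + k = 2 * j → ZeroOn T' (gr m) → ∀ x ∈ F k, T x ∈ G (k + 1)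

end Alg

variable {k : Type u} [Field k] {𝒱 : VarClass k}

/-- `x` is in `CH^i(X)`. -/
def Codim (C : ChowTheory.{u, v} 𝒱) {X : 𝒱.Obj} (i : ℕ) (x : C.CH X) : Prop := x ∈ C.gr X i

/-- The composition of correspondences, first `α`, then `β`: `p13_*(p12^* α · p23^* β)`. -/
noncomputable def cp (C : ChowTheory.{u, v} 𝒱) {X Y Z : 𝒱.Obj} (α : C.CH (X.prod Y))
    (β : C.CH (Y.prod Z)) : C.CH (X.prod Z) :=
  mulPush (C.pull (p12 X Y Z)) (C.pull (snd X (Y.prod Z))) (C.push (p13 X Y Z)) α β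

variable {C : ChowTheory.{u, v} 𝒱} (W : WeilTheory.{u, v, w} C)

/-- The space of the homologically trivial classes in `CH^m(X)`. -/
def homTriv (X : 𝒱.Obj) (m : ℕ) : Submodule ℚ (C.CH X) := nullPart (C.gr X m) (W.cl X)

/-- `(X, p)` is a Chow motive: `p ∈ CH^(dim X)(X × X)` and `p ∘ p = p`. -/
def IsMotive (C : ChowTheory.{u, v} 𝒱) (X : 𝒱.Obj) (p : C.CH (X.prod X)) : Prop :=
  Codim C X.dim p ∧ cp C p p = p

/-- The homologically trivial classes of codimension `m` of the motive `(X, p)`. -/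
noncomputable def homTrivOf (X : 𝒱.Obj) (p : C.CH (X.prod X)) (m : ℕ) : Submodule ℚ (C.CH X) :=
  imageA (C.act p) (homTriv W X m)

/-- The cohomology of degree `j` of the motive `(X, p)`. -/
noncomputable def cohOf (X : 𝒱.Obj) (p : C.CH (X.prod X)) (j : ℕ) : Submodule W.K (W.H X) :=
  imageH (W.act p) (W.gr X j)

/-- **The conjecture of Beilinson and Bloch for the motives** `(X, p)`, where `ord X U m` stands for
the order at `s = m` of the function `L(U, s)` (it is `none` if `L(U, s)` has no meromorphic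
continuation): the spaces of homologically trivial cycles are finite-dimensional and
`dim CH^m(M)_hom = ord_(s=m) L(H^(2m-1)(M), s)`, for all `m = n + 1 ≥ 1`. -/
structure RankFormula (ord : ∀ X : 𝒱.Obj, Submodule W.K (W.H X) → ℕ → Option ℤ) : Prop where
  fin : ∀ X m, FinDim (homTriv W X m)
  rank : ∀ (X : 𝒱.Obj) (p : C.CH (X.prod X)) (n : ℕ) (r : ℤ), IsMotive C X p →
    ord X (cohOf W X p (2 * n + 1)) (n + 1) = some r → DimIs (homTrivOf W X p (n + 1)) r

/-- The order of `L(0, s) = 1` is zero. -/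
def OrdZero (ord : ∀ X : 𝒱.Obj, Submodule W.K (W.H X) → ℕ → Option ℤ) : Prop :=
  ∀ X m, ord X ⊥ m = some 0

/-- If `H^(2n+1)(M) = 0` then `CH^(n+1)(M)_hom = 0`, for all motives `M = (X, p)`. -/
def Vanishing : Prop :=
  ∀ (X : 𝒱.Obj) (p : C.CH (X.prod X)) (n : ℕ), IsMotive C X p → ZeroOn (W.act p) (W.gr X (2 * n + 1)) →
    KillsAll (C.act p) (homTriv W X (n + 1))

/-- The powers `γ ∘ ⋯ ∘ γ` (`i + 1` factors) of a correspondence. -/
noncomputable def pw (C : ChowTheory.{u, v} 𝒱) {X : 𝒱.Obj} (γ : C.CH (X.prod X)) :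
    ℕ → C.CH (X.prod X)
  | 0 => γ
  | i + 1 => cp C (pw C γ i) γ

/-- The powers of each homologically trivial correspondence from `X` to `X` span a
finite-dimensional space. -/
def Algebraic : Prop :=
  ∀ (X : 𝒱.Obj) (γ : C.CH (X.prod X)), γ ∈ homTriv W (X.prod X) X.dim →
    FinDim (spanA (pw C γ))

/-- The products of homologically trivial classes vanish. -/
def NoProducts : Prop :=
  ∀ (X : 𝒱.Obj) (i j : ℕ), ProdZero (homTriv W X i) (homTriv W X j)

/-- `F X j k = F^k CH^j(X)`, for the varieties of the class `𝒱`, is a **Bloch–Beilinson filtration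
with `F^2 = 0`**. -/
structure IsBB (F : ∀ X : 𝒱.Obj, ℕ → ℕ → Submodule ℚ (C.CH X)) : Prop where
  descends : ∀ X j, Descends (C.gr X j) (W.cl X) j (F X j)
  compat : ∀ (X Y : 𝒱.Obj) (i j l : ℕ) (Γ : C.CH (X.prod Y)), j + l = i + X.dim →
    Codim C l Γ → Compat (C.act Γ) (W.act Γ) (W.gr X) j (F X j) (F Y i)

/-- The correspondences `f`, from `X` to `Y` and `g`, from `Y` to `X`, of opposite degrees, induce
inverse isomorphisms between the cohomology of degree `2m + 1` of the motive `(X, p)` and the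
cohomology of degree `2n + 1` of the motive `(Y, q)`. -/
structure CohIso (X Y : 𝒱.Obj) (p : C.CH (X.prod X)) (q : C.CH (Y.prod Y)) (f : C.CH (X.prod Y))
    (g : C.CH (Y.prod X)) (m n : ℕ) : Prop where
  source : IsMotive C X p
  target : IsMotive C Y q
  memf : ∃ l, m + l = n + X.dim ∧ Codim C l f
  memg : ∃ l, n + l = m + Y.dim ∧ Codim C l g
  left : IdOn (W.act (cp C (cp C f q) g)) (W.act p) (W.gr X (2 * m + 1))
  right : IdOn (W.act (cp C (cp C g p) f)) (W.act q) (W.gr Y (2 * n + 1))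

/-- The space `CH^(m+1)(M)_hom` is determined by `H^(2m+1)(M)`: if `H^(2m+1)(X, p)` and
`H^(2n+1)(Y, q)` are isomorphic, by correspondences, then `CH^(m+1)(X, p)_hom` and
`CH^(n+1)(Y, q)_hom` are isomorphic. -/
def Determined : Prop :=
  ∀ (X Y : 𝒱.Obj) (p : C.CH (X.prod X)) (q : C.CH (Y.prod Y)) (f : C.CH (X.prod Y))
    (g : C.CH (Y.prod X)) (m n : ℕ), CohIso W X Y p q f g m n →
      SameDim (homTrivOf W X p (m + 1)) (homTrivOf W Y q (n + 1))

end Pool.Agent.R898.F
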