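import Pool.Agent.R898.GStmt
import Pool.Agent.R898.Basic
import Pool.Agent.R903.OneCK

/-!
# The rank formula in the middle codimension
-/

open CategoryTheory CategoryTheory.Limits AlgebraicGeometry
open Pool.Agent.H914 Pool.Agent.H914.VarClass Pool.Agent.H914.VarClass.Obj
open Pool.Agent.R903

universe u v w

namespace Pool.Agent.R898.G

variable {k : Type u} [Field k] {𝒱 : VarClass k} {C : ChowTheory.{u, v} 𝒱}
  {W : WeilTheory.{u, v, w} C} {X Y P : 𝒱.Obj}

lemma mem_homTriv {m : ℕ} {x : C.CH X} : x ∈ homTriv W X m ↔ x ∈ C.gr X m ∧ W.cl X x = 0 := Iff.rfl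

lemma homTriv_zero (hP : C.Polarized) {x : C.CH X} (hx : x ∈ homTriv W X 0) : x = 0 := by
  obtain ⟨hx, hcl⟩ := hx
  obtain ⟨q, rfl⟩ := ChowTheory.gr_zero hx
  rw [W.cl_smul, map_one] at hcl
  rcases smul_eq_zero.1 hcl with h | h
  · have : q = 0 := by exact_mod_cast h
    rw [this, zero_smul]
  · exfalso
    obtain ⟨D, _, hD⟩ := hP X
    have h1 : W.tr X (W.cl X (D ^ X.dim)) = (C.deg X (D ^ X.dim) : W.K) := W.tr_cl _
    have h2 : W.cl X (D ^ X.dim) = 0 := by
      rw [← mul_one (W.cl X (D ^ X.dim)), h, mul_zero]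
    rw [h2, map_zero] at h1
    exact hD (by exact_mod_cast h1.symm)

section Chow

/-- inclusion of a summand -/
noncomputable def incl (C : ChowTheory.{u, v} 𝒱) (X P : 𝒱.Obj) (h : C.CH P) (i : ℕ) :
    C.CH X →ₗ[ℚ] C.CH (X.prod P) :=
  LinearMap.mulRight ℚ (C.pull (snd X P) (h ^ i)) ∘ₗ (C.pull (fst X P)).toLinearMap

/-- projection to a summand -/
noncomputable def proj (C : ChowTheory.{u, v} 𝒱) (X P : 𝒱.Obj) (h : C.CH P) (j : ℕ) :
    C.CH (X.prod P) →ₗ[ℚ] C.CH X :=
  C.push (fst X P) ∘ₗ LinearMap.mulRight ℚ (C.pull (snd X P) (h ^ j))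

lemma incl_apply (h : C.CH P) (i : ℕ) (x : C.CH X) :
    incl C X P h i x = C.pull (fst X P) x * C.pull (snd X P) (h ^ i) := rfl

lemma proj_apply (h : C.CH P) (j : ℕ) (z : C.CH (X.prod P)) :
    proj C X P h j z = C.push (fst X P) (z * C.pull (snd X P) (h ^ j)) := rfl

lemma push_fst_pull_snd (y : C.CH P) :
    C.push (fst X P) (C.pull (snd X P) y) = algebraMap ℚ (C.CH X) (C.deg P y) := by
  have e1 : fst X P = swap X P ≫ snd P X := by simp
  have e2 : snd X P = swap X P ≫ fst P X := by simp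
  rw [e1, e2, C.push_comp, C.pull_comp, C.push_pull_iso, C.push_snd_pull_fst]

lemma pow_mem {h : C.CH P} (hh : h ∈ C.gr P 1) (i : ℕ) : h ^ i ∈ C.gr P i := by
  induction i with
  | zero => rw [pow_zero]; exact C.one_mem P
  | succ i ih => rw [pow_succ]; exact C.mul_mem ih hh

lemma proj_incl {s : ℕ} (hs : P.dim = s) {h : C.CH P} (hh : h ∈ C.gr P 1) (hd : C.deg P (h ^ s) = 1)
    (i j : ℕ) (x : C.CH X) : proj C X P h j (incl C X P h i x) = if i + j = s then x else 0 := by
  have h1 : proj C X P h j (incl C X P h i x) =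
      x * C.push (fst X P) (C.pull (snd X P) (h ^ (i + j))) := by
    rw [proj_apply, incl_apply, mul_assoc, ← C.pull_mul, ← pow_add, C.mul_push]
  rw [h1]
  rcases lt_trichotomy (i + j) s with h2 | h2 | h2
  · rw [if_neg (by omega), C.push_eq_zero _ (C.pull_mem _ (pow_mem hh (i + j)))
      (by rw [dim_prod]; omega), mul_zero]
  · rw [if_pos h2, push_fst_pull_snd, h2, hd, map_one, mul_one]
  · rw [if_neg (by omega)]
    have h3 : h ^ (i + j) = 0 := by
      have := pow_mem hh (i + j)
      rwa [C.gr_eq_bot _ _ (by omega), Submodule.mem_bot] at this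
    rw [h3, map_zero, map_zero, mul_zero]

lemma act_opL_ext' (u w : C.CH P) (z : C.CH (X.prod P)) :
    C.act (C.opL X (C.ext u w)) z =
      C.pull (fst X P) (C.push (fst X P) (z * C.pull (snd X P) u)) * C.pull (snd X P) w := by
  rw [ChowTheory.opL, C.act_span, ChowTheory.ext, C.pull_mul, ← C.pull_comp, ← C.pull_comp]
  have e1 : snd X (P.prod P) ≫ fst P P = p12 X P P ≫ snd X P := by simp
  have e2 : snd X (P.prod P) ≫ snd P P = p13 X P P ≫ snd X P := by simp
  rw [e1, e2, C.pull_comp, C.pull_comp, C.bc3, C.pull_mul, ← C.push_mul]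
  congr 1
  ring

lemma sum_incl_proj {s : ℕ} {h : C.CH P}
    (hΔ : C.diagC P = ∑ i ∈ Finset.range (s + 1), C.pull (fst P P) (h ^ i) *
      C.pull (snd P P) (h ^ (s - i))) (z : C.CH (X.prod P)) :
    ∑ i ∈ Finset.range (s + 1), incl C X P h i (proj C X P h (s - i) z) = z := by
  have h1 : C.act (C.opL X (C.diagC P)) z = z := by
    rw [C.opL_eq, C.tensor_diagC, C.act_diagC]
  have h2 : C.opL X (C.diagC P) =
      ∑ i ∈ Finset.range (s + 1), C.opL X (C.ext (h ^ i) (h ^ (s - i))) := by
    rw [C.opL_eq]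
    have : C.diagC P = ∑ i ∈ Finset.range (s + 1), C.ext (h ^ i) (h ^ (s - i)) := hΔ
    rw [this, C.tensor_sum]
    refine Finset.sum_congr rfl fun i _ => ?_
    rw [C.opL_eq]
  rw [h2, C.act_sum, LinearMap.sum_apply] at h1
  conv_rhs => rw [← h1]
  rw [← Finset.sum_range_reflect (fun i => incl C X P h i (proj C X P h (s - i) z))]
  refine Finset.sum_congr rfl fun i hi => ?_
  rw [Finset.mem_range] at hi
  rw [act_opL_ext', incl_apply, proj_apply]
  have e1 : s + 1 - 1 - i = s - i := by omega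
  have e2 : s - (s - i) = i := by omega
  rw [e1, e2]

end Chow

section Coh

lemma pushH_eq_zero (f : X ⟶ Y) {p : ℕ} {a : W.H X} (ha : a ∈ W.gr X p)
    (h : p + 2 * Y.dim < 2 * X.dim) : W.push f a = 0 := by
  apply W.nondeg
  intro c
  refine gr_induction (W.isInternal Y) (p := fun c => W.tr Y (W.push f a * c) = 0) ?_ ?_ c
  · intro l c hc
    rw [W.tr_push]
    by_cases hl : p + l = 2 * X.dim
    · rw [W.gr_eq_bot Y l (by omega), Submodule.mem_bot] at hc
      rw [hc, map_zero, mul_zero, map_zero]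
    · exact W.tr_eq_zero (W.mul_mem ha (W.map_mem f hc)) hl
  · intro c c' hc hc'
    rw [mul_add, map_add, hc, hc', add_zero]

/-- inclusion of a summand, in cohomology -/
noncomputable def inclH (W : WeilTheory.{u, v, w} C) (X P : 𝒱.Obj) (h : C.CH P) (i : ℕ) :
    W.H X →ₗ[W.K] W.H (X.prod P) :=
  LinearMap.mulRight W.K (W.map (snd X P) (W.cl P (h ^ i))) ∘ₗ (W.map (fst X P)).toLinearMap

/-- projection to a summand, in cohomology -/
noncomputable def projH (W : WeilTheory.{u, v, w} C) (X P : 𝒱.Obj) (h : C.CH P) (j : ℕ) :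
    W.H (X.prod P) →ₗ[W.K] W.H X :=
  W.push (fst X P) ∘ₗ LinearMap.mulRight W.K (W.map (snd X P) (W.cl P (h ^ j)))

lemma inclH_apply (h : C.CH P) (i : ℕ) (x : W.H X) :
    inclH W X P h i x = W.map (fst X P) x * W.map (snd X P) (W.cl P (h ^ i)) := rfl

lemma projH_apply (h : C.CH P) (j : ℕ) (z : W.H (X.prod P)) :
    projH W X P h j z = W.push (fst X P) (z * W.map (snd X P) (W.cl P (h ^ j))) := rfl

lemma projH_inclH {s : ℕ} (hs : P.dim = s) {h : C.CH P} (hh : h ∈ C.gr P 1)
    (hd : C.deg P (h ^ s) = 1) (i j : ℕ) (x : W.H X) :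
    projH W X P h j (inclH W X P h i x) = if i + j = s then x else 0 := by
  have h1 : projH W X P h j (inclH W X P h i x) = W.tr P (W.cl P (h ^ (i + j))) • x := by
    rw [projH_apply, inclH_apply, mul_assoc, ← W.map_mul', ← W.cl_mul, ← pow_add]
    exact W.push_fst x (W.cl_mem (pow_mem hh (i + j)))
  rw [h1]
  split_ifs with h2
  · rw [h2, W.tr_cl, hd, Rat.cast_one, one_smul]
  · rw [W.tr_eq_zero (W.cl_mem (pow_mem hh (i + j))) (by omega), zero_smul]

lemma act_opL_extH {u w : C.CH P} {i j : ℕ} (hu : u ∈ C.gr P i) (hw : w ∈ C.gr P j)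
    (z : W.H (X.prod P)) :
    W.act (C.opL X (C.ext u w)) z =
      W.map (fst X P) (W.push (fst X P) (z * W.map (snd X P) (W.cl P u))) *
        W.map (snd X P) (W.cl P w) := by
  rw [ChowTheory.opL, W.act_span, ChowTheory.ext, C.pull_mul, ← C.pull_comp, ← C.pull_comp]
  have e1 : snd X (P.prod P) ≫ fst P P = p12 X P P ≫ snd X P := by simp
  have e2 : snd X (P.prod P) ≫ snd P P = p13 X P P ≫ snd X P := by simp
  rw [e1, e2, W.bc3, W.map_mul', ← W.push_mul, W.cl_mul, W.cl_pull, W.cl_pull,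
    W.map_comp, W.map_comp]
  congr 1
  have h1 : W.map (p12 X P P) (W.map (snd X P) (W.cl P u)) ∈
      W.gr (X.prod (P.prod P)) (2 * i) := W.map_mem _ (W.map_mem _ (W.cl_mem hu))
  have h2 : W.map (p13 X P P) (W.map (snd X P) (W.cl P w)) ∈
      W.gr (X.prod (P.prod P)) (2 * j) := W.map_mem _ (W.map_mem _ (W.cl_mem hw))
  rw [mul_assoc, W.even_comm h2 (W.map (p12 X P P) z), ← mul_assoc,
    W.even_comm h1 (W.map (p12 X P P) z)]

lemma sum_inclH_projH {s : ℕ} {h : C.CH P} (hh : h ∈ C.gr P 1)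
    (hΔ : C.diagC P = ∑ i ∈ Finset.range (s + 1), C.pull (fst P P) (h ^ i) *
      C.pull (snd P P) (h ^ (s - i))) (z : W.H (X.prod P)) :
    ∑ i ∈ Finset.range (s + 1), inclH W X P h i (projH W X P h (s - i) z) = z := by
  have h1 : W.act (C.opL X (C.diagC P)) z = z := by
    rw [C.opL_eq, C.tensor_diagC, W.act_diagC]
  have h2 : C.opL X (C.diagC P) =
      ∑ i ∈ Finset.range (s + 1), C.opL X (C.ext (h ^ i) (h ^ (s - i))) := by
    rw [C.opL_eq]
    have : C.diagC P = ∑ i ∈ Finset.range (s + 1), C.ext (h ^ i) (h ^ (s - i)) := hΔ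
    rw [this, C.tensor_sum]
    refine Finset.sum_congr rfl fun i _ => ?_
    rw [C.opL_eq]
  rw [h2, W.act_sum, LinearMap.sum_apply] at h1
  conv_rhs => rw [← h1]
  rw [← Finset.sum_range_reflect (fun i => inclH W X P h i (projH W X P h (s - i) z))]
  refine Finset.sum_congr rfl fun i hi => ?_
  rw [Finset.mem_range] at hi
  rw [act_opL_extH (pow_mem hh i) (pow_mem hh (s - i)), inclH_apply, projH_apply]
  have e1 : s + 1 - 1 - i = s - i := by omega
  have e2 : s - (s - i) = i := by omega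
  rw [e1, e2]

end Coh

section Equiv

variable {s : ℕ} (hPol : C.Polarized) (hs : P.dim = s) {h : C.CH P} (hh : h ∈ C.gr P 1)
  (hd : C.deg P (h ^ s) = 1) (hΔ : C.diagC P = ∑ i ∈ Finset.range (s + 1),
    C.pull (fst P P) (h ^ i) * C.pull (snd P P) (h ^ (s - i)))

include hs hh in
lemma proj_mem {n i : ℕ} (hi : i ≤ min s n) {z : C.CH (X.prod P)}
    (hz : z ∈ homTriv W (X.prod P) (n + 1)) :
    proj C X P h (s - i) z ∈ homTriv W X (n - i + 1) := by
  refine ⟨C.push_mem _ (C.mul_mem hz.1 (C.pull_mem _ (pow_mem hh (s - i))))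
    (by rw [dim_prod]; omega), ?_⟩
  rw [proj_apply, W.cl_push, W.cl_mul, hz.2, zero_mul, map_zero]

include hPol hs hh in
lemma proj_zero {n i : ℕ} (hi : n < i) (his : i ≤ s) {z : C.CH (X.prod P)}
    (hz : z ∈ homTriv W (X.prod P) (n + 1)) : proj C X P h (s - i) z = 0 := by
  have h1 := C.mul_mem hz.1 (C.pull_mem (snd X P) (pow_mem hh (s - i)))
  rcases Nat.lt_or_ge (n + 1) i with h2 | h2
  · exact C.push_eq_zero _ h1 (by rw [dim_prod]; omega)
  · apply homTriv_zero (W := W) hPol
    refine ⟨C.push_mem _ h1 (by rw [dim_prod]; omega), ?_⟩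
    rw [proj_apply, W.cl_push, W.cl_mul, hz.2, zero_mul, map_zero]

include hh in
lemma incl_mem {n i : ℕ} (hi : i ≤ min s n) {x : C.CH X} (hx : x ∈ homTriv W X (n - i + 1)) :
    incl C X P h i x ∈ homTriv W (X.prod P) (n + 1) := by
  refine ⟨?_, ?_⟩
  · have h1 := C.mul_mem (C.pull_mem (fst X P) hx.1) (C.pull_mem (snd X P) (pow_mem hh i))
    have h2 : n - i + 1 + i = n + 1 := by omega
    rwa [h2] at h1
  · rw [incl_apply, W.cl_mul, W.cl_pull, hx.2, map_zero, zero_mul]

/-- the homologically trivial classes on `X × P` -/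
noncomputable def chowEquiv (n : ℕ) : (∀ i : Fin (min s n + 1), homTriv W X (n - i + 1)) ≃ₗ[ℚ]
    homTriv W (X.prod P) (n + 1) :=
  LinearEquiv.ofLinearMap
    (∑ i : Fin (min s n + 1), (((incl C X P h i) ∘ₗ (homTriv W X (n - i + 1)).subtype).codRestrict
      (homTriv W (X.prod P) (n + 1)) (fun x => incl_mem (s := s) hh (Nat.lt_succ_iff.1 i.2) x.2)) ∘ₗ
        LinearMap.proj i)
    (LinearMap.pi fun i => ((proj C X P h (s - i)) ∘ₗ
      (homTriv W (X.prod P) (n + 1)).subtype).codRestrict (homTriv W X (n - i + 1))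
        (fun z => proj_mem hs hh (Nat.lt_succ_iff.1 i.2) z.2))
    (by
      apply LinearMap.ext
      intro z
      apply Subtype.ext
      have h1 := sum_incl_proj hΔ (z : C.CH (X.prod P))
      have h2 : ∑ i ∈ Finset.range (min s n + 1), incl C X P h i (proj C X P h (s - i) z) =
          ∑ i ∈ Finset.range (s + 1), incl C X P h i (proj C X P h (s - i) z) := by
        refine Finset.sum_subset (fun i hi => ?_) (fun i hi hi' => ?_)
        · rw [Finset.mem_range] at hi ⊢; omega
        · rw [Finset.mem_range] at hi hi'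
          rw [proj_zero hPol hs hh (by omega) (by omega) z.2, map_zero]
      rw [h1, Finset.sum_range] at h2
      simpa [LinearMap.sum_apply] using h2)
    (by
      apply LinearMap.ext
      intro v
      funext j
      apply Subtype.ext
      have h1 : ∀ i : Fin (min s n + 1), proj C X P h (s - j) (incl C X P h i (v i)) =
          if i = j then (v i : C.CH X) else 0 := by
        intro i
        rw [proj_incl hs hh hd]
        have := i.2
        have := j.2
        by_cases hij : i = j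
        · subst hij; rw [if_pos (by omega), if_pos rfl]
        · have : (i : ℕ) ≠ j := fun h => hij (Fin.ext h)
          rw [if_neg (by omega), if_neg hij]
      have h2 : ∑ i : Fin (min s n + 1), proj C X P h (s - j) (incl C X P h i (v i)) =
          (v j : C.CH X) := by
        rw [Finset.sum_congr rfl fun i _ => h1 i, Finset.sum_ite_eq' Finset.univ j]
        simp
      simpa [LinearMap.sum_apply] using h2)

include hPol hs hh hd hΔ in
theorem hasRank_prod {n : ℕ} (hY : HasRank W (X.prod P) n) {i : ℕ} (hi : i ≤ min s n) :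
    HasRank W X (n - i) := by
  have hY' : Module.Finite ℚ (homTriv W (X.prod P) (n + 1)) := hY
  have h1 : Module.Finite ℚ (∀ i : Fin (min s n + 1), homTriv W X (n - i + 1)) :=
    Module.Finite.equiv (chowEquiv (W := W) (X := X) hPol hs hh hd hΔ n).symm
  have h2 : Function.Surjective (LinearMap.proj (R := ℚ)
      (φ := fun i : Fin (min s n + 1) => homTriv W X (n - i + 1))
      (⟨i, Nat.lt_succ_iff.2 hi⟩ : Fin (min s n + 1))) := fun y => ⟨Pi.single _ y, by simp⟩
  exact Module.Finite.of_surjective _ h2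

include hPol hs hh hd hΔ in
theorem rank_prod {n : ℕ} (hY : HasRank W (X.prod P) n) :
    rank W (X.prod P) n = ∑ i ∈ Finset.range (min s n + 1), rank W X (n - i) := by
  have hfin : ∀ i : Fin (min s n + 1), Module.Finite ℚ (homTriv W X (n - i + 1)) := fun i =>
    hasRank_prod (W := W) (X := X) hPol hs hh hd hΔ hY (Nat.lt_succ_iff.1 i.2)
  rw [Finset.sum_range, rank, dimOf,
    ← (chowEquiv (W := W) (X := X) hPol hs hh hd hΔ n).finrank_eq, Module.finrank_pi_fintype]
  push_cast
  rfl

/-- the cohomology of `X × P` -/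
noncomputable def cohEquiv (n : ℕ) : (∀ i : Fin (min s n + 1), W.gr X (2 * (n - i) + 1)) ≃ₗ[W.K]
    W.gr (X.prod P) (2 * n + 1) :=
  LinearEquiv.ofLinearMap
    (∑ i : Fin (min s n + 1), (((inclH W X P h i) ∘ₗ
      (W.gr X (2 * (n - i) + 1)).subtype).codRestrict (W.gr (X.prod P) (2 * n + 1)) (fun x => by
        have h1 := W.mul_mem (W.map_mem (fst X P) x.2)
          (W.map_mem (snd X P) (W.cl_mem (pow_mem hh i)))
        have h2 : 2 * (n - i) + 1 + 2 * i = 2 * n + 1 := by
          have := i.2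
          omega
        rw [h2] at h1
        exact h1)) ∘ₗ LinearMap.proj i)
    (LinearMap.pi fun i => ((projH W X P h (s - i)) ∘ₗ
      (W.gr (X.prod P) (2 * n + 1)).subtype).codRestrict (W.gr X (2 * (n - i) + 1))
        (fun z => push_memH W (fst X P) (W.mul_mem z.2
          (W.map_mem (snd X P) (W.cl_mem (pow_mem hh (s - i))))) (by
            have := i.2
            rw [dim_prod]; omega)))
    (by
      apply LinearMap.ext
      intro z
      apply Subtype.ext
      have h1 := sum_inclH_projH hh hΔ (z : W.H (X.prod P))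
      have h2 : ∑ i ∈ Finset.range (min s n + 1), inclH W X P h i (projH W X P h (s - i) z) =
          ∑ i ∈ Finset.range (s + 1), inclH W X P h i (projH W X P h (s - i) z) := by
        refine Finset.sum_subset (fun i hi => ?_) (fun i hi hi' => ?_)
        · rw [Finset.mem_range] at hi ⊢; omega
        · rw [Finset.mem_range] at hi hi'
          have h3 : projH W X P h (s - i) z = 0 :=
            pushH_eq_zero (fst X P) (W.mul_mem z.2
              (W.map_mem (snd X P) (W.cl_mem (pow_mem hh (s - i))))) (by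
                rw [dim_prod]; omega)
          rw [h3, map_zero]
      rw [h1, Finset.sum_range] at h2
      simpa [LinearMap.sum_apply] using h2)
    (by
      apply LinearMap.ext
      intro v
      funext j
      apply Subtype.ext
      have h1 : ∀ i : Fin (min s n + 1), projH W X P h (s - j) (inclH W X P h i (v i)) =
          if i = j then (v i : W.H X) else 0 := by
        intro i
        rw [projH_inclH hs hh hd]
        have := i.2
        have := j.2
        by_cases hij : i = j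
        · subst hij; rw [if_pos (by omega), if_pos rfl]
        · have : (i : ℕ) ≠ j := fun h => hij (Fin.ext h)
          rw [if_neg (by omega), if_neg hij]
      have h2 : ∑ i : Fin (min s n + 1), projH W X P h (s - j) (inclH W X P h i (v i)) =
          (v j : W.H X) := by
        rw [Finset.sum_congr rfl fun i _ => h1 i, Finset.sum_ite_eq' Finset.univ j]
        simp
      simpa [LinearMap.sum_apply] using h2)

lemma cohEquiv_apply (n : ℕ) (v : ∀ i : Fin (min s n + 1), W.gr X (2 * (n - i) + 1)) :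
    ((cohEquiv (W := W) (X := X) hs hh hd hΔ n v : W.gr (X.prod P) (2 * n + 1)) :
      W.H (X.prod P)) = ∑ i : Fin (min s n + 1), inclH W X P h i (v i) := by
  simp [cohEquiv, LinearMap.sum_apply]

variable {G : Type w} [Group G] {ψ : G →* W.K} (A : GalAction W G ψ) {o : 𝒱.Obj → ℕ → ℤ → ℤ}

omit hs hh hd hΔ in
lemma isSumOf_mk {t : ℕ} {Z : Fin t → 𝒱.Obj} {j r : Fin t → ℕ} {Y : 𝒱.Obj} {l : ℕ}
    (e : (∀ i, W.gr (Z i) (j i)) ≃ₗ[W.K] W.gr Y l)
    (h : ∀ (g : G) (v w : ∀ i, W.gr (Z i) (j i)),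
      (∀ i, (w i : W.H (Z i)) = ψ g ^ r i • A.ρ (Z i) g (v i)) →
      ((e w : W.gr Y l) : W.H Y) = A.ρ Y g ((e v : W.gr Y l) : W.H Y)) :
    (OpSpace.sum fun i => (A.rep (Z i) (j i)).twist ψ (r i)).Iso (A.rep Y l) :=
  ⟨e, fun g v => Subtype.ext (h g v _ fun _ => rfl)⟩

include hs hh hd hΔ in
theorem o_prod (ho : IsOrder A o) (n : ℕ) :
    o (X.prod P) (2 * n + 1) (n + 1) =
      ∑ i ∈ Finset.range (min s n + 1), o X (2 * (n - i) + 1) ((n - i : ℕ) + 1) := by
  rw [ho (min s n + 1) (fun _ => X) (fun i => 2 * (n - i) + 1) (fun i => i) (X.prod P) (2 * n + 1)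
    (n + 1), Finset.sum_range]
  · refine Finset.sum_congr rfl fun i _ => ?_
    have h1 : ((n : ℤ) + 1 - ((i : ℕ) : ℤ)) = ((n - i : ℕ) : ℤ) + 1 := by
      have := i.2
      rw [Nat.cast_sub (by omega)]
      ring
    rw [h1]
  · refine isSumOf_mk A (cohEquiv (W := W) (X := X) hs hh hd hΔ n) fun g v w hw => ?_
    rw [cohEquiv_apply, cohEquiv_apply, map_sum]
    refine Finset.sum_congr rfl fun i _ => ?_
    rw [hw, map_smul, inclH_apply, inclH_apply, map_mul, A.natural (fst X P), A.natural (snd X P),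
      (A.acts P).cyc g i (h ^ (i : ℕ)) (pow_mem hh i), map_smul, mul_smul_comm]

end Equiv

section Main

variable {G : Type w} [Group G] {ψ : G →* W.K} {A : GalAction W G ψ} {o : 𝒱.Obj → ℕ → ℤ → ℤ}
  (hPol : C.Polarized) (ho : IsOrder A o)

/-- the conjectural rank -/
def orank (o : 𝒱.Obj → ℕ → ℤ → ℤ) (X : 𝒱.Obj) (n : ℕ) : ℤ := o X (2 * n + 1) (n + 1)

variable {L E : 𝒱.Obj} (hL : IsProj C 1 L) (hE : IsProj C 2 E)

include hPol ho hL in
lemma line (X : 𝒱.Obj) {n : ℕ} (hY : HasRank W (X.prod L) (n + 1)) :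
    HasRank W X (n + 1) ∧ HasRank W X n ∧
      rank W (X.prod L) (n + 1) = rank W X (n + 1) + rank W X n ∧
      orank o (X.prod L) (n + 1) = orank o X (n + 1) + orank o X n := by
  obtain ⟨hs, h, hc⟩ := hL
  have h0 : min 1 (n + 1) = 1 := by omega
  refine ⟨?_, ?_, ?_, ?_⟩
  · exact hasRank_prod hPol hs hc.mem hc.deg_pow hc.diag hY (i := 0) (by omega)
  · exact hasRank_prod hPol hs hc.mem hc.deg_pow hc.diag hY (i := 1) (by omega)
  · rw [rank_prod hPol hs hc.mem hc.deg_pow hc.diag hY, h0]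
    simp [Finset.sum_range_succ]
  · have h1 := o_prod (X := X) hs hc.mem hc.deg_pow hc.diag A ho (n + 1)
    rw [h0] at h1
    rw [orank, h1]
    simp [Finset.sum_range_succ, orank]

include hPol ho hL in
lemma line_zero (X : 𝒱.Obj) (hY : HasRank W (X.prod L) 0) :
    HasRank W X 0 ∧ rank W (X.prod L) 0 = rank W X 0 ∧
      orank o (X.prod L) 0 = orank o X 0 := by
  obtain ⟨hs, h, hc⟩ := hL
  refine ⟨?_, ?_, ?_⟩
  · exact hasRank_prod hPol hs hc.mem hc.deg_pow hc.diag hY (i := 0) (by omega)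
  · rw [rank_prod hPol hs hc.mem hc.deg_pow hc.diag hY]
    simp
  · have h1 := o_prod (X := X) hs hc.mem hc.deg_pow hc.diag A ho 0
    rw [orank, h1]
    simp [orank]

include hPol ho hE in
lemma plane (X : 𝒱.Obj) {n : ℕ} (hY : HasRank W (X.prod E) (n + 2)) :
      rank W (X.prod E) (n + 2) = rank W X (n + 2) + rank W X (n + 1) + rank W X n ∧
      orank o (X.prod E) (n + 2) = orank o X (n + 2) + orank o X (n + 1) + orank o X n := by
  obtain ⟨hs, h, hc⟩ := hE
  have h0 : min 2 (n + 2) = 2 := by omega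
  refine ⟨?_, ?_⟩
  · rw [rank_prod hPol hs hc.mem hc.deg_pow hc.diag hY, h0]
    simp [Finset.sum_range_succ]
  · have h1 := o_prod (X := X) hs hc.mem hc.deg_pow hc.diag A ho (n + 2)
    rw [h0] at h1
    rw [orank, h1]
    simp [Finset.sum_range_succ, orank]

include hPol ho hE in
lemma plane_one (X : 𝒱.Obj) (hY : HasRank W (X.prod E) 1) :
      rank W (X.prod E) 1 = rank W X 1 + rank W X 0 ∧
      orank o (X.prod E) 1 = orank o X 1 + orank o X 0 := by
  obtain ⟨hs, h, hc⟩ := hE
  have h0 : min 2 1 = 1 := by omega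
  refine ⟨?_, ?_⟩
  · rw [rank_prod hPol hs hc.mem hc.deg_pow hc.diag hY, h0]
    simp [Finset.sum_range_succ]
  · have h1 := o_prod (X := X) hs hc.mem hc.deg_pow hc.diag A ho 1
    rw [h0] at h1
    rw [orank, h1]
    simp [Finset.sum_range_succ, orank]

include hPol ho hL hE in
/-- the middle codimension in dimension `2i + 3` gives the middle codimension in dimension
`2i + 1` -/
lemma middle_pred {i : ℕ} (hM : Middle W o (i + 1)) : Middle W o i := by
  intro X hX
  have hLd := hL.1
  have hEd := hE.1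
  obtain ⟨f1, r1⟩ := hM ((X.prod L).prod L) (by rw [dim_prod, dim_prod, hX, hLd]; omega)
  obtain ⟨f2, r2⟩ := hM (X.prod E) (by rw [dim_prod, hX, hEd]; omega)
  obtain ⟨g1, g2, g3, g4⟩ := line hPol ho hL (X.prod L) f1
  obtain ⟨k1, k2, k3, k4⟩ := line hPol ho hL X g1
  have r1' : rank W ((X.prod L).prod L) (i + 1) = orank o ((X.prod L).prod L) (i + 1) := by
    rw [r1, orank]
  have r2' : rank W (X.prod E) (i + 1) = orank o (X.prod E) (i + 1) := by
    rw [r2, orank]
  refine ⟨k2, ?_⟩
  change rank W X i = orank o X i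
  rcases i with _ | i
  · obtain ⟨l1, l2, l3⟩ := line_zero hPol ho hL X g2
    obtain ⟨p1, p2⟩ := plane_one hPol ho hE X f2
    simp only [Nat.reduceAdd] at *
    linarith
  · obtain ⟨l1, l2, l3, l4⟩ := line hPol ho hL X g2
    obtain ⟨p1, p2⟩ := plane hPol ho hE X f2
    linarith

include hPol ho hL hE in
lemma middle_le {i j : ℕ} (hij : i ≤ j) (hM : Middle W o j) : Middle W o i := by
  induction j, hij using Nat.le_induction with
  | base => exact hM
  | succ j _ ih => exact ih (middle_pred hPol ho hL hE hM)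

include hPol ho hL in
lemma symm_aux (t : ℕ) : ∀ (i : ℕ), (∀ j ≤ i, Middle W o j) → ∀ (X : 𝒱.Obj) (n n' : ℕ),
    X.dim = n + n' + 1 → n ≤ i → n = n' + t →
    HasRank W X n ∧ HasRank W X n' ∧ rank W X n + rank W X n' = orank o X n + orank o X n' := by
  induction t using Nat.strong_induction_on with
  | _ t ih =>
    intro i hM X n n' hX hn ht
    rcases t with _ | _ | t
    · rw [add_zero] at ht
      subst ht
      obtain ⟨h1, h2⟩ := hM n hn X (by omega)
      have h2' : rank W X n = orank o X n := by rw [h2, orank]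
      exact ⟨h1, h1, by rw [h2']⟩
    · rw [zero_add] at ht
      subst ht
      obtain ⟨h1, h2⟩ := hM (n' + 1) hn (X.prod L) (by rw [dim_prod, hX, hL.1]; omega)
      obtain ⟨g1, g2, g3, g4⟩ := line hPol ho hL X h1
      have h2' : rank W (X.prod L) (n' + 1) = orank o (X.prod L) (n' + 1) := by rw [h2, orank]
      exact ⟨g1, g2, by linarith⟩
    · obtain ⟨n, rfl⟩ : ∃ m, n = m + 1 := ⟨n - 1, by omega⟩
      obtain ⟨h1, h2, h3⟩ := ih (t + 1) (by omega) i hM (X.prod L) (n + 1) (n' + 1)
        (by rw [dim_prod, hX, hL.1]; omega) hn (by omega)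
      obtain ⟨g1, g2, g3, g4⟩ := line hPol ho hL X h1
      obtain ⟨l1, l2, l3, l4⟩ := line hPol ho hL X h2
      obtain ⟨_, _, h6⟩ := ih t (by omega) i hM X n (n' + 1) (by omega) (by omega) (by omega)
      exact ⟨g1, l2, by linarith⟩

include hPol ho hL hE in
/-- **The middle codimension and the symmetrised formula.** -/
theorem middle_iff (i : ℕ) : Middle W o i ↔ Symmetrised W o i := by
  constructor
  · intro hM X n n' hX hn hn'
    have hM' : ∀ j ≤ i, Middle W o j := fun j hj => middle_le hPol ho hL hE hj hM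
    rcases le_total n' n with h | h
    · exact symm_aux hPol ho hL (n - n') i hM' X n n' hX hn (by omega)
    · obtain ⟨h1, h2, h3⟩ := symm_aux hPol ho hL (n' - n) i hM' X n' n (by omega) hn' (by omega)
      refine ⟨h2, h1, ?_⟩
      change rank W X n + rank W X n' = orank o X n + orank o X n'
      linarith
  · intro h X hX
    obtain ⟨h1, _, h2⟩ := h X i i (by omega) le_rfl le_rfl
    exact ⟨h1, by linarith⟩

include ho in
lemma o_symm (hLef : HardLefschetz W) (X : 𝒱.Obj) (n' t : ℕ) (hX : X.dim = n' + t + n' + 1) :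
    orank o X (n' + t) = orank o X n' := by
  obtain ⟨D, hD, hbij⟩ := hLef X
  have hb := hbij (2 * n' + 1) t (by omega)
  have e0 : 2 * n' + 1 + 2 * t = 2 * (n' + t) + 1 := by ring
  rw [e0] at hb
  obtain ⟨hmap, hinj, hsurj⟩ := hb
  let f : W.gr X (2 * n' + 1) →ₗ[W.K] W.gr X (2 * (n' + t) + 1) :=
    ((LinearMap.mulLeft W.K (W.cl X D ^ t)) ∘ₗ (W.gr X (2 * n' + 1)).subtype).codRestrict _
      (fun a => hmap a.2)
  have hf : Function.Bijective f := by
    constructor
    · intro a b hab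
      exact Subtype.ext (hinj a.2 b.2 (congrArg Subtype.val hab))
    · rintro ⟨b, hb⟩
      obtain ⟨a, ha, hab⟩ := hsurj hb
      exact ⟨⟨a, ha⟩, Subtype.ext hab⟩
  let e : (∀ _ : Fin 1, W.gr X (2 * n' + 1)) ≃ₗ[W.K] W.gr X (2 * (n' + t) + 1) :=
    (LinearEquiv.funUnique (Fin 1) W.K (W.gr X (2 * n' + 1))).trans (LinearEquiv.ofBijective f hf)
  have h1 := ho 1 (fun _ => X) (fun _ => 2 * n' + 1) (fun _ => t) X (2 * (n' + t) + 1)
    ((n' + t : ℕ) + 1) (isSumOf_mk A e fun g v w hw => ?_)
  · rw [orank, h1]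
    simp only [Finset.univ_unique, Finset.sum_singleton]
    rw [orank]
    congr 1
    push_cast
    ring
  · change W.cl X D ^ t * ((w 0 : W.gr X (2 * n' + 1)) : W.H X) = A.ρ X g (W.cl X D ^ t * (v 0))
    rw [hw, map_mul, ← map_pow, (A.acts X).cyc g t (D ^ t) (pow_mem hD t), mul_smul_comm,
      smul_mul_assoc]

include ho in
lemma o_zero (X : 𝒱.Obj) (n : ℕ) (hn : X.dim ≤ n) : orank o X n = 0 := by
  have h1 := ho 0 (fun _ => X) (fun _ => 0) (fun _ => 0) X (2 * n + 1) (n + 1) ?_
  · rw [orank, h1]; simp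
  · have hb : W.gr X (2 * n + 1) = ⊥ := W.gr_eq_bot X _ (by omega)
    have hz : ∀ a : W.gr X (2 * n + 1), a = 0 := by
      rintro ⟨a, ha⟩
      rw [hb, Submodule.mem_bot] at ha
      exact Subtype.ext ha
    refine isSumOf_mk A (LinearEquiv.ofLinearMap 0 0 (LinearMap.ext fun a => ?_)
      (LinearMap.ext fun v => ?_)) fun g v w hw => ?_
    · exact (hz _).trans (hz _).symm
    · funext i; exact i.elim0
    · simp

lemma rank_top (X : 𝒱.Obj) (n : ℕ) (hn : X.dim ≤ n) : HasRank W X n ∧ rank W X n = 0 := by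
  have h1 : homTriv W X (n + 1) = ⊥ := by
    rw [eq_bot_iff]
    intro x hx
    have := hx.1
    rwa [C.gr_eq_bot X _ (by omega)] at this
  constructor
  · rw [HasRank, h1]
    change Module.Finite ℚ (⊥ : Submodule ℚ (C.CH X))
    infer_instance
  · rw [rank, dimOf, h1]; simp

include hPol ho hL hE in
/-- **The full conjecture.** -/
theorem full_iff (hLef : HardLefschetz W) :
    Full W o ↔ (∀ i, Middle W o i) ∧ RankSymmetry W := by
  have hsym : ∀ (X : 𝒱.Obj) (n n' : ℕ), X.dim = n + n' + 1 → orank o X n = orank o X n' := by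
    intro X n n' hX
    rcases le_total n' n with h | h
    · obtain ⟨t, rfl⟩ := Nat.exists_eq_add_of_le h
      exact o_symm ho hLef X n' t (by omega)
    · obtain ⟨t, rfl⟩ := Nat.exists_eq_add_of_le h
      exact (o_symm ho hLef X n t (by omega)).symm
  constructor
  · intro h
    refine ⟨fun i X _ => h X i, fun X n n' hX => ?_⟩
    have h1 : rank W X n = orank o X n := (h X n).2
    have h2 : rank W X n' = orank o X n' := (h X n').2
    rw [h1, h2, hsym X n n' hX]
  · rintro ⟨hM, hS⟩ X n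
    by_cases hn : X.dim ≤ n
    · obtain ⟨h1, h2⟩ := rank_top (W := W) X n hn
      refine ⟨h1, ?_⟩
      change rank W X n = orank o X n
      rw [h2, o_zero ho X n hn]
    · obtain ⟨n', hn'⟩ : ∃ n', X.dim = n + n' + 1 := ⟨X.dim - n - 1, by omega⟩
      obtain ⟨h1, h2, h3⟩ := (middle_iff hPol ho hL hE (max n n')).1 (hM _) X n n' hn'
        (le_max_left _ _) (le_max_right _ _)
      refine ⟨h1, ?_⟩
      change rank W X n + rank W X n' = orank o X n + orank o X n' at h3
      change rank W X n = orank o X n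
      have h4 := hS X n n' hn'
      have h5 := hsym X n n' hn'
      linarith

end Main

end Pool.Agent.R898.G
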