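import Pool.Agent.R903.Corr

/-!
# The rank formula in the middle codimension: the definitions used in the statement
-/

open CategoryTheory CategoryTheory.Limits AlgebraicGeometry
open Pool.Agent.H914 Pool.Agent.H914.VarClass Pool.Agent.H914.VarClass.Obj
open Pool.Agent.R903

universe u v w

namespace Pool.Agent.R898.G

section Alg

variable {A : Type v} [CommRing A] [Algebra ℚ A] {B : Type v} [CommRing B] [Algebra ℚ B]
  {D : Type v} [CommRing D] [Algebra ℚ D]
  {K : Type w} [Field K] {H : Type w} [Ring H] [Algebra K H]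

/-- The subspace of the elements `x` of `U` with `c x = 0`. -/
def nullPart (U : Submodule ℚ A) (c : A →+* H) : Submodule ℚ A where
  carrier := {x | x ∈ U ∧ c x = 0}
  add_mem' := fun {a b} ha hb => ⟨U.add_mem ha.1 hb.1, by rw [map_add, ha.2, hb.2, add_zero]⟩
  zero_mem' := ⟨U.zero_mem, map_zero c⟩
  smul_mem' := fun q x hx => ⟨U.smul_mem q hx.1, by rw [Algebra.smul_def, map_mul, hx.2, mul_zero]⟩

/-- `U` is finite-dimensional. -/
def FinDim (U : Submodule ℚ A) : Prop := Module.Finite ℚ U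

/-- The dimension of `U` (zero if it is infinite). -/
noncomputable def dimOf (U : Submodule ℚ A) : ℤ := Module.finrank ℚ U

/-- `h` is in `U`, the degree of `h ^ s` is one, and `δ` is the sum of the products
`p (h ^ i) q (h ^ (s - i))`, `i = 0, …, s`. -/
structure CellDiag (U : Submodule ℚ A) (deg : A →ₗ[ℚ] ℚ) (p q : A →ₐ[ℚ] D) (δ : D) (s : ℕ) (h : A) :
    Prop where
  mem : h ∈ U
  deg_pow : deg (h ^ s) = 1
  diag : δ = ∑ i ∈ Finset.range (s + 1), p (h ^ i) * q (h ^ (s - i))

/-- The operators `ρ g` preserve the subspace `U`. -/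
def Stable {G : Type w} [Group G] (U : Submodule K H) (ρ : G →* (H →ₐ[K] H)) : Prop :=
  ∀ g, ∀ a ∈ U, ρ g a ∈ U

/-- The operators `ρ g` preserve the subspaces `gr j`, and `ρ g (c x) = ψ(g) ^ p c x` for `x` in
`U p`. -/
structure ActsOn {G : Type w} [Group G] (ψ : G →* K) (ρ : G →* (H →ₐ[K] H)) (gr : ℕ → Submodule K H)
    (U : ℕ → Submodule ℚ A) (c : A →+* H) : Prop where
  mem_gr : ∀ j, Stable (gr j) ρ
  cyc : ∀ g p, ∀ x ∈ U p, ρ g (c x) = ψ g ^ p • c x

/-- `f` commutes with the action of `G`. -/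
def Equivariant {H' : Type w} [Ring H'] [Algebra K H'] {G : Type w} [Group G]
    (ρ : G →* (H →ₐ[K] H)) (ρ' : G →* (H' →ₐ[K] H')) (f : H →ₐ[K] H') : Prop :=
  ∀ g a, ρ' g (f a) = f (ρ g a)

/-- The multiplication with the power `ℓ ^ t` is a bijection from `U` to `V`. -/
def PowBij (ℓ : H) (t : ℕ) (U V : Submodule K H) : Prop :=
  Set.BijOn (fun a => ℓ ^ t * a) U V

end Alg

/-- A vector space `V` with operators `op g`, `g ∈ G`. -/
structure OpSpace (K : Type w) [Field K] (G : Type w) where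
  /-- the vector space -/
  V : Type w
  [grp : AddCommGroup V]
  [mod : Module K V]
  /-- the operators -/
  op : G → V → V

attribute [instance] OpSpace.grp OpSpace.mod

/-- `S` and `T` are isomorphic. -/
def OpSpace.Iso {K : Type w} [Field K] {G : Type w} (S T : OpSpace K G) : Prop :=
  ∃ e : S.V ≃ₗ[K] T.V, ∀ g v, e (S.op g v) = T.op g (e v)

/-- The twist `S(-r)`: the operators are multiplied with the `r`-th power of the character `ψ`. -/
def OpSpace.twist {K : Type w} [Field K] {G : Type w} (ψ : G → K) (r : ℕ) (S : OpSpace K G) :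
    OpSpace K G :=
  ⟨S.V, fun g v => ψ g ^ r • S.op g v⟩

/-- The direct sum of the `S i`. -/
def OpSpace.sum {K : Type w} [Field K] {G : Type w} {t : ℕ} (S : Fin t → OpSpace K G) :
    OpSpace K G :=
  ⟨∀ i, (S i).V, fun g v i => (S i).op g (v i)⟩

/-- The operator `f` on the stable subspace `U`. -/
def restrict {K : Type w} [Field K] {H : Type w} [Ring H] [Algebra K H] (f : H →ₐ[K] H)
    (U : Submodule K H) (h : ∀ a ∈ U, f a ∈ U) : U → U :=
  fun a => ⟨f a, h a a.2⟩

/-- The stable subspace `U` with the operators `ρ g`. -/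
def OpSpace.sub {K : Type w} [Field K] {G : Type w} [Group G] {H : Type w} [Ring H] [Algebra K H]
    (U : Submodule K H) (ρ : G →* (H →ₐ[K] H)) (h : Stable U ρ) : OpSpace K G :=
  ⟨U, fun g => restrict (ρ g) U (h g)⟩

variable {k : Type u} [Field k] {𝒱 : VarClass k} {C : ChowTheory.{u, v} 𝒱}

/-- `P` is like the projective space of dimension `s`: its diagonal is the sum of the classes
`h ^ i × h ^ (s - i)`, for a divisor class `h` with `deg (h ^ s) = 1`. -/
def IsProj (C : ChowTheory.{u, v} 𝒱) (s : ℕ) (P : 𝒱.Obj) : Prop :=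
  P.dim = s ∧ ∃ h, CellDiag (C.gr P 1) (C.deg P) (C.pull (fst P P)) (C.pull (snd P P)) (C.diagC P) s h

/-- An action of the group `G` (the Galois group) on the cohomology rings, compatible with
pull-backs, such that `G` acts on the classes of the cycles of codimension `p` by the character
`ψ ^ p` (`ψ` is the inverse of the cyclotomic character). -/
structure GalAction (W : WeilTheory.{u, v, w} C) (G : Type w) [Group G] (ψ : G →* W.K) where
  /-- the action on `H(X)` -/
  ρ : ∀ X : 𝒱.Obj, G →* (W.H X →ₐ[W.K] W.H X)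
  acts : ∀ X, ActsOn ψ (ρ X) (W.gr X) (C.gr X) (W.cl X)
  natural : ∀ {X Y : 𝒱.Obj} (f : X ⟶ Y), Equivariant (ρ Y) (ρ X) (W.map f)

variable {W : WeilTheory.{u, v, w} C}

/-- The space of the homologically trivial classes in `CH^m(X)`. -/
def homTriv (W : WeilTheory.{u, v, w} C) (X : 𝒱.Obj) (m : ℕ) : Submodule ℚ (C.CH X) :=
  nullPart (C.gr X m) (W.cl X)

/-- There is a divisor class whose powers give isomorphisms `H^j(X) → H^(2 dim X - j)(X)`. -/
def HardLefschetz (W : WeilTheory.{u, v, w} C) : Prop :=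
  ∀ X : 𝒱.Obj, ∃ D ∈ C.gr X 1, ∀ j t, j + t = X.dim →
    PowBij (W.cl X D) t (W.gr X j) (W.gr X (j + 2 * t))

/-- The Galois representation `H^j(X)`. -/
def GalAction.rep {G : Type w} [Group G] {ψ : G →* W.K} (A : GalAction W G ψ) (X : 𝒱.Obj) (j : ℕ) :
    OpSpace W.K G :=
  OpSpace.sub (W.gr X j) (A.ρ X) ((A.acts X).mem_gr j)

/-- `o X j m` has the formal properties of the order of `L(H^j(X), s)` at `s = m`: if `H^l(Y)` is the
direct sum of the representations `H^(j i)(X i)(-r i)`, so that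
`L(H^l(Y), s) = ∏ L(H^(j i)(X i), s - r i)`, then the order of `L(H^l(Y), s)` at `s = m` is the sum of
the orders of `L(H^(j i)(X i), s)` at `s = m - r i`. -/
def IsOrder {G : Type w} [Group G] {ψ : G →* W.K} (A : GalAction W G ψ)
    (o : 𝒱.Obj → ℕ → ℤ → ℤ) : Prop :=
  ∀ (t : ℕ) (X : Fin t → 𝒱.Obj) (j r : Fin t → ℕ) (Y : 𝒱.Obj) (l : ℕ) (m : ℤ),
    (OpSpace.sum fun i => (A.rep (X i) (j i)).twist ψ (r i)).Iso (A.rep Y l) →
      o Y l m = ∑ i, o (X i) (j i) (m - r i)

/-- The rank of the group of homologically trivial classes of codimension `n + 1`. -/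
noncomputable def rank (W : WeilTheory.{u, v, w} C) (X : 𝒱.Obj) (n : ℕ) : ℤ :=
  dimOf (homTriv W X (n + 1))

/-- The rank of the group of homologically trivial classes of codimension `n + 1` is finite. -/
def HasRank (W : WeilTheory.{u, v, w} C) (X : 𝒱.Obj) (n : ℕ) : Prop :=
  FinDim (homTriv W X (n + 1))

/-- The conjecture for the varieties of dimension `2i + 1` and the codimension `i + 1`. -/
def Middle (W : WeilTheory.{u, v, w} C) (o : 𝒱.Obj → ℕ → ℤ → ℤ) (i : ℕ) : Prop :=
  ∀ X : 𝒱.Obj, X.dim = 2 * i + 1 → HasRank W X i ∧ rank W X i = o X (2 * i + 1) (i + 1)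

/-- The symmetrised conjecture for the codimensions `n + 1 ≤ i + 1` and `n' + 1 ≤ i + 1` on the
varieties of dimension `n + n' + 1`. -/
def Symmetrised (W : WeilTheory.{u, v, w} C) (o : 𝒱.Obj → ℕ → ℤ → ℤ) (i : ℕ) : Prop :=
  ∀ (X : 𝒱.Obj) (n n' : ℕ), X.dim = n + n' + 1 → n ≤ i → n' ≤ i →
    HasRank W X n ∧ HasRank W X n' ∧
      rank W X n + rank W X n' = o X (2 * n + 1) (n + 1) + o X (2 * n' + 1) (n' + 1)

/-- The conjecture for all varieties and all codimensions `n + 1`. -/
def Full (W : WeilTheory.{u, v, w} C) (o : 𝒱.Obj → ℕ → ℤ → ℤ) : Prop :=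
  ∀ (X : 𝒱.Obj) (n : ℕ), HasRank W X n ∧ rank W X n = o X (2 * n + 1) (n + 1)

/-- The ranks in the codimensions `m = n + 1` and `dim X + 1 - m = n' + 1` are the same. -/
def RankSymmetry (W : WeilTheory.{u, v, w} C) : Prop :=
  ∀ (X : 𝒱.Obj) (n n' : ℕ), X.dim = n + n' + 1 → rank W X n = rank W X n'

end Pool.Agent.R898.G
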