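import Pool.Agent.R898.HLS
import Mathlib.Data.Real.Basic

/-!
# The Hodge index conjecture for height pairings: the definitions used in the statement
-/

open CategoryTheory CategoryTheory.Limits AlgebraicGeometry
open Pool.Agent.H914 Pool.Agent.H914.VarClass Pool.Agent.H914.VarClass.Obj
open Pool.Agent.R903

universe u v w

namespace Pool.Agent.R898.HL

section Alg

variable {A : Type v} [CommRing A] [Algebra ℚ A] {B : Type v} [CommRing B] [Algebra ℚ B]

/-- The multiplication by `x ^ r` is injective on `U`. -/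
def MulInj (x : A) (r : ℕ) (U : Submodule ℚ A) : Prop := ∀ y ∈ U, x ^ r * y = 0 → y = 0

/-- The multiplication by `x ^ r` maps `U` onto a space containing `V`. -/
def MulSurj (x : A) (r : ℕ) (U V : Submodule ℚ A) : Prop := ∀ y ∈ V, ∃ z ∈ U, x ^ r * z = y

/-- `h` is additive in both variables on `U × V`. -/
structure BiAdd (h : A → A → ℝ) (U V : Submodule ℚ A) : Prop where
  left : ∀ x ∈ U, ∀ x' ∈ U, ∀ y ∈ V, h (x + x') y = h x y + h x' y
  right : ∀ x ∈ U, ∀ y ∈ V, ∀ y' ∈ V, h x (y + y') = h x y + h x y'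

/-- `h' (T x) y = h x (S y)` for `x` in `U` and `y` in `V`. -/
def Adj (T : A →ₗ[ℚ] B) (S : B →ₗ[ℚ] A) (h : A → A → ℝ) (h' : B → B → ℝ) (U : Submodule ℚ A)
    (V : Submodule ℚ B) : Prop := ∀ x ∈ U, ∀ y ∈ V, h' (T x) y = h x (S y)

/-- `(-1)^i h(x, d^r x) > 0` for the nonzero `x` in `U` with `d^(r+1) x = 0`. -/
def Positive (h : A → A → ℝ) (d : A) (r i : ℕ) (U : Submodule ℚ A) : Prop :=
  ∀ x ∈ U, x ≠ 0 → d ^ (r + 1) * x = 0 → 0 < (-1) ^ i * h x (d ^ r * x)

/-- An `x` in `U` with `h(x, y) = 0` for all `y` in `V` is zero. -/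
def NonDeg (h : A → A → ℝ) (U V : Submodule ℚ A) : Prop := ∀ x ∈ U, (∀ y ∈ V, h x y = 0) → x = 0

end Alg

variable {k : Type u} [Field k] {𝒱 : VarClass k} {C : ChowTheory.{u, v} 𝒱}
  (W : WeilTheory.{u, v, w} C)

/-- The transposed correspondence. -/
noncomputable def tr (C : ChowTheory.{u, v} 𝒱) {X Y : 𝒱.Obj} (γ : C.CH (X.prod Y)) :
    C.CH (Y.prod X) :=
  C.pull (lift (snd Y X) (fst Y X)) γ

/-- `ht X` has the formal properties of the height pairing between homologically trivial cycles of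
codimensions `i` and `j`, `i + j = dim X + 1`, on `X`: it is biadditive, and the action of a
correspondence is adjoint to the action of the transposed one. -/
structure IsHeight (ht : ∀ X : 𝒱.Obj, C.CH X → C.CH X → ℝ) : Prop where
  bi : ∀ (X : 𝒱.Obj) (i j : ℕ), i + j = X.dim + 1 → BiAdd (ht X) (homTriv W X i) (homTriv W X j)
  adj : ∀ (X Y : 𝒱.Obj) (c i j : ℕ) (γ : C.CH (X.prod Y)), Codim C c γ →
    i + c + j = X.dim + Y.dim + 1 →
    Adj (C.act γ) (C.act (tr C γ)) (ht X) (ht Y) (homTriv W X i) (homTriv W Y j)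

/-- **Question 2 for** `(X, D)`: for `i ≤ j`, `i + j = dim X + 1`, and the nonzero `x` in
`CH^i(X)_hom` with `D^(j-i+1) x = 0` the number `(-1)^i (x, D^(j-i) x)` is positive. -/
def HodgeIndex (ht : ∀ X : 𝒱.Obj, C.CH X → C.CH X → ℝ) (X : 𝒱.Obj) (D : C.CH X) : Prop :=
  ∀ i j : ℕ, i ≤ j → i + j = X.dim + 1 → Positive (ht X) D (j - i) i (homTriv W X i)

/-- The height pairing on `X` is nondegenerate. -/
def HeightNonDeg (ht : ∀ X : 𝒱.Obj, C.CH X → C.CH X → ℝ) (X : 𝒱.Obj) : Prop :=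
  ∀ i j : ℕ, i + j = X.dim + 1 → NonDeg (ht X) (homTriv W X i) (homTriv W X j)

/-- Injectivity in Question 1 for `(X, D)`. -/
def LefInj (X : 𝒱.Obj) (D : C.CH X) : Prop :=
  ∀ i j : ℕ, i ≤ j → i + j = X.dim + 1 → MulInj D (j - i) (homTriv W X i)

/-- Surjectivity in Question 1 for `(X, D)`. -/
def LefSurj (X : 𝒱.Obj) (D : C.CH X) : Prop :=
  ∀ i j : ℕ, i ≤ j → i + j = X.dim + 1 → MulSurj D (j - i) (homTriv W X i) (homTriv W X j)

/-- `π i` kills `CH^m(X)_hom` for all `i ≥ 2m`. -/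
def NoneAbove (X : 𝒱.Obj) (π : ℕ → C.CH (X.prod X)) : Prop :=
  ∀ i m : ℕ, 2 * m ≤ i → KillsAll (C.act (π i)) (homTriv W X m)

/-- `π i` kills `CH^m(X)_hom` for all `i ≤ 2m - 2`. -/
def NoneBelow (X : 𝒱.Obj) (π : ℕ → C.CH (X.prod X)) : Prop :=
  ∀ i m : ℕ, i + 2 ≤ 2 * m → KillsAll (C.act (π i)) (homTriv W X m)

end Pool.Agent.R898.HL
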