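import Pool.Agent.R903.JM

/-!
# `sl₂`-modules with a second symmetry
-/

open Finset Pool.Agent.R903

namespace Pool.Agent.R898.HL

variable {V : Type*} [AddCommGroup V] [Module ℚ V]

/-- an `sl₂`-triple acting on a family of subspaces -/
structure Sl2 (N : ℕ) (G : ℕ → Submodule ℚ V) (x z h : Module.End ℚ V) : Prop where
  h1 : ∀ v, x (z v) = z (x v) + h v
  h2 : ∀ v, h (x v) = x (h v) + (2 : ℚ) • x v
  h3 : ∀ v, h (z v) = z (h v) - (2 : ℚ) • z v
  nx : ∃ M, x ^ M = 0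
  nz : ∃ M, z ^ M = 0
  gx : ∀ m, ∀ v ∈ G m, x v ∈ G (m + 1)
  gz : ∀ m, ∀ v ∈ G (m + 1), z v ∈ G m
  gz0 : ∀ v ∈ G 0, z v = 0
  gh : ∀ m, ∀ v ∈ G m, h v ∈ G m
  top : ∀ m, N < m → G m = ⊥

variable {N : ℕ} {G : ℕ → Submodule ℚ V} {x z h : Module.End ℚ V}

lemma Sl2.powx (s : Sl2 N G x z h) {m : ℕ} {v : V} (hv : v ∈ G m) (k : ℕ) :
    (x ^ k) v ∈ G (m + k) := by
  induction k with
  | zero => simpa using hv
  | succ k ih => rw [pow_succ', Module.End.mul_apply]; exact s.gx _ _ ih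

lemma Sl2.powz (s : Sl2 N G x z h) {m k : ℕ} {v : V} (hv : v ∈ G (m + k)) :
    (z ^ k) v ∈ G m := by
  induction k generalizing m with
  | zero => simpa using hv
  | succ k ih =>
    rw [pow_succ', Module.End.mul_apply]
    exact s.gz _ _ (ih (by rwa [add_assoc, add_comm 1 k]))

lemma Sl2.powz0 (s : Sl2 N G x z h) {m : ℕ} {v : V} (hv : v ∈ G m) : (z ^ (m + 1)) v = 0 := by
  rw [pow_succ', Module.End.mul_apply]
  exact s.gz0 _ (s.powz (by rwa [zero_add]))

lemma Sl2.wx (s : Sl2 N G x z h) {v : V} {l : ℚ} (hv : h v = l • v) (k : ℕ) :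
    h ((x ^ k) v) = (l + 2 * k) • (x ^ k) v := by
  rw [jm_pow_comm s.h2, hv, map_smul, add_smul]

lemma Sl2.wz (s : Sl2 N G x z h) {v : V} {l : ℚ} (hv : h v = l • v) (k : ℕ) :
    h ((z ^ k) v) = (l - 2 * k) • (z ^ k) v := by
  induction k with
  | zero => simpa using hv
  | succ k ih =>
    rw [pow_succ', Module.End.mul_apply, s.h3, ih, map_smul]
    push_cast
    module

lemma Sl2.injx (s : Sl2 N G x z h) {v : V} {m : ℕ} (hv : h v = (-(m : ℚ)) • v) {k : ℕ}
    (hk : k ≤ m) (h0 : (x ^ k) v = 0) : v = 0 := by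
  obtain ⟨M, hM⟩ := s.nx
  exact jm_inj s.h1 s.h2 hM hv k hk h0

lemma Sl2.injz (s : Sl2 N G x z h) {v : V} {m : ℕ} (hv : h v = (m : ℚ) • v) {k : ℕ}
    (hk : k ≤ m) (h0 : (z ^ k) v = 0) : v = 0 := by
  obtain ⟨M, hM⟩ := s.nz
  refine jm_inj (x := z) (z := x) (h := -h) (fun v => ?_) (fun v => ?_) hM (m := m) ?_ k hk h0
  · rw [LinearMap.neg_apply, s.h1]; abel
  · rw [LinearMap.neg_apply, LinearMap.neg_apply, s.h3, map_neg]; abel
  · rw [LinearMap.neg_apply, hv, neg_smul]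

/-- `G m` has no vectors of weight `l` -/
def U (G : ℕ → Submodule ℚ V) (h : Module.End ℚ V) (m l : ℤ) : Prop :=
  ∀ n : ℕ, (n : ℤ) = m → ∀ v ∈ G n, h v = (l : ℚ) • v → v = 0

lemma Sl2.symm_aux (s : Sl2 N G x z h) (m : ℤ) (k : ℕ) : U G h m (-k) ↔ U G h (m + k) k := by
  constructor
  · intro hU n hn w hw hh
    rw [Int.cast_natCast] at hh
    by_cases hkn : k ≤ n
    · obtain ⟨n', rfl⟩ : ∃ n', n = n' + k := ⟨n - k, by omega⟩
      have h1 := hU n' (by push_cast at hn; omega) _ (s.powz hw) (by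
        rw [s.wz hh]
        congr 1
        push_cast
        ring)
      exact s.injz hh le_rfl h1
    · exact s.injz hh (k := n + 1) (by omega) (s.powz0 hw)
  · intro hU n hn v hv hh
    have hh' : h v = (-(k : ℚ)) • v := by rw [hh]; push_cast; rfl
    refine s.injx hh' le_rfl (hU (n + k) (by push_cast; omega) _ (s.powx hv k) ?_)
    rw [s.wx hh']
    congr 1
    push_cast
    ring

/-- the hard Lefschetz symmetry -/
lemma Sl2.symm (s : Sl2 N G x z h) (m l : ℤ) : U G h m l ↔ U G h (m - l) (-l) := by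
  rcases le_total l 0 with hl | hl
  · obtain ⟨k, rfl⟩ : ∃ k : ℕ, l = -k := ⟨l.natAbs, by omega⟩
    rw [s.symm_aux, sub_neg_eq_add, neg_neg]
  · obtain ⟨k, rfl⟩ : ∃ k : ℕ, l = k := ⟨l.natAbs, by omega⟩
    rw [s.symm_aux, sub_add_cancel]

/-- the bijectivity -/
def Bij (N : ℕ) (G : ℕ → Submodule ℚ V) (x : Module.End ℚ V) : Prop :=
  ∀ i j : ℕ, i ≤ j → i + j = N + 1 → Set.BijOn (fun v => (x ^ (j - i)) v) (G i) (G j)

lemma U_neg {m l : ℤ} (hm : m < 0) : U G h m l := fun n hn => by omega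

lemma Sl2.U_top (s : Sl2 N G x z h) {m l : ℤ} (hm : (N : ℤ) < m) : U G h m l := by
  intro n hn v hv _
  rw [s.top n (by omega)] at hv
  exact (Submodule.mem_bot _).1 hv

lemma Sl2.symm2_aux (s : Sl2 N G x z h) (hb : Bij N G x) {m l : ℤ} (hm : 2 * m ≤ N + 1) :
    U G h m l ↔ U G h (N + 1 - m) (l + 2 * (N + 1 - 2 * m)) := by
  rcases lt_or_ge m 0 with hm0 | hm0
  · exact ⟨fun _ => s.U_top (by omega), fun _ => U_neg hm0⟩
  obtain ⟨i, rfl⟩ : ∃ i : ℕ, m = i := ⟨m.natAbs, by omega⟩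
  obtain ⟨j, hj⟩ : ∃ j : ℕ, i + j = N + 1 := ⟨N + 1 - i, by omega⟩
  have hij : i ≤ j := by omega
  have hB := hb i j hij hj
  have hc : ((j - i : ℕ) : ℚ) = (j : ℚ) - i := by rw [Nat.cast_sub hij]
  have hj' : (j : ℚ) = N + 1 - i := by
    have h4 : ((i + j : ℕ) : ℚ) = ((N + 1 : ℕ) : ℚ) := by rw [hj]
    push_cast at h4
    linarith
  constructor
  · intro hU n hn y hy hh
    have hnj : n = j := by omega
    subst hnj
    obtain ⟨v, hv, hv'⟩ := hB.surjOn hy
    simp only at hv'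
    have e : h v - (l : ℚ) • v = 0 := by
      refine hB.injOn (Submodule.sub_mem _ (s.gh _ _ hv) (Submodule.smul_mem _ _ hv))
        (Submodule.zero_mem _) ?_
      simp only [map_zero]
      have e1 := jm_pow_comm s.h2 (n - i) v
      rw [hv', hh] at e1
      rw [map_sub, map_smul, hv']
      have e2 : (x ^ (n - i)) (h v) = (((l + 2 * (N + 1 - 2 * (i : ℤ)) : ℤ) : ℚ)) • y -
        (2 * ((n - i : ℕ) : ℚ)) • y := by rw [e1]; abel
      rw [e2, hc, hj']
      push_cast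
      module
    have hv0 := hU i rfl v hv (sub_eq_zero.1 e)
    rw [← hv', hv0, map_zero]
  · intro hU n hn v hv hh
    have hni : n = i := by omega
    subst hni
    have e := hU j (by omega) _ (hB.mapsTo hv) (by
      rw [s.wx hh, hc, hj']
      congr 1
      push_cast
      ring)
    exact hB.injOn hv (Submodule.zero_mem _) (by simpa using e)

/-- the second symmetry -/
lemma Sl2.symm2 (s : Sl2 N G x z h) (hb : Bij N G x) (m l : ℤ) :
    U G h m l ↔ U G h (N + 1 - m) (l + 2 * (N + 1 - 2 * m)) := by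
  rcases le_total (2 * m) (N + 1) with hm | hm
  · exact s.symm2_aux hb hm
  · have h1 := s.symm2_aux hb (m := N + 1 - m) (l := l + 2 * (N + 1 - 2 * m)) (by omega)
    rw [h1]
    have e1 : (N : ℤ) + 1 - (N + 1 - m) = m := by ring
    have e2 : l + 2 * ((N : ℤ) + 1 - 2 * m) + 2 * (N + 1 - 2 * (N + 1 - m)) = l := by ring
    rw [e1, e2]

lemma Sl2.shift (s : Sl2 N G x z h) (hb : Bij N G x) (m l : ℤ) :
    U G h m l ↔ U G h (m + (l + N + 1 - 2 * m)) (l + 2 * (l + N + 1 - 2 * m)) := by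
  rw [s.symm, s.symm2 hb]
  have e1 : (N : ℤ) + 1 - (m - l) = m + (l + N + 1 - 2 * m) := by ring
  have e2 : -l + 2 * ((N : ℤ) + 1 - 2 * (m - l)) = l + 2 * (l + N + 1 - 2 * m) := by ring
  rw [e1, e2]

lemma Sl2.shifts (s : Sl2 N G x z h) (hb : Bij N G x) (m l t : ℤ) (ht : t = l + N + 1 - 2 * m)
    (j : ℕ) : U G h m l ↔ U G h (m + j * t) (l + 2 * (j * t)) := by
  induction j with
  | zero => simp
  | succ j ih =>
    rw [ih, s.shift hb]
    have e1 : m + (j : ℤ) * t + (l + 2 * (j * t) + N + 1 - 2 * (m + j * t)) =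
        m + ((j + 1 : ℕ) : ℤ) * t := by
      push_cast; rw [ht]; ring
    have e2 : l + 2 * ((j : ℤ) * t) + 2 * (l + 2 * (j * t) + N + 1 - 2 * (m + j * t)) =
        l + 2 * (((j + 1 : ℕ) : ℤ) * t) := by
      push_cast; rw [ht]; ring
    rw [e1, e2]

/-- **Two different symmetries: only one line of weights remains.** -/
theorem Sl2.eig_zero (s : Sl2 N G x z h) (hb : Bij N G x) {m : ℕ} {l : ℤ} {v : V}
    (hv : v ∈ G m) (hh : h v = (l : ℚ) • v) (hl : l + N + 1 ≠ 2 * m) : v = 0 := by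
  set t : ℤ := l + N + 1 - 2 * m with ht
  have ht0 : t ≠ 0 := by omega
  have key : U G h (m + ((m + N + 1 : ℕ) : ℤ) * t) (l + 2 * (((m + N + 1 : ℕ) : ℤ) * t)) := by
    rcases lt_or_gt_of_ne ht0 with h0 | h0
    · apply U_neg
      have h1 : t ≤ -1 := by omega
      push_cast
      nlinarith
    · apply s.U_top
      have h1 : 1 ≤ t := by omega
      push_cast
      nlinarith
  exact (s.shifts hb m l t ht (m + N + 1)).2 key m rfl v hv hh

/-- surjectivity of the powers -/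
lemma Sl2.surj (s : Sl2 N G x z h) (r : ℕ) : ∀ (k m : ℕ) (y : V), y ∈ G m → h y = (k : ℚ) • y →
    (x ^ r) y = 0 → ∃ w, (∀ m', m' + k = m → w ∈ G m') ∧ (x ^ k) w = y := by
  induction r with
  | zero =>
    intro k m y _ _ h0
    exact ⟨0, fun _ _ => Submodule.zero_mem _, by simpa using h0.symm⟩
  | succ r ih =>
    intro k m y hy hh h0
    set u := (x ^ r) y with hu
    have hxu : x u = 0 := by rw [hu, ← Module.End.mul_apply, ← pow_succ', h0]
    have hwu : h u = ((k : ℚ) + 2 * r) • u := s.wx hh r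
    have hug : u ∈ G (m + r) := s.powx hy r
    have hne : ∀ n : ℕ, n ≤ r + k → (∏ i ∈ range n, (((i : ℚ) + 1) * ((k : ℚ) + 2 * r - i))) ≠ 0 := by
      intro n hn
      rw [prod_ne_zero_iff]
      intro i hi
      rw [mem_range] at hi
      have h5 : (i : ℚ) + 1 ≠ 0 := by positivity
      have h6 : (k : ℚ) + 2 * r - i ≠ 0 := by
        intro h7
        have h8 : (k + 2 * r : ℕ) = i := by
          have : ((k + 2 * r : ℕ) : ℚ) = i := by push_cast; linarith
          exact_mod_cast this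
        omega
      exact mul_ne_zero h5 h6
    obtain ⟨c, hc, hc1⟩ : ∃ c : ℚ, c ≠ 0 ∧ (x ^ r) ((z ^ r) u) = c • u :=
      ⟨_, hne r (by omega), jm_lower_pow s.h1 s.h3 hwu hxu r⟩
    obtain ⟨c', hc', hc2⟩ : ∃ c : ℚ, c ≠ 0 ∧ (x ^ (r + k)) ((z ^ (r + k)) u) = c • u :=
      ⟨_, hne (r + k) le_rfl, jm_lower_pow s.h1 s.h3 hwu hxu (r + k)⟩
    -- the vectors `x^k z^(r+k) u` and `z^r u` are proportional
    have hprop : ∃ d : ℚ, (x ^ k) ((z ^ (r + k)) u) = d • (z ^ r) u := by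
      have : ∀ n : ℕ, ∃ d : ℚ, (x ^ n) ((z ^ (r + n)) u) = d • (z ^ r) u := by
        intro n
        induction n with
        | zero => exact ⟨1, by simp⟩
        | succ n ihn =>
          obtain ⟨d, hd⟩ := ihn
          refine ⟨(((r + n : ℕ) : ℚ) + 1) * ((k : ℚ) + 2 * r - ((r + n : ℕ) : ℚ)) * d, ?_⟩
          rw [pow_succ x, Module.End.mul_apply, ← add_assoc,
            (jm_lower s.h1 s.h3 hwu hxu (r + n)).2, map_smul, hd, smul_smul]
      exact this k
    obtain ⟨d, hd⟩ := hprop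
    have hd0 : u ≠ 0 → d ≠ 0 := by
      intro hu0 hd0
      rw [pow_add, Module.End.mul_apply, hd, hd0, zero_smul, map_zero] at hc2
      exact (smul_ne_zero hc' hu0) hc2.symm
    by_cases hu0 : u = 0
    · exact ih k m y hy hh (by rw [← hu, hu0])
    have hd1 := hd0 hu0
    obtain ⟨w, hw, hw'⟩ := ih k m (y - c⁻¹ • (z ^ r) u)
      (Submodule.sub_mem _ hy (Submodule.smul_mem _ _ (s.powz hug))) (by
        rw [map_sub, map_smul, hh, s.wz hwu]
        module) (by
        rw [map_sub, map_smul, hc1, smul_smul, inv_mul_cancel₀ hc, one_smul, ← hu, sub_self])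
    refine ⟨w + (c⁻¹ * d⁻¹) • (z ^ (r + k)) u, fun m' hm' => ?_, ?_⟩
    · refine Submodule.add_mem _ (hw m' hm') (Submodule.smul_mem _ _ (s.powz ?_))
      rwa [show m' + (r + k) = m + r by omega]
    · rw [map_add, hw', map_smul, hd, smul_smul, mul_assoc, inv_mul_cancel₀ hd1, mul_one,
        sub_add_cancel]

/-- **If only the right weights occur then the powers are bijective.** -/
theorem Sl2.bij (s : Sl2 N G x z h)
    (hw : ∀ (m : ℕ) (v : V), v ∈ G m → h v = ((2 * m : ℚ) - 1 - N) • v) : Bij N G x := by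
  intro i j hij hj
  have hj' : (j : ℚ) = N + 1 - i := by
    have h4 : ((i + j : ℕ) : ℚ) = ((N + 1 : ℕ) : ℚ) := by rw [hj]
    push_cast at h4
    linarith
  have hc : ((j - i : ℕ) : ℚ) = (j : ℚ) - i := by rw [Nat.cast_sub hij]
  refine ⟨fun v hv => ?_, fun v hv v' hv' he => ?_, fun y hy => ?_⟩
  · have := s.powx hv (j - i)
    rwa [show i + (j - i) = j by omega] at this
  · simp only at he
    rw [← sub_eq_zero, ← map_sub] at he
    refine sub_eq_zero.1 (s.injx (m := j - i) ?_ le_rfl he)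
    rw [hw i _ (Submodule.sub_mem _ hv hv'), hc, hj']
    congr 1
    ring
  · obtain ⟨M, hM⟩ := s.nx
    obtain ⟨w, hw1, hw2⟩ := s.surj M (j - i) j y hy (by
      rw [hw j y hy, hc, hj']
      congr 1
      linarith) (by rw [hM, LinearMap.zero_apply])
    exact ⟨w, hw1 i (by omega), hw2⟩

end Pool.Agent.R898.HL
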