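import Pool.Agent.R898.HLS
import Pool.Agent.R898.HLA
import Pool.Agent.R898.F
import Pool.Agent.R903.Lef
import Pool.Agent.R903.Tensor
import Pool.Agent.R903.CK
import Pool.Agent.R903.Summand

/-!
# Beilinson's arithmetic hard Lefschetz conjecture and correspondences
-/

open CategoryTheory CategoryTheory.Limits AlgebraicGeometry
open Pool.Agent.H914 Pool.Agent.H914.VarClass Pool.Agent.H914.VarClass.Obj
open Pool.Agent.R903

universe u v w

namespace Pool.Agent.R898.HL

variable {k : Type u} [Field k] {𝒱 : VarClass k} {C : ChowTheory.{u, v} 𝒱}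
  {W : WeilTheory.{u, v, w} C} {X Y Z X' Y' : 𝒱.Obj}

lemma homTriv_zero (hP : C.Polarized) {x : C.CH X} (hx : x ∈ homTriv W X 0) : x = 0 :=
  Pool.Agent.R898.homTriv_zero (W := W) hP ⟨hx.1, hx.2⟩

lemma act_homTriv {γ : C.CH (X.prod Y)} {c m n : ℕ} (hγ : γ ∈ C.gr _ c) {x : C.CH X}
    (hx : x ∈ homTriv W X m) (h : m + c = n + X.dim) : C.act γ x ∈ homTriv W Y n :=
  ⟨C.act_mem hγ hx.1 h, by rw [W.cl_act, hx.2, map_zero]⟩

/-! ### the operator of a divisor class -/

lemma lef_eq (D : C.CH X) : C.lef D = C.span (𝟙 X) (𝟙 X) D := rfl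

lemma lef_mem {D : C.CH X} (hD : D ∈ C.gr X 1) : C.lef D ∈ C.gr (X.prod X) (X.dim + 1) := by
  rw [lef_eq]
  exact C.span_mem _ _ hD (by omega)

lemma act_lef (D v : C.CH X) : C.act (C.lef D) v = D * v := by
  rw [lef_eq, C.act_span, C.push_id, C.pull_id]

lemma act_lef_pow (D v : C.CH X) (k : ℕ) : ((C.act (C.lef D) : Module.End ℚ (C.CH X)) ^ k) v =
    D ^ k * v := by
  induction k with
  | zero => simp
  | succ k ih => rw [pow_succ', Module.End.mul_apply, ih, act_lef, pow_succ', mul_assoc]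

lemma wact_lef (D : C.CH X) (a : W.H X) : W.act (C.lef D) a = W.cl X D * a := by
  rw [lef_eq, W.act_span, W.push_id, W.map_id]

lemma wact_lef_pow (D : C.CH X) (k : ℕ) (a : W.H X) :
    (W.act (C.lef D))^[k] a = W.cl X D ^ k * a := by
  induction k with
  | zero => simp
  | succ k ih => rw [Function.iterate_succ_apply', ih, wact_lef, pow_succ', mul_assoc]

lemma lef_add (D E : C.CH X) : C.lef (D + E) = C.lef D + C.lef E := map_add _ _ _

lemma diagC_mul_snd (D : C.CH X) : C.diagC X * C.pull (snd X X) D = C.lef D := by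
  have h := ChowTheory.comp_push_diag (C.diagC X) D
  rw [C.diagC_comp] at h
  exact h.symm

lemma fst_mul_diagC (D : C.CH X) : C.pull (fst X X) D * C.diagC X = C.lef D := by
  have h := ChowTheory.push_diag_comp (C.diagC X) D
  rw [C.comp_diagC] at h
  exact h.symm

lemma transp_lef (D : C.CH X) : C.transp (C.lef D) = C.lef D := by
  conv_lhs => rw [← diagC_mul_snd D, ChowTheory.transp, C.pull_mul, ← C.pull_comp, swap_snd]
  have h := C.transp_diagC X
  rw [ChowTheory.transp] at h
  rw [h, mul_comm, fst_mul_diagC]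

lemma lef_fst (D : C.CH X) (Y : 𝒱.Obj) :
    C.lef (C.pull (fst X Y) D) = C.tensor (C.lef D) (C.diagC Y) := by
  rw [← diagC_mul_snd, ← diagC_mul_snd D, ← C.tensor_diagC, ChowTheory.tensor, ChowTheory.tensor,
    C.pull_mul, ← C.pull_comp, ← C.pull_comp, prodMap_snd]
  ring

lemma lef_snd (X : 𝒱.Obj) (E : C.CH Y) :
    C.lef (C.pull (snd X Y) E) = C.tensor (C.diagC X) (C.lef E) := by
  rw [← diagC_mul_snd, ← diagC_mul_snd E, ← C.tensor_diagC, ChowTheory.tensor, ChowTheory.tensor,
    C.pull_mul, ← C.pull_comp, ← C.pull_comp, prodMap_snd]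
  ring

lemma add_tensor (α α' : C.CH (X.prod X')) (β : C.CH (Y.prod Y')) :
    C.tensor (α + α') β = C.tensor α β + C.tensor α' β := by
  simp [ChowTheory.tensor, add_mul]

lemma smul_tensor (q : ℚ) (α : C.CH (X.prod X')) (β : C.CH (Y.prod Y')) :
    C.tensor (q • α) β = q • C.tensor α β := by
  simp [ChowTheory.tensor]

lemma tensor_smul (q : ℚ) (α : C.CH (X.prod X')) (β : C.CH (Y.prod Y')) :
    C.tensor α (q • β) = q • C.tensor α β := by
  simp [ChowTheory.tensor]

lemma sub_tensor (α α' : C.CH (X.prod X')) (β : C.CH (Y.prod Y')) :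
    C.tensor (α - α') β = C.tensor α β - C.tensor α' β := by
  simp [ChowTheory.tensor, sub_mul]

lemma tensor_sub (α : C.CH (X.prod X')) (β β' : C.CH (Y.prod Y')) :
    C.tensor α (β - β') = C.tensor α β - C.tensor α β' := by
  simp [ChowTheory.tensor, mul_sub]

/-- `a ⊗ 1 + 1 ⊗ b` -/
noncomputable def ts (a : C.CH (X.prod X)) (b : C.CH (Y.prod Y)) :
    C.CH ((X.prod Y).prod (X.prod Y)) :=
  C.tensor a (C.diagC Y) + C.tensor (C.diagC X) b

lemma bracket_ts (a a' : C.CH (X.prod X)) (b b' : C.CH (Y.prod Y)) :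
    C.bracket (ts a b) (ts a' b') = ts (C.bracket a a') (C.bracket b b') := by
  have key : ∀ (a a' : C.CH (X.prod X)) (b b' : C.CH (Y.prod Y)),
      C.comp (ts a b) (ts a' b') = C.tensor (C.comp a a') (C.diagC Y) + C.tensor a b' +
        (C.tensor a' b + C.tensor (C.diagC X) (C.comp b b')) := by
    intro a a' b b'
    rw [ts, ts, C.add_comp, C.comp_add, C.comp_add, C.comp_tensor, C.comp_tensor, C.comp_tensor,
      C.comp_tensor, C.comp_diagC, C.comp_diagC, C.comp_diagC, C.comp_diagC, C.diagC_comp,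
      C.diagC_comp]
  rw [ChowTheory.bracket, key, key, ts, ChowTheory.bracket, ChowTheory.bracket, sub_tensor,
    tensor_sub]
  abel

lemma ts_smul (q : ℚ) (a : C.CH (X.prod X)) (b : C.CH (Y.prod Y)) :
    ts (q • a) (q • b) = q • ts a b := by
  rw [ts, ts, smul_tensor, tensor_smul, smul_add]

lemma ts_neg (a : C.CH (X.prod X)) (b : C.CH (Y.prod Y)) :
    ts (-a) (-b) = -ts a b := by
  have h := ts_smul (-1) a b
  simpa using h

lemma triple_ts {L H Λ : C.CH (X.prod X)} {L' H' Λ' : C.CH (Y.prod Y)}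
    (h : C.IsTriple L H Λ) (h' : C.IsTriple L' H' Λ') :
    C.IsTriple (ts L L') (ts H H') (ts Λ Λ') where
  bracket_LΛ := by rw [bracket_ts, h.bracket_LΛ, h'.bracket_LΛ]
  bracket_HL := by rw [bracket_ts, h.bracket_HL, h'.bracket_HL, ts_smul]
  bracket_HΛ := by rw [bracket_ts, h.bracket_HΛ, h'.bracket_HΛ, ts_neg, ts_smul]

lemma transp_sub (a b : C.CH (X.prod Y)) : C.transp (a - b) = C.transp a - C.transp b := by
  simp [ChowTheory.transp]

lemma transp_smul (q : ℚ) (a : C.CH (X.prod Y)) : C.transp (q • a) = q • C.transp a := by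
  simp [ChowTheory.transp]

lemma transp_neg (a : C.CH (X.prod Y)) : C.transp (-a) = -C.transp a := by
  simp [ChowTheory.transp]

lemma transp_transp (a : C.CH (X.prod Y)) : C.transp (C.transp a) = a := by
  rw [ChowTheory.transp, ChowTheory.transp, ← C.pull_comp]
  have : swap X Y ≫ swap Y X = 𝟙 _ := by apply hom_ext_prod <;> simp
  rw [this, C.pull_id]

lemma bracket_transp (a b : C.CH (X.prod X)) :
    C.bracket (C.transp a) (C.transp b) = -C.transp (C.bracket a b) := by
  rw [ChowTheory.bracket, C.comp_transp, C.comp_transp, ChowTheory.bracket, transp_sub]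
  abel

lemma bracket_neg (a b : C.CH (X.prod X)) : C.bracket (-a) b = -C.bracket a b := by
  have h1 : C.comp b (-a) = -C.comp b a := by
    have := C.comp_smul (-1) b a
    simpa using this
  have h2 : C.comp (-a) b = -C.comp a b := by
    have := C.smul_comp (-1) a b
    simpa using this
  rw [ChowTheory.bracket, ChowTheory.bracket, h1, h2]
  abel

lemma triple_transp {L H Λ : C.CH (X.prod X)} (h : C.IsTriple L H Λ) :
    C.IsTriple (C.transp L) (-C.transp H) (C.transp Λ) where
  bracket_LΛ := by rw [bracket_transp, h.bracket_LΛ]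
  bracket_HL := by
    rw [bracket_neg, bracket_transp, h.bracket_HL, neg_neg, transp_smul]
  bracket_HΛ := by
    rw [bracket_neg, bracket_transp, h.bracket_HΛ, neg_neg, transp_neg, transp_smul]

/-! ### the action of a triple on the homologically trivial classes -/

lemma act_bracket (a b : C.CH (X.prod X)) (x : C.CH X) :
    C.act (C.bracket a b) x = C.act a (C.act b x) - C.act b (C.act a x) := by
  rw [ChowTheory.bracket, C.act_sub, LinearMap.sub_apply, C.act_comp, C.act_comp]

lemma lam_pow {Λ : C.CH (X.prod X)} (hΛ : Λ ∈ C.gr _ (X.dim - 1)) (h0 : X.dim = 0 → Λ = 0) :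
    (CorrRing.of C X Λ) ^ (X.dim + 1) = 0 := by
  by_cases hn : X.dim = 0
  · rw [h0 hn, map_zero, zero_pow (by omega)]
  have key : ∀ i ≤ X.dim, (CorrRing.of C X).symm ((CorrRing.of C X Λ) ^ i) ∈
      C.gr (X.prod X) (X.dim - i) := by
    intro i
    induction i with
    | zero => intro _; exact C.diagC_mem X
    | succ i ih =>
      intro hi
      rw [pow_succ']
      exact C.comp_mem (ih (by omega)) hΛ (by omega)
  have h1 := key X.dim le_rfl
  rw [pow_succ']
  exact C.comp_eq_zero_of_codim h1 hΛ (by omega)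

lemma sl2_of_triple (W : WeilTheory.{u, v, w} C) (hP : C.Polarized) {D : C.CH X}
    {H Λ : C.CH (X.prod X)} (hD : D ∈ C.gr X 1) (hT : C.IsTriple (C.lef D) H Λ)
    (hH : H ∈ C.gr _ X.dim) (hΛ : Λ ∈ C.gr _ (X.dim - 1)) (h0 : X.dim = 0 → Λ = 0) :
    Sl2 X.dim (homTriv W X) (C.act (C.lef D)) (C.act Λ) (C.act H) where
  h1 v := by
    rw [← hT.bracket_LΛ, act_bracket]; abel
  h2 v := by
    have h := congrArg (fun γ => C.act γ v) hT.bracket_HL
    simp only [act_bracket, C.act_smul, LinearMap.smul_apply] at h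
    rw [← h]; abel
  h3 v := by
    have h := congrArg (fun γ => C.act γ v) hT.bracket_HΛ
    simp only [act_bracket] at h
    rw [sub_eq_iff_eq_add] at h
    rw [h, ← neg_smul, C.act_smul, LinearMap.smul_apply, neg_smul]
    abel
  nx := ⟨X.dim + 1, by
    rw [← CorrRing.actH_of, ← map_pow, C.pow_eq_zero_of_codim (lef_mem hD), map_zero]⟩
  nz := ⟨X.dim + 1, by
    rw [← CorrRing.actH_of, ← map_pow, lam_pow hΛ h0, map_zero]⟩
  gx m v hv := act_homTriv (lef_mem hD) hv (by omega)
  gz m v hv := by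
    by_cases hd : X.dim = 0
    · rw [h0 hd, C.act_zero, LinearMap.zero_apply]; exact Submodule.zero_mem _
    · exact act_homTriv hΛ hv (by omega)
  gz0 v hv := by rw [homTriv_zero hP hv, map_zero]
  gh m v hv := act_homTriv hH hv rfl
  top m hm := by
    rw [eq_bot_iff]
    intro x hx
    have h1 : x ∈ C.gr X m := hx.1
    rw [C.gr_eq_bot X m hm] at h1
    exact h1

lemma arithLef_iff (D : C.CH X) :
    ArithLef W X D ↔ Bij X.dim (homTriv W X) (C.act (C.lef D)) := by
  have e : ∀ k, (fun v => ((C.act (C.lef D) : Module.End ℚ (C.CH X)) ^ k) v) =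
      fun v => D ^ k * v := fun k => funext fun v => act_lef_pow D v k
  refine forall_congr' fun i => forall_congr' fun j => imp_congr_right fun _ =>
    imp_congr_right fun _ => ?_
  rw [MulBij, e]

/-! ### Lefschetz systems -/

lemma IsSystem.toR {D : C.CH X} {Λ : C.CH (X.prod X)} {π : ℕ → C.CH (X.prod X)}
    (h : IsSystem C D Λ π) : C.IsLefschetzSystem (C.lef D) Λ π where
  decomp :=
    { mem := h.memπ
      idem := fun j => by
        have h1 := h.orth.mul j j
        rw [if_pos rfl] at h1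
        exact h1
      orth := fun i j hij => by
        have h1 := h.orth.mul i j
        rw [if_neg hij] at h1
        exact h1
      sum := h.orth.sum }
  mem_Λ := h.memΛ
  triple :=
    { bracket_LΛ := h.trip.xz
      bracket_HL := h.trip.hx
      bracket_HΛ := h.trip.hz }

lemma system_zero {L Λ : C.CH (X.prod X)} {π : ℕ → C.CH (X.prod X)}
    (h : C.IsLefschetzSystem L Λ π) (hn : X.dim = 0) : Λ = 0 := by
  have h1 : C.wt π = 0 := by simp [ChowTheory.wt, hn]
  have h2 := h.triple.bracket_HΛ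
  rw [h1, ChowTheory.bracket, C.comp_zero, C.zero_comp, sub_zero, eq_comm, neg_eq_zero,
    smul_eq_zero] at h2
  exact h2.resolve_left (by norm_num)

lemma wt_mem {L Λ : C.CH (X.prod X)} {π : ℕ → C.CH (X.prod X)}
    (h : C.IsLefschetzSystem L Λ π) : C.wt π ∈ C.gr (X.prod X) X.dim :=
  Submodule.sum_mem _ fun j _ => Submodule.smul_mem _ _ (h.decomp.mem j)

lemma pi_zero {L Λ : C.CH (X.prod X)} {π : ℕ → C.CH (X.prod X)}
    (h : C.IsLefschetzSystem L Λ π) {j : ℕ} (hj : 2 * X.dim < j) : π j = 0 := by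
  rw [← C.comp_diagC (π j), ← h.decomp.sum, C.comp_sum]
  refine Finset.sum_eq_zero fun l hl => h.decomp.orth j l ?_
  rw [Finset.mem_range] at hl
  omega

lemma comp_wt {L Λ : C.CH (X.prod X)} {π : ℕ → C.CH (X.prod X)}
    (h : C.IsLefschetzSystem L Λ π) (j : ℕ) :
    C.comp (π j) (C.wt π) = ((j : ℚ) - X.dim) • π j := by
  by_cases hj : 2 * X.dim < j
  · rw [pi_zero h hj, C.zero_comp, smul_zero]
  rw [ChowTheory.wt, C.comp_sum, Finset.sum_eq_single j]
  · rw [C.comp_smul, h.decomp.idem]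
  · intro l _ hl; rw [C.comp_smul, h.decomp.orth j l (Ne.symm hl), smul_zero]
  · intro hj'; exact absurd (Finset.mem_range.2 (by omega)) hj'

lemma wt_comp {L Λ : C.CH (X.prod X)} {π : ℕ → C.CH (X.prod X)}
    (h : C.IsLefschetzSystem L Λ π) (j : ℕ) :
    C.comp (C.wt π) (π j) = ((j : ℚ) - X.dim) • π j := by
  by_cases hj : 2 * X.dim < j
  · rw [pi_zero h hj, C.comp_zero, smul_zero]
  rw [ChowTheory.wt, C.sum_comp, Finset.sum_eq_single j]
  · rw [C.smul_comp, h.decomp.idem]
  · intro l _ hl; rw [C.smul_comp, h.decomp.orth l j hl, smul_zero]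
  · intro hj'; exact absurd (Finset.mem_range.2 (by omega)) hj'

lemma sl2_of_system (W : WeilTheory.{u, v, w} C) (hP : C.Polarized) {D : C.CH X}
    (hD : D ∈ C.gr X 1) {Λ : C.CH (X.prod X)} {π : ℕ → C.CH (X.prod X)}
    (h : C.IsLefschetzSystem (C.lef D) Λ π) :
    Sl2 X.dim (homTriv W X) (C.act (C.lef D)) (C.act Λ) (C.act (C.wt π)) :=
  sl2_of_triple W hP hD h.triple (wt_mem h) h.mem_Λ (system_zero h)

/-- **Question 1 for one variety with a Lefschetz system.** -/
theorem arithLef_iff_concentrated (hP : C.Polarized) {D : C.CH X} (hD : D ∈ C.gr X 1)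
    {Λ : C.CH (X.prod X)} {π : ℕ → C.CH (X.prod X)} (h : C.IsLefschetzSystem (C.lef D) Λ π) :
    ArithLef W X D ↔ Concentrated W X π := by
  have s := sl2_of_system W hP hD h
  rw [arithLef_iff]
  constructor
  · intro hb i m him x hx
    refine s.eig_zero hb (m := m) (l := (i : ℤ) - X.dim) (act_homTriv (h.decomp.mem i) hx rfl) ?_ ?_
    · rw [← C.act_comp, comp_wt h, C.act_smul, LinearMap.smul_apply]
      push_cast
      rfl
    · intro h1
      apply him
      omega
  · intro hc
    refine s.bij fun m v hv => ?_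
    have h1 : v = ∑ j ∈ Finset.range (2 * X.dim + 1), C.act (π j) v := by
      conv_lhs => rw [← C.act_diagC v, ← h.decomp.sum, C.act_sum, LinearMap.sum_apply]
    conv_rhs => rw [h1]
    rw [ChowTheory.wt, C.act_sum, LinearMap.sum_apply, Finset.smul_sum]
    refine Finset.sum_congr rfl fun i _ => ?_
    rw [C.act_smul, LinearMap.smul_apply]
    by_cases him : i + 1 = 2 * m
    · congr 1
      have : ((i + 1 : ℕ) : ℚ) = ((2 * m : ℕ) : ℚ) := by rw [him]
      push_cast at this
      linarith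
    · rw [hc i m him v hv, smul_zero, smul_zero]

/-! ### the cohomology -/

lemma hardLefschetz {D : C.CH X} (h : LefStd W X D) : W.HardLefschetz (C.lef D) := by
  obtain ⟨hD, h⟩ := h
  intro j hj
  obtain ⟨Λ, hΛ, h1, h2⟩ := h j hj
  have e : (W.act (C.lef D))^[X.dim - j] = fun a => W.cl X D ^ (X.dim - j) * a :=
    funext fun a => wact_lef_pow D _ a
  rw [e]
  have hpow : W.cl X D ^ (X.dim - j) ∈ W.gr X (2 * (X.dim - j)) := by
    have h3 : ∀ k, D ^ k ∈ C.gr X k := by
      intro k
      induction k with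
      | zero => simpa using C.one_mem X
      | succ k ih => rw [pow_succ]; exact C.mul_mem ih hD
    have h4 := W.cl_mem (h3 (X.dim - j))
    rwa [map_pow] at h4
  refine ⟨fun a ha => ?_, fun a ha b hb hab => ?_, fun b hb => ?_⟩
  · have := W.mul_mem hpow ha
    rwa [show 2 * (X.dim - j) + j = 2 * X.dim - j by omega] at this
  · simp only at hab
    rw [← h1 a ha, hab, h1 b hb]
  · exact ⟨W.act Λ b, W.act_mem hΛ hb (by omega), h2 b hb⟩

lemma isCK_of_system {D : C.CH X} (hs : LefStd W X D) {Λ : C.CH (X.prod X)}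
    {π : ℕ → C.CH (X.prod X)} (h : C.IsLefschetzSystem (C.lef D) Λ π) : W.IsCK X π :=
  ChowTheory.IsLefschetzSystem.isCK (lef_mem hs.1) h W (hardLefschetz hs)

lemma act_concentrated {π : ℕ → C.CH (X.prod X)} (hπ : W.IsCK X π) (hc : Concentrated W X π)
    {m : ℕ} {x : C.CH X} (hx : x ∈ homTriv W X (m + 1)) : C.act (π (2 * m + 1)) x = x := by
  have h0 : ∀ a, a ≠ 2 * m + 1 → C.act (π a) x = 0 := fun a ha => hc a (m + 1) (by omega) x hx
  have h1 := hπ.sum_act x
  rw [Finset.sum_eq_single (2 * m + 1)] at h1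
  · exact h1
  · intro b _ hb; exact h0 b hb
  · intro hb
    rw [Finset.mem_range] at hb
    rw [hπ.eq_zero (by omega), C.act_zero, LinearMap.zero_apply]

/-- **Two varieties.** -/
theorem onlyOdd_of_arithLef (hP : C.Polarized) {D : C.CH X} {E : C.CH Y} (hX : Good W X D)
    (hY : Good W Y E) (hQX : ArithLef W X D) (hQY : ArithLef W Y E)
    (hQ : ArithLef W (X.prod Y) (sumClass C D E)) : OnlyOdd W X Y := by
  obtain ⟨hsX, Λ, π, hπs0⟩ := hX
  obtain ⟨hsY, Λ', ρ, hρs0⟩ := hY
  have hπs := hπs0.toR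
  have hρs := hρs0.toR
  have hπ := isCK_of_system hsX hπs
  have hρ := isCK_of_system hsY hρs
  have hπc := (arithLef_iff_concentrated hP hsX.1 hπs).1 hQX
  have hρc := (arithLef_iff_concentrated hP hsY.1 hρs).1 hQY
  intro c m γ hγ h0 x hx
  have hcl : W.cl Y (C.act γ x) = 0 := by rw [W.cl_act, hx.2, map_zero]
  rcases lt_trichotomy (m + 1 + c) X.dim with h | h | h
  · exact C.act_eq_zero hγ hx.1 h
  · exact homTriv_zero (W := W) hP ⟨C.act_mem hγ hx.1 (j := 0) (by omega), hcl⟩
  obtain ⟨n, hn⟩ : ∃ n, m + 1 + c = n + 1 + X.dim := ⟨m + c - X.dim, by omega⟩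
  have hy : C.act γ x ∈ homTriv W Y (n + 1) := ⟨C.act_mem hγ hx.1 hn, hcl⟩
  by_cases hj : 2 * X.dim < 2 * m + 1
  · have h1 := act_concentrated hπ hπc hx
    rw [hπ.eq_zero hj, C.act_zero, LinearMap.zero_apply] at h1
    rw [← h1, map_zero]
  push Not at hj
  set δ := C.comp (C.comp (π (2 * m + 1)) γ) (ρ (2 * n + 1)) with hδ
  have hδm : δ ∈ C.gr (X.prod Y) c :=
    C.comp_mem (C.comp_mem (hπ.mem _) hγ (r := c) (by omega)) (hρ.mem _) rfl
  have hδx : C.act δ x = C.act γ x := by
    rw [hδ, C.act_comp, C.act_comp, act_concentrated hπ hπc hx, act_concentrated hρ hρc hy]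
  have hδ0 : W.act δ = 0 := by
    ext a
    rw [LinearMap.zero_apply]
    refine gr_induction (W.isInternal X) (p := fun a => W.act δ a = 0) ?_ ?_ a
    · intro l a ha
      rw [hδ, W.act_comp _ (hρ.mem _), W.act_comp _ hγ, hπ.proj _ l a ha]
      split_ifs with hl
      · rw [h0 a (hl ▸ ha), map_zero]
      · rw [map_zero, map_zero]
    · intro a b ha hb
      rw [map_add, ha, hb, add_zero]
  have hδt : δ ∈ homTriv W (X.prod Y) c := ⟨hδm, cl_eq_zero_of_act W hδ0⟩
  -- the triple on `X × Y`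
  have hT : C.IsTriple (C.lef (sumClass C D E)) (ts (-C.transp (C.wt π)) (C.wt ρ))
      (ts (C.transp Λ) Λ') := by
    have h1 := triple_ts (triple_transp hπs.triple) hρs.triple
    rw [transp_lef, ts, ← lef_fst, ← lef_snd, ← lef_add] at h1
    exact h1
  have hDm : sumClass C D E ∈ C.gr (X.prod Y) 1 :=
    Submodule.add_mem _ (C.pull_mem _ hsX.1) (C.pull_mem _ hsY.1)
  have hHm : ts (-C.transp (C.wt π)) (C.wt ρ) ∈ C.gr _ (X.prod Y).dim := by
    rw [dim_prod]
    exact Submodule.add_mem _ (C.tensor_mem (Submodule.neg_mem _ (C.transp_mem (wt_mem hπs)))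
      (C.diagC_mem Y)) (C.tensor_mem (C.diagC_mem X) (wt_mem hρs))
  have hΛm : ts (C.transp Λ) Λ' ∈ C.gr _ ((X.prod Y).dim - 1) := by
    rw [dim_prod]
    refine Submodule.add_mem _ ?_ ?_
    · by_cases hd : X.dim = 0
      · rw [system_zero hπs hd, C.transp_zero, C.zero_tensor]; exact Submodule.zero_mem _
      · have := C.tensor_mem (C.transp_mem hπs.mem_Λ) (C.diagC_mem Y)
        rwa [show X.dim - 1 + Y.dim = X.dim + Y.dim - 1 by omega] at this
    · by_cases hd : Y.dim = 0
      · rw [system_zero hρs hd, C.tensor_zero]; exact Submodule.zero_mem _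
      · have := C.tensor_mem (C.diagC_mem X) hρs.mem_Λ
        rwa [show X.dim + (Y.dim - 1) = X.dim + Y.dim - 1 by omega] at this
  have s := sl2_of_triple W hP hDm hT hHm hΛm (fun hd => by
    rw [dim_prod] at hd
    rw [ts, system_zero hπs (by omega), system_zero hρs (by omega), C.transp_zero, C.zero_tensor,
      C.tensor_zero, add_zero])
  have hδz : δ = 0 := by
    refine s.eig_zero ((arithLef_iff _).1 hQ) (m := c) (l := (2 * c : ℤ) - (X.prod Y).dim) hδt ?_
      (by omega)
    have e5 : C.act (C.tensor (-C.transp (C.wt π)) (C.diagC Y)) δ = C.comp (-C.wt π) δ := by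
      rw [← transp_neg, C.act_tensor, C.comp_diagC]
    have e6 : C.act (C.tensor (C.diagC X) (C.wt ρ)) δ = C.comp δ (C.wt ρ) := by
      have h1 := C.act_tensor (C.diagC X) (C.wt ρ) δ
      rwa [C.transp_diagC, C.diagC_comp] at h1
    rw [ts, C.act_add, LinearMap.add_apply, e5, e6]
    have e1 : C.comp (-C.wt π) δ = (-(((2 * m + 1 : ℕ) : ℚ) - X.dim)) • δ := by
      have e2 := C.smul_comp (-1) (C.wt π) δ
      rw [neg_one_smul, neg_one_smul] at e2
      rw [e2, hδ, ← C.comp_assoc, ← C.comp_assoc, wt_comp hπs, C.smul_comp, C.smul_comp, neg_smul]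
    have e3 : C.comp δ (C.wt ρ) = (((2 * n + 1 : ℕ) : ℚ) - Y.dim) • δ := by
      rw [hδ, C.comp_assoc, comp_wt hρs, C.comp_smul]
    rw [e1, e3, dim_prod]
    have e4 : ((m + 1 + c : ℕ) : ℚ) = ((n + 1 + X.dim : ℕ) : ℚ) := by rw [hn]
    push_cast at e4 ⊢
    rw [← add_smul]
    congr 1
    linarith
  rw [← hδx, hδz, C.act_zero, LinearMap.zero_apply]

end Pool.Agent.R898.HL
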