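import Pool.Agent.R903.Corr

/-!
# Beilinson's arithmetic hard Lefschetz conjecture: the definitions used in the statement
-/

open CategoryTheory CategoryTheory.Limits AlgebraicGeometry
open Pool.Agent.H914 Pool.Agent.H914.VarClass Pool.Agent.H914.VarClass.Obj
open Pool.Agent.R903

universe u v w

namespace Pool.Agent.R898.HL

section Alg

variable {A : Type v} [CommRing A] [Algebra ℚ A] {B : Type v} [CommRing B] [Algebra ℚ B]
  {D : Type v} [CommRing D] [Algebra ℚ D] {E : Type v} [CommRing E] [Algebra ℚ E]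
  {K : Type w} [Field K] {H : Type w} [Ring H] [Algebra K H] {H' : Type w} [Ring H']
  [Algebra K H']

/-- The element `s(p(a) q(b))`. -/
def mulPush (p : A →ₐ[ℚ] D) (q : B →ₐ[ℚ] D) (s : D →ₗ[ℚ] E) (a : A) (b : B) : E :=
  s (p a * q b)

/-- `T` vanishes on `U`. -/
def ZeroOn (T : H →ₗ[K] H') (U : Submodule K H) : Prop := ∀ b ∈ U, T b = 0

/-- `T` maps all elements of `U` to zero. -/
def KillsAll (T : A →ₗ[ℚ] B) (U : Submodule ℚ A) : Prop := ∀ x ∈ U, T x = 0

/-- The subspace of the elements `x` of `U` with `c x = 0`. -/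
def nullPart (U : Submodule ℚ A) (c : A →+* H) : Submodule ℚ A where
  carrier := {x | x ∈ U ∧ c x = 0}
  add_mem' := fun {a b} ha hb => ⟨U.add_mem ha.1 hb.1, by rw [map_add, ha.2, hb.2, add_zero]⟩
  zero_mem' := ⟨U.zero_mem, map_zero c⟩
  smul_mem' := fun q x hx => ⟨U.smul_mem q hx.1, by rw [Algebra.smul_def, map_mul, hx.2, mul_zero]⟩

/-- Multiplication by `x ^ r` maps `U` bijectively onto `V`. -/
def MulBij (x : A) (r : ℕ) (U V : Submodule ℚ A) : Prop := Set.BijOn (fun y => x ^ r * y) U V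

/-- `T` is inverse to the multiplication by `x ^ r` from `U` to `V`. -/
structure InverseTo (T : H →ₗ[K] H) (x : H) (r : ℕ) (U V : Submodule K H) : Prop where
  left : ∀ a ∈ U, T (x ^ r * a) = a
  right : ∀ b ∈ V, x ^ r * T b = b

/-- `s x = 1`. -/
def IsOneOf (s : A →ₗ[ℚ] B) (x : A) : Prop := s x = 1

/-- `p x + q y`. -/
def sumOf (p : A →ₐ[ℚ] D) (q : B →ₐ[ℚ] D) (x : A) (y : B) : D := p x + q y

/-- The commutator `a ∘ b - b ∘ a`, where `a ∘ b = c b a`. -/
def brk (c : A → A → A) (a b : A) : A := c b a - c a b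

/-- `∑ (j - n) π j`, `0 ≤ j ≤ 2n`. -/
noncomputable def wt (π : ℕ → A) (n : ℕ) : A :=
  ∑ j ∈ Finset.range (2 * n + 1), ((j : ℚ) - n) • π j

/-- `(x, h, z)` is an `sl₂`-triple: `[x, z] = h`, `[h, x] = 2 x` and `[h, z] = -2 z`. -/
structure IsTrip (c : A → A → A) (x h z : A) : Prop where
  xz : brk c x z = h
  hx : brk c h x = (2 : ℚ) • x
  hz : brk c h z = -((2 : ℚ) • z)

/-- The `π j` are orthogonal idempotents for the composition `c`, and `π 0 + ⋯ + π (2n) = δ`. -/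
structure OrthSum (c : A → A → A) (π : ℕ → A) (n : ℕ) (δ : A) : Prop where
  mul : ∀ i j, c (π i) (π j) = if i = j then π i else 0
  sum : ∑ j ∈ Finset.range (2 * n + 1), π j = δ

end Alg

variable {k : Type u} [Field k] {𝒱 : VarClass k} {C : ChowTheory.{u, v} 𝒱}
  (W : WeilTheory.{u, v, w} C)

/-- `x` is in `CH^i(X)`. -/
def Codim (C : ChowTheory.{u, v} 𝒱) {X : 𝒱.Obj} (i : ℕ) (x : C.CH X) : Prop := x ∈ C.gr X i

/-- The composition of correspondences, first `α`, then `β`: `p13_*(p12^* α · p23^* β)`. -/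
noncomputable def cp (C : ChowTheory.{u, v} 𝒱) {X Y Z : 𝒱.Obj} (α : C.CH (X.prod Y))
    (β : C.CH (Y.prod Z)) : C.CH (X.prod Z) :=
  mulPush (C.pull (p12 X Y Z)) (C.pull (snd X (Y.prod Z))) (C.push (p13 X Y Z)) α β

/-- `CH^m(X)_hom`, the homologically trivial classes of codimension `m`. -/
def homTriv (X : 𝒱.Obj) (m : ℕ) : Submodule ℚ (C.CH X) := nullPart (C.gr X m) (W.cl X)

/-- **Question 1 for** `(X, D)`: for `i ≤ j`, `i + j = dim X + 1` the multiplication by `D^(j - i)`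
is an isomorphism from `CH^i(X)_hom` to `CH^j(X)_hom`. -/
def ArithLef (X : 𝒱.Obj) (D : C.CH X) : Prop :=
  ∀ i j : ℕ, i ≤ j → i + j = X.dim + 1 → MulBij D (j - i) (homTriv W X i) (homTriv W X j)

/-- The standard conjecture of Lefschetz type for `(X, D)`: `D` is a divisor class, and for
`i ≤ n = dim X` the multiplication by `D^(n - i)` from `H^i(X)` to `H^(2n - i)(X)` has an inverse
given by a correspondence. -/
def LefStd (X : 𝒱.Obj) (D : C.CH X) : Prop :=
  Codim C 1 D ∧ ∀ i ≤ X.dim, ∃ Λ : C.CH (X.prod X), Codim C i Λ ∧ InverseTo (W.act Λ)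
    (W.cl X D) (X.dim - i) (W.gr X i) (W.gr X (2 * X.dim - i))

/-- `π i` kills `CH^m(X)_hom` for all `i ≠ 2m - 1`. -/
def Concentrated (X : 𝒱.Obj) (π : ℕ → C.CH (X.prod X)) : Prop :=
  ∀ i m : ℕ, i + 1 ≠ 2 * m → KillsAll (C.act (π i)) (homTriv W X m)

/-- The correspondences from `X` to `Y` which vanish on `H^(2m-1)(X)` kill `CH^m(X)_hom`, for all
`m ≥ 1`. -/
def OnlyOdd (X Y : 𝒱.Obj) : Prop :=
  ∀ (c m : ℕ) (γ : C.CH (X.prod Y)), Codim C c γ →
    ZeroOn (W.act γ) (W.gr X (2 * m + 1)) → KillsAll (C.act γ) (homTriv W X (m + 1))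

/-- The class `p_1^* D + p_2^* E` on `X × Y`. -/
noncomputable def sumClass (C : ChowTheory.{u, v} 𝒱) {X Y : 𝒱.Obj} (D : C.CH X) (E : C.CH Y) :
    C.CH (X.prod Y) :=
  sumOf (C.pull (fst X Y)) (C.pull (snd X Y)) D E

/-- `Z` dominates `X`: there are a morphism `f : Z ⟶ X` and a class `ζ` in `CH^(dim Z - dim X)(Z)`
with `f_* ζ = [X]`. For projective varieties this holds for each surjective `f`. -/
def Dominates (C : ChowTheory.{u, v} 𝒱) (Z X : 𝒱.Obj) : Prop :=
  ∃ (f : Z ⟶ X) (c : ℕ) (ζ : C.CH Z), X.dim + c = Z.dim ∧ Codim C c ζ ∧ IsOneOf (C.push f) ζ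

/-- `(Λ, π)` is a **Lefschetz system** for `(X, D)`: the `π j` are in `CH^n(X × X)`, `n = dim X`, they
are orthogonal idempotents with sum the diagonal, `Λ` is in `CH^(n-1)(X × X)`, and
`(Δ_* D, ∑ (j - n) π j, Λ)` is an `sl₂`-triple for the composition of correspondences. -/
structure IsSystem (C : ChowTheory.{u, v} 𝒱) {X : 𝒱.Obj} (D : C.CH X) (Λ : C.CH (X.prod X))
    (π : ℕ → C.CH (X.prod X)) : Prop where
  memD : Codim C 1 D
  memπ : ∀ j, Codim C X.dim (π j)
  memΛ : Codim C (X.dim - 1) Λ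
  orth : OrthSum (cp C) π X.dim (C.diagC X)
  trip : IsTrip (cp C) (C.push (diag X) D) (wt π X.dim) Λ

/-- `(X, D)` satisfies the standard conjecture of Lefschetz type, and it has a Lefschetz system. -/
def Good (X : 𝒱.Obj) (D : C.CH X) : Prop :=
  LefStd W X D ∧ ∃ Λ π, IsSystem C D Λ π

/-- A class of good pairs, closed under products, such that each variety is dominated by a variety
of the class. -/
structure IsClass (S : ∀ X : 𝒱.Obj, C.CH X → Prop) : Prop where
  good : ∀ X D, S X D → Good W X D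
  prod : ∀ X Y D E, S X D → S Y E → S (X.prod Y) (sumClass C D E)
  dom : ∀ X : 𝒱.Obj, ∃ (Z : 𝒱.Obj) (D : C.CH Z), S Z D ∧ Dominates C Z X

end Pool.Agent.R898.HL
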