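import Pool.Agent.R898.PRank
import Pool.Agent.R903.Summand

/-!
# The middle codimension determines everything for products of elementary varieties
-/

open CategoryTheory CategoryTheory.Limits AlgebraicGeometry
open Pool.Agent.H914 Pool.Agent.H914.VarClass Pool.Agent.H914.VarClass.Obj
open Pool.Agent.R903 Pool.Agent.R898.F

universe u v w

namespace Pool.Agent.R898.P

variable {k : Type u} [Field k] {𝒱 : VarClass k} {C : ChowTheory.{u, v} 𝒱}
  {W : WeilTheory.{u, v, w} C} {X Y Z G P : 𝒱.Obj}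
  {o : ∀ X : 𝒱.Obj, C.CH (X.prod X) → ℕ → ℤ} {S : 𝒱.Obj → Prop}

/-- the difference of the rank and the order -/
noncomputable def dl (W : WeilTheory.{u, v, w} C) (o : ∀ X : 𝒱.Obj, C.CH (X.prod X) → ℕ → ℤ)
    (X : 𝒱.Obj) (p : C.CH (X.prod X)) (m : ℤ) : ℤ := rk W X p m - od o X p m

lemma homTrivOf_diagC (X : 𝒱.Obj) (m : ℕ) : homTrivOf W X (C.diagC X) m = homTriv W X m := by
  have h : C.act (C.diagC X) = LinearMap.id := LinearMap.ext fun x => C.act_diagC x
  rw [homTrivOf, imageA, h, Submodule.map_id]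

lemma dl_of_formula {i : ℕ} (h : Formula W o X i) : dl W o X (C.diagC X) (i + 1) = 0 := by
  obtain ⟨_, h2⟩ := h
  have e1 : ((i : ℤ) + 1).toNat = i + 1 := by omega
  have e2 : ((i : ℤ) + 1 - 1).toNat = i := by omega
  rw [dl, rk, od, if_pos (by omega), if_pos (by omega), e1, e2, homTrivOf_diagC]
  rw [DimIs] at h2
  rw [h2, sub_self]

lemma formula_of_dl {i : ℕ} (hfin : Module.Finite ℚ (homTriv W X (i + 1)))
    (h : dl W o X (C.diagC X) (i + 1) = 0) : Formula W o X i := by
  have e1 : ((i : ℤ) + 1).toNat = i + 1 := by omega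
  have e2 : ((i : ℤ) + 1 - 1).toNat = i := by omega
  rw [dl, rk, od, if_pos (by omega), if_pos (by omega), e1, e2, homTrivOf_diagC, sub_eq_zero] at h
  exact ⟨hfin, h⟩

theorem finite_of_middle (hPol : C.Polarized) (hS : Closed S)
    (hSP : ∀ s P, Pool.Agent.R898.G.IsProj C s P → S P)
    (hP : ∀ s, ∃ P, Pool.Agent.R898.G.IsProj C s P) (hM : Middle W o S) (hX : S X) (m : ℕ) :
    Module.Finite ℚ (homTriv W X m) := by
  rcases m with _ | n
  · have h0 : homTriv W X 0 = ⊥ := by
      rw [eq_bot_iff]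
      intro x hx
      exact (Submodule.mem_bot _).2 (Pool.Agent.R898.homTriv_zero hPol hx)
    rw [h0]
    infer_instance
  · obtain ⟨P, hP⟩ := hP (X.dim + 2 * n + 1)
    obtain ⟨h1, _⟩ := hM (X.prod P) (X.dim + n) (hS X P hX (hSP _ _ hP)) (by
      rw [dim_prod, hP.1]; omega)
    obtain ⟨hs, h, hc⟩ := hP
    have h2 : Pool.Agent.R898.G.HasRank W (X.prod P) (X.dim + n) := h1
    have h3 := Pool.Agent.R898.G.hasRank_prod hPol hs hc.mem hc.deg_pow hc.diag h2
      (i := X.dim) (by omega)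
    rw [Nat.add_sub_cancel_left] at h3
    exact h3

/-- the symmetrised formula -/
theorem symm_of_middle (hS : Closed S)
    (hSP : ∀ s P, Pool.Agent.R898.G.IsProj C s P → S P)
    (hP : ∀ s, ∃ P, Pool.Agent.R898.G.IsProj C s P) (hM : Middle W o S)
    (hf : Inv C (fun _ _ _ => True) S (dl W o)) (hX : S X) (m : ℤ) :
    dl W o X (C.diagC X) m + dl W o X (C.diagC X) (X.dim + 1 - m) = 0 := by
  obtain ⟨U, hU⟩ := hP 0
  refine symm_of_sums (F := fun m => dl W o X (C.diagC X) m) (n := X.dim) (fun s a ha => ?_) m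
  obtain ⟨P, hP⟩ := hP s
  rw [← inv_prod_proj hS hSP hf hX hU hP W a]
  obtain ⟨i, hi⟩ := Int.eq_ofNat_of_zero_le (show 0 ≤ a - 1 by omega)
  have h1 := hM (X.prod P) i (hS X P hX (hSP _ _ hP)) (by
      rw [dim_prod, hP.1]; omega)
  have h2 := dl_of_formula h1
  have e : a = i + 1 := by omega
  rw [e]
  exact h2

lemma rk_nonneg (X : 𝒱.Obj) (p : C.CH (X.prod X)) (m : ℤ) : 0 ≤ rk W X p m := by
  rw [rk]
  split_ifs
  · exact Int.natCast_nonneg _
  · exact le_rfl

lemma od_zero (ho : IsOrder W o) {p : C.CH (X.prod X)} (hp : Mot C X p) {n : ℕ}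
    (h : InDeg W X p n) {m : ℤ} (hm : 2 * m - 1 ≠ n) : od o X p m = 0 := by
  rw [od]
  split_ifs with h1
  · obtain ⟨i, hi⟩ := Int.eq_ofNat_of_zero_le (show 0 ≤ m - 1 by omega)
    rw [hi, Int.toNat_natCast]
    exact o_zero ho hp fun a ha => h.zero hp.mem (by omega) ha
  · rfl

lemma closed_isProduct : Closed (IsProduct W) := fun _ _ hX hY => .prod hX hY

lemma isProduct_of_isProj {s : ℕ} (h : Pool.Agent.R898.G.IsProj C s P) : IsProduct W P :=
  .elementary (elementary_of_isProj h)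

section Main

variable (hPol : C.Polarized) (hP : ∀ s, ∃ P, Pool.Agent.R898.G.IsProj C s P)
  (ho : IsOrder W o) (hM : Middle W o (IsProduct W))

include hPol hP ho hM

theorem inv_dl : Inv C (fun _ _ _ => True) (IsProduct W) (dl W o) :=
  inv_sub (inv_rk fun _ hX m => finite_of_middle hPol closed_isProduct
    (fun _ _ h => isProduct_of_isProj h) hP hM hX m) (inv_od ho)

theorem dl_nword {p : C.CH (X.prod X)} (h : NWord W X p) (m : ℤ) : dl W o X p m = 0 := by
  have hf := inv_dl hPol hP ho hM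
  let A : ℕ → 𝒱.Obj → 𝒱.Obj → Prop := fun s X Y => s = 0 ∧ X.dim = Y.dim
  have hA : Stable A := ⟨fun s X Y Z h => ⟨h.1, by rw [dim_prod, dim_prod, h.2]⟩,
    fun s X Y Z h => ⟨h.1, by rw [dim_prod, dim_prod, h.2]⟩⟩
  have hf' : Inv C A (IsProduct W)
      (fun X p m => dl W o X p m + dl W o X p (X.dim + 1 - m)) :=
    { add := fun X p q m hX hp hq hpq hqp => by
        change dl W o X (p + q) m + dl W o X (p + q) (X.dim + 1 - m) =
          dl W o X p m + dl W o X p (X.dim + 1 - m) + (dl W o X q m +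
            dl W o X q (X.dim + 1 - m))
        rw [hf.add X p q _ hX hp hq hpq hqp, hf.add X p q _ hX hp hq hpq hqp]
        ring
      iso := fun s X Y p q m hX hY hs hp hq h => by
        obtain ⟨rfl, hd⟩ := hs
        change dl W o Y q (m + (0 : ℕ)) + dl W o Y q (Y.dim + 1 - (m + (0 : ℕ))) =
          dl W o X p m + dl W o X p (X.dim + 1 - m)
        have h1 := hf.iso 0 X Y p q m hX hY trivial hp hq h
        have h2 := hf.iso 0 X Y p q (X.dim + 1 - m) hX hY trivial hp hq h
        rw [h1, ← h2, hd]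
        simp }
  have hsym := inv_nword h hA (fun X Y h => ⟨rfl, h⟩) hP hf' (fun X hX m =>
    symm_of_middle closed_isProduct (fun _ _ h => isProduct_of_isProj h) hP hM hf hX m)
  have h1 : dl W o X p m + dl W o X p (X.dim + 1 - m) = 0 := hsym m
  by_cases hm : 2 * m - 1 = X.dim
  · have e : (X.dim : ℤ) + 1 - m = m := by omega
    rw [e] at h1
    linarith
  · have h2 := od_zero ho h.mot h.inDeg hm
    have h3 := od_zero (m := X.dim + 1 - m) ho h.mot h.inDeg (by omega)
    have h4 := rk_nonneg (W := W) X p m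
    have h5 := rk_nonneg (W := W) X p (X.dim + 1 - m)
    rw [dl, dl, h2, h3] at h1
    rw [dl, h2]
    linarith

theorem dl_pword {p : C.CH (X.prod X)} {n : ℕ} (h : PWord W X p n) (m : ℤ) :
    dl W o X p m = 0 :=
  inv_pword h hP (inv_dl hPol hP ho hM) (fun _ _ h m => dl_nword hPol hP ho hM h m) m

theorem act_pword {p : C.CH (X.prod X)} {n : ℕ} (h : PWord W X p n) {m : ℕ}
    (hm : 2 * m ≠ n + 1) {x : C.CH X} (hx : x ∈ homTriv W X m) : C.act p x = 0 := by
  have h1 := dl_pword hPol hP ho hM h m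
  have h2 := od_zero (m := m) ho h.mot h.inDeg (by omega)
  rw [dl, h2, sub_zero, rk, if_pos (by omega), Int.toNat_natCast] at h1
  have hfin : Module.Finite ℚ (homTriv W X m) := finite_of_middle hPol closed_isProduct
    (fun _ _ h => isProduct_of_isProj h) hP hM h.isProduct m
  have : Module.Finite ℚ (homTrivOf W X p m) := by
    rw [homTrivOf, imageA]
    infer_instance
  have h3 : Module.finrank ℚ (homTrivOf W X p m) = 0 := by exact_mod_cast h1
  rw [Submodule.finrank_eq_zero] at h3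
  have h4 : C.act p x ∈ homTrivOf W X p m := ⟨x, hx, rfl⟩
  rw [h3] at h4
  exact (Submodule.mem_bot _).1 h4

theorem dl_product (hX : IsProduct W X) (m : ℤ) : dl W o X (C.diagC X) m = 0 := by
  classical
  obtain ⟨ι, _, _, p, n, hp, hor, hsum⟩ := exists_words (W := W) hX
  rw [← hsum, (inv_dl hPol hP ho hM).sum hX Finset.univ p m hor]
  exact Finset.sum_eq_zero fun i _ => dl_pword hPol hP ho hM (hp i) m

/-- correspondences between products -/
theorem twoStep_product {X Y : 𝒱.Obj} (hX : IsProduct W X) (hY : IsProduct W Y) {c : ℕ}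
    {γ : C.CH (X.prod Y)} {m : ℕ} (hγ : γ ∈ C.gr (X.prod Y) c)
    (h0 : ∀ a ∈ W.gr X (2 * m + 1), W.act γ a = 0) {x : C.CH X} (hx : x ∈ homTriv W X (m + 1)) :
    C.act γ x = 0 := by
  classical
  have hcl : W.cl Y (C.act γ x) = 0 := by rw [W.cl_act, hx.2, map_zero]
  rcases lt_trichotomy (m + 1 + c) X.dim with h | h | h
  · exact C.act_eq_zero hγ hx.1 h
  · exact Pool.Agent.R898.homTriv_zero (W := W) hPol ⟨C.act_mem hγ hx.1 (j := 0) (by omega), hcl⟩
  obtain ⟨n', hn'⟩ : ∃ n, m + 1 + c = n + 1 + X.dim := ⟨m + c - X.dim, by omega⟩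
  have hy : C.act γ x ∈ homTriv W Y (n' + 1) := ⟨C.act_mem hγ hx.1 hn', hcl⟩
  obtain ⟨ι, _, _, p, n, hp, hor, hsum⟩ := exists_words (W := W) hX
  obtain ⟨κ, _, _, q, l, hq, hor', hsum'⟩ := exists_words (W := W) hY
  have hx1 : x = ∑ i, C.act (p i) x := by
    conv_lhs => rw [← C.act_diagC x, ← hsum, C.act_sum, LinearMap.sum_apply]
  have hy1 : C.act γ x = ∑ i, ∑ j, C.act (q j) (C.act γ (C.act (p i) x)) := by
    conv_lhs => rw [hx1, map_sum]
    refine Finset.sum_congr rfl fun i _ => ?_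
    conv_lhs => rw [← C.act_diagC (C.act γ (C.act (p i) x)), ← hsum', C.act_sum,
      LinearMap.sum_apply]
  rw [hy1]
  refine Finset.sum_eq_zero fun i _ => Finset.sum_eq_zero fun j _ => ?_
  by_cases hni : n i = 2 * m + 1
  swap
  · rw [act_pword hPol hP ho hM (hp i) (by omega) hx, map_zero, map_zero]
  have hxi : C.act (p i) x ∈ homTriv W X (m + 1) := act_homTriv (hp i).mot.mem hx (by omega)
  have hyi : C.act γ (C.act (p i) x) ∈ homTriv W Y (n' + 1) := act_homTriv hγ hxi (by omega)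
  by_cases hlj : l j = 2 * n' + 1
  swap
  · rw [act_pword hPol hP ho hM (hq j) (by omega) hyi]
  set δ := C.comp (C.comp (p i) γ) (q j) with hδ
  have hδm : δ ∈ C.gr (X.prod Y) c :=
    C.comp_mem (C.comp_mem (hp i).mot.mem hγ (r := c) (by omega)) (hq j).mot.mem rfl
  have hδx : C.act δ x = C.act (q j) (C.act γ (C.act (p i) x)) := by
    rw [hδ, C.act_comp, C.act_comp]
  have hδ0 : W.act δ = 0 := by
    ext a
    rw [LinearMap.zero_apply, hδ, W.act_comp _ (hq j).mot.mem, W.act_comp _ hγ,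
      h0 _ (by rw [← hni]; exact (hp i).inDeg a), map_zero]
  have hδt : δ ∈ homTriv W (X.prod Y) c := ⟨hδm, cl_eq_zero_of_act W hδ0⟩
  have hδz : δ = 0 := by
    obtain ⟨n'', hp', hn''⟩ := (hp i).transp
    have hw := PWord.prod hp' (hq j)
    have h1 := act_pword hPol hP ho hM hw (by omega) hδt
    rw [C.act_tensor, hδ] at h1
    rw [hδ]
    have h2 : C.comp (C.comp (p i) (C.comp (C.comp (p i) γ) (q j))) (q j) =
        C.comp (C.comp (p i) γ) (q j) := by
      rw [← C.comp_assoc (p i), ← C.comp_assoc (p i), (hp i).mot.idem, C.comp_assoc,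
        (hq j).mot.idem]
    rw [h2] at h1
    exact h1
  rw [← hδx, hδz, C.act_zero, LinearMap.zero_apply]

/-- **The two-step property for all dominated varieties.** -/
theorem twoStep (hdom : ∀ X, ∃ Z, IsProduct W Z ∧ Dominates C Z X) : TwoStep W := by
  intro X Y c γ m hγ h0 x hx
  have hsum : ∀ X : 𝒱.Obj, ∃ Z, IsProduct W Z ∧ C.IsSummand X Z := by
    intro X
    obtain ⟨Z, hZ, f, c, ζ, hc, hζ, h1⟩ := hdom X
    refine ⟨Z, hZ, ChowTheory.Dominates.isSummand ⟨by omega, f, ζ, ?_, h1⟩⟩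
    have e : Z.dim - X.dim = c := by omega
    rw [e]; exact hζ
  obtain ⟨Z, hZ, a, b, α, β, hα, hβ, hab, h1⟩ := hsum X
  obtain ⟨Z', hZ', a', b', α', β', hα', hβ', hab', h1'⟩ := hsum Y
  have hx1 : C.act β (C.act α x) = x := by rw [← C.act_comp, h1, C.act_diagC]
  have hfin : ∀ y : C.CH Y, C.act α' y = 0 → y = 0 := by
    intro y hy
    rw [← C.act_diagC y, ← h1', C.act_comp, hy, map_zero]
  -- the image of `x`
  rcases lt_trichotomy (m + 1 + a) X.dim with h | h | h
  · rw [← hx1, C.act_eq_zero hα hx.1 h, map_zero, map_zero]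
  · have : C.act α x = 0 := Pool.Agent.R898.homTriv_zero (W := W) hPol
      (act_homTriv hα hx (by omega))
    rw [← hx1, this, map_zero, map_zero]
  obtain ⟨m', hm'⟩ : ∃ n, m + 1 + a = n + 1 + X.dim := ⟨m + a - X.dim, by omega⟩
  have hx' : C.act α x ∈ homTriv W Z (m' + 1) := act_homTriv hα hx hm'
  by_cases hr : b + c < X.dim
  · rw [← hx1, ← C.act_comp, C.comp_eq_zero_of_codim hβ hγ hr, C.act_zero, LinearMap.zero_apply]
  obtain ⟨r, hr⟩ : ∃ r, b + c = r + X.dim := ⟨b + c - X.dim, by omega⟩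
  have hβγ : C.comp β γ ∈ C.gr (Z.prod Y) r := C.comp_mem hβ hγ hr
  apply hfin
  by_cases ht : r + a' < Y.dim
  · have h2 : C.act (C.comp (C.comp β γ) α') (C.act α x) = 0 := by
      rw [C.comp_eq_zero_of_codim hβγ hα' ht, C.act_zero, LinearMap.zero_apply]
    rwa [C.act_comp, C.act_comp, hx1] at h2
  obtain ⟨t, ht⟩ : ∃ t, r + a' = t + Y.dim := ⟨r + a' - Y.dim, by omega⟩
  have hδ : C.comp (C.comp β γ) α' ∈ C.gr (Z.prod Z') t := C.comp_mem hβγ hα' ht
  have h2 : C.act (C.comp (C.comp β γ) α') (C.act α x) = 0 := by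
    refine twoStep_product hPol hP ho hM hZ hZ' hδ (fun z hz => ?_) hx'
    rw [W.act_comp _ hα', W.act_comp _ hγ]
    by_cases hz' : 2 * m' + 1 + 2 * b < 2 * Z.dim
    · rw [W.act_eq_zero hβ hz hz', map_zero, map_zero]
    · rw [h0 _ (W.act_mem hβ hz (by omega)), map_zero]
  rwa [C.act_comp, C.act_comp, hx1] at h2

theorem full_product : Full W o (IsProduct W) := fun X n hX =>
  formula_of_dl (finite_of_middle hPol closed_isProduct
    (fun _ _ h => isProduct_of_isProj h) hP hM hX (n + 1)) (dl_product hPol hP ho hM hX (n + 1))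

end Main

/-- **All codimensions, for varieties with the standard conjecture of Lefschetz type.** -/
theorem full_lefschetz (hPol : C.Polarized) (hP : ∀ s, ∃ P, Pool.Agent.R898.G.IsProj C s P)
    (ho : IsOrder W o) (hM : Middle W o (fun _ => True)) (hT : TwoStep W) (hX : OddLefschetz W X)
    (n : ℕ) : Formula W o X n := by
  have hcl : Closed (fun _ : 𝒱.Obj => True) := fun _ _ _ _ => trivial
  have hfin : ∀ X : 𝒱.Obj, ∀ m, Module.Finite ℚ (homTriv W X m) := fun X m =>
    finite_of_middle hPol hcl (fun _ _ _ => trivial) hP hM (X := X) trivial m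
  have hf : Inv C (fun _ _ _ => True) (fun _ => True) (dl W o) :=
    inv_sub (inv_rk fun X _ m => hfin X m) (inv_od ho)
  have hsym := fun m => symm_of_middle hcl (fun _ _ _ => trivial) hP hM hf (X := X) trivial m
  refine formula_of_dl (hfin X _) ?_
  by_cases hn : X.dim ≤ n
  · have h1 := hsym (n + 1)
    have h2 : dl W o X (C.diagC X) (X.dim + 1 - (n + 1)) = 0 := by
      have h3 : od o X (C.diagC X) (X.dim + 1 - (n + 1)) = 0 := by
        rw [od, if_neg (by omega)]
      have h4 : rk W X (C.diagC X) (X.dim + 1 - (n + 1)) = 0 := by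
        rw [rk]
        split_ifs with h5
        · have e : ((X.dim : ℤ) + 1 - (n + 1)).toNat = 0 := by omega
          have h6 : homTriv W X 0 = ⊥ := by
            rw [eq_bot_iff]
            intro x hx
            exact (Submodule.mem_bot _).2 (Pool.Agent.R898.homTriv_zero hPol hx)
          rw [e, homTrivOf_diagC, h6]
          simp
        · rfl
      rw [dl, h3, h4, sub_self]
    linarith
  · obtain ⟨n', hn'⟩ : ∃ n', X.dim = n + n' + 1 := ⟨X.dim - n - 1, by omega⟩
    obtain ⟨f, g, hfg⟩ := hX n n' hn'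
    have h1 := hsym (n + 1)
    have e : (X.dim : ℤ) + 1 - (n + 1) = n' + 1 := by omega
    rw [e] at h1
    have h2 : o X (C.diagC X) n = o X (C.diagC X) n' := ho.iso _ _ _ _ _ _ _ _ hfg
    have h3 := (TwoStep.determined hT) X X _ _ f g n n' hfg
    obtain ⟨e3⟩ := h3
    have h4 := e3.finrank_eq
    have e1 : ((n : ℤ) + 1).toNat = n + 1 := by omega
    have e2 : ((n : ℤ) + 1 - 1).toNat = n := by omega
    have e1' : ((n' : ℤ) + 1).toNat = n' + 1 := by omega
    have e2' : ((n' : ℤ) + 1 - 1).toNat = n' := by omega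
    have h5 : dl W o X (C.diagC X) (n + 1) = dl W o X (C.diagC X) (n' + 1) := by
      rw [dl, dl, rk, rk, od, od, if_pos (by omega), if_pos (by omega), if_pos (by omega),
        if_pos (by omega), e1, e2, e1', e2', h4, h2]
    linarith

end Pool.Agent.R898.P
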