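import Pool.Agent.R898.KRank
import Pool.Agent.R898.PMain

/-!
# The middle degree determines everything for products of elementary varieties
-/

open CategoryTheory CategoryTheory.Limits AlgebraicGeometry
open Pool.Agent.H914 Pool.Agent.H914.VarClass Pool.Agent.H914.VarClass.Obj
open Pool.Agent.R903 Pool.Agent.R898.P Pool.Agent.R898.F

universe u v w

namespace Pool.Agent.R898.K

variable {k : Type u} [Field k] {𝒱 : VarClass k} {C : ChowTheory.{u, v} 𝒱}
  {W : WeilTheory.{u, v, w} C} {T : MotCoh C} {X Y Z G : 𝒱.Obj} {j : ℕ}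
  {o : ∀ X : 𝒱.Obj, C.CH (X.prod X) → ℕ → ℤ}

lemma map_diagC (X : 𝒱.Obj) (m : ℤ) : (T.gr X m).map (T.act (C.diagC X)) = T.gr X m := by
  have h : T.act (C.diagC X) = LinearMap.id := LinearMap.ext fun x => T.act_diag X x
  rw [h, Submodule.map_id]

lemma dl_of_hasDim {m : ℤ} {l : ℕ} (hm : 2 * m = l + j + 1)
    (h : HasDim T X m (o X (C.diagC X) l)) : dl T j o X (C.diagC X) m = 0 := by
  have e2 : (2 * m - j - 1).toNat = l := by omega
  rw [dl, rk, od, if_pos (by omega), e2, map_diagC, h.2, sub_self]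

lemma hasDim_of_dl {m : ℤ} {l : ℕ} (hm : 2 * m = l + j + 1) (hfin : Module.Finite ℚ (T.gr X m))
    (h : dl T j o X (C.diagC X) m = 0) : HasDim T X m (o X (C.diagC X) l) := by
  have e2 : (2 * m - j - 1).toNat = l := by omega
  rw [dl, rk, od, if_pos (by omega), e2, map_diagC, sub_eq_zero] at h
  exact ⟨hfin, h⟩

/-- the symmetrised formula -/
theorem symm_of_middle (hP : ∀ s, ∃ P, Pool.Agent.R898.G.IsProj C s P) (hM : MiddleDim W T j o)
    (hf : InvB C (fun _ _ _ => True) (IsProduct W) (dl T j o)) (hX : IsProduct W X) (m : ℤ) :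
    dl T j o X (C.diagC X) m + dl T j o X (C.diagC X) (X.dim + j + 1 - m) = 0 := by
  obtain ⟨U, hU⟩ := hP 0
  refine symm_of_sums (F := fun m => dl T j o X (C.diagC X) m) (n := X.dim + j)
    (fun s a ha => ?_) m
  obtain ⟨P, hP⟩ := hP s
  rw [← inv_prod_proj closed_isProduct (fun _ _ h => isProduct_of_isProj h) hf.toInv hX hU hP W a]
  have hXP : IsProduct W (X.prod P) := .prod hX (isProduct_of_isProj hP)
  have h1 := hM (X.prod P) a hXP (by rw [dim_prod, hP.1]; push_cast; omega)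
  exact dl_of_hasDim (by rw [dim_prod, hP.1]; push_cast; omega) h1

lemma rk_nonneg (X : 𝒱.Obj) (p : C.CH (X.prod X)) (m : ℤ) : 0 ≤ rk T X p m :=
  Int.natCast_nonneg _

lemma od_zero (ho : IsOrder W o) {p : C.CH (X.prod X)} (hp : Mot C X p) {n : ℕ}
    (h : InDeg W X p n) {m : ℤ} (hm : 2 * m ≠ n + j + 1) : od j o X p m = 0 := by
  rw [od]
  split_ifs with h1
  · obtain ⟨l, hl⟩ := Int.eq_ofNat_of_zero_le (show 0 ≤ 2 * m - j - 1 by omega)
    rw [hl, Int.toNat_natCast]
    exact Pool.Agent.R898.K.o_zero ho hp fun a ha => h.zero hp.mem (j := l) (by omega) ha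
  · rfl

section Main

variable (hP : ∀ s, ∃ P, Pool.Agent.R898.G.IsProj C s P) (ho : IsOrder W o)
  (hM : MiddleDim W T j o)

include hP ho hM

theorem inv_dl : InvB C (fun _ _ _ => True) (IsProduct W) (dl T j o) :=
  inv_sub (inv_rk fun _ hX m => finite_of_middle hP hM hX m) (inv_od ho)

theorem dl_nword {p : C.CH (X.prod X)} (h : NWord W X p) {m : ℤ}
    (hm : 2 * m ≠ X.dim + j + 1) : dl T j o X p m = 0 := by
  have hf := inv_dl hP ho hM
  let A : ℕ → 𝒱.Obj → 𝒱.Obj → Prop := fun s X Y => s = 0 ∧ X.dim = Y.dim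
  have hA : Stable A := ⟨fun s X Y Z h => ⟨h.1, by rw [dim_prod, dim_prod, h.2]⟩,
    fun s X Y Z h => ⟨h.1, by rw [dim_prod, dim_prod, h.2]⟩⟩
  have hf' : InvB C A (IsProduct W)
      (fun X p m => dl T j o X p m + dl T j o X p (X.dim + j + 1 - m)) :=
    { add := fun X p q m hX hp hq hpq hqp => by
        change dl T j o X (p + q) m + dl T j o X (p + q) (X.dim + j + 1 - m) =
          dl T j o X p m + dl T j o X p (X.dim + j + 1 - m) + (dl T j o X q m +
            dl T j o X q (X.dim + j + 1 - m))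
        rw [hf.add X p q _ hX hp hq hpq hqp, hf.add X p q _ hX hp hq hpq hqp]
        ring
      iso := fun s X Y p q m hX hY hs hp hq h => by
        obtain ⟨rfl, hd⟩ := hs
        change dl T j o Y q (m + (0 : ℕ)) + dl T j o Y q (Y.dim + j + 1 - (m + (0 : ℕ))) =
          dl T j o X p m + dl T j o X p (X.dim + j + 1 - m)
        have h1 := hf.iso 0 X Y p q m hX hY trivial hp hq h
        have h2 := hf.iso 0 X Y p q (X.dim + j + 1 - m) hX hY trivial hp hq h
        rw [h1, ← h2, hd]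
        simp }
  have hsym := invB_nword h hA (fun X Y h => ⟨rfl, h⟩) hP hf' (fun X hX m =>
    symm_of_middle hP hM hf hX m)
  have h1 : dl T j o X p m + dl T j o X p (X.dim + j + 1 - m) = 0 := hsym m
  have h2 := od_zero ho h.mot h.inDeg hm
  have h3 := od_zero (j := j) (m := X.dim + j + 1 - m) ho h.mot h.inDeg (by omega)
  have h4 := rk_nonneg (T := T) X p m
  have h5 := rk_nonneg (T := T) X p (X.dim + j + 1 - m)
  rw [dl, dl, h2, h3] at h1
  rw [dl, h2]
  linarith

theorem dl_pword {p : C.CH (X.prod X)} {n : ℕ} (h : PWord W X p n) (m : ℤ) :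
    dl T j o X p m = 0 :=
  invB_middle hP (inv_dl hP ho hM) (j + 1) (fun X m hX hm => dl_of_hasDim (l := X.dim)
    (by linarith) (hM X m hX (by linarith)))
    (fun X p h m hm => dl_nword hP ho hM h (fun h' => hm (by linarith))) h m

theorem kills_pword {p : C.CH (X.prod X)} {n : ℕ} (h : PWord W X p n) {m : ℤ}
    (hm : 2 * m ≠ n + j + 1) : Kills T p m := by
  intro x hx
  have h1 := dl_pword hP ho hM h m
  have h2 := od_zero (j := j) (m := m) ho h.mot h.inDeg hm
  rw [dl, h2, sub_zero, rk] at h1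
  have hfin : Module.Finite ℚ (T.gr X m) := finite_of_middle hP hM h.isProduct m
  have h3 : Module.finrank ℚ ((T.gr X m).map (T.act p)) = 0 := by exact_mod_cast h1
  rw [Submodule.finrank_eq_zero] at h3
  have h4 : T.act p x ∈ (T.gr X m).map (T.act p) := ⟨x, hx, rfl⟩
  rw [h3] at h4
  exact (Submodule.mem_bot _).1 h4

theorem fullDim : FullDim W T j o := by
  intro X n hX
  have hfin := finite_of_middle hP hM hX
  have h0 : ∀ m, dl T j o X (C.diagC X) m = 0 := invB_product hP (inv_dl hP ho hM) (j + 1)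
    (fun X m hX hm => dl_of_hasDim (l := X.dim) (by linarith) (hM X m hX (by linarith)))
    (fun X p h m hm => dl_nword hP ho hM h (fun h' => hm (by linarith))) hX
  refine ⟨fun l hl => hasDim_of_dl hl (hfin n) (h0 n), fun hn => ⟨hfin n, ?_⟩⟩
  have h1 := h0 n
  rw [dl, rk, od, if_neg (by omega), sub_zero, map_diagC] at h1
  exact h1

theorem concentrated (hX : IsProduct W X) : ∃ π, Concentrated W T j X π := by
  classical
  obtain ⟨ι, _, _, p, n, hp, hor, hsum⟩ := exists_words (W := W) hX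
  have hor' : ∀ l : ℕ, Pool.Agent.R898.P.Orth C X (Finset.univ.filter fun i => n i = l) p :=
    fun l => ⟨fun i _ => hor.mot i (Finset.mem_univ _), fun i _ i' _ h =>
      hor.orth i (Finset.mem_univ _) i' (Finset.mem_univ _) h⟩
  have hdeg : ∀ i, n i ≤ 2 * X.dim := fun i => by
    obtain ⟨n', _, h⟩ := (hp i).transp
    omega
  refine ⟨fun l => ∑ i ∈ Finset.univ.filter (fun i => n i = l), p i, ?_, ?_, ?_, ?_, ?_, ?_⟩
  · exact fun l => (hor' l).sum.1.isMotive
  · intro l l' hl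
    change C.comp (∑ i ∈ _, p i) (∑ i ∈ _, p i) = 0
    rw [C.sum_comp]
    refine Finset.sum_eq_zero fun i hi => ?_
    rw [C.comp_sum]
    refine Finset.sum_eq_zero fun i' hi' => ?_
    rw [Finset.mem_filter] at hi hi'
    refine hor.orth i (Finset.mem_univ _) i' (Finset.mem_univ _) ?_
    rintro rfl
    exact hl (hi.2.symm.trans hi'.2)
  · rw [← hsum]
    exact Finset.sum_fiberwise_of_maps_to (fun i _ => Finset.mem_range.2 (by
      have := hdeg i; omega)) p
  · intro l a ha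
    have h1 : a = ∑ i, W.act (p i) a := by
      conv_lhs => rw [← W.act_diagC a, ← hsum, W.act_sum, LinearMap.sum_apply]
    rw [W.act_sum, LinearMap.sum_apply]
    conv_rhs => rw [h1]
    refine Finset.sum_subset (Finset.subset_univ _) fun i _ hi => ?_
    exact (hp i).inDeg.zero (hp i).mot.mem (fun h => hi (by simp [h])) ha
  · intro l l' hl a ha
    rw [W.act_sum, LinearMap.sum_apply]
    refine Finset.sum_eq_zero fun i hi => ?_
    rw [Finset.mem_filter] at hi
    exact (hp i).inDeg.zero (hp i).mot.mem (fun h => hl (hi.2.symm.trans h.symm)) ha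
  · intro l m hm x hx
    rw [T.act_sum]
    refine Finset.sum_eq_zero fun i hi => ?_
    rw [Finset.mem_filter] at hi
    exact kills_pword hP ho hM (hp i) (by rw [hi.2]; exact hm) x hx

/-- correspondences between products -/
theorem onlyH_product (hPol : C.Polarized) {o' : ∀ X : 𝒱.Obj, C.CH (X.prod X) → ℕ → ℤ}
    (ho' : P.IsOrder W o') (hM' : P.Middle W o' (IsProduct W)) {X Y : 𝒱.Obj} (hX : IsProduct W X)
    (hY : IsProduct W Y) {c : ℕ} {γ : C.CH (X.prod Y)} {l : ℕ} {m : ℤ} (hm : 2 * m = l + j + 1)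
    (hγ : γ ∈ C.gr (X.prod Y) c) (h0 : ∀ a ∈ W.gr X l, W.act γ a = 0) : Kills T γ m := by
  classical
  intro x hx
  obtain ⟨ι, _, _, p, n, hp, hor, hsum⟩ := exists_words (W := W) hX
  obtain ⟨κ, _, _, q, l', hq, hor', hsum'⟩ := exists_words (W := W) hY
  have hx1 : x = ∑ i, T.act (p i) x := by
    conv_lhs => rw [← T.act_diag X x, ← hsum, T.act_sum]
  have hy1 : T.act γ x = ∑ i, ∑ j, T.act (q j) (T.act γ (T.act (p i) x)) := by
    conv_lhs => rw [hx1, map_sum]
    refine Finset.sum_congr rfl fun i _ => ?_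
    conv_lhs => rw [← T.act_diag Y (T.act γ (T.act (p i) x)), ← hsum', T.act_sum]
  rw [hy1]
  refine Finset.sum_eq_zero fun i _ => Finset.sum_eq_zero fun i' _ => ?_
  by_cases hni : n i = l
  swap
  · rw [kills_pword hP ho hM (hp i) (by omega) x hx, map_zero, map_zero]
  have hyi : T.act γ (T.act (p i) x) ∈ T.gr Y (m + c - X.dim) :=
    T.act_mem' hγ (T.act_mem' (hp i).mot.mem hx rfl) (by ring)
  by_cases hlj : 2 * (m + c - X.dim) = l' i' + j + 1
  swap
  · exact kills_pword hP ho hM (hq i') hlj _ hyi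
  set δ := C.comp (C.comp (p i) γ) (q i') with hδ
  have hδm : δ ∈ C.gr (X.prod Y) c :=
    C.comp_mem (C.comp_mem (hp i).mot.mem hγ (r := c) (by omega)) (hq i').mot.mem rfl
  have hδx : T.act δ x = T.act (q i') (T.act γ (T.act (p i) x)) := by
    rw [hδ, T.act_comp, T.act_comp]
  have hδ0 : W.act δ = 0 := by
    ext a
    rw [LinearMap.zero_apply, hδ, W.act_comp _ (hq i').mot.mem, W.act_comp _ hγ,
      h0 _ (by rw [← hni]; exact (hp i).inDeg a), map_zero]
  have hδt : δ ∈ F.homTriv W (X.prod Y) c := ⟨hδm, cl_eq_zero_of_act W hδ0⟩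
  have hδz : δ = 0 := by
    obtain ⟨n'', hp', hn''⟩ := (hp i).transp
    have hw := PWord.prod hp' (hq i')
    have h1 := act_pword hPol hP ho' hM' hw (m := c) (by omega) hδt
    rw [C.act_tensor, hδ] at h1
    rw [hδ]
    have h2 : C.comp (C.comp (p i) (C.comp (C.comp (p i) γ) (q i'))) (q i') =
        C.comp (C.comp (p i) γ) (q i') := by
      rw [← C.comp_assoc (p i), ← C.comp_assoc (p i), (hp i).mot.idem, C.comp_assoc,
        (hq i').mot.idem]
    rw [h2] at h1
    exact h1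
  rw [← hδx, hδz, T.act_zero]

theorem onlyH (hPol : C.Polarized) (hdom : ∀ X, ∃ Z, IsProduct W Z ∧ Dominates C Z X)
    {o' : ∀ X : 𝒱.Obj, C.CH (X.prod X) → ℕ → ℤ} (ho' : P.IsOrder W o')
    (hM' : P.Middle W o' (IsProduct W)) : OnlyH W T j := by
  intro X Y c l m γ hm hγ h0 x hx
  have hsum : ∀ X : 𝒱.Obj, ∃ Z, IsProduct W Z ∧ C.IsSummand X Z := by
    intro X
    obtain ⟨Z, hZ, f, c, ζ, hc, hζ, h1⟩ := hdom X
    refine ⟨Z, hZ, ChowTheory.Dominates.isSummand ⟨by omega, f, ζ, ?_, h1⟩⟩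
    have e : Z.dim - X.dim = c := by omega
    rw [e]; exact hζ
  obtain ⟨Z, hZ, a, b, α, β, hα, hβ, hab, h1⟩ := hsum X
  obtain ⟨Z', hZ', a', b', α', β', hα', hβ', hab', h1'⟩ := hsum Y
  have hx1 : T.act β (T.act α x) = x := by rw [← T.act_comp, h1, T.act_diag]
  have hfin : ∀ y : T.M Y, T.act α' y = 0 → y = 0 := by
    intro y hy
    rw [← T.act_diag Y y, ← h1', T.act_comp, hy, map_zero]
  by_cases hr : b + c < X.dim
  · rw [← hx1, ← T.act_comp, C.comp_eq_zero_of_codim hβ hγ hr, T.act_zero]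
  obtain ⟨r, hr⟩ : ∃ r, b + c = r + X.dim := ⟨b + c - X.dim, by omega⟩
  have hβγ : C.comp β γ ∈ C.gr (Z.prod Y) r := C.comp_mem hβ hγ hr
  apply hfin
  by_cases ht : r + a' < Y.dim
  · have h2 : T.act (C.comp (C.comp β γ) α') (T.act α x) = 0 := by
      rw [C.comp_eq_zero_of_codim hβγ hα' ht, T.act_zero]
    rwa [T.act_comp, T.act_comp, hx1] at h2
  obtain ⟨t, ht⟩ : ∃ t, r + a' = t + Y.dim := ⟨r + a' - Y.dim, by omega⟩
  have hδ : C.comp (C.comp β γ) α' ∈ C.gr (Z.prod Z') t := C.comp_mem hβγ hα' ht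
  have hx' : T.act α x ∈ T.gr Z (m + a - X.dim) := T.act_mem' hα hx (by ring)
  -- the degree in the cohomology of `Z`
  by_cases hl : (l : ℤ) + 2 * a - 2 * X.dim < 0
  · -- `gr Z` vanishes in this degree
    have h3 := (fullDim hP ho hM Z (m + a - X.dim) hZ).2 (by omega)
    have hf : Module.Finite ℚ (T.gr Z (m + a - X.dim)) := h3.1
    have h4 : T.gr Z (m + a - X.dim) = ⊥ := by
      rw [← Submodule.finrank_eq_zero]
      exact_mod_cast h3.2
    rw [h4, Submodule.mem_bot] at hx'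
    rw [← hx1, hx', map_zero, map_zero, map_zero]
  obtain ⟨l', hl'⟩ := Int.eq_ofNat_of_zero_le (not_lt.1 hl)
  have h2 : T.act (C.comp (C.comp β γ) α') (T.act α x) = 0 := by
    refine onlyH_product hP ho hM hPol ho' hM' hZ hZ' (l := l') (m := m + a - X.dim)
      (by omega) hδ (fun z hz => ?_) _ hx'
    rw [W.act_comp _ hα', W.act_comp _ hγ]
    by_cases hz' : l' + 2 * b < 2 * Z.dim
    · rw [W.act_eq_zero hβ hz (by omega), map_zero, map_zero]
    · rw [h0 _ (W.act_mem hβ hz (by omega)), map_zero]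
  rwa [T.act_comp, T.act_comp, hx1] at h2

end Main

lemma MotIso.of_twistIso {s : ℕ} {p : C.CH (X.prod X)} {q : C.CH (Y.prod Y)}
    (h : TwistIso C s X Y p q) : ∃ f g, MotIso C s X Y p q f g := by
  obtain ⟨a, b, c, ha, hb, hc, h1, h2⟩ := h
  exact ⟨a, b, ⟨ha, ⟨c, hc, hb⟩, h1, h2⟩⟩

/-- **Volumes.** -/
theorem volume {B : Type} [AddCommGroup B] {e : ∀ X : 𝒱.Obj, C.CH (X.prod X) → ℤ → B}
    (hP : ∀ s, ∃ P, Pool.Agent.R898.G.IsProj C s P) (he : IsVolume W j e)
    (hM : ∀ (X : 𝒱.Obj) (n : ℤ), IsProduct W X → 2 * n = X.dim + j + 1 → e X (C.diagC X) n = 0)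
    (hX : IsProduct W X) (n : ℤ) : e X (C.diagC X) n = 0 := by
  refine invB_product hP ⟨fun X p q m _ hp hq hpq hqp =>
    he.add X p q m hp.isMotive hq.isMotive hpq hqp, fun s X Y p q m _ _ _ hp hq h => ?_⟩ (j + 1)
    (fun X m hX hm => hM X m hX (by linarith)) (fun X p h m hm => he.zero X p m h.mot.isMotive
      fun l hl a ha => h.inDeg.zero h.mot.mem (fun h' => hm (by rw [← h']; linarith)) ha) hX n
  obtain ⟨f, g, hfg⟩ := MotIso.of_twistIso h
  exact he.iso s X Y p q f g m hp.isMotive hq.isMotive hfg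

end Pool.Agent.R898.K
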