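import Pool.Agent.R898.KAS
import Pool.Agent.R898.KMain

/-!
# Translation between the definitions
-/

open CategoryTheory CategoryTheory.Limits AlgebraicGeometry
open Pool.Agent.H914 Pool.Agent.H914.VarClass Pool.Agent.H914.VarClass.Obj
open Pool.Agent.R903

universe u v w

namespace Pool.Agent.R898.KA

variable {k : Type u} [Field k] {𝒱 : VarClass k} {C : ChowTheory.{u, v} 𝒱}
  {W : WeilTheory.{u, v, w} C} {X Y Z : 𝒱.Obj} {j : ℕ}

lemma isProj_iff {s : ℕ} {P : 𝒱.Obj} : IsProj C s P ↔ G.IsProj C s P :=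
  ⟨fun ⟨h1, h, h2⟩ => ⟨h1, h, ⟨h2.mem, h2.deg_pow, h2.diag⟩⟩,
    fun ⟨h1, h, h2⟩ => ⟨h1, h, ⟨h2.mem, h2.deg_pow, h2.diag⟩⟩⟩

lemma elementary_iff : Elementary W X ↔ P.Elementary W X := Iff.rfl

lemma isProduct_iff : IsProduct W X ↔ P.IsProduct W X := by
  constructor
  · intro h
    induction h with
    | elementary h => exact .elementary (elementary_iff.1 h)
    | prod _ _ h1 h2 => exact .prod h1 h2
  · intro h
    induction h with
    | elementary h => exact .elementary (elementary_iff.2 h)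
    | prod _ _ h1 h2 => exact .prod h1 h2

/-- the translation -/
def MotCoh.toK (T : MotCoh C) : K.MotCoh C where
  M := T.M
  gr := T.gr
  act := T.act
  act_add γ δ x := by rw [T.act_add]; rfl
  act_diag X x := by rw [T.act_diag]; rfl
  act_cp γ δ x := by
    have h := T.act_cp γ δ
    have h' : T.act (F.cp C γ δ) = (T.act δ).comp (T.act γ) := h
    rw [h']; rfl
  act_mem := T.act_mem

lemma IsOrder.toK {o : ∀ X : 𝒱.Obj, C.CH (X.prod X) → ℕ → ℤ} (ho : IsOrder W o) :
    K.IsOrder W o :=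
  ⟨fun X Y p q f g l l' h => ho.iso X Y p q f g l l' ⟨h.source, h.target, h.memf, h.memg, h.left,
    h.right⟩, ho.add⟩

lemma IsOrder.toP {o : ∀ X : 𝒱.Obj, C.CH (X.prod X) → ℕ → ℤ} (ho : IsOrder W o) :
    P.IsOrder W (fun X p n => o X p (2 * n + 1)) where
  iso X Y p q f g m n h := by
    obtain ⟨c, hc, hf⟩ := h.memf
    obtain ⟨c', hc', hg⟩ := h.memg
    exact ho.iso X Y p q f g _ _ ⟨h.source, h.target, ⟨c, by omega, hf⟩, ⟨c', by omega, hg⟩,
      h.left, h.right⟩
  add X p q n := ho.add X p q _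

lemma middleDim_iff {T : MotCoh C} {o : ∀ X : 𝒱.Obj, C.CH (X.prod X) → ℕ → ℤ} :
    MiddleDim W T j o ↔ K.MiddleDim W T.toK j o :=
  ⟨fun h X n hX => h X n (isProduct_iff.2 hX), fun h X n hX => h X n (isProduct_iff.1 hX)⟩

section Main

variable {T : MotCoh C} {o : ∀ X : 𝒱.Obj, C.CH (X.prod X) → ℕ → ℤ}
  (hP : ∀ s, ∃ P, IsProj C s P) (ho : IsOrder W o) (hM : MiddleDim W T j o)

include hP ho hM

theorem fullDim : FullDim W T j o := fun X n hX =>
  K.fullDim (fun s => (hP s).imp fun _ h => isProj_iff.1 h) ho.toK (middleDim_iff.1 hM) X n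
    (isProduct_iff.1 hX)

theorem concentrated (hX : IsProduct W X) : Concentrated W T j X := by
  obtain ⟨π, h⟩ := K.concentrated (fun s => (hP s).imp fun _ h => isProj_iff.1 h) ho.toK
    (middleDim_iff.1 hM) (isProduct_iff.1 hX)
  refine ⟨π, fun l l' => ?_, h.sum, fun l => ⟨(h.mot l).1, fun a => ?_, fun n hn => h.conc l n hn⟩⟩
  · split_ifs with h'
    · subst h'; exact (h.mot l).2
    · exact h.orth l l' h'
  · refine gr_induction (W.isInternal X) (p := fun a => W.act (π l) a ∈ W.gr X l) ?_ ?_ a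
    · intro i a ha
      by_cases hi : l = i
      · subst hi
        rw [h.one l a ha]; exact ha
      · rw [h.zero l i hi a ha]; exact Submodule.zero_mem _
    · intro a b ha hb
      rw [map_add]; exact Submodule.add_mem _ ha hb

theorem onlyH (hPol : C.Polarized) (hdom : ∀ X, ∃ Z, IsProduct W Z ∧ Dominates C Z X)
    {o' : ∀ X : 𝒱.Obj, C.CH (X.prod X) → ℕ → ℤ} (ho' : IsOrder W o')
    (hM' : BBMiddle W o') : OnlyH W T j := by
  have h := K.onlyH (fun s => (hP s).imp fun _ h => isProj_iff.1 h) ho.toK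
    (middleDim_iff.1 hM) hPol (fun X => (hdom X).imp fun Z h => ⟨isProduct_iff.1 h.1, h.2⟩)
    ho'.toP (fun X i hX hd => hM' X i (isProduct_iff.2 hX) hd)
  exact h

end Main

end Pool.Agent.R898.KA
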