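import Pool.Agent.R898.KD

/-!
# Motivic cohomology of products of curves, regular surfaces, complete intersections: the
# definitions used in the statement on dimensions
-/

open CategoryTheory CategoryTheory.Limits AlgebraicGeometry
open Pool.Agent.H914 Pool.Agent.H914.VarClass Pool.Agent.H914.VarClass.Obj
open Pool.Agent.R903

universe u v w

namespace Pool.Agent.R898.KA

section Alg

variable {A : Type v} [CommRing A] [Algebra ℚ A] {B : Type v} [CommRing B] [Algebra ℚ B]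
  {K : Type w} [Field K] {H : Type w} [Ring H] [Algebra K H] {H' : Type w} [Ring H']
  [Algebra K H']

/-- The subspace of the elements `x` of `U` with `c x = 0`. -/
def nullPart (U : Submodule ℚ A) (c : A →+* H) : Submodule ℚ A where
  carrier := {x | x ∈ U ∧ c x = 0}
  add_mem' := fun {a b} ha hb => ⟨U.add_mem ha.1 hb.1, by rw [map_add, ha.2, hb.2, add_zero]⟩
  zero_mem' := ⟨U.zero_mem, map_zero c⟩
  smul_mem' := fun q x hx => ⟨U.smul_mem q hx.1, by rw [Algebra.smul_def, map_mul, hx.2, mul_zero]⟩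

/-- `U` is finite-dimensional of dimension `r`. -/
def DimIs {M : Type v} [AddCommGroup M] [Module ℚ M] (U : Submodule ℚ M) (r : ℤ) : Prop :=
  Module.Finite ℚ U ∧ (Module.finrank ℚ U : ℤ) = r

/-- `S` is the identity on the image of `U` under `T`. -/
def IdOn (S : H →ₗ[K] H) (T : H →ₗ[K] H) (U : Submodule K H) : Prop := ∀ a ∈ U, S (T a) = T a

/-- The image of `T` is contained in `U`. -/
def Into (T : H →ₗ[K] H) (U : Submodule K H) : Prop := ∀ a, T a ∈ U

/-- `s x = 1`. -/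
def IsOneOf (s : A →ₗ[ℚ] B) (x : A) : Prop := s x = 1

/-- The `π l` are orthogonal idempotents for the composition `c`. -/
def OrthIdem (c : A → A → A) (π : ℕ → A) : Prop := ∀ l l', c (π l) (π l') = if l = l' then π l else 0

/-- `π 0 + ⋯ + π (2n) = δ`. -/
def SumsTo (π : ℕ → A) (n : ℕ) (δ : A) : Prop := ∑ l ∈ Finset.range (2 * n + 1), π l = δ

end Alg

variable {k : Type u} [Field k] {𝒱 : VarClass k}

/-- Graded rational vector spaces `M X` on which correspondences act. Intended: a number `j` is fixed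
and `gr X n = H^(2n-j)(X, ℚ(n))_ℤ = K_j(X)_ℤ^(n)` is integral motivic cohomology. The properties are
functoriality and the behaviour of the degrees. -/
structure MotCoh (C : ChowTheory.{u, v} 𝒱) where
  M : 𝒱.Obj → Type v
  [ab : ∀ X, AddCommGroup (M X)]
  [mod : ∀ X, Module ℚ (M X)]
  gr : ∀ X, ℤ → Submodule ℚ (M X)
  act : ∀ {X Y : 𝒱.Obj}, C.CH (X.prod Y) → M X →ₗ[ℚ] M Y
  act_add : ∀ {X Y : 𝒱.Obj} (γ δ : C.CH (X.prod Y)), act (γ + δ) = act γ + act δ
  act_diag : ∀ X : 𝒱.Obj, act (C.diagC X) = LinearMap.id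
  act_cp : ∀ {X Y Z : 𝒱.Obj} (γ : C.CH (X.prod Y)) (δ : C.CH (Y.prod Z)),
    act (cp C γ δ) = (act δ).comp (act γ)
  act_mem : ∀ {X Y : 𝒱.Obj} (γ : C.CH (X.prod Y)) (c : ℕ) (m n : ℤ) (x : M X), Codim C c γ →
    x ∈ gr X m → m + c = n + X.dim → act γ x ∈ gr Y n

attribute [instance] MotCoh.ab MotCoh.mod

variable {C : ChowTheory.{u, v} 𝒱}

/-- The action of `γ` on `gr X n` is zero. -/
def Kills (T : MotCoh C) {X Y : 𝒱.Obj} (γ : C.CH (X.prod Y)) (n : ℤ) : Prop :=
  ∀ x ∈ T.gr X n, T.act γ x = 0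

/-- `Z` dominates `X`: there are a morphism `f : Z ⟶ X` and a class `ζ` in `CH^(dim Z - dim X)(Z)`
with `f_* ζ = [X]`. For projective varieties this holds for each surjective `f`. -/
def Dominates (C : ChowTheory.{u, v} 𝒱) (Z X : 𝒱.Obj) : Prop :=
  ∃ (f : Z ⟶ X) (c : ℕ) (ζ : C.CH Z), X.dim + c = Z.dim ∧ Codim C c ζ ∧ IsOneOf (C.push f) ζ

variable (W : WeilTheory.{u, v, w} C)

/-- The correspondences `f`, `g` of opposite degrees induce inverse isomorphisms between `H^l(X, p)`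
and `H^l'(Y, q)`. -/
structure HIso (X Y : 𝒱.Obj) (p : C.CH (X.prod X)) (q : C.CH (Y.prod Y)) (f : C.CH (X.prod Y))
    (g : C.CH (Y.prod X)) (l l' : ℕ) : Prop where
  source : IsMotive C X p
  target : IsMotive C Y q
  memf : ∃ c, l + 2 * c = l' + 2 * X.dim ∧ Codim C c f
  memg : ∃ c, l' + 2 * c = l + 2 * Y.dim ∧ Codim C c g
  left : IdOn (W.act (cp C (cp C f q) g)) (W.act p) (W.gr X l)
  right : IdOn (W.act (cp C (cp C g p) f)) (W.act q) (W.gr Y l')

/-- `o X p l` is additive in the motive `(X, p)` and depends only on the isomorphism class of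
`H^l(X, p)` up to Tate twists. Intended: the dimension of the Deligne cohomology
`H_𝒟^(l+1)(X, p; ℝ(n))`, `2n = l + j + 1`, or the order of `L(H^l(X, p), s)` at `s = l + 1 - n`. -/
structure IsOrder (o : ∀ X : 𝒱.Obj, C.CH (X.prod X) → ℕ → ℤ) : Prop where
  iso : ∀ (X Y : 𝒱.Obj) (p : C.CH (X.prod X)) (q : C.CH (Y.prod Y)) (f : C.CH (X.prod Y))
    (g : C.CH (Y.prod X)) (l l' : ℕ), HIso W X Y p q f g l l' → o X p l = o Y q l'
  add : ∀ (X : 𝒱.Obj) (p q : C.CH (X.prod X)) (l : ℕ), IsMotive C X p → IsMotive C X q →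
    cp C p q = 0 → cp C q p = 0 → o X (p + q) l = o X p l + o X q l

/-- The dimension formula in the middle degree `l = dim X`, for the products of elementary
varieties. -/
def MiddleDim (T : MotCoh C) (j : ℕ) (o : ∀ X : 𝒱.Obj, C.CH (X.prod X) → ℕ → ℤ) : Prop :=
  ∀ (X : 𝒱.Obj) (n : ℤ), IsProduct W X → 2 * n = X.dim + j + 1 →
    DimIs (T.gr X n) (o X (C.diagC X) X.dim)

/-- The dimension formula in all degrees `l ≥ 0`, for the products of elementary varieties, and
vanishing for `l < 0`, `l = 2n - j - 1`. -/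
def FullDim (T : MotCoh C) (j : ℕ) (o : ∀ X : 𝒱.Obj, C.CH (X.prod X) → ℕ → ℤ) : Prop :=
  ∀ (X : 𝒱.Obj) (n : ℤ), IsProduct W X →
    (∀ l : ℕ, 2 * n = l + j + 1 → DimIs (T.gr X n) (o X (C.diagC X) l)) ∧
      (2 * n < j + 1 → DimIs (T.gr X n) 0)

/-- There are Chow–Künneth projectors `π l` of `X` (orthogonal idempotents with sum the diagonal,
such that the image of `π l` is in `H^l(X)`), such that only `π l`, `2n = l + j + 1`, acts
nontrivially on `gr X n`. -/
def Concentrated (T : MotCoh C) (j : ℕ) (X : 𝒱.Obj) : Prop :=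
  ∃ π : ℕ → C.CH (X.prod X), OrthIdem (cp C) π ∧ SumsTo π X.dim (C.diagC X) ∧
    ∀ l, Codim C X.dim (π l) ∧ Into (W.act (π l)) (W.gr X l) ∧
      ∀ n : ℤ, 2 * n ≠ l + j + 1 → Kills T (π l) n

/-- `gr X n` depends only on `H^l(X)`, `2n = l + j + 1`, for all the varieties in the class. -/
def OnlyH (T : MotCoh C) (j : ℕ) : Prop :=
  ∀ (X Y : 𝒱.Obj) (c l : ℕ) (n : ℤ) (γ : C.CH (X.prod Y)), 2 * n = l + j + 1 → Codim C c γ →
    ZeroOn (W.act γ) (W.gr X l) → Kills T γ n

/-- Beilinson's formula `dim CH^(i+1)(X)_hom = o X (2i+1)`, where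
`o X (2i+1) = ord_(s=i+1) L(H^(2i+1)(X), s)`, for the products of elementary varieties of dimension
`2i + 1`. -/
def BBMiddle (o : ∀ X : 𝒱.Obj, C.CH (X.prod X) → ℕ → ℤ) : Prop :=
  ∀ (X : 𝒱.Obj) (i : ℕ), IsProduct W X → X.dim = 2 * i + 1 →
    DimIs (nullPart (C.gr X (i + 1)) (W.cl X)) (o X (C.diagC X) (2 * i + 1))

end Pool.Agent.R898.KA
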