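import Pool.Agent.R898.KR

/-!
# The dimension formula in a region: dominated varieties and volumes
-/

open CategoryTheory CategoryTheory.Limits AlgebraicGeometry
open Pool.Agent.H914 Pool.Agent.H914.VarClass Pool.Agent.H914.VarClass.Obj
open Pool.Agent.R903 Pool.Agent.R898.P Pool.Agent.R898.F

universe u v w

namespace Pool.Agent.R898.K

variable {k : Type u} [Field k] {𝒱 : VarClass k} {C : ChowTheory.{u, v} 𝒱}
  {W : WeilTheory.{u, v, w} C} {T : MotCoh C} {X Y Z X' Y' G : 𝒱.Obj} {j : ℕ}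
  {o : ∀ X : 𝒱.Obj, C.CH (X.prod X) → ℕ → ℤ}

lemma summand_of_dominates (h : Dominates C Z X) : ∃ (α : C.CH (X.prod Z)) (β : C.CH (Z.prod X)),
    α ∈ C.gr _ X.dim ∧ β ∈ C.gr _ Z.dim ∧ C.comp α β = C.diagC X := by
  obtain ⟨f, c, ζ, hdim, hζ, h1⟩ := h
  refine ⟨C.cograph f, C.span (𝟙 Z) f ζ, C.cograph_mem f,
    C.span_mem _ _ hζ (by omega), ?_⟩
  rw [ChowTheory.cograph_comp, ChowTheory.span, ← C.push_comp, ChowTheory.diagC, ← h1,
    ← C.push_comp]
  congr 1
  have : lift (𝟙 Z) f ≫ prodMap f (𝟙 X) = f ≫ Obj.diag X := by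
    apply hom_ext_prod <;> simp
  rw [this]

lemma comp_cograph (β : C.CH (X.prod Y)) (f : Z ⟶ Y) :
    C.comp β (C.cograph f) = C.pull (prodMap (𝟙 X) f) β := by
  have h := C.comp_transp (C.graph f) (C.transp β)
  have htt : C.transp (C.transp β) = β := by
    rw [ChowTheory.transp, ChowTheory.transp, ← C.pull_comp]
    have : swap X Y ≫ swap Y X = 𝟙 _ := by apply hom_ext_prod <;> simp
    rw [this, C.pull_id]
  rw [htt, transp_graph, graph_comp] at h
  rw [h, ChowTheory.transp, ChowTheory.transp, ← C.pull_comp, ← C.pull_comp]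
  have e : (swap X Z ≫ prodMap f (𝟙 X)) ≫ swap Y X = prodMap (𝟙 X) f := by
    apply hom_ext_prod <;> simp
  rw [e]

lemma tensor_unit {U : 𝒱.Obj} (hU : IsUnit' C U) (p : C.CH (X.prod X)) :
    C.tensor p (C.diagC U) = C.comp (C.comp (C.graph (fst X U)) p) (C.cograph (fst X U)) := by
  rw [comp_cograph, graph_comp, ← C.pull_comp, ChowTheory.tensor, hU.diag, map_one, mul_one]
  have e : prodMap (𝟙 (X.prod U)) (fst X U) ≫ prodMap (fst X U) (𝟙 X) =
      prodMap (fst X U) (fst X U) := by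
    apply hom_ext_prod <;> simp
  rw [e]

/-- `(X × pt, p ⊗ 1) ≅ (X, p)` -/
lemma twistIso_tensor_unit {U : 𝒱.Obj} (hU : IsUnit' C U) {p : C.CH (X.prod X)}
    (hp : Mot C X p) : TwistIso C 0 (X.prod U) X (C.tensor p (C.diagC U)) p := by
  have h2 : C.comp (C.cograph (fst X U)) (C.graph (fst X U)) = C.diagC X := by
    rw [cograph_comp_graph_self (a := 1) (by
      have h := Pool.Agent.R898.G.push_fst_pull_snd (C := C) (X := X) (P := U) 1
      rwa [map_one, hU.deg] at h), one_smul]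
  refine ⟨C.comp (C.graph (fst X U)) p, C.comp p (C.cograph (fst X U)), X.dim, ?_, ?_, rfl, ?_, ?_⟩
  · have h := C.comp_mem (C.graph_mem (fst X U)) hp.mem (r := X.dim) rfl
    rwa [dim_prod, hU.dim]
  · exact C.comp_mem hp.mem (C.cograph_mem (fst X U)) rfl
  · rw [tensor_unit hU, ← C.comp_assoc, C.comp_assoc _ p p, hp.idem]
  · rw [C.comp_assoc, ← C.comp_assoc (C.cograph _), h2, C.diagC_comp, hp.idem]

section Region

variable {R : ℕ → ℤ → Prop} (hP : ∀ s, ∃ P, Pool.Agent.R898.G.IsProj C s P) (ho : IsOrder W o)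
  (hR : RegionClosed R) (hD : DimOn W T j o R)

include hP ho hD hR

theorem onlyH_summand_on (hPol : C.Polarized) {o' : ∀ X : 𝒱.Obj, C.CH (X.prod X) → ℕ → ℤ}
    (ho' : P.IsOrder W o') (hM' : P.Middle W o' (IsProduct W)) {X Y Z Z' : 𝒱.Obj}
    (hZ : IsProduct W Z) (hZ' : IsProduct W Z') {a b a' : ℕ} {α : C.CH (X.prod Z)}
    {β : C.CH (Z.prod X)} (hα : α ∈ C.gr _ a) (hβ : β ∈ C.gr _ b) (hab : a + b = X.dim + Z.dim)
    (h1 : C.comp α β = C.diagC X) {α' : C.CH (Y.prod Z')} {β' : C.CH (Z'.prod Y)}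
    (hα' : α' ∈ C.gr _ a') (h1' : C.comp α' β' = C.diagC Y)
    {c : ℕ} {γ : C.CH (X.prod Y)} {m : ℤ} (hγ : γ ∈ C.gr (X.prod Y) c)
    (h0 : ∀ l : ℕ, 2 * m = l + j + 1 → ∀ z ∈ W.gr X l, W.act γ z = 0)
    (hmX : R Z.dim (m + a - X.dim)) (hmY : R Z'.dim (m + c - X.dim + a' - Y.dim)) :
    Kills T γ m := by
  intro x hx
  have hx1 : T.act β (T.act α x) = x := by rw [← T.act_comp, h1, T.act_diag]
  have hfin : ∀ y : T.M Y, T.act α' y = 0 → y = 0 := by
    intro y hy
    rw [← T.act_diag Y y, ← h1', T.act_comp, hy, map_zero]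
  by_cases hr : b + c < X.dim
  · rw [← hx1, ← T.act_comp, C.comp_eq_zero_of_codim hβ hγ hr, T.act_zero]
  obtain ⟨r, hr⟩ : ∃ r, b + c = r + X.dim := ⟨b + c - X.dim, by omega⟩
  have hβγ : C.comp β γ ∈ C.gr (Z.prod Y) r := C.comp_mem hβ hγ hr
  apply hfin
  by_cases ht : r + a' < Y.dim
  · have h2 : T.act (C.comp (C.comp β γ) α') (T.act α x) = 0 := by
      rw [C.comp_eq_zero_of_codim hβγ hα' ht, T.act_zero]
    rwa [T.act_comp, T.act_comp, hx1] at h2
  obtain ⟨t, ht⟩ : ∃ t, r + a' = t + Y.dim := ⟨r + a' - Y.dim, by omega⟩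
  have hδ : C.comp (C.comp β γ) α' ∈ C.gr (Z.prod Z') t := C.comp_mem hβγ hα' ht
  have hx' : T.act α x ∈ T.gr Z (m + a - X.dim) := T.act_mem' hα hx (by ring)
  have h2 : T.act (C.comp (C.comp β γ) α') (T.act α x) = 0 := by
    refine onlyH_product_on hP ho hR hD hPol ho' hM' hZ hZ' hδ (fun l' hl' z hz => ?_) hmX ?_ _ hx'
    · rw [W.act_comp _ hα', W.act_comp _ hγ]
      by_cases hz' : l' + 2 * b < 2 * Z.dim
      · rw [W.act_eq_zero hβ hz (by omega), map_zero, map_zero]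
      · obtain ⟨l, hl⟩ : ∃ l, l' + 2 * b = l + 2 * Z.dim := ⟨l' + 2 * b - 2 * Z.dim, by omega⟩
        rw [h0 l (by omega) _ (W.act_mem hβ hz hl), map_zero]
    · have e : m + a - X.dim + t - Z.dim = m + c - X.dim + a' - Y.dim := by omega
      rw [e]; exact hmY
  rwa [T.act_comp, T.act_comp, hx1] at h2

end Region

/-- **Dominated varieties, weights `n ≤ n₀`.** -/
theorem onlyH_le (hP : ∀ s, ∃ P, Pool.Agent.R898.G.IsProj C s P) (ho : IsOrder W o) {n₀ : ℤ}
    (hD : DimOn W T j o (fun _ n => n ≤ n₀)) (hPol : C.Polarized)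
    {o' : ∀ X : 𝒱.Obj, C.CH (X.prod X) → ℕ → ℤ} (ho' : P.IsOrder W o')
    (hM' : P.Middle W o' (IsProduct W)) (hdom : ∀ X, ∃ Z, IsProduct W Z ∧ Dominates C Z X)
    {c : ℕ} {γ : C.CH (X.prod Y)} {m : ℤ} (hγ : γ ∈ C.gr (X.prod Y) c)
    (h0 : ∀ l : ℕ, 2 * m = l + j + 1 → ∀ z ∈ W.gr X l, W.act γ z = 0) (hm : m ≤ n₀)
    (hm' : m + c - X.dim ≤ n₀) : Kills T γ m := by
  obtain ⟨Z, hZ, hZX⟩ := hdom X
  obtain ⟨Z', hZ', hZY⟩ := hdom Y
  obtain ⟨α, β, hα, hβ, h1⟩ := summand_of_dominates hZX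
  obtain ⟨α', β', hα', hβ', h1'⟩ := summand_of_dominates hZY
  exact onlyH_summand_on hP ho (fun _ _ t n h _ => by omega) hD hPol ho' hM' hZ hZ' hα hβ rfl h1
    hα' h1' hγ h0 (by omega) (by omega)

/-- **Dominated varieties, weights `n ≥ dim + 1`.** -/
theorem onlyH_ge (hP : ∀ s, ∃ P, Pool.Agent.R898.G.IsProj C s P) (ho : IsOrder W o)
    (hD : DimOn W T j o (fun d n => (d : ℤ) + 1 ≤ n)) (hPol : C.Polarized)
    {o' : ∀ X : 𝒱.Obj, C.CH (X.prod X) → ℕ → ℤ} (ho' : P.IsOrder W o')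
    (hM' : P.Middle W o' (IsProduct W)) (hdom : ∀ X, ∃ Z, IsProduct W Z ∧ Dominates C Z X)
    {c : ℕ} {γ : C.CH (X.prod Y)} {m : ℤ} (hγ : γ ∈ C.gr (X.prod Y) c)
    (h0 : ∀ l : ℕ, 2 * m = l + j + 1 → ∀ z ∈ W.gr X l, W.act γ z = 0)
    (hm : (X.dim : ℤ) + 1 ≤ m) (hm' : (Y.dim : ℤ) + 1 ≤ m + c - X.dim) : Kills T γ m := by
  obtain ⟨Z, hZ, hZX⟩ := hdom X
  obtain ⟨Z', hZ', hZY⟩ := hdom Y
  obtain ⟨α, β, hα, hβ, h1⟩ := summand_of_dominates hZX
  obtain ⟨α', β', hα', hβ', h1'⟩ := summand_of_dominates hZY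
  have h2 : C.comp (C.transp β) (C.transp α) = C.diagC X := by
    rw [C.comp_transp, h1, C.transp_diagC]
  have h2' : C.comp (C.transp β') (C.transp α') = C.diagC Y := by
    rw [C.comp_transp, h1', C.transp_diagC]
  exact onlyH_summand_on hP ho (fun d d' t n h h' => by omega) hD hPol ho' hM' hZ hZ'
    (C.transp_mem hβ) (C.transp_mem hα) (by omega) h2
    (C.transp_mem hβ') h2' hγ h0 (by omega) (by omega)

/-- **Volumes.** -/
theorem volume_le {B : Type} [AddCommGroup B] {e : ∀ X : 𝒱.Obj, C.CH (X.prod X) → ℤ → B}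
    (hP : ∀ s, ∃ P, Pool.Agent.R898.G.IsProj C s P) (he : IsVolume W j e)
    (hM : ∀ X : 𝒱.Obj, IsProduct W X → X.dim + 1 = j → e X (C.diagC X) j = 0)
    (hX : IsProduct W X) {n : ℤ} (hn : n ≤ j) : e X (C.diagC X) n = 0 := by
  classical
  have hf : InvB C (fun _ _ _ => True) (IsProduct W) e :=
    ⟨fun X p q m _ hp hq hpq hqp => he.add X p q m hp.isMotive hq.isMotive hpq hqp,
      fun s X Y p q m _ _ _ hp hq h => by
        obtain ⟨f, g, hfg⟩ := MotIso.of_twistIso h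
        exact he.iso s X Y p q f g m hp.isMotive hq.isMotive hfg⟩
  have hS := closed_isProduct (W := W)
  have hAT : Stable (𝒱 := 𝒱) (fun _ _ _ => True) := ⟨fun _ _ _ _ h => h, fun _ _ _ _ h => h⟩
  obtain ⟨U, hU⟩ := hP 0
  have hU' := isUnit_of_isProj hU
  have hzero : ∀ {X : 𝒱.Obj} {p : C.CH (X.prod X)}, NWord W X p → ∀ m : ℤ,
      2 * m ≠ X.dim + j + 1 → e X p m = 0 := fun h m hm => he.zero _ _ m h.mot.isMotive
    fun l hl a ha => h.inDeg.zero h.mot.mem (fun h' => hm (by rw [← h']; linarith)) ha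
  -- middle parts
  have hN : ∀ {X : 𝒱.Obj} {p : C.CH (X.prod X)}, NWord W X p → ∀ m : ℤ, m ≤ j → e X p m = 0 := by
    intro X p h m hm
    by_cases hmm : 2 * m = X.dim + j + 1
    swap
    · exact hzero h m hmm
    obtain ⟨t, ht⟩ := Int.eq_ofNat_of_zero_le (show 0 ≤ j - m by omega)
    obtain ⟨P, hP'⟩ := hP (2 * t)
    have hPp : IsProduct W P := isProduct_of_isProj hP'
    have hf1 := hf.right hAT hS hPp (mot_diagC P)
    let A : ℕ → 𝒱.Obj → 𝒱.Obj → Prop := fun s X Y => s = 0 ∧ X.dim = Y.dim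
    have hA : Stable A := ⟨fun s X Y Z h => ⟨h.1, by rw [dim_prod, dim_prod, h.2]⟩,
      fun s X Y Z h => ⟨h.1, by rw [dim_prod, dim_prod, h.2]⟩⟩
    have hf2 : InvB C A (IsProduct W) (fun (Y : 𝒱.Obj) (q : C.CH (Y.prod Y)) (_ : ℤ) =>
        if Y.dim = X.dim then e (Y.prod P) (C.tensor q (C.diagC P)) j else 0) :=
      { add := fun Y p q m hY hp hq hpq hqp => by
          split_ifs with h
          · exact hf1.add Y p q _ hY hp hq hpq hqp
          · rw [add_zero]
        iso := fun s Y Y' p q m hY hY' hs hp hq h => by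
          obtain ⟨rfl, hd⟩ := hs
          rw [← hd]
          split_ifs with h'
          · have h1 := hf1.iso 0 Y Y' p q j hY hY' trivial hp hq h
            rwa [Nat.cast_zero, add_zero] at h1
          · rfl }
    have h1 := invB_nword h hA (fun X Y h => ⟨rfl, h⟩) hP hf2 (fun Y hY m => by
      split_ifs with h
      · rw [C.tensor_diagC]
        exact hM (Y.prod P) (.prod hY hPp) (by rw [dim_prod, hP'.1]; omega)
      · rfl) 0
    rw [if_pos rfl] at h1
    obtain ⟨hs, E, hE, hΔ⟩ := datum_of_isProj hP'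
    have hor := orth_cell W hE
    have h2 : C.tensor p (C.diagC P) = ∑ i ∈ Finset.range (2 * t + 1), C.tensor p (cell C E i) := by
      rw [← C.tensor_sum, ← hΔ, tate, hs]
    rw [h2, hf.sum (.prod h.isProduct hPp)] at h1
    · have h3 : ∀ i ∈ Finset.range (2 * t + 1), e (X.prod P) (C.tensor p (cell C E i)) j =
          e X p (j - i) := by
        intro i hi
        rw [Finset.mem_range] at hi
        have h4 := hf.iso i (X.prod U) (X.prod P) (C.tensor p (C.diagC U))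
          (C.tensor p (cell C E i)) (j - i) (.prod h.isProduct (isProduct_of_isProj hU))
          (.prod h.isProduct hPp) trivial (h.mot.tensor (mot_diagC U))
          (h.mot.tensor (hor.mot i (Finset.mem_range.2 (by omega))))
          ((twistIso_cell W hU' hE (show i ≤ P.dim by omega)).left h.mot)
        rw [sub_add_cancel] at h4
        rw [h4]
        have h6 := hf.iso 0 (X.prod U) X _ p (j - i) (.prod h.isProduct (isProduct_of_isProj hU))
          h.isProduct trivial (h.mot.tensor (mot_diagC U)) h.mot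
          (twistIso_tensor_unit hU' h.mot)
        rw [Nat.cast_zero, add_zero] at h6
        exact h6.symm
      rw [Finset.sum_congr rfl h3, Finset.sum_eq_single t] at h1
      · have e1 : (j : ℤ) - t = m := by omega
        rwa [e1] at h1
      · intro i hi hit
        exact hzero h _ (by omega)
      · intro h'
        exact absurd (Finset.mem_range.2 (by omega)) h'
    · refine ⟨fun i hi => h.mot.tensor (hor.mot _ ?_), fun i hi i' hi' hii => ?_⟩
      · rw [Finset.mem_range] at hi ⊢; omega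
      · rw [C.comp_tensor, hor.orth i (by rw [Finset.mem_range] at hi ⊢; omega) i'
          (by rw [Finset.mem_range] at hi' ⊢; omega) hii, C.tensor_zero]
  obtain ⟨ι, _, _, p, l, hp, hor, hsum⟩ := exists_words (W := W) hX
  rw [← hsum, hf.sum hX Finset.univ p n hor]
  refine Finset.sum_eq_zero fun i _ => ?_
  obtain ⟨X', p', t, h1, h2, h3, h4⟩ := exists_nword hP (hp i)
  have h5 := hf.iso t X' X p' (p i) (n - t) h1.isProduct hX trivial h1.mot (hp i).mot h2
  rw [sub_add_cancel] at h5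
  rw [h5]
  exact hN h1 _ (by omega)

end Pool.Agent.R898.K
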