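import Pool.Agent.R898.KBS
import Pool.Agent.R898.KAM
import Pool.Agent.R898.KR2

/-!
# The groups `K_j^(j)` of products: proofs
-/

open CategoryTheory CategoryTheory.Limits AlgebraicGeometry
open Pool.Agent.H914 Pool.Agent.H914.VarClass Pool.Agent.H914.VarClass.Obj
open Pool.Agent.R903

universe u v w

namespace Pool.Agent.R898.KA

variable {k : Type u} [Field k] {𝒱 : VarClass k} {C : ChowTheory.{u, v} 𝒱}
  {W : WeilTheory.{u, v, w} C} {X Y Z : 𝒱.Obj} {j : ℕ}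
  {T : MotCoh C} {o : ∀ X : 𝒱.Obj, C.CH (X.prod X) → ℕ → ℤ}

lemma isProj_toG (hP : ∀ s, ∃ P, IsProj C s P) : ∀ s, ∃ P, G.IsProj C s P :=
  fun s => (hP s).imp fun _ h => isProj_iff.1 h

/-- conclusions in a region -/
lemma dims_of_dimOn {R : ℕ → ℤ → Prop} (hD : K.DimOn W T.toK j o R) (hX : IsProduct W X) {n : ℤ}
    (hn : R X.dim n) : (∀ l : ℕ, 2 * n = l + j + 1 → DimIs (T.gr X n) (o X (C.diagC X) l)) ∧
      (2 * n < j + 1 → DimIs (T.gr X n) 0) := by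
  obtain ⟨h1, h2⟩ := hD X n (isProduct_iff.1 hX) hn
  refine ⟨fun l hl => K.hasDim_of_dl (T := T.toK) hl h1 h2, fun hn => ⟨h1, ?_⟩⟩
  rw [K.dl, K.rk, K.od, if_neg (by omega), sub_zero, K.map_diagC] at h2
  exact h2

lemma dimOn_line (h : LineDim W T j o) (hj : 1 ≤ j) :
    K.DimOn W T.toK j o (fun _ n => n = j) := by
  rintro X n hX rfl
  obtain ⟨l, rfl⟩ : ∃ l, j = l + 1 := ⟨j - 1, by omega⟩
  have h1 := h X l (isProduct_iff.2 hX) rfl
  exact ⟨h1.1, K.dl_of_hasDim (T := T.toK) (l := l) (by push_cast; ring) h1⟩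

lemma volume_toK {B : Type} [AddCommGroup B] {e : ∀ X : 𝒱.Obj, C.CH (X.prod X) → ℤ → B}
    (he : IsVolume W j e) : K.IsVolume W j e :=
  ⟨fun s X Y p q f g n hp hq h => he.iso s X Y p q f g n hp hq ⟨h.memf, h.memg, h.left, h.right⟩,
    he.add, he.zero⟩

section Main

variable (hP : ∀ s, ∃ P, IsProj C s P) (ho : IsOrder W o) (hj : 1 ≤ j) (hM : LineDim W T j o)

include hP ho hj hM

lemma dimOn_low : K.DimOn W T.toK j o (fun _ n => n ≤ j) :=
  K.dimOn_le (isProj_toG hP) ho.toK (dimOn_line hM hj)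

theorem lowDim : LowDim W T j o := fun X n hX hn =>
  dims_of_dimOn (dimOn_low hP ho hj hM) hX hn

theorem lowConcentrated (hX : IsProduct W X) : LowConcentrated W T j X := by
  obtain ⟨π, h1, h2, h3, h4, h5⟩ := K.concentrated_on (isProj_toG hP) ho.toK
    (fun _ _ t n h _ => by omega) (dimOn_low hP ho hj hM) (isProduct_iff.1 hX)
  refine ⟨π, fun l l' => ?_, h3, fun l => ⟨(h1 l).1, h4 l, fun n hn hn' => h5 l n hn hn'⟩⟩
  split_ifs with h'
  · subst h'; exact (h1 l).2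
  · exact h2 l l' h'

theorem lowOnlyH (hPol : C.Polarized) (hdom : ∀ X, ∃ Z, IsProduct W Z ∧ Dominates C Z X)
    {o' : ∀ X : 𝒱.Obj, C.CH (X.prod X) → ℕ → ℤ} (ho' : IsOrder W o')
    (hM' : BBMiddle W o') : LowOnlyH W T j := by
  intro X Y c n γ hn hn' hγ h0
  exact K.onlyH_le (T := T.toK) (isProj_toG hP) ho.toK (dimOn_low hP ho hj hM) hPol ho'.toP
    (fun X i hX hd => hM' X i (isProduct_iff.2 hX) hd)
    (fun X => (hdom X).imp fun Z h => ⟨isProduct_iff.1 h.1, h.2⟩) hγ h0 hn (by omega)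

end Main

theorem lowVolume {B : Type} [AddCommGroup B] {e : ∀ X : 𝒱.Obj, C.CH (X.prod X) → ℤ → B}
    (hP : ∀ s, ∃ P, IsProj C s P) (he : IsVolume W j e)
    (hM : ∀ X : 𝒱.Obj, IsProduct W X → X.dim + 1 = j → e X (C.diagC X) j = 0)
    (hX : IsProduct W X) {n : ℤ} (hn : n ≤ j) : e X (C.diagC X) n = 0 :=
  K.volume_le (isProj_toG hP) (volume_toK he) (fun X hX hd => hM X (isProduct_iff.2 hX) hd)
    (isProduct_iff.1 hX) hn

end Pool.Agent.R898.KA
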