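import Pool.Agent.R898.KAS

/-!
# The groups `K_j^(j)` of products of curves, regular surfaces, complete intersections: the
# definitions used in the statement
-/

open CategoryTheory CategoryTheory.Limits AlgebraicGeometry
open Pool.Agent.H914 Pool.Agent.H914.VarClass Pool.Agent.H914.VarClass.Obj
open Pool.Agent.R903

universe u v w

namespace Pool.Agent.R898.KA

variable {k : Type u} [Field k] {𝒱 : VarClass k} {C : ChowTheory.{u, v} 𝒱}
  (W : WeilTheory.{u, v, w} C)

/-- The dimension formula for `gr X j = K_j(X)_ℤ^(j)`, `l = j - 1`, for the products of elementary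
varieties. -/
def LineDim (T : MotCoh C) (j : ℕ) (o : ∀ X : 𝒱.Obj, C.CH (X.prod X) → ℕ → ℤ) : Prop :=
  ∀ (X : 𝒱.Obj) (l : ℕ), IsProduct W X → l + 1 = j → DimIs (T.gr X j) (o X (C.diagC X) l)

/-- The dimension formula for `gr X n = K_j(X)_ℤ^(n)` for all `n ≤ j`, for the products of
elementary varieties: the dimension is `o X l` if `2n = l + j + 1`, `l ≥ 0`, and zero if
`2n < j + 1`. -/
def LowDim (T : MotCoh C) (j : ℕ) (o : ∀ X : 𝒱.Obj, C.CH (X.prod X) → ℕ → ℤ) : Prop :=
  ∀ (X : 𝒱.Obj) (n : ℤ), IsProduct W X → n ≤ j →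
    (∀ l : ℕ, 2 * n = l + j + 1 → DimIs (T.gr X n) (o X (C.diagC X) l)) ∧
      (2 * n < j + 1 → DimIs (T.gr X n) 0)

/-- There are Chow–Künneth projectors `π l` of `X` (orthogonal idempotents with sum the diagonal,
such that the image of `π l` is in `H^l(X)`), such that only `π l`, `2n = l + j + 1`, acts
nontrivially on `gr X n`, for all `n ≤ j`. -/
def LowConcentrated (T : MotCoh C) (j : ℕ) (X : 𝒱.Obj) : Prop :=
  ∃ π : ℕ → C.CH (X.prod X), OrthIdem (cp C) π ∧ SumsTo π X.dim (C.diagC X) ∧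
    ∀ l, Codim C X.dim (π l) ∧ Into (W.act (π l)) (W.gr X l) ∧
      ∀ n : ℤ, n ≤ j → 2 * n ≠ l + j + 1 → Kills T (π l) n

/-- `gr X n`, `n ≤ j`, depends only on `H^l(X)`, `2n = l + j + 1`, for all the varieties in the
class. -/
def LowOnlyH (T : MotCoh C) (j : ℕ) : Prop :=
  ∀ (X Y : 𝒱.Obj) (c : ℕ) (n : ℤ) (γ : C.CH (X.prod Y)), n ≤ j → n + c ≤ j + X.dim →
    Codim C c γ → (∀ l : ℕ, 2 * n = l + j + 1 → ZeroOn (W.act γ) (W.gr X l)) → Kills T γ n

/-- An isomorphism of the motive `(X, p)`, twisted `s` times, with the motive `(Y, q)`. -/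
structure MotIso (C : ChowTheory.{u, v} 𝒱) (s : ℕ) (X Y : 𝒱.Obj) (p : C.CH (X.prod X))
    (q : C.CH (Y.prod Y)) (f : C.CH (X.prod Y)) (g : C.CH (Y.prod X)) : Prop where
  memf : Codim C (X.dim + s) f
  memg : ∃ c, c + s = Y.dim ∧ Codim C c g
  left : cp C f g = p
  right : cp C g f = q

/-- `e X p n` has the formal properties of the quotient in `ℝ^* / ℚ^*`, written additively, of the
leading coefficient of `L(H^l(X, p), s)` at `s = l + 1 - n` and the volume of the regulator on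
`gr (X, p) n`, `2n = l + j + 1`: it is additive, invariant under isomorphisms and Tate twists, and
zero if `H^l(X, p) = 0` or `l < 0`. -/
structure IsVolume {B : Type} [AddCommGroup B] (j : ℕ)
    (e : ∀ X : 𝒱.Obj, C.CH (X.prod X) → ℤ → B) : Prop where
  iso : ∀ (s : ℕ) (X Y : 𝒱.Obj) (p : C.CH (X.prod X)) (q : C.CH (Y.prod Y)) (f : C.CH (X.prod Y))
    (g : C.CH (Y.prod X)) (n : ℤ), IsMotive C X p → IsMotive C Y q → MotIso C s X Y p q f g →
      e Y q (n + s) = e X p n
  add : ∀ (X : 𝒱.Obj) (p q : C.CH (X.prod X)) (n : ℤ), IsMotive C X p → IsMotive C X q →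
    cp C p q = 0 → cp C q p = 0 → e X (p + q) n = e X p n + e X q n
  zero : ∀ (X : 𝒱.Obj) (p : C.CH (X.prod X)) (n : ℤ), IsMotive C X p →
    (∀ l : ℕ, 2 * n = l + j + 1 → ZeroOn (W.act p) (W.gr X l)) → e X p n = 0

end Pool.Agent.R898.KA
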