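import Pool.Agent.R898.KCS
import Pool.Agent.R898.KBM

/-!
# Weights larger than the dimension: proofs
-/

open CategoryTheory CategoryTheory.Limits AlgebraicGeometry
open Pool.Agent.H914 Pool.Agent.H914.VarClass Pool.Agent.H914.VarClass.Obj
open Pool.Agent.R903

universe u v w

namespace Pool.Agent.R898.KA

variable {k : Type u} [Field k] {𝒱 : VarClass k} {C : ChowTheory.{u, v} 𝒱}
  {W : WeilTheory.{u, v, w} C} {X Y Z : 𝒱.Obj} {j : ℕ}
  {T : MotCoh C} {o : ∀ X : 𝒱.Obj, C.CH (X.prod X) → ℕ → ℤ}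

lemma dimOn_of_dimFor {R : ℕ → ℤ → Prop} (h : DimFor W T j o R) : K.DimOn W T.toK j o R := by
  intro X n hX hn
  obtain ⟨h1, h2⟩ := h X n (isProduct_iff.2 hX) hn
  by_cases hl : 2 * n < j + 1
  · obtain ⟨h3, h4⟩ := h2 hl
    refine ⟨h3, ?_⟩
    rw [K.dl, K.rk, K.od, if_neg (by omega), sub_zero, K.map_diagC]
    exact h4
  · obtain ⟨l, hl⟩ := Int.eq_ofNat_of_zero_le (show 0 ≤ 2 * n - j - 1 by omega)
    have h3 := h1 l (by omega)
    exact ⟨h3.1, K.dl_of_hasDim (T := T.toK) (l := l) (by omega) h3⟩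

section Main

variable (hP : ∀ s, ∃ P, IsProj C s P) (ho : IsOrder W o) (hM : DimFor W T j o TopWeight)

include hP ho hM

lemma dimOn_high : K.DimOn W T.toK j o HighWeight :=
  K.dimOn_ge (isProj_toG hP) ho.toK (dimOn_of_dimFor hM)

theorem highDim : DimFor W T j o HighWeight := fun X n hX hn =>
  dims_of_dimOn (dimOn_high hP ho hM) hX hn

theorem highConcentrated (hX : IsProduct W X) : HighConcentrated W T j X := by
  obtain ⟨π, h1, h2, h3, h4, h5⟩ := K.concentrated_on (isProj_toG hP) ho.toK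
    (fun d d' t n h h' => by unfold HighWeight at h ⊢; omega) (dimOn_high hP ho hM)
    (isProduct_iff.1 hX)
  refine ⟨π, fun l l' => ?_, h3, fun l => ⟨(h1 l).1, h4 l, fun n hn hn' => h5 l n hn hn'⟩⟩
  split_ifs with h'
  · subst h'; exact (h1 l).2
  · exact h2 l l' h'

theorem highOnlyH (hPol : C.Polarized) (hdom : ∀ X, ∃ Z, IsProduct W Z ∧ Dominates C Z X)
    {o' : ∀ X : 𝒱.Obj, C.CH (X.prod X) → ℕ → ℤ} (ho' : IsOrder W o')
    (hM' : BBMiddle W o') : HighOnlyH W T j := by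
  intro X Y c n γ hn hn' hγ h0
  exact K.onlyH_ge (T := T.toK) (isProj_toG hP) ho.toK (dimOn_high hP ho hM) hPol ho'.toP
    (fun X i hX hd => hM' X i (isProduct_iff.2 hX) hd)
    (fun X => (hdom X).imp fun Z h => ⟨isProduct_iff.1 h.1, h.2⟩) hγ h0 hn hn'

end Main

end Pool.Agent.R898.KA
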