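import Pool.Agent.R898.KAS

/-!
# Motivic cohomology in weights larger than the dimension, for products of curves, regular surfaces,
# complete intersections: the definitions used in the statement
-/

open CategoryTheory CategoryTheory.Limits AlgebraicGeometry
open Pool.Agent.H914 Pool.Agent.H914.VarClass Pool.Agent.H914.VarClass.Obj
open Pool.Agent.R903

universe u v w

namespace Pool.Agent.R898.KA

variable {k : Type u} [Field k] {𝒱 : VarClass k} {C : ChowTheory.{u, v} 𝒱}
  (W : WeilTheory.{u, v, w} C)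

/-- The dimension formula for `gr X n`, for the products `X` of elementary varieties and the weights
`n` with `R (dim X) n`: the dimension is `o X l` if `2n = l + j + 1`, `l ≥ 0`, and zero if
`2n < j + 1`. -/
def DimFor (T : MotCoh C) (j : ℕ) (o : ∀ X : 𝒱.Obj, C.CH (X.prod X) → ℕ → ℤ)
    (R : ℕ → ℤ → Prop) : Prop :=
  ∀ (X : 𝒱.Obj) (n : ℤ), IsProduct W X → R X.dim n →
    (∀ l : ℕ, 2 * n = l + j + 1 → DimIs (T.gr X n) (o X (C.diagC X) l)) ∧
      (2 * n < j + 1 → DimIs (T.gr X n) 0)

/-- The weight is the dimension of `X` plus one, the dimension of the arithmetic scheme. -/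
def TopWeight (d : ℕ) (n : ℤ) : Prop := n = d + 1

/-- The weight is at least the dimension of `X` plus one. -/
def HighWeight (d : ℕ) (n : ℤ) : Prop := (d : ℤ) + 1 ≤ n

/-- There are Chow–Künneth projectors `π l` of `X` (orthogonal idempotents with sum the diagonal,
such that the image of `π l` is in `H^l(X)`), such that only `π l`, `2n = l + j + 1`, acts
nontrivially on `gr X n`, for all `n ≥ dim X + 1`. -/
def HighConcentrated (T : MotCoh C) (j : ℕ) (X : 𝒱.Obj) : Prop :=
  ∃ π : ℕ → C.CH (X.prod X), OrthIdem (cp C) π ∧ SumsTo π X.dim (C.diagC X) ∧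
    ∀ l, Codim C X.dim (π l) ∧ Into (W.act (π l)) (W.gr X l) ∧
      ∀ n : ℤ, HighWeight X.dim n → 2 * n ≠ l + j + 1 → Kills T (π l) n

/-- `gr X n`, `n ≥ dim X + 1`, depends only on `H^l(X)`, `2n = l + j + 1`, for all the varieties in
the class. -/
def HighOnlyH (T : MotCoh C) (j : ℕ) : Prop :=
  ∀ (X Y : 𝒱.Obj) (c : ℕ) (n : ℤ) (γ : C.CH (X.prod Y)), HighWeight X.dim n →
    HighWeight Y.dim (n + c - X.dim) → Codim C c γ →
    (∀ l : ℕ, 2 * n = l + j + 1 → ZeroOn (W.act γ) (W.gr X l)) → Kills T γ n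

end Pool.Agent.R898.KA
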