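import Pool.Agent.R903.Corr

/-!
# Products of curves, regular surfaces and complete intersections: the basic definitions used in
# the statements
-/

open CategoryTheory CategoryTheory.Limits AlgebraicGeometry
open Pool.Agent.H914 Pool.Agent.H914.VarClass Pool.Agent.H914.VarClass.Obj
open Pool.Agent.R903

universe u v w

namespace Pool.Agent.R898.KA

section Alg

variable {A : Type v} [CommRing A] [Algebra ℚ A] {B : Type v} [CommRing B] [Algebra ℚ B]
  {D : Type v} [CommRing D] [Algebra ℚ D] {E : Type v} [CommRing E] [Algebra ℚ E]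
  {K : Type w} [Field K] {H : Type w} [Ring H] [Algebra K H] {H' : Type w} [Ring H']
  [Algebra K H']

/-- The element `s(p(a) q(b))`. -/
def mulPush (p : A →ₐ[ℚ] D) (q : B →ₐ[ℚ] D) (s : D →ₗ[ℚ] E) (a : A) (b : B) : E :=
  s (p a * q b)

/-- `T` vanishes on `U`. -/
def ZeroOn (T : H →ₗ[K] H') (U : Submodule K H) : Prop := ∀ b ∈ U, T b = 0

/-- `d (x ^ n) ≠ 0`. -/
def PowNe (d : A →ₗ[ℚ] ℚ) (n : ℕ) (x : A) : Prop := d (x ^ n) ≠ 0

/-- The elements of `gr j`, `j ≠ n`, are multiples of powers of `c`. -/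
def PowersOutside (gr : ℕ → Submodule K H) (n : ℕ) (c : H) : Prop :=
  ∀ j, j ≠ n → ∀ a ∈ gr j, ∃ (r : K) (i : ℕ), a = r • c ^ i

/-- `h` is in `U`, the degree of `h ^ s` is one, and `δ` is the sum of the products
`p (h ^ i) q (h ^ (s - i))`, `i = 0, …, s`. -/
structure CellDiag (U : Submodule ℚ A) (deg : A →ₗ[ℚ] ℚ) (p q : A →ₐ[ℚ] D) (δ : D) (s : ℕ) (h : A) :
    Prop where
  mem : h ∈ U
  deg_pow : deg (h ^ s) = 1
  diag : δ = ∑ i ∈ Finset.range (s + 1), p (h ^ i) * q (h ^ (s - i))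

end Alg

variable {k : Type u} [Field k] {𝒱 : VarClass k}

/-- `x` is in `CH^i(X)`. -/
def Codim (C : ChowTheory.{u, v} 𝒱) {X : 𝒱.Obj} (i : ℕ) (x : C.CH X) : Prop := x ∈ C.gr X i

/-- The composition of correspondences, first `α`, then `β`: `p13_*(p12^* α · p23^* β)`. -/
noncomputable def cp (C : ChowTheory.{u, v} 𝒱) {X Y Z : 𝒱.Obj} (α : C.CH (X.prod Y))
    (β : C.CH (Y.prod Z)) : C.CH (X.prod Z) :=
  mulPush (C.pull (p12 X Y Z)) (C.pull (snd X (Y.prod Z))) (C.push (p13 X Y Z)) α β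

/-- `(X, p)` is a Chow motive: `p ∈ CH^(dim X)(X × X)` and `p ∘ p = p`. -/
def IsMotive (C : ChowTheory.{u, v} 𝒱) (X : 𝒱.Obj) (p : C.CH (X.prod X)) : Prop :=
  Codim C X.dim p ∧ cp C p p = p

/-- `P` has dimension `s`, and for a class `h ∈ CH^1(P)` with `deg(h^s) = 1` the diagonal of `P` is
the sum of the classes `h^i × h^(s-i)`, as for the projective space of dimension `s`. -/
def IsProj (C : ChowTheory.{u, v} 𝒱) (s : ℕ) (P : 𝒱.Obj) : Prop :=
  P.dim = s ∧ ∃ h : C.CH P, CellDiag (C.gr P 1) (C.deg P) (C.pull (fst P P)) (C.pull (snd P P))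
    (C.diagC P) s h

/-- Outside of the middle degree `X` has the cohomology of the projective space: for a divisor class
`D` with `deg (D ^ dim X) ≠ 0` the spaces `H^j(X)`, `j ≠ dim X`, consist of the multiples of the
powers of the class of `D`. Examples: all curves, all regular surfaces, all complete intersections of
positive dimension in projective spaces. -/
def Elementary {C : ChowTheory.{u, v} 𝒱} (W : WeilTheory.{u, v, w} C) (X : 𝒱.Obj) : Prop :=
  ∃ D : C.CH X, Codim C 1 D ∧ PowNe (C.deg X) X.dim D ∧ PowersOutside (W.gr X) X.dim (W.cl X D)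

/-- The products of elementary varieties. -/
inductive IsProduct {C : ChowTheory.{u, v} 𝒱} (W : WeilTheory.{u, v, w} C) : 𝒱.Obj → Prop
  | elementary {X : 𝒱.Obj} (h : Elementary W X) : IsProduct W X
  | prod {X Y : 𝒱.Obj} (hX : IsProduct W X) (hY : IsProduct W Y) : IsProduct W (X.prod Y)

end Pool.Agent.R898.KA
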