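import Pool.Agent.R898.PRank

/-!
# Additive invariants of motives with values in an abelian group
-/

open CategoryTheory CategoryTheory.Limits AlgebraicGeometry
open Pool.Agent.H914 Pool.Agent.H914.VarClass Pool.Agent.H914.VarClass.Obj
open Pool.Agent.R903 Pool.Agent.R898.P

universe u v w

namespace Pool.Agent.R898.K

variable {k : Type u} [Field k] {𝒱 : VarClass k} {C : ChowTheory.{u, v} 𝒱}
  {W : WeilTheory.{u, v, w} C} {X Y Z G P : 𝒱.Obj} {B : Type} [AddCommGroup B]

/-- additive invariants, for the varieties in `S` and the isomorphisms allowed by `A` -/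
structure InvB (C : ChowTheory.{u, v} 𝒱) (A : ℕ → 𝒱.Obj → 𝒱.Obj → Prop) (S : 𝒱.Obj → Prop)
    (f : ∀ X : 𝒱.Obj, C.CH (X.prod X) → ℤ → B) : Prop where
  add : ∀ (X : 𝒱.Obj) (p q : C.CH (X.prod X)) (m : ℤ), S X → Mot C X p → Mot C X q →
    C.comp p q = 0 → C.comp q p = 0 → f X (p + q) m = f X p m + f X q m
  iso : ∀ (s : ℕ) (X Y : 𝒱.Obj) (p : C.CH (X.prod X)) (q : C.CH (Y.prod Y)) (m : ℤ), S X → S Y →
    A s X Y → Mot C X p → Mot C Y q → TwistIso C s X Y p q → f Y q (m + s) = f X p m

variable {A : ℕ → 𝒱.Obj → 𝒱.Obj → Prop} {S : 𝒱.Obj → Prop}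
  {f : ∀ X : 𝒱.Obj, C.CH (X.prod X) → ℤ → B}

lemma InvB.right (hf : InvB C A S f) (hA : Stable A) (hS : Closed S) (hY : S Y)
    {q : C.CH (Y.prod Y)} (hq : Mot C Y q) :
    InvB C A S (fun X p m => f (X.prod Y) (C.tensor p q) m) where
  add X p p' m hX hp hp' h h' := by
    change f (X.prod Y) (C.tensor (p + p') q) m = _
    rw [add_tensor]
    exact hf.add _ _ _ m (hS X Y hX hY) (hp.tensor hq) (hp'.tensor hq)
      (by rw [C.comp_tensor, h, C.zero_tensor]) (by rw [C.comp_tensor, h', C.zero_tensor])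
  iso s X X' p p' m hX hX' hs hp hp' h :=
    hf.iso s _ _ _ _ m (hS X Y hX hY) (hS X' Y hX' hY) (hA.right _ _ _ _ hs) (hp.tensor hq)
      (hp'.tensor hq) (h.right hq)

lemma InvB.left (hf : InvB C A S f) (hA : Stable A) (hS : Closed S) (hY : S Y)
    {q : C.CH (Y.prod Y)} (hq : Mot C Y q) :
    InvB C A S (fun X p m => f (Y.prod X) (C.tensor q p) m) where
  add X p p' m hX hp hp' h h' := by
    change f (Y.prod X) (C.tensor q (p + p')) m = _
    rw [C.tensor_add]
    exact hf.add _ _ _ m (hS Y X hY hX) (hq.tensor hp) (hq.tensor hp')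
      (by rw [C.comp_tensor, h, C.tensor_zero]) (by rw [C.comp_tensor, h', C.tensor_zero])
  iso s X X' p p' m hX hX' hs hp hp' h :=
    hf.iso s _ _ _ _ m (hS Y X hY hX) (hS Y X' hY hX') (hA.left _ _ _ _ hs) (hq.tensor hp)
      (hq.tensor hp') (h.left hq)

lemma InvB.zero (hf : InvB C A S f) (hX : S X) (m : ℤ) : f X 0 m = 0 := by
  have h := hf.add X 0 0 m hX (mot_zero X) (mot_zero X) (C.comp_zero _) (C.comp_zero _)
  rw [add_zero] at h
  exact left_eq_add.mp h

lemma InvB.sum (hf : InvB C A S f) (hX : S X) {ι : Type*} [DecidableEq ι] (s : Finset ι)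
    (p : ι → C.CH (X.prod X)) (m : ℤ) (h : Pool.Agent.R898.P.Orth C X s p) :
    f X (∑ i ∈ s, p i) m = ∑ i ∈ s, f X (p i) m := by
  induction s using Finset.induction_on with
  | empty => rw [Finset.sum_empty, Finset.sum_empty, hf.zero hX]
  | insert i s hi ih =>
    have h' : Pool.Agent.R898.P.Orth C X s p := ⟨fun j hj => h.mot j (Finset.mem_insert_of_mem hj),
      fun j hj l hl => h.orth j (Finset.mem_insert_of_mem hj) l (Finset.mem_insert_of_mem hl)⟩
    rw [Finset.sum_insert hi, Finset.sum_insert hi, ← ih h']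
    refine hf.add X _ _ m hX (h.mot i (Finset.mem_insert_self _ _)) h'.sum.1 ?_ ?_
    · rw [C.comp_sum]
      refine Finset.sum_eq_zero fun j hj => h.orth i (Finset.mem_insert_self _ _) j
        (Finset.mem_insert_of_mem hj) ?_
      rintro rfl; exact hi hj
    · rw [C.sum_comp]
      refine Finset.sum_eq_zero fun j hj => h.orth j (Finset.mem_insert_of_mem hj) i
        (Finset.mem_insert_self _ _) ?_
      rintro rfl; exact hi hj

/-- additive invariants which vanish on varieties vanish on middle parts -/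
theorem invB_nword {p : C.CH (X.prod X)} (h : NWord W X p) (hA : Stable A)
    (hA0 : ∀ X Y : 𝒱.Obj, X.dim = Y.dim → A 0 X Y)
    (hP : ∀ s, ∃ P, Pool.Agent.R898.G.IsProj C s P)
    (hf : InvB C A (IsProduct W) f) (hfull : ∀ X, IsProduct W X → ∀ m, f X (C.diagC X) m = 0) :
    ∀ m, f X p m = 0 := by
  have hS : Closed (IsProduct W) := fun X Y hX hY => .prod hX hY
  induction h generalizing f with
  | @mid G D hG hD h =>
    intro m
    obtain ⟨P, hP⟩ := hP G.dim
    obtain ⟨hPd, E, hE, hΔ⟩ := datum_of_isProj hP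
    have hPe : IsProduct W P := .elementary (elementary_of_isProj hP)
    have hGe : IsProduct W G := .elementary hG
    have h1 := hf.add G (mid C D) (tate C D) m hGe (mot_mid W hD) (mot_tate W hD)
      (mid_comp_tate W hD) (tate_comp_mid W hD)
    rw [mid_add_tate, hfull G hGe] at h1
    have h2 := hf.iso 0 G P (tate C D) (tate C E) m hGe hPe (hA0 _ _ hPd.symm) (mot_tate W hD)
      (mot_tate W hE) (twistIso_tate W hD hE hPd)
    rw [hΔ, hfull P hPe] at h2
    rw [← h2, add_zero] at h1
    exact h1.symm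
  | @one U hG hU => exact hfull U (.elementary hG)
  | @prod X Y p q hp hq h1 h2 =>
    refine h1 (f := fun X p m => f (X.prod Y) (C.tensor p q) m)
      (hf.right hA hS hq.isProduct hq.mot) fun X' hX' m => ?_
    refine h2 (f := fun Y p m => f (X'.prod Y) (C.tensor (C.diagC X') p) m)
      (hf.left hA hS hX' (mot_diagC X')) (fun Y' hY' m => ?_) m
    rw [C.tensor_diagC]
    exact hfull _ (.prod hX' hY') m

/-- additive invariants which vanish on middle parts vanish on all words -/
theorem invB_pword {p : C.CH (X.prod X)} {n : ℕ} (h : PWord W X p n)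
    (hP : ∀ s, ∃ P, Pool.Agent.R898.G.IsProj C s P)
    (hf : InvB C (fun _ _ _ => True) (IsProduct W) f)
    (hN : ∀ X p, NWord W X p → ∀ m, f X p m = 0) : ∀ m, f X p m = 0 := by
  have hS : Closed (IsProduct W) := fun X Y hX hY => .prod hX hY
  have hA : Stable (𝒱 := 𝒱) (fun _ _ _ => True) := ⟨fun _ _ _ _ h => h, fun _ _ _ _ h => h⟩
  induction h generalizing f with
  | @mid G D hG hD h => exact hN _ _ (.mid hG hD h)
  | @cell G D j hG hD hj =>
    intro m
    obtain ⟨U, hU⟩ := hP 0
    have hU' := isUnit_of_isProj hU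
    have hUe : Elementary W U := elementary_of_isProj hU
    have h1 := hf.iso j U G (C.diagC U) (cell C D j) (m - j) (.elementary hUe) (.elementary hG)
      trivial (mot_diagC U) ((orth_cell W hD).mot _ (Finset.mem_range.2 (by omega)))
      (twistIso_cell W hU' hD hj)
    rw [sub_add_cancel] at h1
    rw [h1]
    exact hN _ _ (.one hUe hU') _
  | @prod X Y p q m n hp hq h1 h2 =>
    refine h1 (f := fun X p m => f (X.prod Y) (C.tensor p q) m)
      (hf.right hA hS hq.isProduct hq.mot) fun X' p' hX' m => ?_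
    refine h2 (f := fun Y p m => f (X'.prod Y) (C.tensor p' p) m)
      (hf.left hA hS hX'.isProduct hX'.mot) (fun Y' q' hY' m => ?_) m
    exact hN _ _ (.prod hX' hY') m

/-- an additive invariant which vanishes in the middle of all products and outside of the degree of
the middle parts vanishes everywhere -/
theorem invB_middle (hP : ∀ s, ∃ P, Pool.Agent.R898.G.IsProj C s P)
    (hf : InvB C (fun _ _ _ => True) (IsProduct W) f) (c : ℤ)
    (hmid : ∀ X m, IsProduct W X → 2 * m = X.dim + c → f X (C.diagC X) m = 0)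
    (hout : ∀ X p, NWord W X p → ∀ m : ℤ, 2 * m ≠ X.dim + c → f X p m = 0) {X : 𝒱.Obj}
    {p : C.CH (X.prod X)} {n : ℕ} (h : PWord W X p n) (m : ℤ) : f X p m = 0 := by
  let A : ℕ → 𝒱.Obj → 𝒱.Obj → Prop := fun s X Y => s = 0 ∧ X.dim = Y.dim
  have hA : Stable A := ⟨fun s X Y Z h => ⟨h.1, by rw [dim_prod, dim_prod, h.2]⟩,
    fun s X Y Z h => ⟨h.1, by rw [dim_prod, dim_prod, h.2]⟩⟩
  have hf' : InvB C A (IsProduct W)
      (fun X p _ => if 2 * (((X.dim : ℤ) + c) / 2) = X.dim + c then
        f X p (((X.dim : ℤ) + c) / 2) else 0) :=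
    { add := fun X p q m hX hp hq hpq hqp => by
        split_ifs with h
        · exact hf.add X p q _ hX hp hq hpq hqp
        · rw [add_zero]
      iso := fun s X Y p q m hX hY hs hp hq h => by
        obtain ⟨rfl, hd⟩ := hs
        rw [← hd]
        split_ifs with h'
        · have h1 := hf.iso 0 X Y p q (((X.dim : ℤ) + c) / 2) hX hY trivial hp hq h
          rwa [Nat.cast_zero, add_zero] at h1
        · rfl }
  refine invB_pword h hP hf (fun X p hN m => ?_) m
  by_cases hm : 2 * m = X.dim + c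
  · have h1 := invB_nword hN hA (fun X Y h => ⟨rfl, h⟩) hP hf' (fun X hX m => by
      split_ifs with h
      · exact hmid X _ hX h
      · rfl) 0
    have e : ((X.dim : ℤ) + c) / 2 = m := by omega
    rw [e, if_pos hm] at h1
    exact h1
  · exact hout X p hN m hm

theorem invB_product (hP : ∀ s, ∃ P, Pool.Agent.R898.G.IsProj C s P)
    (hf : InvB C (fun _ _ _ => True) (IsProduct W) f) (c : ℤ)
    (hmid : ∀ X m, IsProduct W X → 2 * m = X.dim + c → f X (C.diagC X) m = 0)
    (hout : ∀ X p, NWord W X p → ∀ m : ℤ, 2 * m ≠ X.dim + c → f X p m = 0) {X : 𝒱.Obj}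
    (hX : IsProduct W X) (m : ℤ) : f X (C.diagC X) m = 0 := by
  classical
  obtain ⟨ι, _, _, p, n, hp, hor, hsum⟩ := exists_words (W := W) hX
  rw [← hsum, hf.sum hX Finset.univ p m hor]
  exact Finset.sum_eq_zero fun i _ => invB_middle hP hf c hmid hout (hp i) m

end Pool.Agent.R898.K
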