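import Pool.Agent.R898.KMain

/-!
# The dimension formula in a region of dimensions and weights
-/

open CategoryTheory CategoryTheory.Limits AlgebraicGeometry
open Pool.Agent.H914 Pool.Agent.H914.VarClass Pool.Agent.H914.VarClass.Obj
open Pool.Agent.R903 Pool.Agent.R898.P Pool.Agent.R898.F

universe u v w

namespace Pool.Agent.R898.K

variable {k : Type u} [Field k] {𝒱 : VarClass k} {C : ChowTheory.{u, v} 𝒱}
  {W : WeilTheory.{u, v, w} C} {T : MotCoh C} {X Y Z X' Y' G : 𝒱.Obj} {j : ℕ}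
  {o : ∀ X : 𝒱.Obj, C.CH (X.prod X) → ℕ → ℤ}

lemma rk_iso {s : ℕ} {p : C.CH (X.prod X)} {q : C.CH (Y.prod Y)} (hp : Mot C X p)
    (hq : Mot C Y q) (h : TwistIso C s X Y p q) (m : ℤ) : rk T Y q (m + s) = rk T X p m := by
  obtain ⟨a, b, c, ha, hb, hc, h1, h2⟩ := h
  rw [rk, rk]
  congr 1
  refine (finrank_iso (a := T.act a) (b := T.act b)
      (fun x hx => T.act_mem' ha hx (by push_cast; ring))
      (fun y hy => T.act_mem' hb hy (by push_cast [← hc]; ring)) (act_act hp) (act_act hq)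
      (fun x => by rw [← T.act_comp, h1]) (fun x => by rw [← T.act_comp, h2])).symm

lemma dl_iso (ho : IsOrder W o) {s : ℕ} {p : C.CH (X.prod X)} {q : C.CH (Y.prod Y)}
    (hp : Mot C X p) (hq : Mot C Y q) (h : TwistIso C s X Y p q) (m : ℤ) :
    dl T j o Y q (m + s) = dl T j o X p m := by
  rw [dl, dl, rk_iso hp hq h,
    (inv_od (j := j) (S := fun _ => True) ho).iso s X Y p q m trivial trivial trivial hp hq h]

lemma rk_add {p q : C.CH (X.prod X)} {m : ℤ} (hfin : Module.Finite ℚ (T.gr X m)) (hp : Mot C X p)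
    (hq : Mot C X q) (hpq : C.comp p q = 0) (hqp : C.comp q p = 0) :
    rk T X (p + q) m = rk T X p m + rk T X q m := by
  have hadd : T.act (p + q) = T.act p + T.act q := LinearMap.ext fun x => T.act_add p q x
  rw [rk, rk, rk, hadd, finrank_add hfin (fun x hx => T.act_mem' hp.mem hx rfl)
        (fun x hx => T.act_mem' hq.mem hx rfl) (act_act hp) (act_act hq)
        (fun x => by rw [← T.act_comp, hqp, T.act_zero])
        (fun x => by rw [← T.act_comp, hpq, T.act_zero])]
  push_cast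
  rfl

lemma dl_add (ho : IsOrder W o) {p q : C.CH (X.prod X)} {m : ℤ}
    (hfin : Module.Finite ℚ (T.gr X m)) (hp : Mot C X p) (hq : Mot C X q)
    (hpq : C.comp p q = 0) (hqp : C.comp q p = 0) :
    dl T j o X (p + q) m = dl T j o X p m + dl T j o X q m := by
  rw [dl, dl, dl, rk_add hfin hp hq hpq hqp,
    (inv_od (j := j) (S := fun _ => True) ho).add X p q m trivial hp hq hpq hqp]
  ring

/-- additivity at one variety and one weight -/
lemma dl_sum (ho : IsOrder W o) {m : ℤ} (hfin : Module.Finite ℚ (T.gr X m)) {ι : Type*}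
    [DecidableEq ι] (s : Finset ι) (p : ι → C.CH (X.prod X))
    (h : Pool.Agent.R898.P.Orth C X s p) :
    dl T j o X (∑ i ∈ s, p i) m = ∑ i ∈ s, dl T j o X (p i) m := by
  classical
  have hf : InvB C (fun _ _ _ => False) (fun _ => True) (fun (Y : 𝒱.Obj) (p : C.CH (Y.prod Y)) n =>
      if Module.Finite ℚ (T.gr Y n) then dl T j o Y p n else 0) :=
    { add := fun Y p q n _ hp hq hpq hqp => by
        split_ifs with h
        · exact dl_add ho h hp hq hpq hqp
        · rw [add_zero]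
      iso := fun _ _ _ _ _ _ _ _ h => h.elim }
  have h1 := hf.sum (X := X) trivial s p m h
  rw [if_pos hfin] at h1
  rw [h1]
  exact Finset.sum_congr rfl fun i _ => if_pos hfin

/-- products with projective spaces -/
lemma dl_prod_proj (ho : IsOrder W o) {U P : 𝒱.Obj} (hU : Pool.Agent.R898.G.IsProj C 0 U) {s : ℕ}
    (hP : Pool.Agent.R898.G.IsProj C s P) {m : ℤ} (hfin : Module.Finite ℚ (T.gr (X.prod P) m)) :
    dl T j o (X.prod P) (C.diagC (X.prod P)) m =
      ∑ t ∈ Finset.range (s + 1), dl T j o X (C.diagC X) (m - t) := by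
  have hU' := isUnit_of_isProj hU
  obtain ⟨hs, E, hE, hΔ⟩ := datum_of_isProj hP
  have hor := orth_cell W hE
  have h1 : C.diagC (X.prod P) = ∑ t ∈ Finset.range (s + 1), C.tensor (C.diagC X) (cell C E t) := by
    rw [← C.tensor_diagC, ← C.tensor_sum, ← hΔ, tate, hs]
  rw [h1, dl_sum ho hfin]
  · refine Finset.sum_congr rfl fun t ht => ?_
    rw [Finset.mem_range] at ht
    have h2 := dl_iso (T := T) (j := j) ho ((mot_diagC X).tensor (mot_diagC U))
      ((mot_diagC X).tensor (hor.mot t (Finset.mem_range.2 (by omega))))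
      ((twistIso_cell W hU' hE (show t ≤ P.dim by omega)).left (mot_diagC X)) (m - t)
    rw [sub_add_cancel, C.tensor_diagC] at h2
    rw [h2]
    have h3 := dl_iso (T := T) (j := j) ho (mot_diagC _) (mot_diagC _)
      (twistIso_prod_unit hU' X) (m - t)
    rw [Nat.cast_zero, add_zero] at h3
    exact h3.symm
  · refine ⟨fun t ht => (mot_diagC X).tensor (hor.mot _ ?_), fun t ht t' ht' htt => ?_⟩
    · rw [Finset.mem_range] at ht ⊢; omega
    · rw [C.comp_tensor, hor.orth t (by rw [Finset.mem_range] at ht ⊢; omega) t'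
        (by rw [Finset.mem_range] at ht' ⊢; omega) htt, C.tensor_zero]

/-- finiteness for a summand -/
lemma finite_summand (W : WeilTheory.{u, v, w} C) {U P : 𝒱.Obj}
    (hU : Pool.Agent.R898.G.IsProj C 0 U) {s : ℕ} (hP : Pool.Agent.R898.G.IsProj C s P) {t : ℕ}
    (ht : t ≤ s) {m : ℤ} (hfin : Module.Finite ℚ (T.gr (X.prod P) (m + t))) :
    Module.Finite ℚ (T.gr X m) := by
  obtain ⟨a, _, b, b', a'', c, ha, hb, hb', hc, ha'', h⟩ := exists_summand W hU hP X ht
  have hdU : U.dim = 0 := hU.1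
  have hle : T.gr X m ≤ (T.gr (X.prod P) (m + t)).map ((T.act a'').comp (T.act b')) := by
    intro x hx
    refine ⟨T.act b (T.act a x), ?_, ?_⟩
    · refine T.act_mem' hb (T.act_mem' (n := m) ha hx rfl) ?_
      rw [dim_prod, hdU]; push_cast; ring
    · rw [LinearMap.comp_apply, ← T.act_comp, ← T.act_comp, ← T.act_comp, ← C.comp_assoc,
        ← C.comp_assoc, h, T.act_diag]
  exact Submodule.finiteDimensional_of_le hle

lemma TwistIso.tensor {s t : ℕ} {p' : C.CH (X'.prod X')} {p : C.CH (X.prod X)}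
    {q' : C.CH (Y'.prod Y')} {q : C.CH (Y.prod Y)} (h : TwistIso C s X' X p' p)
    (h' : TwistIso C t Y' Y q' q) :
    TwistIso C (s + t) (X'.prod Y') (X.prod Y) (C.tensor p' q') (C.tensor p q) := by
  obtain ⟨a, b, c, ha, hb, hc, h1, h2⟩ := h
  obtain ⟨a', b', c', ha', hb', hc', h1', h2'⟩ := h'
  refine ⟨C.tensor a a', C.tensor b b', c + c', ?_, C.tensor_mem hb hb', ?_, ?_, ?_⟩
  · have := C.tensor_mem ha ha'
    rw [dim_prod]
    convert this using 2
    omega
  · rw [dim_prod]; omega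
  · rw [C.comp_tensor, h1, h1']
  · rw [C.comp_tensor, h2, h2']

lemma TwistIso.refl {p : C.CH (X.prod X)} (hp : Mot C X p) : TwistIso C 0 X X p p :=
  ⟨p, p, X.dim, hp.mem, hp.mem, rfl, hp.idem, hp.idem⟩

/-- words are twists of middle parts -/
lemma exists_nword (hP : ∀ s, ∃ P, Pool.Agent.R898.G.IsProj C s P) {p : C.CH (X.prod X)} {n : ℕ}
    (h : PWord W X p n) : ∃ (X' : 𝒱.Obj) (p' : C.CH (X'.prod X')) (t : ℕ), NWord W X' p' ∧
      TwistIso C t X' X p' p ∧ t + X'.dim ≤ X.dim ∧ n = X'.dim + 2 * t := by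
  induction h with
  | @mid G D hG hD h =>
    exact ⟨G, _, 0, .mid hG hD h, TwistIso.refl (mot_mid W hD), by omega, by omega⟩
  | @cell G D t hG hD ht =>
    obtain ⟨U, hU⟩ := hP 0
    have hU' := isUnit_of_isProj hU
    exact ⟨U, _, t, .one (elementary_of_isProj hU) hU', twistIso_cell W hU' hD ht,
      by have := hU.1; omega, by have := hU.1; omega⟩
  | @prod X Y p q m n hp hq h1 h2 =>
    obtain ⟨X', p', t, h1, h1', h1'', e1⟩ := h1
    obtain ⟨Y', q', t', h2, h2', h2'', e2⟩ := h2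
    exact ⟨_, _, _, .prod h1 h2, TwistIso.tensor h1' h2', by rw [dim_prod, dim_prod]; omega,
      by rw [dim_prod]; omega⟩

lemma kills_of_twistIso {t : ℕ} {p' : C.CH (X'.prod X')} {p : C.CH (X.prod X)}
    (h : TwistIso C t X' X p' p) (hp : Mot C X p) {m : ℤ} (h' : Kills T p' m) :
    Kills T p (m + t) := by
  obtain ⟨a, b, c, ha, hb, hc, h1, h2⟩ := h
  intro x hx
  have e : C.comp (C.comp b p') a = p := by
    rw [← h1, ← C.comp_assoc, h2, C.comp_assoc, h2, hp.idem]
  rw [← e, T.act_comp, T.act_comp, h' _ (T.act_mem' hb hx (by push_cast [← hc]; ring)), map_zero]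

/-- a region, closed under passage to smaller varieties -/
def RegionClosed (R : ℕ → ℤ → Prop) : Prop :=
  ∀ (d d' t : ℕ) (n : ℤ), R d n → t + d' ≤ d → R d' (n - t)

/-- the dimension formula in the region -/
def DimOn (W : WeilTheory.{u, v, w} C) (T : MotCoh C) (j : ℕ)
    (o : ∀ X : 𝒱.Obj, C.CH (X.prod X) → ℕ → ℤ) (R : ℕ → ℤ → Prop) : Prop :=
  ∀ (X : 𝒱.Obj) (n : ℤ), IsProduct W X → R X.dim n →
    Module.Finite ℚ (T.gr X n) ∧ dl T j o X (C.diagC X) n = 0

section Region

variable {R : ℕ → ℤ → Prop} (hP : ∀ s, ∃ P, Pool.Agent.R898.G.IsProj C s P) (ho : IsOrder W o)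
  (hR : RegionClosed R) (hD : DimOn W T j o R)

include hP ho hD

theorem dl_nword_on {p : C.CH (X.prod X)} (h : NWord W X p) {m : ℤ} (hm : R X.dim m) :
    dl T j o X p m = 0 := by
  classical
  let A : ℕ → 𝒱.Obj → 𝒱.Obj → Prop := fun s X Y => s = 0 ∧ X.dim = Y.dim
  have hA : Stable A := ⟨fun s X Y Z h => ⟨h.1, by rw [dim_prod, dim_prod, h.2]⟩,
    fun s X Y Z h => ⟨h.1, by rw [dim_prod, dim_prod, h.2]⟩⟩
  have hf' : InvB C A (IsProduct W)
      (fun (X : 𝒱.Obj) (p : C.CH (X.prod X)) m => if R X.dim m then dl T j o X p m else 0) :=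
    { add := fun X p q m hX hp hq hpq hqp => by
        split_ifs with h
        · exact dl_add ho (hD X m hX h).1 hp hq hpq hqp
        · rw [add_zero]
      iso := fun s X Y p q m hX hY hs hp hq h => by
        obtain ⟨rfl, hd⟩ := hs
        have h1 := dl_iso (T := T) (j := j) ho hp hq h m
        rw [Nat.cast_zero, add_zero] at h1 ⊢
        rw [← hd, h1] }
  have h1 := invB_nword h hA (fun X Y h => ⟨rfl, h⟩) hP hf' (fun X hX m => by
    split_ifs with h
    · exact (hD X m hX h).2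
    · rfl) m
  rwa [if_pos hm] at h1

theorem kills_nword_on {p : C.CH (X.prod X)} (h : NWord W X p) {m : ℤ} (hm : R X.dim m)
    (hmm : 2 * m ≠ X.dim + j + 1) : Kills T p m := by
  intro x hx
  have h1 := dl_nword_on hP ho hD h hm
  have h2 := od_zero (j := j) (m := m) ho h.mot h.inDeg hmm
  rw [dl, h2, sub_zero, rk] at h1
  have hfin : Module.Finite ℚ (T.gr X m) := (hD X m h.isProduct hm).1
  have h3 : Module.finrank ℚ ((T.gr X m).map (T.act p)) = 0 := by exact_mod_cast h1
  rw [Submodule.finrank_eq_zero] at h3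
  have h4 : T.act p x ∈ (T.gr X m).map (T.act p) := ⟨x, hx, rfl⟩
  rw [h3] at h4
  exact (Submodule.mem_bot _).1 h4

include hR

theorem kills_pword_on {p : C.CH (X.prod X)} {n : ℕ} (h : PWord W X p n) {m : ℤ}
    (hm : R X.dim m) (hmm : 2 * m ≠ n + j + 1) : Kills T p m := by
  obtain ⟨X', p', t, h1, h2, h3, h4⟩ := exists_nword hP h
  have h5 : Kills T p' (m - t) := kills_nword_on hP ho hD h1 (hR _ _ _ _ hm h3) (by
    rw [h4] at hmm; push_cast at hmm; omega)
  have h6 := kills_of_twistIso h2 h.mot h5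
  rwa [sub_add_cancel] at h6

theorem concentrated_on (hX : IsProduct W X) : ∃ π : ℕ → C.CH (X.prod X),
    (∀ l, IsMotive C X (π l)) ∧ (∀ l l', l ≠ l' → cp C (π l) (π l') = 0) ∧
      ∑ l ∈ Finset.range (2 * X.dim + 1), π l = C.diagC X ∧
        (∀ l a, W.act (π l) a ∈ W.gr X l) ∧
          ∀ (l : ℕ) (n : ℤ), R X.dim n → 2 * n ≠ l + j + 1 → Kills T (π l) n := by
  classical
  obtain ⟨ι, _, _, p, n, hp, hor, hsum⟩ := exists_words (W := W) hX
  have hor' : ∀ l : ℕ, Pool.Agent.R898.P.Orth C X (Finset.univ.filter fun i => n i = l) p :=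
    fun l => ⟨fun i _ => hor.mot i (Finset.mem_univ _), fun i _ i' _ h =>
      hor.orth i (Finset.mem_univ _) i' (Finset.mem_univ _) h⟩
  have hdeg : ∀ i, n i ≤ 2 * X.dim := fun i => by
    obtain ⟨n', _, h⟩ := (hp i).transp
    omega
  refine ⟨fun l => ∑ i ∈ Finset.univ.filter (fun i => n i = l), p i, ?_, ?_, ?_, ?_, ?_⟩
  · exact fun l => (hor' l).sum.1.isMotive
  · intro l l' hl
    change C.comp (∑ i ∈ _, p i) (∑ i ∈ _, p i) = 0
    rw [C.sum_comp]
    refine Finset.sum_eq_zero fun i hi => ?_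
    rw [C.comp_sum]
    refine Finset.sum_eq_zero fun i' hi' => ?_
    rw [Finset.mem_filter] at hi hi'
    refine hor.orth i (Finset.mem_univ _) i' (Finset.mem_univ _) ?_
    rintro rfl
    exact hl (hi.2.symm.trans hi'.2)
  · rw [← hsum]
    exact Finset.sum_fiberwise_of_maps_to (fun i _ => Finset.mem_range.2 (by
      have := hdeg i; omega)) p
  · intro l a
    rw [W.act_sum, LinearMap.sum_apply]
    refine Submodule.sum_mem _ fun i hi => ?_
    rw [Finset.mem_filter] at hi
    rw [← hi.2]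
    exact (hp i).inDeg a
  · intro l m hm hmm x hx
    rw [T.act_sum]
    refine Finset.sum_eq_zero fun i hi => ?_
    rw [Finset.mem_filter] at hi
    exact kills_pword_on hP ho hR hD (hp i) hm (by rw [hi.2]; exact hmm) x hx

/-- correspondences between products -/
theorem onlyH_product_on (hPol : C.Polarized) {o' : ∀ X : 𝒱.Obj, C.CH (X.prod X) → ℕ → ℤ}
    (ho' : P.IsOrder W o') (hM' : P.Middle W o' (IsProduct W)) {X Y : 𝒱.Obj} (hX : IsProduct W X)
    (hY : IsProduct W Y) {c : ℕ} {γ : C.CH (X.prod Y)} {m : ℤ}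
    (hγ : γ ∈ C.gr (X.prod Y) c) (h0 : ∀ l : ℕ, 2 * m = l + j + 1 → ∀ a ∈ W.gr X l, W.act γ a = 0)
    (hmX : R X.dim m) (hmY : R Y.dim (m + c - X.dim)) : Kills T γ m := by
  classical
  intro x hx
  obtain ⟨ι, _, _, p, n, hp, hor, hsum⟩ := exists_words (W := W) hX
  obtain ⟨κ, _, _, q, l', hq, hor', hsum'⟩ := exists_words (W := W) hY
  have hx1 : x = ∑ i, T.act (p i) x := by
    conv_lhs => rw [← T.act_diag X x, ← hsum, T.act_sum]
  have hy1 : T.act γ x = ∑ i, ∑ j, T.act (q j) (T.act γ (T.act (p i) x)) := by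
    conv_lhs => rw [hx1, map_sum]
    refine Finset.sum_congr rfl fun i _ => ?_
    conv_lhs => rw [← T.act_diag Y (T.act γ (T.act (p i) x)), ← hsum', T.act_sum]
  rw [hy1]
  refine Finset.sum_eq_zero fun i _ => Finset.sum_eq_zero fun i' _ => ?_
  by_cases hni : 2 * m = n i + j + 1
  swap
  · rw [kills_pword_on hP ho hR hD (hp i) hmX hni x hx, map_zero, map_zero]
  have hyi : T.act γ (T.act (p i) x) ∈ T.gr Y (m + c - X.dim) :=
    T.act_mem' hγ (T.act_mem' (hp i).mot.mem hx rfl) (by ring)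
  by_cases hlj : 2 * (m + c - X.dim) = l' i' + j + 1
  swap
  · exact kills_pword_on hP ho hR hD (hq i') hmY hlj _ hyi
  set δ := C.comp (C.comp (p i) γ) (q i') with hδ
  have hδm : δ ∈ C.gr (X.prod Y) c :=
    C.comp_mem (C.comp_mem (hp i).mot.mem hγ (r := c) (by omega)) (hq i').mot.mem rfl
  have hδx : T.act δ x = T.act (q i') (T.act γ (T.act (p i) x)) := by
    rw [hδ, T.act_comp, T.act_comp]
  have hδ0 : W.act δ = 0 := by
    ext a
    rw [LinearMap.zero_apply, hδ, W.act_comp _ (hq i').mot.mem, W.act_comp _ hγ,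
      h0 (n i) hni _ ((hp i).inDeg a), map_zero]
  have hδt : δ ∈ F.homTriv W (X.prod Y) c := ⟨hδm, cl_eq_zero_of_act W hδ0⟩
  have hδz : δ = 0 := by
    obtain ⟨n'', hp', hn''⟩ := (hp i).transp
    have hw := PWord.prod hp' (hq i')
    have h1 := act_pword hPol hP ho' hM' hw (m := c) (by omega) hδt
    rw [C.act_tensor, hδ] at h1
    rw [hδ]
    have h2 : C.comp (C.comp (p i) (C.comp (C.comp (p i) γ) (q i'))) (q i') =
        C.comp (C.comp (p i) γ) (q i') := by
      rw [← C.comp_assoc (p i), ← C.comp_assoc (p i), (hp i).mot.idem, C.comp_assoc,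
        (hq i').mot.idem]
    rw [h2] at h1
    exact h1
  rw [← hδx, hδz, T.act_zero]

end Region

/-- from the line `n = j` to the region `n ≤ j` -/
theorem dimOn_le (hP : ∀ s, ∃ P, Pool.Agent.R898.G.IsProj C s P) (ho : IsOrder W o) {n₀ : ℤ}
    (h : DimOn W T j o (fun _ n => n = n₀)) : DimOn W T j o (fun _ n => n ≤ n₀) := by
  obtain ⟨U, hU⟩ := hP 0
  have hfin : ∀ (X : 𝒱.Obj) (t : ℕ), IsProduct W X → Module.Finite ℚ (T.gr X (n₀ - t)) := by
    intro X t hX
    obtain ⟨P, hP⟩ := hP t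
    refine finite_summand W hU hP le_rfl ?_
    rw [sub_add_cancel]
    exact (h (X.prod P) n₀ (.prod hX (isProduct_of_isProj hP)) rfl).1
  have h0 : ∀ (X : 𝒱.Obj) (t : ℕ), IsProduct W X → dl T j o X (C.diagC X) (n₀ - t) = 0 := by
    intro X t hX
    have key : ∀ s : ℕ, ∑ t ∈ Finset.range (s + 1), dl T j o X (C.diagC X) (n₀ - t) = 0 := by
      intro s
      obtain ⟨P, hP⟩ := hP s
      have h1 := h (X.prod P) n₀ (.prod hX (isProduct_of_isProj hP)) rfl
      rw [← dl_prod_proj ho hU hP h1.1]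
      exact h1.2
    rcases t with _ | t
    · have := key 0
      simpa using this
    · have h1 := key t
      have h2 := key (t + 1)
      rw [Finset.sum_range_succ, h1, zero_add] at h2
      exact h2
  intro X n hX hn
  obtain ⟨t, ht⟩ := Int.eq_ofNat_of_zero_le (show 0 ≤ n₀ - n by omega)
  have e : n = n₀ - t := by omega
  rw [e]
  exact ⟨hfin X t hX, h0 X t hX⟩

/-- from the line `n = dim X + 1` to the region `n ≥ dim X + 1` -/
theorem dimOn_ge (hP : ∀ s, ∃ P, Pool.Agent.R898.G.IsProj C s P) (ho : IsOrder W o)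
    (h : DimOn W T j o (fun d n => n = d + 1)) : DimOn W T j o (fun d n => (d : ℤ) + 1 ≤ n) := by
  obtain ⟨U, hU⟩ := hP 0
  have hfin : ∀ (X : 𝒱.Obj) (r : ℕ), IsProduct W X →
      Module.Finite ℚ (T.gr X (X.dim + 1 + r)) := by
    intro X r hX
    obtain ⟨P, hP⟩ := hP r
    refine finite_summand (t := 0) W hU hP (Nat.zero_le _) ?_
    rw [Nat.cast_zero, add_zero]
    exact (h (X.prod P) _ (.prod hX (isProduct_of_isProj hP)) (by
      rw [dim_prod, hP.1]; push_cast; ring)).1
  have h0 : ∀ (X : 𝒱.Obj) (r : ℕ), IsProduct W X →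
      dl T j o X (C.diagC X) (X.dim + 1 + r) = 0 := by
    intro X r hX
    have key : ∀ s : ℕ, ∑ t ∈ Finset.range (s + 1),
        dl T j o X (C.diagC X) (X.dim + 1 + s - t) = 0 := by
      intro s
      obtain ⟨P, hP⟩ := hP s
      have h1 := h (X.prod P) (X.dim + 1 + s) (.prod hX (isProduct_of_isProj hP)) (by
        rw [dim_prod, hP.1]; push_cast; ring)
      rw [← dl_prod_proj ho hU hP h1.1]
      exact h1.2
    rcases r with _ | r
    · have := key 0
      simpa using this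
    · have h1 := key r
      have h2 := key (r + 1)
      rw [Finset.sum_range_succ'] at h2
      have e : ∀ t : ℕ, (X.dim : ℤ) + 1 + ((r + 1 : ℕ) : ℤ) - ((t + 1 : ℕ) : ℤ) =
          X.dim + 1 + r - t := fun t => by push_cast; ring
      rw [Finset.sum_congr rfl fun t _ => by rw [e t], h1, zero_add, Nat.cast_zero, sub_zero] at h2
      exact h2
  intro X n hX hn
  obtain ⟨r, hr⟩ := Int.eq_ofNat_of_zero_le (show 0 ≤ n - (X.dim + 1) by omega)
  have e : n = X.dim + 1 + r := by omega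
  rw [e]
  exact ⟨hfin X r hX, h0 X r hX⟩

end Pool.Agent.R898.K
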