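import Pool.Agent.R898.KStmt
import Pool.Agent.R898.KInv

/-!
# Dimensions of motivic cohomology as additive invariants
-/

open CategoryTheory CategoryTheory.Limits AlgebraicGeometry
open Pool.Agent.H914 Pool.Agent.H914.VarClass Pool.Agent.H914.VarClass.Obj
open Pool.Agent.R903 Pool.Agent.R898.P

universe u v w

namespace Pool.Agent.R898.K

variable {k : Type u} [Field k] {𝒱 : VarClass k} {C : ChowTheory.{u, v} 𝒱}
  {W : WeilTheory.{u, v, w} C} {T : MotCoh C} {X Y Z G : 𝒱.Obj} {j : ℕ}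
  {o : ∀ X : 𝒱.Obj, C.CH (X.prod X) → ℕ → ℤ}

lemma MotCoh.act_comp (γ : C.CH (X.prod Y)) (δ : C.CH (Y.prod Z)) (x : T.M X) :
    T.act (C.comp γ δ) x = T.act δ (T.act γ x) := T.act_cp γ δ x

lemma MotCoh.act_zero (x : T.M X) : T.act (0 : C.CH (X.prod Y)) x = 0 := by
  have h := T.act_add (0 : C.CH (X.prod Y)) 0 x
  rw [add_zero] at h
  exact left_eq_add.mp h

lemma MotCoh.act_sum {ι : Type*} (s : Finset ι) (γ : ι → C.CH (X.prod Y)) (x : T.M X) :
    T.act (∑ i ∈ s, γ i) x = ∑ i ∈ s, T.act (γ i) x := by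
  classical
  induction s using Finset.induction_on with
  | empty => rw [Finset.sum_empty, Finset.sum_empty, T.act_zero]
  | insert i s hi ih => rw [Finset.sum_insert hi, Finset.sum_insert hi, T.act_add, ih]

lemma MotCoh.act_mem' {γ : C.CH (X.prod Y)} {c : ℕ} (hγ : γ ∈ C.gr _ c) {m n : ℤ} {x : T.M X}
    (hx : x ∈ T.gr X m) (h : m + c = n + X.dim) : T.act γ x ∈ T.gr Y n :=
  T.act_mem γ c m n x hγ hx h

/-- the rank -/
noncomputable def rk (T : MotCoh C) (X : 𝒱.Obj) (p : C.CH (X.prod X)) (m : ℤ) : ℤ :=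
  Module.finrank ℚ ((T.gr X m).map (T.act p))

/-- the expected rank -/
def od (j : ℕ) (o : ∀ X : 𝒱.Obj, C.CH (X.prod X) → ℕ → ℤ) (X : 𝒱.Obj) (p : C.CH (X.prod X))
    (m : ℤ) : ℤ :=
  if (j : ℤ) + 1 ≤ 2 * m then o X p (2 * m - j - 1).toNat else 0

/-- the difference -/
noncomputable def dl (T : MotCoh C) (j : ℕ) (o : ∀ X : 𝒱.Obj, C.CH (X.prod X) → ℕ → ℤ)
    (X : 𝒱.Obj) (p : C.CH (X.prod X)) (m : ℤ) : ℤ := rk T X p m - od j o X p m

lemma act_act {p : C.CH (X.prod X)} (hp : Mot C X p) (x : T.M X) :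
    T.act p (T.act p x) = T.act p x := by
  rw [← T.act_comp, hp.idem]

/-- the rank is an additive invariant -/
theorem inv_rk {S : 𝒱.Obj → Prop} (hfin : ∀ X, S X → ∀ m, Module.Finite ℚ (T.gr X m)) :
    InvB C (fun _ _ _ => True) S (rk T) where
  add X p q m hX hp hq hpq hqp := by
    have hadd : T.act (p + q) = T.act p + T.act q := LinearMap.ext fun x => T.act_add p q x
    rw [rk, rk, rk]
    have := hfin X hX m
    rw [hadd, finrank_add this (fun x hx => T.act_mem' hp.mem hx rfl)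
          (fun x hx => T.act_mem' hq.mem hx rfl) (act_act hp) (act_act hq)
          (fun x => by rw [← T.act_comp, hqp, T.act_zero])
          (fun x => by rw [← T.act_comp, hpq, T.act_zero])]
    push_cast
    rfl
  iso s X Y p q m hX hY _ hp hq h := by
    obtain ⟨a, b, c, ha, hb, hc, h1, h2⟩ := h
    rw [rk, rk]
    congr 1
    refine (finrank_iso (a := T.act a) (b := T.act b)
        (fun x hx => T.act_mem' ha hx (by push_cast; ring))
        (fun y hy => T.act_mem' hb hy (by push_cast [← hc]; ring)) (act_act hp) (act_act hq)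
        (fun x => by rw [← T.act_comp, h1]) (fun x => by rw [← T.act_comp, h2])).symm

lemma o_zero (ho : IsOrder W o) {p : C.CH (X.prod X)} (hp : Mot C X p) {l : ℕ}
    (h : ∀ a ∈ W.gr X l, W.act p a = 0) : o X p l = 0 := by
  have h1 : o X 0 l = 0 := by
    have := ho.add X 0 0 l (mot_zero X).isMotive (mot_zero X).isMotive (C.comp_zero _)
      (C.comp_zero _)
    rw [add_zero] at this
    linarith
  rw [← h1]
  have e0 : F.cp C (F.cp C (0 : C.CH (X.prod X)) (0 : C.CH (X.prod X))) (0 : C.CH (X.prod X)) = 0 :=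
    C.comp_zero _
  have e1 : F.cp C (F.cp C (0 : C.CH (X.prod X)) p) (0 : C.CH (X.prod X)) = 0 := C.comp_zero _
  refine ho.iso X X p 0 0 0 l l ⟨hp.isMotive, (mot_zero X).isMotive, ⟨X.dim, rfl,
    Submodule.zero_mem _⟩, ⟨X.dim, rfl, Submodule.zero_mem _⟩, ?_, ?_⟩
  · intro a ha
    rw [e0, W.act_zero, LinearMap.zero_apply, h a ha]
  · intro a ha
    rw [e1, W.act_zero, LinearMap.zero_apply, LinearMap.zero_apply]

/-- the expected rank is an additive invariant -/
theorem inv_od {S : 𝒱.Obj → Prop} (ho : IsOrder W o) :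
    InvB C (fun _ _ _ => True) S (od j o) where
  add X p q m hX hp hq hpq hqp := by
    rw [od, od, od]
    split_ifs with hm
    · exact ho.add X p q _ hp.isMotive hq.isMotive hpq hqp
    · rfl
  iso s X Y p q m hX hY _ hp hq h := by
    obtain ⟨a, b, c, ha, hb, hc, h1, h2⟩ := h
    rw [od, od]
    by_cases hm : (j : ℤ) + 1 ≤ 2 * m
    · obtain ⟨l, hl⟩ := Int.eq_ofNat_of_zero_le (show 0 ≤ 2 * m - j - 1 by omega)
      rw [if_pos (by omega), if_pos hm]
      have e1 : (2 * (m + s) - j - 1).toNat = l + 2 * s := by omega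
      have e2 : (2 * m - j - 1).toNat = l := by omega
      rw [e1, e2]
      have f1 : F.cp C (F.cp C a q) b = p := by
        change C.comp (C.comp a q) b = p
        rw [← h2, ← C.comp_assoc, h1, C.comp_assoc, h1, hp.idem]
      have f2 : F.cp C (F.cp C b p) a = q := by
        change C.comp (C.comp b p) a = q
        rw [← h1, ← C.comp_assoc, h2, C.comp_assoc, h2, hq.idem]
      refine (ho.iso X Y p q a b l (l + 2 * s) ⟨hp.isMotive, hq.isMotive, ⟨_, by omega, ha⟩,
        ⟨c, by omega, hb⟩, ?_, ?_⟩).symm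
      · intro x hx
        rw [f1, ← W.act_comp _ hp.mem, hp.idem]
      · intro x hx
        rw [f2, ← W.act_comp _ hq.mem, hq.idem]
    · rw [if_neg hm]
      split_ifs with hms
      · obtain ⟨l, hl⟩ := Int.eq_ofNat_of_zero_le (show 0 ≤ 2 * (m + s) - j - 1 by omega)
        rw [hl, Int.toNat_natCast]
        refine o_zero ho hq fun y hy => ?_
        rw [← h2, W.act_comp _ ha, W.act_eq_zero hb hy (by omega), map_zero]
      · rfl

lemma inv_sub {A : ℕ → 𝒱.Obj → 𝒱.Obj → Prop} {S : 𝒱.Obj → Prop}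
    {f g : ∀ X : 𝒱.Obj, C.CH (X.prod X) → ℤ → ℤ} (hf : InvB C A S f) (hg : InvB C A S g) :
    InvB C A S (fun X p m => f X p m - g X p m) where
  add X p q m hX hp hq hpq hqp := by
    change f X (p + q) m - g X (p + q) m = f X p m - g X p m + (f X q m - g X q m)
    rw [hf.add X p q m hX hp hq hpq hqp, hg.add X p q m hX hp hq hpq hqp]
    ring
  iso s X Y p q m hX hY hs hp hq h := by
    change f Y q (m + s) - g Y q (m + s) = f X p m - g X p m
    rw [hf.iso s X Y p q m hX hY hs hp hq h, hg.iso s X Y p q m hX hY hs hp hq h]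

/-- additive invariants with integral values -/
lemma InvB.toInv {A : ℕ → 𝒱.Obj → 𝒱.Obj → Prop} {S : 𝒱.Obj → Prop}
    {f : ∀ X : 𝒱.Obj, C.CH (X.prod X) → ℤ → ℤ} (hf : InvB C A S f) : Inv C A S f :=
  ⟨hf.add, hf.iso⟩

/-- `X` is a summand of `X × P`, twisted -/
lemma exists_summand (W : WeilTheory.{u, v, w} C) {U P : 𝒱.Obj}
    (hU : Pool.Agent.R898.G.IsProj C 0 U) {s : ℕ}
    (hP : Pool.Agent.R898.G.IsProj C s P) (X : 𝒱.Obj) {t : ℕ} (ht : t ≤ s) :
    ∃ (a a' : C.CH (X.prod (X.prod U))) (b : C.CH ((X.prod U).prod (X.prod P)))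
      (b' : C.CH ((X.prod P).prod (X.prod U))) (a'' : C.CH ((X.prod U).prod X)) (c : ℕ),
      a ∈ C.gr _ X.dim ∧ b ∈ C.gr _ (X.dim + t) ∧ b' ∈ C.gr _ c ∧ c + t = X.dim + s ∧
        a'' ∈ C.gr _ X.dim ∧
        C.comp (C.comp (C.comp a b) b') a'' = C.diagC X := by
  have hU' := isUnit_of_isProj hU
  obtain ⟨hs, E, hE, hΔ⟩ := datum_of_isProj hP
  obtain ⟨a, b, c, ha, hb, hc, h1, h2⟩ := twistIso_prod_unit hU' X
  obtain ⟨a', b', c', ha', hb', hc', h1', h2'⟩ :=
    (twistIso_cell W hU' hE (show t ≤ P.dim by omega)).left (mot_diagC X)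
  rw [dim_prod, hU'.dim, add_zero] at ha ha'
  rw [dim_prod] at hc'
  rw [add_zero] at ha hc
  subst hc
  refine ⟨b, b, a', b', a, c', hb, ha', hb', by omega, ha, ?_⟩
  rw [C.comp_assoc b a' b', h1', C.tensor_diagC, C.comp_diagC, h2]

/-- finiteness from the middle degree -/
theorem finite_of_middle (hP : ∀ s, ∃ P, Pool.Agent.R898.G.IsProj C s P)
    (hM : MiddleDim W T j o) (hX : IsProduct W X) (m : ℤ) : Module.Finite ℚ (T.gr X m) := by
  obtain ⟨U, hU⟩ := hP 0
  set t : ℕ := X.dim + j + 1 + 2 * m.natAbs with ht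
  obtain ⟨s, hs⟩ := Int.eq_ofNat_of_zero_le
    (show 0 ≤ 2 * (m + t) - X.dim - j - 1 by omega)
  obtain ⟨P, hP⟩ := hP s
  obtain ⟨a, _, b, b', a'', c, ha, hb, hb', hc, ha'', h⟩ :=
    exists_summand W hU hP X (t := t) (by omega)
  have hfin : Module.Finite ℚ (T.gr (X.prod P) (m + t)) :=
    (hM (X.prod P) (m + t) (.prod hX (.elementary (elementary_of_isProj hP))) (by
      rw [dim_prod, hP.1]; push_cast; omega)).1
  have hdU : U.dim = 0 := hU.1
  have hle : T.gr X m ≤ (T.gr (X.prod P) (m + t)).map ((T.act a'').comp (T.act b')) := by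
    intro x hx
    refine ⟨T.act b (T.act a x), ?_, ?_⟩
    · refine T.act_mem' hb (T.act_mem' (n := m) ha hx rfl) ?_
      rw [dim_prod, hdU]; push_cast; ring
    · rw [LinearMap.comp_apply, ← T.act_comp, ← T.act_comp, ← T.act_comp, ← C.comp_assoc,
        ← C.comp_assoc, h, T.act_diag]
  exact Submodule.finiteDimensional_of_le hle

end Pool.Agent.R898.K
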