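import Pool.Agent.R898.PStmt

/-!
# Motivic cohomology of products of curves, regular surfaces, complete intersections: the
# definitions used in the statement
-/

open CategoryTheory CategoryTheory.Limits AlgebraicGeometry
open Pool.Agent.H914 Pool.Agent.H914.VarClass Pool.Agent.H914.VarClass.Obj
open Pool.Agent.R903

universe u v w

namespace Pool.Agent.R898.K

variable {k : Type u} [Field k] {𝒱 : VarClass k}

/-- Graded rational vector spaces `M X` on which correspondences act. Intended: a number `j` is fixed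
and `gr X n = H^(2n-j)(X, ℚ(n))_ℤ = K_j(X)_ℤ^(n)` is integral motivic cohomology. The properties are
functoriality and the behaviour of the degrees. -/
structure MotCoh (C : ChowTheory.{u, v} 𝒱) where
  M : 𝒱.Obj → Type v
  [ab : ∀ X, AddCommGroup (M X)]
  [mod : ∀ X, Module ℚ (M X)]
  gr : ∀ X, ℤ → Submodule ℚ (M X)
  act : ∀ {X Y : 𝒱.Obj}, C.CH (X.prod Y) → M X →ₗ[ℚ] M Y
  act_add : ∀ {X Y : 𝒱.Obj} (γ δ : C.CH (X.prod Y)) (x : M X),
    act (γ + δ) x = act γ x + act δ x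
  act_diag : ∀ (X : 𝒱.Obj) (x : M X), act (C.diagC X) x = x
  act_cp : ∀ {X Y Z : 𝒱.Obj} (γ : C.CH (X.prod Y)) (δ : C.CH (Y.prod Z)) (x : M X),
    act (F.cp C γ δ) x = act δ (act γ x)
  act_mem : ∀ {X Y : 𝒱.Obj} (γ : C.CH (X.prod Y)) (c : ℕ) (m n : ℤ) (x : M X), F.Codim C c γ →
    x ∈ gr X m → m + c = n + X.dim → act γ x ∈ gr Y n

attribute [instance] MotCoh.ab MotCoh.mod

variable {C : ChowTheory.{u, v} 𝒱}

/-- The space `gr X n` is finite-dimensional of dimension `r`. -/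
def HasDim (T : MotCoh C) (X : 𝒱.Obj) (n r : ℤ) : Prop :=
  Module.Finite ℚ (T.gr X n) ∧ (Module.finrank ℚ (T.gr X n) : ℤ) = r

/-- The action of `γ` on `gr X n` is zero. -/
def Kills (T : MotCoh C) {X Y : 𝒱.Obj} (γ : C.CH (X.prod Y)) (n : ℤ) : Prop :=
  ∀ x ∈ T.gr X n, T.act γ x = 0

variable (W : WeilTheory.{u, v, w} C)

/-- The correspondences `f`, `g` of opposite degrees induce inverse isomorphisms between `H^l(X, p)`
and `H^l'(Y, q)`. -/
structure HIso (X Y : 𝒱.Obj) (p : C.CH (X.prod X)) (q : C.CH (Y.prod Y)) (f : C.CH (X.prod Y))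
    (g : C.CH (Y.prod X)) (l l' : ℕ) : Prop where
  source : F.IsMotive C X p
  target : F.IsMotive C Y q
  memf : ∃ c, l + 2 * c = l' + 2 * X.dim ∧ F.Codim C c f
  memg : ∃ c, l' + 2 * c = l + 2 * Y.dim ∧ F.Codim C c g
  left : F.IdOn (W.act (F.cp C (F.cp C f q) g)) (W.act p) (W.gr X l)
  right : F.IdOn (W.act (F.cp C (F.cp C g p) f)) (W.act q) (W.gr Y l')

/-- `o X p l` is additive in the motive `(X, p)` and depends only on the isomorphism class of
`H^l(X, p)` up to Tate twists. Intended: the dimension of the Deligne cohomology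
`H_𝒟^(l+1)(X, p; ℝ(n))`, or the order of `L(H^l(X, p), s)` at `s = l + 1 - n`, `2n = l + j + 1`. -/
structure IsOrder (o : ∀ X : 𝒱.Obj, C.CH (X.prod X) → ℕ → ℤ) : Prop where
  iso : ∀ (X Y : 𝒱.Obj) (p : C.CH (X.prod X)) (q : C.CH (Y.prod Y)) (f : C.CH (X.prod Y))
    (g : C.CH (Y.prod X)) (l l' : ℕ), HIso W X Y p q f g l l' → o X p l = o Y q l'
  add : ∀ (X : 𝒱.Obj) (p q : C.CH (X.prod X)) (l : ℕ), F.IsMotive C X p → F.IsMotive C X q →
    F.cp C p q = 0 → F.cp C q p = 0 → o X (p + q) l = o X p l + o X q l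

/-- The dimension formula in the middle degree `l = dim X`, for the products of elementary
varieties. -/
def MiddleDim (T : MotCoh C) (j : ℕ) (o : ∀ X : 𝒱.Obj, C.CH (X.prod X) → ℕ → ℤ) : Prop :=
  ∀ (X : 𝒱.Obj) (n : ℤ), P.IsProduct W X → 2 * n = X.dim + j + 1 →
    HasDim T X n (o X (C.diagC X) X.dim)

/-- The dimension formula in all degrees `l ≥ 0`, for the products of elementary varieties, and
vanishing for `l < 0`, `l = 2n - j - 1`. -/
def FullDim (T : MotCoh C) (j : ℕ) (o : ∀ X : 𝒱.Obj, C.CH (X.prod X) → ℕ → ℤ) : Prop :=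
  ∀ (X : 𝒱.Obj) (n : ℤ), P.IsProduct W X →
    (∀ l : ℕ, 2 * n = l + j + 1 → HasDim T X n (o X (C.diagC X) l)) ∧
      (2 * n < j + 1 → HasDim T X n 0)

/-- Künneth projectors `π l` of `X`, such that only `π l` acts nontrivially on `gr X n` for
`2n = l + j + 1`. -/
structure Concentrated (T : MotCoh C) (j : ℕ) (X : 𝒱.Obj) (π : ℕ → C.CH (X.prod X)) : Prop where
  mot : ∀ l, F.IsMotive C X (π l)
  orth : ∀ l l', l ≠ l' → F.cp C (π l) (π l') = 0
  sum : ∑ l ∈ Finset.range (2 * X.dim + 1), π l = C.diagC X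
  one : ∀ l, ∀ a ∈ W.gr X l, W.act (π l) a = a
  zero : ∀ l l', l ≠ l' → F.ZeroOn (W.act (π l)) (W.gr X l')
  conc : ∀ (l : ℕ) (n : ℤ), 2 * n ≠ l + j + 1 → Kills T (π l) n

/-- `gr X n` depends only on `H^l(X)`, `2n = l + j + 1`, for all the varieties in the class. -/
def OnlyH (T : MotCoh C) (j : ℕ) : Prop :=
  ∀ (X Y : 𝒱.Obj) (c l : ℕ) (n : ℤ) (γ : C.CH (X.prod Y)), 2 * n = l + j + 1 → F.Codim C c γ →
    F.ZeroOn (W.act γ) (W.gr X l) → Kills T γ n

/-- An isomorphism of the motive `(X, p)`, twisted `s` times, with the motive `(Y, q)`. -/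
structure MotIso (C : ChowTheory.{u, v} 𝒱) (s : ℕ) (X Y : 𝒱.Obj) (p : C.CH (X.prod X))
    (q : C.CH (Y.prod Y)) (f : C.CH (X.prod Y)) (g : C.CH (Y.prod X)) : Prop where
  memf : F.Codim C (X.dim + s) f
  memg : ∃ c, c + s = Y.dim ∧ F.Codim C c g
  left : F.cp C f g = p
  right : F.cp C g f = q

/-- `e X p n` has the formal properties of the quotient in `ℝ^* / ℚ^*`, written additively, of the
leading coefficient of `L(H^l(X, p), s)` at `s = l + 1 - n` and the volume of the regulator on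
`gr (X, p) n`, `2n = l + j + 1`: it is additive, invariant under isomorphisms and Tate twists, and
zero if `H^l(X, p) = 0` or `l < 0`. -/
structure IsVolume {B : Type} [AddCommGroup B] (j : ℕ)
    (e : ∀ X : 𝒱.Obj, C.CH (X.prod X) → ℤ → B) : Prop where
  iso : ∀ (s : ℕ) (X Y : 𝒱.Obj) (p : C.CH (X.prod X)) (q : C.CH (Y.prod Y)) (f : C.CH (X.prod Y))
    (g : C.CH (Y.prod X)) (n : ℤ), F.IsMotive C X p → F.IsMotive C Y q → MotIso C s X Y p q f g →
      e Y q (n + s) = e X p n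
  add : ∀ (X : 𝒱.Obj) (p q : C.CH (X.prod X)) (n : ℤ), F.IsMotive C X p → F.IsMotive C X q →
    F.cp C p q = 0 → F.cp C q p = 0 → e X (p + q) n = e X p n + e X q n
  zero : ∀ (X : 𝒱.Obj) (p : C.CH (X.prod X)) (n : ℤ), F.IsMotive C X p →
    (∀ l : ℕ, 2 * n = l + j + 1 → F.ZeroOn (W.act p) (W.gr X l)) → e X p n = 0

end Pool.Agent.R898.K
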