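import Pool.Agent.R898.HLS

/-!
# Murre's conjecture (B) and the injectivity of the Lefschetz maps: the definitions used in the
# statement
-/

open CategoryTheory CategoryTheory.Limits AlgebraicGeometry
open Pool.Agent.H914 Pool.Agent.H914.VarClass Pool.Agent.H914.VarClass.Obj
open Pool.Agent.R903 Pool.Agent.R898.HL

universe u v w

namespace Pool.Agent.R898.MB

section Alg

variable {A : Type v} [CommRing A] [Algebra ℚ A] {B : Type v} [CommRing B] [Algebra ℚ B]

/-- The multiplication by `x ^ r` is injective on `U`. -/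
def MulInj (x : A) (r : ℕ) (U : Submodule ℚ A) : Prop := ∀ y ∈ U, x ^ r * y = 0 → y = 0

/-- `∑ π j`, `j < r`. -/
def partSum (π : ℕ → A) (r : ℕ) : A := ∑ j ∈ Finset.range r, π j

/-- The image of `U` under `T`. -/
def imageA (T : A →ₗ[ℚ] B) (U : Submodule ℚ A) : Submodule ℚ B := U.map T

/-- The powers `g ∘ ⋯ ∘ g` (`i + 1` factors) for the composition `c`. -/
def pw (c : A → A → A) (g : A) : ℕ → A
  | 0 => g
  | i + 1 => c (pw c g i) g

/-- Some power of `g` for the composition `c` is zero. -/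
def IsNilp (c : A → A → A) (g : A) : Prop := ∃ i, pw c g i = 0

end Alg

variable {k : Type u} [Field k] {𝒱 : VarClass k} {C : ChowTheory.{u, v} 𝒱}
  (W : WeilTheory.{u, v, w} C)

/-- For `i ≤ j`, `i + j = dim X` the multiplication by `D^(j - i)` is injective on `CH^i(X)`. -/
def ChowLefInj (C : ChowTheory.{u, v} 𝒱) (X : 𝒱.Obj) (D : C.CH X) : Prop :=
  ∀ i j : ℕ, i ≤ j → i + j = X.dim → MulInj D (j - i) (C.gr X i)

/-- The homologically trivial correspondences in `CH^(dim X)(X × X)` are nilpotent. -/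
def NilpCorr (X : 𝒱.Obj) : Prop :=
  ∀ γ : C.CH (X.prod X), γ ∈ homTriv W (X.prod X) X.dim → IsNilp (cp C) γ

/-- `π 0, …, π (2 dim X)` is a Chow–Künneth decomposition of `X`: orthogonal idempotents in
`CH^(dim X)(X × X)` with sum the diagonal, such that `π j` acts as the projector to `H^j(X)`. -/
structure IsCKDec (X : 𝒱.Obj) (π : ℕ → C.CH (X.prod X)) : Prop where
  mem : ∀ j, Codim C X.dim (π j)
  orth : OrthSum (cp C) π X.dim (C.diagC X)
  proj : ∀ j, IsProjector (W.gr X) j (W.act (π j))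

/-- The filtration of a decomposition: `F^k CH^i(X)` is the image of `CH^i(X)` under
`π 0 + ⋯ + π (2i - k)`. -/
noncomputable def ckf (C : ChowTheory.{u, v} 𝒱) {X : 𝒱.Obj} (π : ℕ → C.CH (X.prod X))
    (i k : ℕ) : Submodule ℚ (C.CH X) :=
  imageA (C.act (partSum π (2 * i + 1 - k))) (C.gr X i)

/-- Murre's conjecture (B) for `X`. -/
def MurreB (X : 𝒱.Obj) : Prop :=
  ∀ π, IsCKDec W X π → ∀ i, ckf C π i 0 = C.gr X i ∧ ckf C π i (i + 1) = ⊥

/-- Murre's conjectures (A), (B), (C) for `X`. -/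
structure MurreABC (X : 𝒱.Obj) : Prop where
  conjA : ∃ π, IsCKDec W X π
  conjB : MurreB W X
  conjC : ∀ π π', IsCKDec W X π → IsCKDec W X π' → ∀ i k, ckf C π i k = ckf C π' i k

end Pool.Agent.R898.MB
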