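import Pool.Agent.R898.HLS

/-!
# Murre's conjectures, Bloch–Beilinson filtrations and the injectivity of the Lefschetz maps: the
# definitions used in the statement
-/

open CategoryTheory CategoryTheory.Limits AlgebraicGeometry
open Pool.Agent.H914 Pool.Agent.H914.VarClass Pool.Agent.H914.VarClass.Obj
open Pool.Agent.R903 Pool.Agent.R898.HL

universe u v w

namespace Pool.Agent.R898.ML

section Alg

variable {A : Type v} [CommRing A] [Algebra ℚ A] {B : Type v} [CommRing B] [Algebra ℚ B]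
  {K : Type w} [Field K] {H : Type w} [Ring H] [Algebra K H]

/-- The multiplication by `x ^ r` is injective on `U`. -/
def MulInj (x : A) (r : ℕ) (U : Submodule ℚ A) : Prop := ∀ y ∈ U, x ^ r * y = 0 → y = 0

/-- `∑ π j`, `j < r`. -/
def partSum (π : ℕ → A) (r : ℕ) : A := ∑ j ∈ Finset.range r, π j

/-- The image of `U` under `T`. -/
def imageA (T : A →ₗ[ℚ] B) (U : Submodule ℚ A) : Submodule ℚ B := U.map T

/-- The subspaces `F k` form a descending filtration such that `F 0 = U`, such that `F 1` is the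
kernel of `c` on `U`, and such that `F (j + 1) = 0`. -/
structure Descends (U : Submodule ℚ A) (c : A →+* H) (j : ℕ) (F : ℕ → Submodule ℚ A) :
    Prop where
  antitone : ∀ k, F (k + 1) ≤ F k
  zero : F 0 = U
  one : F 1 = nullPart U c
  bot : F (j + 1) = ⊥

/-- `T` maps `F k` to `G k`. -/
def Sends (T : A →ₗ[ℚ] B) (F : ℕ → Submodule ℚ A) (G : ℕ → Submodule ℚ B) : Prop :=
  ∀ k, ∀ x ∈ F k, T x ∈ G k

/-- `T` maps `F k` to `F (k + 1)` if `T'` vanishes on `gr (2j - k)`. -/
def Raises (T : A →ₗ[ℚ] A) (T' : H →ₗ[K] H) (gr : ℕ → Submodule K H) (j : ℕ)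
    (F : ℕ → Submodule ℚ A) : Prop :=
  ∀ k m, m + k = 2 * j → ZeroOn T' (gr m) → ∀ x ∈ F k, T x ∈ F (k + 1)

end Alg

variable {k : Type u} [Field k] {𝒱 : VarClass k} {C : ChowTheory.{u, v} 𝒱}
  (W : WeilTheory.{u, v, w} C)

/-- For `i ≤ j`, `i + j = dim X + 1` the multiplication by `D^(j - i)` is injective on
`CH^i(X)_hom`. -/
def LefInj (X : 𝒱.Obj) (D : C.CH X) : Prop :=
  ∀ i j : ℕ, i ≤ j → i + j = X.dim + 1 → MulInj D (j - i) (homTriv W X i)

/-- `π 0, …, π (2 dim X)` is a Chow–Künneth decomposition of `X`: orthogonal idempotents in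
`CH^(dim X)(X × X)` with sum the diagonal, such that `π j` acts as the projector to `H^j(X)`. -/
structure IsCKDec (X : 𝒱.Obj) (π : ℕ → C.CH (X.prod X)) : Prop where
  mem : ∀ j, Codim C X.dim (π j)
  orth : OrthSum (cp C) π X.dim (C.diagC X)
  proj : ∀ j, IsProjector (W.gr X) j (W.act (π j))

/-- The filtration of a decomposition: `F^k CH^i(X)` is the image of `CH^i(X)` under
`π 0 + ⋯ + π (2i - k)`. -/
noncomputable def ckf (C : ChowTheory.{u, v} 𝒱) {X : 𝒱.Obj} (π : ℕ → C.CH (X.prod X))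
    (i k : ℕ) : Submodule ℚ (C.CH X) :=
  imageA (C.act (partSum π (2 * i + 1 - k))) (C.gr X i)

/-- Murre's conjecture (D) for `X`: for each Chow–Künneth decomposition `F^1 CH^i(X)` is the group of
the homologically trivial classes. -/
def MurreD (X : 𝒱.Obj) : Prop := ∀ π, IsCKDec W X π → ∀ i, ckf C π i 1 = homTriv W X i

/-- Murre's conjectures (A), (B), (C), (D) for `X`. -/
structure Murre (X : 𝒱.Obj) : Prop where
  conjA : ∃ π, IsCKDec W X π
  conjB : ∀ π, IsCKDec W X π → ∀ i, ckf C π i 0 = C.gr X i ∧ ckf C π i (i + 1) = ⊥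
  conjC : ∀ π π', IsCKDec W X π → IsCKDec W X π' → ∀ i k, ckf C π i k = ckf C π' i k
  conjD : MurreD W X

/-- `F X j k = F^k CH^j(X)`, for the varieties of the class `𝒱`, is a **Bloch–Beilinson
filtration**. -/
structure IsBB (F : ∀ X : 𝒱.Obj, ℕ → ℕ → Submodule ℚ (C.CH X)) : Prop where
  descends : ∀ X j, Descends (C.gr X j) (W.cl X) j (F X j)
  sends : ∀ (X Y : 𝒱.Obj) (i j l : ℕ) (Γ : C.CH (X.prod Y)), j + l = i + X.dim →
    Codim C l Γ → Sends (C.act Γ) (F X j) (F Y i)
  raises : ∀ (X : 𝒱.Obj) (j : ℕ) (γ : C.CH (X.prod X)), Codim C X.dim γ →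
    Raises (C.act γ) (W.act γ) (W.gr X) j (F X j)

end Pool.Agent.R898.ML
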