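import Pool.Agent.R898.Basic
import Pool.Agent.R898.CoverDefs
import Pool.Agent.R898.Bil

/-!
# Modification of a correspondence by divisorial correspondences
-/

open CategoryTheory CategoryTheory.Limits AlgebraicGeometry
open Pool.Agent.H914 Pool.Agent.H914.VarClass Pool.Agent.H914.VarClass.Obj
open Pool.Agent.R903

universe u v w

namespace Pool.Agent.R898

variable {k : Type u} [Field k] {𝒱 : VarClass k} {C : ChowTheory.{u, v} 𝒱}
  (W : WeilTheory.{u, v, w} C) {X Y Z S T : 𝒱.Obj}

/-- `π` is a correspondence as in Murre's theorem on surfaces: it acts as the identity on the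
Albanese kernel and as zero on `H^j(S)` for `j ≠ 2`. -/
def IsMurre (W : WeilTheory.{u, v, w} C) (S : 𝒱.Obj) (π : C.CH (S.prod S)) : Prop :=
  π ∈ C.gr (S.prod S) S.dim ∧ (∀ x ∈ albKer C S, C.act π x = x) ∧
    ∀ j, j ≠ 2 → VanishesOn (W.act π) (W.gr S j)

lemma act_ext_coh (y : C.CH X) {z : C.CH Y} {q : ℕ} (hz : z ∈ C.gr Y q) (a : W.H X) :
    W.act (C.ext y z) a = W.tr X (W.cl X y * a) • W.cl Y z := by
  have hz' := W.cl_mem hz
  rw [W.act_apply, ChowTheory.ext, W.cl_mul, W.cl_pull, W.cl_pull, mul_assoc,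
    W.even_comm (W.map_mem _ hz'), ← mul_assoc, ← W.map_mul', W.push_snd]

lemma divSpan_cl {D : C.CH X} (hD : D ∈ C.gr X 1) : W.cl X D ∈ divSpan W X :=
  Submodule.subset_span ⟨D, hD, rfl⟩

lemma divSpan_induction {p : W.H X → Prop} (hcl : ∀ D ∈ C.gr X 1, p (W.cl X D))
    (hadd : ∀ a b, p a → p b → p (a + b)) (hsmul : ∀ (c : W.K) a, p a → p (c • a)) {a : W.H X}
    (ha : a ∈ divSpan W X) : p a := by
  refine Submodule.span_induction (p := fun a _ => p a) ?_ ?_ ?_ ?_ ha
  · rintro _ ⟨D, hD, rfl⟩; exact hcl D hD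
  · have := hsmul 0 _ (hcl 0 (Submodule.zero_mem _))
    rwa [zero_smul] at this
  · intro a b _ _ h h'; exact hadd a b h h'
  · intro c a _ h; exact hsmul c a h

/-- Correspondences map divisors to divisors. -/
lemma coact_divSpan {γ : C.CH (X.prod Y)} (hγ : γ ∈ C.gr (X.prod Y) Y.dim) {b : W.H Y}
    (hb : b ∈ divSpan W Y) : W.coact γ b ∈ divSpan W X := by
  refine divSpan_induction W (p := fun b => W.coact γ b ∈ divSpan W X) ?_ ?_ ?_ hb
  · intro D hD
    rw [coact_cl]
    exact divSpan_cl W (C.act_mem (C.transp_mem hγ) hD (by omega))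
  · intro a b h h'
    rw [coact_add_right]; exact Submodule.add_mem _ h h'
  · intro c a h
    rw [coact_smul]; exact Submodule.smul_mem _ _ h

lemma act_divSpan {γ : C.CH (X.prod Y)} (hγ : γ ∈ C.gr (X.prod Y) X.dim) {a : W.H X}
    (ha : a ∈ divSpan W X) : W.act γ a ∈ divSpan W Y := by
  refine divSpan_induction W (p := fun a => W.act γ a ∈ divSpan W Y) ?_ ?_ ?_ ha
  · intro D hD
    rw [← W.cl_act]
    exact divSpan_cl W (C.act_mem hγ hD (by omega))
  · intro a b h h'
    rw [map_add]; exact Submodule.add_mem _ h h'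
  · intro c a h
    rw [map_smul]; exact Submodule.smul_mem _ _ h

/-- `[Z]^*` maps `H^2` into the span of the divisors if `Z` is a composition one of whose factors
has this property. -/
lemma TwoZero.comp_left {α : C.CH (X.prod Y)} (hα : α ∈ C.gr (X.prod Y) Y.dim)
    {β : C.CH (Y.prod Z)} (h : TwoZero W β) : TwoZero W (C.comp α β) := by
  intro b hb
  rw [coact_comp W hα]
  exact coact_divSpan W hα (h b hb)

lemma TwoZero.comp_right {α : C.CH (X.prod Y)} {p : ℕ} (hα : α ∈ C.gr (X.prod Y) p)
    {β : C.CH (Y.prod Z)} (hβ : β ∈ C.gr (Y.prod Z) Z.dim) (h : TwoZero W α) :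
    TwoZero W (C.comp α β) := by
  intro b hb
  rw [coact_comp W hα]
  exact h _ (coact_memH W hβ hb (by omega))

lemma TwoZero.of_cl {γ : C.CH (X.prod Y)} (h : W.cl _ γ = 0) : TwoZero W γ := by
  intro b _
  rw [WeilTheory.coact, h, zero_mul, map_zero]
  exact Submodule.zero_mem _

/-- An orthogonal basis of the divisors on a surface modulo homological equivalence. -/
theorem exists_divBasis (hNH : NumHom W S) :
    ∃ (n : ℕ) (v : Fin n → C.CH S) (c : Fin n → ℚ), (∀ i, v i ∈ C.gr S 1) ∧
      ∀ D ∈ C.gr S 1, W.cl S D = ∑ i, ((c i * C.deg S (D * v i) : ℚ) : W.K) • W.cl S (v i) := by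
  have := (W.isPoincareAlgebra S).finite
  let B : (C.gr S 1) →ₗ[ℚ] (C.gr S 1) →ₗ[ℚ] ℚ :=
    ((LinearMap.mul ℚ (C.CH S)).compr₂ (C.deg S)).compl₁₂ (C.gr S 1).subtype (C.gr S 1).subtype
  have hB : ∀ x y, B x y = C.deg S ((x : C.CH S) * y) := fun x y => rfl
  obtain ⟨n, v, hv, h⟩ := exists_orth B (fun x y => by rw [hB, hB, mul_comm])
    (Module.finrank W.K (W.H S)) (by
      intro n v hv
      have hli : LinearIndependent W.K (fun i => W.cl S (v i : C.CH S)) := by
        rw [linearIndependent_iff']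
        intro s g hg i hi
        have h1 := congrArg (fun a => W.tr S (a * W.cl S (v i : C.CH S))) hg
        simp only [Finset.sum_mul, map_sum, smul_mul_assoc, map_smul, smul_eq_mul, zero_mul,
          map_zero, ← W.cl_mul, W.tr_cl] at h1
        rw [Finset.sum_eq_single i] at h1
        · have h2 := hv.2 i
          rw [hB] at h2
          have h3 : ((C.deg S ((v i : C.CH S) * v i) : ℚ) : W.K) ≠ 0 := by
            exact_mod_cast h2
          exact (mul_eq_zero.1 h1).resolve_right h3
        · intro j _ hji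
          have h2 := hv.1 j i hji
          rw [hB] at h2
          rw [h2]; simp
        · intro h; exact absurd hi h
      have := hli.fintype_card_le_finrank
      simpa using this)
  refine ⟨n, fun i => (v i : C.CH S), fun i => (B (v i) (v i))⁻¹, fun i => (v i).2, ?_⟩
  intro D hD
  have h1 : W.cl S (D - ∑ i, (B ⟨D, hD⟩ (v i) / B (v i) (v i)) • (v i : C.CH S)) = 0 := by
    apply hNH
    · exact Submodule.sub_mem _ hD (Submodule.sum_mem _ fun i _ => Submodule.smul_mem _ _ (v i).2)
    · intro E hE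
      have := h ⟨D, hD⟩ ⟨E, hE⟩
      rw [hB] at this
      rw [← this]
      congr 2
      simp
  rw [map_sub, sub_eq_zero] at h1
  rw [h1, map_sum]
  refine Finset.sum_congr rfl fun i _ => ?_
  rw [W.cl_smul]
  congr 2
  rw [hB ⟨D, hD⟩ (v i), div_eq_mul_inv, mul_comm]

/-- **Modification**: a correspondence `Z` from a surface `S` to `Y` such that `[Z]^*` maps
`H^2(Y)` to the span of the divisors acts on the Albanese kernel as a correspondence which is
homologically trivial. -/
theorem exists_homTrivial (hP : C.Polarized) (hS : S.dim = 2) (hNH : NumHom W S)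
    {π : C.CH (S.prod S)} (hπ : IsMurre W S π) {Z : C.CH (S.prod Y)}
    (hZ : Z ∈ C.gr (S.prod Y) Y.dim) (h0 : TwoZero W Z) :
    ∃ Z₁ ∈ C.gr (S.prod Y) Y.dim, W.cl _ Z₁ = 0 ∧ ∀ x ∈ albKer C S, C.act Z₁ x = C.act Z x := by
  obtain ⟨n, v, c, hv, hc⟩ := exists_divBasis W hNH
  set P : C.CH (S.prod S) := ∑ i, c i • C.ext (v i) (v i) with hPdef
  have hPmem : P ∈ C.gr (S.prod S) 2 :=
    Submodule.sum_mem _ fun i _ => Submodule.smul_mem _ _ (C.ext_mem (hv i) (hv i))
  have hPact : ∀ x ∈ albKer C S, C.act P x = 0 := by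
    intro x hx
    rw [hPdef, C.act_sum, LinearMap.sum_apply]
    refine Finset.sum_eq_zero fun i _ => ?_
    rw [C.act_smul, LinearMap.smul_apply, act_ext_albKer C hP (by omega) hx (hv i), smul_zero]
  have hPH : ∀ a, W.act P a = ∑ i, ((c i : ℚ) : W.K) • W.tr S (W.cl S (v i) * a) • W.cl S (v i) := by
    intro a
    rw [hPdef, W.act_sum, LinearMap.sum_apply]
    refine Finset.sum_congr rfl fun i _ => ?_
    rw [W.act_smul, LinearMap.smul_apply, act_ext_coh W _ (hv i)]
  set Z' : C.CH (S.prod Y) := C.comp π Z with hZ'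
  have hZ'mem : Z' ∈ C.gr (S.prod Y) Y.dim := C.comp_mem hπ.1 hZ (by omega)
  have hZ'0 : TwoZero W Z' := h0.comp_left W hπ.1
  have hPZ : C.comp P Z' ∈ C.gr (S.prod Y) Y.dim := C.comp_mem hPmem hZ'mem (by omega)
  have hZ'act : ∀ a, W.act Z' a = W.act Z (W.act π a) := fun a => W.act_comp _ hZ a
  refine ⟨Z' - C.comp P Z', Submodule.sub_mem _ hZ'mem hPZ, ?_, ?_⟩
  · apply cl_eq_zero_of_act
    apply gr_ext (W.isInternal S)
    intro j a ha
    rw [W.act_sub, LinearMap.sub_apply, W.act_comp _ hZ'mem, ← map_sub, LinearMap.zero_apply]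
    by_cases hj : j = 2
    · subst hj
      have hPa : W.act P a ∈ W.gr S 2 := act_memH W hPmem ha (by omega)
      have horth : ∀ D ∈ C.gr S 1, W.tr S (W.cl S D * (a - W.act P a)) = 0 := by
        intro D hD
        rw [mul_sub, map_sub, hPH, Finset.mul_sum, map_sum, sub_eq_zero]
        conv_lhs => rw [hc D hD]
        rw [Finset.sum_mul, map_sum]
        refine Finset.sum_congr rfl fun i _ => ?_
        simp only [smul_mul_assoc, mul_smul_comm, map_smul, smul_eq_mul, ← W.cl_mul, W.tr_cl]
        push_cast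
        ring
      have horth' : ∀ b ∈ divSpan W S, W.tr S (b * (a - W.act P a)) = 0 := by
        intro b hb
        refine divSpan_induction W (p := fun b => W.tr S (b * (a - W.act P a)) = 0) horth ?_ ?_ hb
        · intro b b' h h'; rw [add_mul, map_add, h, h', add_zero]
        · intro c b h; rw [smul_mul_assoc, map_smul, h, smul_zero]
      apply W.nondeg
      intro b
      refine gr_induction (W.isInternal Y) (p := fun b =>
        W.tr Y (W.act Z' (a - W.act P a) * b) = 0) ?_ ?_ b
      · intro m b hb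
        by_cases hm : m = 2
        · subst hm
          rw [tr_act_coact W (p := 1) _ hb]
          exact horth' _ (hZ'0 b hb)
        · rw [tr_act]
          exact W.tr_eq_zero (W.mul_mem (W.cl_mem hZ'mem)
            (W.mul_mem (W.map_mem _ (Submodule.sub_mem _ ha hPa)) (W.map_mem _ hb)))
            (by rw [dim_prod]; omega)
      · intro b b' h h'
        rw [mul_add, map_add, h, h', add_zero]
    · have hPa : W.act P a ∈ W.gr S j := act_memH W hPmem ha (by omega)
      rw [hZ'act, map_sub, hπ.2.2 j hj a ha, hπ.2.2 j hj _ hPa, sub_zero, map_zero]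
  · intro x hx
    rw [C.act_sub, LinearMap.sub_apply, C.act_comp, C.act_comp, hPact x hx, map_zero, sub_zero,
      hπ.2.1 x hx]

end Pool.Agent.R898
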