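import Pool.Agent.R898.PInv
import Pool.Agent.R898.Symm

/-!
# Cells of elementary varieties
-/

open CategoryTheory CategoryTheory.Limits AlgebraicGeometry
open Pool.Agent.H914 Pool.Agent.H914.VarClass Pool.Agent.H914.VarClass.Obj
open Pool.Agent.R903

universe u v w

namespace Pool.Agent.R898.P

variable {k : Type u} [Field k] {𝒱 : VarClass k} {C : ChowTheory.{u, v} 𝒱}
  (W : WeilTheory.{u, v, w} C) {X Y Z G P : 𝒱.Obj}

lemma powMem {D : C.CH X} (hD : D ∈ C.gr X 1) (i : ℕ) : D ^ i ∈ C.gr X i :=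
  Pool.Agent.R898.G.pow_mem hD i

lemma subComp {α α' : C.CH (X.prod Y)} (β : C.CH (Y.prod Z)) :
    C.comp (α - α') β = C.comp α β - C.comp α' β := by
  have h := C.add_comp (α - α') α' β
  rw [sub_add_cancel] at h
  rw [h, add_sub_cancel_right]

lemma compSub (α : C.CH (X.prod Y)) {β β' : C.CH (Y.prod Z)} :
    C.comp α (β - β') = C.comp α β - C.comp α β' := by
  have h := C.comp_add α (β - β') β'
  rw [sub_add_cancel] at h
  rw [h, add_sub_cancel_right]

include W in
lemma deg_zero {x : C.CH X} {i : ℕ} (hx : x ∈ C.gr X i) (hi : i ≠ X.dim) : C.deg X x = 0 := by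
  have h := W.tr_cl x
  rw [W.tr_eq_zero (W.cl_mem hx) (by omega)] at h
  exact_mod_cast h.symm

include W in
lemma deg_pow {D : C.CH G} (hD : D ∈ C.gr G 1) {i : ℕ} (hi : i ≠ G.dim) :
    C.deg G (D ^ i) = 0 :=
  deg_zero W (powMem hD i) hi

lemma graph_comp (f : X ⟶ Y) (β : C.CH (Y.prod Z)) :
    C.comp (C.graph f) β = C.pull (prodMap f (𝟙 Z)) β := by
  have h1 : C.pull (p12 X Y Z) (C.push (lift (𝟙 X) f) 1) =
      C.push (lift (fst X Z) (prodMap f (𝟙 Z))) (C.pull (fst X Z) 1) := by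
    refine C.base_change (T := Z) (lift (𝟙 X) f) (lift (fst X Z) (prodMap f (𝟙 Z))) (fst X Z)
      (p12 X Y Z) (snd X _ ≫ snd Y Z) ?_ isIso_assoc ?_ 1
    · apply hom_ext_prod <;> simp
    · have : lift (fst X Z) (prodMap f (𝟙 Z)) ≫ snd X (Y.prod Z) ≫ snd Y Z = snd X Z := by simp
      rw [this]; exact isIso_lift_fst_snd
  rw [ChowTheory.comp, ChowTheory.graph, ChowTheory.span, h1, ← C.push_mul, ← C.push_comp,
    ← C.pull_comp, map_one, one_mul, lift_snd]
  have : lift (fst X Z) (prodMap f (𝟙 Z)) ≫ p13 X Y Z = 𝟙 _ := by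
    apply hom_ext_prod <;> simp
  rw [this, C.push_id]

lemma graph_comp_cograph (f : X ⟶ Y) :
    C.comp (C.graph f) (C.cograph f) = C.pull (prodMap f f) (C.diagC Y) := by
  have h1 : C.cograph f = C.pull (prodMap (𝟙 Y) f) (C.diagC Y) := by
    have h2 : C.transp (C.comp (C.graph f) (C.diagC Y)) =
        C.transp (C.pull (prodMap f (𝟙 Y)) (C.diagC Y)) := by rw [graph_comp]
    rw [C.comp_diagC, transp_graph] at h2
    rw [h2, ChowTheory.transp, ← C.pull_comp]
    have h3 : C.pull (prodMap (𝟙 Y) f) (C.diagC Y) =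
        C.pull (prodMap (𝟙 Y) f) (C.transp (C.diagC Y)) := by rw [C.transp_diagC]
    rw [h3, ChowTheory.transp, ← C.pull_comp]
    have h4 : swap Y X ≫ prodMap f (𝟙 Y) = prodMap (𝟙 Y) f ≫ swap Y Y := by
      apply hom_ext_prod <;> simp
    rw [h4]
  rw [graph_comp, h1, ← C.pull_comp]
  have : prodMap f (𝟙 X) ≫ prodMap (𝟙 Y) f = prodMap f f := by
    apply hom_ext_prod <;> simp
  rw [this]

/-- the data of an elementary variety -/
structure Datum (C : ChowTheory.{u, v} 𝒱) (G : 𝒱.Obj) (D : C.CH G) : Prop where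
  mem : D ∈ C.gr G 1
  deg : C.deg G (D ^ G.dim) ≠ 0

/-- the cells -/
noncomputable def cell (C : ChowTheory.{u, v} 𝒱) {G : 𝒱.Obj} (D : C.CH G) (j : ℕ) :
    C.CH (G.prod G) :=
  (C.deg G (D ^ G.dim))⁻¹ • C.ext (D ^ (G.dim - j)) (D ^ j)

lemma cell_mem {D : C.CH G} (hD : Datum C G D) {j : ℕ} (hj : j ≤ G.dim) :
    cell C D j ∈ C.gr (G.prod G) G.dim := by
  have h := C.ext_mem (powMem hD.mem (G.dim - j)) (powMem hD.mem j)
  have e : G.dim - j + j = G.dim := by omega
  rw [e] at h
  exact Submodule.smul_mem _ _ h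

include W in
lemma act_ext_pow {D : C.CH G} (hD : Datum C G D) {H : 𝒱.Obj} (E : C.CH H) {i j : ℕ}
    (hj : j ≤ G.dim) (hi : i ≤ G.dim) :
    C.act (C.ext (D ^ (G.dim - j)) E) (D ^ i) =
      if i = j then C.deg G (D ^ G.dim) • E else 0 := by
  rw [C.act_ext, ← pow_add]
  split_ifs with h
  · subst h
    have e : i + (G.dim - i) = G.dim := by omega
    rw [e]
  · rw [deg_pow W hD.mem (by omega), zero_smul]


include W in
lemma ext_comp_ext {D : C.CH G} (hD : Datum C G D) {H K : 𝒱.Obj} (E : C.CH H) (E' : C.CH K)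
    {i j : ℕ} (hj : j ≤ G.dim) (hi : i ≤ G.dim) :
    C.comp (C.ext E (D ^ i)) (C.ext (D ^ (G.dim - j)) E') =
      if i = j then C.deg G (D ^ G.dim) • C.ext E E' else 0 := by
  rw [comp_ext, act_ext_pow W hD E' hj hi]
  split_ifs
  · rw [ChowTheory.ext, ChowTheory.ext, map_smul, mul_smul_comm]
  · rw [ChowTheory.ext, map_zero, mul_zero]

include W in
lemma cell_comp {D : C.CH G} (hD : Datum C G D) {i j : ℕ} (hj : j ≤ G.dim) (hi : i ≤ G.dim) :
    C.comp (cell C D i) (cell C D j) = if i = j then cell C D j else 0 := by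
  rw [cell, cell, C.smul_comp, C.comp_smul, ext_comp_ext W hD _ _ hj hi]
  split_ifs with h
  · subst h
    rw [inv_smul_smul₀ hD.deg]
  · rw [smul_zero, smul_zero]

/-- the sum of the cells -/
noncomputable def tate (C : ChowTheory.{u, v} 𝒱) {G : 𝒱.Obj} (D : C.CH G) : C.CH (G.prod G) :=
  ∑ j ∈ Finset.range (G.dim + 1), cell C D j

/-- the middle part -/
noncomputable def mid (C : ChowTheory.{u, v} 𝒱) {G : 𝒱.Obj} (D : C.CH G) : C.CH (G.prod G) :=
  C.diagC G - tate C D

include W in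
lemma orth_cell {D : C.CH G} (hD : Datum C G D) :
    Orth C G (Finset.range (G.dim + 1)) (cell C D) where
  mot i hi := by
    rw [Finset.mem_range] at hi
    exact ⟨cell_mem hD (by omega), by rw [cell_comp W hD (by omega) (by omega), if_pos rfl]⟩
  orth i hi j hj hij := by
    rw [Finset.mem_range] at hi hj
    rw [cell_comp W hD (by omega) (by omega), if_neg hij]

include W in
lemma mot_tate {D : C.CH G} (hD : Datum C G D) : Mot C G (tate C D) := (orth_cell W hD).sum.1

include W in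
lemma mid_comp_tate {D : C.CH G} (hD : Datum C G D) : C.comp (mid C D) (tate C D) = 0 := by
  rw [mid, subComp, C.diagC_comp, (mot_tate W hD).idem, sub_self]

include W in
lemma tate_comp_mid {D : C.CH G} (hD : Datum C G D) : C.comp (tate C D) (mid C D) = 0 := by
  rw [mid, compSub, C.comp_diagC, (mot_tate W hD).idem, sub_self]

include W in
lemma mot_mid {D : C.CH G} (hD : Datum C G D) : Mot C G (mid C D) := by
  refine ⟨Submodule.sub_mem _ (C.diagC_mem G) (mot_tate W hD).mem, ?_⟩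
  have h : C.comp (mid C D) (mid C D) =
      C.comp (mid C D) (C.diagC G) - C.comp (mid C D) (tate C D) :=
    compSub (mid C D)
  rw [h, mid_comp_tate W hD, C.comp_diagC, sub_zero]

lemma mid_add_tate {D : C.CH G} : mid C D + tate C D = C.diagC G := by
  rw [mid, sub_add_cancel]

/-- the correspondence between the Tate parts -/
noncomputable def link (C : ChowTheory.{u, v} 𝒱) {G P : 𝒱.Obj} (D : C.CH G) (E : C.CH P) :
    C.CH (G.prod P) :=
  ∑ j ∈ Finset.range (G.dim + 1), (C.deg G (D ^ G.dim))⁻¹ • C.ext (D ^ (G.dim - j)) (E ^ j)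

lemma link_mem {D : C.CH G} (hD : Datum C G D) {E : C.CH P} (hE : Datum C P E) :
    link C D E ∈ C.gr (G.prod P) G.dim := by
  refine Submodule.sum_mem _ fun j hj => ?_
  rw [Finset.mem_range] at hj
  have h := C.ext_mem (powMem hD.mem (G.dim - j)) (powMem hE.mem j)
  have e : G.dim - j + j = G.dim := by omega
  rw [e] at h
  exact Submodule.smul_mem _ _ h

include W in
lemma link_comp {D : C.CH G} {E : C.CH P} (hE : Datum C P E) (hdim : P.dim = G.dim) :
    C.comp (link C D E) (link C E D) = tate C D := by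
  rw [link, link, C.sum_comp, tate]
  refine Finset.sum_congr rfl fun i hi => ?_
  rw [Finset.mem_range] at hi
  rw [C.comp_sum, Finset.sum_eq_single i]
  · rw [C.smul_comp, C.comp_smul, ext_comp_ext W hE _ _ (by omega) (by omega), if_pos rfl, cell,
      inv_smul_smul₀ hE.deg]
  · intro j hj hij
    rw [Finset.mem_range] at hj
    rw [C.smul_comp, C.comp_smul, ext_comp_ext W hE _ _ (by omega) (by omega),
      if_neg (Ne.symm hij), smul_zero, smul_zero]
  · intro h
    exact absurd (Finset.mem_range.2 (by omega)) h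

include W in
/-- the Tate part of the motive is that of a projective space -/
lemma twistIso_tate {D : C.CH G} (hD : Datum C G D) {E : C.CH P} (hE : Datum C P E)
    (hdim : P.dim = G.dim) : TwistIso C 0 G P (tate C D) (tate C E) :=
  ⟨link C D E, link C E D, P.dim, link_mem hD hE, link_mem hE hD, rfl,
    link_comp W hE hdim, link_comp W hD hdim.symm⟩

/-- `U` is like a point -/
structure IsUnit' (C : ChowTheory.{u, v} 𝒱) (U : 𝒱.Obj) : Prop where
  dim : U.dim = 0
  deg : C.deg U 1 = 1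
  diag : C.diagC U = 1

lemma isUnit_of_isProj {U : 𝒱.Obj} (h : Pool.Agent.R898.G.IsProj C 0 U) : IsUnit' C U := by
  obtain ⟨hd, h, hc⟩ := h
  refine ⟨hd, ?_, ?_⟩
  · have := hc.deg_pow
    rwa [pow_zero] at this
  · have := hc.diag
    simpa using this

lemma ext_one_one {U : 𝒱.Obj} : C.ext (1 : C.CH U) (1 : C.CH X) = 1 := by
  simp [ChowTheory.ext]

include W in
/-- the cells are twists of the motive of the point -/
lemma twistIso_cell {U : 𝒱.Obj} (hU : IsUnit' C U) {D : C.CH G} (hD : Datum C G D) {j : ℕ}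
    (hj : j ≤ G.dim) : TwistIso C j U G (C.diagC U) (cell C D j) := by
  refine ⟨C.ext 1 (D ^ j), (C.deg G (D ^ G.dim))⁻¹ • C.ext (D ^ (G.dim - j)) 1, G.dim - j, ?_, ?_,
    by omega, ?_, ?_⟩
  · have h := C.ext_mem (C.one_mem U) (powMem hD.mem j)
    rwa [hU.dim]
  · exact Submodule.smul_mem _ _ (C.ext_mem (powMem hD.mem _) (C.one_mem U))
  · rw [C.comp_smul, ext_comp_ext W hD _ _ hj hj, if_pos rfl, inv_smul_smul₀ hD.deg, ext_one_one,
      hU.diag]
  · rw [C.smul_comp, comp_ext, C.act_ext, mul_one, hU.deg, one_smul, cell]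

lemma twistIso_prod_unit {U : 𝒱.Obj} (hU : IsUnit' C U) (X : 𝒱.Obj) :
    TwistIso C 0 (X.prod U) X (C.diagC (X.prod U)) (C.diagC X) := by
  refine ⟨C.graph (fst X U), C.cograph (fst X U), X.dim, ?_, C.cograph_mem _, rfl, ?_, ?_⟩
  · rw [dim_prod, hU.dim]
    exact C.graph_mem (fst X U)
  · rw [graph_comp_cograph, ← C.tensor_diagC, ChowTheory.tensor, hU.diag, map_one, mul_one]
  · rw [cograph_comp_graph_self (a := 1) (by
      have h := Pool.Agent.R898.G.push_fst_pull_snd (C := C) (X := X) (P := U) 1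
      rwa [map_one, hU.deg] at h), one_smul]

lemma datum_of_isProj {s : ℕ} (h : Pool.Agent.R898.G.IsProj C s P) :
    P.dim = s ∧ ∃ E, Datum C P E ∧ tate C E = C.diagC P := by
  obtain ⟨hs, h, hc⟩ := h
  have h1 : C.deg P (h ^ P.dim) = 1 := by rw [hs]; exact hc.deg_pow
  refine ⟨hs, h, ⟨hc.mem, by rw [h1]; exact one_ne_zero⟩, ?_⟩
  rw [tate, hc.diag, hs, ← Finset.sum_range_reflect]
  refine Finset.sum_congr rfl fun j hj => ?_
  rw [Finset.mem_range] at hj
  have e1 : s + 1 - 1 - j = s - j := by omega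
  have e2 : s - (s - j) = j := by omega
  rw [cell, h1, inv_one, one_smul, hs, e1, ChowTheory.ext, e2]

end Pool.Agent.R898.P
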