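import Pool.Agent.R898.HIS

/-!
# Beilinson's conjectures on height pairings in the middle dimension: the definitions used in the
# statement
-/

open CategoryTheory CategoryTheory.Limits AlgebraicGeometry
open Pool.Agent.H914 Pool.Agent.H914.VarClass Pool.Agent.H914.VarClass.Obj
open Pool.Agent.R903 Pool.Agent.R898.HL

universe u v w

namespace Pool.Agent.R898.PD

/-- The set `I` has arbitrarily large elements. -/
def Unbounded (I : Set ℕ) : Prop := ∀ n, ∃ i ∈ I, n ≤ i

/-- `0 < d(x ^ r)`. -/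
def PosDeg {A : Type v} [CommRing A] [Algebra ℚ A] (d : A →ₗ[ℚ] ℚ) (x : A) (r : ℕ) : Prop :=
  0 < d (x ^ r)

variable {k : Type u} [Field k] {𝒱 : VarClass k} {C : ChowTheory.{u, v} 𝒱}
  (W : WeilTheory.{u, v, w} C)

/-- `P a` is a variety of dimension `a` with a divisor class `h a` with `deg (h a)^a > 0` (for
example the projective space and the class of a hyperplane), and the class `S` of pairs `(X, D)` of a
variety and a divisor class is closed under the products with the `(P a, h a)`. -/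
structure IsStable (C : ChowTheory.{u, v} 𝒱) (S : ∀ X : 𝒱.Obj, C.CH X → Prop) (P : ℕ → 𝒱.Obj)
    (h : ∀ a, C.CH (P a)) : Prop where
  memS : ∀ X D, S X D → Codim C 1 D
  dim_eq : ∀ a, (P a).dim = a
  memh : ∀ a, Codim C 1 (h a)
  pos : ∀ a, PosDeg (C.deg (P a)) (h a) a
  prod : ∀ X D a, S X D → S (X.prod (P a)) (sumClass C D (h a))

/-- For the pairs `(X, D)` in `S` with `dim X = 2i`, `i ∈ I`, the multiplication by `D` is injective
on `CH^i(X)_hom`. -/
def InjAt (S : ∀ X : 𝒱.Obj, C.CH X → Prop) (I : Set ℕ) : Prop :=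
  ∀ X D, ∀ i ∈ I, S X D → X.dim = 2 * i → MulInj D 1 (homTriv W X i)

/-- For the pairs `(X, D)` in `S` with `dim X = 2i`, `i ∈ I`, the multiplication by `D` maps
`CH^i(X)_hom` onto `CH^(i+1)(X)_hom`. -/
def SurjAt (S : ∀ X : 𝒱.Obj, C.CH X → Prop) (I : Set ℕ) : Prop :=
  ∀ X D, ∀ i ∈ I, S X D → X.dim = 2 * i → MulSurj D 1 (homTriv W X i) (homTriv W X (i + 1))

/-- For the pairs `(X, D)` in `S` with `dim X = 2i - 1`, `i ∈ I`, and the nonzero `x` in
`CH^i(X)_hom` with `D x = 0` the number `(-1)^i (x, x)` is positive. -/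
def PosAt (ht : ∀ X : 𝒱.Obj, C.CH X → C.CH X → ℝ) (S : ∀ X : 𝒱.Obj, C.CH X → Prop)
    (I : Set ℕ) : Prop :=
  ∀ X D, ∀ i ∈ I, S X D → X.dim + 1 = 2 * i → Positive (ht X) D 0 i (homTriv W X i)

end Pool.Agent.R898.PD
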