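import Pool.Agent.R898.PES
import Pool.Agent.R898.PDM

/-!
# The Abel–Jacobi map, one step of the Lefschetz operator and primitive cycles
-/

open CategoryTheory CategoryTheory.Limits AlgebraicGeometry
open Pool.Agent.H914 Pool.Agent.H914.VarClass Pool.Agent.H914.VarClass.Obj
open Pool.Agent.R903 Pool.Agent.R898.HL Pool.Agent.R898.AK Pool.Agent.R898.PD

universe u v w

namespace Pool.Agent.R898.PE

variable {k : Type u} [Field k] {𝒱 : VarClass k} {C : ChowTheory.{u, v} 𝒱}
  {W : WeilTheory.{u, v, w} C} {X Y Z : 𝒱.Obj} {T : AJMap W}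

section Products

variable {D : C.CH X} {E : C.CH Z}

lemma mul_pull_ajKer {ω : C.CH (X.prod Z)} {e i : ℕ} (hω : ω ∈ C.gr (X.prod Z) e) {x : C.CH X}
    (hx : x ∈ ajKer T X i) : ω * C.pull (fst X Z) x ∈ ajKer T (X.prod Z) (i + e) := by
  rw [← act_om]
  refine act_ajKer (C.span_mem (q := e + X.dim) _ _ hω ?_) hx (by omega)
  rw [dim_prod]; omega

lemma kerA (hD : D ∈ C.gr X 1) (hE : E ∈ C.gr Z 1)
    (hδ : C.deg Z (E ^ Z.dim) ≠ 0) {i a : ℕ}
    (h : MulInj (sumClass C D E) (a + Z.dim) (ajKer T (X.prod Z) i)) :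
    MulInj D a (ajKer T X i) := by
  intro x hx h0
  obtain ⟨R, hR, hR1, -⟩ := pow_split W hD hE a
  have h1 : C.pull (fst X Z) x = 0 := by
    refine h _ ?_ ?_
    · have := mul_pull_ajKer (T := T) (C.one_mem (X.prod Z)) hx
      rwa [one_mul, add_zero] at this
    · rw [hR1, mul_assoc, mul_left_comm, ← C.pull_mul, h0, map_zero, mul_zero]
  have h2 := push_mono W hE x Z.dim
  rw [if_pos rfl, h1, zero_mul, map_zero] at h2
  exact (smul_eq_zero.1 h2.symm).resolve_left hδ

lemma kerB (hD : D ∈ C.gr X 1) (hE : E ∈ C.gr Z 1)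
    (hδ : C.deg Z (E ^ Z.dim) ≠ 0) {i : ℕ}
    (h : MulInj (sumClass C D E) 1 (ajKer T (X.prod Z) (i + Z.dim))) :
    MulInj D (Z.dim + 1) (ajKer T X i) := by
  intro x hx h0
  have h1 : om C D E Z.dim * C.pull (fst X Z) x = 0 := by
    refine h _ (mul_pull_ajKer (om_mem hD hE _) hx) ?_
    rw [pow_one, om_prim hE, neg_pow, mul_assoc, h0, mul_zero, map_zero, neg_zero]
  have h2 := push_om_mul (D := D) W hE x
  rw [h1, map_zero] at h2
  exact (smul_eq_zero.1 h2.symm).resolve_left hδ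

end Products

section Classes

variable {S : ∀ X : 𝒱.Obj, C.CH X → Prop} {P : ℕ → 𝒱.Obj} {h : ∀ a, C.CH (P a)} {I J : Set ℕ}
  {D : C.CH X}

theorem ker_pow_inj (hS : IsStable C S P h) (hI : Unbounded I) (hi : AJPrimAt T S I)
    (hX : S X D) {i a : ℕ} (hia : 2 * i + a = X.dim + 1) : MulInj D (a + 1) (ajKer T X i) := by
  obtain ⟨i', hi', hle⟩ := hI (i + a)
  obtain ⟨c, rfl⟩ : ∃ c, i' = i + a + c := ⟨i' - (i + a), by omega⟩
  have hc := hS.dim_eq c
  have hac := hS.dim_eq (a + c)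
  have h1 := hS.prod X D c hX
  have h2 := hS.prod _ _ (a + c) h1
  have h3 := hi _ _ (i + a + c) hi' h2 (by simp only [dim_prod]; omega)
  refine kerA (E := h c) (hS.memS X D hX) (hS.memh c) (hS.deg_pos c).ne' ?_
  have h4 := kerB (T := T) (i := i) (hS.memS _ _ h1) (hS.memh (a + c)) (hS.deg_pos (a + c)).ne' (by
    rw [hac, show i + (a + c) = i + a + c by omega]
    intro y hy hy0
    rw [pow_one] at hy0
    exact h3 y hy.1 hy0 hy.2)
  rw [hc]
  rwa [hac, show a + c + 1 = a + 1 + c by omega] at h4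

/-- the kernel of the Abel–Jacobi map is zero -/
theorem ajKer_eq_bot (hP : C.Polarized) (hD : D ∈ C.gr X 1) (hL : LefSurj W X D)
    (hT : AJLef T X D)
    (hK : ∀ i a : ℕ, 2 * i + a = X.dim + 1 → MulInj D (a + 1) (ajKer T X i)) (m : ℕ) :
    ajKer T X m = ⊥ := by
  have low : ∀ i : ℕ, 2 * i ≤ X.dim + 1 → ajKer T X i = ⊥ := by
    intro i
    induction i with
    | zero =>
      intro _
      rw [eq_bot_iff]
      intro x hx
      exact (Submodule.mem_bot _).2 (homTriv_zero hP hx.1)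
    | succ i ih =>
      intro hi
      obtain ⟨a, ha⟩ : ∃ a, 2 * (i + 1) + a = X.dim + 1 := ⟨X.dim + 1 - 2 * (i + 1), by omega⟩
      rw [eq_bot_iff]
      intro x hx
      rw [Submodule.mem_bot]
      refine hK (i + 1) a ha x hx ?_
      have hm : C.lef (D ^ (a + 1)) ∈ C.gr (X.prod X) (a + 1 + X.dim) := by
        rw [lef_eq]
        exact C.span_mem _ _ (pow_mem hD _) (by omega)
      have h1 : D ^ (a + 1) * x ∈ ajKer T X (i + a + 2) := by
        have := act_ajKer (n := i + a + 2) hm hx (by omega)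
        rwa [act_lef] at this
      obtain ⟨y, hy, hy'⟩ := hL i (i + a + 2) (by omega) (by omega) _ h1.1
      have h2 : T.aj X i y = 0 := by
        refine hT i (i + a + 2) (by omega) (by omega) y hy ?_
        rw [hy']; exact h1.2
      have h3 : y ∈ ajKer T X i := ⟨hy, h2⟩
      rw [ih (by omega), Submodule.mem_bot] at h3
      rw [← hy', h3, mul_zero]
  by_cases hm : 2 * m ≤ X.dim + 1
  · exact low m hm
  rw [eq_bot_iff]
  intro x hx
  rw [Submodule.mem_bot]
  by_cases hm' : X.dim < m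
  · have := hx.1.1
    rwa [C.gr_eq_bot X _ hm', Submodule.mem_bot] at this
  obtain ⟨y, hy, hy'⟩ := hL (X.dim + 1 - m) m (by omega) (by omega) x hx.1
  have h2 : T.aj X (X.dim + 1 - m) y = 0 := by
    refine hT (X.dim + 1 - m) m (by omega) (by omega) y hy ?_
    rw [hy']; exact hx.2
  have h3 : y ∈ ajKer T X (X.dim + 1 - m) := ⟨hy, h2⟩
  rw [low _ (by omega), Submodule.mem_bot] at h3
  rw [← hy', h3, mul_zero]

/-- the Lefschetz standard conjecture gives the hard Lefschetz theorem for the target -/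
lemma ajLef_of_lefStd (hP : C.Polarized) (hD : LefStd W X D) : AJLef T X D := by
  intro i j hij hj y hy h0
  rcases Nat.eq_zero_or_pos i with hi | hi
  · subst hi
    rw [homTriv_zero hP hy, map_zero]
  obtain ⟨hD1, hD2⟩ := hD
  change D ∈ C.gr X 1 at hD1
  obtain ⟨Λ, hΛ, hinv⟩ := hD2 (2 * i - 1) (by omega)
  change Λ ∈ C.gr _ _ at hΛ
  have hm : C.lef (D ^ (j - i)) ∈ C.gr (X.prod X) (j - i + X.dim) := by
    rw [lef_eq]
    exact C.span_mem _ _ (pow_mem hD1 _) (by omega)
  have hγ : C.comp (C.lef (D ^ (j - i))) Λ - C.diagC X ∈ C.gr (X.prod X) X.dim :=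
    Submodule.sub_mem _ (C.comp_mem hm hΛ (by omega)) (C.diagC_mem X)
  obtain ⟨S, hS, hS0⟩ := T.functorial X X i i X.dim _ rfl hγ
  have h1 : S = 0 := by
    refine hS0 (2 * i - 1) (by omega) fun v hv => ?_
    rw [W.act_sub, LinearMap.sub_apply, W.act_comp _ hΛ, W.act_diagC, wact_lef, map_pow,
      show j - i = X.dim - (2 * i - 1) by omega, hinv.left v hv, sub_self]
  have h2 := hS y hy
  rw [h1, LinearMap.zero_apply, C.act_sub, LinearMap.sub_apply, C.act_diagC, C.act_comp, act_lef,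
    map_sub, sub_eq_zero] at h2
  rw [← h2]
  have h3 : D ^ (j - i) * y ∈ ajKer T X j := by
    refine ⟨?_, h0⟩
    have := mul_homTriv (pow_mem hD1 (j - i)) hy
    rwa [show j - i + i = j by omega] at this
  exact (act_ajKer (n := i) hΛ h3 (by omega)).2

lemma onlyOdd_of_ajInj' (h : ∀ m : ℕ, AJInj T Y m) : OnlyOdd W X Y := by
  intro c m γ hγ h0 x hx
  change γ ∈ C.gr _ c at hγ
  by_cases hle : X.dim ≤ m + 1 + c
  · obtain ⟨S, hS, hS0⟩ := T.functorial X Y (m + 1 + c - X.dim) (m + 1) c γ (by omega) hγ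
    have h1 : S = 0 := by
      refine hS0 (2 * m + 1) (by ring) fun v hv => h0 v hv
    refine h (m + 1 + c - X.dim) _ (act_homTriv hγ hx (by omega)) ?_
    rw [hS x hx, h1, LinearMap.zero_apply]
  · exact C.act_eq_zero hγ hx.1 (by omega)

theorem main (hP : C.Polarized) (T : AJMap W) (hS : IsStable C S P h) (hI : Unbounded I)
    (hJ : Unbounded J) :
    ((∀ X D, S X D → AJLef T X D) → ((∀ X D, S X D → ArithLef W X D ∧ ∀ m, AJInj T X m) ↔
        SurjAt W S I ∧ AJPrimAt T S J)) ∧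
      ((∀ X D, S X D → LefStd W X D) → ((∀ X D, S X D → ∀ m, AJInj T X m) ↔
        SurjAt W S I ∧ AJPrimAt T S J)) := by
  have key : (∀ X D, S X D → AJLef T X D) → ((∀ X D, S X D → ArithLef W X D ∧ ∀ m, AJInj T X m) ↔
        SurjAt W S I ∧ AJPrimAt T S J) := by
    intro hT
    constructor
    · intro H
      refine ⟨fun X D i _ hX hd => ?_, fun X D i _ hX _ x hx _ h0 => (H X D hX).2 i x hx h0⟩
      have := ((arithLef_iff_halves (hS.memS X D hX)).1 (H X D hX).1).2 i (i + 1) (by omega)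
        (by omega)
      rwa [show i + 1 - i = 1 by omega] at this
    · rintro ⟨H1, H2⟩ X D hX
      have hL := lefSurj_of_surjAt hS hI H1 hX
      have hinj : ∀ m, AJInj T X m := fun m => ajInj_iff.2
        (ajKer_eq_bot hP (hS.memS X D hX) hL (hT X D hX)
          (fun i a hia => ker_pow_inj hS hJ H2 hX hia) m)
      refine ⟨(arithLef_iff_halves (hS.memS X D hX)).2 ⟨fun i j hij hj y hy h0 => ?_, hL⟩, hinj⟩
      refine hinj i y hy (hT X D hX i j hij hj y hy ?_)
      rw [h0, map_zero]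
  refine ⟨key, fun hstd => ?_⟩
  rw [← key fun X D hX => ajLef_of_lefStd hP (hstd X D hX)]
  exact ⟨fun H X D hX => ⟨arithLef_of_onlyOdd hP (onlyOdd_of_ajInj' (H X D hX)) (hstd X D hX),
    H X D hX⟩, fun H X D hX => (H X D hX).2⟩

end Classes

end Pool.Agent.R898.PE
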