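import Pool.Agent.R898.AKS
import Pool.Agent.R898.PDS

/-!
# The Abel–Jacobi map, one step of the Lefschetz operator and primitive cycles: the definitions used
# in the statement
-/

open CategoryTheory CategoryTheory.Limits AlgebraicGeometry
open Pool.Agent.H914 Pool.Agent.H914.VarClass Pool.Agent.H914.VarClass.Obj
open Pool.Agent.R903 Pool.Agent.R898.HL Pool.Agent.R898.AK

universe u v w

namespace Pool.Agent.R898.PE

/-- If `a' (x ^ r * y) = 0` for a `y` in `U` then `a y = 0`. -/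
def Reflects {A : Type v} [CommRing A] [Algebra ℚ A] {J : Type v} [AddCommGroup J] [Module ℚ J]
    {J' : Type v} [AddCommGroup J'] [Module ℚ J'] (x : A) (r : ℕ) (U : Submodule ℚ A)
    (a : A →ₗ[ℚ] J) (a' : A →ₗ[ℚ] J') : Prop := ∀ y ∈ U, a' (x ^ r * y) = 0 → a y = 0

variable {k : Type u} [Field k] {𝒱 : VarClass k} {C : ChowTheory.{u, v} 𝒱}
  {W : WeilTheory.{u, v, w} C}

/-- For `i ≤ j`, `i + j = dim X + 1`, and `y` in `CH^i(X)_hom`: if the Abel–Jacobi map is zero on
`D^(j-i) y` then it is zero on `y`. (For the actual Abel–Jacobi maps and ample `D` this follows from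
the hard Lefschetz theorem: `D^(j-i) : J^i(X) → J^j(X)` is injective modulo torsion, because
`D^(j-i) : H^(2i-1)(X) → H^(2j-1)(X)` is an isomorphism.) -/
def AJLef (T : AJMap W) (X : 𝒱.Obj) (D : C.CH X) : Prop :=
  ∀ i j : ℕ, i ≤ j → i + j = X.dim + 1 →
    Reflects D (j - i) (homTriv W X i) (T.aj X i) (T.aj X j)

/-- For the pairs `(X, D)` in `S` with `dim X = 2i - 1`, `i ∈ I`, the Abel–Jacobi map is injective on
the `x` in `CH^i(X)_hom` with `D x = 0`. -/
def AJPrimAt (T : AJMap W) (S : ∀ X : 𝒱.Obj, C.CH X → Prop) (I : Set ℕ) : Prop :=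
  ∀ X D, ∀ i ∈ I, S X D → X.dim + 1 = 2 * i → InjOnPrim D (T.aj X i) (homTriv W X i)

end Pool.Agent.R898.PE
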