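import Pool.Agent.R898.PStmt
import Pool.Agent.R898.F
import Pool.Agent.R898.G

/-!
# Additive invariants of motives and products of curves, regular surfaces, complete intersections
-/

open CategoryTheory CategoryTheory.Limits AlgebraicGeometry
open Pool.Agent.H914 Pool.Agent.H914.VarClass Pool.Agent.H914.VarClass.Obj
open Pool.Agent.R903

universe u v w

namespace Pool.Agent.R898.P

variable {k : Type u} [Field k] {𝒱 : VarClass k} {C : ChowTheory.{u, v} 𝒱}
  {W : WeilTheory.{u, v, w} C} {X Y Z : 𝒱.Obj}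

/-- `(X, p)` is a motive -/
structure Mot (C : ChowTheory.{u, v} 𝒱) (X : 𝒱.Obj) (p : C.CH (X.prod X)) : Prop where
  mem : p ∈ C.gr (X.prod X) X.dim
  idem : C.comp p p = p

/-- `(Y, q)` is isomorphic to the twist of `(X, p)` by the `s`-th power of the Lefschetz motive -/
def TwistIso (C : ChowTheory.{u, v} 𝒱) (s : ℕ) (X Y : 𝒱.Obj) (p : C.CH (X.prod X))
    (q : C.CH (Y.prod Y)) : Prop :=
  ∃ (a : C.CH (X.prod Y)) (b : C.CH (Y.prod X)) (c : ℕ), a ∈ C.gr (X.prod Y) (X.dim + s) ∧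
    b ∈ C.gr (Y.prod X) c ∧ c + s = Y.dim ∧ C.comp a b = p ∧ C.comp b a = q

/-- additive invariants, for the varieties in `S` and the isomorphisms allowed by `A` -/
structure Inv (C : ChowTheory.{u, v} 𝒱) (A : ℕ → 𝒱.Obj → 𝒱.Obj → Prop) (S : 𝒱.Obj → Prop)
    (f : ∀ X : 𝒱.Obj, C.CH (X.prod X) → ℤ → ℤ) : Prop where
  add : ∀ (X : 𝒱.Obj) (p q : C.CH (X.prod X)) (m : ℤ), S X → Mot C X p → Mot C X q →
    C.comp p q = 0 → C.comp q p = 0 → f X (p + q) m = f X p m + f X q m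
  iso : ∀ (s : ℕ) (X Y : 𝒱.Obj) (p : C.CH (X.prod X)) (q : C.CH (Y.prod Y)) (m : ℤ), S X → S Y →
    A s X Y → Mot C X p → Mot C Y q → TwistIso C s X Y p q → f Y q (m + s) = f X p m

/-- `A` is compatible with products -/
structure Stable (A : ℕ → 𝒱.Obj → 𝒱.Obj → Prop) : Prop where
  left : ∀ (s : ℕ) (X Y Z : 𝒱.Obj), A s X Y → A s (Z.prod X) (Z.prod Y)
  right : ∀ (s : ℕ) (X Y Z : 𝒱.Obj), A s X Y → A s (X.prod Z) (Y.prod Z)

/-- `S` is closed under products -/
def Closed (S : 𝒱.Obj → Prop) : Prop := ∀ X Y, S X → S Y → S (X.prod Y)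

lemma Mot.tensor {p : C.CH (X.prod X)} {q : C.CH (Y.prod Y)} (hp : Mot C X p) (hq : Mot C Y q) :
    Mot C (X.prod Y) (C.tensor p q) :=
  ⟨by rw [dim_prod]; exact C.tensor_mem hp.mem hq.mem, by rw [C.comp_tensor, hp.idem, hq.idem]⟩

lemma mot_diagC (X : 𝒱.Obj) : Mot C X (C.diagC X) :=
  ⟨C.diagC_mem X, by rw [C.comp_diagC]⟩

lemma TwistIso.right {s : ℕ} {p : C.CH (X.prod X)} {q : C.CH (Y.prod Y)}
    (h : TwistIso C s X Y p q) {r : C.CH (Z.prod Z)} (hr : Mot C Z r) :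
    TwistIso C s (X.prod Z) (Y.prod Z) (C.tensor p r) (C.tensor q r) := by
  obtain ⟨a, b, c, ha, hb, hc, h1, h2⟩ := h
  refine ⟨C.tensor a r, C.tensor b r, c + Z.dim, ?_, C.tensor_mem hb hr.mem, ?_, ?_, ?_⟩
  · have := C.tensor_mem ha hr.mem
    rw [dim_prod]
    convert this using 2
    omega
  · rw [dim_prod]; omega
  · rw [C.comp_tensor, h1, hr.idem]
  · rw [C.comp_tensor, h2, hr.idem]

lemma TwistIso.left {s : ℕ} {p : C.CH (X.prod X)} {q : C.CH (Y.prod Y)}
    (h : TwistIso C s X Y p q) {r : C.CH (Z.prod Z)} (hr : Mot C Z r) :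
    TwistIso C s (Z.prod X) (Z.prod Y) (C.tensor r p) (C.tensor r q) := by
  obtain ⟨a, b, c, ha, hb, hc, h1, h2⟩ := h
  refine ⟨C.tensor r a, C.tensor r b, Z.dim + c, ?_, C.tensor_mem hr.mem hb, ?_, ?_, ?_⟩
  · have := C.tensor_mem hr.mem ha
    rw [dim_prod]
    convert this using 2
    omega
  · rw [dim_prod]; omega
  · rw [C.comp_tensor, h1, hr.idem]
  · rw [C.comp_tensor, h2, hr.idem]

lemma add_tensor {X X' Y Y' : 𝒱.Obj} (α α' : C.CH (X.prod X')) (β : C.CH (Y.prod Y')) :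
    C.tensor (α + α') β = C.tensor α β + C.tensor α' β := by
  simp [ChowTheory.tensor, add_mul]

variable {A : ℕ → 𝒱.Obj → 𝒱.Obj → Prop} {S : 𝒱.Obj → Prop}
  {f : ∀ X : 𝒱.Obj, C.CH (X.prod X) → ℤ → ℤ}

lemma Inv.right (hf : Inv C A S f) (hA : Stable A) (hS : Closed S) (hY : S Y)
    {q : C.CH (Y.prod Y)} (hq : Mot C Y q) :
    Inv C A S (fun X p m => f (X.prod Y) (C.tensor p q) m) where
  add X p p' m hX hp hp' h h' := by
    change f (X.prod Y) (C.tensor (p + p') q) m = _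
    rw [add_tensor]
    exact hf.add _ _ _ m (hS X Y hX hY) (hp.tensor hq) (hp'.tensor hq)
      (by rw [C.comp_tensor, h, C.zero_tensor]) (by rw [C.comp_tensor, h', C.zero_tensor])
  iso s X X' p p' m hX hX' hs hp hp' h :=
    hf.iso s _ _ _ _ m (hS X Y hX hY) (hS X' Y hX' hY) (hA.right _ _ _ _ hs) (hp.tensor hq)
      (hp'.tensor hq) (h.right hq)

lemma Inv.left (hf : Inv C A S f) (hA : Stable A) (hS : Closed S) (hY : S Y)
    {q : C.CH (Y.prod Y)} (hq : Mot C Y q) :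
    Inv C A S (fun X p m => f (Y.prod X) (C.tensor q p) m) where
  add X p p' m hX hp hp' h h' := by
    change f (Y.prod X) (C.tensor q (p + p')) m = _
    rw [C.tensor_add]
    exact hf.add _ _ _ m (hS Y X hY hX) (hq.tensor hp) (hq.tensor hp')
      (by rw [C.comp_tensor, h, C.tensor_zero]) (by rw [C.comp_tensor, h', C.tensor_zero])
  iso s X X' p p' m hX hX' hs hp hp' h :=
    hf.iso s _ _ _ _ m (hS Y X hY hX) (hS Y X' hY hX') (hA.left _ _ _ _ hs) (hq.tensor hp)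
      (hq.tensor hp') (h.left hq)

lemma mot_zero (X : 𝒱.Obj) : Mot C X (0 : C.CH (X.prod X)) :=
  ⟨Submodule.zero_mem _, by rw [C.comp_zero]⟩

lemma Inv.zero (hf : Inv C A S f) (hX : S X) (m : ℤ) : f X 0 m = 0 := by
  have h := hf.add X 0 0 m hX (mot_zero X) (mot_zero X) (C.comp_zero _) (C.comp_zero _)
  rw [add_zero] at h
  linarith

/-- a family of orthogonal idempotents -/
structure Orth (C : ChowTheory.{u, v} 𝒱) (X : 𝒱.Obj) {ι : Type*} (s : Finset ι)
    (p : ι → C.CH (X.prod X)) : Prop where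
  mot : ∀ i ∈ s, Mot C X (p i)
  orth : ∀ i ∈ s, ∀ j ∈ s, i ≠ j → C.comp (p i) (p j) = 0

lemma Orth.sum {ι : Type*} [DecidableEq ι] {s : Finset ι} {p : ι → C.CH (X.prod X)}
    (h : Orth C X s p) : Mot C X (∑ i ∈ s, p i) ∧
      (∀ i ∈ s, C.comp (p i) (∑ j ∈ s, p j) = p i) := by
  have h1 : ∀ i ∈ s, C.comp (p i) (∑ j ∈ s, p j) = p i := by
    intro i hi
    rw [C.comp_sum, Finset.sum_eq_single i]
    · exact (h.mot i hi).idem
    · intro j hj hij; exact h.orth i hi j hj (Ne.symm hij)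
    · intro h'; exact absurd hi h'
  refine ⟨⟨Submodule.sum_mem _ fun i hi => (h.mot i hi).mem, ?_⟩, h1⟩
  rw [C.sum_comp]
  exact Finset.sum_congr rfl h1

lemma Inv.sum (hf : Inv C A S f) (hX : S X) {ι : Type*} [DecidableEq ι] (s : Finset ι)
    (p : ι → C.CH (X.prod X)) (m : ℤ) (h : Orth C X s p) :
    f X (∑ i ∈ s, p i) m = ∑ i ∈ s, f X (p i) m := by
  induction s using Finset.induction_on with
  | empty => rw [Finset.sum_empty, Finset.sum_empty, hf.zero hX]
  | insert i s hi ih =>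
    have h' : Orth C X s p := ⟨fun j hj => h.mot j (Finset.mem_insert_of_mem hj),
      fun j hj l hl => h.orth j (Finset.mem_insert_of_mem hj) l (Finset.mem_insert_of_mem hl)⟩
    rw [Finset.sum_insert hi, Finset.sum_insert hi, ← ih h']
    refine hf.add X _ _ m hX (h.mot i (Finset.mem_insert_self _ _)) h'.sum.1 ?_ ?_
    · rw [C.comp_sum]
      refine Finset.sum_eq_zero fun j hj => h.orth i (Finset.mem_insert_self _ _) j
        (Finset.mem_insert_of_mem hj) ?_
      rintro rfl; exact hi hj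
    · rw [C.sum_comp]
      refine Finset.sum_eq_zero fun j hj => h.orth j (Finset.mem_insert_of_mem hj) i
        (Finset.mem_insert_self _ _) ?_
      rintro rfl; exact hi hj

end Pool.Agent.R898.P
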