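import Pool.Agent.R898.PWord

/-!
# The rank and the order as additive invariants
-/

open CategoryTheory CategoryTheory.Limits AlgebraicGeometry
open Pool.Agent.H914 Pool.Agent.H914.VarClass Pool.Agent.H914.VarClass.Obj
open Pool.Agent.R903 Pool.Agent.R898.F

universe u v w

namespace Pool.Agent.R898.P

variable {k : Type u} [Field k] {𝒱 : VarClass k} {C : ChowTheory.{u, v} 𝒱}
  {W : WeilTheory.{u, v, w} C} {X Y Z G P : 𝒱.Obj}

/-- the rank of the homologically trivial classes of codimension `m` -/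
noncomputable def rk (W : WeilTheory.{u, v, w} C) (X : 𝒱.Obj) (p : C.CH (X.prod X)) (m : ℤ) : ℤ :=
  if 0 ≤ m then (Module.finrank ℚ (homTrivOf W X p m.toNat) : ℤ) else 0

/-- the order -/
def od (o : ∀ X : 𝒱.Obj, C.CH (X.prod X) → ℕ → ℤ) (X : 𝒱.Obj) (p : C.CH (X.prod X)) (m : ℤ) : ℤ :=
  if 1 ≤ m then o X p (m - 1).toNat else 0

section LinAlg

variable {M N : Type v} [AddCommGroup M] [Module ℚ M] [AddCommGroup N] [Module ℚ N]

lemma finrank_add {U : Submodule ℚ M} (hU : Module.Finite ℚ U) {p q : M →ₗ[ℚ] M}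
    (hp : ∀ x ∈ U, p x ∈ U) (hq : ∀ x ∈ U, q x ∈ U) (hpp : ∀ x, p (p x) = p x)
    (hqq : ∀ x, q (q x) = q x) (hpq : ∀ x, p (q x) = 0) (hqp : ∀ x, q (p x) = 0) :
    Module.finrank ℚ (U.map (p + q)) = Module.finrank ℚ (U.map p) + Module.finrank ℚ (U.map q) := by
  have h1 : Module.Finite ℚ (U.map p) := inferInstance
  have h2 : Module.Finite ℚ (U.map q) := inferInstance
  rw [← Module.finrank_prod]
  refine LinearEquiv.finrank_eq (LinearEquiv.ofLinearMap
    (LinearMap.prod ((p.comp (U.map (p + q)).subtype).codRestrict (U.map p) ?_)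
      ((q.comp (U.map (p + q)).subtype).codRestrict (U.map q) ?_))
    (((U.map p).subtype.codRestrict (U.map (p + q)) ?_).coprod
      ((U.map q).subtype.codRestrict (U.map (p + q)) ?_)) ?_ ?_)
  · rintro ⟨_, x, hx, rfl⟩
    exact ⟨x, hx, by simp [hpp, hpq]⟩
  · rintro ⟨_, x, hx, rfl⟩
    exact ⟨x, hx, by simp [hqq, hqp]⟩
  · rintro ⟨_, x, hx, rfl⟩
    exact ⟨p x, hp x hx, by simp [hpp, hqp]⟩
  · rintro ⟨_, x, hx, rfl⟩
    exact ⟨q x, hq x hx, by simp [hqq, hpq]⟩
  · refine LinearMap.ext ?_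
    rintro ⟨⟨_, x, hx, rfl⟩, ⟨_, y, hy, rfl⟩⟩
    refine Prod.ext (Subtype.ext ?_) (Subtype.ext ?_)
    · simp [hpp, hpq]
    · simp [hqq, hqp]
  · refine LinearMap.ext ?_
    rintro ⟨_, x, hx, rfl⟩
    refine Subtype.ext ?_
    simp [hpp, hqq, hpq, hqp]

lemma finrank_iso {U : Submodule ℚ M} {V : Submodule ℚ N} {p : M →ₗ[ℚ] M} {q : N →ₗ[ℚ] N}
    {a : M →ₗ[ℚ] N} {b : N →ₗ[ℚ] M} (ha : ∀ x ∈ U, a x ∈ V) (hb : ∀ y ∈ V, b y ∈ U)
    (hpp : ∀ x, p (p x) = p x) (hqq : ∀ x, q (q x) = q x)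
    (h1 : ∀ x, b (a x) = p x) (h2 : ∀ y, a (b y) = q y) :
    Module.finrank ℚ (U.map p) = Module.finrank ℚ (V.map q) := by
  have e1 : ∀ x, a (p x) = q (a x) := fun x => by rw [← h1, h2]
  have e2 : ∀ y, b (q y) = p (b y) := fun y => by rw [← h2, h1]
  refine LinearEquiv.finrank_eq (LinearEquiv.ofLinearMap
    ((a.comp (U.map p).subtype).codRestrict (V.map q) ?_)
    ((b.comp (V.map q).subtype).codRestrict (U.map p) ?_) ?_ ?_)
  · rintro ⟨_, x, hx, rfl⟩
    exact ⟨a x, ha x hx, (e1 x).symm⟩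
  · rintro ⟨_, y, hy, rfl⟩
    exact ⟨b y, hb y hy, (e2 y).symm⟩
  · refine LinearMap.ext ?_
    rintro ⟨_, y, hy, rfl⟩
    refine Subtype.ext ?_
    change a (b (q y)) = q y
    rw [h2, hqq]
  · refine LinearMap.ext ?_
    rintro ⟨_, x, hx, rfl⟩
    refine Subtype.ext ?_
    change b (a (p x)) = p x
    rw [h1, hpp]

end LinAlg

lemma Mot.act_act {p : C.CH (X.prod X)} (hp : Mot C X p) (x : C.CH X) :
    C.act p (C.act p x) = C.act p x := by
  rw [← C.act_comp, hp.idem]

lemma act_homTriv {γ : C.CH (X.prod Y)} {c m n : ℕ} (hγ : γ ∈ C.gr _ c) {x : C.CH X}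
    (hx : x ∈ homTriv W X m) (h : m + c = n + X.dim) : C.act γ x ∈ homTriv W Y n :=
  ⟨C.act_mem hγ hx.1 h, by rw [W.cl_act, hx.2, map_zero]⟩

/-- the rank is an additive invariant -/
theorem inv_rk {S : 𝒱.Obj → Prop}
    (hfin : ∀ X, S X → ∀ m, Module.Finite ℚ (homTriv W X m)) :
    Inv C (fun _ _ _ => True) S (rk W) where
  add X p q m hX hp hq hpq hqp := by
    rw [rk, rk, rk]
    split_ifs with hm
    · have := hfin X hX m.toNat
      rw [homTrivOf, homTrivOf, homTrivOf, imageA, imageA, imageA, C.act_add,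
        finrank_add this (fun x hx => act_homTriv hp.mem hx (by omega))
          (fun x hx => act_homTriv hq.mem hx (by omega)) hp.act_act hq.act_act
          (fun x => by rw [← C.act_comp, hqp, C.act_zero, LinearMap.zero_apply])
          (fun x => by rw [← C.act_comp, hpq, C.act_zero, LinearMap.zero_apply])]
      push_cast
      rfl
    · rfl
  iso s X Y p q m hX hY _ hp hq h := by
    obtain ⟨a, b, c, ha, hb, hc, h1, h2⟩ := h
    rw [rk, rk]
    by_cases hm : 0 ≤ m
    · obtain ⟨n, rfl⟩ := Int.eq_ofNat_of_zero_le hm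
      rw [if_pos (by omega), if_pos hm]
      have e1 : ((n : ℤ) + (s : ℤ)).toNat = n + s := by omega
      rw [e1, Int.toNat_natCast]
      congr 1
      refine (finrank_iso (a := C.act a) (b := C.act b) (fun x hx => act_homTriv ha hx (by omega))
        (fun y hy => act_homTriv hb hy (by omega)) hp.act_act hq.act_act
        (fun x => by rw [← C.act_comp, h1]) (fun x => by rw [← C.act_comp, h2])).symm
    · rw [if_neg hm]
      split_ifs with hms
      · obtain ⟨n, hn⟩ := Int.eq_ofNat_of_zero_le hms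
        rw [hn, Int.toNat_natCast]
        have h3 : homTrivOf W Y q n = ⊥ := by
          rw [eq_bot_iff]
          rintro _ ⟨y, hy, rfl⟩
          rw [Submodule.mem_bot, ← h2, C.act_comp, C.act_eq_zero hb hy.1 (by omega), map_zero]
        rw [h3]
        simp
      · rfl

variable {o : ∀ X : 𝒱.Obj, C.CH (X.prod X) → ℕ → ℤ}

lemma Mot.isMotive {p : C.CH (X.prod X)} (hp : Mot C X p) : IsMotive C X p := ⟨hp.mem, hp.idem⟩

lemma o_zero (ho : IsOrder W o) {p : C.CH (X.prod X)} (hp : Mot C X p) {n : ℕ}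
    (h : ∀ a ∈ W.gr X (2 * n + 1), W.act p a = 0) : o X p n = 0 := by
  have h1 : o X 0 n = 0 := by
    have := ho.add X 0 0 n (mot_zero X).isMotive (mot_zero X).isMotive (C.comp_zero _)
      (C.comp_zero _)
    rw [add_zero] at this
    linarith
  rw [← h1]
  have e0 : cp C (cp C (0 : C.CH (X.prod X)) (0 : C.CH (X.prod X))) (0 : C.CH (X.prod X)) = 0 :=
    C.comp_zero _
  have e1 : cp C (cp C (0 : C.CH (X.prod X)) p) (0 : C.CH (X.prod X)) = 0 := C.comp_zero _
  refine ho.iso X X p 0 0 0 n n ⟨hp.isMotive, (mot_zero X).isMotive, ⟨X.dim, rfl,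
    Submodule.zero_mem _⟩, ⟨X.dim, rfl, Submodule.zero_mem _⟩, ?_, ?_⟩
  · intro a ha
    rw [e0, W.act_zero, LinearMap.zero_apply, h a ha]
  · intro a ha
    rw [e1, W.act_zero, LinearMap.zero_apply, LinearMap.zero_apply]

/-- the order is an additive invariant -/
theorem inv_od {S : 𝒱.Obj → Prop} (ho : IsOrder W o) :
    Inv C (fun _ _ _ => True) S (od o) where
  add X p q m hX hp hq hpq hqp := by
    rw [od, od, od]
    split_ifs with hm
    · exact ho.add X p q _ hp.isMotive hq.isMotive hpq hqp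
    · rfl
  iso s X Y p q m hX hY _ hp hq h := by
    obtain ⟨a, b, c, ha, hb, hc, h1, h2⟩ := h
    rw [od, od]
    by_cases hm : 1 ≤ m
    · obtain ⟨n, hn⟩ := Int.eq_ofNat_of_zero_le (show 0 ≤ m - 1 by omega)
      rw [if_pos (by omega), if_pos hm]
      have e1 : (m + s - 1).toNat = n + s := by omega
      have e2 : (m - 1).toNat = n := by omega
      rw [e1, e2]
      have f1 : cp C (cp C a q) b = p := by
        change C.comp (C.comp a q) b = p
        rw [← h2, ← C.comp_assoc, h1, C.comp_assoc, h1, hp.idem]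
      have f2 : cp C (cp C b p) a = q := by
        change C.comp (C.comp b p) a = q
        rw [← h1, ← C.comp_assoc, h2, C.comp_assoc, h2, hq.idem]
      refine (ho.iso X Y p q a b n (n + s) ⟨hp.isMotive, hq.isMotive, ⟨_, by omega, ha⟩,
        ⟨c, by omega, hb⟩, ?_, ?_⟩).symm
      · intro x hx
        rw [f1, ← W.act_comp _ hp.mem, hp.idem]
      · intro x hx
        rw [f2, ← W.act_comp _ hq.mem, hq.idem]
    · rw [if_neg hm]
      split_ifs with hms
      · obtain ⟨n, hn⟩ := Int.eq_ofNat_of_zero_le (show 0 ≤ m + s - 1 by omega)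
        rw [hn, Int.toNat_natCast]
        refine o_zero ho hq fun y hy => ?_
        rw [← h2, W.act_comp _ ha, W.act_eq_zero hb hy (by omega), map_zero]
      · rfl

lemma inv_sub {A : ℕ → 𝒱.Obj → 𝒱.Obj → Prop} {S : 𝒱.Obj → Prop}
    {f g : ∀ X : 𝒱.Obj, C.CH (X.prod X) → ℤ → ℤ} (hf : Inv C A S f) (hg : Inv C A S g) :
    Inv C A S (fun X p m => f X p m - g X p m) where
  add X p q m hX hp hq hpq hqp := by
    change f X (p + q) m - g X (p + q) m = f X p m - g X p m + (f X q m - g X q m)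
    rw [hf.add X p q m hX hp hq hpq hqp, hg.add X p q m hX hp hq hpq hqp]
    ring
  iso s X Y p q m hX hY hs hp hq h := by
    change f Y q (m + s) - g Y q (m + s) = f X p m - g X p m
    rw [hf.iso s X Y p q m hX hY hs hp hq h, hg.iso s X Y p q m hX hY hs hp hq h]

/-- the formula for products with projective spaces -/
theorem inv_prod_proj {S : 𝒱.Obj → Prop} {f : ∀ X : 𝒱.Obj, C.CH (X.prod X) → ℤ → ℤ} (hS : Closed S)
    (hSP : ∀ s P, Pool.Agent.R898.G.IsProj C s P → S P)
    (hf : Inv C (fun _ _ _ => True) S f) (hX : S X) {U : 𝒱.Obj}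
    (hU : Pool.Agent.R898.G.IsProj C 0 U) {s : ℕ} (hP : Pool.Agent.R898.G.IsProj C s P)
    (W : WeilTheory.{u, v, w} C) (m : ℤ) :
    f (X.prod P) (C.diagC (X.prod P)) m = ∑ j ∈ Finset.range (s + 1), f X (C.diagC X) (m - j) := by
  have hU' := isUnit_of_isProj hU
  obtain ⟨hs, E, hE, hΔ⟩ := datum_of_isProj hP
  have hXP := hS X P hX (hSP _ _ hP)
  have hXU := hS X U hX (hSP _ _ hU)
  have hor := orth_cell W hE
  have h1 : C.diagC (X.prod P) = ∑ j ∈ Finset.range (s + 1), C.tensor (C.diagC X) (cell C E j) := by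
    rw [← C.tensor_diagC, ← C.tensor_sum, ← hΔ, tate, hs]
  rw [h1, hf.sum hXP]
  · refine Finset.sum_congr rfl fun j hj => ?_
    rw [Finset.mem_range] at hj
    have hj' : j ≤ P.dim := by omega
    have h2 := hf.iso j (X.prod U) (X.prod P) (C.tensor (C.diagC X) (C.diagC U))
      (C.tensor (C.diagC X) (cell C E j)) (m - j) hXU hXP trivial
      ((mot_diagC X).tensor (mot_diagC U))
      ((mot_diagC X).tensor (hor.mot _ (Finset.mem_range.2 (by omega))))
      ((twistIso_cell W hU' hE hj').left (mot_diagC X))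
    rw [sub_add_cancel, C.tensor_diagC] at h2
    rw [h2]
    have h3 := hf.iso 0 (X.prod U) X _ _ (m - j) hXU hX trivial (mot_diagC _) (mot_diagC _)
      (twistIso_prod_unit hU' X)
    rw [Nat.cast_zero, add_zero] at h3
    exact h3.symm
  · refine ⟨fun j hj => (mot_diagC X).tensor (hor.mot _ ?_), fun i hi j hj hij => ?_⟩
    · rw [Finset.mem_range] at hj ⊢; omega
    · rw [C.comp_tensor, hor.orth i (by rw [Finset.mem_range] at hi ⊢; omega) j
        (by rw [Finset.mem_range] at hj ⊢; omega) hij, C.tensor_zero]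

/-- from the middle to the symmetrised formula, combinatorial part -/
lemma symm_of_sums {F : ℤ → ℤ} {n : ℤ}
    (h : ∀ (s : ℕ) (a : ℤ), 2 * a = n + s + 1 → ∑ j ∈ Finset.range (s + 1), F (a - j) = 0)
    (m : ℤ) : F m + F (n + 1 - m) = 0 := by
  have key : ∀ m : ℤ, n + 1 ≤ 2 * m → F m + F (n + 1 - m) = 0 := by
    intro m hm
    obtain ⟨s, hs⟩ := Int.eq_ofNat_of_zero_le (show 0 ≤ 2 * m - (n + 1) by omega)
    have h0 := h s m (by omega)
    rcases s with _ | _ | s
    · have e : n + 1 - m = m := by omega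
      rw [e]
      simp at h0
      rw [h0, add_zero]
    · have e : n + 1 - m = m - 1 := by omega
      rw [e]
      simpa [Finset.sum_range_succ] using h0
    · have h1 := h s (m - 1) (by push_cast at hs; omega)
      rw [Finset.sum_range_succ, Finset.sum_range_succ'] at h0
      have e1 : ∀ j : ℕ, m - ((j + 1 : ℕ) : ℤ) = m - 1 - j := fun j => by push_cast; ring
      rw [Finset.sum_congr rfl fun j _ => by rw [e1 j], h1] at h0
      have e2 : n + 1 - m = m - ((s + 1 + 1 : ℕ) : ℤ) := by omega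
      rw [e2]
      simp only [Nat.cast_zero, sub_zero, zero_add] at h0
      exact h0
  rcases le_total (n + 1) (2 * m) with hm | hm
  · exact key m hm
  · have := key (n + 1 - m) (by omega)
    rw [sub_sub_cancel] at this
    linarith

end Pool.Agent.R898.P
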