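import Pool.Agent.R898.FStmt
import Pool.Agent.R898.GStmt

/-!
# The middle codimension for products of curves, regular surfaces, complete intersections: the
# definitions used in the statement
-/

open CategoryTheory CategoryTheory.Limits AlgebraicGeometry
open Pool.Agent.H914 Pool.Agent.H914.VarClass Pool.Agent.H914.VarClass.Obj
open Pool.Agent.R903

universe u v w

namespace Pool.Agent.R898.P

/-- All elements of `U` are multiples of the powers of `c`. -/
def OnlyPowers {K : Type w} [Field K] {H : Type w} [Ring H] [Algebra K H] (U : Submodule K H)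
    (c : H) : Prop :=
  ∀ a ∈ U, ∃ (r : K) (i : ℕ), a = r • c ^ i

variable {k : Type u} [Field k] {𝒱 : VarClass k} {C : ChowTheory.{u, v} 𝒱}
  (W : WeilTheory.{u, v, w} C)

/-- Outside of the middle degree `X` has the cohomology of the projective space: for a divisor class
`D` with `deg (D ^ dim X) ≠ 0` the spaces `H^j(X)`, `j ≠ dim X`, consist of the multiples of the
powers of the class of `D`. Examples: all curves, all regular surfaces, all complete intersections of
positive dimension in projective spaces. -/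
def Elementary (X : 𝒱.Obj) : Prop :=
  ∃ D ∈ C.gr X 1, C.deg X (D ^ X.dim) ≠ 0 ∧
    ∀ j, j ≠ X.dim → OnlyPowers (W.gr X j) (W.cl X D)

/-- The products of elementary varieties. -/
inductive IsProduct : 𝒱.Obj → Prop
  | elementary {X : 𝒱.Obj} (h : Elementary W X) : IsProduct X
  | prod {X Y : 𝒱.Obj} (hX : IsProduct X) (hY : IsProduct Y) : IsProduct (X.prod Y)

/-- `Z` dominates `X`: there are a morphism `f : Z ⟶ X` and a class `ζ` in `CH^(dim Z - dim X)(Z)`
with `f_* ζ = [X]`. For projective varieties this holds for each surjective `f`. -/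
def Dominates (C : ChowTheory.{u, v} 𝒱) (Z X : 𝒱.Obj) : Prop :=
  ∃ (f : Z ⟶ X) (c : ℕ) (ζ : C.CH Z), X.dim + c = Z.dim ∧ F.Codim C c ζ ∧ C.push f ζ = 1

/-- `o X p n` has the formal properties of the order of `L(H^(2n+1)(M), s)` at the centre
`s = n + 1`, for the motives `M = (X, p)`: it depends only on the isomorphism class of
`H^(2n+1)(M)`, up to Tate twists, and it is additive. -/
structure IsOrder (o : ∀ X : 𝒱.Obj, C.CH (X.prod X) → ℕ → ℤ) : Prop where
  iso : ∀ (X Y : 𝒱.Obj) (p : C.CH (X.prod X)) (q : C.CH (Y.prod Y)) (f : C.CH (X.prod Y))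
    (g : C.CH (Y.prod X)) (m n : ℕ), F.CohIso W X Y p q f g m n → o X p m = o Y q n
  add : ∀ (X : 𝒱.Obj) (p q : C.CH (X.prod X)) (n : ℕ), F.IsMotive C X p → F.IsMotive C X q →
    F.cp C p q = 0 → F.cp C q p = 0 → o X (p + q) n = o X p n + o X q n

/-- The rank formula for `X` in codimension `n + 1`: the rank of `CH^(n+1)(X)_hom` is finite and
equal to `ord_(s=n+1) L(H^(2n+1)(X), s)`. -/
def Formula (o : ∀ X : 𝒱.Obj, C.CH (X.prod X) → ℕ → ℤ) (X : 𝒱.Obj) (n : ℕ) : Prop :=
  F.FinDim (F.homTriv W X (n + 1)) ∧ F.DimIs (F.homTriv W X (n + 1)) (o X (C.diagC X) n)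

/-- Beilinson's conjecture for the varieties in `S`: the formula for the varieties of dimension
`2i + 1` in codimension `i + 1`. -/
def Middle (o : ∀ X : 𝒱.Obj, C.CH (X.prod X) → ℕ → ℤ) (S : 𝒱.Obj → Prop) : Prop :=
  ∀ (X : 𝒱.Obj) (i : ℕ), S X → X.dim = 2 * i + 1 → Formula W o X i

/-- The formula for the varieties in `S` in all codimensions. -/
def Full (o : ∀ X : 𝒱.Obj, C.CH (X.prod X) → ℕ → ℤ) (S : 𝒱.Obj → Prop) : Prop :=
  ∀ (X : 𝒱.Obj) (n : ℕ), S X → Formula W o X n

/-- The standard conjecture of Lefschetz type for the odd cohomology of `X`, in the form: for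
`n + n' + 1 = dim X` there are correspondences which induce inverse isomorphisms between
`H^(2n+1)(X)` and `H^(2n'+1)(X)`. -/
def OddLefschetz (X : 𝒱.Obj) : Prop :=
  ∀ n n', X.dim = n + n' + 1 →
    ∃ f g, F.CohIso W X X (C.diagC X) (C.diagC X) f g n n'

end Pool.Agent.R898.P
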