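import Pool.Agent.R898.PCell

/-!
# Tensor products of the middle parts and the cells of elementary varieties
-/

open CategoryTheory CategoryTheory.Limits AlgebraicGeometry
open Pool.Agent.H914 Pool.Agent.H914.VarClass Pool.Agent.H914.VarClass.Obj
open Pool.Agent.R903

universe u v w

namespace Pool.Agent.R898.P

variable {k : Type u} [Field k] {𝒱 : VarClass k} {C : ChowTheory.{u, v} 𝒱}
  {W : WeilTheory.{u, v, w} C} {X Y Z G P : 𝒱.Obj}

/-- the action of `p` on the cohomology has its image in degree `n` -/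
def InDeg (W : WeilTheory.{u, v, w} C) (X : 𝒱.Obj) (p : C.CH (X.prod X)) (n : ℕ) : Prop :=
  ∀ z, W.act p z ∈ W.gr X n

lemma act_cell {D : C.CH G} (hD : Datum C G D) (j : ℕ) (z : W.H G) :
    W.act (cell C D j) z =
      (((C.deg G (D ^ G.dim))⁻¹ : ℚ) : W.K) • W.tr G (W.cl G (D ^ (G.dim - j)) * z) •
        W.cl G (D ^ j) := by
  rw [cell, W.act_smul, LinearMap.smul_apply, act_ext_coh W _ (powMem hD.mem j)]

lemma inDeg_cell {D : C.CH G} (hD : Datum C G D) (j : ℕ) : InDeg W G (cell C D j) (2 * j) := by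
  intro z
  rw [act_cell hD]
  exact Submodule.smul_mem _ _ (Submodule.smul_mem _ _ (W.cl_mem (powMem hD.mem j)))

include W in
lemma act_tate_pow {D : C.CH G} (hD : Datum C G D) (i : ℕ) :
    C.act (tate C D) (D ^ i) = D ^ i := by
  rw [tate, C.act_sum, LinearMap.sum_apply]
  by_cases hi : i ≤ G.dim
  · rw [Finset.sum_eq_single i]
    · rw [cell, C.act_smul, LinearMap.smul_apply, act_ext_pow W hD _ hi hi, if_pos rfl,
        inv_smul_smul₀ hD.deg]
    · intro j hj hij
      rw [Finset.mem_range] at hj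
      rw [cell, C.act_smul, LinearMap.smul_apply, act_ext_pow W hD _ (by omega) hi,
        if_neg (Ne.symm hij), smul_zero]
    · intro h
      exact absurd (Finset.mem_range.2 (by omega)) h
  · have h0 : D ^ i = 0 := by
      have := powMem hD.mem i
      rwa [C.gr_eq_bot _ _ (by omega), Submodule.mem_bot] at this
    rw [h0]
    simp

lemma exists_datum (h : Elementary W G) : ∃ D, Datum C G D ∧ InDeg W G (mid C D) G.dim := by
  obtain ⟨D, hD1, hD2, hD3⟩ := h
  have hD : Datum C G D := ⟨hD1, hD2⟩
  refine ⟨D, hD, fun z => ?_⟩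
  have hm := (mot_mid W hD).mem
  refine gr_induction (W.isInternal G) (p := fun z => W.act (mid C D) z ∈ W.gr G G.dim) ?_ ?_ z
  · intro j a ha
    by_cases hj : j = G.dim
    · rw [← hj]
      exact W.act_mem hm ha (by omega)
    · obtain ⟨r, i, rfl⟩ := hD3 j hj a ha
      have h1 : W.act (mid C D) (W.cl G D ^ i) = 0 := by
        rw [← map_pow, ← W.cl_act, mid, C.act_sub, LinearMap.sub_apply, C.act_diagC,
          act_tate_pow (W := W) hD, sub_self, map_zero]
      rw [map_smul, h1, smul_zero]
      exact Submodule.zero_mem _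
  · intro a b ha hb
    rw [map_add]; exact Submodule.add_mem _ ha hb

lemma InDeg.tensor {p : C.CH (X.prod X)} {q : C.CH (Y.prod Y)} {m n : ℕ} (hp : InDeg W X p m)
    (hq : InDeg W Y q n) (hqm : q ∈ C.gr _ Y.dim) :
    InDeg W (X.prod Y) (C.tensor p q) (m + n) := by
  intro z
  refine W.kunneth_induction (p := fun z => W.act (C.tensor p q) z ∈ W.gr (X.prod Y) (m + n))
    ?_ ?_ z
  · intro a b ha hb
    rw [map_add]; exact Submodule.add_mem _ ha hb
  · intro l l' a _ b _
    rw [WeilTheory.act_tensor_prod hqm (hp a)]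
    exact W.mul_mem (W.map_mem _ (hp a)) (W.map_mem _ (hq b))

lemma InDeg.zero {p : C.CH (X.prod X)} (hm : p ∈ C.gr _ X.dim) {n : ℕ} (hp : InDeg W X p n)
    {j : ℕ} (hj : j ≠ n) {a : W.H X} (ha : a ∈ W.gr X j) : W.act p a = 0 :=
  gr_inter hj (W.act_mem hm ha (by omega)) (hp a)

/-- a projective space is elementary -/
lemma elementary_of_isProj {s : ℕ} (h : Pool.Agent.R898.G.IsProj C s P) : Elementary W P := by
  obtain ⟨hs, E, hE, hΔ⟩ := datum_of_isProj h
  refine ⟨E, hE.mem, hE.deg, fun j _ a ha => ?_⟩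
  have h1 : W.act (tate C E) a = a := by rw [hΔ, W.act_diagC]
  rw [tate, W.act_sum, LinearMap.sum_apply] at h1
  by_cases hj : Even j
  · obtain ⟨i, hi⟩ := hj
    refine ⟨(((C.deg P (E ^ P.dim))⁻¹ : ℚ) : W.K) * W.tr P (W.cl P (E ^ (P.dim - i)) * a), i, ?_⟩
    by_cases hi' : i ≤ P.dim
    · rw [Finset.sum_eq_single i] at h1
      · rw [act_cell hE, smul_smul] at h1
        rw [← map_pow]
        exact h1.symm
      · intro l hl hli
        rw [Finset.mem_range] at hl
        rw [act_cell hE, W.tr_eq_zero (W.mul_mem (W.cl_mem (powMem hE.mem _)) ha) (by omega),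
          zero_smul, smul_zero]
      · intro h'
        exact absurd (Finset.mem_range.2 (by omega)) h'
    · rw [W.gr_eq_bot P j (by omega), Submodule.mem_bot] at ha
      rw [ha, mul_zero, map_zero, mul_zero, zero_smul]
  · refine ⟨0, 0, ?_⟩
    rw [zero_smul, ← h1]
    refine Finset.sum_eq_zero fun l hl => ?_
    rw [Finset.mem_range] at hl
    rw [act_cell hE, W.tr_eq_zero (W.mul_mem (W.cl_mem (powMem hE.mem _)) ha) (fun h' => hj
      ⟨l, by omega⟩), zero_smul, smul_zero]

/-- tensor products of middle parts -/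
inductive NWord (W : WeilTheory.{u, v, w} C) : (X : 𝒱.Obj) → C.CH (X.prod X) → Prop
  | mid {G : 𝒱.Obj} {D : C.CH G} (hG : Elementary W G) (hD : Datum C G D)
      (h : InDeg W G (mid C D) G.dim) : NWord W G (mid C D)
  | one {U : 𝒱.Obj} (hG : Elementary W U) (hU : IsUnit' C U) : NWord W U (C.diagC U)
  | prod {X Y : 𝒱.Obj} {p : C.CH (X.prod X)} {q : C.CH (Y.prod Y)} (hp : NWord W X p)
      (hq : NWord W Y q) : NWord W (X.prod Y) (C.tensor p q)

/-- tensor products of middle parts and cells -/
inductive PWord (W : WeilTheory.{u, v, w} C) : (X : 𝒱.Obj) → C.CH (X.prod X) → ℕ → Prop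
  | mid {G : 𝒱.Obj} {D : C.CH G} (hG : Elementary W G) (hD : Datum C G D)
      (h : InDeg W G (mid C D) G.dim) : PWord W G (mid C D) G.dim
  | cell {G : 𝒱.Obj} {D : C.CH G} {j : ℕ} (hG : Elementary W G) (hD : Datum C G D)
      (hj : j ≤ G.dim) : PWord W G (cell C D j) (2 * j)
  | prod {X Y : 𝒱.Obj} {p : C.CH (X.prod X)} {q : C.CH (Y.prod Y)} {m n : ℕ}
      (hp : PWord W X p m) (hq : PWord W Y q n) : PWord W (X.prod Y) (C.tensor p q) (m + n)

lemma NWord.mot {p : C.CH (X.prod X)} (h : NWord W X p) : Mot C X p := by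
  induction h with
  | mid hG hD h => exact mot_mid W hD
  | one hG hU => exact mot_diagC _
  | prod hp hq h1 h2 => exact h1.tensor h2

lemma PWord.mot {p : C.CH (X.prod X)} {n : ℕ} (h : PWord W X p n) : Mot C X p := by
  induction h with
  | mid hG hD h => exact mot_mid W hD
  | cell hG hD hj => exact (orth_cell W hD).mot _ (Finset.mem_range.2 (by omega))
  | prod hp hq h1 h2 => exact h1.tensor h2

lemma NWord.isProduct {p : C.CH (X.prod X)} (h : NWord W X p) : IsProduct W X := by
  induction h with
  | mid hG hD h => exact .elementary hG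
  | one hG hU => exact .elementary hG
  | prod hp hq h1 h2 => exact .prod h1 h2

lemma PWord.isProduct {p : C.CH (X.prod X)} {n : ℕ} (h : PWord W X p n) : IsProduct W X := by
  induction h with
  | mid hG hD h => exact .elementary hG
  | cell hG hD hj => exact .elementary hG
  | prod hp hq h1 h2 => exact .prod h1 h2

lemma NWord.inDeg {p : C.CH (X.prod X)} (h : NWord W X p) : InDeg W X p X.dim := by
  induction h with
  | mid hG hD h => exact h
  | @one U hG hU =>
    intro z
    rw [W.act_diagC]
    refine gr_induction (W.isInternal U) (p := fun z => z ∈ W.gr U U.dim) ?_ ?_ z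
    · intro j a ha
      by_cases hj : j = U.dim
      · rwa [hj] at ha
      · rw [W.gr_eq_bot U j (by have := hU.dim; omega), Submodule.mem_bot] at ha
        rw [ha]; exact Submodule.zero_mem _
    · intro a b ha hb
      exact Submodule.add_mem _ ha hb
  | prod hp hq h1 h2 =>
    rw [dim_prod]
    exact h1.tensor h2 hq.mot.mem

lemma PWord.inDeg {p : C.CH (X.prod X)} {n : ℕ} (h : PWord W X p n) : InDeg W X p n := by
  induction h with
  | mid hG hD h => exact h
  | cell hG hD hj => exact inDeg_cell hD _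
  | prod hp hq h1 h2 => exact h1.tensor h2 hq.mot.mem

lemma transp_tensor (p : C.CH (X.prod X)) (q : C.CH (Y.prod Y)) :
    C.transp (C.tensor p q) = C.tensor (C.transp p) (C.transp q) := by
  rw [ChowTheory.transp, ChowTheory.tensor, ChowTheory.tensor, C.pull_mul, ChowTheory.transp,
    ChowTheory.transp, ← C.pull_comp, ← C.pull_comp, ← C.pull_comp, ← C.pull_comp]
  have e1 : swap (X.prod Y) (X.prod Y) ≫ prodMap (fst X Y) (fst X Y) =
      prodMap (fst X Y) (fst X Y) ≫ swap X X := by apply hom_ext_prod <;> simp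
  have e2 : swap (X.prod Y) (X.prod Y) ≫ prodMap (snd X Y) (snd X Y) =
      prodMap (snd X Y) (snd X Y) ≫ swap Y Y := by apply hom_ext_prod <;> simp
  rw [e1, e2]

lemma transp_cell (D : C.CH G) {j : ℕ} (hj : j ≤ G.dim) :
    C.transp (cell C D j) = cell C D (G.dim - j) := by
  have e : G.dim - (G.dim - j) = j := by omega
  rw [cell, cell, transp_smul, transp_ext, e]

lemma transp_mid (D : C.CH G) : C.transp (mid C D) = mid C D := by
  rw [mid, transp_sub, C.transp_diagC, tate, C.transp_sum]
  congr 1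
  rw [← Finset.sum_range_reflect]
  refine Finset.sum_congr rfl fun j hj => ?_
  rw [Finset.mem_range] at hj
  rw [transp_cell D (by omega)]
  congr 1
  omega

lemma PWord.transp {p : C.CH (X.prod X)} {n : ℕ} (h : PWord W X p n) :
    ∃ n', PWord W X (C.transp p) n' ∧ n + n' = 2 * X.dim := by
  induction h with
  | @mid G D hG hD h =>
    exact ⟨G.dim, by rw [transp_mid]; exact .mid hG hD h, by omega⟩
  | @cell G D j hG hD hj =>
    exact ⟨2 * (G.dim - j), by rw [transp_cell D hj]; exact .cell hG hD (by omega), by omega⟩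
  | prod hp hq h1 h2 =>
    obtain ⟨m, h1, e1⟩ := h1
    obtain ⟨n, h2, e2⟩ := h2
    refine ⟨m + n, ?_, by rw [dim_prod]; omega⟩
    rw [transp_tensor]
    exact .prod h1 h2

/-- the diagonal is a sum of orthogonal words -/
theorem exists_words (h : IsProduct W X) : ∃ (ι : Type) (_ : Fintype ι) (_ : DecidableEq ι)
    (p : ι → C.CH (X.prod X)) (n : ι → ℕ), (∀ i, PWord W X (p i) (n i)) ∧
      Orth C X Finset.univ p ∧ ∑ i, p i = C.diagC X := by
  induction h with
  | @elementary G hG =>
    obtain ⟨D, hD, hm⟩ := exists_datum hG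
    refine ⟨Option (Fin (G.dim + 1)), inferInstance, inferInstance,
      fun i => i.elim (mid C D) (fun j => cell C D j), fun i => i.elim G.dim (fun j => 2 * j),
      ?_, ⟨?_, ?_⟩, ?_⟩
    · rintro (_ | j)
      · exact .mid hG hD hm
      · exact .cell hG hD (by have := j.2; omega)
    · rintro (_ | j) _
      · exact mot_mid W hD
      · exact (orth_cell W hD).mot _ (Finset.mem_range.2 j.2)
    · have h1 : ∀ j : Fin (G.dim + 1), C.comp (mid C D) (cell C D j) = 0 := by
        intro j
        have h2 := (orth_cell W hD).sum.2 j (Finset.mem_range.2 j.2)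
        have h3 : C.comp (tate C D) (cell C D j) = cell C D j := by
          rw [tate, C.sum_comp, Finset.sum_eq_single (j : ℕ)]
          · exact ((orth_cell W hD).mot _ (Finset.mem_range.2 j.2)).idem
          · intro l hl hlj
            exact (orth_cell W hD).orth l hl j (Finset.mem_range.2 j.2) hlj
          · intro h'; exact absurd (Finset.mem_range.2 j.2) h'
        rw [mid, subComp, C.diagC_comp, h3, sub_self]
      have h1' : ∀ j : Fin (G.dim + 1), C.comp (cell C D j) (mid C D) = 0 := by
        intro j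
        have h2 := (orth_cell W hD).sum.2 j (Finset.mem_range.2 j.2)
        rw [mid, compSub, C.comp_diagC, tate, h2, sub_self]
      rintro (_ | i) _ (_ | j) _ hij
      · exact absurd rfl hij
      · exact h1 j
      · exact h1' i
      · refine (orth_cell W hD).orth i (Finset.mem_range.2 i.2) j (Finset.mem_range.2 j.2) ?_
        intro h; exact hij (congrArg some (Fin.ext h))
    · rw [Fintype.sum_option]
      change mid C D + ∑ j : Fin (G.dim + 1), cell C D j = _
      rw [← Finset.sum_range (fun j => cell C D j)]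
      exact mid_add_tate
  | @prod X Y hX hY h1 h2 =>
    obtain ⟨ι, _, _, p, m, hp, ho, hs⟩ := h1
    obtain ⟨κ, _, _, q, n, hq, ho', hs'⟩ := h2
    refine ⟨ι × κ, inferInstance, inferInstance, fun i => C.tensor (p i.1) (q i.2),
      fun i => m i.1 + n i.2, fun i => .prod (hp _) (hq _), ⟨fun i _ => ?_, ?_⟩, ?_⟩
    · exact (hp _).mot.tensor (hq _).mot
    · rintro ⟨i, j⟩ _ ⟨i', j'⟩ _ hij
      rw [C.comp_tensor]
      by_cases h : i = i'
      · have h' : j ≠ j' := fun h' => hij (Prod.ext h h')
        rw [ho'.orth j (Finset.mem_univ _) j' (Finset.mem_univ _) h', C.tensor_zero]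
      · rw [ho.orth i (Finset.mem_univ _) i' (Finset.mem_univ _) h, C.zero_tensor]
    · rw [← C.tensor_diagC, ← hs, ← hs', C.sum_tensor, Fintype.sum_prod_type]
      refine Finset.sum_congr rfl fun i _ => ?_
      rw [C.tensor_sum]

variable {A : ℕ → 𝒱.Obj → 𝒱.Obj → Prop}
  {f : ∀ X : 𝒱.Obj, C.CH (X.prod X) → ℤ → ℤ}

/-- additive invariants which vanish on varieties vanish on middle parts -/
theorem inv_nword {p : C.CH (X.prod X)} (h : NWord W X p) (hA : Stable A)
    (hA0 : ∀ X Y : 𝒱.Obj, X.dim = Y.dim → A 0 X Y)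
    (hP : ∀ s, ∃ P, Pool.Agent.R898.G.IsProj C s P)
    (hf : Inv C A (IsProduct W) f) (hfull : ∀ X, IsProduct W X → ∀ m, f X (C.diagC X) m = 0) :
    ∀ m, f X p m = 0 := by
  have hS : Closed (IsProduct W) := fun X Y hX hY => .prod hX hY
  induction h generalizing f with
  | @mid G D hG hD h =>
    intro m
    obtain ⟨P, hP⟩ := hP G.dim
    obtain ⟨hPd, E, hE, hΔ⟩ := datum_of_isProj hP
    have hPe : IsProduct W P := .elementary (elementary_of_isProj hP)
    have hGe : IsProduct W G := .elementary hG
    have h1 := hf.add G (mid C D) (tate C D) m hGe (mot_mid W hD) (mot_tate W hD)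
      (mid_comp_tate W hD) (tate_comp_mid W hD)
    rw [mid_add_tate, hfull G hGe] at h1
    have h2 := hf.iso 0 G P (tate C D) (tate C E) m hGe hPe (hA0 _ _ hPd.symm) (mot_tate W hD)
      (mot_tate W hE) (twistIso_tate W hD hE hPd)
    rw [hΔ, hfull P hPe] at h2
    rw [← h2, add_zero] at h1
    exact h1.symm
  | @one U hG hU => exact hfull U (.elementary hG)
  | @prod X Y p q hp hq h1 h2 =>
    refine h1 (f := fun X p m => f (X.prod Y) (C.tensor p q) m)
      (hf.right hA hS hq.isProduct hq.mot) fun X' hX' m => ?_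
    refine h2 (f := fun Y p m => f (X'.prod Y) (C.tensor (C.diagC X') p) m)
      (hf.left hA hS hX' (mot_diagC X')) (fun Y' hY' m => ?_) m
    rw [C.tensor_diagC]
    exact hfull _ (.prod hX' hY') m

/-- additive invariants which vanish on middle parts vanish on all words -/
theorem inv_pword {p : C.CH (X.prod X)} {n : ℕ} (h : PWord W X p n)
    (hP : ∀ s, ∃ P, Pool.Agent.R898.G.IsProj C s P)
    (hf : Inv C (fun _ _ _ => True) (IsProduct W) f)
    (hN : ∀ X p, NWord W X p → ∀ m, f X p m = 0) : ∀ m, f X p m = 0 := by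
  have hS : Closed (IsProduct W) := fun X Y hX hY => .prod hX hY
  have hA : Stable (𝒱 := 𝒱) (fun _ _ _ => True) := ⟨fun _ _ _ _ h => h, fun _ _ _ _ h => h⟩
  induction h generalizing f with
  | @mid G D hG hD h => exact hN _ _ (.mid hG hD h)
  | @cell G D j hG hD hj =>
    intro m
    obtain ⟨U, hU⟩ := hP 0
    have hU' := isUnit_of_isProj hU
    have hUe : Elementary W U := elementary_of_isProj hU
    have h1 := hf.iso j U G (C.diagC U) (cell C D j) (m - j) (.elementary hUe) (.elementary hG)
      trivial (mot_diagC U) ((orth_cell W hD).mot _ (Finset.mem_range.2 (by omega)))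
      (twistIso_cell W hU' hD hj)
    rw [sub_add_cancel] at h1
    rw [h1]
    exact hN _ _ (.one hUe hU') _
  | @prod X Y p q m n hp hq h1 h2 =>
    refine h1 (f := fun X p m => f (X.prod Y) (C.tensor p q) m)
      (hf.right hA hS hq.isProduct hq.mot) fun X' p' hX' m => ?_
    refine h2 (f := fun Y p m => f (X'.prod Y) (C.tensor p' p) m)
      (hf.left hA hS hX'.isProduct hX'.mot) (fun Y' q' hY' m => ?_) m
    exact hN _ _ (.prod hX' hY') m

end Pool.Agent.R898.P
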