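import Pool.Agent.R898.HLS

/-!
# Regulators onto semistable Galois cohomology and primitive classes: the definitions used in the
# statement
-/

open CategoryTheory CategoryTheory.Limits AlgebraicGeometry
open Pool.Agent.H914 Pool.Agent.H914.VarClass Pool.Agent.H914.VarClass.Obj
open Pool.Agent.R903 Pool.Agent.R898.HL

universe u v w

namespace Pool.Agent.R898.RG

section Alg

variable {L : Type v} [Field L] {M : Type v} [AddCommGroup M] [Module L M] {N : Type v}
  [AddCommGroup N] [Module L N] {Q : Type v} [AddCommGroup Q] [Module L Q]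

/-- `f = g + h`. -/
def IsSum (f g h : M →ₗ[L] N) : Prop := ∀ x, f x = g x + h x

/-- `f = q g`. -/
def IsMult (q : ℚ) (f g : M →ₗ[L] N) : Prop := ∀ x, f x = (q : L) • g x

/-- `f` is the composition, first `g`, then `h`. -/
def IsComp (f : M →ₗ[L] Q) (g : M →ₗ[L] N) (h : N →ₗ[L] Q) : Prop := ∀ x, f x = h (g x)

/-- `f` is the identity. -/
def IsId (f : M →ₗ[L] M) : Prop := ∀ x, f x = x

/-- `f` is zero. -/
def IsZero (f : M →ₗ[L] N) : Prop := ∀ x, f x = 0

/-- `f` maps `U` into `V`. -/
def MapsInto (f : M →ₗ[L] N) (U : Submodule L M) (V : Submodule L N) : Prop := ∀ x ∈ U, f x ∈ V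

/-- `f` is surjective. -/
def Onto (f : M →ₗ[L] N) : Prop := ∀ y, ∃ x, f x = y

/-- `U` contains the kernel of `f`. -/
def ContainsKer (f : M →ₗ[L] N) (U : Submodule L M) : Prop := ∀ x, f x = 0 → x ∈ U

/-- `U` is everything. -/
def IsAll (U : Submodule L M) : Prop := ∀ x, x ∈ U

end Alg

variable {k : Type u} [Field k] {𝒱 : VarClass k} {C : ChowTheory.{u, v} 𝒱}

/-- The formal properties of the targets `J X j` of the regulators on `H_M^(2j-r)(X, Q(j))`, for fixed
`r ≥ 0`, and of the images: the correspondences of codimension `p` from `X` to `Y` induce maps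
`J X j → J Y (j + p - dim X)`, which are functorial and vanish if the correspondence acts as zero on
`H^(2j-r-1)(X)`; and these maps preserve the subspaces `im X j`. Example: `k` is a number field, `L` the
field of `ℓ`-adic numbers, `J X j = H^1_st(G_k, H^(2j-r-1)(X̄, Q_ℓ(j)))`, and `im X j` is the subspace
generated by the image of the regulator, intersected with `J X j` if one does not know that it is
contained in it. -/
structure RegTheory (W : WeilTheory.{u, v, w} C) (L : Type v) [Field L] (r : ℕ) where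
  /-- the target -/
  J : 𝒱.Obj → ℕ → Type v
  [grp : ∀ X j, AddCommGroup (J X j)]
  [mod : ∀ X j, Module L (J X j)]
  /-- the subspace generated by the image of the regulator -/
  im : ∀ X j, Submodule L (J X j)
  /-- the action of the correspondences -/
  act : ∀ (X Y : 𝒱.Obj) (j i : ℕ), C.CH (X.prod Y) → (J X j →ₗ[L] J Y i)
  add : ∀ X Y j i γ δ, IsSum (act X Y j i (γ + δ)) (act X Y j i γ) (act X Y j i δ)
  smul : ∀ X Y j i (q : ℚ) γ, IsMult q (act X Y j i (q • γ)) (act X Y j i γ)
  id : ∀ X j, IsId (act X X j j (C.diagC X))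
  comp : ∀ X Y Z j i l p q γ δ, Codim C p γ → Codim C q δ → j + p = i + X.dim →
    i + q = l + Y.dim → IsComp (act X Z j l (cp C γ δ)) (act X Y j i γ) (act Y Z i l δ)
  vanish : ∀ X Y j i p γ, Codim C p γ → j + p = i + X.dim →
    (∀ m, m + r + 1 = 2 * j → ZeroOn (W.act γ) (W.gr X m)) → IsZero (act X Y j i γ)
  stable : ∀ X Y j i p γ, Codim C p γ → j + p = i + X.dim →
    MapsInto (act X Y j i γ) (im X j) (im Y i)

attribute [instance] RegTheory.grp RegTheory.mod

/-- The set `I` has arbitrarily large elements. -/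
def Unbounded (I : Set ℕ) : Prop := ∀ n, ∃ i ∈ I, n ≤ i

/-- `0 < d(x ^ r)`. -/
def PosDeg {A : Type v} [CommRing A] [Algebra ℚ A] (d : A →ₗ[ℚ] ℚ) (x : A) (r : ℕ) : Prop :=
  0 < d (x ^ r)

/-- `P a` is a variety of dimension `a` with a divisor class `h a` with `deg (h a)^a > 0` (for
example the projective space and the class of a hyperplane), and the class `S` of pairs `(X, D)` of a
variety and a divisor class is closed under the products with the `(P a, h a)`. -/
structure IsStable (C : ChowTheory.{u, v} 𝒱) (S : ∀ X : 𝒱.Obj, C.CH X → Prop) (P : ℕ → 𝒱.Obj)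
    (h : ∀ a, C.CH (P a)) : Prop where
  memS : ∀ X D, S X D → Codim C 1 D
  dim_eq : ∀ a, (P a).dim = a
  memh : ∀ a, Codim C 1 (h a)
  pos : ∀ a, PosDeg (C.deg (P a)) (h a) a
  prod : ∀ X D a, S X D → S (X.prod (P a)) (sumClass C D (h a))

variable {W : WeilTheory.{u, v, w} C} {L : Type v} [Field L] {r : ℕ} (T : RegTheory W L r)

/-- The operator `D^a : J X j → J X (j + a)`. -/
noncomputable def opD (X : 𝒱.Obj) (D : C.CH X) (j a : ℕ) : T.J X j →ₗ[L] T.J X (j + a) :=
  T.act X X j (j + a) (C.push (diag X) (D ^ a))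

/-- The hard Lefschetz theorem for the targets: `D^a : J X j → J X (j + a)` is surjective if
`(2j - r - 1) + a = dim X`. -/
def HardLef (S : ∀ X : 𝒱.Obj, C.CH X → Prop) : Prop :=
  ∀ X D j a, S X D → 2 * j + a = X.dim + r + 1 → Onto (opD T X D j a)

/-- For the pairs `(X, D)` in `S` the images generate the targets, in all degrees. -/
def AllOnto (S : ∀ X : 𝒱.Obj, C.CH X → Prop) : Prop := ∀ X D j, S X D → IsAll (T.im X j)

/-- For the pairs `(X, D)` in `S` and `j ∈ I` with `2j - r - 1 = dim X` the subspace generated by the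
image contains all `c` in `J X j` with `D c = 0`. -/
def PrimOnto (S : ∀ X : 𝒱.Obj, C.CH X → Prop) (I : Set ℕ) : Prop :=
  ∀ X D, ∀ j ∈ I, S X D → 2 * j = X.dim + r + 1 → ContainsKer (opD T X D j 1) (T.im X j)

end Pool.Agent.R898.RG
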