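import Pool.Agent.R898.EVS

/-!
# The Albanese map for regular varieties and for varieties dominated by products of curves: the
# definitions used in the statement
-/

open CategoryTheory CategoryTheory.Limits AlgebraicGeometry
open Pool.Agent.H914 Pool.Agent.H914.VarClass Pool.Agent.H914.VarClass.Obj
open Pool.Agent.R903 Pool.Agent.R898.HL Pool.Agent.R898.MB Pool.Agent.R898.EV

universe u v w

namespace Pool.Agent.R898.ZC

section Alg

variable {A : Type v} [CommRing A] [Algebra ℚ A] {B : Type v} [CommRing B] [Algebra ℚ B]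
  {D : Type v} [CommRing D] [Algebra ℚ D]

/-- `x` is in the kernel of `T`. -/
def InKer (T : A →ₗ[ℚ] B) (x : A) : Prop := T x = 0

/-- The elements of `W` are sums of elements `c(a, b)` with `a` in `U` and `b` in `V`. -/
def SpannedBy (c : A → B → D) (U : Submodule ℚ A) (V : Submodule ℚ B) (W : Submodule ℚ D) : Prop :=
  ∀ z ∈ W, z ∈ Submodule.span ℚ {w | ∃ a ∈ U, ∃ b ∈ V, c a b = w}

end Alg

variable {k : Type u} [Field k] {𝒱 : VarClass k} {C : ChowTheory.{u, v} 𝒱}
  (W : WeilTheory.{u, v, w} C)

/-- The exterior product `x × y`. -/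
noncomputable def exterior (C : ChowTheory.{u, v} 𝒱) (X Y : 𝒱.Obj) (x : C.CH X) (y : C.CH Y) :
    C.CH (X.prod Y) :=
  mul2 (C.pull (fst X Y)) (C.pull (snd X Y)) x y

/-- `x` is mapped to zero by all divisorial correspondences `D ∈ CH^1(X × Y)`. For a zero-cycle of
degree zero this means that its image in the Albanese variety is torsion. -/
def DivisorsKill (C : ChowTheory.{u, v} 𝒱) {X : 𝒱.Obj} (x : C.CH X) : Prop :=
  ∀ (Y : 𝒱.Obj) (D : C.CH (X.prod Y)), Codim C 1 D → InKer (C.act D) x

/-- The Albanese map of `X` is injective on zero-cycles of degree zero, with rational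
coefficients. -/
def AlbInj (X : 𝒱.Obj) : Prop := ∀ x ∈ homTriv W X X.dim, DivisorsKill C x → x = 0

/-- `H^1(X) = 0`. -/
def Regular (X : 𝒱.Obj) : Prop := W.gr X 1 = ⊥

/-- `z × w = 0` for all zero-cycles `z`, `w` of degree zero on `X` and `Y`. -/
def ProductsZero (X Y : 𝒱.Obj) : Prop :=
  BiZero (exterior C X Y) (homTriv W X X.dim) (homTriv W Y Y.dim)

/-- `X` is a retract of `Z` as far as zero-cycles are concerned: the diagonal of `X` is the
composition of correspondences `X ⊢ Z` and `Z ⊢ X` which preserve dimensions. This holds if there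
is a surjective morphism from `Z` to `X`. -/
def Retract (C : ChowTheory.{u, v} 𝒱) (X Z : 𝒱.Obj) : Prop :=
  ∃ (α : C.CH (X.prod Z)) (β : C.CH (Z.prod X)), Codim C Z.dim α ∧ Codim C X.dim β ∧
    cp C α β = C.diagC X

/-- The zero-cycles on `X × Y` are sums of products of zero-cycles: this holds over algebraically
closed fields. -/
def PointsOfProduct (C : ChowTheory.{u, v} 𝒱) (X Y : 𝒱.Obj) : Prop :=
  SpannedBy (exterior C X Y) (C.gr X X.dim) (C.gr Y Y.dim) (C.gr (X.prod Y) (X.prod Y).dim)

/-- A divisorial correspondence `D ∈ CH^1(X × Y)` which acts as zero on `H^(2 dim X - 1)(X)` kills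
the zero-cycles of degree zero: this is a part of the theory of the Albanese and Picard
varieties. -/
def DivisorFact (X Y : 𝒱.Obj) : Prop :=
  ∀ D : C.CH (X.prod Y), Codim C 1 D → (∀ j, j + 1 = 2 * X.dim → ZeroOn (W.act D) (W.gr X j)) →
    KillsAll (C.act D) (homTriv W X X.dim)

/-- The class `𝒱` is generated by curves: a property of varieties which holds for curves and which
passes to products and retracts holds for all varieties. -/
def GeneratedByCurves (C : ChowTheory.{u, v} 𝒱) : Prop :=
  ∀ P : 𝒱.Obj → Prop, (∀ X, X.dim = 1 → P X) → (∀ X Y, P X → P Y → P (X.prod Y)) →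
    (∀ X Z, Retract C X Z → P Z → P X) → ∀ X, P X

/-- The assumptions on the class `𝒱` and the class `S` of pairs `(A, ι)`. -/
structure IsAbelianType (S : ∀ A : 𝒱.Obj, C.CH (A.prod A) → Prop) : Prop where
  points : ∀ X Y : 𝒱.Obj, PointsOfProduct C X Y
  divisors : ∀ X Y : 𝒱.Obj, DivisorFact W X Y
  curves : GeneratedByCurves C
  parity : ∀ A ι, S A ι → IsParity W A ι
  kummer : ∀ A ι, S A ι → HasKummer W A ι
  prod : ∀ A B ι κ, S A ι → S B κ → S (A.prod B) (tens C ι κ)
  retract : ∀ X : 𝒱.Obj, ∃ (A : 𝒱.Obj) (ι : C.CH (A.prod A)), S A ι ∧ Retract C X A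

end Pool.Agent.R898.ZC
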